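import Pool.Agent.KCH.KStmts

set_option autoImplicit false

namespace Pool.Agent.KCH

theorem ab1_proof (hPTH : Stmt_PTH) (hK1A : Stmt_K1A) : Stmt_AB1 := by
  intro A _ ι κ _ _ _ _ a b h
  obtain ⟨p1, p2, p3, p4, p5, p6, p7, p8⟩ := hPTH A
  obtain ⟨k1, k2, k3, k4, k5, k6, k7⟩ := hK1A A
  have h0 : IsUnit (1 + a * b) := h
  obtain ⟨v, hu1, hu2⟩ : ∃ v : Matrix ι ι A, (1 + a * b) * v = 1 ∧ v * (1 + a * b) = 1 := by
    obtain ⟨u, hu⟩ := h
    exact ⟨(u⁻¹ : (Matrix ι ι A)ˣ), by rw [← hu, u.mul_inv], by rw [← hu, u.inv_mul]⟩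
  have h' : IsUnit (1 + b * a) := by
    refine ⟨⟨1 + b * a, 1 - b * v * a, ?_, ?_⟩, rfl⟩
    · have e : b * (1 + a * b) * v * a = b * a := by
        rw [Matrix.mul_assoc b, hu1, Matrix.mul_one]
      have e2 : b * (1 + a * b) = b + b * a * b := by
        rw [Matrix.mul_add, Matrix.mul_one, Matrix.mul_assoc]
      rw [e2, Matrix.add_mul, Matrix.add_mul] at e
      have e3 : b * a * (b * v * a) = b * a * b * v * a := by simp only [Matrix.mul_assoc]
      rw [mul_sub, mul_one, add_mul, one_mul, e3]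
      have e4 : b * a * b * v * a = b * a - b * v * a := by
        rw [eq_sub_iff_add_eq, add_comm]; exact e
      rw [e4]; abel
    · have e : b * v * (1 + a * b) * a = b * a := by
        rw [Matrix.mul_assoc b, hu2, Matrix.mul_one]
      have e2 : b * v * (1 + a * b) = b * v + b * v * a * b := by
        rw [Matrix.mul_add, Matrix.mul_one, Matrix.mul_assoc (b * v)]
      rw [e2, Matrix.add_mul] at e
      have e3 : b * v * a * (b * a) = b * v * a * b * a := by simp only [Matrix.mul_assoc]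
      rw [sub_mul, one_mul, mul_add, mul_one, e3]
      have e4 : b * v * a * b * a = b * a - b * v * a := by
        rw [eq_sub_iff_add_eq, add_comm]; exact e
      rw [e4]; abel
  refine ⟨h', ?_⟩
  have i1 : IsUnit (1 : Matrix ι ι A) := isUnit_one
  have i2 : IsUnit (1 : Matrix κ κ A) := isUnit_one
  have j1 := p7 ι κ (1 + a * b) a 1 h0 i2
  have j2 := p8 ι κ 1 (-b) 1 i1 i2
  have j3 := p7 ι κ 1 a (1 + b * a) i1 h'
  have un1 : IsUnit (Matrix.fromBlocks (1 + a * b) a 0 (1 : Matrix κ κ A)) := by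
    obtain ⟨γ, hγ⟩ := j1
    have := hγ 0
    rwa [γ.source] at this
  have un2 : IsUnit (Matrix.fromBlocks (1 : Matrix ι ι A) 0 (-b) (1 : Matrix κ κ A)) := by
    obtain ⟨γ, hγ⟩ := j2
    have := hγ 0
    rwa [γ.source] at this
  have un3 : IsUnit (Matrix.fromBlocks (1 : Matrix ι ι A) a 0 (1 + b * a)) := by
    obtain ⟨γ, hγ⟩ := j3
    have := hγ 0
    rwa [γ.source] at this
  have e : Matrix.fromBlocks (1 + a * b) a 0 (1 : Matrix κ κ A) *
      Matrix.fromBlocks (1 : Matrix ι ι A) 0 (-b) (1 : Matrix κ κ A) =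
      Matrix.fromBlocks (1 : Matrix ι ι A) 0 (-b) (1 : Matrix κ κ A) *
      Matrix.fromBlocks (1 : Matrix ι ι A) a 0 (1 + b * a) := by
    rw [Matrix.fromBlocks_multiply, Matrix.fromBlocks_multiply]
    congr 1 <;> simp
  have c1' := k4 _ _ _ un1 un2
  have c2' := k4 _ _ _ un2 un3
  rw [c1_congr e _ (un2.mul un3), c2', add_comm] at c1'
  have c3 := add_right_cancel c1'
  obtain ⟨q1, e1⟩ := k3 ι κ (1 + a * b) 1 h0 i2
  obtain ⟨q3, e3⟩ := k3 ι κ 1 (1 + b * a) i1 h'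
  rw [k5] at e1 e3
  rw [add_zero] at e1
  rw [zero_add] at e3
  rw [← e1, ← e3, ← k2 _ _ _ un1 q1 j1, ← k2 _ _ _ un3 q3 j3]
  exact c3.symm

end Pool.Agent.KCH
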