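import Pool.Agent.KCH.FStmts

/-!
# Squad KCH, module ABS: the abstract form of the argument of Pimsner
-/

set_option autoImplicit false

namespace Pool.Agent.KCH

open TopologicalSpace

namespace ABS_

variable {A B C D : Type} [NonUnitalCStarAlgebra A] [SeparableSpace A]
  [NonUnitalCStarAlgebra B] [SeparableSpace B] [NonUnitalCStarAlgebra C] [SeparableSpace C]
  [NonUnitalCStarAlgebra D] [SeparableSpace D]

theorem mp_eq (F : KKFunctor) (g : B →⋆ₙₐ[ℂ] C) (f : A →⋆ₙₐ[ℂ] B) (h : A →⋆ₙₐ[ℂ] C)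
    (e : ∀ a, g (f a) = h a) (x : F.obj A) : F.map g (F.map f x) = F.map h x := by
  rw [← F.map_comp]
  congr 1
  have : g.comp f = h := by
    ext a
    exact e a
  rw [this]

theorem mp_id (F : KKFunctor) (g : B →⋆ₙₐ[ℂ] A) (f : A →⋆ₙₐ[ℂ] B)
    (e : ∀ a, g (f a) = a) (x : F.obj A) : F.map g (F.map f x) = x := by
  rw [mp_eq F g f (NonUnitalStarAlgHom.id ℂ A) e, F.map_id]

end ABS_

open ABS_ in
theorem abs_proof (hA : Stmt_ADD) : Stmt_ABS := by
  intro F C A JC JA EC EA _ _ _ _ _ _ _ _ _ _ _ _ j kap eps iC pC sC fC iA pA sA fA gA tC tA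
    hiC hpC hsC hfC hiA hpA hsA htC htA hkt hei hes hef hfj horC hhom hgA horA
  obtain ⟨hinjC, hexC⟩ := F.split iC pC sC hiC hpC hsC
  obtain ⟨hinjA, hexA⟩ := F.split iA pA sA hiA hpA hsA
  -- the difference element
  have hd : ∀ x : F.obj A, ∃ y : F.obj JC, F.map iC y = F.map fC x - F.map sC x := by
    intro x
    rw [← hexC, map_sub, mp_id F pC fC hfC, mp_id F pC sC hsC, sub_self]
  choose d hd using hd
  have h1 : ∀ y : F.obj C, d (F.map j y) = F.map tC y := by
    intro y
    apply hinjC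
    rw [hd, mp_eq F iC tC (iC.comp tC) (fun _ => rfl)]
    have h2 := hA F C EC (sC.comp j) (iC.comp tC) (fC.comp j) (fun a => hfj a)
      (fun a b => horC a b) y
    rw [F.map_comp, F.map_comp] at h2
    rw [h2, add_sub_cancel_left]
  have h2 : ∀ x : F.obj A, F.map kap (d x) = F.map tA x := by
    intro x
    apply hinjA
    rw [mp_eq F iA kap (iA.comp kap) (fun _ => rfl),
      ← mp_eq F eps iC (iA.comp kap) (fun y => hei y), hd, map_sub,
      mp_eq F eps fC fA hef, mp_eq F eps sC sA hes, F.homotopy fA gA hhom,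
      hA F A EA sA (iA.comp tA) gA (fun a => hgA a) (fun a b => horA a b) x,
      add_sub_cancel_left, F.map_comp]
  constructor
  · intro y y' h
    apply htC.1
    rw [← h1, ← h1, h]
  · intro x
    obtain ⟨y, hy⟩ := htC.2 (d x)
    refine ⟨y, ?_⟩
    apply htA.1
    rw [← h2 x, ← hy, mp_eq F tA j (tA.comp j) (fun _ => rfl),
      mp_eq F kap tC (tA.comp j) (fun c => hkt c)]

end Pool.Agent.KCH
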