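import Pool.Agent.KCH.KStmts

set_option autoImplicit false

namespace Pool.Agent.KCH

open TopologicalSpace

/-- AD0: additivity on orthogonal sums of homomorphisms -/
theorem ad0_proof : Stmt_AD0 := by
  intro A B _ _ f g h hsum horth x
  have key : K0.map h = K0.map f + K0.map g := by
    apply K0.hom_ext
    intro p
    rw [AddMonoidHom.add_apply, K0.map_cl0, K0.map_cl0, K0.map_cl0, ← c0_fin (p.map h),
      ← c0_fin (p.map f), ← c0_fin (p.map g)]
    have he : mm f p.e * mm f p.e = mm f p.e := by rw [← mm_mul, p.idem]
    have hf : mm g p.e * mm g p.e = mm g p.e := by rw [← mm_mul, p.idem]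
    have hm : mm h p.e = mm f p.e + mm g p.e := by
      ext i j
      exact hsum _
    have h1 : mm f p.e * mm g p.e = 0 := by
      ext i j
      rw [Matrix.mul_apply]
      exact Finset.sum_eq_zero fun k _ => (horth _ _).1
    have h2 : mm g p.e * mm f p.e = 0 := by
      ext i j
      rw [Matrix.mul_apply]
      exact Finset.sum_eq_zero fun k _ => (horth _ _).2
    have h3 := c0_orth he hf h1 h2
    rw [← c0_congr hm (by rw [← mm_mul, p.idem])] at h3
    exact h3
  rw [key]
  rfl

end Pool.Agent.KCH
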