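import Pool.Agent.KCH.KStmts

/-! Squad KCH, module AD1: additivity of `K_1` on orthogonal sums of homomorphisms. -/

set_option autoImplicit false

namespace Pool.Agent.KCH

open TopologicalSpace

theorem ad1_proof (hK1A : Stmt_K1A) : Stmt_AD1 := by
  intro A B _ _ f g h hf hg hh hsum hort x
  have key : K1.map h hh = K1.map f hf + K1.map g hg := by
    apply K1.hom_ext
    intro p
    rw [AddMonoidHom.add_apply, K1.map_cl1, K1.map_cl1, K1.map_cl1]
    have e1 : m1 h p.g = m1 f p.g * m1 g p.g := by
      have e2 : mm h (p.g - 1) = mm f (p.g - 1) + mm g (p.g - 1) := by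
        ext i j
        exact hsum _
      have e3 : mm f (p.g - 1) * mm g (p.g - 1) = 0 := by
        ext i j
        rw [Matrix.mul_apply]
        exact Finset.sum_eq_zero fun k _ => (hort _ _).1
      rw [m1, m1, m1, e2, add_mul, mul_add, mul_add, e3]
      simp only [one_mul, mul_one, add_zero]
      abel
    obtain ⟨-, -, -, hmul, -, hfin, -⟩ := hK1A B
    have a1 := hfin (p.map h)
    have a2 := hfin (p.map f)
    have a3 := hfin (p.map g)
    rw [← a1, ← a2, ← a3]
    have a4 := hmul (Fin p.n) (m1 f p.g) (m1 g p.g) (m1_isUnit f p.isUnit) (m1_isUnit g p.isUnit)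
    refine Eq.trans ?_ a4
    exact c1_congr e1 _ _
  rw [key, AddMonoidHom.add_apply]

end Pool.Agent.KCH
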