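import Pool.Agent.KCH.FStmts

/-!
# Squad KCH, module ADD: additivity of a functor on orthogonal sums
-/

set_option autoImplicit false

namespace Pool.Agent.KCH

open TopologicalSpace

namespace ADD_

/-- the homomorphism `(a, b) ↦ f a + g b` of an orthogonal pair -/
def Phi {A E : Type} [NonUnitalCStarAlgebra A] [NonUnitalCStarAlgebra E] (f g : A →⋆ₙₐ[ℂ] E)
    (hfg : ∀ a b, f a * g b = 0) : A × A →⋆ₙₐ[ℂ] E where
  toFun x := f x.1 + g x.2
  map_smul' c x := by simp [map_smul, smul_add]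
  map_zero' := by simp
  map_add' x y := by
    simp only [Prod.fst_add, Prod.snd_add, map_add]
    abel
  map_mul' x y := by
    have h2 : ∀ a b, g a * f b = 0 := by
      intro a b
      have h := hfg (star b) (star a)
      rw [map_star, map_star, ← star_mul, star_eq_zero] at h
      exact h
    simp only [Prod.fst_mul, Prod.snd_mul, map_mul, add_mul, mul_add, hfg, h2]
    abel
  map_star' x := by
    simp only [Prod.fst_star, Prod.snd_star, map_star, star_add]

end ADD_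

theorem ADD_proof : Stmt_ADD := by
  intro F A E _ _ _ _ f g h hh hfg x
  have hs1 := F.split (NonUnitalStarAlgHom.inl ℂ A A) (NonUnitalStarAlgHom.snd ℂ A A)
    (NonUnitalStarAlgHom.inr ℂ A A) (fun a b hab => (Prod.ext_iff.1 hab).1)
    (fun a => ⟨fun ha => ⟨a.1, Prod.ext rfl ha.symm⟩, by rintro ⟨y, rfl⟩; rfl⟩)
    (fun _ => rfl)
  have hs2 := F.split (NonUnitalStarAlgHom.inr ℂ A A) (NonUnitalStarAlgHom.fst ℂ A A)
    (NonUnitalStarAlgHom.inl ℂ A A) (fun a b hab => (Prod.ext_iff.1 hab).2)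
    (fun a => ⟨fun ha => ⟨a.2, Prod.ext ha.symm rfl⟩, by rintro ⟨y, rfl⟩; rfl⟩)
    (fun _ => rfl)
  have h1 : ∀ y, F.map (NonUnitalStarAlgHom.snd ℂ A A) (F.map (NonUnitalStarAlgHom.inl ℂ A A) y)
      = 0 := fun y => (hs1.2 _).2 ⟨y, rfl⟩
  have h2 : ∀ y, F.map (NonUnitalStarAlgHom.fst ℂ A A) (F.map (NonUnitalStarAlgHom.inr ℂ A A) y)
      = 0 := fun y => (hs2.2 _).2 ⟨y, rfl⟩
  have h3 : ∀ y, F.map (NonUnitalStarAlgHom.fst ℂ A A) (F.map (NonUnitalStarAlgHom.inl ℂ A A) y)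
      = y := fun y => by
    rw [← F.map_comp]
    exact F.map_id A y
  have h4 : ∀ y, F.map (NonUnitalStarAlgHom.snd ℂ A A) (F.map (NonUnitalStarAlgHom.inr ℂ A A) y)
      = y := fun y => by
    rw [← F.map_comp]
    exact F.map_id A y
  have h5 : ∀ y, F.map (NonUnitalStarAlgHom.fst ℂ A A)
      (F.map (NonUnitalStarAlgHom.prod (NonUnitalStarAlgHom.id ℂ A)
        (NonUnitalStarAlgHom.id ℂ A)) y) = y := fun y => by
    rw [← F.map_comp]
    exact F.map_id A y
  have h6 : ∀ y, F.map (NonUnitalStarAlgHom.snd ℂ A A)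
      (F.map (NonUnitalStarAlgHom.prod (NonUnitalStarAlgHom.id ℂ A)
        (NonUnitalStarAlgHom.id ℂ A)) y) = y := fun y => by
    rw [← F.map_comp]
    exact F.map_id A y
  let _ := F.grp (A × A)
  let _ := F.grp A
  let _ := F.grp E
  obtain ⟨w, hw⟩ : ∃ w : F.obj (A × A), w = F.map (NonUnitalStarAlgHom.prod
      (NonUnitalStarAlgHom.id ℂ A) (NonUnitalStarAlgHom.id ℂ A)) x -
      F.map (NonUnitalStarAlgHom.inl ℂ A A) x - F.map (NonUnitalStarAlgHom.inr ℂ A A) x :=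
    ⟨_, rfl⟩
  have hw2 : F.map (NonUnitalStarAlgHom.snd ℂ A A) w = 0 := by
    rw [hw, map_sub, map_sub, h6, h1, h4]
    simp
  have hw1 : F.map (NonUnitalStarAlgHom.fst ℂ A A) w = 0 := by
    rw [hw, map_sub, map_sub, h5, h3, h2]
    simp
  obtain ⟨y, hy⟩ := (hs1.2 w).1 hw2
  have hy0 : y = 0 := by
    rw [← h3 y, hy, hw1]
  have hw0 : w = 0 := by rw [← hy, hy0, map_zero]
  rw [hw0] at hw
  have h7 : F.map (NonUnitalStarAlgHom.prod
      (NonUnitalStarAlgHom.id ℂ A) (NonUnitalStarAlgHom.id ℂ A)) x =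
      F.map (NonUnitalStarAlgHom.inl ℂ A A) x + F.map (NonUnitalStarAlgHom.inr ℂ A A) x := by
    rw [sub_sub] at hw
    exact (sub_eq_zero.1 hw.symm)
  have e1 : (ADD_.Phi f g hfg).comp (NonUnitalStarAlgHom.prod
      (NonUnitalStarAlgHom.id ℂ A) (NonUnitalStarAlgHom.id ℂ A)) = h := by
    ext a
    exact (hh a).symm
  have e2 : (ADD_.Phi f g hfg).comp (NonUnitalStarAlgHom.inl ℂ A A) = f := by
    ext a
    show f a + g 0 = f a
    rw [map_zero, add_zero]
  have e3 : (ADD_.Phi f g hfg).comp (NonUnitalStarAlgHom.inr ℂ A A) = g := by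
    ext a
    show f 0 + g a = g a
    rw [map_zero, zero_add]
  calc F.map h x = F.map (ADD_.Phi f g hfg) (F.map (NonUnitalStarAlgHom.prod
      (NonUnitalStarAlgHom.id ℂ A) (NonUnitalStarAlgHom.id ℂ A)) x) := by
        rw [← F.map_comp, e1]
    _ = F.map (ADD_.Phi f g hfg) (F.map (NonUnitalStarAlgHom.inl ℂ A A) x) +
        F.map (ADD_.Phi f g hfg) (F.map (NonUnitalStarAlgHom.inr ℂ A A) x) := by
        rw [h7, map_add]
    _ = F.map f x + F.map g x := by
        rw [← F.map_comp, e2, ← F.map_comp, e3]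

end Pool.Agent.KCH
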