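import Pool.Agent.KCH.KStmts

/-!
# Squad KCH, module AEQ: approximate equivalences
-/

set_option autoImplicit false

namespace Pool.Agent.KCH

namespace AEQ_

theorem key {A : Type} [Ring A] {ι κ : Type} [Fintype ι] [DecidableEq ι] [Fintype κ]
    [DecidableEq κ] (e : Matrix ι ι A) (f : Matrix κ κ A) (x : Matrix ι κ A) (y : Matrix κ ι A)
    (he : e * e = e) (hf : f * f = f) (hex : e * x = x) (hxf : x * f = x) (hfy : f * y = y)
    (hye : y * e = y) (h1 : IsUnit (1 + (x * y - e))) (h2 : IsUnit (1 + (y * x - f))) :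
    Eqv e f := by
  obtain ⟨u, hu⟩ := h1
  obtain ⟨v, hv⟩ := h2
  obtain ⟨w, hw⟩ : ∃ w : Matrix ι ι A, w = ↑u⁻¹ := ⟨_, rfl⟩
  have huw : (1 + (x * y - e)) * w = 1 := by rw [hw, ← hu]; exact u.mul_inv
  have hwu : w * (1 + (x * y - e)) = 1 := by rw [hw, ← hu]; exact u.inv_mul
  have ha : e * (1 + (x * y - e)) = x * y := by
    rw [mul_add, mul_sub, he, ← Matrix.mul_assoc e x y, hex, mul_one]
    abel
  have hb : (1 + (x * y - e)) * e = x * y := by
    rw [add_mul, sub_mul, he, Matrix.mul_assoc x y e, hye, one_mul]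
    abel
  have h3 : x * (y * w) = e := by
    rw [← Matrix.mul_assoc, ← ha, Matrix.mul_assoc e, huw, Matrix.mul_one]
  have h4 : w * (x * y) = e := by
    rw [← hb, ← Matrix.mul_assoc, hwu, Matrix.one_mul]
  have h5 : y * w * x * (y * x) = y * x := by
    have : y * w * x * (y * x) = y * (w * (x * y)) * x := by simp only [Matrix.mul_assoc]
    rw [this, h4, hye]
  have h6 : f * (y * w * x) = y * w * x := by
    have : f * (y * w * x) = (f * y) * w * x := by simp only [Matrix.mul_assoc]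
    rw [this, hfy]
  have h7 : y * w * x * f = y * w * x := by
    rw [Matrix.mul_assoc, hxf]
  have h8 : (f - y * w * x) * (1 + (y * x - f)) = 0 := by
    have h9 : f * (y * x) = y * x := by rw [← Matrix.mul_assoc, hfy]
    rw [mul_add, mul_sub, mul_one, sub_mul, sub_mul, h9, h5, hf, h7]
    abel
  have h10 : f - y * w * x = 0 := by
    obtain ⟨z, hz⟩ : ∃ z : Matrix κ κ A, (1 + (y * x - f)) * z = 1 :=
      ⟨↑v⁻¹, by rw [← hv]; exact v.mul_inv⟩
    have h11 : (f - y * w * x) * ((1 + (y * x - f)) * z) = 0 := by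
      rw [← mul_assoc, h8, zero_mul]
    rwa [hz, mul_one] at h11
  exact ⟨x, y * w, h3, (sub_eq_zero.1 h10).symm⟩

end AEQ_

theorem AEQ_proof (hMTB : Stmt_MTB) : Stmt_AEQ := by
  intro A _ _ ι κ _ _ _ _
  obtain ⟨ε₁, h₁, H₁⟩ := (hMTB A ι).2.2
  obtain ⟨ε₂, h₂, H₂⟩ := (hMTB A κ).2.2
  refine ⟨min ε₁ ε₂, lt_min h₁ h₂, ?_⟩
  intro e f x y he hf hex hxf hfy hye hd hd'
  exact AEQ_.key e f x y he hf hex hxf hfy hye
    (H₁ _ fun i j => (hd i j).trans_le (min_le_left _ _))
    (H₂ _ fun i j => (hd' i j).trans_le (min_le_right _ _))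

end Pool.Agent.KCH
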