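import Pool.Agent.KCH.KStmts

/-!
# Squad KCH, module BLU: `1 + bl x` is invertible if and only if `1 + x` is
-/

set_option autoImplicit false

namespace Pool.Agent.KCH

namespace BLU_

variable {B J : Type} [CStarAlgebra B] [NonUnitalCStarAlgebra J] {θ : ℕ → ℕ → B →ₗ[ℂ] J}

theorem bl_add {ι : Type} {n : ℕ} (x y : Matrix (ι × Fin n) (ι × Fin n) B) :
    bl θ (x + y) = bl θ x + bl θ y := by
  ext1 i j
  simp only [bl, Matrix.add_apply, map_add, Finset.sum_add_distrib, Unitization.inr_add]

theorem bl_zero {ι : Type} {n : ℕ} : bl θ (0 : Matrix (ι × Fin n) (ι × Fin n) B) = 0 := by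
  ext1 i j
  simp only [bl, Matrix.zero_apply, map_zero, Finset.sum_const_zero, Unitization.inr_zero]

theorem mm_bl {ι : Type} {n : ℕ} (x : Matrix (ι × Fin n) (ι × Fin n) B) :
    mm (aug J) (bl θ x) = 0 := by
  ext1 i j
  rfl

end BLU_

theorem blu_proof (hL : Stmt_LM1) : Stmt_BLU := by
  intro B J _ _ θ hθ ι _ _ n x
  obtain ⟨h1, h2, h3, -, h5⟩ := hL B J θ hθ ι n
  have hinj : ∀ z : Matrix (ι × Fin n) (ι × Fin n) B, bl θ z = 0 → z = 0 := by
    intro z hz
    ext1 a b
    obtain ⟨i, k⟩ := a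
    obtain ⟨j, l⟩ := b
    have h := h3 z i k j l
    rw [hz] at h
    have h' : ‖((0 : Matrix ι ι (Unitization ℂ J)) i j).snd‖ = 0 := by
      rw [Matrix.zero_apply, Unitization.snd_zero, norm_zero]
    rw [h'] at h
    exact norm_le_zero_iff.1 h
  have key : ∀ y z : Matrix (ι × Fin n) (ι × Fin n) B,
      bl θ (y + z + y * z) = bl θ y + bl θ z + bl θ y * bl θ z := by
    intro y z
    rw [BLU_.bl_add, BLU_.bl_add, h1]
  constructor
  · rintro ⟨u, hu⟩
    have e1 : (1 + bl θ x) * (1 + ((↑u⁻¹ : Matrix ι ι (Unitization ℂ J)) - 1)) = 1 := by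
      rw [← hu, add_sub_cancel, u.mul_inv]
    have e2 : (1 + ((↑u⁻¹ : Matrix ι ι (Unitization ℂ J)) - 1)) * (1 + bl θ x) = 1 := by
      rw [← hu, add_sub_cancel, u.inv_mul]
    generalize (↑u⁻¹ : Matrix ι ι (Unitization ℂ J)) - 1 = c at e1 e2
    have c1 : c = -(bl θ x * (1 + c)) := by
      have : (1 + bl θ x) * (1 + c) = 1 + c + bl θ x * (1 + c) := by noncomm_ring
      rw [this] at e1
      have h : c + bl θ x * (1 + c) = 0 := by
        have := e1
        rw [add_assoc] at this
        exact left_eq_add.1 this.symm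
      exact eq_neg_of_add_eq_zero_left h
    have c2 : c = -((1 + c) * bl θ x) := by
      have : (1 + c) * (1 + bl θ x) = 1 + (c + (1 + c) * bl θ x) := by noncomm_ring
      rw [this] at e2
      exact eq_neg_of_add_eq_zero_left (left_eq_add.1 e2.symm)
    have hf : ∀ i j, (c i j).fst = 0 := by
      have h : mm (aug J) c = 0 := by
        rw [c1]
        have h0 : mm (aug J) (-(bl θ x * (1 + c))) = -mm (aug J) (bl θ x * (1 + c)) := by
          ext i j
          simp only [mm_apply, Matrix.neg_apply, map_neg]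
        rw [h0, mm_mul, BLU_.mm_bl, Matrix.zero_mul, neg_zero]
      intro i j
      exact congrFun (congrFun h i) j
    have p1 : PP θ ι n * c = c := by
      have : PP θ ι n * bl θ x = bl θ x := by rw [← h2, ← h1, one_mul]
      rw [c1, mul_neg, ← mul_assoc, this]
    have p2 : c * PP θ ι n = c := by
      have : bl θ x * PP θ ι n = bl θ x := by rw [← h2, ← h1, mul_one]
      conv_lhs => rw [c2]
      rw [neg_mul, mul_assoc, this, ← c2]
    obtain ⟨y, rfl⟩ := h5 c hf (by rw [p1, p2])
    have s1 : x + y + x * y = 0 := by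
      apply hinj
      rw [key]
      have : (1 + bl θ x) * (1 + bl θ y) = 1 + (bl θ x + bl θ y + bl θ x * bl θ y) := by
        noncomm_ring
      rw [this] at e1
      exact left_eq_add.1 e1.symm
    have s2 : y + x + y * x = 0 := by
      apply hinj
      rw [key]
      have : (1 + bl θ y) * (1 + bl θ x) = 1 + (bl θ y + bl θ x + bl θ y * bl θ x) := by
        noncomm_ring
      rw [this] at e2
      exact left_eq_add.1 e2.symm
    refine ⟨⟨1 + x, 1 + y, ?_, ?_⟩, rfl⟩
    · have : (1 + x) * (1 + y) = 1 + (x + y + x * y) := by noncomm_ring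
      rw [this, s1, add_zero]
    · have : (1 + y) * (1 + x) = 1 + (y + x + y * x) := by noncomm_ring
      rw [this, s2, add_zero]
  · rintro ⟨u, hu⟩
    have e1 : (1 + x) * (1 + ((↑u⁻¹ : Matrix (ι × Fin n) (ι × Fin n) B) - 1)) = 1 := by
      rw [← hu, add_sub_cancel, u.mul_inv]
    have e2 : (1 + ((↑u⁻¹ : Matrix (ι × Fin n) (ι × Fin n) B) - 1)) * (1 + x) = 1 := by
      rw [← hu, add_sub_cancel, u.inv_mul]
    generalize (↑u⁻¹ : Matrix (ι × Fin n) (ι × Fin n) B) - 1 = y at e1 e2
    have s1 : x + y + x * y = 0 := by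
      have : (1 + x) * (1 + y) = 1 + (x + y + x * y) := by noncomm_ring
      rw [this] at e1
      exact left_eq_add.1 e1.symm
    have s2 : y + x + y * x = 0 := by
      have : (1 + y) * (1 + x) = 1 + (y + x + y * x) := by noncomm_ring
      rw [this] at e2
      exact left_eq_add.1 e2.symm
    have t1 := key x y
    have t2 := key y x
    rw [s1, BLU_.bl_zero] at t1
    rw [s2, BLU_.bl_zero] at t2
    refine ⟨⟨1 + bl θ x, 1 + bl θ y, ?_, ?_⟩, rfl⟩
    · have : (1 + bl θ x) * (1 + bl θ y) = 1 + (bl θ x + bl θ y + bl θ x * bl θ y) := by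
        noncomm_ring
      rw [this, ← t1, add_zero]
    · have : (1 + bl θ y) * (1 + bl θ x) = 1 + (bl θ y + bl θ x + bl θ y * bl θ x) := by
        noncomm_ring
      rw [this, ← t2, add_zero]

end Pool.Agent.KCH
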