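import Mathlib

/-!
# Kirchberg algebras, `K_0`, `K_1`: definitions (MP_b3c914_an)
-/

set_option autoImplicit false

namespace Pool.Agent.KCH

open TopologicalSpace

/-! ### `K_0` and `K_1` of a unital C*-algebra -/

/-- block sum of two square matrices -/
def bsum {A : Type} [Zero A] {n m : ℕ} (a : Matrix (Fin n) (Fin n) A)
    (b : Matrix (Fin m) (Fin m) A) : Matrix (Fin (n + m)) (Fin (n + m)) A :=
  Matrix.reindex finSumFinEquiv finSumFinEquiv (Matrix.fromBlocks a 0 0 b)

theorem bsum_mul {A : Type} [Ring A] {n m : ℕ} (a c : Matrix (Fin n) (Fin n) A)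
    (b d : Matrix (Fin m) (Fin m) A) : bsum a b * bsum c d = bsum (a * c) (b * d) := by
  simp only [bsum, Matrix.reindex_apply, Matrix.submatrix_mul_equiv, Matrix.fromBlocks_multiply]
  simp

theorem bsum_one {A : Type} [Ring A] (n m : ℕ) :
    bsum (1 : Matrix (Fin n) (Fin n) A) (1 : Matrix (Fin m) (Fin m) A) = 1 := by
  simp [bsum]

theorem bsum_isUnit {A : Type} [Ring A] {n m : ℕ} {a : Matrix (Fin n) (Fin n) A}
    {b : Matrix (Fin m) (Fin m) A} (ha : IsUnit a) (hb : IsUnit b) : IsUnit (bsum a b) := by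
  obtain ⟨u, rfl⟩ := ha
  obtain ⟨v, rfl⟩ := hb
  exact ⟨⟨bsum u v, bsum ↑u⁻¹ ↑v⁻¹, by rw [bsum_mul, u.mul_inv, v.mul_inv, bsum_one],
    by rw [bsum_mul, u.inv_mul, v.inv_mul, bsum_one]⟩, rfl⟩

/-- an idempotent square matrix over `A` -/
structure Idem (A : Type) [Ring A] where
  n : ℕ
  e : Matrix (Fin n) (Fin n) A
  idem : e * e = e

/-- block sum of idempotents -/
def Idem.sum {A : Type} [Ring A] (p q : Idem A) : Idem A :=
  ⟨p.n + q.n, bsum p.e q.e, by rw [bsum_mul, p.idem, q.idem]⟩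

/-- algebraic (Murray-von Neumann) equivalence of idempotents: `e = x y`, `f = y x` -/
def Idem.Equivalent {A : Type} [Ring A] (p q : Idem A) : Prop :=
  ∃ (x : Matrix (Fin p.n) (Fin q.n) A) (y : Matrix (Fin q.n) (Fin p.n) A),
    x * y = p.e ∧ y * x = q.e

/-- the relations of `K_0`: `[e ⊕ f] = [e] + [f]`, and `[e] = [f]` for equivalent idempotents -/
def relK0 (A : Type) [Ring A] : Set (FreeAbelianGroup (Idem A)) :=
  {x | ∃ p q : Idem A, x = FreeAbelianGroup.of (p.sum q) -
      (FreeAbelianGroup.of p + FreeAbelianGroup.of q)} ∪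
  {x | ∃ p q : Idem A, p.Equivalent q ∧ x = FreeAbelianGroup.of p - FreeAbelianGroup.of q}

/-- `K_0(A)` for a unital C*-algebra `A` (it only depends on the ring): the Grothendieck group of
the equivalence classes of idempotent matrices -/
abbrev K0 (A : Type) [Ring A] : Type := FreeAbelianGroup (Idem A) ⧸ AddSubgroup.closure (relK0 A)

/-- an invertible square matrix over `A` -/
structure GLm (A : Type) [Ring A] where
  n : ℕ
  g : Matrix (Fin n) (Fin n) A
  isUnit : IsUnit g

/-- block sum of invertible matrices -/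
def GLm.sum {A : Type} [Ring A] (p q : GLm A) : GLm A :=
  ⟨p.n + q.n, bsum p.g q.g, bsum_isUnit p.isUnit q.isUnit⟩

/-- the relations of `K_1`: `[g ⊕ h] = [g] + [h]`, `[1] = 0`, and `[g] = [h]` if `g` and `h` can be
joined by a continuous path of invertible matrices -/
def relK1 (A : Type) [Ring A] [TopologicalSpace A] : Set (FreeAbelianGroup (GLm A)) :=
  {x | ∃ p q : GLm A, x = FreeAbelianGroup.of (p.sum q) -
      (FreeAbelianGroup.of p + FreeAbelianGroup.of q)} ∪
  {x | ∃ n : ℕ, x = FreeAbelianGroup.of ⟨n, 1, isUnit_one⟩} ∪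
  {x | ∃ (n : ℕ) (g h : Matrix (Fin n) (Fin n) A) (hg : IsUnit g) (hh : IsUnit h),
      JoinedIn {a : Matrix (Fin n) (Fin n) A | IsUnit a} g h ∧
      x = FreeAbelianGroup.of ⟨n, g, hg⟩ - FreeAbelianGroup.of ⟨n, h, hh⟩}

/-- `K_1(A)` for a unital C*-algebra `A`: invertible matrices up to homotopy and stabilisation -/
abbrev K1 (A : Type) [Ring A] [TopologicalSpace A] : Type :=
  FreeAbelianGroup (GLm A) ⧸ AddSubgroup.closure (relK1 A)

/-! ### Kirchberg algebras -/

/-- complete positivity: `∑ b_i^* φ(a_i^* a_j) b_j ≥ 0` for all finite families -/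
def IsCP {A B : Type} [Ring A] [StarRing A] [Module ℂ A] [Ring B] [StarRing B] [Module ℂ B]
    (φ : A →ₗ[ℂ] B) : Prop :=
  ∀ (n : ℕ) (a : Fin n → A) (b : Fin n → B), ∃ c : B,
    ∑ i, ∑ j, star (b i) * φ (star (a i) * a j) * b j = star c * c

/-- nuclearity of a unital C*-algebra: the identity map is a point-norm limit of maps that factor
through matrix algebras by unital completely positive maps -/
def IsNuclear (A : Type) [CStarAlgebra A] : Prop :=
  ∀ (S : Finset A) (ε : ℝ), 0 < ε → ∃ (n : ℕ) (φ : A →ₗ[ℂ] Matrix (Fin n) (Fin n) ℂ)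
    (ψ : Matrix (Fin n) (Fin n) ℂ →ₗ[ℂ] A), IsCP φ ∧ IsCP ψ ∧ φ 1 = 1 ∧ ψ 1 = 1 ∧
      ∀ a ∈ S, ‖ψ (φ a) - a‖ < ε

/-- pure infiniteness of a unital simple C*-algebra (Cuntz): `A` is not `ℂ`, and for every `a ≠ 0`
there are `x`, `y` with `x a y = 1` -/
def IsPurelyInfinite (A : Type) [CStarAlgebra A] : Prop :=
  (∃ a : A, ∀ c : ℂ, a ≠ c • (1 : A)) ∧ ∀ a : A, a ≠ 0 → ∃ x y : A, x * a * y = 1

/-- unital Kirchberg algebras -/
structure IsKirchberg (A : Type) [CStarAlgebra A] : Prop where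
  separable : SeparableSpace A
  simple : IsSimpleRing A
  nuclear : IsNuclear A
  purelyInfinite : IsPurelyInfinite A

/-! ### The universal coefficient theorem -/

/-- homotopic *-homomorphisms: there is a path of *-homomorphisms, continuous at every point -/
def Homotopic {A B : Type} [NonUnitalCStarAlgebra A] [NonUnitalCStarAlgebra B]
    (f g : A →⋆ₙₐ[ℂ] B) : Prop :=
  ∃ H : ℝ → (A →⋆ₙₐ[ℂ] B), (∀ a, Continuous fun t => H t a) ∧ H 0 = f ∧ H 1 = g

/-- a separable C*-algebra -/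
structure SepCAlg where
  carrier : Type
  alg : NonUnitalCStarAlgebra carrier
  sep : SeparableSpace carrier

end Pool.Agent.KCH
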