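import Pool.Agent.KCH.KStmts

/-!
# Squad KCH, module CB0: idempotent matrices over the circle are equivalent to unit matrices
-/

set_option autoImplicit false

namespace Pool.Agent.KCH

open TopologicalSpace

namespace CB0_

/-- evaluation of a matrix of functions -/
noncomputable def evM (x : TC) {ι κ : Type} (A : Matrix ι κ C(TC, ℂ)) : Matrix ι κ ℂ := fun i j => A i j x

theorem evM_mul (x : TC) {ι κ μ : Type} [Fintype κ] (A : Matrix ι κ C(TC, ℂ))
    (B : Matrix κ μ C(TC, ℂ)) : evM x (A * B) = evM x A * evM x B := by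
  ext i j
  simp [evM, Matrix.mul_apply, ContinuousMap.coe_sum]

theorem evM_one (x : TC) {ι : Type} [DecidableEq ι] : evM x (1 : Matrix ι ι C(TC, ℂ)) = 1 := by
  ext i j
  by_cases h : i = j
  · subst h
    simp only [evM, Matrix.one_apply_eq, ContinuousMap.one_apply]
  · simp only [evM, Matrix.one_apply_ne h, ContinuousMap.zero_apply]

theorem evM_ext {ι κ : Type} {A B : Matrix ι κ C(TC, ℂ)} (h : ∀ x, evM x A = evM x B) :
    A = B := by
  ext i j x
  exact congrFun (congrFun (h x) i) j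

theorem evM_const (x : TC) {ι κ : Type} (A : Matrix ι κ ℂ) :
    evM x (mm (algebraMap ℂ C(TC, ℂ) : ℂ →ₙ+* C(TC, ℂ)) A) = A := by
  ext i j
  rfl

/-- gluing -/
noncomputable def lft {ι κ : Type} (F : ℝ → Matrix ι κ ℂ) (hF : Continuous F) (h : F 0 = F 1) :
    Matrix ι κ C(TC, ℂ) := fun i j => ⟨AddCircle.liftIco 1 0 (fun t => F t i j), by
      apply AddCircle.liftIco_continuous
      · rw [zero_add, h]
      · exact (hF.matrix_elem i j).continuousOn⟩

theorem exists_rep (x : TC) : ∃ t ∈ Set.Ico (0 : ℝ) 1, ((t : ℝ) : TC) = x := by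
  have := Fact.mk (zero_lt_one (α := ℝ))
  obtain ⟨t, ht, h⟩ := AddCircle.eq_coe_Ico x
  exact ⟨t, ht, h⟩

theorem evM_lft {ι κ : Type} (F : ℝ → Matrix ι κ ℂ) (hF : Continuous F) (h : F 0 = F 1)
    {t : ℝ} (ht : t ∈ Set.Ico (0 : ℝ) 1) : evM (t : TC) (lft F hF h) = F t := by
  ext i j
  show AddCircle.liftIco 1 0 (fun t => F t i j) (t : TC) = F t i j
  rw [AddCircle.liftIco_coe_apply]
  rw [zero_add]
  exact ht

end CB0_

open CB0_ in
theorem cb0_proof (hG : Stmt_GLC) (hP : Stmt_CBP) (hC : Stmt_CBC) : Stmt_CB0 := by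
  intro n e he
  set E : ℝ → Matrix (Fin n) (Fin n) ℂ := fun t => evM (t : TC) e with hE
  have hEc : Continuous E := by
    apply continuous_matrix
    intro i j
    exact (e i j).continuous.comp (AddCircle.continuous_mk' 1)
  have hEi : ∀ t, E t * E t = E t := by
    intro t
    rw [hE]
    show evM (t : TC) e * evM (t : TC) e = evM (t : TC) e
    rw [← evM_mul, he]
  obtain ⟨g, hgc, hg0, hgu, hg⟩ := hP n E hEc hEi
  have h10 : E 1 = E 0 := by
    show evM ((1 : ℝ) : TC) e = evM ((0 : ℝ) : TC) e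
    have : ((1 : ℝ) : TC) = ((0 : ℝ) : TC) := by
      rw [AddCircle.coe_period]
      rfl
    rw [this]
  obtain ⟨u, hu⟩ := hgu 1
  have hcom : Commute (E 0) (u : Matrix (Fin n) (Fin n) ℂ) := by
    have := hg 1 ⟨zero_le_one, le_rfl⟩
    rw [h10, ← hu] at this
    exact this.symm
  have hcom2 : Commute (E 0) ((u⁻¹ : (Matrix (Fin n) (Fin n) ℂ)ˣ) : Matrix (Fin n) (Fin n) ℂ) :=
    hcom.units_inv_right
  obtain ⟨γ, hγc, hγ0, hγ1, hγu, hγ⟩ := hG (Fin n) _ (u⁻¹).isUnit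
  set F : ℝ → Matrix (Fin n) (Fin n) ℂ := fun t => g t * γ t with hF
  have hFc : Continuous F := hgc.matrix_mul hγc
  have hF0 : F 0 = 1 := by
    show g 0 * γ 0 = 1
    rw [hg0, hγ0, mul_one]
  have hF1 : F 1 = 1 := by
    show g 1 * γ 1 = 1
    rw [hγ1, ← hu, Units.mul_inv]
  have hFu : ∀ t, IsUnit (F t) := fun t => (hgu t).mul (hγu t)
  have hFE : ∀ t ∈ Set.Icc (0 : ℝ) 1, F t * E 0 = E t * F t := by
    intro t ht
    show g t * γ t * E 0 = E t * (g t * γ t)
    rw [mul_assoc, ← (hγ _ hcom2 t).eq, ← mul_assoc, hg t ht, mul_assoc]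
  have hdet : ∀ t, (F t).det ≠ 0 := fun t =>
    ((Matrix.isUnit_iff_isUnit_det _).1 (hFu t)).ne_zero
  have hIc : Continuous fun t => (F t)⁻¹ := by
    have : (fun t => (F t)⁻¹) = fun t => ((F t).det)⁻¹ • (F t).adjugate := by
      funext t
      rw [Matrix.inv_def, Ring.inverse_eq_inv']
    rw [this]
    exact (hFc.matrix_det.inv₀ hdet).smul hFc.matrix_adjugate
  have hI01 : (F 0)⁻¹ = (F 1)⁻¹ := by rw [hF0, hF1]
  set G := lft F hFc (hF0.trans hF1.symm) with hGdef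
  set H := lft (fun t => (F t)⁻¹) hIc hI01 with hHdef
  have hGH : G * H = 1 := by
    apply evM_ext
    intro x
    obtain ⟨t, ht, rfl⟩ := exists_rep x
    rw [evM_mul, evM_one, hGdef, hHdef, evM_lft _ _ _ ht, evM_lft _ _ _ ht]
    exact Matrix.mul_nonsing_inv _ ((Matrix.isUnit_iff_isUnit_det _).1 (hFu t))
  have hHG : H * G = 1 := by
    apply evM_ext
    intro x
    obtain ⟨t, ht, rfl⟩ := exists_rep x
    rw [evM_mul, evM_one, hGdef, hHdef, evM_lft _ _ _ ht, evM_lft _ _ _ ht]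
    exact Matrix.nonsing_inv_mul _ ((Matrix.isUnit_iff_isUnit_det _).1 (hFu t))
  set c : ℂ →ₙ+* C(TC, ℂ) := (algebraMap ℂ C(TC, ℂ) : ℂ →ₙ+* C(TC, ℂ)) with hc
  have hGE : G * mm c (E 0) = e * G := by
    apply evM_ext
    intro x
    obtain ⟨t, ht, rfl⟩ := exists_rep x
    rw [evM_mul, evM_mul, hGdef, evM_lft _ _ _ ht, evM_const]
    exact hFE t ⟨ht.1, ht.2.le⟩
  have hE0 : mm c (E 0) * mm c (E 0) = mm c (E 0) := by rw [← mm_mul, hEi]
  have h1 : Eqv e (mm c (E 0)) := by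
    refine ⟨G * mm c (E 0), mm c (E 0) * H, ?_, ?_⟩
    · have : G * mm c (E 0) * (mm c (E 0) * H) = G * (mm c (E 0) * mm c (E 0)) * H := by
        simp only [Matrix.mul_assoc]
      rw [this, hE0, hGE, Matrix.mul_assoc, hGH, Matrix.mul_one]
    · have : mm c (E 0) * H * (G * mm c (E 0)) = mm c (E 0) * (H * G) * mm c (E 0) := by
        simp only [Matrix.mul_assoc]
      rw [this, hHG, Matrix.mul_one, hE0]
  obtain ⟨r, x, y, hx, hy⟩ := hC n (E 0) (hEi 0)
  refine ⟨r, Eqv.trans he (one_mul _) h1 ⟨mm c x, mm c y, ?_, ?_⟩⟩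
  · rw [← mm_mul, hx]
  · rw [← mm_mul, hy]
    apply evM_ext
    intro z
    rw [evM_const, evM_one]

end Pool.Agent.KCH
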