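import Pool.Agent.KCH.KStmts

set_option autoImplicit false

namespace Pool.Agent.KCH

open TopologicalSpace

theorem cbc_proof : Stmt_CBC := by
  intro n e he
  set f : (Fin n → ℂ) →ₗ[ℂ] (Fin n → ℂ) := Matrix.toLin' e with hf
  have hff : ∀ v, f (f v) = f v := by
    intro v
    rw [hf, Matrix.toLin'_apply, Matrix.toLin'_apply, Matrix.mulVec_mulVec, he]
  let V := LinearMap.range f
  let E : V ≃ₗ[ℂ] (Fin (Module.finrank ℂ V) → ℂ) := (Module.finBasis ℂ V).equivFun
  have hV : ∀ v : V, f (v : Fin n → ℂ) = v := by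
    rintro ⟨v, w, rfl⟩
    exact hff w
  let x : (Fin (Module.finrank ℂ V) → ℂ) →ₗ[ℂ] (Fin n → ℂ) := V.subtype ∘ₗ E.symm.toLinearMap
  let y : (Fin n → ℂ) →ₗ[ℂ] (Fin (Module.finrank ℂ V) → ℂ) := E.toLinearMap ∘ₗ f.rangeRestrict
  have hxy : x ∘ₗ y = f := by
    apply LinearMap.ext
    intro v
    simp [x, y]
  have hyx : y ∘ₗ x = LinearMap.id := by
    apply LinearMap.ext
    intro v
    have h1 : f.rangeRestrict (V.subtype (E.symm v)) = E.symm v := by
      apply Subtype.ext
      exact hV _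
    change E (f.rangeRestrict (V.subtype (E.symm v))) = v
    rw [h1]
    exact E.apply_symm_apply v
  have e1 : LinearMap.toMatrix' x * LinearMap.toMatrix' y = e := by
    rw [← LinearMap.toMatrix'_comp, hxy, hf, LinearMap.toMatrix'_toLin']
  have e2 : LinearMap.toMatrix' y * LinearMap.toMatrix' x = 1 := by
    rw [← LinearMap.toMatrix'_comp, hyx, LinearMap.toMatrix'_id]
  exact ⟨_, LinearMap.toMatrix' x, LinearMap.toMatrix' y, e1, e2⟩

end Pool.Agent.KCH
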