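import Pool.Agent.KCH.KStmts

set_option autoImplicit false

namespace Pool.Agent.KCH

open TopologicalSpace

namespace CBP_

variable {n : ℕ}

/-- the intertwiner of two idempotents -/
def zq (e : ℝ → Matrix (Fin n) (Fin n) ℂ) (s t : ℝ) : Matrix (Fin n) (Fin n) ℂ :=
  e s * e t + (1 - e s) * (1 - e t)

lemma zq_self {e : ℝ → Matrix (Fin n) (Fin n) ℂ} (he : ∀ t, e t * e t = e t) (t : ℝ) : zq e t t = 1 := by
  unfold zq
  have : (1 - e t) * (1 - e t) = 1 - e t := by
    rw [mul_sub, sub_mul, sub_mul, he]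
    simp
  rw [he, this]
  abel

lemma zq_int {e : ℝ → Matrix (Fin n) (Fin n) ℂ} (he : ∀ t, e t * e t = e t) (s t : ℝ) :
    zq e s t * e t = e s * zq e s t := by
  unfold zq
  rw [add_mul, mul_add, mul_assoc, he, mul_assoc, sub_mul 1 (e t) (e t), he, one_mul, sub_self, mul_zero,
    ← mul_assoc, he, ← mul_assoc, mul_sub (e s) 1 (e s), he, mul_one, sub_self, zero_mul]

lemma zq_cont {e : ℝ → Matrix (Fin n) (Fin n) ℂ} (hc : Continuous e) :
    Continuous (fun p : ℝ × ℝ => zq e p.1 p.2) := by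
  unfold zq
  have h1 : Continuous (fun p : ℝ × ℝ => e p.1) := hc.comp continuous_fst
  have h2 : Continuous (fun p : ℝ × ℝ => e p.2) := hc.comp continuous_snd
  exact (h1.matrix_mul h2).add ((continuous_const.sub h1).matrix_mul (continuous_const.sub h2))

/-- clamp -/
noncomputable def clq (t : ℝ) : ℝ := max 0 (min 1 t)

/-- clamped at level `k/m` -/
noncomputable def ckq (m k : ℕ) (t : ℝ) : ℝ := min (clq t) ((k:ℝ) / m)

noncomputable def Gq (e : ℝ → Matrix (Fin n) (Fin n) ℂ) (m : ℕ) : ℕ → ℝ → Matrix (Fin n) (Fin n) ℂ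
  | 0, _ => 1
  | k + 1, t => zq e (ckq m (k + 1) t) (ckq m k t) * Gq e m k t

lemma cl_cont : Continuous clq := by
  unfold clq
  fun_prop

lemma ck_cont (m k : ℕ) : Continuous (ckq m k) := by
  unfold ckq
  exact cl_cont.min continuous_const

lemma cl_mem (t : ℝ) : clq t ∈ Set.Icc (0:ℝ) 1 := by
  unfold clq
  constructor
  · exact le_max_left _ _
  · exact max_le zero_le_one (min_le_left _ _)

lemma ck_mem (m k : ℕ) (t : ℝ) : ckq m k t ∈ Set.Icc (0:ℝ) 1 := by
  unfold ckq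
  have := cl_mem t
  constructor
  · exact le_min this.1 (by positivity)
  · exact (min_le_left _ _).trans this.2

lemma ck_zero (m k : ℕ) : ckq m k 0 = 0 := by
  unfold ckq clq
  have : (0:ℝ) ≤ (k:ℝ) / m := by positivity
  simp [this]

lemma ck_diff (m k : ℕ) (t : ℝ) : |ckq m (k + 1) t - ckq m k t| ≤ 1 / m := by
  unfold ckq
  have h1 : ((k + 1 : ℕ) : ℝ) / m = (k:ℝ)/m + 1/m := by push_cast; ring
  rw [h1]
  have h2 : (0:ℝ) ≤ 1 / m := by positivity
  have h3 := abs_min_sub_min_le_max (clq t) ((k:ℝ)/m + 1/m) (clq t) ((k:ℝ)/m)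
  refine h3.trans ?_
  rw [sub_self, abs_zero, add_sub_cancel_left, abs_of_nonneg h2]
  exact max_le h2 le_rfl

end CBP_

open CBP_ in
theorem cbp_proof (hMTB : Stmt_MTB) : Stmt_CBP := by
  intro n e hc he
  obtain ⟨-, -, ε, hε, hu⟩ := hMTB ℂ (Fin n)
  -- uniform continuity
  obtain ⟨δ, hδ, hδu⟩ : ∃ δ > 0, ∀ s ∈ Set.Icc (0:ℝ) 1, ∀ t ∈ Set.Icc (0:ℝ) 1, |s - t| < δ →
      IsUnit (zq e s t) := by
    have hF : Continuous (fun p : ℝ × ℝ => (fun i j => zq e p.1 p.2 i j : Fin n → Fin n → ℂ)) := zq_cont hc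
    have hK : IsCompact ((Set.Icc (0:ℝ) 1) ×ˢ (Set.Icc (0:ℝ) 1)) := isCompact_Icc.prod isCompact_Icc
    have hU := hK.uniformContinuousOn_of_continuous hF.continuousOn
    rw [Metric.uniformContinuousOn_iff] at hU
    obtain ⟨δ, hδ, hd⟩ := hU ε hε
    refine ⟨δ, hδ, fun s hs t ht hst => ?_⟩
    have h1 := hd (s, t) ⟨hs, ht⟩ (t, t) ⟨ht, ht⟩ (by
      rw [Prod.dist_eq, dist_self, Real.dist_eq]
      exact max_lt hst hδ)
    have h2 : zq e s t = 1 + (zq e s t - 1) := by abel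
    rw [h2]
    refine hu _ fun i j => ?_
    have h3 : dist (zq e s t i j) (zq e t t i j) < ε :=
      lt_of_le_of_lt ((dist_le_pi_dist (fun j => zq e s t i j) (fun j => zq e t t i j) j).trans
        (dist_le_pi_dist (fun i j => zq e s t i j) (fun i j => zq e t t i j) i)) h1
    rw [zq_self he, dist_eq_norm] at h3
    exact h3
  obtain ⟨m, hm⟩ := exists_nat_one_div_lt hδ
  have hm' : (1:ℝ) / ((m + 1 : ℕ) : ℝ) < δ := by exact_mod_cast hm
  set M := m + 1 with hM
  have hMpos : (0:ℝ) < M := by positivity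
  have key : ∀ k : ℕ, Continuous (Gq e M k) ∧ Gq e M k 0 = 1 ∧ (∀ t, IsUnit (Gq e M k t)) ∧
      ∀ t, Gq e M k t * e 0 = e (ckq M k t) * Gq e M k t := by
    intro k
    induction k with
    | zero =>
      refine ⟨continuous_const, rfl, fun t => isUnit_one, fun t => ?_⟩
      have : ckq M 0 t = 0 := by
        unfold ckq
        have := (cl_mem t).1
        simp [this]
      rw [this]
      show (1 : Matrix (Fin n) (Fin n) ℂ) * e 0 = e 0 * 1
      rw [one_mul, mul_one]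
    | succ k ih =>
      obtain ⟨i1, i2, i3, i4⟩ := ih
      refine ⟨?_, ?_, fun t => ?_, fun t => ?_⟩
      · have h1 : Continuous (fun t => zq e (ckq M (k + 1) t) (ckq M k t)) :=
          (zq_cont hc).comp ((ck_cont M (k + 1)).prodMk (ck_cont M k))
        exact h1.matrix_mul i1
      · show zq e (ckq M (k + 1) 0) (ckq M k 0) * Gq e M k 0 = 1
        rw [i2, ck_zero, ck_zero, zq_self he, one_mul]
      · refine IsUnit.mul (hδu _ (ck_mem _ _ _) _ (ck_mem _ _ _) ?_) (i3 t)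
        exact lt_of_le_of_lt (ck_diff M k t) hm'
      · show zq e (ckq M (k + 1) t) (ckq M k t) * Gq e M k t * e 0 =
          e (ckq M (k + 1) t) * (zq e (ckq M (k + 1) t) (ckq M k t) * Gq e M k t)
        rw [mul_assoc, i4, ← mul_assoc, zq_int he, mul_assoc]
  obtain ⟨k1, k2, k3, k4⟩ := key M
  refine ⟨Gq e M M, k1, k2, k3, fun t ht => ?_⟩
  have h1 : ckq M M t = t := by
    unfold ckq clq
    rw [div_self hMpos.ne', min_eq_right ht.2, max_eq_right ht.1, min_eq_left ht.2]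
  have := k4 t
  rwa [h1] at this

end Pool.Agent.KCH
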