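import Pool.Agent.KCH.KStmts

/-!
# Squad KCH, module CK0: `K_0` of the circle
-/

set_option autoImplicit false

namespace Pool.Agent.KCH

namespace CK0_

/-- the class of the unit -/
noncomputable def o1 : K0 C(TC, ℂ) := c0 (1 : Matrix (Fin 1) (Fin 1) C(TC, ℂ)) (one_mul _)

theorem c0_one_fin (r : ℕ) :
    c0 (1 : Matrix (Fin r) (Fin r) C(TC, ℂ)) (one_mul _) = (r : ℤ) • o1 := by
  induction r with
  | zero =>
    rw [Nat.cast_zero, zero_smul]
    exact c0_empty _ _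
  | succ r ih =>
    rw [← c0_one_equiv (finSumFinEquiv : Fin r ⊕ Fin 1 ≃ Fin (r + 1)), c0_one_sum, ih]
    rw [Nat.cast_succ, add_smul, one_smul]
    rfl

theorem trace_bsum {A : Type} [Ring A] {n m : ℕ} (a : Matrix (Fin n) (Fin n) A)
    (b : Matrix (Fin m) (Fin m) A) :
    Matrix.trace (bsum a b) = Matrix.trace a + Matrix.trace b := by
  simp only [Matrix.trace, Matrix.diag, bsum, Matrix.reindex_apply, Matrix.submatrix_apply]
  rw [Equiv.sum_comp finSumFinEquiv.symm (fun i => Matrix.fromBlocks a 0 0 b i i),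
    Fintype.sum_sum_type]
  rfl

/-- the trace at the point `0` -/
noncomputable def T0 (p : Idem C(TC, ℂ)) : ℂ := (Matrix.trace p.e) 0

theorem T_le : AddSubgroup.closure (relK0 C(TC, ℂ)) ≤
    (FreeAbelianGroup.lift T0 : FreeAbelianGroup (Idem C(TC, ℂ)) →+ ℂ).ker := by
  rw [AddSubgroup.closure_le]
  rintro x (⟨p, q, rfl⟩ | ⟨p, q, ⟨a, b, h1, h2⟩, rfl⟩)
  · show FreeAbelianGroup.lift T0 _ = 0
    rw [map_sub, map_add, FreeAbelianGroup.lift_apply_of, FreeAbelianGroup.lift_apply_of,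
      FreeAbelianGroup.lift_apply_of, sub_eq_zero]
    show (Matrix.trace (bsum p.e q.e)) 0 = (Matrix.trace p.e) 0 + (Matrix.trace q.e) 0
    rw [trace_bsum]
    rfl
  · show FreeAbelianGroup.lift T0 _ = 0
    rw [map_sub, FreeAbelianGroup.lift_apply_of, FreeAbelianGroup.lift_apply_of, sub_eq_zero]
    show (Matrix.trace p.e) 0 = (Matrix.trace q.e) 0
    rw [← h1, ← h2, Matrix.trace_mul_comm]

/-- the trace on `K_0` -/
noncomputable def TT0 : K0 C(TC, ℂ) →+ ℂ :=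
  QuotientAddGroup.lift _ (FreeAbelianGroup.lift T0) T_le

theorem TT0_cl0 (p : Idem C(TC, ℂ)) : TT0 (cl0 p) = T0 p := by
  show QuotientAddGroup.lift _ (FreeAbelianGroup.lift T0) _ (QuotientAddGroup.mk _) = _
  rw [QuotientAddGroup.lift_mk, FreeAbelianGroup.lift_apply_of]

theorem TT0_o1 : TT0 o1 = 1 := by
  have h : o1 = cl0 (⟨1, 1, one_mul _⟩ : Idem C(TC, ℂ)) :=
    c0_fin (⟨1, 1, one_mul _⟩ : Idem C(TC, ℂ))
  rw [h, TT0_cl0]
  show (Matrix.trace (1 : Matrix (Fin 1) (Fin 1) C(TC, ℂ))) 0 = 1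
  rw [Matrix.trace_one]
  simp

theorem TT0_smul (k : ℤ) : TT0 (k • o1) = k := by
  rw [map_zsmul, TT0_o1]
  simp

theorem surj (h : Stmt_CB0) (x : K0 C(TC, ℂ)) : ∃ k : ℤ, k • o1 = x := by
  obtain ⟨n, m, e, he, rfl⟩ := K0.exists_sub x
  obtain ⟨r, hr⟩ := h n e he
  refine ⟨r - m, ?_⟩
  rw [c0_eq he (one_mul _) hr, c0_one_fin, c0_one_fin, sub_smul]

end CK0_

open CK0_

theorem CK0_proof (h : Stmt_CB0) : Stmt_CK0 := by
  refine ⟨⟨(AddEquiv.ofBijective (zmultiplesHom (K0 C(TC, ℂ)) o1) ⟨?_, ?_⟩).symm⟩, ?_⟩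
  · intro k l hkl
    rw [zmultiplesHom_apply, zmultiplesHom_apply] at hkl
    have h1 := congrArg TT0 hkl
    rw [TT0_smul, TT0_smul] at h1
    exact_mod_cast h1
  · intro x
    obtain ⟨k, hk⟩ := surj h x
    exact ⟨k, by rw [zmultiplesHom_apply, hk]⟩
  · intro N hN h1
    have h2 : ((N : ℤ)) • o1 = 0 := by
      rw [natCast_zsmul]; exact h1
    have h3 := congrArg TT0 h2
    rw [TT0_smul, map_zero] at h3
    have h4 : (N : ℤ) = 0 := by exact_mod_cast h3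
    omega

end Pool.Agent.KCH
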