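import Pool.Agent.KCH.KStmts

/-!
# Squad KCH, module CK1: `K_1` of the circle
-/

set_option autoImplicit false

namespace Pool.Agent.KCH

open TopologicalSpace

namespace CK1_

/-- the `1 × 1` matrix `z^k` -/
noncomputable def zk (k : ℤ) : Matrix (Fin 1) (Fin 1) C(TC, ℂ) :=
  Matrix.diagonal fun _ => fourier k

theorem four_mul (k l : ℤ) : (fourier k : C(TC, ℂ)) * fourier l = fourier (k + l) := by
  ext x
  rw [ContinuousMap.mul_apply, ← fourier_add]

theorem zk_mul (k l : ℤ) : zk k * zk l = zk (k + l) := by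
  rw [zk, zk, Matrix.diagonal_mul_diagonal, zk]
  congr 1
  funext _
  exact four_mul k l

theorem zk_zero : zk 0 = 1 := by
  rw [zk, ← Matrix.diagonal_one]
  congr 1
  funext _
  ext x
  simp

theorem zk_isUnit (k : ℤ) : IsUnit (zk k) :=
  ⟨⟨zk k, zk (-k), by rw [zk_mul, add_neg_cancel, zk_zero], by
    rw [zk_mul, neg_add_cancel, zk_zero]⟩, rfl⟩

theorem zk_one : zk 1 = zz := rfl

theorem c1_congr {ι : Type} [Fintype ι] [DecidableEq ι] {g h : Matrix ι ι C(TC, ℂ)}
    (e : g = h) (hg : IsUnit g) (hh : IsUnit h) : c1 g hg = c1 h hh := by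
  subst e
  rfl

theorem c1_zk (hK1A : Stmt_K1A) (k : ℤ) : c1 (zk k) (zk_isUnit k) = k • c1 zz zz_isUnit := by
  obtain ⟨-, -, -, h4, h5, -, -⟩ := hK1A C(TC, ℂ)
  have hstep : ∀ k : ℤ, c1 (zk (k + 1)) (zk_isUnit (k + 1)) =
      c1 (zk k) (zk_isUnit k) + c1 zz zz_isUnit := by
    intro k
    rw [← h4]
    refine c1_congr ?_ _ _
    rw [← zk_one, zk_mul]
  have h0 : c1 (zk 0) (zk_isUnit 0) = 0 := by
    rw [← h5 (Fin 1)]
    exact c1_congr zk_zero _ _
  induction k using Int.induction_on with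
  | zero => rw [h0, zero_smul]
  | succ i ih => rw [hstep, ih, add_smul, one_smul]
  | pred i ih =>
    have h := hstep (-(i : ℤ) - 1)
    rw [sub_add_cancel, ih] at h
    rw [sub_smul, one_smul, h, add_sub_cancel_right]

end CK1_

open CK1_

theorem ck1_proof (hK1A : Stmt_K1A) (hCR1 : Stmt_CR1) (hGE1 : Stmt_GE1) (hLOG : Stmt_LOG) :
    Stmt_CK1 := by
  have hbij : Function.Bijective (zmultiplesHom (K1 C(TC, ℂ)) (c1 zz zz_isUnit)) := by
    constructor
    · rw [injective_iff_map_eq_zero]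
      intro k hk
      rw [zmultiplesHom_apply, ← c1_zk hK1A k] at hk
      obtain ⟨m, hm⟩ := hCR1 C(TC, ℂ) 1 (zk k) (zk_isUnit k) hk
      apply hLOG k
      have h1 := JoinedIn.map hm (f := Matrix.det) (Continuous.matrix_det continuous_id)
      have h2 : Matrix.det (Matrix.fromBlocks (zk k) 0 0 (1 : Matrix (Fin m) (Fin m) C(TC, ℂ))) =
          fourier k := by
        rw [Matrix.det_fromBlocks_zero₂₁, Matrix.det_one, mul_one, zk, Matrix.det_diagonal]
        simp
      rw [h2, Matrix.det_one] at h1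
      refine h1.mono ?_
      rintro _ ⟨a, ha, rfl⟩
      exact (Matrix.isUnit_iff_isUnit_det a).1 ha
    · intro x
      obtain ⟨k, hk⟩ := hGE1 x
      exact ⟨k, hk.symm⟩
  exact ⟨(AddEquiv.ofBijective _ hbij).symm⟩

end Pool.Agent.KCH
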