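import Pool.Agent.KCH.KStmts

/-!
# Squad KCH, module CLO: close idempotents are equivalent
-/

set_option autoImplicit false

namespace Pool.Agent.KCH

namespace CLO_

theorem key {A : Type} [Ring A] {ι : Type} [Fintype ι] [DecidableEq ι]
    (e f : Matrix ι ι A) (he : e * e = e) (hf : f * f = f)
    (h1 : IsUnit (1 + (f - e) * (2 * e - 1))) :
    Eqv e f ∧ ∃ z : (Matrix ι ι A)ˣ, z * e = f * z := by
  obtain ⟨z, hz⟩ := h1
  have hz' : (z : Matrix ι ι A) = f * e + (1 - f) * (1 - e) := by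
    rw [hz]
    have : (f - e) * (2 * e - 1) = 2 * (f * e) - f - 2 * (e * e) + e := by noncomm_ring
    rw [this, he]
    noncomm_ring
  have h2 : (z : Matrix ι ι A) * e = f * e := by
    rw [hz']
    have : (f * e + (1 - f) * (1 - e)) * e = f * (e * e) + (1 - f) * (e - e * e) := by
      noncomm_ring
    rw [this, he, sub_self, mul_zero, add_zero]
  have h3 : f * (z : Matrix ι ι A) = f * e := by
    rw [hz']
    have : f * (f * e + (1 - f) * (1 - e)) = (f * f) * e + (f - f * f) * (1 - e) := by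
      noncomm_ring
    rw [this, hf, sub_self, zero_mul, add_zero]
  have h4 : (z : Matrix ι ι A) * e = f * (z : Matrix ι ι A) := by rw [h2, h3]
  refine ⟨?_, z, h4⟩
  obtain ⟨w, hw⟩ : ∃ w : Matrix ι ι A, w = (z⁻¹ : (Matrix ι ι A)ˣ) := ⟨_, rfl⟩
  have hwz : w * (z : Matrix ι ι A) = 1 := by rw [hw]; exact z.inv_mul
  have hzw : (z : Matrix ι ι A) * w = 1 := by rw [hw]; exact z.mul_inv
  refine ⟨e * w, (z : Matrix ι ι A) * e, ?_, ?_⟩
  · have : e * w * ((z : Matrix ι ι A) * e) = e * (w * (z : Matrix ι ι A)) * e := by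
      noncomm_ring
    rw [this, hwz, mul_one, he]
  · have : (z : Matrix ι ι A) * e * (e * w) = (z : Matrix ι ι A) * (e * e) * w := by
      noncomm_ring
    rw [this, he, h4, mul_assoc, hzw, mul_one]

end CLO_

theorem CLO_proof (hMTB : Stmt_MTB) : Stmt_CLO := by
  intro A _ _ ι _ _ e he
  obtain ⟨ε, h₁, H⟩ := (hMTB A ι).2.2
  obtain ⟨C, hC⟩ : ∃ C : ℝ, C = ∑ k, ∑ j, ‖(2 * e - 1 : Matrix ι ι A) k j‖ := ⟨_, rfl⟩
  have hC0 : 0 ≤ C := by
    rw [hC]
    exact Finset.sum_nonneg fun _ _ => Finset.sum_nonneg fun _ _ => norm_nonneg _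
  refine ⟨ε / (C + 1), by positivity, ?_⟩
  intro f hf hfe
  apply CLO_.key e f he hf
  apply H
  intro i j
  rw [Matrix.mul_apply]
  refine lt_of_le_of_lt (norm_sum_le _ _) ?_
  have h5 : ∑ k, ‖(f - e) i k * (2 * e - 1 : Matrix ι ι A) k j‖ ≤
      ∑ k, (ε / (C + 1)) * ‖(2 * e - 1 : Matrix ι ι A) k j‖ := by
    apply Finset.sum_le_sum
    intro k _
    refine (norm_mul_le _ _).trans ?_
    apply mul_le_mul_of_nonneg_right _ (norm_nonneg _)
    exact (hfe i k).le
  have h6 : ∑ k, ‖(2 * e - 1 : Matrix ι ι A) k j‖ ≤ C := by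
    rw [hC]
    apply Finset.sum_le_sum
    intro k _
    exact Finset.single_le_sum (f := fun j => ‖(2 * e - 1 : Matrix ι ι A) k j‖) (fun _ _ => norm_nonneg _)
      (Finset.mem_univ j)
  refine lt_of_le_of_lt h5 ?_
  rw [← Finset.mul_sum]
  have h7 : 0 < C + 1 := by linarith
  calc (ε / (C + 1)) * ∑ k, ‖(2 * e - 1 : Matrix ι ι A) k j‖ ≤ (ε / (C + 1)) * C :=
        mul_le_mul_of_nonneg_left h6 (by positivity)
    _ < (ε / (C + 1)) * (C + 1) := mul_lt_mul_of_pos_left (by linarith) (by positivity)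
    _ = ε := div_mul_cancel₀ _ h7.ne'

end Pool.Agent.KCH
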