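import Pool.Agent.KCH.KStmts

/-!
# Squad KCH, module CNJ: equivalent idempotents are conjugate after adding zeros
-/

set_option autoImplicit false

namespace Pool.Agent.KCH

theorem t_cnj : Stmt_CNJ := by
  intro A _ ι _ _ e f he hf h
  obtain ⟨x, y, h1, h2, h3, h4, h5, h6⟩ := Eqv.normal he hf h
  have e1 : (1 - e) * (1 - e) = 1 - e := compl_idem he
  have f1 : (1 - f) * (1 - f) = 1 - f := compl_idem hf
  have a1 : x * (1 - f) = 0 := by rw [mul_sub, h4, mul_one, sub_self]
  have a2 : (1 - e) * x = 0 := by rw [sub_mul, h3, one_mul, sub_self]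
  have a3 : (1 - f) * y = 0 := by rw [sub_mul, h5, one_mul, sub_self]
  have a4 : y * (1 - e) = 0 := by rw [mul_sub, h6, mul_one, sub_self]
  have a5 : (1 - f) * f = 0 := by rw [sub_mul, hf, one_mul, sub_self]
  have a6 : e * (1 - e) = 0 := by rw [mul_sub, he, mul_one, sub_self]
  refine ⟨⟨Matrix.fromBlocks x (1 - e) (1 - f) y, Matrix.fromBlocks y (1 - f) (1 - e) x, ?_, ?_⟩,
    ?_⟩
  · rw [Matrix.fromBlocks_multiply, h1, e1, a1, a2, a3, a4, f1, h2]
    rw [← Matrix.fromBlocks_one]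
    congr 1 <;> abel
  · rw [Matrix.fromBlocks_multiply, h1, e1, a1, a2, a3, a4, f1, h2]
    rw [← Matrix.fromBlocks_one]
    congr 1 <;> abel
  · show Matrix.fromBlocks x (1 - e) (1 - f) y * Matrix.fromBlocks f 0 0 0 =
      Matrix.fromBlocks e 0 0 0 * Matrix.fromBlocks x (1 - e) (1 - f) y
    rw [Matrix.fromBlocks_multiply, Matrix.fromBlocks_multiply, h4, a5, h3, a6]
    simp

end Pool.Agent.KCH
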