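import Pool.Agent.KCH.KStmts

/-!
CR0: criterion for equality in `K_0`.
-/

set_option autoImplicit false

namespace Pool.Agent.KCH

open TopologicalSpace

namespace CR0_

variable {A : Type} [Ring A]

lemma sum_eqv (p q : Idem A) : Eqv (Matrix.fromBlocks p.e 0 0 q.e) (p.sum q).e :=
  Eqv.reindex finSumFinEquiv _ (fromBlocks_idem p.idem q.idem)

lemma blocks {ι κ ι' κ' : Type} [Fintype ι] [Fintype κ] [Fintype ι'] [Fintype κ']
    {a : Matrix ι ι A} {b : Matrix κ κ A} {a' : Matrix ι' ι' A} {b' : Matrix κ' κ' A}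
    (h : Eqv a a') (h' : Eqv b b') :
    Eqv (Matrix.fromBlocks a 0 0 b) (Matrix.fromBlocks a' 0 0 b') := by
  obtain ⟨x, y, h1, h2⟩ := h
  obtain ⟨x', y', h1', h2'⟩ := h'
  refine ⟨Matrix.fromBlocks x 0 0 x', Matrix.fromBlocks y 0 0 y', ?_, ?_⟩
  · rw [Matrix.fromBlocks_multiply]; simp [h1, h1']
  · rw [Matrix.fromBlocks_multiply]; simp [h2, h2']

lemma comm_ {ι κ : Type} [Fintype ι] [Fintype κ] {a : Matrix ι ι A} {b : Matrix κ κ A}
    (ha : a * a = a) (hb : b * b = b) :
    Eqv (Matrix.fromBlocks a 0 0 b) (Matrix.fromBlocks b 0 0 a) := by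
  have h := Eqv.reindex (Equiv.sumComm ι κ) _ (fromBlocks_idem ha hb)
  have e : Matrix.reindex (Equiv.sumComm ι κ) (Equiv.sumComm ι κ) (Matrix.fromBlocks a 0 0 b) =
      Matrix.fromBlocks b 0 0 a := by
    ext i j
    rcases i with i | i <;> rcases j with j | j <;> rfl
  rwa [e] at h

lemma assoc_ {ι κ μ : Type} [Fintype ι] [Fintype κ] [Fintype μ] {a : Matrix ι ι A}
    {b : Matrix κ κ A} {c : Matrix μ μ A} (ha : a * a = a) (hb : b * b = b) (hc : c * c = c) :
    Eqv (Matrix.fromBlocks (Matrix.fromBlocks a 0 0 b) 0 0 c)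
      (Matrix.fromBlocks a 0 0 (Matrix.fromBlocks b 0 0 c)) := by
  have h := Eqv.reindex (Equiv.sumAssoc ι κ μ) _
    (fromBlocks_idem (fromBlocks_idem ha hb) hc)
  have e : Matrix.reindex (Equiv.sumAssoc ι κ μ) (Equiv.sumAssoc ι κ μ)
      (Matrix.fromBlocks (Matrix.fromBlocks a 0 0 b) 0 0 c) =
      Matrix.fromBlocks a 0 0 (Matrix.fromBlocks b 0 0 c) := by
    ext i j
    rcases i with i | i | i <;> rcases j with j | j | j <;> rfl
  rwa [e] at h

lemma zero_ {κ : Type} [Fintype κ] {b : Matrix κ κ A} (hb : b * b = b) :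
    Eqv (Matrix.fromBlocks (0 : Matrix (Fin 0) (Fin 0) A) 0 0 b) b := by
  have h := Eqv.reindex (Equiv.emptySum (Fin 0) κ) _ (fromBlocks_idem (e := (0 : Matrix (Fin 0) (Fin 0) A)) (by simp) hb)
  have e : Matrix.reindex (Equiv.emptySum (Fin 0) κ) (Equiv.emptySum (Fin 0) κ)
      (Matrix.fromBlocks (0 : Matrix (Fin 0) (Fin 0) A) 0 0 b) = b := by
    ext i j
    rfl
  rwa [e] at h

/-- the setoid -/
def st (A : Type) [Ring A] : Setoid (Idem A) where
  r p q := Eqv p.e q.e
  iseqv := ⟨fun p => Eqv.refl p.idem, fun h => h.symm,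
    fun {p _ r} h h' => Eqv.trans p.idem r.idem h h'⟩

/-- the monoid of classes -/
def Q (A : Type) [Ring A] : Type := Quotient (st A)

/-- the class -/
def cq (p : Idem A) : Q A := Quotient.mk (st A) p

lemma cq_eq {p q : Idem A} : cq p = cq q ↔ Eqv p.e q.e := by
  constructor
  · intro h; exact Quotient.exact h
  · intro h; exact Quotient.sound h

lemma sum_congr {p q p' q' : Idem A} (h : Eqv p.e p'.e) (h' : Eqv q.e q'.e) :
    Eqv (p.sum q).e (p'.sum q').e :=
  Eqv.trans (p.sum q).idem (p'.sum q').idem (sum_eqv p q).symm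
    (Eqv.trans (fromBlocks_idem p.idem q.idem) (p'.sum q').idem (blocks h h') (sum_eqv p' q'))

/-- addition -/
def qadd : Q A → Q A → Q A :=
  Quotient.map₂ Idem.sum fun _ _ h _ _ h' => sum_congr h h'

/-- zero -/
def qzero : Q A := cq ⟨0, 0, by simp⟩

lemma qadd_cq (p q : Idem A) : qadd (cq p) (cq q) = cq (p.sum q) := rfl

instance : Zero (Q A) := ⟨qzero⟩

instance : Add (Q A) := ⟨qadd⟩

instance : AddCommMonoid (Q A) where
  add_assoc := by
    intro a b c
    induction a using Quotient.inductionOn with | _ p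
    induction b using Quotient.inductionOn with | _ q
    induction c using Quotient.inductionOn with | _ r
    show cq ((p.sum q).sum r) = cq (p.sum (q.sum r))
    rw [cq_eq]
    have i1 := fromBlocks_idem (fromBlocks_idem p.idem q.idem) r.idem
    have i2 := fromBlocks_idem p.idem (fromBlocks_idem q.idem r.idem)
    have i3 := fromBlocks_idem (p.sum q).idem r.idem
    have i4 := fromBlocks_idem p.idem (q.sum r).idem
    refine Eqv.trans (Idem.idem _) (Idem.idem _) (sum_eqv (p.sum q) r).symm ?_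
    refine Eqv.trans i3 (Idem.idem _) (blocks (sum_eqv p q).symm (Eqv.refl r.idem)) ?_
    refine Eqv.trans i1 (Idem.idem _) (assoc_ p.idem q.idem r.idem) ?_
    refine Eqv.trans i2 (Idem.idem _) (blocks (Eqv.refl p.idem) (sum_eqv q r)) ?_
    exact sum_eqv p (q.sum r)
  zero_add := by
    intro a
    induction a using Quotient.inductionOn with | _ p
    show cq (Idem.sum ⟨0, 0, by simp⟩ p) = cq p
    rw [cq_eq]
    exact Eqv.trans (Idem.idem _) p.idem (sum_eqv ⟨0, 0, by simp⟩ p).symm (zero_ p.idem)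
  add_zero := by
    intro a
    induction a using Quotient.inductionOn with | _ p
    show cq (Idem.sum p ⟨0, 0, by simp⟩) = cq p
    rw [cq_eq]
    have i0 : (0 : Matrix (Fin 0) (Fin 0) A) * 0 = 0 := by simp
    refine Eqv.trans (Idem.idem _) p.idem (sum_eqv p ⟨0, 0, i0⟩).symm ?_
    exact Eqv.trans (fromBlocks_idem p.idem i0) p.idem (comm_ p.idem i0) (zero_ p.idem)
  add_comm := by
    intro a b
    induction a using Quotient.inductionOn with | _ p
    induction b using Quotient.inductionOn with | _ q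
    show cq (p.sum q) = cq (q.sum p)
    rw [cq_eq]
    refine Eqv.trans (Idem.idem _) (Idem.idem _) (sum_eqv p q).symm ?_
    exact Eqv.trans (fromBlocks_idem p.idem q.idem) (Idem.idem _) (comm_ p.idem q.idem)
      (sum_eqv q p)
  nsmul := nsmulRec

lemma cq_add (p q : Idem A) : cq (p.sum q) = cq p + cq q := rfl

/-- the comparison map -/
noncomputable def Phi (A : Type) [Ring A] : K0 A →+ Algebra.GrothendieckAddGroup (Q A) :=
  QuotientAddGroup.lift _ (FreeAbelianGroup.lift fun p => Algebra.GrothendieckAddGroup.of (cq p)) (by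
    rw [AddSubgroup.closure_le]
    rintro x (⟨p, q, rfl⟩ | ⟨p, q, h, rfl⟩)
    · show FreeAbelianGroup.lift _ _ = 0
      rw [map_sub, map_add, FreeAbelianGroup.lift_apply_of, FreeAbelianGroup.lift_apply_of,
        FreeAbelianGroup.lift_apply_of, cq_add, map_add, sub_self]
    · show FreeAbelianGroup.lift _ _ = 0
      have e : cq p = cq q := cq_eq.2 h
      rw [map_sub, FreeAbelianGroup.lift_apply_of, FreeAbelianGroup.lift_apply_of, e, sub_self])

lemma Phi_cl (p : Idem A) : Phi A (cl0 p) = Algebra.GrothendieckAddGroup.of (cq p) := by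
  show FreeAbelianGroup.lift _ _ = _
  rw [FreeAbelianGroup.lift_apply_of]

/-- the unit matrix -/
def un (A : Type) [Ring A] (k : ℕ) : Idem A := ⟨k, 1, one_mul _⟩

/-- the complement -/
def co (p : Idem A) : Idem A := ⟨p.n, 1 - p.e, compl_idem p.idem⟩

lemma cq_co (p : Idem A) : cq (co p) + cq p = cq (un A p.n) := by
  rw [add_comm, ← cq_add, cq_eq]
  have key : Eqv (Matrix.fromBlocks p.e 0 0 (1 - p.e)) (1 : Matrix (Fin p.n) (Fin p.n) A) := by
    refine ⟨Matrix.fromRows p.e (1 - p.e), Matrix.fromCols p.e (1 - p.e), ?_, ?_⟩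
    · rw [Matrix.fromRows_mul_fromCols, p.idem, compl_idem p.idem, mul_sub, p.idem, sub_mul, p.idem]
      simp
    · rw [Matrix.fromCols_mul_fromRows, p.idem, compl_idem p.idem]
      simp
  exact Eqv.trans (Idem.idem _) (Idem.idem _) (sum_eqv p (co p)).symm key

end CR0_

open CR0_ in
theorem cr0_proof : Stmt_CR0 := by
  intro A _ n m e f he hf h
  set p : Idem A := ⟨n, e, he⟩ with hp
  set q : Idem A := ⟨m, f, hf⟩ with hq
  have h1 : cl0 p = cl0 q := by
    rw [← c0_fin p, ← c0_fin q]; exact h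
  have h2 : (Algebra.GrothendieckAddGroup.of (cq p) : Algebra.GrothendieckAddGroup (Q A)) =
      Algebra.GrothendieckAddGroup.of (cq q) := by
    rw [← Phi_cl, ← Phi_cl, h1]
  obtain ⟨c, hc⟩ := ((AddLocalization.addMonoidOf (⊤ : AddSubmonoid (Q A))).eq_iff_exists).1 h2
  obtain ⟨g, hg⟩ : ∃ g : Idem A, cq g = (c : Q A) := Quotient.exists_rep _
  rw [← hg] at hc
  have h3 : cq p + cq (un A g.n) = cq q + cq (un A g.n) := by
    rw [← cq_co g]
    have h4 : cq (co g) + (cq g + cq p) = cq (co g) + (cq g + cq q) := by rw [hc]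
    calc cq p + (cq (co g) + cq g) = cq (co g) + (cq g + cq p) := by
          rw [add_comm (cq p), add_assoc]
      _ = cq (co g) + (cq g + cq q) := h4
      _ = cq q + (cq (co g) + cq g) := by rw [add_comm (cq q), add_assoc]
  refine ⟨g.n, ?_⟩
  rw [← cq_add, ← cq_add, cq_eq] at h3
  have i1 : Matrix.fromBlocks e 0 0 (1 : Matrix (Fin g.n) (Fin g.n) A) *
      Matrix.fromBlocks e 0 0 1 = Matrix.fromBlocks e 0 0 1 := fromBlocks_idem he (one_mul _)
  have i2 : Matrix.fromBlocks f 0 0 (1 : Matrix (Fin g.n) (Fin g.n) A) *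
      Matrix.fromBlocks f 0 0 1 = Matrix.fromBlocks f 0 0 1 := fromBlocks_idem hf (one_mul _)
  exact Eqv.trans i1 i2 (sum_eqv p (un A g.n))
    (Eqv.trans (Idem.idem _) i2 h3 (sum_eqv q (un A g.n)).symm)

end Pool.Agent.KCH
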