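import Pool.Agent.KCH.KStmts

set_option autoImplicit false

namespace Pool.Agent.KCH

open TopologicalSpace

namespace CR1_

section
variable {A : Type} [CStarAlgebra A]

/-- `M` is a padding of `h` on `X` -/
def Pad {κ X : Type} [Fintype κ] [DecidableEq κ] [Fintype X] [DecidableEq X]
    (h : Matrix κ κ A) (M : Matrix X X A) : Prop :=
  ∃ (K : Type) (_ : Fintype K) (_ : DecidableEq K) (a : κ ⊕ K ≃ X),
    M = Matrix.reindex a a (Matrix.fromBlocks h 0 0 (1 : Matrix K K A))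

omit [CStarAlgebra A] in
theorem reindex_trans {ι κ μ : Type} (σ : ι ≃ κ) (τ : κ ≃ μ) (g : Matrix ι ι A) :
    Matrix.reindex τ τ (Matrix.reindex σ σ g) =
      Matrix.reindex (σ.trans τ) (σ.trans τ) g := rfl

theorem reindex_one {ι κ : Type} [DecidableEq ι] [DecidableEq κ] (σ : ι ≃ κ) :
    Matrix.reindex σ σ (1 : Matrix ι ι A) = 1 := by simp

theorem isUnit_reindex {ι κ : Type} [Fintype ι] [DecidableEq ι] [Fintype κ] [DecidableEq κ]
    (σ : ι ≃ κ) {g : Matrix ι ι A} (hg : IsUnit g) : IsUnit (Matrix.reindex σ σ g) := by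
  obtain ⟨u, rfl⟩ := hg
  refine ⟨⟨Matrix.reindex σ σ u, Matrix.reindex σ σ (↑u⁻¹ : Matrix ι ι A), ?_, ?_⟩, rfl⟩
  · rw [Matrix.reindex_apply, Matrix.reindex_apply, Matrix.submatrix_mul_equiv, u.mul_inv]
    simp
  · rw [Matrix.reindex_apply, Matrix.reindex_apply, Matrix.submatrix_mul_equiv, u.inv_mul]
    simp

theorem isUnit_diag {ι κ : Type} [Fintype ι] [DecidableEq ι] [Fintype κ] [DecidableEq κ]
    {g : Matrix ι ι A} {h : Matrix κ κ A} (hg : IsUnit g) (hh : IsUnit h) :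
    IsUnit (Matrix.fromBlocks g 0 0 h) := by
  obtain ⟨u, rfl⟩ := hg
  obtain ⟨v, rfl⟩ := hh
  refine ⟨⟨Matrix.fromBlocks u 0 0 v, Matrix.fromBlocks (↑u⁻¹ : Matrix ι ι A) 0 0
    (↑v⁻¹ : Matrix κ κ A), ?_, ?_⟩, rfl⟩
  · rw [Matrix.fromBlocks_multiply]; simp
  · rw [Matrix.fromBlocks_multiply]; simp

/-- two reindexings of an invertible matrix are joined -/
theorem jn_two (hP : Stmt_PTH) {ι X : Type} [Fintype ι] [DecidableEq ι] [Fintype X]
    [DecidableEq X] (a b : ι ≃ X) {g : Matrix ι ι A} (hg : IsUnit g) :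
    Jn (Matrix.reindex a a g) (Matrix.reindex b b g) := by
  have h := (hP A).2.2.2.2.1 X (b.symm.trans a) (Matrix.reindex b b g) (isUnit_reindex b hg)
  rw [reindex_trans] at h
  have e : b.trans (b.symm.trans a) = a := by ext x; simp
  rw [e] at h
  exact h

theorem pad_unique (hP : Stmt_PTH) {κ X : Type} [Fintype κ] [DecidableEq κ] [Fintype X]
    [DecidableEq X] {h : Matrix κ κ A} (hh : IsUnit h) {M N : Matrix X X A} (H1 : Pad h M)
    (H2 : Pad h N) : Jn M N := by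
  obtain ⟨K, _, _, a, rfl⟩ := H1
  obtain ⟨L, _, _, b, rfl⟩ := H2
  have hc : Fintype.card K = Fintype.card L := by
    have h1 := Fintype.card_congr a
    have h2 := Fintype.card_congr b
    rw [Fintype.card_sum] at h1 h2
    omega
  have σ : K ≃ L := Fintype.equivOfCardEq hc
  have e : Matrix.fromBlocks h 0 0 (1 : Matrix L L A) =
      Matrix.reindex ((Equiv.refl κ).sumCongr σ) ((Equiv.refl κ).sumCongr σ)
        (Matrix.fromBlocks h 0 0 (1 : Matrix K K A)) := by
    ext i j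
    rcases i with i | i <;> rcases j with j | j <;> simp [Matrix.one_apply]
  rw [e, reindex_trans]
  exact jn_two hP _ _ (isUnit_diag hh isUnit_one)

theorem pad_self {κ : Type} [Fintype κ] [DecidableEq κ] (h : Matrix κ κ A) : Pad h h := by
  refine ⟨Empty, inferInstance, inferInstance, Equiv.sumEmpty κ Empty, ?_⟩
  ext i j
  simp

theorem pad_reindex {κ X Y : Type} [Fintype κ] [DecidableEq κ] [Fintype X] [DecidableEq X]
    [Fintype Y] [DecidableEq Y] {h : Matrix κ κ A} {M : Matrix X X A} (H : Pad h M)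
    (σ : X ≃ Y) : Pad h (Matrix.reindex σ σ M) := by
  obtain ⟨K, _, _, a, rfl⟩ := H
  exact ⟨K, inferInstance, inferInstance, a.trans σ, rfl⟩

theorem pad_sum {κ κ' X Y : Type} [Fintype κ] [DecidableEq κ] [Fintype X] [DecidableEq X]
    [Fintype κ'] [DecidableEq κ'] [Fintype Y] [DecidableEq Y] {h : Matrix κ κ A}
    {h' : Matrix κ' κ' A} {M : Matrix X X A} {N : Matrix Y Y A} (H : Pad h M) (H' : Pad h' N) :
    Pad (Matrix.fromBlocks h 0 0 h') (Matrix.fromBlocks M 0 0 N) := by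
  obtain ⟨K, _, _, a, rfl⟩ := H
  obtain ⟨L, _, _, b, rfl⟩ := H'
  refine ⟨K ⊕ L, inferInstance, inferInstance,
    (Equiv.sumSumSumComm κ κ' K L).trans (a.sumCongr b), ?_⟩
  rw [← reindex_trans]
  have e : Matrix.reindex (Equiv.sumSumSumComm κ κ' K L) (Equiv.sumSumSumComm κ κ' K L)
      (Matrix.fromBlocks (Matrix.fromBlocks h 0 0 h') 0 0 (1 : Matrix (K ⊕ L) (K ⊕ L) A)) =
      Matrix.fromBlocks (Matrix.fromBlocks h 0 0 (1 : Matrix K K A)) 0 0
        (Matrix.fromBlocks h' 0 0 (1 : Matrix L L A)) := by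
    ext i j
    rcases i with (i | i) | (i | i) <;> rcases j with (j | j) | (j | j) <;>
      simp [Matrix.one_apply]
  rw [e]
  ext i j
  rcases i with i | i <;> rcases j with j | j <;> simp

theorem pad_one {κ : Type} [Fintype κ] [DecidableEq κ] {Y : Type} [Fintype Y] [DecidableEq Y]
    {X : Type} [Fintype X] [DecidableEq X] {h : Matrix κ κ A} {M : Matrix X X A} (H : Pad h M) :
    Pad h (Matrix.fromBlocks M 0 0 (1 : Matrix Y Y A)) := by
  obtain ⟨K, _, _, a, rfl⟩ := H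
  refine ⟨K ⊕ Y, inferInstance, inferInstance,
    (Equiv.sumAssoc κ K Y).symm.trans (a.sumCongr (Equiv.refl Y)), ?_⟩
  rw [← reindex_trans]
  have e : Matrix.reindex (Equiv.sumAssoc κ K Y).symm (Equiv.sumAssoc κ K Y).symm
      (Matrix.fromBlocks h 0 0 (1 : Matrix (K ⊕ Y) (K ⊕ Y) A)) =
      Matrix.fromBlocks (Matrix.fromBlocks h 0 0 (1 : Matrix K K A)) 0 0
        (1 : Matrix Y Y A) := by
    ext i j
    rcases i with (i | i) | i <;> rcases j with (j | j) | j <;>
      simp [Matrix.one_apply]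
  rw [e]
  ext i j
  rcases i with i | i <;> rcases j with j | j <;> simp

/-- stable path equivalence -/
def St {ι κ : Type} [Fintype ι] [DecidableEq ι] [Fintype κ] [DecidableEq κ]
    (g : Matrix ι ι A) (h : Matrix κ κ A) : Prop :=
  ∃ (X : Type) (_ : Fintype X) (_ : DecidableEq X) (M N : Matrix X X A),
    Pad g M ∧ Pad h N ∧ Jn M N

section
variable {ι κ μ ν : Type} [Fintype ι] [DecidableEq ι] [Fintype κ] [DecidableEq κ]
  [Fintype μ] [DecidableEq μ] [Fintype ν] [DecidableEq ν]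

theorem St.of_jn {g h : Matrix ι ι A} (H : Jn g h) : St g h :=
  ⟨ι, _, _, g, h, pad_self g, pad_self h, H⟩

theorem St.refl {g : Matrix ι ι A} (hg : IsUnit g) : St g g := St.of_jn (JoinedIn.refl hg)

theorem St.symm {g : Matrix ι ι A} {h : Matrix κ κ A} (H : St g h) : St h g := by
  obtain ⟨X, _, _, M, N, h1, h2, h3⟩ := H
  exact ⟨X, _, _, N, M, h2, h1, JoinedIn.symm h3⟩

theorem St.trans (hP : Stmt_PTH) {g : Matrix ι ι A} {h : Matrix κ κ A} {m : Matrix μ μ A}
    (hh : IsUnit h) (H : St g h) (H' : St h m) : St g m := by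
  obtain ⟨X, _, _, M, N, h1, h2, h3⟩ := H
  obtain ⟨Y, _, _, M', N', h1', h2', h3'⟩ := H'
  have a1 : Jn (Matrix.fromBlocks M 0 0 (1 : Matrix Y Y A))
      (Matrix.fromBlocks N 0 0 (1 : Matrix Y Y A)) :=
    (hP A).2.1 X Y M N 1 1 h3 (JoinedIn.refl isUnit_one)
  have a2 : Jn (Matrix.fromBlocks M' 0 0 (1 : Matrix X X A))
      (Matrix.fromBlocks N' 0 0 (1 : Matrix X X A)) :=
    (hP A).2.1 Y X M' N' 1 1 h3' (JoinedIn.refl isUnit_one)
  have a3 := (hP A).2.2.1 (Y ⊕ X) (X ⊕ Y) (Equiv.sumComm Y X) _ _ a2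
  have a4 := pad_unique hP hh (pad_one (Y := Y) h2)
    (pad_reindex (pad_one (Y := X) h1') (Equiv.sumComm Y X))
  refine ⟨X ⊕ Y, _, _, _, _, pad_one (Y := Y) h1,
    pad_reindex (pad_one (Y := X) h2') (Equiv.sumComm Y X), ?_⟩
  exact (JoinedIn.trans a1 a4).trans a3

theorem St.reindex {g : Matrix ι ι A} (hg : IsUnit g) (σ : ι ≃ κ) :
    St g (Matrix.reindex σ σ g) :=
  ⟨κ, _, _, _, _, pad_reindex (pad_self g) σ, pad_self _, JoinedIn.refl (isUnit_reindex σ hg)⟩

theorem St.sum (hP : Stmt_PTH) {g : Matrix ι ι A} {g' : Matrix κ κ A} {h : Matrix μ μ A}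
    {h' : Matrix ν ν A} (H : St g g') (H' : St h h') :
    St (Matrix.fromBlocks g 0 0 h) (Matrix.fromBlocks g' 0 0 h') := by
  obtain ⟨X, _, _, M, N, h1, h2, h3⟩ := H
  obtain ⟨Y, _, _, M', N', h1', h2', h3'⟩ := H'
  exact ⟨X ⊕ Y, _, _, _, _, pad_sum h1 h1', pad_sum h2 h2', (hP A).2.1 X Y M N M' N' h3 h3'⟩

theorem St.one : St (1 : Matrix ι ι A) (1 : Matrix κ κ A) := by
  refine ⟨ι ⊕ κ, _, _, 1, 1, ?_, ?_, JoinedIn.refl isUnit_one⟩
  · exact ⟨κ, inferInstance, inferInstance, Equiv.refl _, by simp [Matrix.fromBlocks_one]⟩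
  · refine ⟨ι, inferInstance, inferInstance, Equiv.sumComm _ _, ?_⟩
    rw [Matrix.fromBlocks_one, reindex_one]

end

theorem bsum_st {n m : ℕ} {a : Matrix (Fin n) (Fin n) A} {b : Matrix (Fin m) (Fin m) A}
    (ha : IsUnit a) (hb : IsUnit b) : St (Matrix.fromBlocks a 0 0 b) (bsum a b) :=
  St.reindex (isUnit_diag ha hb) finSumFinEquiv

/-- the setoid of stable path equivalence -/
def stSetoid (hP : Stmt_PTH) (A : Type) [CStarAlgebra A] : Setoid (GLm A) where
  r p q := St p.g q.g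
  iseqv := ⟨fun p => St.refl p.isUnit, fun h => h.symm, fun {_ q _} h h' => h.trans hP q.isUnit h'⟩

/-- the group of stable classes -/
def GG (hP : Stmt_PTH) (A : Type) [CStarAlgebra A] : Type := Quotient (stSetoid hP A)

def gmk (hP : Stmt_PTH) (p : GLm A) : GG hP A := Quotient.mk (stSetoid hP A) p

theorem gmk_eq (hP : Stmt_PTH) {p q : GLm A} (h : St p.g q.g) : gmk hP p = gmk hP q :=
  Quotient.sound (s := stSetoid hP A) h

theorem gmk_exact (hP : Stmt_PTH) {p q : GLm A} (h : gmk hP p = gmk hP q) : St p.g q.g :=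
  Quotient.exact (s := stSetoid hP A) h

theorem sum_rel (hP : Stmt_PTH) {p p' q q' : GLm A} (h : St p.g p'.g) (h' : St q.g q'.g) :
    St (p.sum q).g (p'.sum q').g := by
  have h1 := (bsum_st p.isUnit q.isUnit).symm
  have h2 := bsum_st p'.isUnit q'.isUnit
  exact (h1.trans hP (isUnit_diag p.isUnit q.isUnit) (h.sum hP h')).trans hP
    (isUnit_diag p'.isUnit q'.isUnit) h2

def gadd (hP : Stmt_PTH) (x y : GG hP A) : GG hP A :=
  Quotient.map₂ (sa := stSetoid hP A) (sb := stSetoid hP A) (sc := stSetoid hP A) GLm.sum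
    (fun _ _ h _ _ h' => sum_rel hP h h') x y

theorem gadd_mk (hP : Stmt_PTH) (p q : GLm A) :
    gadd hP (gmk hP p) (gmk hP q) = gmk hP (p.sum q) := rfl

/-- the inverse matrix -/
noncomputable def GLm.inv (p : GLm A) : GLm A := ⟨p.n, Ring.inverse p.g, p.isUnit.ringInverse⟩

theorem pad_ringInverse {κ X : Type} [Fintype κ] [DecidableEq κ] [Fintype X] [DecidableEq X]
    {h : Matrix κ κ A} (hh : IsUnit h) {M : Matrix X X A} (H : Pad h M) :
    Pad (Ring.inverse h) (Ring.inverse M) := by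
  obtain ⟨K, _, _, a, rfl⟩ := H
  refine ⟨K, inferInstance, inferInstance, a, ?_⟩
  have h1 : Matrix.reindex a a (Matrix.fromBlocks h 0 0 (1 : Matrix K K A)) *
      Matrix.reindex a a (Matrix.fromBlocks (Ring.inverse h) 0 0 (1 : Matrix K K A)) = 1 := by
    rw [Matrix.reindex_apply, Matrix.reindex_apply, Matrix.submatrix_mul_equiv,
      Matrix.fromBlocks_multiply, Ring.mul_inverse_cancel _ hh]
    simp
  have h2 := isUnit_reindex a (isUnit_diag hh (isUnit_one : IsUnit (1 : Matrix K K A)))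
  calc Ring.inverse (Matrix.reindex a a (Matrix.fromBlocks h 0 0 (1 : Matrix K K A)))
      = Ring.inverse (Matrix.reindex a a (Matrix.fromBlocks h 0 0 (1 : Matrix K K A))) *
        (Matrix.reindex a a (Matrix.fromBlocks h 0 0 (1 : Matrix K K A)) *
      Matrix.reindex a a (Matrix.fromBlocks (Ring.inverse h) 0 0 (1 : Matrix K K A))) := by
        rw [h1, mul_one]
    _ = _ := by rw [← mul_assoc, Ring.inverse_mul_cancel _ h2, one_mul]

theorem inv_rel (hP : Stmt_PTH) {p q : GLm A} (h : St p.g q.g) :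
    St (GLm.inv p).g (GLm.inv q).g := by
  obtain ⟨X, _, _, M, N, h1, h2, h3⟩ := h
  exact ⟨X, _, _, _, _, pad_ringInverse p.isUnit h1, pad_ringInverse q.isUnit h2,
    (hP A).2.2.2.1 X M N h3⟩

noncomputable def gneg (hP : Stmt_PTH) (x : GG hP A) : GG hP A :=
  Quotient.map (sa := stSetoid hP A) (sb := stSetoid hP A) GLm.inv (fun _ _ h => inv_rel hP h) x

theorem gneg_mk (hP : Stmt_PTH) (p : GLm A) : gneg hP (gmk hP p) = gmk hP (GLm.inv p) := rfl

def gzero (hP : Stmt_PTH) (A : Type) [CStarAlgebra A] : GG hP A := gmk hP ⟨0, 1, isUnit_one⟩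

theorem gmk_surj (hP : Stmt_PTH) (x : GG hP A) : ∃ p, gmk hP p = x := Quotient.exists_rep x

theorem gadd_assoc (hP : Stmt_PTH) (x y z : GG hP A) :
    gadd hP (gadd hP x y) z = gadd hP x (gadd hP y z) := by
  obtain ⟨p, rfl⟩ := gmk_surj hP x
  obtain ⟨q, rfl⟩ := gmk_surj hP y
  obtain ⟨r, rfl⟩ := gmk_surj hP z
  rw [gadd_mk, gadd_mk, gadd_mk, gadd_mk]
  apply gmk_eq
  have h1 := (bsum_st (p.sum q).isUnit r.isUnit).symm
  have h2 := (bsum_st p.isUnit q.isUnit).symm.sum hP (St.refl r.isUnit)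
  have h3 := St.reindex (isUnit_diag (isUnit_diag p.isUnit q.isUnit) r.isUnit)
    (Equiv.sumAssoc (Fin p.n) (Fin q.n) (Fin r.n))
  have e : Matrix.reindex (Equiv.sumAssoc (Fin p.n) (Fin q.n) (Fin r.n))
      (Equiv.sumAssoc (Fin p.n) (Fin q.n) (Fin r.n))
      (Matrix.fromBlocks (Matrix.fromBlocks p.g 0 0 q.g) 0 0 r.g) =
      Matrix.fromBlocks p.g 0 0 (Matrix.fromBlocks q.g 0 0 r.g) := by
    ext i j
    rcases i with i | (i | i) <;> rcases j with j | (j | j) <;> rfl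
  rw [e] at h3
  have h4 := (St.refl p.isUnit).sum hP (bsum_st q.isUnit r.isUnit)
  have h5 := bsum_st p.isUnit (q.sum r).isUnit
  have u1 := isUnit_diag (p.sum q).isUnit r.isUnit
  have u2 := isUnit_diag (isUnit_diag p.isUnit q.isUnit) r.isUnit
  have u3 := isUnit_diag p.isUnit (isUnit_diag q.isUnit r.isUnit)
  have u4 := isUnit_diag p.isUnit (q.sum r).isUnit
  exact (((h1.trans hP u1 h2).trans hP u2 h3).trans hP u3 h4).trans hP u4 h5

theorem gadd_comm (hP : Stmt_PTH) (x y : GG hP A) : gadd hP x y = gadd hP y x := by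
  obtain ⟨p, rfl⟩ := gmk_surj hP x
  obtain ⟨q, rfl⟩ := gmk_surj hP y
  rw [gadd_mk, gadd_mk]
  apply gmk_eq
  have h1 := (bsum_st p.isUnit q.isUnit).symm
  have h3 := St.reindex (isUnit_diag p.isUnit q.isUnit) (Equiv.sumComm (Fin p.n) (Fin q.n))
  have e : Matrix.reindex (Equiv.sumComm (Fin p.n) (Fin q.n))
      (Equiv.sumComm (Fin p.n) (Fin q.n)) (Matrix.fromBlocks p.g 0 0 q.g) =
      Matrix.fromBlocks q.g 0 0 p.g := by
    ext i j
    rcases i with i | i <;> rcases j with j | j <;> rfl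
  rw [e] at h3
  exact (h1.trans hP (isUnit_diag p.isUnit q.isUnit) h3).trans hP
    (isUnit_diag q.isUnit p.isUnit) (bsum_st q.isUnit p.isUnit)

theorem gzero_add (hP : Stmt_PTH) (x : GG hP A) : gadd hP (gzero hP A) x = x := by
  obtain ⟨p, rfl⟩ := gmk_surj hP x
  rw [gzero, gadd_mk]
  apply gmk_eq
  have h1 := (bsum_st (isUnit_one : IsUnit (1 : Matrix (Fin 0) (Fin 0) A)) p.isUnit).symm
  refine h1.trans hP (isUnit_diag isUnit_one p.isUnit) ?_
  refine ⟨Fin 0 ⊕ Fin p.n, _, _, _, _, pad_self _, ?_,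
    JoinedIn.refl (isUnit_diag isUnit_one p.isUnit)⟩
  refine ⟨Fin 0, inferInstance, inferInstance, Equiv.sumComm _ _, ?_⟩
  ext i j
  rcases i with i | i <;> rcases j with j | j <;> rfl

theorem gneg_add (hP : Stmt_PTH) (x : GG hP A) : gadd hP (gneg hP x) x = gzero hP A := by
  obtain ⟨p, rfl⟩ := gmk_surj hP x
  rw [gneg_mk, gadd_mk, gzero]
  apply gmk_eq
  have u := (GLm.inv p).isUnit
  have h1 := (bsum_st u p.isUnit).symm
  have h2 : Jn (Matrix.fromBlocks (Ring.inverse p.g * p.g) 0 0 1)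
      (Matrix.fromBlocks (Ring.inverse p.g) 0 0 p.g) :=
    (hP A).2.2.2.2.2.1 _ _ _ u p.isUnit
  rw [Ring.inverse_mul_cancel _ p.isUnit, Matrix.fromBlocks_one] at h2
  refine (h1.trans hP (isUnit_diag u p.isUnit) (St.of_jn h2).symm).trans hP isUnit_one St.one

noncomputable instance (hP : Stmt_PTH) : Add (GG hP A) := ⟨gadd hP⟩
noncomputable instance (hP : Stmt_PTH) : Zero (GG hP A) := ⟨gzero hP A⟩
noncomputable instance (hP : Stmt_PTH) : Neg (GG hP A) := ⟨gneg hP⟩

noncomputable instance (hP : Stmt_PTH) : AddCommGroup (GG hP A) :=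
  { AddGroup.ofLeftAxioms (gadd_assoc hP) (gzero_add hP) (gneg_add hP) with
    add_comm := gadd_comm hP }

theorem kills (hP : Stmt_PTH) : AddSubgroup.closure (relK1 A) ≤
    (FreeAbelianGroup.lift (gmk hP : GLm A → GG hP A)).ker := by
  rw [AddSubgroup.closure_le]
  rintro x ((⟨p, q, rfl⟩ | ⟨n, rfl⟩) | ⟨n, g, h, hg, hh, H, rfl⟩)
  · show FreeAbelianGroup.lift (gmk hP) _ = 0
    rw [map_sub, map_add, FreeAbelianGroup.lift_apply_of, FreeAbelianGroup.lift_apply_of,
      FreeAbelianGroup.lift_apply_of, sub_eq_zero]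
    rfl
  · show FreeAbelianGroup.lift (gmk hP) _ = 0
    rw [FreeAbelianGroup.lift_apply_of]
    exact gmk_eq hP St.one
  · show FreeAbelianGroup.lift (gmk hP) _ = 0
    rw [map_sub, FreeAbelianGroup.lift_apply_of, FreeAbelianGroup.lift_apply_of, sub_eq_zero]
    exact gmk_eq hP (St.of_jn H)

end

end CR1_

open CR1_ in
theorem cr1_proof (hPTH : Stmt_PTH) : Stmt_CR1 := by
  intro A _ n g hg h0
  have h1 : FreeAbelianGroup.of (⟨Fintype.card (Fin n), toFin g, toFin_isUnit hg⟩ : GLm A) ∈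
      AddSubgroup.closure (relK1 A) := (QuotientAddGroup.eq_zero_iff _).1 h0
  have h2 : FreeAbelianGroup.lift (gmk hPTH : GLm A → GG hPTH A)
      (FreeAbelianGroup.of (⟨Fintype.card (Fin n), toFin g, toFin_isUnit hg⟩ : GLm A)) = 0 :=
    kills hPTH h1
  rw [FreeAbelianGroup.lift_apply_of] at h2
  have h3 : St (toFin g) (1 : Matrix (Fin 0) (Fin 0) A) := gmk_exact hPTH h2
  have h4 : St g (1 : Matrix (Fin 0) (Fin 0) A) :=
    (St.reindex hg (Fintype.equivFin (Fin n))).trans hPTH (toFin_isUnit hg) h3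
  obtain ⟨X, _, _, M, N, ⟨K, _, _, a, rfl⟩, ⟨L, _, _, b, rfl⟩, H⟩ := h4
  rw [Matrix.fromBlocks_one, reindex_one] at H
  have H2 := (hPTH A).2.2.1 _ _ (a.symm.trans ((Equiv.refl (Fin n)).sumCongr
    (Fintype.equivFin K))) _ _ H
  rw [reindex_trans, reindex_one] at H2
  refine ⟨Fintype.card K, ?_⟩
  have e : Matrix.reindex (a.trans (a.symm.trans ((Equiv.refl (Fin n)).sumCongr
      (Fintype.equivFin K)))) (a.trans (a.symm.trans ((Equiv.refl (Fin n)).sumCongr
      (Fintype.equivFin K)))) (Matrix.fromBlocks g 0 0 (1 : Matrix K K A)) =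
      Matrix.fromBlocks g 0 0 (1 : Matrix (Fin (Fintype.card K)) (Fin (Fintype.card K)) A) := by
    have e1 : a.trans (a.symm.trans ((Equiv.refl (Fin n)).sumCongr
      (Fintype.equivFin K))) = (Equiv.refl (Fin n)).sumCongr (Fintype.equivFin K) := by
      ext x; simp
    rw [e1]
    ext i j
    rcases i with i | i <;> rcases j with j | j <;> simp [Matrix.one_apply]
  rw [e] at H2
  exact H2

end Pool.Agent.KCH
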