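import Pool.Agent.KCH.Base

/-!
# Squad KCH: the internal form of the definitions of the UCT (unbundled functors)

The definitions used in the final statement are those of `Base.lean` and `Spec.lean`.
-/

set_option autoImplicit false

namespace Pool.Agent.KCH

open TopologicalSpace

/-- `J` is the stabilisation `B ⊗ K` of `B`: `θ i j b` is the elementary tensor `b ⊗ e_ij`, with
`e_ij` the matrix units of the compact operators `K` on `ℓ²(ℕ)` -/
structure IsStab {B J : Type} [CStarAlgebra B] [NonUnitalCStarAlgebra J]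
    (θ : ℕ → ℕ → B →ₗ[ℂ] J) : Prop where
  star_eq : ∀ i j b, star (θ i j b) = θ j i (star b)
  mul_same : ∀ i j k a b, θ i j a * θ j k b = θ i k (a * b)
  mul_ne : ∀ i j j' k a b, j ≠ j' → θ i j a * θ j' k b = 0
  norm_eq : ∀ i j b, ‖θ i j b‖ = ‖b‖
  dense : Dense (Submodule.span ℂ {x | ∃ i j b, x = θ i j b} : Set J)

/-- A homotopy invariant, stable and split exact functor from the separable C*-algebras to the
abelian groups. (Stability is only required for unital algebras; for a split exact functor this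
implies it for all algebras.) -/
structure KKFunctor where
  obj : (A : Type) → [NonUnitalCStarAlgebra A] → [SeparableSpace A] → Type
  grp : (A : Type) → [NonUnitalCStarAlgebra A] → [SeparableSpace A] → AddCommGroup (obj A)
  map : {A B : Type} → [NonUnitalCStarAlgebra A] → [SeparableSpace A] →
    [NonUnitalCStarAlgebra B] → [SeparableSpace B] → (A →⋆ₙₐ[ℂ] B) → obj A →+ obj B
  map_id : ∀ (A : Type) [NonUnitalCStarAlgebra A] [SeparableSpace A] (x : obj A),
    map (NonUnitalStarAlgHom.id ℂ A) x = x
  map_comp : ∀ {A B C : Type} [NonUnitalCStarAlgebra A] [SeparableSpace A]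
    [NonUnitalCStarAlgebra B] [SeparableSpace B] [NonUnitalCStarAlgebra C] [SeparableSpace C]
    (g : B →⋆ₙₐ[ℂ] C) (f : A →⋆ₙₐ[ℂ] B) (x : obj A), map (g.comp f) x = map g (map f x)
  homotopy : ∀ {A B : Type} [NonUnitalCStarAlgebra A] [SeparableSpace A]
    [NonUnitalCStarAlgebra B] [SeparableSpace B] (f g : A →⋆ₙₐ[ℂ] B), Homotopic f g →
    map f = map g
  stable : ∀ {B J : Type} [CStarAlgebra B] [SeparableSpace B] [NonUnitalCStarAlgebra J]
    [SeparableSpace J] (θ : ℕ → ℕ → B →ₗ[ℂ] J) (e : B →⋆ₙₐ[ℂ] J), IsStab θ →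
    (∀ b, e b = θ 0 0 b) → Function.Bijective (map e)
  split : ∀ {J E Q : Type} [NonUnitalCStarAlgebra J] [SeparableSpace J]
    [NonUnitalCStarAlgebra E] [SeparableSpace E] [NonUnitalCStarAlgebra Q] [SeparableSpace Q]
    (i : J →⋆ₙₐ[ℂ] E) (p : E →⋆ₙₐ[ℂ] Q) (s : Q →⋆ₙₐ[ℂ] E), Function.Injective i →
    (∀ x, p x = 0 ↔ ∃ y, i y = x) → (∀ q, p (s q) = q) →
    Function.Injective (map i) ∧ ∀ x, map p x = 0 ↔ ∃ y, map i y = x

/-- there is a *-homomorphism `A → B` which every homotopy invariant, stable and split exact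
functor maps to an isomorphism (by Higson's theorem: a *-homomorphism which is a
`KK`-equivalence) -/
def KKStep (A B : SepCAlg) : Prop :=
  letI := A.alg
  letI := A.sep
  letI := B.alg
  letI := B.sep
  ∃ f : A.carrier →⋆ₙₐ[ℂ] B.carrier, ∀ F : KKFunctor, Function.Bijective (F.map f)

/-- `A` satisfies the universal coefficient theorem: it is `KK`-equivalent to a commutative
C*-algebra (Rosenberg and Schochet, Skandalis) -/
def UCT (A : Type) [CStarAlgebra A] [SeparableSpace A] : Prop :=
  ∃ B : SepCAlg, (letI := B.alg; ∀ x y : B.carrier, x * y = y * x) ∧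
    Relation.EqvGen KKStep ⟨A, inferInstance, inferInstance⟩ B

end Pool.Agent.KCH
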