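import Pool.Agent.KCH.Spec
import Pool.Agent.KCH.Defs

/-!
# Squad KCH: the two forms of the definition of the UCT
-/

set_option autoImplicit false

namespace Pool.Agent.KCH

open TopologicalSpace

namespace Conv_

theorem stab {B J : Type} [CStarAlgebra B] [NonUnitalCStarAlgebra J]
    {θ : ℕ → ℕ → B →ₗ[ℂ] J} (h : IsStab θ) : Spec.IsStabilisation θ :=
  ⟨⟨h.star_eq, h.mul_same, h.mul_ne⟩, h.norm_eq, h.dense⟩

/-- the unbundled form of a functor -/
def unb (F : Spec.Fun) (hH : Spec.HomotopyInvariant F) (hS : Spec.Stable F)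
    (hE : Spec.SplitExact F) : KKFunctor where
  obj := fun A _ _ => F.obj ⟨A, inferInstance, inferInstance⟩
  grp := fun A _ _ => F.grp ⟨A, inferInstance, inferInstance⟩
  map := fun {A B} _ _ _ _ f =>
    F.map (A := ⟨A, inferInstance, inferInstance⟩) (B := ⟨B, inferInstance, inferInstance⟩) f
  map_id := fun A _ _ x => F.map_id ⟨A, inferInstance, inferInstance⟩ x
  map_comp := fun {A B C} _ _ _ _ _ _ g f x =>
    F.map_comp (A := ⟨A, inferInstance, inferInstance⟩) (B := ⟨B, inferInstance, inferInstance⟩)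
      (C := ⟨C, inferInstance, inferInstance⟩) g f x
  homotopy := fun {A B} _ _ _ _ f g h =>
    hH ⟨A, inferInstance, inferInstance⟩ ⟨B, inferInstance, inferInstance⟩ f g h
  stable := fun {B J} _ _ _ _ θ e hθ he =>
    hS B ⟨J, inferInstance, inferInstance⟩ θ e (stab hθ) he
  split := fun {J E Q} _ _ _ _ _ _ i p s h1 h2 h3 =>
    hE ⟨J, inferInstance, inferInstance⟩ ⟨E, inferInstance, inferInstance⟩
      ⟨Q, inferInstance, inferInstance⟩ i p s h1 h2 h3

theorem step {A B : SepCAlg} (h : KKStep A B) : ∃ f : Spec.Hm A B, Spec.IsKKEquivalence f := by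
  obtain ⟨f, hf⟩ := h
  exact ⟨f, fun F hH hS hE => hf (unb F hH hS hE)⟩

end Conv_

theorem spec_uct (A : Type) [CStarAlgebra A] [SeparableSpace A] (h : UCT A) : Spec.UCT A := by
  obtain ⟨B, hB, hA⟩ := h
  exact ⟨B, hB, Relation.EqvGen.mono (r := KKStep)
    (fun _ _ h => Conv_.step h) _ _ hA⟩

end Pool.Agent.KCH
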