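import Pool.Agent.KCH.FStmts

/-!
# Squad KCH, module DIF: differences of the representations
-/

set_option autoImplicit false

namespace Pool.Agent.KCH

open TopologicalSpace

namespace DIF_

/-- the block inclusion -/
theorem V_ee (μ : List ℤ) (x : XX) : opP (iE μ) (ee x) = ee (μ, x) := by
  rw [opP_ee]
  rfl

theorem Vs_ee (ν : List ℤ) (p : YY) :
    opP (iE ν).symm (ee p) = if p.1 = ν then ee p.2 else 0 := by
  rw [opP_ee]
  have h : (iE ν).symm p = if p.1 = ν then some p.2 else none := rfl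
  rw [h]
  split_ifs
  · rfl
  · rfl

theorem VsV_same (μ : List ℤ) :
    (ContinuousLinearMap.adjoint (opP (iE μ))).comp (opP (iE μ)) =
      ContinuousLinearMap.id ℂ (L2 XX) := by
  refine op_ext fun x => ?_
  rw [ContinuousLinearMap.comp_apply, V_ee, opP_adjoint, Vs_ee, if_pos rfl]
  rfl

theorem VsV_ne (μ ν : List ℤ) (h : μ ≠ ν) :
    (ContinuousLinearMap.adjoint (opP (iE ν))).comp (opP (iE μ)) = 0 := by
  refine op_ext fun x => ?_
  rw [ContinuousLinearMap.comp_apply, V_ee, opP_adjoint, Vs_ee, if_neg h]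
  rfl

theorem th_mul_same (μ ν ν' : List ℤ) (d d' : Bd XX) :
    th μ ν d * th ν ν' d' = th μ ν' (d * d') := by
  have h := VsV_same ν
  have h2 : ∀ x, (ContinuousLinearMap.adjoint (opP (iE ν))) (opP (iE ν) x) = x := fun x =>
    DFunLike.congr_fun h x
  refine ContinuousLinearMap.ext fun x => ?_
  show (opP (iE μ)) (d ((ContinuousLinearMap.adjoint (opP (iE ν))) (opP (iE ν)
    (d' ((ContinuousLinearMap.adjoint (opP (iE ν'))) x))))) = _
  rw [h2]
  rfl

theorem th_mul_ne (μ ν μ' ν' : List ℤ) (d d' : Bd XX) (hne : ν ≠ μ') :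
    th μ ν d * th μ' ν' d' = 0 := by
  have h := VsV_ne μ' ν (Ne.symm hne)
  have h2 : ∀ x, (ContinuousLinearMap.adjoint (opP (iE ν))) (opP (iE μ') x) = 0 := fun x =>
    DFunLike.congr_fun h x
  refine ContinuousLinearMap.ext fun x => ?_
  show (opP (iE μ)) (d ((ContinuousLinearMap.adjoint (opP (iE ν))) (opP (iE μ')
    (d' ((ContinuousLinearMap.adjoint (opP (iE ν'))) x))))) = 0
  rw [h2, map_zero, map_zero]

theorem th_star (μ ν : List ℤ) (d : Bd XX) : star (th μ ν d) = th ν μ (star d) := by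
  rw [ContinuousLinearMap.star_eq_adjoint, ContinuousLinearMap.star_eq_adjoint]
  unfold th
  rw [ContinuousLinearMap.adjoint_comp, ContinuousLinearMap.adjoint_comp,
    ContinuousLinearMap.adjoint_adjoint]
  rfl

theorem th_add (μ ν : List ℤ) (d d' : Bd XX) : th μ ν (d + d') = th μ ν d + th μ ν d' := by
  unfold th
  rw [ContinuousLinearMap.add_comp, ContinuousLinearMap.comp_add]

theorem th_smul (μ ν : List ℤ) (c : ℂ) (d : Bd XX) : th μ ν (c • d) = c • th μ ν d := by
  unfold th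
  rw [ContinuousLinearMap.smul_comp, ContinuousLinearMap.comp_smul]

theorem th_zero (μ ν : List ℤ) : th μ ν 0 = 0 := by
  unfold th
  rw [ContinuousLinearMap.zero_comp, ContinuousLinearMap.comp_zero]

theorem th_norm_le (μ ν : List ℤ) (d : Bd XX) : ‖th μ ν d‖ ≤ ‖d‖ := by
  unfold th
  have h1 : ‖opP (iE μ)‖ ≤ 1 := opP_norm_le _
  have h2 : ‖ContinuousLinearMap.adjoint (opP (iE ν))‖ ≤ 1 := by
    rw [opP_adjoint]
    exact opP_norm_le _
  calc ‖(opP (iE μ)).comp (d.comp (ContinuousLinearMap.adjoint (opP (iE ν))))‖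
      ≤ ‖opP (iE μ)‖ * ‖d.comp (ContinuousLinearMap.adjoint (opP (iE ν)))‖ :=
        ContinuousLinearMap.opNorm_comp_le _ _
    _ ≤ 1 * (‖d‖ * 1) := by
        refine mul_le_mul h1 ?_ (norm_nonneg _) zero_le_one
        exact (ContinuousLinearMap.opNorm_comp_le _ _).trans
          (mul_le_mul_of_nonneg_left h2 (norm_nonneg _))
    _ = ‖d‖ := by ring

theorem th_cont (μ ν : List ℤ) : Continuous (th μ ν) := by
  unfold th
  fun_prop

theorem rho_cont (ρ : AA →⋆ₙₐ[ℂ] Bd YY) : Continuous ρ :=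
  AddMonoidHomClass.continuous_of_bound ρ 1 fun d => by
    rw [one_mul]
    exact NonUnitalStarAlgHom.norm_apply_le ρ d

theorem uA_star (hFRL : Stmt_FRL) : uA * star uA = 1 := by
  refine pA_injective ?_
  have h : U * star U = 1 := hFRL.uu'
  rw [map_mul, map_star, pA_uA, h, map_one]

theorem rho_alg (hFRL : Stmt_FRL) (ρ : AA →⋆ₙₐ[ℂ] Bd YY) (hu : ρ uA = TT) (c : ℂ) :
    ρ (algebraMap ℂ AA c) = c • (TT * star TT) := by
  rw [Algebra.algebraMap_eq_smul_one, ← uA_star hFRL, map_smul, map_mul, map_star, hu]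

/-- the multiplier property -/
theorem mult (hFRL : Stmt_FRL) (hJJM : Stmt_JJM) (ρ : AA →⋆ₙₐ[ℂ] Bd YY) (hu : ρ uA = TT)
    (hs : ρ sA = RR) {D : Type} [CStarAlgebra D] (π : D →⋆ₐ[ℂ] Bd XX) (a : AA) :
    ∀ x ∈ JJ π, ρ a * x ∈ JJ π ∧ x * ρ a ∈ JJ π := by
  refine AA_ind (P := fun a => ∀ x ∈ JJ π, ρ a * x ∈ JJ π ∧ x * ρ a ∈ JJ π)
    ?_ ?_ ?_ ?_ ?_ ?_ ?_ a
  · intro x hx
    have h := (hJJM D π).2 x hx
    rw [hu]
    exact ⟨h.1, h.2.1⟩
  · intro x hx
    have h := (hJJM D π).2 x hx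
    rw [hs]
    exact ⟨h.2.2.2.2.1, h.2.2.2.2.2.1⟩
  · intro c x hx
    rw [rho_alg hFRL ρ hu c]
    constructor
    · rw [smul_mul_assoc, mul_assoc]
      exact SMulMemClass.smul_mem c ((hJJM D π).2 _ ((hJJM D π).2 x hx).2.2.1).1
    · rw [mul_smul_comm, ← mul_assoc]
      exact SMulMemClass.smul_mem c ((hJJM D π).2 _ ((hJJM D π).2 x hx).2.1).2.2.2.1
  · intro a b ha hb x hx
    rw [map_add, add_mul, mul_add]
    exact ⟨add_mem (ha x hx).1 (hb x hx).1, add_mem (ha x hx).2 (hb x hx).2⟩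
  · intro a b ha hb x hx
    rw [map_mul, mul_assoc, ← mul_assoc]
    exact ⟨(ha _ (hb x hx).1).1, (hb _ (ha x hx).2).2⟩
  · intro a ha x hx
    rw [map_star]
    have h := ha (star x) (star_mem hx)
    constructor
    · have h1 := star_mem h.2
      rw [star_mul, star_star] at h1
      exact h1
    · have h1 := star_mem h.1
      rw [star_mul, star_star] at h1
      exact h1
  · have e : {a : AA | ∀ x ∈ JJ π, ρ a * x ∈ JJ π ∧ x * ρ a ∈ JJ π} =
        ⋂ x ∈ JJ π, ((fun a => ρ a * x) ⁻¹' (JJ π : Set (Bd YY)) ∩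
          (fun a => x * ρ a) ⁻¹' (JJ π : Set (Bd YY))) := by
      ext a
      rw [Set.mem_iInter₂]
      exact Iff.rfl
    rw [e]
    refine isClosed_biInter fun x _ => IsClosed.inter ?_ ?_
    · exact (JJ_closed π).preimage ((rho_cont ρ).mul continuous_const)
    · exact (JJ_closed π).preimage (continuous_const.mul (rho_cont ρ))

/-- differences of two homomorphisms -/
theorem diff {D : Type} [CStarAlgebra D] (π : D →⋆ₐ[ℂ] Bd XX) (ρ ψ : AA →⋆ₙₐ[ℂ] Bd YY)
    (hm : ∀ a, ∀ x ∈ JJ π, ρ a * x ∈ JJ π ∧ x * ρ a ∈ JJ π)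
    (h1 : ψ uA - ρ uA ∈ JJ π) (h2 : ψ sA - ρ sA ∈ JJ π) (h3 : ψ 1 - ρ 1 ∈ JJ π) (a : AA) :
    ψ a - ρ a ∈ JJ π := by
  refine AA_ind (P := fun a => ψ a - ρ a ∈ JJ π) h1 h2 ?_ ?_ ?_ ?_ ?_ a
  · intro c
    rw [Algebra.algebraMap_eq_smul_one, map_smul, map_smul, ← smul_sub]
    exact SMulMemClass.smul_mem c h3
  · intro a b ha hb
    have e : ψ (a + b) - ρ (a + b) = (ψ a - ρ a) + (ψ b - ρ b) := by
      rw [map_add, map_add]
      abel
    rw [e]
    exact add_mem ha hb
  · intro a b ha hb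
    have e : ψ (a * b) - ρ (a * b) = (ψ a - ρ a) * (ψ b - ρ b) +
        ρ a * (ψ b - ρ b) + (ψ a - ρ a) * ρ b := by
      rw [map_mul, map_mul]
      noncomm_ring
    rw [e]
    exact add_mem (add_mem (mul_mem ha hb) (hm _ _ hb).1) (hm _ _ ha).2
  · intro a ha
    rw [map_star, map_star, ← star_sub]
    exact star_mem ha
  · exact (JJ_closed π).preimage ((rho_cont ψ).sub (rho_cont ρ))

theorem mem_JJ {D : Type} [CStarAlgebra D] (π : D →⋆ₐ[ℂ] Bd XX) (μ ν : List ℤ) (d : D) :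
    th μ ν (π d) ∈ JJ π :=
  NonUnitalStarSubalgebra.le_topologicalClosure _
    (NonUnitalStarAlgebra.subset_adjoin ℂ _ ⟨μ, ν, d, rfl⟩)

theorem th_ee (μ ν ξ : List ℤ) (d : Bd XX) (x : XX) :
    th μ ν d (ee (ξ, x)) = if ξ = ν then opP (iE μ) (d (ee x)) else 0 := by
  show (opP (iE μ)) (d ((ContinuousLinearMap.adjoint (opP (iE ν))) (ee (ξ, x)))) = _
  rw [opP_adjoint, Vs_ee]
  split_ifs
  · rfl
  · rw [map_zero, map_zero]

theorem TTs_nil (x : XX) : (star TT) (ee ([], x)) = 0 := by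
  rw [TT_def, opP_star, opP_ee]
  rfl

theorem TT_TTs : (1 : Bd YY) = TT * star TT + th [] [] 1 := by
  refine op_ext ?_
  rintro ⟨_ | ⟨k, μ⟩, x⟩
  · rw [add_apply, th_ee, if_pos rfl]
    show ee ([], x) = TT ((star TT) (ee ([], x))) + opP (iE []) (ee x)
    rw [TTs_nil, map_zero, zero_add, V_ee]
  · rw [add_apply, th_ee, if_neg (by simp), add_zero]
    show ee (k :: μ, x) = TT ((star TT) (ee (k :: μ, x)))
    rw [TT_def, opP_star, opP_ee]
    have e1 : tE.symm (k :: μ, x) = some ((k - 1) :: μ, x) := rfl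
    rw [e1, ov_some, opP_ee]
    have e2 : tE ((k - 1) :: μ, x) = some ((k - 1 + 1) :: μ, x) := rfl
    rw [e2, ov_some, sub_add_cancel]

theorem TTs_th (d : Bd XX) : star TT * th [] [] d = 0 := by
  have h : (star TT).comp (opP (iE [])) = 0 := by
    refine op_ext fun x => ?_
    rw [ContinuousLinearMap.comp_apply, V_ee, TTs_nil]
    rfl
  have e : star TT * th [] [] d = ((star TT).comp (opP (iE []))).comp
      (d.comp (ContinuousLinearMap.adjoint (opP (iE [])))) := rfl
  rw [e, h, ContinuousLinearMap.zero_comp]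

end DIF_

open DIF_ in
theorem dif_proof (hFRL : Stmt_FRL) (hJJM : Stmt_JJM) : Stmt_DIF := by
  intro ρ ψ hu hs hψ
  have hρ1 : ρ 1 = TT * star TT := by
    have h := rho_alg hFRL ρ hu 1
    rw [map_one, one_smul] at h
    exact h
  have hone : (1 : Bd YY) - ρ 1 = th [] [] 1 := by
    rw [hρ1]
    nth_rw 1 [TT_TTs]
    rw [add_sub_cancel_left]
  have h5 : ∀ (a : AA) (d : Bd XX), ρ a * th [] [] d = 0 := by
    intro a d
    have h1 : ρ a = ρ a * ρ 1 := by rw [← map_mul, mul_one]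
    rw [h1, hρ1, mul_assoc, mul_assoc, TTs_th, mul_zero, mul_zero]
  have h5' : ∀ (a : AA) (d : Bd XX), th [] [] d * ρ a = 0 := by
    intro a d
    have h1 := congrArg star (h5 (star a) (star d))
    rw [star_mul, th_star, star_star, ← map_star, star_star, star_zero] at h1
    exact h1
  have hdu : ∀ t, ψ t uA - ρ uA = th [] [] U := by
    intro t
    rw [(hψ t).1, hu]
    unfold uH
    rw [add_sub_cancel_left]
  have hds : ∀ t, ψ t sA - ρ sA = ((Real.cos t : ℝ) : ℂ) • th [] [] S +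
      ((Real.sin t : ℝ) : ℂ) • th [0] [] 1 := by
    intro t
    rw [(hψ t).2.1, hs]
    unfold sH
    rw [add_assoc, add_sub_cancel_left]
  have hd1 : ∀ t, ψ t 1 - ρ 1 = th [] [] 1 := by
    intro t
    rw [(hψ t).2.2, hone]
  have hth : Continuous fun d : Bd XX => th [] [] d := th_cont [] []
  have hpA : Continuous (pA : AA → Bd XX) :=
    AddMonoidHomClass.continuous_of_bound pA 1 fun d => by
      rw [one_mul, pA_norm]
  have hpC : Continuous (pC : CC → Bd XX) :=
    AddMonoidHomClass.continuous_of_bound pC 1 fun d => by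
      rw [one_mul, pC_norm]
  have hjj : Continuous (jj : CC → AA) :=
    AddMonoidHomClass.continuous_of_bound jj 1 fun d => by
      rw [one_mul, ← pA_norm, pA_jj, pC_norm]
  refine ⟨?_, ?_, ?_, ?_, h5⟩
  · intro t a
    refine diff pA ρ (ψ t) (mult hFRL hJJM ρ hu hs pA) ?_ ?_ ?_ a
    · rw [hdu, ← pA_uA]
      exact mem_JJ pA _ _ _
    · rw [hds, ← pA_sA, ← map_one pA]
      exact add_mem (SMulMemClass.smul_mem _ (mem_JJ pA _ _ _))
        (SMulMemClass.smul_mem _ (mem_JJ pA _ _ _))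
    · rw [hd1, ← map_one pA]
      exact mem_JJ pA _ _ _
  · intro a
    refine diff pC ρ (ψ (Real.pi / 2)) (mult hFRL hJJM ρ hu hs pC) ?_ ?_ ?_ a
    · rw [hdu, ← pC_uC]
      exact mem_JJ pC _ _ _
    · rw [hds, Real.cos_pi_div_two, Complex.ofReal_zero, zero_smul, zero_add, ← map_one pC]
      exact SMulMemClass.smul_mem _ (mem_JJ pC _ _ _)
    · rw [hd1, ← map_one pC]
      exact mem_JJ pC _ _ _
  · intro a
    refine AA_ind (P := fun a => ψ 0 a = ρ a + th [] [] (pA a)) ?_ ?_ ?_ ?_ ?_ ?_ ?_ a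
    · rw [pA_uA, ← hdu 0, add_sub_cancel]
    · have h := hds 0
      rw [Real.cos_zero, Real.sin_zero, Complex.ofReal_one, Complex.ofReal_zero, one_smul,
        zero_smul, add_zero] at h
      rw [pA_sA, ← h, add_sub_cancel]
    · intro c
      have e : ψ 0 1 = ρ 1 + th [] [] (pA 1) := by
        rw [map_one pA, ← hd1 0, add_sub_cancel]
      rw [Algebra.algebraMap_eq_smul_one, map_smul, map_smul, map_smul, th_smul, e, smul_add]
    · intro a b ha hb
      rw [map_add, map_add, map_add, th_add, ha, hb]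
      abel
    · intro a b ha hb
      have e : (ρ a + th [] [] (pA a)) * (ρ b + th [] [] (pA b)) =
          ρ a * ρ b + ρ a * th [] [] (pA b) + th [] [] (pA a) * ρ b +
            th [] [] (pA a) * th [] [] (pA b) := by noncomm_ring
      rw [map_mul, map_mul, map_mul, ha, hb, e, h5, h5', th_mul_same, add_zero, add_zero]
    · intro a ha
      rw [map_star, map_star, map_star, ha, star_add, th_star]
    · exact isClosed_eq (rho_cont (ψ 0)) ((rho_cont ρ).add (hth.comp hpA))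
  · intro t c
    refine CC_ind (P := fun c => ψ t (jj c) = ρ (jj c) + th [] [] (pC c)) ?_ ?_ ?_ ?_ ?_ ?_ c
    · rw [pC_uC, jj_uC, ← hdu t, add_sub_cancel]
    · intro c
      have e : ψ t 1 = ρ 1 + th [] [] (pC 1) := by
        rw [map_one pC, ← hd1 t, add_sub_cancel]
      rw [Algebra.algebraMap_eq_smul_one, map_smul, map_smul, map_smul, map_smul, map_one jj,
        th_smul, e, smul_add]
    · intro a b ha hb
      rw [map_add, map_add, map_add, map_add, th_add, ha, hb]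
      abel
    · intro a b ha hb
      have e : (ρ (jj a) + th [] [] (pC a)) * (ρ (jj b) + th [] [] (pC b)) =
          ρ (jj a) * ρ (jj b) + ρ (jj a) * th [] [] (pC b) + th [] [] (pC a) * ρ (jj b) +
            th [] [] (pC a) * th [] [] (pC b) := by noncomm_ring
      rw [map_mul, map_mul, map_mul, map_mul, ha, hb, e, h5, h5', th_mul_same, add_zero,
        add_zero]
    · intro a ha
      rw [map_star, map_star, map_star, map_star, ha, star_add, th_star]
    · exact isClosed_eq ((rho_cont (ψ t)).comp hjj) (((rho_cont ρ).comp hjj).add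
        (hth.comp hpC))

end Pool.Agent.KCH
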