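import Pool.Agent.KCH.RStmts

/-!
# Squad KCH, module DLB: the element `Δ` (helper49)
-/

set_option autoImplicit false

namespace Pool.Agent.KCH

open scoped ComplexOrder

attribute [local instance] CStarAlgebra.spectralOrder CStarAlgebra.spectralOrderedRing

namespace DLB_

section
variable {B : Type} [CStarAlgebra B] {u s : B}

/-- the projections -/
def pj (u s : B) (k : ℤ) : B := Sk u s k * star (Sk u s k)

theorem sk_sk (hPWR : Stmt_PWR) (hR : Rel u s) (k l : ℤ) :
    star (Sk u s k) * Sk u s l = if k = l then 1 else 0 := by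
  obtain ⟨p0, p1, padd, pstar, pss⟩ := hPWR B u s hR
  unfold Sk
  rw [star_mul, pstar]
  calc star s * pw u (-k) * (pw u l * s) = star s * (pw u (-k) * pw u l) * s := by
        simp only [mul_assoc]
    _ = if k = l then 1 else 0 := by
        rw [← padd, pss]
        by_cases h : k = l
        · rw [if_pos h, if_pos (by omega)]
        · rw [if_neg h, if_neg (by omega)]

theorem pj_pj (hPWR : Stmt_PWR) (hR : Rel u s) (k l : ℤ) :
    pj u s k * pj u s l = if k = l then pj u s k else 0 := by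
  unfold pj
  calc Sk u s k * star (Sk u s k) * (Sk u s l * star (Sk u s l))
      = Sk u s k * (star (Sk u s k) * Sk u s l) * star (Sk u s l) := by simp only [mul_assoc]
    _ = _ := by
      rw [sk_sk hPWR hR]
      by_cases h : k = l
      · rw [if_pos h, if_pos h, mul_one, h]
      · rw [if_neg h, if_neg h, mul_zero, zero_mul]

theorem pj_star (k : ℤ) : star (pj u s k) = pj u s k := by
  unfold pj
  rw [star_mul, star_star]

/-- `∑ a_k p_k` -/
noncomputable def sp (u s : B) (A : Finset ℤ) (a : ℤ → ℝ) : B :=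
  ∑ k ∈ A, ((a k : ℝ) : ℂ) • pj u s k

theorem sp_star (A : Finset ℤ) (a : ℤ → ℝ) : star (sp u s A a) = sp u s A a := by
  unfold sp
  rw [star_sum]
  refine Finset.sum_congr rfl fun k _ => ?_
  rw [star_smul, pj_star]
  simp

theorem sp_mul (hPWR : Stmt_PWR) (hR : Rel u s) (A : Finset ℤ) (a b : ℤ → ℝ) :
    sp u s A a * sp u s A b = sp u s A fun k => a k * b k := by
  unfold sp
  rw [Finset.sum_mul]
  refine Finset.sum_congr rfl fun k hk => ?_
  rw [Finset.mul_sum, Finset.sum_eq_single_of_mem k hk]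
  · rw [smul_mul_smul_comm, pj_pj hPWR hR, if_pos rfl, Complex.ofReal_mul]
  · intro l _ hl
    rw [smul_mul_smul_comm, pj_pj hPWR hR, if_neg (Ne.symm hl), smul_zero]

theorem sp_sub (A : Finset ℤ) (a b : ℤ → ℝ) :
    sp u s A a - sp u s A b = sp u s A fun k => a k - b k := by
  unfold sp
  rw [← Finset.sum_sub_distrib]
  refine Finset.sum_congr rfl fun k _ => ?_
  rw [Complex.ofReal_sub, sub_smul]

theorem sp_nonneg (A : Finset ℤ) (a : ℤ → ℝ) : 0 ≤ sp u s A fun k => a k ^ 2 := by
  unfold sp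
  refine Finset.sum_nonneg fun k _ => ?_
  have e : (((a k ^ 2 : ℝ) : ℂ)) • pj u s k =
      (((a k : ℝ) : ℂ) • Sk u s k) * star (((a k : ℝ) : ℂ) • Sk u s k) := by
    rw [star_smul, smul_mul_smul_comm]
    unfold pj
    congr 1
    simp [pow_two]
  rw [e]
  exact mul_star_self_nonneg _

theorem one_le : ‖(1 : B)‖ ≤ 1 := by
  rcases subsingleton_or_nontrivial B with h | h
  · rw [Subsingleton.elim (1 : B) 0, norm_zero]
    exact zero_le_one
  · rw [CStarRing.norm_one]

theorem pw_le (hPWR : Stmt_PWR) (hR : Rel u s) (l : ℤ) : ‖pw u l‖ ≤ 1 := by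
  obtain ⟨p0, p1, padd, pstar, pss⟩ := hPWR B u s hR
  have e : star (pw u l) * pw u l = 1 := by
    rw [pstar, ← padd, neg_add_cancel, p0]
  have h := CStarRing.norm_star_mul_self (x := pw u l)
  rw [e] at h
  have h1 := one_le (B := B)
  by_contra hc
  have hc := not_le.1 hc
  nlinarith [norm_nonneg (pw u l)]

theorem pj_pw (hPWR : Stmt_PWR) (hR : Rel u s) (k l : ℤ) :
    pj u s k * pw u l = pw u l * pj u s (k - l) := by
  obtain ⟨p0, p1, padd, pstar, pss⟩ := hPWR B u s hR
  have e1 : Sk u s k = pw u l * Sk u s (k - l) := by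
    unfold Sk
    rw [← mul_assoc, ← padd]
    congr 2
    ring
  have e2 : star (Sk u s k) * pw u l = star (Sk u s (k - l)) := by
    have : Sk u s (k - l) = pw u (-l) * Sk u s k := by
      unfold Sk
      rw [← mul_assoc, ← padd]
      congr 2
      ring
    rw [this, star_mul, pstar, neg_neg]
  unfold pj
  rw [mul_assoc, e2]
  nth_rw 1 [e1]
  rw [mul_assoc]

theorem sp_pw (hPWR : Stmt_PWR) (hR : Rel u s) (A A' : Finset ℤ) (l : ℤ) (a : ℤ → ℝ)
    (h : ∀ k, k ∈ A → k - l ∈ A') (h' : ∀ j ∈ A', j + l ∉ A → a (j + l) = 0) :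
    sp u s A a * pw u l = pw u l * sp u s A' fun j => a (j + l) := by
  unfold sp
  rw [Finset.sum_mul, Finset.mul_sum]
  have e : ∑ k ∈ A, ((a k : ℝ) : ℂ) • pj u s k * pw u l =
      ∑ k ∈ A.image (fun k => k - l), pw u l * (((a (k + l) : ℝ) : ℂ) • pj u s k) := by
    rw [Finset.sum_image]
    · refine Finset.sum_congr rfl fun k _ => ?_
      rw [smul_mul_assoc, pj_pw hPWR hR, mul_smul_comm, sub_add_cancel]
    · intro x _ y _ hxy
      have hxy : x - l = y - l := hxy
      omega
  rw [e]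
  refine Finset.sum_subset ?_ ?_
  · intro j hj
    obtain ⟨k, hk, rfl⟩ := Finset.mem_image.1 hj
    exact h k hk
  · intro j hj hn
    rw [h' j hj, Complex.ofReal_zero, zero_smul, mul_zero]
    intro hA
    exact hn (Finset.mem_image.2 ⟨j + l, hA, by ring⟩)

theorem sp_ext (A A' : Finset ℤ) (a : ℤ → ℝ) (h : A ⊆ A') (h' : ∀ j ∈ A', j ∉ A → a j = 0) :
    sp u s A a = sp u s A' a := by
  unfold sp
  refine Finset.sum_subset h fun j hj hn => ?_
  rw [h' j hj hn, Complex.ofReal_zero, zero_smul]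

theorem del_eq (M : ℕ) (h : ℤ → ℝ) :
    Del u s M h = 1 - sp u s (Finset.Icc (-(M : ℤ)) M) fun k => 1 - √(1 - h k ^ 2) := rfl

theorem lam_eq (M : ℕ) (t : ℤ → ℝ) :
    Lam u s M t 1 = sp u s (Finset.Icc (-(M : ℤ)) M) t := by
  unfold Lam sp pj
  simp only [mul_one]

end

end DLB_

open DLB_ in
theorem dlb_proof (hPWR : Stmt_PWR) (hLMB : Stmt_LMB) : Stmt_DLB := by
  intro B _ u s hR M h hW
  have h0 := hW.nonneg
  have h1 := hW.le_one
  have hsq : ∀ k, √(1 - h k ^ 2) ^ 2 = 1 - h k ^ 2 := by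
    intro k
    refine Real.sq_sqrt ?_
    have := h0 k
    have := h1 k
    nlinarith
  have hst : star (Del u s M h) = Del u s M h := by
    rw [del_eq, star_sub, star_one, sp_star]
  have hsq2 : Del u s M h * Del u s M h = 1 - Lam u s M (fun k => h k ^ 2) 1 := by
    have e : ∀ x : B, (1 - x) * (1 - x) = 1 - (x + (x - x * x)) := by
      intro x
      noncomm_ring
    rw [del_eq, lam_eq, e, sp_mul hPWR hR, sp_sub]
    congr 1
    unfold sp
    rw [← Finset.sum_add_distrib]
    refine Finset.sum_congr rfl fun k _ => ?_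
    rw [← add_smul, ← Complex.ofReal_add]
    congr 2
    have := hsq k
    nlinarith
  refine ⟨hst, hsq2, ?_, ?_⟩
  · have hn : 0 ≤ Del u s M h * Del u s M h := by
      have := star_mul_self_nonneg (Del u s M h)
      rwa [hst] at this
    have hle : Del u s M h * Del u s M h ≤ 1 := by
      rw [hsq2, lam_eq]
      have := sp_nonneg (u := u) (s := s) (Finset.Icc (-(M : ℤ)) M) h
      exact sub_le_self 1 this
    have hnorm : ‖Del u s M h * Del u s M h‖ ≤ 1 :=
      (CStarAlgebra.norm_le_one_iff_of_nonneg _ hn).2 hle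
    have h2 := CStarRing.norm_star_mul_self (x := Del u s M h)
    rw [hst] at h2
    rw [h2] at hnorm
    by_contra hc
    have hc := not_le.1 hc
    nlinarith
  · intro l ε hε
    have hε0 : 0 ≤ ε := (abs_nonneg _).trans (hε 0)
    set a : ℤ → ℝ := fun k => 1 - √(1 - h k ^ 2) with ha
    have ha0 : ∀ k : ℤ, k ∉ Finset.Icc (-(M : ℤ)) M → a k = 0 := by
      intro k hk
      have hk' : (M : ℤ) < |k| := by
        rw [Finset.mem_Icc, ← abs_le, not_le] at hk
        exact hk
      simp only [ha]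
      rw [hW.supp k hk']
      norm_num
    set M' : ℕ := M + l.natAbs with hM'
    have hl : (M' : ℤ) = M + |l| := by
      rw [hM']
      push_cast
      rw [Int.abs_eq_natAbs]
    have e1 : sp u s (Finset.Icc (-(M : ℤ)) M) a = sp u s (Finset.Icc (-(M' : ℤ)) M') a := by
      refine sp_ext _ _ _ ?_ (fun j _ hj => ha0 j hj)
      have := abs_nonneg l
      exact Finset.Icc_subset_Icc (by omega) (by omega)
    have e2 : sp u s (Finset.Icc (-(M : ℤ)) M) a * pw u l =
        pw u l * sp u s (Finset.Icc (-(M' : ℤ)) M') fun j => a (j + l) := by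
      refine sp_pw hPWR hR _ _ l a ?_ (fun j _ hj => ha0 _ hj)
      intro k hk
      rw [Finset.mem_Icc] at hk ⊢
      have := abs_le.1 (le_refl |l|)
      omega
    have e3 : Del u s M h * pw u l - pw u l * Del u s M h =
        pw u l * Lam u s M' (fun j => √(1 - h (j + l) ^ 2) - √(1 - h j ^ 2)) 1 := by
      rw [del_eq, lam_eq, sub_mul, mul_sub, mul_one, one_mul, sub_sub_sub_cancel_left]
      rw [show (fun k => 1 - √(1 - h k ^ 2)) = a from rfl, e2, e1, ← mul_sub, sp_sub]
      congr 2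
      funext j
      simp only [ha]
      ring
    rw [e3]
    have h3 := hLMB B u s hR M' (fun j => √(1 - h (j + l) ^ 2) - √(1 - h j ^ 2)) ε 1 hε0 hε
    have h4 := pw_le hPWR hR l
    have h5 := one_le (B := B)
    calc ‖pw u l * Lam u s M' (fun j => √(1 - h (j + l) ^ 2) - √(1 - h j ^ 2)) 1‖
        ≤ ‖pw u l‖ * ‖Lam u s M' (fun j => √(1 - h (j + l) ^ 2) - √(1 - h j ^ 2)) 1‖ :=
          norm_mul_le _ _
      _ ≤ 1 * (ε * ‖(1 : B)‖) := by gcongr
      _ ≤ 1 * (ε * 1) := by gcongr
      _ = ε := by ring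

end Pool.Agent.KCH
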