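import Pool.Agent.KCH.FStmts

/-!
# Squad KCH, module EEM: membership in `EE π ρ`
-/

set_option autoImplicit false

namespace Pool.Agent.KCH

open TopologicalSpace

namespace EEM_

theorem rho_cont (ρ : AA →⋆ₙₐ[ℂ] Bd YY) : Continuous ρ :=
  AddMonoidHomClass.continuous_of_bound ρ 1 fun d => by
    rw [one_mul]
    exact NonUnitalStarAlgHom.norm_apply_le ρ d

theorem uA_star (hFRL : Stmt_FRL) : uA * star uA = 1 := by
  refine pA_injective ?_
  have h : U * star U = 1 := hFRL.uu'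
  rw [map_mul, map_star, pA_uA, h, map_one]

theorem rho_alg (hFRL : Stmt_FRL) (ρ : AA →⋆ₙₐ[ℂ] Bd YY) (hu : ρ uA = TT) (c : ℂ) :
    ρ (algebraMap ℂ AA c) = c • (TT * star TT) := by
  rw [Algebra.algebraMap_eq_smul_one, ← uA_star hFRL, map_smul, map_mul, map_star, hu]

/-- the multiplier property -/
theorem mult (hFRL : Stmt_FRL) (hJJM : Stmt_JJM) (ρ : AA →⋆ₙₐ[ℂ] Bd YY) (hu : ρ uA = TT)
    (hs : ρ sA = RR) {D : Type} [CStarAlgebra D] (π : D →⋆ₐ[ℂ] Bd XX) (a : AA) :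
    ∀ x ∈ JJ π, ρ a * x ∈ JJ π ∧ x * ρ a ∈ JJ π := by
  refine AA_ind (P := fun a => ∀ x ∈ JJ π, ρ a * x ∈ JJ π ∧ x * ρ a ∈ JJ π)
    ?_ ?_ ?_ ?_ ?_ ?_ ?_ a
  · intro x hx
    have h := (hJJM D π).2 x hx
    rw [hu]
    exact ⟨h.1, h.2.1⟩
  · intro x hx
    have h := (hJJM D π).2 x hx
    rw [hs]
    exact ⟨h.2.2.2.2.1, h.2.2.2.2.2.1⟩
  · intro c x hx
    rw [rho_alg hFRL ρ hu c]
    constructor
    · rw [smul_mul_assoc, mul_assoc]
      exact SMulMemClass.smul_mem c ((hJJM D π).2 _ ((hJJM D π).2 x hx).2.2.1).1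
    · rw [mul_smul_comm, ← mul_assoc]
      exact SMulMemClass.smul_mem c ((hJJM D π).2 _ ((hJJM D π).2 x hx).2.1).2.2.2.1
  · intro a b ha hb x hx
    rw [map_add, add_mul, mul_add]
    exact ⟨add_mem (ha x hx).1 (hb x hx).1, add_mem (ha x hx).2 (hb x hx).2⟩
  · intro a b ha hb x hx
    rw [map_mul, mul_assoc, ← mul_assoc]
    exact ⟨(ha _ (hb x hx).1).1, (hb _ (ha x hx).2).2⟩
  · intro a ha x hx
    rw [map_star]
    have h := ha (star x) (star_mem hx)
    constructor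
    · have h1 := star_mem h.2
      rw [star_mul, star_star] at h1
      exact h1
    · have h1 := star_mem h.1
      rw [star_mul, star_star] at h1
      exact h1
  · have e : {a : AA | ∀ x ∈ JJ π, ρ a * x ∈ JJ π ∧ x * ρ a ∈ JJ π} =
        ⋂ x ∈ JJ π, ((fun a => ρ a * x) ⁻¹' (JJ π : Set (Bd YY)) ∩
          (fun a => x * ρ a) ⁻¹' (JJ π : Set (Bd YY))) := by
      ext a
      rw [Set.mem_iInter₂]
      exact Iff.rfl
    rw [e]
    refine isClosed_biInter fun x _ => IsClosed.inter ?_ ?_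
    · exact (JJ_closed π).preimage ((rho_cont ρ).mul continuous_const)
    · exact (JJ_closed π).preimage (continuous_const.mul (rho_cont ρ))

section

variable {D : Type} [CStarAlgebra D] (π : D →⋆ₐ[ℂ] Bd XX) (ρ : AA →⋆ₙₐ[ℂ] Bd YY)

theorem adj_sub (hm : ∀ a, ∀ x ∈ JJ π, ρ a * x ∈ JJ π ∧ x * ρ a ∈ JJ π) {p : AA × Bd YY}
    (hp : p ∈ NonUnitalStarAlgebra.adjoin ℂ
      ({p : AA × Bd YY | p.1 = 0 ∧ p.2 ∈ JJ π} ∪ {p | p.2 = ρ p.1})) :
    p.2 - ρ p.1 ∈ JJ π := by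
  induction hp using NonUnitalStarAlgebra.adjoin_induction with
  | mem p hp =>
    rcases hp with ⟨h1, h2⟩ | h
    · rw [h1, map_zero, sub_zero]
      exact h2
    · have h' : p.2 = ρ p.1 := h
      rw [h', sub_self]
      exact zero_mem _
  | add p q _ _ hp hq =>
    have e : (p + q).2 - ρ (p + q).1 = (p.2 - ρ p.1) + (q.2 - ρ q.1) := by
      rw [Prod.snd_add, Prod.fst_add, map_add]
      abel
    rw [e]
    exact add_mem hp hq
  | zero =>
    rw [Prod.snd_zero, Prod.fst_zero, map_zero, sub_zero]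
    exact zero_mem _
  | mul p q _ _ hp hq =>
    have e : (p * q).2 - ρ (p * q).1 = (p.2 - ρ p.1) * (q.2 - ρ q.1) +
        ρ p.1 * (q.2 - ρ q.1) + (p.2 - ρ p.1) * ρ q.1 := by
      rw [Prod.snd_mul, Prod.fst_mul, map_mul]
      noncomm_ring
    rw [e]
    exact add_mem (add_mem (mul_mem hp hq) (hm _ _ hq).1) (hm _ _ hp).2
  | smul c p _ hp =>
    have e : (c • p).2 - ρ (c • p).1 = c • (p.2 - ρ p.1) := by
      rw [Prod.smul_snd, Prod.smul_fst, map_smul, smul_sub]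
    rw [e]
    exact SMulMemClass.smul_mem c hp
  | star p _ hp =>
    have e : (star p).2 - ρ (star p).1 = star (p.2 - ρ p.1) := by
      rw [star_sub, ← map_star]
      rfl
    rw [e]
    exact star_mem hp

end

end EEM_

open EEM_ in
theorem eem_proof (hFRL : Stmt_FRL) (hJJM : Stmt_JJM) : Stmt_EEM := by
  intro ρ hu hs D _ π p
  have hm : ∀ a, ∀ x ∈ JJ π, ρ a * x ∈ JJ π ∧ x * ρ a ∈ JJ π :=
    mult hFRL hJJM ρ hu hs π
  constructor
  · intro hp
    have hcont : Continuous fun p : AA × Bd YY => p.2 - ρ p.1 :=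
      continuous_snd.sub ((rho_cont ρ).comp continuous_fst)
    have hcl : IsClosed ((fun p : AA × Bd YY => p.2 - ρ p.1) ⁻¹' (JJ π : Set (Bd YY))) :=
      (JJ_closed π).preimage hcont
    have hp' : p ∈ closure ((NonUnitalStarAlgebra.adjoin ℂ
      ({p : AA × Bd YY | p.1 = 0 ∧ p.2 ∈ JJ π} ∪ {p | p.2 = ρ p.1}) :
        NonUnitalStarSubalgebra ℂ (AA × Bd YY)) : Set (AA × Bd YY)) := hp
    exact closure_minimal (fun q hq => adj_sub π ρ hm hq) hcl hp'
  · intro hp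
    have h1 : ((0, p.2 - ρ p.1) : AA × Bd YY) ∈ EE π ρ :=
      NonUnitalStarSubalgebra.le_topologicalClosure _
        (NonUnitalStarAlgebra.subset_adjoin ℂ _ (Or.inl ⟨rfl, hp⟩))
    have h2 : ((p.1, ρ p.1) : AA × Bd YY) ∈ EE π ρ :=
      NonUnitalStarSubalgebra.le_topologicalClosure _
        (NonUnitalStarAlgebra.subset_adjoin ℂ _ (Or.inr rfl))
    have h3 := add_mem h1 h2
    have e : ((0, p.2 - ρ p.1) : AA × Bd YY) + (p.1, ρ p.1) = p := by
      refine Prod.ext ?_ ?_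
      · show (0 : AA) + p.1 = p.1
        rw [zero_add]
      · show p.2 - ρ p.1 + ρ p.1 = p.2
        rw [sub_add_cancel]
    rw [e] at h3
    exact h3

end Pool.Agent.KCH
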