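import Pool.Agent.KCH.RStmts

/-!
# Squad KCH, module ESA: the explicit estimate for one monomial
-/

set_option autoImplicit false

namespace Pool.Agent.KCH

open TopologicalSpace
open scoped ComplexOrder

namespace ESA_

section
variable {B : Type} [CStarAlgebra B]

theorem one_norm_le : ‖(1 : B)‖ ≤ 1 := by
  rcases subsingleton_or_nontrivial B with h | h
  · rw [Subsingleton.elim (1 : B) 0, norm_zero]
    exact zero_le_one
  · exact (CStarRing.norm_one (E := B)).le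

theorem isom_norm (x : B) (hx : star x * x = 1) : ‖x‖ ≤ 1 := by
  have h1 : ‖star x * x‖ = ‖x‖ * ‖x‖ := CStarRing.norm_star_mul_self
  rw [hx] at h1
  have h2 := one_norm_le (B := B)
  nlinarith [norm_nonneg x]

theorem norm_rsmul (t : ℝ) (y : B) : ‖((t : ℝ) : ℂ) • y‖ = |t| * ‖y‖ := by
  rw [norm_smul, Complex.norm_real, Real.norm_eq_abs]

theorem lam_sub (u s : B) (M : ℕ) (t t' : ℤ → ℝ) (y : B) :
    Lam u s M t y - Lam u s M t' y = Lam u s M (fun k => t k - t' k) y := by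
  unfold Lam
  rw [← Finset.sum_sub_distrib]
  refine Finset.sum_congr rfl fun k _ => ?_
  rw [← sub_smul]
  push_cast
  rfl

theorem itQ_succ (u s : B) (M : ℕ) (h : ℤ → ℝ) (k : ℕ) :
    itQ u s M h (k + 1) = Lam u s M (fun k => h k ^ 2) (itQ u s M h k) := by
  unfold itQ itL
  exact Function.iterate_succ_apply' _ _ _

theorem itq_succ (u s : B) (M : ℕ) (h : ℤ → ℝ) (k : ℕ) :
    itq u s M h (k + 1) = Lam u s M (fun k => h k ^ 2) (itq u s M h k) := by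
  unfold itq itL
  exact Function.iterate_succ_apply' _ _ _

theorem norm_mul3 (x y z : B) (hx : ‖x‖ ≤ 1) (hz : ‖z‖ ≤ 1) : ‖x * y * z‖ ≤ ‖y‖ := by
  have h1 : ‖x * y * z‖ ≤ ‖x * y‖ * ‖z‖ := norm_mul_le _ _
  have h2 : ‖x * y‖ ≤ ‖x‖ * ‖y‖ := norm_mul_le _ _
  have h3 : ‖x * y‖ * ‖z‖ ≤ ‖x * y‖ * 1 := mul_le_mul_of_nonneg_left hz (norm_nonneg _)
  have h4 : ‖x‖ * ‖y‖ ≤ 1 * ‖y‖ := mul_le_mul_of_nonneg_right hx (norm_nonneg _)
  linarith

theorem norm_mul2 (x y : B) (hx : ‖x‖ ≤ 1) : ‖x * y‖ ≤ ‖y‖ := by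
  have h2 : ‖x * y‖ ≤ ‖x‖ * ‖y‖ := norm_mul_le _ _
  have h4 : ‖x‖ * ‖y‖ ≤ 1 * ‖y‖ := mul_le_mul_of_nonneg_right hx (norm_nonneg _)
  linarith

/-- the bound of `‖T - pw l‖`, everything abstract -/
theorem core {N a b : ℕ} (hN : 1 ≤ N) {x δ : ℝ} (hx0 : 0 ≤ x) (hx1 : x ≤ 1) (hδ : 0 ≤ δ)
    (β γ : ℕ → ℝ) (hγ : ∀ k, 0 ≤ γ k ∧ γ k ≤ 1)
    (hβ0 : ∀ k l, 0 ≤ β k * β l ∧ β k * β l ≤ 1 / N)
    (hγ0 : γ 0 = 1)
    (hγd : ∀ k : ℕ, |γ (a + k) * γ (b + k) - γ k ^ 2| ≤ ((a + b : ℕ) : ℝ) / N)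
    (hβd : ∑ k ∈ Finset.range N, |β (a + k + 1) * β (b + k + 1) - β (k + 1) ^ 2| ≤
      ((a + b : ℕ) : ℝ) / N)
    (P D : B) (hP : ‖P‖ ≤ 1) (hD : ‖D‖ ≤ 1) (hc : ‖D * P - P * D‖ ≤ δ)
    (Q q : ℕ → B) (LQ Lq : ℕ → B) (hq0 : q 0 = D * D)
    (hLQ : ∀ k, ‖LQ k‖ ≤ 1)
    (hdQ : ∀ k, ‖LQ k - Q (k + 1)‖ ≤ δ) (hdq : ∀ k, ‖Lq k - q (k + 1)‖ ≤ δ)
    (hI : ∀ (N : ℕ) (t : ℕ → ℝ) (c : ℝ), 0 ≤ c → (∀ k, |t k| ≤ c) →
      ‖∑ k ∈ Finset.range N, ((t k : ℝ) : ℂ) • q k‖ ≤ c)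
    (hT : (∑ k ∈ Finset.range N, (((β (k + 1) ^ 2 : ℝ) : ℂ) • Q (k + 1) +
      ((γ (k + 1) ^ 2 : ℝ) : ℂ) • q (k + 1))) + q 0 = 1) :
    ‖((((x * (β a * β b) : ℝ) : ℂ) • P +
      ((x * (γ a * γ b) : ℝ) : ℂ) • (D * P * D)) +
      P * ∑ k ∈ Finset.range N,
      (((β (a + k + 1) * β (b + k + 1) : ℝ) : ℂ) • LQ k +
       ((γ (a + k + 1) * γ (b + k + 1) : ℝ) : ℂ) • Lq k)) - P‖ ≤
    (1 - x) + (3 * ((a + b : ℕ) : ℝ) + 1) / N + (N + 2) * δ := by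
  have hNr : (0 : ℝ) < N := by exact_mod_cast hN
  -- the pieces
  set E1 : B := ((x * (β a * β b) : ℝ) : ℂ) • P with hE1
  set E2 : B := ((x * (γ a * γ b) : ℝ) : ℂ) • ((D * P - P * D) * D) with hE2
  set E3 : B := ((x * (γ a * γ b) - 1 : ℝ) : ℂ) • (P * (D * D)) with hE3
  set F1 : B := ∑ k ∈ Finset.range N, ((β (a + k + 1) * β (b + k + 1) - β (k + 1) ^ 2 : ℝ) : ℂ) •
    LQ k with hF1
  set F2 : B := ∑ k ∈ Finset.range N, ((β (k + 1) ^ 2 : ℝ) : ℂ) • (LQ k - Q (k + 1)) with hF2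
  set F3 : B := ∑ k ∈ Finset.range N, ((γ (a + k + 1) * γ (b + k + 1) : ℝ) : ℂ) •
    (Lq k - q (k + 1)) with hF3
  set F4 : B := ∑ k ∈ Finset.range N, ((γ (a + k + 1) * γ (b + k + 1) - γ (k + 1) ^ 2 : ℝ) : ℂ) •
    q (k + 1) with hF4
  have hkey : ((((x * (β a * β b) : ℝ) : ℂ) • P +
      ((x * (γ a * γ b) : ℝ) : ℂ) • (D * P * D)) +
      P * ∑ k ∈ Finset.range N,
      (((β (a + k + 1) * β (b + k + 1) : ℝ) : ℂ) • LQ k +
       ((γ (a + k + 1) * γ (b + k + 1) : ℝ) : ℂ) • Lq k)) - P =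
      E1 + E2 + E3 + P * (F1 + F2 + F3 + F4) := by
    have h1 : (∑ k ∈ Finset.range N,
      (((β (a + k + 1) * β (b + k + 1) : ℝ) : ℂ) • LQ k +
       ((γ (a + k + 1) * γ (b + k + 1) : ℝ) : ℂ) • Lq k)) =
      (F1 + F2 + F3 + F4) + ∑ k ∈ Finset.range N, (((β (k + 1) ^ 2 : ℝ) : ℂ) • Q (k + 1) +
      ((γ (k + 1) ^ 2 : ℝ) : ℂ) • q (k + 1)) := by
      rw [hF1, hF2, hF3, hF4, ← Finset.sum_add_distrib, ← Finset.sum_add_distrib,
        ← Finset.sum_add_distrib, ← Finset.sum_add_distrib]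
      refine Finset.sum_congr rfl fun k _ => ?_
      push_cast
      module
    have h2 : P * (∑ k ∈ Finset.range N, (((β (k + 1) ^ 2 : ℝ) : ℂ) • Q (k + 1) +
      ((γ (k + 1) ^ 2 : ℝ) : ℂ) • q (k + 1))) = P - P * (D * D) := by
      rw [eq_sub_iff_add_eq, ← mul_add, ← hq0, hT, mul_one]
    have h3 : ((x * (γ a * γ b) : ℝ) : ℂ) • (D * P * D) = E2 + E3 + P * (D * D) := by
      rw [hE2, hE3, sub_mul]
      push_cast
      rw [mul_assoc P D D]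
      module
    rw [h1, h3, mul_add, h2, hE1]
    abel
  have b1 : ‖E1‖ ≤ 1 / N := by
    rw [hE1, norm_rsmul]
    have h0 := hβ0 a b
    have h1 : 0 ≤ x * (β a * β b) := mul_nonneg hx0 h0.1
    rw [abs_of_nonneg h1]
    have h2 : x * (β a * β b) ≤ 1 * (1 / N) := mul_le_mul hx1 h0.2 h0.1 zero_le_one
    have h3 : x * (β a * β b) * ‖P‖ ≤ x * (β a * β b) * 1 := mul_le_mul_of_nonneg_left hP h1
    linarith
  have hg0 : 0 ≤ γ a * γ b := mul_nonneg (hγ a).1 (hγ b).1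
  have hg1 : γ a * γ b ≤ 1 := by
    have := mul_le_mul (hγ a).2 (hγ b).2 (hγ b).1 zero_le_one
    linarith
  have b2 : ‖E2‖ ≤ δ := by
    rw [hE2, norm_rsmul]
    have h1 : 0 ≤ x * (γ a * γ b) := mul_nonneg hx0 hg0
    rw [abs_of_nonneg h1]
    have h2 : x * (γ a * γ b) ≤ 1 * 1 := mul_le_mul hx1 hg1 hg0 zero_le_one
    have h3 : ‖(D * P - P * D) * D‖ ≤ ‖D * P - P * D‖ * ‖D‖ := norm_mul_le _ _
    have h4 : ‖D * P - P * D‖ * ‖D‖ ≤ δ * 1 := mul_le_mul hc hD (norm_nonneg _) hδ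
    have h5 : ‖(D * P - P * D) * D‖ ≤ δ := by linarith
    have h6 : x * (γ a * γ b) * ‖(D * P - P * D) * D‖ ≤ 1 * δ :=
      mul_le_mul (by linarith) h5 (norm_nonneg _) zero_le_one
    linarith
  have b3 : ‖E3‖ ≤ (1 - x) + ((a + b : ℕ) : ℝ) / N := by
    rw [hE3, norm_rsmul]
    have h0 := hγd 0
    rw [add_zero, add_zero, hγ0] at h0
    have h1 : 1 - γ a * γ b ≤ ((a + b : ℕ) : ℝ) / N := by
      have := (abs_le.1 h0).1
      linarith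
    have h2 : |x * (γ a * γ b) - 1| ≤ (1 - x) + ((a + b : ℕ) : ℝ) / N := by
      rw [abs_le]
      constructor
      · nlinarith
      · have h3 : x * (γ a * γ b) ≤ 1 * 1 := mul_le_mul hx1 hg1 hg0 zero_le_one
        have h4 : (0 : ℝ) ≤ ((a + b : ℕ) : ℝ) / N := by positivity
        linarith
    have h3 : ‖P * (D * D)‖ ≤ 1 := by
      refine (norm_mul2 _ _ hP).trans ((norm_mul2 _ _ hD).trans hD)
    have h4 : |x * (γ a * γ b) - 1| * ‖P * (D * D)‖ ≤ |x * (γ a * γ b) - 1| * 1 :=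
      mul_le_mul_of_nonneg_left h3 (abs_nonneg _)
    linarith
  have c1 : ‖F1‖ ≤ ((a + b : ℕ) : ℝ) / N := by
    refine (norm_sum_le _ _).trans (le_trans (Finset.sum_le_sum fun k _ => ?_) hβd)
    rw [norm_rsmul]
    have := mul_le_mul_of_nonneg_left (hLQ k)
      (abs_nonneg (β (a + k + 1) * β (b + k + 1) - β (k + 1) ^ 2))
    linarith
  have c2 : ‖F2‖ ≤ δ := by
    refine (norm_sum_le _ _).trans ?_
    have h1 : ∀ k ∈ Finset.range N, ‖((β (k + 1) ^ 2 : ℝ) : ℂ) • (LQ k - Q (k + 1))‖ ≤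
        1 / N * δ := by
      intro k _
      rw [norm_rsmul]
      have h0 := hβ0 (k + 1) (k + 1)
      have h2 : β (k + 1) ^ 2 = β (k + 1) * β (k + 1) := by ring
      rw [h2, abs_of_nonneg h0.1]
      exact mul_le_mul h0.2 (hdQ k) (norm_nonneg _) (by positivity)
    refine (Finset.sum_le_sum h1).trans ?_
    rw [Finset.sum_const, Finset.card_range, nsmul_eq_mul]
    have : (N : ℝ) * (1 / N * δ) = δ := by field_simp
    rw [this]
  have c3 : ‖F3‖ ≤ N * δ := by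
    refine (norm_sum_le _ _).trans ?_
    have h1 : ∀ k ∈ Finset.range N,
        ‖((γ (a + k + 1) * γ (b + k + 1) : ℝ) : ℂ) • (Lq k - q (k + 1))‖ ≤ δ := by
      intro k _
      rw [norm_rsmul, abs_of_nonneg (mul_nonneg (hγ _).1 (hγ _).1)]
      have h2 : γ (a + k + 1) * γ (b + k + 1) ≤ 1 * 1 :=
        mul_le_mul (hγ _).2 (hγ _).2 (hγ _).1 zero_le_one
      have h3 : γ (a + k + 1) * γ (b + k + 1) * ‖Lq k - q (k + 1)‖ ≤ 1 * δ :=
        mul_le_mul (by linarith) (hdq k) (norm_nonneg _) zero_le_one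
      linarith
    refine (Finset.sum_le_sum h1).trans ?_
    rw [Finset.sum_const, Finset.card_range, nsmul_eq_mul]
  have c4 : ‖F4‖ ≤ ((a + b : ℕ) : ℝ) / N := by
    have h4 : (0 : ℝ) ≤ ((a + b : ℕ) : ℝ) / N := by positivity
    have h1 := hI (N + 1) (fun k => γ (a + k) * γ (b + k) - γ k ^ 2 - if k = 0 then
      γ (a + k) * γ (b + k) - γ k ^ 2 else 0) (((a + b : ℕ) : ℝ) / N) h4 (by
        intro k
        by_cases hk : k = 0
        · simp only [hk, if_true, sub_self, abs_zero]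
          exact h4
        · simp only [hk, if_false, sub_zero]
          exact hγd k)
    rw [Finset.sum_range_succ'] at h1
    simp only [Nat.succ_ne_zero, if_false, sub_zero, if_true, sub_self, Complex.ofReal_zero,
      zero_smul, add_zero] at h1
    have h2 : F4 = ∑ k ∈ Finset.range N,
        ((γ (a + (k + 1)) * γ (b + (k + 1)) - γ (k + 1) ^ 2 : ℝ) : ℂ) • q (k + 1) := by
      rw [hF4]
      refine Finset.sum_congr rfl fun k _ => ?_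
      rw [← add_assoc, ← add_assoc]
    rw [h2]
    exact h1
  rw [hkey]
  have d1 : ‖P * (F1 + F2 + F3 + F4)‖ ≤ ‖F1 + F2 + F3 + F4‖ := norm_mul2 _ _ hP
  have d2 : ‖F1 + F2 + F3 + F4‖ ≤ ‖F1‖ + ‖F2‖ + ‖F3‖ + ‖F4‖ := by
    have e1 := norm_add_le (F1 + F2 + F3) F4
    have e2 := norm_add_le (F1 + F2) F3
    have e3 := norm_add_le F1 F2
    linarith
  have d3 : ‖E1 + E2 + E3 + P * (F1 + F2 + F3 + F4)‖ ≤
      ‖E1‖ + ‖E2‖ + ‖E3‖ + ‖P * (F1 + F2 + F3 + F4)‖ := by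
    have e1 := norm_add_le (E1 + E2 + E3) (P * (F1 + F2 + F3 + F4))
    have e2 := norm_add_le (E1 + E2) E3
    have e3 := norm_add_le E1 E2
    linarith
  have e : (3 * ((a + b : ℕ) : ℝ) + 1) / N = ((a + b : ℕ) : ℝ) / N + ((a + b : ℕ) : ℝ) / N +
      ((a + b : ℕ) : ℝ) / N + 1 / N := by
    field_simp
    ring
  rw [e]
  nlinarith

end

end ESA_

open ESA_

theorem esa_proof (hPWR : Stmt_PWR) (hWRD : Stmt_WRD) (hLWT : Stmt_LWT) (hLMB : Stmt_LMB)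
    (hDLB : Stmt_DLB) (hITR : Stmt_ITR) (hTEL : Stmt_TEL) (hFRM : Stmt_FRM) : Stmt_ESA := by
  intro B _ u s hus M h N n hW hN hn α l β hα hβ hl hα1 hβ1 δ hδ hd1 hd2
  have hnr : (0 : ℝ) < n := by exact_mod_cast hn
  obtain ⟨hp0, hp1, hpa, hps, -⟩ := hPWR B u s hus
  obtain ⟨-, -, hSw, -⟩ := hWRD B u s hus
  obtain ⟨L1, L2', -, -, -, -, -, L8, L9, L10⟩ := hLWT N hN
  obtain ⟨-, -, hDn, hDc⟩ := hDLB B u s hus M h hW
  obtain ⟨-, hI2, hI3⟩ := hITR B u s hus M h hW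
  have hT := hTEL B u s hus M h N hW hN
  have hPn : ‖pw u l‖ ≤ 1 := by
    refine isom_norm _ ?_
    rw [hps, ← hpa, neg_add_cancel, hp0]
  have hSn : ∀ μ, ‖Sw u s μ‖ ≤ 1 := fun μ => isom_norm _ (hSw μ)
  have hh : ∀ k, |h (k + l) * h k| ≤ 1 := by
    intro k
    rw [abs_of_nonneg (mul_nonneg (hW.nonneg _) (hW.nonneg _))]
    have := mul_le_mul (hW.le_one (k + l)) (hW.le_one k) (hW.nonneg k) zero_le_one
    linarith
  have hh2 : ∀ k, |h (k + l) * h k - h k ^ 2| ≤ δ := by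
    intro k
    have e : h (k + l) * h k - h k ^ 2 = (h (k + l) - h k) * h k := by ring
    rw [e, abs_mul, abs_of_nonneg (hW.nonneg k)]
    have := mul_le_mul (hd1 k) (hW.le_one k) (hW.nonneg k) hδ
    linarith
  have hLam : ∀ y : B, ‖y‖ ≤ 1 → ‖Lam u s M (fun κ => h (κ + l) * h κ) y‖ ≤ 1 := by
    intro y hy
    have := hLMB B u s hus M (fun κ => h (κ + l) * h κ) 1 y zero_le_one hh
    linarith
  have hLamd : ∀ y : B, ‖y‖ ≤ 1 → ‖Lam u s M (fun κ => h (κ + l) * h κ) y -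
      Lam u s M (fun k => h k ^ 2) y‖ ≤ δ := by
    intro y hy
    rw [lam_sub]
    have h1 := hLMB B u s hus M (fun κ => h (κ + l) * h κ - h κ ^ 2) δ y hδ hh2
    have h2 : δ * ‖y‖ ≤ δ * 1 := mul_le_mul_of_nonneg_left hy hδ
    linarith
  rw [hFRM B u s hus M h N n hW hN hn α l β hα hβ hl hα1 hβ1]
  have hMo : Mo u s (α, l, β) = Sw u s α * pw u l * star (Sw u s β) := rfl
  rw [hMo, ← add_mul, ← mul_add, ← sub_mul, ← mul_sub]
  refine (norm_mul3 _ _ _ (hSn α) ?_).trans ?_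
  · rw [norm_star]; exact hSn β
  have hx0 : (0 : ℝ) ≤ 1 - |(l : ℝ)| / n := by
    have h1 : |(l : ℝ)| ≤ n := by exact_mod_cast hl
    have h2 : |(l : ℝ)| / n ≤ 1 := by rw [div_le_one hnr]; exact h1
    linarith
  have hx1 : 1 - |(l : ℝ)| / n ≤ 1 := by
    have : (0 : ℝ) ≤ |(l : ℝ)| / n := by positivity
    linarith
  have key := core (B := B) (N := N) (a := α.length) (b := β.length) hN hx0 hx1 hδ (bb N) (cc N)
    (fun k => ⟨(L1 k).2.1, (L1 k).2.2⟩) L2' L8 (fun k => L9 _ _ k) (L10 _ _)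
    (pw u l) (Del u s M h) hPn hDn (hDc l δ hd2)
    (itQ u s M h) (itq u s M h) (fun k => Lam u s M (fun κ => h (κ + l) * h κ) (itQ u s M h k))
    (fun k => Lam u s M (fun κ => h (κ + l) * h κ) (itq u s M h k)) rfl
    (fun k => hLam _ (hI2 k).1)
    (fun k => by rw [itQ_succ]; exact hLamd _ (hI2 k).1)
    (fun k => by rw [itq_succ]; exact hLamd _ (hI2 k).2)
    hI3 hT
  refine key.trans ?_
  have h0 : (0 : ℝ) ≤ |(l : ℝ)| / n := by positivity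
  have e1 : 2 * |(l : ℝ)| / n = 2 * (|(l : ℝ)| / n) := by ring
  rw [e1]
  linarith

end Pool.Agent.KCH
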