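import Pool.Agent.KCH.FStmts

/-!
# Squad KCH, module ESP: separability of `EE π ρ`
-/

set_option autoImplicit false

namespace Pool.Agent.KCH

open TopologicalSpace

namespace ESP_

theorem rho_cont (ρ : AA →⋆ₙₐ[ℂ] Bd YY) : Continuous ρ :=
  AddMonoidHomClass.continuous_of_bound ρ 1 fun d => by
    rw [one_mul]
    exact NonUnitalStarAlgHom.norm_apply_le ρ d

end ESP_

open ESP_ in
theorem esp_proof (hJSP : Stmt_JSP) (hEEM : Stmt_EEM) : Stmt_ESP := by
  intro ρ hu hs D _ π hA hD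
  have hJ : SeparableSpace (JJ π) := hJSP D π hD
  have hcont : Continuous fun q : AA × JJ π => ((q.1, ρ q.1 + (q.2 : Bd YY)) : AA × Bd YY) :=
    continuous_fst.prodMk (((rho_cont ρ).comp continuous_fst).add
      (continuous_subtype_val.comp continuous_snd))
  have h1 : IsSeparable (Set.range fun q : AA × JJ π =>
      ((q.1, ρ q.1 + (q.2 : Bd YY)) : AA × Bd YY)) := isSeparable_range hcont
  have h2 : IsSeparable (EE π ρ : Set (AA × Bd YY)) := by
    refine h1.mono fun p hp => ?_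
    have hp' : p.2 - ρ p.1 ∈ JJ π := (hEEM ρ hu hs D π p).1 hp
    refine ⟨(p.1, ⟨p.2 - ρ p.1, hp'⟩), ?_⟩
    refine Prod.ext rfl ?_
    show ρ p.1 + (p.2 - ρ p.1) = p.2
    rw [add_sub_cancel]
  exact h2.separableSpace

end Pool.Agent.KCH
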