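import Pool.Agent.KCH.RStmts

/-!
# Squad KCH, module EST: the estimate (helper49)
-/

set_option autoImplicit false

namespace Pool.Agent.KCH

namespace EST_

theorem le_sum_fin {ι : Type*} (W : Finset ι) (f : ι → ℕ) (w : ι) (hw : w ∈ W) :
    f w ≤ ∑ v ∈ W, f v :=
  Finset.single_le_sum (fun _ _ => Nat.zero_le _) hw

theorem le_sum_list (l : List ℕ) (x : ℕ) (hx : x ∈ l) : x ≤ l.sum :=
  List.single_le_sum (fun _ _ => Nat.zero_le _) _ hx

theorem abs_le_of_natAbs {x : ℤ} {K : ℕ} (h : x.natAbs ≤ K) : |x| ≤ (K : ℤ) := by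
  rw [Int.abs_eq_natAbs]
  exact_mod_cast h

end EST_

open EST_ in
theorem est_proof (hWTS : Stmt_WTS) (hESA : Stmt_ESA) : Stmt_EST := by
  intro W ε hε
  set K : ℕ := ∑ w ∈ W, ((w.1 ++ w.2.2).map Int.natAbs).sum with hK
  set L : ℕ := ∑ w ∈ W, w.2.1.natAbs with hL
  set C : ℕ := ∑ w ∈ W, (w.1.length + w.2.2.length) with hC
  obtain ⟨N0, hN0⟩ := exists_nat_gt (3 * (3 * (C : ℝ) + 1) / ε)
  set N : ℕ := N0 + C + 1 with hN
  obtain ⟨n0, hn0⟩ := exists_nat_gt (6 * (L : ℝ) / ε)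
  set n : ℕ := n0 + L + 1 with hn
  set δ : ℝ := ε / (6 * (N + 2)) with hδ
  have hδ0 : 0 < δ := by positivity
  obtain ⟨h, M, hW, h1, h2⟩ := hWTS K L δ hδ0
  refine ⟨h, M, N, n, hW, by omega, by omega, ?_⟩
  intro w hw B _ u s hR
  obtain ⟨α, l, β⟩ := w
  have hKw : ∀ x ∈ α ++ β, |x| ≤ (K : ℤ) := by
    intro x hx
    refine abs_le_of_natAbs ?_
    calc x.natAbs ≤ ((α ++ β).map Int.natAbs).sum :=
          le_sum_list _ _ (List.mem_map.2 ⟨x, hx, rfl⟩)
      _ ≤ K := le_sum_fin W (fun w => ((w.1 ++ w.2.2).map Int.natAbs).sum) _ hw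
  have hLw : |l| ≤ (L : ℤ) :=
    abs_le_of_natAbs (le_sum_fin W (fun w => w.2.1.natAbs) _ hw)
  have hCw : α.length + β.length ≤ C :=
    le_sum_fin W (fun w => w.1.length + w.2.2.length) _ hw
  have hx : ∀ x ∈ α ++ β, h x = 1 ∧ |x| ≤ (M : ℤ) := by
    intro x hx
    have e := h1 x (hKw x hx)
    refine ⟨e, ?_⟩
    by_contra hc
    have := hW.supp x (not_le.1 hc)
    rw [e] at this
    exact one_ne_zero this
  have key := hESA B u s hR M h N n hW (by omega) (by omega) α l β (by omega) (by omega)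
    (by omega) (fun x hx' => hx x (List.mem_append_left _ hx'))
    (fun x hx' => hx x (List.mem_append_right _ hx')) δ hδ0.le (fun k => (h2 k l hLw).1)
    (fun k => (h2 k l hLw).2)
  refine key.trans_lt ?_
  have hNr : (0 : ℝ) < N := by
    have : 0 < N := by omega
    exact_mod_cast this
  have hnr : (0 : ℝ) < n := by
    have : 0 < n := by omega
    exact_mod_cast this
  have t1 : 2 * |(l : ℝ)| / n < ε / 3 := by
    have hl : |(l : ℝ)| ≤ L := by exact_mod_cast hLw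
    rw [div_lt_iff₀ hε] at hn0
    have hn1 : (n0 : ℝ) ≤ n := by
      have : n0 ≤ n := by omega
      exact_mod_cast this
    rw [div_lt_iff₀ hnr]
    have : (n0 : ℝ) * ε ≤ n * ε := by gcongr
    linarith
  have t2 : (3 * ((α.length + β.length : ℕ) : ℝ) + 1) / N < ε / 3 := by
    have hl : ((α.length + β.length : ℕ) : ℝ) ≤ C := by exact_mod_cast hCw
    rw [div_lt_iff₀ hε] at hN0
    have hn1 : (N0 : ℝ) ≤ N := by
      have : N0 ≤ N := by omega
      exact_mod_cast this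
    rw [div_lt_iff₀ hNr]
    have : (N0 : ℝ) * ε ≤ N * ε := by gcongr
    linarith
  have t3 : ((N : ℝ) + 2) * δ = ε / 6 := by
    rw [hδ]
    field_simp
  linarith

end Pool.Agent.KCH
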