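import Pool.Agent.KCH.KStmts

/-! Squad KCH, module EXC: `ext` is continuous, and isometric for injective homomorphisms. -/

set_option autoImplicit false

namespace Pool.Agent.KCH

open TopologicalSpace

theorem exc_proof : Stmt_EXC := by
  intro A B _ _ f
  have h1 : ∀ x, ext f x = Unitization.starMap f x := fun x => rfl
  refine ⟨?_, ?_⟩
  · have h2 : Continuous (Unitization.starMap f) := map_continuous (Unitization.starMap f)
    exact h2
  · intro hf
    have h3 : Function.Injective (Unitization.starMap f) := Unitization.starMap_injective hf
    have h4 : Isometry (Unitization.starMap f) := NonUnitalStarAlgHom.isometry (Unitization.starMap f) h3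
    exact h4

end Pool.Agent.KCH
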