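import Pool.Agent.KCH.RStmts

/-!
# Squad KCH, module FRA: matrix coefficients of monomials, the combinatorial part
-/

set_option autoImplicit false

namespace Pool.Agent.KCH

namespace FRA_

theorem mem_WS (M : ℕ) (k : ℕ) (μ : List ℤ) :
    μ ∈ WS M k ↔ μ.length = k ∧ ∀ x ∈ μ, |x| ≤ (M : ℤ) := by
  induction k generalizing μ with
  | zero =>
    rw [WS, Finset.mem_singleton, List.length_eq_zero_iff]
    constructor
    · rintro rfl
      exact ⟨rfl, by simp⟩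
    · exact fun h => h.1
  | succ k ih =>
    rw [WS, Finset.mem_image]
    constructor
    · rintro ⟨⟨x, ν⟩, h1, rfl⟩
      rw [Finset.mem_product, Finset.mem_Icc] at h1
      obtain ⟨⟨h2, h3⟩, h4⟩ := h1
      obtain ⟨h5, h6⟩ := (ih ν).1 h4
      refine ⟨by simp [h5], ?_⟩
      intro y hy
      rcases List.mem_cons.1 hy with rfl | hy
      · exact abs_le.2 ⟨h2, h3⟩
      · exact h6 y hy
    · rintro ⟨h1, h2⟩
      cases μ with
      | nil => simp at h1
      | cons x ν =>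
        refine ⟨(x, ν), ?_, rfl⟩
        rw [Finset.mem_product, Finset.mem_Icc]
        refine ⟨abs_le.1 (h2 x (by simp)), (ih ν).2 ⟨by simpa using h1, ?_⟩⟩
        intro y hy
        exact h2 y (by simp [hy])

/-- words of length at most `N` -/
noncomputable def V (M N : ℕ) : Finset (List ℤ) := (Finset.range (N + 1)).biUnion (WS M)

theorem mem_V (M N : ℕ) (μ : List ℤ) :
    μ ∈ V M N ↔ μ.length ≤ N ∧ ∀ x ∈ μ, |x| ≤ (M : ℤ) := by
  rw [V, Finset.mem_biUnion]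
  constructor
  · rintro ⟨j, hj, h⟩
    rw [Finset.mem_range] at hj
    obtain ⟨h1, h2⟩ := (mem_WS M j μ).1 h
    exact ⟨by omega, h2⟩
  · rintro ⟨h1, h2⟩
    exact ⟨μ.length, Finset.mem_range.2 (by omega), (mem_WS M _ μ).2 ⟨rfl, h2⟩⟩

theorem mem_IS (M N n : ℕ) (μ : List ℤ) (z : ℤ) :
    (μ, z) ∈ IS M N n ↔ μ ∈ V M N ∧ 0 ≤ z ∧ z < n := by
  rw [IS, Finset.mem_product]
  refine and_congr Iff.rfl ?_
  simp only [Finset.mem_map, Finset.mem_range, Nat.castEmbedding_apply]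
  constructor
  · rintro ⟨m, hm, rfl⟩
    exact ⟨by omega, by omega⟩
  · rintro ⟨h1, h2⟩
    exact ⟨z.toNat, by omega, by omega⟩

theorem sum_IS {B : Type} [AddCommGroup B] (M N n : ℕ) (T : XX → B) :
    ∑ q ∈ IS M N n, T q = ∑ m ∈ Finset.range n, ∑ μ ∈ V M N, T (μ, (m : ℤ)) := by
  rw [IS, Finset.sum_product_right, Finset.sum_map]
  rfl

theorem sum_V {B : Type} [AddCommGroup B] (M N : ℕ) (T : List ℤ → B) :
    ∑ μ ∈ V M N, T μ = T [] + ∑ k ∈ Finset.range N, ∑ ρ ∈ WS M (k + 1), T ρ := by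
  rw [V, Finset.sum_biUnion, Finset.sum_range_succ', WS, Finset.sum_singleton, add_comm]
  intro i _ j _ hij
  rw [Function.onFun, Finset.disjoint_left]
  intro μ h1 h2
  exact hij (((mem_WS M i μ).1 h1).1.symm.trans ((mem_WS M j μ).1 h2).1)

theorem sum_shift {B : Type} [AddCommGroup B] (M N : ℕ) (T : List ℤ → B) (β : List ℤ)
    (hT : ∀ μ, (¬ ∃ ρ, μ = β ++ ρ) → T μ = 0) :
    ∑ μ ∈ V M N, T μ = ∑ ρ ∈ V M N, if β ++ ρ ∈ V M N then T (β ++ ρ) else 0 := by
  classical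
  rw [← Finset.sum_filter]
  have h1 : ∑ ρ ∈ (V M N).filter (fun ρ => β ++ ρ ∈ V M N), T (β ++ ρ) =
      ∑ μ ∈ ((V M N).filter (fun ρ => β ++ ρ ∈ V M N)).image (fun ρ => β ++ ρ), T μ := by
    rw [Finset.sum_image]
    intro a _ b _ hab
    exact List.append_cancel_left hab
  rw [h1]
  symm
  apply Finset.sum_subset
  · intro μ hμ
    rw [Finset.mem_image] at hμ
    obtain ⟨ρ, hρ, rfl⟩ := hμ
    exact (Finset.mem_filter.1 hρ).2
  · intro μ hμ hμ'
    apply hT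
    rintro ⟨ρ, rfl⟩
    apply hμ'
    rw [Finset.mem_image]
    refine ⟨ρ, Finset.mem_filter.2 ⟨?_, hμ⟩, rfl⟩
    rw [mem_V] at hμ ⊢
    rw [List.length_append] at hμ
    exact ⟨by omega, fun x hx => hμ.2 x (List.mem_append.2 (Or.inr hx))⟩

theorem sum_inner {B : Type} [AddCommGroup B] [Module ℂ B] (F : Finset XX) (G : XX → B)
    (x : XX) [Decidable (x ∈ F)] :
    ∑ p ∈ F, (inner ℂ (ee p) (ee x) : ℂ) • G p = if x ∈ F then G x else 0 := by
  classical
  have h1 : ∀ p ∈ F, (inner ℂ (ee p) (ee x) : ℂ) • G p = if p = x then G p else 0 := by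
    intro p _
    rw [inner_ee_ee]
    split_ifs <;> simp
  rw [Finset.sum_congr rfl h1, Finset.sum_ite_eq']
  congr

end FRA_

open FRA_

theorem fra_proof (hMBA : Stmt_MBA) : Stmt_FRA := by
  intro B _ _ G M N n α l β hα hβ hα' hβ'
  classical
  obtain ⟨hM1, hM2⟩ := hMBA α l β
  rw [Finset.sum_comm, sum_IS]
  have hαV : α ∈ V M N := (mem_V M N α).2 ⟨hα, hα'⟩
  have hβV : β ∈ V M N := (mem_V M N β).2 ⟨hβ, hβ'⟩
  have e1 : ∀ m ∈ Finset.range n, ∑ μ ∈ V M N, ∑ p ∈ IS M N n,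
      (inner ℂ (ee p) (Mo U S (α, l, β) (ee (μ, (m : ℤ)))) : ℂ) • G p (μ, (m : ℤ)) =
      (if 0 ≤ (m : ℤ) + l ∧ (m : ℤ) + l < n then
        G (α, (m : ℤ) + l) (β, (m : ℤ)) else 0) +
      ∑ k ∈ Finset.range N, ∑ ρ ∈ WS M (k + 1),
        if (α ++ sh l ρ, (m : ℤ)) ∈ IS M N n ∧ (β ++ ρ, (m : ℤ)) ∈ IS M N n then
          G (α ++ sh l ρ, (m : ℤ)) (β ++ ρ, (m : ℤ)) else 0 := by
    intro m hm
    rw [Finset.mem_range] at hm
    rw [sum_shift M N _ β, sum_V]
    · congr 1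
      · rw [List.append_nil, if_pos hβV]
        have h1 := hM1 [] (m : ℤ)
        rw [List.append_nil, if_pos rfl] at h1
        rw [h1, sum_inner (IS M N n) (fun p => G p (β, (m : ℤ)))]
        have h2 : α ++ sh l [] = α := by simp [sh]
        rw [h2]
        have h3 : ((α, (m : ℤ) + l) ∈ IS M N n) ↔ (0 ≤ (m : ℤ) + l ∧ (m : ℤ) + l < n) := by
          rw [mem_IS]
          exact ⟨fun h => h.2, fun h => ⟨hαV, h⟩⟩
        by_cases hc : 0 ≤ (m : ℤ) + l ∧ (m : ℤ) + l < n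
        · rw [if_pos hc, if_pos (h3.2 hc)]
        · rw [if_neg hc, if_neg fun h => hc (h3.1 h)]
      · refine Finset.sum_congr rfl fun k _ => Finset.sum_congr rfl fun ρ hρ => ?_
        have hρ0 : ρ ≠ [] := by
          rintro rfl
          have := ((mem_WS M (k + 1) []).1 hρ).1
          simp at this
        have h1 := hM1 ρ (m : ℤ)
        rw [if_neg hρ0] at h1
        rw [h1, sum_inner (IS M N n) (fun p => G p (β ++ ρ, (m : ℤ)))]
        have h3 : ((β ++ ρ, (m : ℤ)) ∈ IS M N n) ↔ β ++ ρ ∈ V M N := by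
          rw [mem_IS]
          exact ⟨fun h => h.1, fun h => ⟨h, by omega, by omega⟩⟩
        by_cases c1 : β ++ ρ ∈ V M N
        · rw [if_pos c1]
          by_cases c2 : (α ++ sh l ρ, (m : ℤ)) ∈ IS M N n
          · rw [if_pos c2, if_pos ⟨c2, h3.2 c1⟩]
          · rw [if_neg c2, if_neg fun h => c2 h.1]
        · rw [if_neg c1, if_neg fun h => c1 (h3.1 h.2)]
    · intro μ hμ
      apply Finset.sum_eq_zero
      intro p _
      rw [hM2 μ m hμ, inner_zero_right, zero_smul]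
  rw [Finset.sum_congr rfl e1, Finset.sum_add_distrib]

end Pool.Agent.KCH
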