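import Pool.Agent.KCH.RStmts

/-!
# Squad KCH, module FRL: the relations hold in the Fock space
-/

set_option autoImplicit false

namespace Pool.Agent.KCH

namespace FRL_

theorem sE_apply (p : XX) : sE p = some (0 :: p.1, p.2) := rfl

theorem S_ee (p : XX) : S (ee p) = ee (0 :: p.1, p.2) := by
  rw [S_def, opP_ee, sE_apply, ov_some]

theorem U_ee (p : XX) : U (ee p) = ee (uE p) := by
  rw [U_def, opP_ee]
  rfl

theorem U_pow_ee (k : ℕ) (j : ℤ) (α : List ℤ) (m : ℤ) :
    (U ^ k) (ee (j :: α, m)) = ee ((j + k) :: α, m) := by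
  induction k generalizing j with
  | zero => simp
  | succ k ih =>
    rw [pow_succ, ContinuousLinearMap.mul_apply, U_ee]
    have : uE (j :: α, m) = ((j + 1) :: α, m) := rfl
    rw [this, ih]
    have h : j + 1 + (k : ℤ) = j + ((k + 1 : ℕ) : ℤ) := by push_cast; ring
    rw [h]

theorem starS_ee (p : XX) : star S (ee p) = ov (sE.symm p) := by
  rw [S_def, opP_star, opP_ee]

end FRL_

open FRL_

theorem frl_proof : Stmt_FRL := by
  refine ⟨?_, ?_, ?_, ?_⟩
  · rw [U_def, opP_star, opP_mul, ← Equiv.toPEquiv_symm, ← Equiv.toPEquiv_trans,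
      Equiv.self_trans_symm, Equiv.toPEquiv_refl, opP_refl]
  · rw [U_def, opP_star, opP_mul, ← Equiv.toPEquiv_symm, ← Equiv.toPEquiv_trans,
      Equiv.symm_trans_self, Equiv.toPEquiv_refl, opP_refl]
  · refine op_ext fun p => ?_
    rw [ContinuousLinearMap.mul_apply, S_ee, starS_ee]
    have : sE.symm ((0 : ℤ) :: p.1, p.2) = some p := by
      have h := (PEquiv.eq_some_iff sE (a := p) (b := ((0 : ℤ) :: p.1, p.2))).2 rfl
      exact h
    rw [this, ov_some]
    rfl
  · intro k hk
    refine op_ext fun p => ?_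
    rw [ContinuousLinearMap.mul_apply, ContinuousLinearMap.mul_apply, S_ee, U_pow_ee, starS_ee]
    have : sE.symm (((0 : ℤ) + k) :: p.1, p.2) = none := by
      show (if (0 : ℤ) + (k : ℤ) = 0 then some (p.1, p.2) else none) = none
      rw [if_neg]
      omega
    rw [this, ov_none]
    rfl

end Pool.Agent.KCH
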