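import Pool.Agent.KCH.RStmts

/-!
# Squad KCH, module FRM: the value of `VM` at a monomial
-/

set_option autoImplicit false

namespace Pool.Agent.KCH

namespace FRM_

theorem smul_mul_star {B : Type} [CStarAlgebra B] (r t : ℝ) (x y : B) :
    ((r : ℂ) • x) * star ((t : ℂ) • y) = ((r * t : ℝ) : ℂ) • (x * star y) := by
  rw [star_smul, smul_mul_smul_comm]
  congr 1
  simp

theorem sqrt_n {n : ℕ} : √(1 / (n : ℝ)) * √(1 / (n : ℝ)) = 1 / n :=
  Real.mul_self_sqrt (by positivity)

/-- the value of the kernel at two basis vectors -/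
theorem G_eq (hPWR : Stmt_PWR) (hDLB : Stmt_DLB) {B : Type} [CStarAlgebra B] {u s : B}
    (hus : Rel u s) {M : ℕ} {h : ℤ → ℝ} {N n : ℕ} (hW : Wt h M)
    (μ ν : List ℤ) (m m' l : ℤ) (hl : m = m' + l) :
    ∑ i, rr u s M h N n i (μ, m) * star (rr u s M h N n i (ν, m')) =
      ((((1 / n) * (bb N μ.length * bb N ν.length) * (hw h μ * hw h ν) : ℝ)) : ℂ) •
        (Sw u s μ * pw u l * star (Sw u s ν)) +
      ((((1 / n) * (cc N μ.length * cc N ν.length) * (hw h μ * hw h ν) : ℝ)) : ℂ) •
        (Sw u s μ * (Del u s M h * pw u l * Del u s M h) * star (Sw u s ν)) := by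
  obtain ⟨h0, h1, hadd, hst, -⟩ := hPWR B u s hus
  obtain ⟨hD, -, -, -⟩ := hDLB B u s hus M h hW
  have hp : pw u m * star (pw u m') = pw u l := by
    rw [hst, ← hadd]
    congr 1
    rw [hl]; ring
  rw [Fin.sum_univ_two]
  congr 1
  · simp only [rr, if_true]
    rw [smul_mul_star]
    congr 1
    · congr 1
      calc √(1 / (n : ℝ)) * bb N μ.length * hw h μ * (√(1 / (n : ℝ)) * bb N ν.length * hw h ν)
          = (√(1 / (n : ℝ)) * √(1 / (n : ℝ))) * (bb N μ.length * bb N ν.length) *
              (hw h μ * hw h ν) := by ring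
        _ = _ := by rw [sqrt_n]
    · rw [star_mul]
      calc Sw u s μ * pw u m * (star (pw u m') * star (Sw u s ν))
          = Sw u s μ * (pw u m * star (pw u m')) * star (Sw u s ν) := by
            simp only [mul_assoc]
        _ = _ := by rw [hp]
  · have h10 : ¬ ((1 : Fin 2) = 0) := by decide
    simp only [rr, if_neg h10]
    rw [smul_mul_star]
    congr 1
    · congr 1
      calc √(1 / (n : ℝ)) * cc N μ.length * hw h μ * (√(1 / (n : ℝ)) * cc N ν.length * hw h ν)
          = (√(1 / (n : ℝ)) * √(1 / (n : ℝ))) * (cc N μ.length * cc N ν.length) *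
              (hw h μ * hw h ν) := by ring
        _ = _ := by rw [sqrt_n]
    · rw [star_mul, star_mul, hD]
      calc Sw u s μ * Del u s M h * pw u m * (star (pw u m') * (Del u s M h * star (Sw u s ν)))
          = Sw u s μ * (Del u s M h * (pw u m * star (pw u m')) * Del u s M h) *
              star (Sw u s ν) := by
            simp only [mul_assoc]
        _ = _ := by rw [hp]

theorem hw_append (h : ℤ → ℝ) (μ ν : List ℤ) : hw h (μ ++ ν) = hw h μ * hw h ν := by
  simp [hw]

theorem hw_one {h : ℤ → ℝ} {μ : List ℤ} (hμ : ∀ x ∈ μ, h x = 1) : hw h μ = 1 := by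
  induction μ with
  | nil => simp [hw]
  | cons x μ ih =>
    have h1 := hμ x (by simp)
    have h2 := ih fun y hy => hμ y (by simp [hy])
    simp only [hw, List.map_cons, List.prod_cons] at h2 ⊢
    rw [h1, h2, mul_one]

theorem hw_zero {h : ℤ → ℝ} {μ : List ℤ} {x : ℤ} (hx : x ∈ μ) (h0 : h x = 0) : hw h μ = 0 := by
  rw [hw]
  apply List.prod_eq_zero
  rw [List.mem_map]
  exact ⟨x, hx, h0⟩

theorem sh_length (l : ℤ) (ρ : List ℤ) : (sh l ρ).length = ρ.length := by
  cases ρ <;> simp [sh]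

theorem mem_IS (hWSM : Stmt_WSM) {M N n : ℕ} {μ : List ℤ} {m : ℕ} (hm : m < n)
    (hlen : μ.length ≤ N) (hμ : ∀ x ∈ μ, |x| ≤ (M : ℤ)) : (μ, (m : ℤ)) ∈ IS M N n := by
  have h1 : μ ∈ WS M μ.length := ((hWSM ℂ 0 0 M (fun _ => 0) 0).1 _ _).2 ⟨rfl, hμ⟩
  rw [IS, Finset.mem_product]
  constructor
  · rw [Finset.mem_biUnion]
    exact ⟨μ.length, Finset.mem_range.2 (by omega), h1⟩
  · simp only [Finset.mem_map, Finset.mem_range]
    exact ⟨m, hm, rfl⟩

theorem card_count (n : ℕ) (l : ℤ) (hl : |l| ≤ (n : ℤ)) :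
    (((Finset.range n).filter fun m : ℕ => 0 ≤ (m : ℤ) + l ∧ (m : ℤ) + l < n).card : ℝ) =
      n - |(l : ℝ)| := by
  rcases le_total 0 l with h0 | h0
  · obtain ⟨k, rfl⟩ := Int.eq_ofNat_of_zero_le h0
    rw [abs_of_nonneg h0] at hl
    have hk : k ≤ n := by exact_mod_cast hl
    have : ((Finset.range n).filter fun m : ℕ => 0 ≤ (m : ℤ) + (k : ℤ) ∧ (m : ℤ) + (k : ℤ) < n) =
        Finset.range (n - k) := by
      ext m
      simp only [Finset.mem_filter, Finset.mem_range]
      omega
    rw [this, Finset.card_range]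
    have h1 : |(((k : ℕ) : ℤ) : ℝ)| = (k : ℝ) := by
      rw [Int.cast_natCast, Nat.abs_cast]
    rw [h1]
    push_cast [Nat.cast_sub hk]
    ring
  · obtain ⟨k, hk'⟩ := Int.eq_ofNat_of_zero_le (neg_nonneg.2 h0)
    have hlk : l = -(k : ℤ) := by omega
    subst hlk
    rw [abs_neg, abs_of_nonneg (by omega)] at hl
    have hk : k ≤ n := by exact_mod_cast hl
    have : ((Finset.range n).filter fun m : ℕ => 0 ≤ (m : ℤ) + (-(k : ℤ)) ∧
        (m : ℤ) + (-(k : ℤ)) < n) = Finset.Ico k n := by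
      ext m
      simp only [Finset.mem_filter, Finset.mem_range, Finset.mem_Ico]
      omega
    rw [this, Nat.card_Ico]
    have h1 : |((-((k : ℕ) : ℤ) : ℤ) : ℝ)| = (k : ℝ) := by
      rw [Int.cast_neg, abs_neg, Int.cast_natCast, Nat.abs_cast]
    rw [h1]
    push_cast [Nat.cast_sub hk]
    ring

end FRM_

open FRM_

theorem frm_proof (hPWR : Stmt_PWR) (hWRD : Stmt_WRD) (hLWT : Stmt_LWT) (hDLB : Stmt_DLB)
    (hWSM : Stmt_WSM) (hFRA : Stmt_FRA) : Stmt_FRM := by
  intro B _ u s hus M h N n hW hN hn α l β hα hβ hl hα' hβ'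
  obtain ⟨p0, -, padd, -, -⟩ := hPWR B u s hus
  obtain ⟨happ, hsh, -, -⟩ := hWRD B u s hus
  obtain ⟨-, -, -, -, hcc0, hbb0, -, -, -, -⟩ := hLWT N hN
  have hα1 : hw h α = 1 := hw_one fun x hx => (hα' x hx).1
  have hβ1 : hw h β = 1 := hw_one fun x hx => (hβ' x hx).1
  have hn0 : (n : ℝ) ≠ 0 := by positivity
  have key := hFRA B (fun p q => ∑ i, rr u s M h N n i p * star (rr u s M h N n i q)) M N n α l β
    hα hβ (fun x hx => (hα' x hx).2) (fun x hx => (hβ' x hx).2)
  show ∑ p ∈ IS M N n, ∑ q ∈ IS M N n, (inner ℂ (ee p) (Mo U S (α, l, β) (ee q)) : ℂ) •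
    ∑ i, rr u s M h N n i p * star (rr u s M h N n i q) = _
  rw [key]
  congr 1
  · -- the diagonal part
    have e1 : ∀ m ∈ Finset.range n, (if 0 ≤ (m : ℤ) + l ∧ (m : ℤ) + l < n then
        ∑ i, rr u s M h N n i (α, (m : ℤ) + l) * star (rr u s M h N n i (β, (m : ℤ))) else 0) =
        if 0 ≤ (m : ℤ) + l ∧ (m : ℤ) + l < n then
        ((((1 / n) * (bb N α.length * bb N β.length) : ℝ)) : ℂ) •
          (Sw u s α * pw u l * star (Sw u s β)) +
        ((((1 / n) * (cc N α.length * cc N β.length) : ℝ)) : ℂ) •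
          (Sw u s α * (Del u s M h * pw u l * Del u s M h) * star (Sw u s β)) else 0 := by
      intro m _
      rw [G_eq hPWR hDLB hus hW α β ((m : ℤ) + l) m l rfl, hα1, hβ1, one_mul, mul_one, mul_one]
    rw [Finset.sum_congr rfl e1, ← Finset.sum_filter, Finset.sum_const, ← Nat.cast_smul_eq_nsmul ℂ,
      smul_add, smul_smul, smul_smul]
    have e2 : ∀ c : ℝ, ((((Finset.range n).filter fun m : ℕ => 0 ≤ (m : ℤ) + l ∧
        (m : ℤ) + l < n).card : ℕ) : ℂ) * (((1 / n) * c : ℝ) : ℂ) =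
        (((1 - |(l : ℝ)| / n) * c : ℝ) : ℂ) := by
      intro c
      rw [← Complex.ofReal_natCast, card_count n l hl, ← Complex.ofReal_mul]
      congr 1
      field_simp
    rw [e2, e2, mul_add, add_mul, mul_smul_comm, mul_smul_comm, smul_mul_assoc, smul_mul_assoc]
  · -- the other part
    have e1 : ∀ m ∈ Finset.range n, ∀ k ∈ Finset.range N, ∀ ρ ∈ WS M (k + 1),
        (if (α ++ sh l ρ, (m : ℤ)) ∈ IS M N n ∧ (β ++ ρ, (m : ℤ)) ∈ IS M N n then
          ∑ i, rr u s M h N n i (α ++ sh l ρ, (m : ℤ)) *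
            star (rr u s M h N n i (β ++ ρ, (m : ℤ))) else 0) =
        (((1 / n) : ℝ) : ℂ) • (Sw u s α * (pw u l *
          ((((bb N (α.length + k + 1) * bb N (β.length + k + 1) : ℝ)) : ℂ) •
            (((hw h (sh l ρ) * hw h ρ : ℝ)) : ℂ) • (Sw u s ρ * 1 * star (Sw u s ρ)) +
          (((cc N (α.length + k + 1) * cc N (β.length + k + 1) : ℝ)) : ℂ) •
            (((hw h (sh l ρ) * hw h ρ : ℝ)) : ℂ) •
              (Sw u s ρ * (Del u s M h * Del u s M h) * star (Sw u s ρ)))) *
          star (Sw u s β)) := by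
      intro m hm k hk ρ hρ
      rw [Finset.mem_range] at hm
      have hρ' := ((hWSM ℂ 0 0 M (fun _ => 0) 0).1 _ _).1 hρ
      have hρ0 : ρ ≠ [] := by
        rintro rfl
        simp at hρ'
      have hla : (α ++ sh l ρ).length = α.length + k + 1 := by
        rw [List.length_append, sh_length, hρ'.1]; ring
      have hlb : (β ++ ρ).length = β.length + k + 1 := by
        rw [List.length_append, hρ'.1]; ring
      have e3 : ∑ i, rr u s M h N n i (α ++ sh l ρ, (m : ℤ)) *
            star (rr u s M h N n i (β ++ ρ, (m : ℤ))) =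
          (((1 / n) : ℝ) : ℂ) • (Sw u s α * (pw u l *
          ((((bb N (α.length + k + 1) * bb N (β.length + k + 1) : ℝ)) : ℂ) •
            (((hw h (sh l ρ) * hw h ρ : ℝ)) : ℂ) • (Sw u s ρ * 1 * star (Sw u s ρ)) +
          (((cc N (α.length + k + 1) * cc N (β.length + k + 1) : ℝ)) : ℂ) •
            (((hw h (sh l ρ) * hw h ρ : ℝ)) : ℂ) •
              (Sw u s ρ * (Del u s M h * Del u s M h) * star (Sw u s ρ)))) *
          star (Sw u s β)) := by
        rw [G_eq hPWR hDLB hus hW (α ++ sh l ρ) (β ++ ρ) m m 0 (by ring), hla, hlb, hw_append,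
          hw_append, hα1, hβ1, one_mul, one_mul, p0, mul_one, mul_one, happ, happ, ← hsh l ρ hρ0,
          star_mul]
        simp only [mul_add, add_mul, mul_smul_comm, smul_mul_assoc, smul_smul, smul_add,
          Complex.ofReal_mul, mul_assoc, one_mul]
      by_cases hc : (α ++ sh l ρ, (m : ℤ)) ∈ IS M N n ∧ (β ++ ρ, (m : ℤ)) ∈ IS M N n
      · rw [if_pos hc, e3]
      · rw [if_neg hc]
        have hz : (bb N (α.length + k + 1) * bb N (β.length + k + 1) = 0 ∧
            cc N (α.length + k + 1) * cc N (β.length + k + 1) = 0) ∨ hw h (sh l ρ) = 0 := by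
          by_cases hA : N < α.length + k + 1
          · left
            rw [hbb0 _ hA, hcc0 _ hA.le, zero_mul, zero_mul]
            exact ⟨rfl, rfl⟩
          by_cases hB : N < β.length + k + 1
          · left
            rw [hbb0 (β.length + k + 1) hB, hcc0 (β.length + k + 1) hB.le, mul_zero, mul_zero]
            exact ⟨rfl, rfl⟩
          right
          have hb : (β ++ ρ, (m : ℤ)) ∈ IS M N n := by
            refine mem_IS hWSM hm (by rw [hlb]; omega) ?_
            intro x hx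
            rcases List.mem_append.1 hx with hx | hx
            · exact (hβ' x hx).2
            · exact hρ'.2 x hx
          have ha : ¬ ∀ x ∈ sh l ρ, |x| ≤ (M : ℤ) := by
            intro hall
            refine hc ⟨?_, hb⟩
            refine mem_IS hWSM hm (by rw [hla]; omega) ?_
            intro x hx
            rcases List.mem_append.1 hx with hx | hx
            · exact (hα' x hx).2
            · exact hall x hx
          push Not at ha
          obtain ⟨x, hx, hx'⟩ := ha
          exact hw_zero hx (hW.supp x hx')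
        rcases hz with ⟨z1, z2⟩ | z
        · rw [z1, z2]; simp
        · rw [z]; simp
    have e4 : ∀ m ∈ Finset.range n, ∑ k ∈ Finset.range N, ∑ ρ ∈ WS M (k + 1),
        (if (α ++ sh l ρ, (m : ℤ)) ∈ IS M N n ∧ (β ++ ρ, (m : ℤ)) ∈ IS M N n then
          ∑ i, rr u s M h N n i (α ++ sh l ρ, (m : ℤ)) *
            star (rr u s M h N n i (β ++ ρ, (m : ℤ))) else 0) =
        (((1 / n) : ℝ) : ℂ) • (Sw u s α * (pw u l * ∑ k ∈ Finset.range N,
      (((bb N (α.length + k + 1) * bb N (β.length + k + 1) : ℝ) : ℂ) •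
        Lam u s M (fun κ => h (κ + l) * h κ) (itQ u s M h k) +
       ((cc N (α.length + k + 1) * cc N (β.length + k + 1) : ℝ) : ℂ) •
        Lam u s M (fun κ => h (κ + l) * h κ) (itq u s M h k))) * star (Sw u s β)) := by
      intro m hm
      rw [Finset.mul_sum, Finset.mul_sum, Finset.sum_mul, Finset.smul_sum]
      refine Finset.sum_congr rfl fun k hk => ?_
      rw [Finset.sum_congr rfl (e1 m hm k hk), ← Finset.smul_sum, ← Finset.sum_mul,
        ← Finset.mul_sum, ← Finset.mul_sum, Finset.sum_add_distrib, ← Finset.smul_sum,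
        ← Finset.smul_sum, (hWSM B u s M h 1).2.2 k l,
        (hWSM B u s M h (Del u s M h * Del u s M h)).2.2 k l]
      rfl
    rw [Finset.sum_congr rfl e4, Finset.sum_const, Finset.card_range, ← Nat.cast_smul_eq_nsmul ℂ,
      smul_smul]
    have e5 : ((n : ℕ) : ℂ) * (((1 / n) : ℝ) : ℂ) = 1 := by
      rw [← Complex.ofReal_natCast, ← Complex.ofReal_mul]
      rw [mul_one_div, div_self hn0]
      simp
    rw [e5, one_smul]

end Pool.Agent.KCH
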