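import Pool.Agent.KCH.Defs

/-!
# Squad KCH: functoriality of `K_0`, `K_1`, classes of matrices with arbitrary finite index types
-/

set_option autoImplicit false

namespace Pool.Agent.KCH

open TopologicalSpace

instance (F : KKFunctor) (A : Type) [NonUnitalCStarAlgebra A] [SeparableSpace A] :
    AddCommGroup (F.obj A) := F.grp A

section
variable {A B C : Type} [Ring A] [Ring B] [Ring C]

/-- entrywise application of a homomorphism -/
def mm (f : A →ₙ+* B) {ι κ : Type} (x : Matrix ι κ A) : Matrix ι κ B := fun i j => f (x i j)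

@[simp] theorem mm_apply (f : A →ₙ+* B) {ι κ : Type} (x : Matrix ι κ A) (i : ι) (j : κ) :
    mm f x i j = f (x i j) := rfl

theorem mm_mul (f : A →ₙ+* B) {ι κ μ : Type} [Fintype κ] (x : Matrix ι κ A) (y : Matrix κ μ A) :
    mm f (x * y) = mm f x * mm f y := by
  ext i j
  simp [mm, Matrix.mul_apply, map_sum]

theorem mm_add (f : A →ₙ+* B) {ι κ : Type} (x y : Matrix ι κ A) :
    mm f (x + y) = mm f x + mm f y := by
  ext i j; simp [mm]

theorem mm_sub (f : A →ₙ+* B) {ι κ : Type} (x y : Matrix ι κ A) :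
    mm f (x - y) = mm f x - mm f y := by
  ext i j; simp [mm]

theorem mm_zero (f : A →ₙ+* B) {ι κ : Type} : mm f (0 : Matrix ι κ A) = 0 := by
  ext i j; simp [mm]

theorem mm_fromBlocks (f : A →ₙ+* B) {ι κ ι' κ' : Type} (a : Matrix ι κ A) (b : Matrix ι κ' A)
    (c : Matrix ι' κ A) (d : Matrix ι' κ' A) :
    mm f (Matrix.fromBlocks a b c d) = Matrix.fromBlocks (mm f a) (mm f b) (mm f c) (mm f d) := by
  ext i j
  rcases i with i | i <;> rcases j with j | j <;> rfl

theorem mm_bsum (f : A →ₙ+* B) {n m : ℕ} (a : Matrix (Fin n) (Fin n) A)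
    (b : Matrix (Fin m) (Fin m) A) : mm f (bsum a b) = bsum (mm f a) (mm f b) := by
  have h : ∀ x : Matrix (Fin n ⊕ Fin m) (Fin n ⊕ Fin m) A,
      mm f (Matrix.reindex finSumFinEquiv finSumFinEquiv x) =
        Matrix.reindex finSumFinEquiv finSumFinEquiv (mm f x) := fun x => rfl
  rw [bsum, h, mm_fromBlocks, mm_zero, mm_zero]
  rfl

/-- image of an idempotent -/
def Idem.map (f : A →ₙ+* B) (p : Idem A) : Idem B := ⟨p.n, mm f p.e, by rw [← mm_mul, p.idem]⟩

theorem K0.map_le (f : A →ₙ+* B) : AddSubgroup.closure (relK0 A) ≤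
    (AddSubgroup.closure (relK0 B)).comap (FreeAbelianGroup.map (Idem.map f)) := by
  rw [AddSubgroup.closure_le]
  rintro x (⟨p, q, rfl⟩ | ⟨p, q, ⟨a, b, h1, h2⟩, rfl⟩)
  · show FreeAbelianGroup.map (Idem.map f) _ ∈ AddSubgroup.closure (relK0 B)
    rw [map_sub, map_add, FreeAbelianGroup.map_of_apply, FreeAbelianGroup.map_of_apply,
      FreeAbelianGroup.map_of_apply]
    apply AddSubgroup.subset_closure
    left
    refine ⟨p.map f, q.map f, ?_⟩
    have : (p.sum q).map f = (p.map f).sum (q.map f) := by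
      simp only [Idem.map, Idem.sum, mm_bsum]
    rw [this]
  · show FreeAbelianGroup.map (Idem.map f) _ ∈ AddSubgroup.closure (relK0 B)
    rw [map_sub, FreeAbelianGroup.map_of_apply, FreeAbelianGroup.map_of_apply]
    apply AddSubgroup.subset_closure
    right
    exact ⟨p.map f, q.map f, ⟨mm f a, mm f b, (mm_mul f a b).symm.trans (congrArg (mm f) h1),
      (mm_mul f b a).symm.trans (congrArg (mm f) h2)⟩, rfl⟩

/-- functoriality of `K_0` for not necessarily unital homomorphisms -/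
def K0.map (f : A →ₙ+* B) : K0 A →+ K0 B :=
  QuotientAddGroup.map _ _ (FreeAbelianGroup.map (Idem.map f)) (K0.map_le f)

/-- the class of an idempotent -/
def cl0 (p : Idem A) : K0 A := QuotientAddGroup.mk (FreeAbelianGroup.of p)

theorem K0.map_cl0 (f : A →ₙ+* B) (p : Idem A) : K0.map f (cl0 p) = cl0 (p.map f) := by
  show QuotientAddGroup.map _ _ _ _ (QuotientAddGroup.mk _) = _
  rw [QuotientAddGroup.map_mk, FreeAbelianGroup.map_of_apply]
  rfl

theorem cl0_sum (p q : Idem A) : cl0 (p.sum q) = cl0 p + cl0 q := by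
  have h : (QuotientAddGroup.mk (FreeAbelianGroup.of (p.sum q) -
      (FreeAbelianGroup.of p + FreeAbelianGroup.of q)) : K0 A) = 0 :=
    (QuotientAddGroup.eq_zero_iff _).2 (AddSubgroup.subset_closure (Or.inl ⟨p, q, rfl⟩))
  rw [QuotientAddGroup.mk_sub, QuotientAddGroup.mk_add, sub_eq_zero] at h
  exact h

theorem cl0_eq {p q : Idem A} (h : p.Equivalent q) : cl0 p = cl0 q := by
  have h : (QuotientAddGroup.mk (FreeAbelianGroup.of p - FreeAbelianGroup.of q) : K0 A) = 0 :=
    (QuotientAddGroup.eq_zero_iff _).2 (AddSubgroup.subset_closure (Or.inr ⟨p, q, h, rfl⟩))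
  rw [QuotientAddGroup.mk_sub, sub_eq_zero] at h
  exact h

theorem K0.hom_ext {G : Type} [AddCommGroup G] {f g : K0 A →+ G} (h : ∀ p, f (cl0 p) = g (cl0 p)) :
    f = g := by
  apply QuotientAddGroup.addMonoidHom_ext
  apply FreeAbelianGroup.lift_ext
  exact h

theorem Idem.map_id (p : Idem A) : p.map (NonUnitalRingHom.id A) = p := by
  rcases p with ⟨n, e, h⟩
  rfl

theorem Idem.map_comp (g : B →ₙ+* C) (f : A →ₙ+* B) (p : Idem A) :
    p.map (g.comp f) = (p.map f).map g := rfl

theorem K0.map_id (x : K0 A) : K0.map (NonUnitalRingHom.id A) x = x := by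
  have : K0.map (NonUnitalRingHom.id A) = AddMonoidHom.id _ :=
    K0.hom_ext fun p => by rw [K0.map_cl0, Idem.map_id]; rfl
  rw [this]; rfl

theorem K0.map_comp (g : B →ₙ+* C) (f : A →ₙ+* B) (x : K0 A) :
    K0.map (g.comp f) x = K0.map g (K0.map f x) := by
  have : K0.map (g.comp f) = (K0.map g).comp (K0.map f) :=
    K0.hom_ext fun p => by
      rw [K0.map_cl0, Idem.map_comp, AddMonoidHom.comp_apply, K0.map_cl0, K0.map_cl0]
  rw [this]; rfl

/-- a matrix over an arbitrary finite index type, reindexed by `Fin n` -/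
noncomputable def toFin {ι : Type} [Fintype ι] (e : Matrix ι ι A) :
    Matrix (Fin (Fintype.card ι)) (Fin (Fintype.card ι)) A :=
  Matrix.reindex (Fintype.equivFin ι) (Fintype.equivFin ι) e

theorem toFin_mul {ι : Type} [Fintype ι] (e f : Matrix ι ι A) :
    toFin (e * f) = toFin e * toFin f := by
  simp [toFin]

theorem toFin_one {ι : Type} [Fintype ι] [DecidableEq ι] :
    toFin (1 : Matrix ι ι A) = 1 := by
  simp [toFin]

/-- the idempotent defined by an idempotent matrix over an arbitrary finite index type -/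
noncomputable def idemOf {ι : Type} [Fintype ι] (e : Matrix ι ι A) (he : e * e = e) : Idem A :=
  ⟨Fintype.card ι, toFin e, by rw [← toFin_mul, he]⟩

/-- the class of an idempotent matrix over an arbitrary finite index type -/
noncomputable def c0 {ι : Type} [Fintype ι] (e : Matrix ι ι A) (he : e * e = e) : K0 A :=
  cl0 (idemOf e he)

/-- algebraic equivalence of square matrices over arbitrary finite index types -/
def Eqv {ι κ : Type} [Fintype ι] [Fintype κ] (e : Matrix ι ι A) (f : Matrix κ κ A) : Prop :=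
  ∃ (x : Matrix ι κ A) (y : Matrix κ ι A), x * y = e ∧ y * x = f

theorem equivalent_iff (p q : Idem A) : p.Equivalent q ↔ Eqv p.e q.e := Iff.rfl

theorem Eqv.symm {ι κ : Type} [Fintype ι] [Fintype κ] {e : Matrix ι ι A} {f : Matrix κ κ A}
    (h : Eqv e f) : Eqv f e := by
  obtain ⟨x, y, h1, h2⟩ := h
  exact ⟨y, x, h2, h1⟩

theorem Eqv.refl {ι : Type} [Fintype ι] {e : Matrix ι ι A} (he : e * e = e) : Eqv e e :=
  ⟨e, e, he, he⟩

theorem Eqv.trans {ι κ μ : Type} [Fintype ι] [Fintype κ] [Fintype μ] {e : Matrix ι ι A}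
    {f : Matrix κ κ A} {g : Matrix μ μ A} (he : e * e = e) (hg : g * g = g)
    (h : Eqv e f) (h' : Eqv f g) : Eqv e g := by
  obtain ⟨x, y, h1, h2⟩ := h
  obtain ⟨x', y', h1', h2'⟩ := h'
  refine ⟨x * x', y' * y, ?_, ?_⟩
  · have h3 : x * x' * (y' * y) = (x * y) * (x * y) := by
      rw [show x * x' * (y' * y) = x * (x' * y') * y by simp only [Matrix.mul_assoc], h1', ← h2]
      simp only [Matrix.mul_assoc]
    rw [h3, h1, he]
  · have h3 : y' * y * (x * x') = (y' * x') * (y' * x') := by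
      rw [show y' * y * (x * x') = y' * (y * x) * x' by simp only [Matrix.mul_assoc], h2, ← h1']
      simp only [Matrix.mul_assoc]
    rw [h3, h2', hg]

/-- an equivalence can be taken in `e M f`, `f M e` -/
theorem Eqv.normal {ι κ : Type} [Fintype ι] [Fintype κ] {e : Matrix ι ι A} {f : Matrix κ κ A}
    (he : e * e = e) (hf : f * f = f) (h : Eqv e f) :
    ∃ (x : Matrix ι κ A) (y : Matrix κ ι A), x * y = e ∧ y * x = f ∧ e * x = x ∧ x * f = x ∧
      f * y = y ∧ y * e = y := by
  obtain ⟨x, y, h1, h2⟩ := h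
  have ha : e * x * f = e * x := by
    rw [← h1, ← h2]
    have : x * y * x * (y * x) = (x * y) * (x * y) * x := by simp only [Matrix.mul_assoc]
    rw [this, h1, he]
  refine ⟨e * x * f, f * y * e, ?_, ?_, ?_, ?_, ?_, ?_⟩
  · have : e * x * f * (f * y * e) = e * (x * (f * f) * y) * e := by simp only [Matrix.mul_assoc]
    rw [this, hf, ← h2, show x * (y * x) * y = (x * y) * (x * y) by simp only [Matrix.mul_assoc],
      h1, he, he, he]
  · have : f * y * e * (e * x * f) = f * (y * (e * e) * x) * f := by simp only [Matrix.mul_assoc]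
    rw [this, he, ← h1, show y * (x * y) * x = (y * x) * (y * x) by simp only [Matrix.mul_assoc],
      h2, hf, hf, hf]
  · rw [← Matrix.mul_assoc, ← Matrix.mul_assoc, he]
  · rw [Matrix.mul_assoc, hf]
  · rw [← Matrix.mul_assoc, ← Matrix.mul_assoc, hf]
  · rw [Matrix.mul_assoc, he]

theorem Eqv.reindex {ι κ : Type} [Fintype ι] [Fintype κ] (σ : ι ≃ κ) (e : Matrix ι ι A)
    (he : e * e = e) : Eqv e (Matrix.reindex σ σ e) := by
  classical
  refine ⟨e.submatrix id σ.symm, e.submatrix σ.symm id, ?_, ?_⟩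
  · rw [Matrix.submatrix_mul_equiv, he]; rfl
  · have h1 : e.submatrix σ.symm id * e.submatrix id σ.symm = (e * e).submatrix σ.symm σ.symm := by
      ext i j
      simp [Matrix.mul_apply]
    rw [h1, he]; rfl

theorem Eqv.reindex' {ι κ μ : Type} [Fintype ι] [Fintype κ] [Fintype μ] (σ : ι ≃ κ) (τ : ι ≃ μ)
    (e : Matrix ι ι A) (he : e * e = e) :
    Eqv (Matrix.reindex σ σ e) (Matrix.reindex τ τ e) := by
  refine Eqv.trans ?_ ?_ (Eqv.reindex σ e he).symm (Eqv.reindex τ e he)
  · rw [Matrix.reindex_apply, Matrix.submatrix_mul_equiv, he]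
  · rw [Matrix.reindex_apply, Matrix.submatrix_mul_equiv, he]

theorem c0_eq {ι κ : Type} [Fintype ι] [Fintype κ] {e : Matrix ι ι A}
    {f : Matrix κ κ A} (he : e * e = e) (hf : f * f = f) (h : Eqv e f) :
    c0 e he = c0 f hf := by
  apply cl0_eq
  rw [equivalent_iff]
  show Eqv (toFin e) (toFin f)
  exact Eqv.trans (by rw [← toFin_mul, he]) (by rw [← toFin_mul, hf])
    (Eqv.reindex _ e he).symm (Eqv.trans he (by rw [← toFin_mul, hf]) h (Eqv.reindex _ f hf))

theorem c0_fin (p : Idem A) : c0 p.e p.idem = cl0 p :=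
  cl0_eq (Eqv.reindex _ p.e p.idem).symm

theorem fromBlocks_idem {ι κ : Type} [Fintype ι] [Fintype κ] {e : Matrix ι ι A}
    {f : Matrix κ κ A} (he : e * e = e) (hf : f * f = f) :
    Matrix.fromBlocks e 0 0 f * Matrix.fromBlocks e 0 0 f = Matrix.fromBlocks e 0 0 f := by
  rw [Matrix.fromBlocks_multiply, he, hf]
  simp

theorem c0_sum {ι κ : Type} [Fintype ι] [Fintype κ] {e : Matrix ι ι A}
    {f : Matrix κ κ A} (he : e * e = e) (hf : f * f = f) :
    c0 (Matrix.fromBlocks e 0 0 f) (fromBlocks_idem he hf) = c0 e he + c0 f hf := by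
  rw [c0, c0, c0, ← cl0_sum]
  apply cl0_eq
  rw [equivalent_iff]
  have h2 : bsum (toFin e) (toFin f)
      = Matrix.reindex (((Fintype.equivFin ι).sumCongr (Fintype.equivFin κ)).trans finSumFinEquiv)
        (((Fintype.equivFin ι).sumCongr (Fintype.equivFin κ)).trans finSumFinEquiv)
        (Matrix.fromBlocks e 0 0 f) := by
    ext i j
    obtain ⟨i, rfl⟩ := finSumFinEquiv.surjective i
    obtain ⟨j, rfl⟩ := finSumFinEquiv.surjective j
    rcases i with i | i <;> rcases j with j | j <;> simp [toFin, bsum]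
  show Eqv (toFin (Matrix.fromBlocks e 0 0 f)) (bsum (toFin e) (toFin f))
  rw [h2]
  exact Eqv.reindex' _ _ _ (fromBlocks_idem he hf)

theorem compl_idem {ι : Type} [Fintype ι] [DecidableEq ι] {e : Matrix ι ι A} (he : e * e = e) :
    (1 - e) * (1 - e) = 1 - e := by
  rw [mul_sub, sub_mul, sub_mul, he]; simp

theorem c0_compl {ι : Type} [Fintype ι] [DecidableEq ι] {e : Matrix ι ι A} (he : e * e = e) :
    c0 e he + c0 (1 - e) (compl_idem he) = c0 (1 : Matrix ι ι A) (one_mul _) := by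
  rw [← c0_sum]
  apply c0_eq
  refine ⟨Matrix.fromRows e (1 - e), Matrix.fromCols e (1 - e), ?_, ?_⟩
  · rw [Matrix.fromRows_mul_fromCols, he, compl_idem he, mul_sub, he, sub_mul, he]
    simp
  · rw [Matrix.fromCols_mul_fromRows, he, compl_idem he]
    simp

theorem c0_congr {ι : Type} [Fintype ι] {e f : Matrix ι ι A} (h : e = f) (he : e * e = e)
    (hf : f * f = f) : c0 e he = c0 f hf := by
  subst h; rfl

theorem c0_one_sum (ι κ : Type) [Fintype ι] [Fintype κ] [DecidableEq ι] [DecidableEq κ] :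
    c0 (1 : Matrix (ι ⊕ κ) (ι ⊕ κ) A) (one_mul _) =
      c0 (1 : Matrix ι ι A) (one_mul _) + c0 (1 : Matrix κ κ A) (one_mul _) := by
  rw [← c0_sum]
  exact c0_congr Matrix.fromBlocks_one.symm _ _

theorem c0_one_equiv {ι κ : Type} [Fintype ι] [Fintype κ] [DecidableEq ι] [DecidableEq κ]
    (σ : ι ≃ κ) : c0 (1 : Matrix ι ι A) (one_mul _) = c0 (1 : Matrix κ κ A) (one_mul _) := by
  apply c0_eq
  have h := Eqv.reindex σ (1 : Matrix ι ι A) (one_mul _)
  simpa using h

theorem c0_empty (e : Matrix (Fin 0) (Fin 0) A) (he : e * e = e) : c0 e he = 0 := by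
  have h : c0 e he + c0 e he = c0 e he := by
    rw [← c0_sum]
    apply c0_eq
    refine ⟨fun i => ?_, fun i => ?_, ?_, ?_⟩
    · rcases i with i | i <;> exact i.elim0
    · exact i.elim0
    · ext i; rcases i with i | i <;> exact i.elim0
    · ext i; exact i.elim0
  simpa using h

theorem c0_toFin {ι : Type} [Fintype ι] {e : Matrix ι ι A} (he : e * e = e) :
    c0 (toFin e) (by rw [← toFin_mul, he]) = c0 e he := c0_fin (idemOf e he)

/-- every element of `K_0` is the difference of the classes of an idempotent and of a unit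
matrix -/
theorem K0.exists_sub (x : K0 A) : ∃ (n m : ℕ) (e : Matrix (Fin n) (Fin n) A) (he : e * e = e),
    x = c0 e he - c0 (1 : Matrix (Fin m) (Fin m) A) (one_mul _) := by
  obtain ⟨y, rfl⟩ := QuotientAddGroup.mk_surjective x
  induction y using FreeAbelianGroup.induction_on with
  | zero =>
    exact ⟨0, 0, 0, by simp, by rw [c0_empty, c0_empty, sub_zero]; rfl⟩
  | of p =>
    refine ⟨p.n, 0, p.e, p.idem, ?_⟩
    rw [c0_empty, sub_zero, c0_fin]
    rfl
  | neg p _ =>
    refine ⟨p.n, p.n, 1 - p.e, compl_idem p.idem, ?_⟩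
    rw [← c0_compl p.idem, c0_fin, QuotientAddGroup.mk_neg]
    show - cl0 p = _
    abel
  | add a b ha hb =>
    obtain ⟨n, m, e, he, h1⟩ := ha
    obtain ⟨n', m', e', he', h2⟩ := hb
    refine ⟨_, m + m', _, (idemOf (Matrix.fromBlocks e 0 0 e') (fromBlocks_idem he he')).idem, ?_⟩
    rw [c0_fin, QuotientAddGroup.mk_add, h1, h2]
    have h3 : cl0 (idemOf (Matrix.fromBlocks e 0 0 e') (fromBlocks_idem he he')) =
      c0 e he + c0 e' he' := c0_sum he he'
    rw [h3, ← c0_one_equiv finSumFinEquiv, c0_one_sum]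
    abel

theorem mm_idem (f : A →ₙ+* B) {ι : Type} [Fintype ι] {e : Matrix ι ι A} (he : e * e = e) :
    mm f e * mm f e = mm f e := by rw [← mm_mul, he]

theorem K0.map_c0 (f : A →ₙ+* B) {ι : Type} [Fintype ι] {e : Matrix ι ι A} (he : e * e = e) :
    K0.map f (c0 e he) = c0 (mm f e) (mm_idem f he) := by
  rw [c0, K0.map_cl0]
  rfl

end

/-! ### `K_1` -/

section
variable {A B C : Type} [Ring A] [Ring B] [Ring C]

/-- the action of a not necessarily unital homomorphism on invertible matrices: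
`g ↦ 1 + f(g - 1)` -/
def m1 (f : A →ₙ+* B) {ι : Type} [DecidableEq ι] (g : Matrix ι ι A) : Matrix ι ι B :=
  1 + mm f (g - 1)

theorem m1_one (f : A →ₙ+* B) {ι : Type} [DecidableEq ι] : m1 f (1 : Matrix ι ι A) = 1 := by
  rw [m1, sub_self, mm_zero, add_zero]

theorem m1_mul (f : A →ₙ+* B) {ι : Type} [DecidableEq ι] [Fintype ι] (g h : Matrix ι ι A) :
    m1 f (g * h) = m1 f g * m1 f h := by
  have h1 : g * h - 1 = (g - 1) * (h - 1) + (g - 1) + (h - 1) := by noncomm_ring
  rw [m1, h1, mm_add, mm_add, mm_mul, m1, m1]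
  noncomm_ring

theorem m1_isUnit (f : A →ₙ+* B) {ι : Type} [DecidableEq ι] [Fintype ι] {g : Matrix ι ι A}
    (hg : IsUnit g) : IsUnit (m1 f g) := by
  obtain ⟨u, rfl⟩ := hg
  exact ⟨⟨m1 f u, m1 f ↑u⁻¹, by rw [← m1_mul, u.mul_inv, m1_one],
    by rw [← m1_mul, u.inv_mul, m1_one]⟩, rfl⟩

theorem bsum_sub {n m : ℕ} (a c : Matrix (Fin n) (Fin n) A) (b d : Matrix (Fin m) (Fin m) A) :
    bsum a b - bsum c d = bsum (a - c) (b - d) := by
  ext i j
  obtain ⟨i, rfl⟩ := finSumFinEquiv.surjective i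
  obtain ⟨j, rfl⟩ := finSumFinEquiv.surjective j
  rcases i with i | i <;> rcases j with j | j <;> simp [bsum]

theorem bsum_add {n m : ℕ} (a c : Matrix (Fin n) (Fin n) A) (b d : Matrix (Fin m) (Fin m) A) :
    bsum a b + bsum c d = bsum (a + c) (b + d) := by
  ext i j
  obtain ⟨i, rfl⟩ := finSumFinEquiv.surjective i
  obtain ⟨j, rfl⟩ := finSumFinEquiv.surjective j
  rcases i with i | i <;> rcases j with j | j <;> simp [bsum]

theorem m1_bsum (f : A →ₙ+* B) {n m : ℕ} (a : Matrix (Fin n) (Fin n) A)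
    (b : Matrix (Fin m) (Fin m) A) : m1 f (bsum a b) = bsum (m1 f a) (m1 f b) := by
  have h1 : bsum a b - 1 = bsum (a - 1) (b - 1) := by rw [← bsum_one, bsum_sub]
  have h2 : (1 : Matrix (Fin (n + m)) (Fin (n + m)) B) = bsum 1 1 := (bsum_one n m).symm
  rw [m1, h1, mm_bsum, h2, bsum_add, m1, m1]

theorem GLm.mk_congr {n : ℕ} {g h : Matrix (Fin n) (Fin n) A} (e : g = h) (hg : IsUnit g)
    (hh : IsUnit h) : (⟨n, g, hg⟩ : GLm A) = ⟨n, h, hh⟩ := by
  subst e; rfl

/-- image of an invertible matrix -/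
def GLm.map (f : A →ₙ+* B) (p : GLm A) : GLm B := ⟨p.n, m1 f p.g, m1_isUnit f p.isUnit⟩

theorem m1_continuous [TopologicalSpace A] [TopologicalSpace B] [ContinuousSub A] [ContinuousAdd B]
    (f : A →ₙ+* B) (hf : Continuous f) {ι : Type} [DecidableEq ι] :
    Continuous (m1 f : Matrix ι ι A → Matrix ι ι B) := by
  unfold m1
  refine continuous_const.add ?_
  apply continuous_matrix
  intro i j
  show Continuous fun x : Matrix ι ι A => f ((x - 1) i j)
  apply hf.comp
  show Continuous fun x : Matrix ι ι A => x i j - (1 : Matrix ι ι A) i j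
  exact (continuous_id.matrix_elem i j).sub continuous_const

theorem m1_joined [TopologicalSpace A] [TopologicalSpace B] [ContinuousSub A] [ContinuousAdd B]
    (f : A →ₙ+* B) (hf : Continuous f) {n : ℕ} {g h : Matrix (Fin n) (Fin n) A}
    (H : JoinedIn {a : Matrix (Fin n) (Fin n) A | IsUnit a} g h) :
    JoinedIn {a : Matrix (Fin n) (Fin n) B | IsUnit a} (m1 f g) (m1 f h) := by
  obtain ⟨γ, hγ⟩ := H
  exact ⟨γ.map (m1_continuous f hf), fun t => m1_isUnit f (hγ t)⟩

theorem K1.map_le [TopologicalSpace A] [TopologicalSpace B] [ContinuousSub A] [ContinuousAdd B]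
    (f : A →ₙ+* B) (hf : Continuous f) : AddSubgroup.closure (relK1 A) ≤
    (AddSubgroup.closure (relK1 B)).comap (FreeAbelianGroup.map (GLm.map f)) := by
  rw [AddSubgroup.closure_le]
  rintro x ((⟨p, q, rfl⟩ | ⟨n, rfl⟩) | ⟨n, g, h, hg, hh, H, rfl⟩)
  · show FreeAbelianGroup.map (GLm.map f) _ ∈ AddSubgroup.closure (relK1 B)
    rw [map_sub, map_add, FreeAbelianGroup.map_of_apply, FreeAbelianGroup.map_of_apply,
      FreeAbelianGroup.map_of_apply]
    apply AddSubgroup.subset_closure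
    left; left
    refine ⟨p.map f, q.map f, ?_⟩
    have : (p.sum q).map f = (p.map f).sum (q.map f) :=
      GLm.mk_congr (m1_bsum f p.g q.g) _ _
    rw [this]
  · show FreeAbelianGroup.map (GLm.map f) _ ∈ AddSubgroup.closure (relK1 B)
    rw [FreeAbelianGroup.map_of_apply]
    apply AddSubgroup.subset_closure
    left; right
    refine ⟨n, ?_⟩
    have : GLm.map f (⟨n, 1, isUnit_one⟩ : GLm A) = ⟨n, 1, isUnit_one⟩ := by
      simp only [GLm.map, m1_one]
    rw [this]
  · show FreeAbelianGroup.map (GLm.map f) _ ∈ AddSubgroup.closure (relK1 B)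
    rw [map_sub, FreeAbelianGroup.map_of_apply, FreeAbelianGroup.map_of_apply]
    apply AddSubgroup.subset_closure
    right
    exact ⟨n, m1 f g, m1 f h, m1_isUnit f hg, m1_isUnit f hh, m1_joined f hf H, rfl⟩

end

section
variable {A B C : Type} [NormedRing A] [NormedRing B] [NormedRing C]

/-- functoriality of `K_1` for continuous, not necessarily unital homomorphisms -/
def K1.map (f : A →ₙ+* B) (hf : Continuous f) : K1 A →+ K1 B :=
  QuotientAddGroup.map _ _ (FreeAbelianGroup.map (GLm.map f)) (K1.map_le f hf)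

/-- the class of an invertible matrix -/
def cl1 (p : GLm A) : K1 A := QuotientAddGroup.mk (FreeAbelianGroup.of p)

theorem K1.map_cl1 (f : A →ₙ+* B) (hf : Continuous f) (p : GLm A) :
    K1.map f hf (cl1 p) = cl1 (p.map f) := by
  show QuotientAddGroup.map _ _ _ _ (QuotientAddGroup.mk _) = _
  rw [QuotientAddGroup.map_mk, FreeAbelianGroup.map_of_apply]
  rfl

theorem cl1_sum (p q : GLm A) : cl1 (p.sum q) = cl1 p + cl1 q := by
  have h : (QuotientAddGroup.mk (FreeAbelianGroup.of (p.sum q) -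
      (FreeAbelianGroup.of p + FreeAbelianGroup.of q)) : K1 A) = 0 :=
    (QuotientAddGroup.eq_zero_iff _).2
      (AddSubgroup.subset_closure (Or.inl (Or.inl ⟨p, q, rfl⟩)))
  rw [QuotientAddGroup.mk_sub, QuotientAddGroup.mk_add, sub_eq_zero] at h
  exact h

theorem cl1_one (n : ℕ) : cl1 (⟨n, 1, isUnit_one⟩ : GLm A) = 0 :=
  (QuotientAddGroup.eq_zero_iff _).2 (AddSubgroup.subset_closure (Or.inl (Or.inr ⟨n, rfl⟩)))

theorem cl1_joined {n : ℕ} {g h : Matrix (Fin n) (Fin n) A} (hg : IsUnit g) (hh : IsUnit h)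
    (H : JoinedIn {a : Matrix (Fin n) (Fin n) A | IsUnit a} g h) :
    cl1 ⟨n, g, hg⟩ = cl1 ⟨n, h, hh⟩ := by
  have h : (QuotientAddGroup.mk (FreeAbelianGroup.of (⟨n, g, hg⟩ : GLm A) -
      FreeAbelianGroup.of ⟨n, h, hh⟩) : K1 A) = 0 :=
    (QuotientAddGroup.eq_zero_iff _).2
      (AddSubgroup.subset_closure (Or.inr ⟨n, g, h, hg, hh, H, rfl⟩))
  rw [QuotientAddGroup.mk_sub, sub_eq_zero] at h
  exact h

theorem K1.hom_ext {G : Type} [AddCommGroup G] {f g : K1 A →+ G} (h : ∀ p, f (cl1 p) = g (cl1 p)) :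
    f = g := by
  apply QuotientAddGroup.addMonoidHom_ext
  apply FreeAbelianGroup.lift_ext
  exact h

theorem GLm.map_id (p : GLm A) : p.map (NonUnitalRingHom.id A) = p := by
  rcases p with ⟨n, g, h⟩
  have h1 : m1 (NonUnitalRingHom.id A) g = g := by
    show 1 + (g - 1) = g
    abel
  simp only [GLm.map, h1]

theorem m1_comp (g : B →ₙ+* C) (f : A →ₙ+* B) {ι : Type} [DecidableEq ι] (x : Matrix ι ι A) :
    m1 (g.comp f) x = m1 g (m1 f x) := by
  rw [m1, m1, m1, add_sub_cancel_left]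
  rfl

theorem GLm.map_comp (g : B →ₙ+* C) (f : A →ₙ+* B) (p : GLm A) :
    p.map (g.comp f) = (p.map f).map g := by
  simp only [GLm.map, m1_comp]
  rfl

theorem K1.map_id (x : K1 A) : K1.map (NonUnitalRingHom.id A) continuous_id x = x := by
  have : K1.map (NonUnitalRingHom.id A) continuous_id = AddMonoidHom.id (K1 A) :=
    K1.hom_ext fun p => by rw [K1.map_cl1, GLm.map_id]; rfl
  rw [this]; rfl

theorem K1.map_comp (g : B →ₙ+* C) (f : A →ₙ+* B) (hg : Continuous g) (hf : Continuous f)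
    (x : K1 A) : K1.map (g.comp f) (hg.comp hf) x = K1.map g hg (K1.map f hf x) := by
  have : K1.map (g.comp f) (hg.comp hf) = (K1.map g hg).comp (K1.map f hf) :=
    K1.hom_ext fun p => by
      rw [K1.map_cl1, GLm.map_comp, AddMonoidHom.comp_apply, K1.map_cl1, K1.map_cl1]
  rw [this]; rfl

theorem toFin_isUnit {ι : Type} [Fintype ι] [DecidableEq ι] {g : Matrix ι ι A} (hg : IsUnit g) :
    IsUnit (toFin g) := by
  obtain ⟨u, rfl⟩ := hg
  exact ⟨⟨toFin u, toFin ↑u⁻¹, by rw [← toFin_mul, u.mul_inv, toFin_one],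
    by rw [← toFin_mul, u.inv_mul, toFin_one]⟩, rfl⟩

/-- the class in `K_1` of an invertible matrix over an arbitrary finite index type -/
noncomputable def c1 {ι : Type} [Fintype ι] [DecidableEq ι] (g : Matrix ι ι A) (hg : IsUnit g) :
    K1 A := cl1 ⟨Fintype.card ι, toFin g, toFin_isUnit hg⟩

/-- `g` and `h` are joined by a path of invertible matrices -/
def Jn {ι : Type} [Fintype ι] [DecidableEq ι] (g h : Matrix ι ι A) : Prop :=
  JoinedIn {a : Matrix ι ι A | IsUnit a} g h

end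

/-! ### non-unital algebras -/

/-- the augmentation `B^+ → ℂ` -/
def aug (B : Type) [NonUnitalCStarAlgebra B] : Unitization ℂ B →ₙ+* ℂ :=
  ((Unitization.fstHom ℂ B : Unitization ℂ B →ₐ[ℂ] ℂ) : Unitization ℂ B →+* ℂ)

theorem aug_apply {B : Type} [NonUnitalCStarAlgebra B] (x : Unitization ℂ B) : aug B x = x.fst :=
  rfl

theorem aug_continuous (B : Type) [NonUnitalCStarAlgebra B] : Continuous (aug B) :=
  Unitization.continuous_fst

/-- the inclusion `B → B^+` -/
def inr (B : Type) [NonUnitalCStarAlgebra B] : B →ₙ+* Unitization ℂ B where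
  toFun b := (b : Unitization ℂ B)
  map_mul' a b := Unitization.inr_mul ℂ a b
  map_zero' := Unitization.inr_zero ℂ
  map_add' a b := Unitization.inr_add ℂ a b

/-- the extension `A^+ → B^+` of a *-homomorphism -/
noncomputable def ext {A B : Type} [NonUnitalCStarAlgebra A] [NonUnitalCStarAlgebra B]
    (f : A →⋆ₙₐ[ℂ] B) : Unitization ℂ A →ₙ+* Unitization ℂ B :=
  ((Unitization.starMap f : Unitization ℂ A →⋆ₐ[ℂ] Unitization ℂ B) :
    Unitization ℂ A →+* Unitization ℂ B)

theorem ext_apply {A B : Type} [NonUnitalCStarAlgebra A] [NonUnitalCStarAlgebra B]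
    (f : A →⋆ₙₐ[ℂ] B) (x : Unitization ℂ A) :
    ext f x = algebraMap ℂ (Unitization ℂ B) x.fst + ((f x.snd : B) : Unitization ℂ B) := rfl

end Pool.Agent.KCH
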