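import Pool.Agent.KCH.RStmts
import Pool.Agent.KCH.KDefs

/-!
# Squad KCH, part F: the inclusion `CC → AA` is mapped to an isomorphism by every `KK` functor
-/

set_option autoImplicit false

namespace Pool.Agent.KCH

open TopologicalSpace

/-! ### abstract part -/

/-- ADD: additivity of a functor on orthogonal sums (`split` for `A → A × A → A`) -/
def Stmt_ADD : Prop := ∀ (F : KKFunctor) (A E : Type) [NonUnitalCStarAlgebra A]
  [SeparableSpace A] [NonUnitalCStarAlgebra E] [SeparableSpace E] (f g h : A →⋆ₙₐ[ℂ] E),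
  (∀ a, h a = f a + g a) → (∀ a b, f a * g b = 0) → ∀ x, F.map h x = F.map f x + F.map g x

/-- ABS (uses ADD): the abstract form of Pimsner's argument. With
`d_C x ∈ F(J_C)` defined by `F(i_C)(d_C x) = F(f_C) x - F(s_C) x` and `α = F(t_C)^(-1) ∘ d_C`:
`α ∘ F(j) = id` since `f_C ∘ j = s_C ∘ j + i_C ∘ t_C` is an orthogonal sum, and
`F(j) ∘ α = id` since `F(kap)(d_C x) = d_A x = F(t_A) x` by the homotopy. -/
def Stmt_ABS : Prop := ∀ (F : KKFunctor) (C A JC JA EC EA : Type)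
  [NonUnitalCStarAlgebra C] [SeparableSpace C] [NonUnitalCStarAlgebra A] [SeparableSpace A]
  [NonUnitalCStarAlgebra JC] [SeparableSpace JC] [NonUnitalCStarAlgebra JA] [SeparableSpace JA]
  [NonUnitalCStarAlgebra EC] [SeparableSpace EC] [NonUnitalCStarAlgebra EA] [SeparableSpace EA]
  (j : C →⋆ₙₐ[ℂ] A) (kap : JC →⋆ₙₐ[ℂ] JA) (eps : EC →⋆ₙₐ[ℂ] EA)
  (iC : JC →⋆ₙₐ[ℂ] EC) (pC : EC →⋆ₙₐ[ℂ] A) (sC fC : A →⋆ₙₐ[ℂ] EC)
  (iA : JA →⋆ₙₐ[ℂ] EA) (pA : EA →⋆ₙₐ[ℂ] A) (sA fA gA : A →⋆ₙₐ[ℂ] EA)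
  (tC : C →⋆ₙₐ[ℂ] JC) (tA : A →⋆ₙₐ[ℂ] JA),
  Function.Injective iC → (∀ x, pC x = 0 ↔ ∃ y, iC y = x) → (∀ a, pC (sC a) = a) →
  (∀ a, pC (fC a) = a) →
  Function.Injective iA → (∀ x, pA x = 0 ↔ ∃ y, iA y = x) → (∀ a, pA (sA a) = a) →
  Function.Bijective (F.map tC) → Function.Bijective (F.map tA) →
  (∀ c, kap (tC c) = tA (j c)) → (∀ y, eps (iC y) = iA (kap y)) →
  (∀ a, eps (sC a) = sA a) → (∀ a, eps (fC a) = fA a) →
  (∀ c, fC (j c) = sC (j c) + iC (tC c)) → (∀ c c', sC (j c) * iC (tC c') = 0) →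
  Homotopic fA gA → (∀ a, gA a = sA a + iA (tA a)) → (∀ a a', sA a * iA (tA a') = 0) →
  Function.Bijective (F.map j)

/-! ### concrete part -/

/-- the index set of the big Hilbert space: a word `μ` and an element of `XX` -/
abbrev YY : Type := List ℤ × XX

/-- the inclusion of the block `μ` -/
def iE (μ : List ℤ) : PEquiv XX YY where
  toFun x := some (μ, x)
  invFun p := if p.1 = μ then some p.2 else none
  inv a b := by
    rcases b with ⟨ν, b⟩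
    by_cases h : ν = μ
    · subst h
      simp [eq_comm]
    · simp only [h, if_false, Option.mem_def]
      constructor
      · intro h2; exact absurd h2 (by simp)
      · intro h2
        have := congrArg Prod.fst (Option.some.inj h2)
        exact absurd this.symm h

/-- increasing the first letter of `μ` -/
def tE : PEquiv YY YY where
  toFun p := match p with
    | ([], _) => none
    | (k :: μ, x) => some ((k + 1) :: μ, x)
  invFun p := match p with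
    | ([], _) => none
    | (k :: μ, x) => some ((k - 1) :: μ, x)
  inv a b := by
    rcases a with ⟨_ | ⟨k, α⟩, x⟩ <;> rcases b with ⟨_ | ⟨k', β⟩, y⟩ <;> simp
    constructor <;> rintro ⟨⟨h1, h2⟩, h3⟩ <;> exact ⟨⟨by omega, h2.symm⟩, h3.symm⟩

/-- inserting `0` in front of a nonempty word -/
def rE : PEquiv YY YY where
  toFun p := match p with
    | ([], _) => none
    | (k :: μ, x) => some (0 :: k :: μ, x)
  invFun p := match p with
    | ([], _) => none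
    | ([_], _) => none
    | (k :: k' :: μ, x) => if k = 0 then some (k' :: μ, x) else none
  inv a b := by
    rcases a with ⟨_ | ⟨k, α⟩, x⟩ <;> rcases b with ⟨_ | ⟨k', _ | ⟨k'', β⟩⟩, y⟩ <;> simp
    · by_cases h : k' = 0
      · subst h
        simp
        tauto
      · simp [h]
        intro h2
        exact absurd h2.symm h

/-- the matrix unit with entry `d` -/
noncomputable def th (μ ν : List ℤ) (d : Bd XX) : Bd YY :=
  (opP (iE μ)).comp (d.comp (ContinuousLinearMap.adjoint (opP (iE ν))))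

/-- `π(D) ⊗ K` -/
noncomputable def JJ {D : Type} [CStarAlgebra D] (π : D →⋆ₐ[ℂ] Bd XX) :
    NonUnitalStarSubalgebra ℂ (Bd YY) :=
  (NonUnitalStarAlgebra.adjoin ℂ {x | ∃ μ ν d, x = th μ ν (π d)}).topologicalClosure

instance JJ_closed {D : Type} [CStarAlgebra D] (π : D →⋆ₐ[ℂ] Bd XX) :
    IsClosed (JJ π : Set (Bd YY)) :=
  NonUnitalStarSubalgebra.isClosed_topologicalClosure _

noncomputable example {D : Type} [CStarAlgebra D] (π : D →⋆ₐ[ℂ] Bd XX) :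
    NonUnitalCStarAlgebra (JJ π) := inferInstance

noncomputable irreducible_def TT : Bd YY := opP tE

noncomputable irreducible_def RR : Bd YY := opP rE

/-- the unitary in the homotopy -/
noncomputable def uH : Bd YY := TT + th [] [] U

/-- the isometries in the homotopy -/
noncomputable def sH (t : ℝ) : Bd YY :=
  RR + ((Real.cos t : ℝ) : ℂ) • th [] [] S + ((Real.sin t : ℝ) : ℂ) • th [0] [] 1

/-- the algebra `E`: pairs `(a, x)` with `x - ρ a ∈ π(D) ⊗ K` (see EEM) -/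
noncomputable def EE {D : Type} [CStarAlgebra D] (π : D →⋆ₐ[ℂ] Bd XX) (ρ : AA →⋆ₙₐ[ℂ] Bd YY) :
    NonUnitalStarSubalgebra ℂ (AA × Bd YY) :=
  (NonUnitalStarAlgebra.adjoin ℂ
    ({p | p.1 = 0 ∧ p.2 ∈ JJ π} ∪ {p | p.2 = ρ p.1})).topologicalClosure

instance EE_closed {D : Type} [CStarAlgebra D] (π : D →⋆ₐ[ℂ] Bd XX) (ρ : AA →⋆ₙₐ[ℂ] Bd YY) :
    IsClosed (EE π ρ : Set (AA × Bd YY)) :=
  NonUnitalStarSubalgebra.isClosed_topologicalClosure _

noncomputable example {D : Type} [CStarAlgebra D] (π : D →⋆ₐ[ℂ] Bd XX)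
    (ρ : AA →⋆ₙₐ[ℂ] Bd YY) : NonUnitalCStarAlgebra (EE π ρ) := inferInstance

/-- RLH (uses FRL): the relations in the homotopy; check on the basis vectors
`ee (μ, x)`, `μ = []` or `k :: μ'` (`th`, `TT`, `RR` and their adjoints on the basis; powers of
`uH`) -/
def Stmt_RLH : Prop := ∀ t : ℝ, Rel uH (sH t)

/-- RHO (uses UNV): the non-unital representation. Represent `AA` on `ℓ²((ℤ × List ℤ) × XX)`
(`(k, μ)` stands for the nonempty word `k :: μ`) and conjugate by the isometry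
`ee ((k, μ), x) ↦ ee (k :: μ, x)` -/
def Stmt_RHO : Prop := ∃ ρ : AA →⋆ₙₐ[ℂ] Bd YY, ρ uA = TT ∧ ρ sA = RR

/-- PSI (uses UNV, RLH): the path of representations (continuity with `AA_ind` and
`‖ψ t a‖ ≤ ‖a‖`) -/
def Stmt_PSI : Prop := ∃ ψ : ℝ → (AA →⋆ₙₐ[ℂ] Bd YY),
  (∀ t, ψ t uA = uH ∧ ψ t sA = sH t ∧ ψ t 1 = 1) ∧ ∀ a, Continuous fun t => ψ t a

/-- JJM: the algebra `π(D) ⊗ K` is the closed span of the matrix units, and `TT`, `RR` and their
adjoints multiply it into itself -/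
def Stmt_JJM : Prop := ∀ (D : Type) [CStarAlgebra D] (π : D →⋆ₐ[ℂ] Bd XX),
  (JJ π : Set (Bd YY)) = closure (Submodule.span ℂ {x | ∃ μ ν d, x = th μ ν (π d)} :
    Set (Bd YY)) ∧
  ∀ x ∈ JJ π, TT * x ∈ JJ π ∧ x * TT ∈ JJ π ∧ star TT * x ∈ JJ π ∧ x * star TT ∈ JJ π ∧
    RR * x ∈ JJ π ∧ x * RR ∈ JJ π ∧ star RR * x ∈ JJ π ∧ x * star RR ∈ JJ π

/-- JSP (uses JJM): separability -/
def Stmt_JSP : Prop := ∀ (D : Type) [CStarAlgebra D] (π : D →⋆ₐ[ℂ] Bd XX),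
  SeparableSpace D → SeparableSpace (JJ π)

/-- JST (uses JJM): `JJ π` is the stabilisation (`Denumerable (List ℤ)`, `[]` has code `0`) -/
def Stmt_JST : Prop := ∀ (D : Type) [CStarAlgebra D] (π : D →⋆ₐ[ℂ] Bd XX),
  Function.Injective π →
  ∃ θ : ℕ → ℕ → D →ₗ[ℂ] JJ π, IsStab θ ∧ ∀ d : D, (θ 0 0 d : Bd YY) = th [] [] (π d)

/-- EEM (uses FRL, JJM): membership in `EE π ρ` (with `AA_ind` for `{a | ρ a * JJ π ⊆ JJ π, ...}`;
`ρ (c 1) = c ρ(uA) ρ(uA)^*`) -/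
def Stmt_EEM : Prop := ∀ (ρ : AA →⋆ₙₐ[ℂ] Bd YY), ρ uA = TT → ρ sA = RR →
  ∀ (D : Type) [CStarAlgebra D] (π : D →⋆ₐ[ℂ] Bd XX) (p : AA × Bd YY),
    p ∈ EE π ρ ↔ p.2 - ρ p.1 ∈ JJ π

/-- ESP (uses JSP, EEM): separability -/
def Stmt_ESP : Prop := ∀ (ρ : AA →⋆ₙₐ[ℂ] Bd YY), ρ uA = TT → ρ sA = RR →
  ∀ (D : Type) [CStarAlgebra D] (π : D →⋆ₐ[ℂ] Bd XX), SeparableSpace AA →
    SeparableSpace D → SeparableSpace (EE π ρ)

/-- DIF (uses FRL, JJM): differences (use `AA_ind`, `CC_ind`; `ρ 1 = 1 - th [] [] 1`) -/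
def Stmt_DIF : Prop := ∀ (ρ : AA →⋆ₙₐ[ℂ] Bd YY) (ψ : ℝ → (AA →⋆ₙₐ[ℂ] Bd YY)),
  ρ uA = TT → ρ sA = RR → (∀ t, ψ t uA = uH ∧ ψ t sA = sH t ∧ ψ t 1 = 1) →
  (∀ t a, ψ t a - ρ a ∈ JJ pA) ∧ (∀ a, ψ (Real.pi / 2) a - ρ a ∈ JJ pC) ∧
  (∀ a : AA, ψ 0 a = ρ a + th [] [] (pA a)) ∧
  (∀ t, ∀ c : CC, ψ t (jj c) = ρ (jj c) + th [] [] (pC c)) ∧
  ∀ (a : AA) (d : Bd XX), ρ a * th [] [] d = 0

/-- KKB (uses ABS, RHO, PSI, JSP, JST, EEM, ESP, DIF): every `KK` functor maps the inclusion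
`CC → AA` to an isomorphism. Apply ABS with `JC = JJ pC`, `JA = JJ pA`, `EC = EE pC ρ`,
`EA = EE pA ρ`, `iC y = (0, y)`, `pC (a, x) = a`, `sC a = (a, ρ a)`, `fC a = (a, ψ (π/2) a)`,
`gA a = (a, ψ 0 a)`, `tC c = th [] [] c`; the inclusions `JJ pC ≤ JJ pA`, `EE pC ρ ≤ EE pA ρ` -/
def Stmt_KKB : Prop := ∀ [SeparableSpace AA] [SeparableSpace CC] (F : KKFunctor),
  Function.Bijective (F.map (jj : CC →⋆ₙₐ[ℂ] AA))

end Pool.Agent.KCH
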