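import Pool.Agent.KCH.KLem
import Pool.Agent.Lib_MP_b3c914_an.KZero

/-!
# Squad KCH, parts K and C: `K_0` and `K_1` are `KK` functors, and their values on the circle
-/

set_option autoImplicit false

namespace Pool.Agent.KCH

open TopologicalSpace

/-! ### general facts on matrices over Banach algebras -/

/-- MTB: invertible matrices over a Banach algebra (use `Matrix.linftyOpNormedRing`) -/
def Stmt_MTB : Prop := ∀ (A : Type) [NormedRing A] [CompleteSpace A] (ι : Type) [Fintype ι]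
  [DecidableEq ι], IsOpen {a : Matrix ι ι A | IsUnit a} ∧
  ContinuousOn Ring.inverse {a : Matrix ι ι A | IsUnit a} ∧
  ∃ ε : ℝ, 0 < ε ∧ ∀ x : Matrix ι ι A, (∀ i j, ‖x i j‖ < ε) → IsUnit (1 + x)

/-- UOP (uses MTB): uniform openness along a compact path of invertible matrices -/
def Stmt_UOP : Prop := ∀ (A : Type) [NormedRing A] [CompleteSpace A] (ι : Type) [Fintype ι]
  [DecidableEq ι] (γ : ℝ → Matrix ι ι A), Continuous γ → (∀ t ∈ Set.Icc (0 : ℝ) 1,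
    IsUnit (γ t)) → ∃ ε : ℝ, 0 < ε ∧ ∀ t ∈ Set.Icc (0 : ℝ) 1, ∀ h : Matrix ι ι A,
    (∀ i j, ‖h i j - γ t i j‖ < ε) → IsUnit h

/-- SEG (uses MTB): small perturbations are joined by a path: segments -/
def Stmt_SEG : Prop := ∀ (A : Type) [NormedRing A] [NormedAlgebra ℂ A] [CompleteSpace A]
  (ι : Type) [Fintype ι] [DecidableEq ι] (g : Matrix ι ι A), IsUnit g →
  ∃ ε : ℝ, 0 < ε ∧ ∀ h : Matrix ι ι A, (∀ i j, ‖h i j - g i j‖ < ε) → IsUnit h ∧ Jn g h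

/-- CLO (uses MTB): close idempotents are equivalent (`z = f e + (1-f)(1-e)`) -/
def Stmt_CLO : Prop := ∀ (A : Type) [NormedRing A] [CompleteSpace A] (ι : Type) [Fintype ι]
  [DecidableEq ι] (e : Matrix ι ι A), e * e = e → ∃ ε : ℝ, 0 < ε ∧ ∀ f : Matrix ι ι A,
  f * f = f → (∀ i j, ‖f i j - e i j‖ < ε) →
  Eqv e f ∧ ∃ z : (Matrix ι ι A)ˣ, z * e = f * z

/-- AEQ (uses MTB): approximate equivalences -/
def Stmt_AEQ : Prop := ∀ (A : Type) [NormedRing A] [CompleteSpace A] (ι κ : Type) [Fintype ι]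
  [DecidableEq ι] [Fintype κ] [DecidableEq κ], ∃ ε : ℝ, 0 < ε ∧ ∀ (e : Matrix ι ι A)
  (f : Matrix κ κ A) (x : Matrix ι κ A) (y : Matrix κ ι A), e * e = e → f * f = f →
  e * x = x → x * f = x → f * y = y → y * e = y →
  (∀ i j, ‖(x * y - e) i j‖ < ε) → (∀ i j, ‖(y * x - f) i j‖ < ε) → Eqv e f

/-- NWT: near idempotents in a closed subring (Newton iteration `a ↦ 3a^2 - 2a^3` in the norm of
`Matrix.linftyOpNormedRing`); `δ` does not depend on the subring -/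
def Stmt_NWT : Prop := ∀ (A : Type) [NormedRing A] [CompleteSpace A] (ι : Type) [Fintype ι]
  [DecidableEq ι] (e : Matrix ι ι A), e * e = e → ∀ ε : ℝ, 0 < ε → ∃ δ : ℝ, 0 < δ ∧
  ∀ S : Subring (Matrix ι ι A), IsClosed (S : Set (Matrix ι ι A)) → ∀ a ∈ S,
  (∀ i j, ‖a i j - e i j‖ < δ) → ∃ f ∈ S, f * f = f ∧ ∀ i j, ‖f i j - e i j‖ < ε

/-- GLC: `GL_n(ℂ)` is path connected, with commutation (`1 + λ(t)(g - 1)` with a path `λ` in `ℂ`
from `0` to `1` avoiding the zeros of the polynomial `det (1 + λ (g - 1))`) -/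
def Stmt_GLC : Prop := ∀ (ι : Type) [Fintype ι] [DecidableEq ι] (g : Matrix ι ι ℂ), IsUnit g →
  ∃ γ : ℝ → Matrix ι ι ℂ, Continuous γ ∧ γ 0 = 1 ∧ γ 1 = g ∧ (∀ t, IsUnit (γ t)) ∧
    ∀ M, Commute M g → ∀ t, Commute M (γ t)

/-! ### `K_0` -/

/-- CR0: criterion for equality in `K_0` (Grothendieck group of the monoid of classes) -/
def Stmt_CR0 : Prop := ∀ (A : Type) [Ring A] (n m : ℕ) (e : Matrix (Fin n) (Fin n) A)
  (f : Matrix (Fin m) (Fin m) A) (he : e * e = e) (hf : f * f = f), c0 e he = c0 f hf →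
  ∃ k : ℕ, Eqv (Matrix.fromBlocks e 0 0 (1 : Matrix (Fin k) (Fin k) A))
    (Matrix.fromBlocks f 0 0 (1 : Matrix (Fin k) (Fin k) A))

/-- CNJ: equivalent idempotents are conjugate after adding zeros:
`z = [[x, 1-e],[1-f, y]]`, `z⁻¹ = [[y, 1-f],[1-e, x]]` for `x`, `y` as in `Eqv.normal` -/
def Stmt_CNJ : Prop := ∀ (A : Type) [Ring A] (ι : Type) [Fintype ι] [DecidableEq ι]
  (e f : Matrix ι ι A), e * e = e → f * f = f → Eqv e f →
  ∃ z : (Matrix (ι ⊕ ι) (ι ⊕ ι) A)ˣ, (z : Matrix (ι ⊕ ι) (ι ⊕ ι) A) *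
    Matrix.fromBlocks f 0 0 0 =
    (Matrix.fromBlocks e 0 0 0 : Matrix (ι ⊕ ι) (ι ⊕ ι) A) * (z : Matrix (ι ⊕ ι) (ι ⊕ ι) A)

/-- AD0: additivity on orthogonal sums of homomorphisms -/
def Stmt_AD0 : Prop := ∀ (A B : Type) [Ring A] [Ring B] (f g h : A →ₙ+* B),
  (∀ a, h a = f a + g a) → (∀ a b, f a * g b = 0 ∧ g b * f a = 0) →
  ∀ x, K0.map h x = K0.map f x + K0.map g x

/-- UN0 (uses AD0): unital algebras: `K_0(B) = ker (K_0(B^+) → K_0(ℂ))` -/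
def Stmt_UN0 : Prop := ∀ (B : Type) [CStarAlgebra B],
  (∀ x : K0 B, K0.map (aug B) (K0.map (inr B) x) = 0) ∧
  Function.Injective (K0.map (inr B)) ∧
  ∀ y, K0.map (aug B) y = 0 → ∃ x, K0.map (inr B) x = y

/-- HT0 (uses CLO): the ends of a path of idempotents are equivalent -/
def Stmt_HT0 : Prop := ∀ (A : Type) [NormedRing A] [CompleteSpace A] (ι : Type) [Fintype ι]
  [DecidableEq ι] (γ : ℝ → Matrix ι ι A), Continuous γ → (∀ t, γ t * γ t = γ t) →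
  Eqv (γ 0) (γ 1)

/-- the scalar part of an element of `J^+`, as an element of `J^+` -/
def sca (J : Type) [NonUnitalCStarAlgebra J] : Unitization ℂ J →ₙ+* Unitization ℂ J :=
  ((algebraMap ℂ (Unitization ℂ J) : ℂ →+* Unitization ℂ J) : ℂ →ₙ+* Unitization ℂ J).comp
    (aug J)

theorem sca_apply {J : Type} [NonUnitalCStarAlgebra J] (x : Unitization ℂ J) :
    sca J x = algebraMap ℂ (Unitization ℂ J) x.fst := rfl

/-- NF0: normal form of the elements of the kernel of the augmentation -/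
def Stmt_NF0 : Prop := ∀ (J : Type) [NonUnitalCStarAlgebra J] (x : K0 (Unitization ℂ J)),
  K0.map (aug J) x = 0 → ∃ (n : ℕ) (P : Matrix (Fin n) (Fin n) (Unitization ℂ J))
    (hP : P * P = P), x = c0 P hP - c0 (mm (sca J) P) (mm_idem (sca J) hP)

/-- SP0 (uses NF0, CR0, CNJ): split exactness of `K_0`, injectivity and exactness in the middle -/
def Stmt_SP0 : Prop := ∀ (J E Q : Type) [NonUnitalCStarAlgebra J] [NonUnitalCStarAlgebra E]
  [NonUnitalCStarAlgebra Q] (i : J →⋆ₙₐ[ℂ] E) (p : E →⋆ₙₐ[ℂ] Q) (s : Q →⋆ₙₐ[ℂ] E),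
  Function.Injective i → (∀ x, p x = 0 ↔ ∃ y, i y = x) → (∀ q, p (s q) = q) →
  (∀ x : K0 (Unitization ℂ J), K0.map (aug J) x = 0 → K0.map (ext i) x = 0 → x = 0) ∧
  ∀ y : K0 (Unitization ℂ E), K0.map (aug E) y = 0 → K0.map (ext p) y = 0 →
    ∃ x, K0.map (aug J) x = 0 ∧ K0.map (ext i) x = y

/-! ### stabilisation -/

section
variable {B J : Type} [CStarAlgebra B] [NonUnitalCStarAlgebra J]

/-- a matrix over `B` with indices `(i, k)`, `i < N`, `k < n`, as an `N × N` matrix over `B ⊗ K` -/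
noncomputable def bl (θ : ℕ → ℕ → B →ₗ[ℂ] J) {ι : Type} {n : ℕ}
    (x : Matrix (ι × Fin n) (ι × Fin n) B) : Matrix ι ι (Unitization ℂ J) :=
  fun i j => ((∑ k : Fin n, ∑ l : Fin n, θ k l (x (i, k) (j, l)) : J) : Unitization ℂ J)

/-- the projection `1 ⊗ (e_00 + ... + e_(n-1)(n-1))` -/
noncomputable def pn (θ : ℕ → ℕ → B →ₗ[ℂ] J) (n : ℕ) : J := ∑ k ∈ Finset.range n, θ k k 1

/-- the diagonal matrix with the entries `pn` -/
noncomputable def PP (θ : ℕ → ℕ → B →ₗ[ℂ] J) (ι : Type) [DecidableEq ι] (n : ℕ) :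
    Matrix ι ι (Unitization ℂ J) := Matrix.diagonal fun _ => ((pn θ n : J) : Unitization ℂ J)

end

/-- LM1: properties of `bl` (the last but one: `θ 0 k 1 * y * θ l 0 1 = θ 0 0 (x ..)`; the last:
`θ i i 1 * J * θ j j 1 = θ i j B` because `B` is complete) -/
def Stmt_LM1 : Prop := ∀ (B J : Type) [CStarAlgebra B] [NonUnitalCStarAlgebra J]
  (θ : ℕ → ℕ → B →ₗ[ℂ] J), IsStab θ → ∀ (ι : Type) [Fintype ι] [DecidableEq ι] (n : ℕ),
  (∀ x y : Matrix (ι × Fin n) (ι × Fin n) B, bl θ (x * y) = bl θ x * bl θ y) ∧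
  bl θ (1 : Matrix (ι × Fin n) (ι × Fin n) B) = PP θ ι n ∧
  (∀ (x : Matrix (ι × Fin n) (ι × Fin n) B) i k j l,
    ‖x (i, k) (j, l)‖ ≤ ‖(bl θ x i j).snd‖) ∧
  Continuous (fun x : Matrix (ι × Fin n) (ι × Fin n) B => bl θ x) ∧
  ∀ a : Matrix ι ι (Unitization ℂ J), (∀ i j, (a i j).fst = 0) →
    PP θ ι n * a * PP θ ι n = a → ∃ x : Matrix (ι × Fin n) (ι × Fin n) B, bl θ x = a

/-- LM2: the `pn` form an approximate unit of projections -/
def Stmt_LM2 : Prop := ∀ (B J : Type) [CStarAlgebra B] [NonUnitalCStarAlgebra J]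
  (θ : ℕ → ℕ → B →ₗ[ℂ] J), IsStab θ → (∀ n, pn θ n * pn θ n = pn θ n) ∧
  (∀ n, ‖pn θ n‖ ≤ 1) ∧ ∀ (y : J) (ε : ℝ), 0 < ε → ∃ n₀, ∀ n, n₀ ≤ n →
    ‖pn θ n * y - y‖ < ε ∧ ‖y * pn θ n - y‖ < ε ∧ ‖pn θ n * y * pn θ n - y‖ < ε

/-- LM3: the class of `bl x` for an idempotent `x` (with `V (i) (j,k) = δ_ij θ k 0 1`:
`bl x = V (θ 0 0 x) V^*`) -/
def Stmt_LM3 : Prop := ∀ (B J : Type) [CStarAlgebra B] [NonUnitalCStarAlgebra J]
  (θ : ℕ → ℕ → B →ₗ[ℂ] J) (e : B →⋆ₙₐ[ℂ] J), IsStab θ → (∀ b, e b = θ 0 0 b) →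
  ∀ (ι : Type) [Fintype ι] [DecidableEq ι] (n : ℕ) (x : Matrix (ι × Fin n) (ι × Fin n) B)
  (hx : x * x = x), ∃ hb : bl θ x * bl θ x = bl θ x,
    c0 (bl θ x) hb = K0.map ((inr J).comp (e : B →ₙ+* J)) (c0 x hx)

/-- SU0 (uses CLO, NWT, NF0, LM1, LM2, LM3): surjectivity for the stabilisation -/
def Stmt_SU0 : Prop := ∀ (B J : Type) [CStarAlgebra B] [NonUnitalCStarAlgebra J]
  (θ : ℕ → ℕ → B →ₗ[ℂ] J) (e : B →⋆ₙₐ[ℂ] J), IsStab θ → (∀ b, e b = θ 0 0 b) →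
  ∀ x : K0 (Unitization ℂ J), K0.map (aug J) x = 0 →
    ∃ y : K0 B, K0.map ((inr J).comp (e : B →ₙ+* J)) y = x

/-- IN0 (uses CR0, AEQ, LM1, LM2): injectivity for the stabilisation -/
def Stmt_IN0 : Prop := ∀ (B J : Type) [CStarAlgebra B] [NonUnitalCStarAlgebra J]
  (θ : ℕ → ℕ → B →ₗ[ℂ] J) (e : B →⋆ₙₐ[ℂ] J), IsStab θ → (∀ b, e b = θ 0 0 b) →
  Function.Injective (K0.map ((inr J).comp (e : B →ₙ+* J)))

/-- KF0 (uses UN0, HT0, SP0, SU0, IN0): `K_0` is a `KK` functor. `F.obj B = ker (K_0(B^+) → K_0(ℂ))` -/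
def Stmt_KF0 : Prop := ∃ F : KKFunctor, ∀ (A B : Type) [CStarAlgebra A] [SeparableSpace A]
  [CStarAlgebra B] [SeparableSpace B] (f : A →⋆ₙₐ[ℂ] B), Function.Bijective (F.map f) →
  Function.Bijective (K0.map (f : A →ₙ+* B))

/-! ### `K_1` -/

/-- PTH (uses MTB, GLC): rules for paths of invertible matrices. (5): conjugation with a path in
`GL_n(ℂ)` from `1` to a permutation matrix; (6): `diag(g,1) R_t diag(h,1) R_t⁻¹` with rotation
matrices `R_t`; (7), (8): `b ↦ t b` -/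
def Stmt_PTH : Prop := ∀ (A : Type) [CStarAlgebra A],
  (∀ (ι : Type) [Fintype ι] [DecidableEq ι] (g g' h h' : Matrix ι ι A), Jn g g' → Jn h h' →
    Jn (g * h) (g' * h')) ∧
  (∀ (ι κ : Type) [Fintype ι] [DecidableEq ι] [Fintype κ] [DecidableEq κ]
    (g g' : Matrix ι ι A) (h h' : Matrix κ κ A), Jn g g' → Jn h h' →
    Jn (Matrix.fromBlocks g 0 0 h) (Matrix.fromBlocks g' 0 0 h')) ∧
  (∀ (ι κ : Type) [Fintype ι] [DecidableEq ι] [Fintype κ] [DecidableEq κ] (σ : ι ≃ κ)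
    (g h : Matrix ι ι A), Jn g h → Jn (Matrix.reindex σ σ g) (Matrix.reindex σ σ h)) ∧
  (∀ (ι : Type) [Fintype ι] [DecidableEq ι] (g h : Matrix ι ι A), Jn g h →
    Jn (Ring.inverse g) (Ring.inverse h)) ∧
  (∀ (ι : Type) [Fintype ι] [DecidableEq ι] (σ : ι ≃ ι) (g : Matrix ι ι A), IsUnit g →
    Jn (Matrix.reindex σ σ g) g) ∧
  (∀ (ι : Type) [Fintype ι] [DecidableEq ι] (g h : Matrix ι ι A), IsUnit g → IsUnit h →
    Jn (Matrix.fromBlocks (g * h) 0 0 1) (Matrix.fromBlocks g 0 0 h)) ∧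
  (∀ (ι κ : Type) [Fintype ι] [DecidableEq ι] [Fintype κ] [DecidableEq κ]
    (g : Matrix ι ι A) (b : Matrix ι κ A) (h : Matrix κ κ A), IsUnit g → IsUnit h →
    Jn (Matrix.fromBlocks g b 0 h) (Matrix.fromBlocks g 0 0 h)) ∧
  ∀ (ι κ : Type) [Fintype ι] [DecidableEq ι] [Fintype κ] [DecidableEq κ]
    (g : Matrix ι ι A) (c : Matrix κ ι A) (h : Matrix κ κ A), IsUnit g → IsUnit h →
    Jn (Matrix.fromBlocks g 0 c h) (Matrix.fromBlocks g 0 0 h)

/-- K1A (uses PTH): rules for classes in `K_1` -/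
def Stmt_K1A : Prop := ∀ (A : Type) [CStarAlgebra A],
  (∀ (ι κ : Type) [Fintype ι] [DecidableEq ι] [Fintype κ] [DecidableEq κ] (σ : ι ≃ κ)
    (g : Matrix ι ι A) (hg : IsUnit g), ∃ h, c1 (Matrix.reindex σ σ g) h = c1 g hg) ∧
  (∀ (ι : Type) [Fintype ι] [DecidableEq ι] (g h : Matrix ι ι A) (hg : IsUnit g)
    (hh : IsUnit h), Jn g h → c1 g hg = c1 h hh) ∧
  (∀ (ι κ : Type) [Fintype ι] [DecidableEq ι] [Fintype κ] [DecidableEq κ]
    (g : Matrix ι ι A) (h : Matrix κ κ A) (hg : IsUnit g) (hh : IsUnit h),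
    ∃ hu, c1 (Matrix.fromBlocks g 0 0 h) hu = c1 g hg + c1 h hh) ∧
  (∀ (ι : Type) [Fintype ι] [DecidableEq ι] (g h : Matrix ι ι A) (hg : IsUnit g)
    (hh : IsUnit h), c1 (g * h) (hg.mul hh) = c1 g hg + c1 h hh) ∧
  (∀ (ι : Type) [Fintype ι] [DecidableEq ι], c1 (1 : Matrix ι ι A) isUnit_one = 0) ∧
  (∀ p : GLm A, c1 p.g p.isUnit = cl1 p) ∧
  ∀ x : K1 A, ∃ (n : ℕ) (g : Matrix (Fin n) (Fin n) A) (hg : IsUnit g), c1 g hg = x

/-- CR1 (uses PTH): criterion for `[g] = 0` (the stable homotopy classes form a commutative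
group) -/
def Stmt_CR1 : Prop := ∀ (A : Type) [CStarAlgebra A] (n : ℕ) (g : Matrix (Fin n) (Fin n) A)
  (hg : IsUnit g), c1 g hg = 0 →
  ∃ k : ℕ, Jn (Matrix.fromBlocks g 0 0 (1 : Matrix (Fin k) (Fin k) A)) 1

/-- AB1 (uses PTH, K1A): `[1 + ab] = [1 + ba]`:
`[[1+ab, a],[0, 1]] * [[1, 0],[-b, 1]] = [[1, 0],[-b, 1]] * [[1, a],[0, 1+ba]]` -/
def Stmt_AB1 : Prop := ∀ (A : Type) [CStarAlgebra A] (ι κ : Type) [Fintype ι] [DecidableEq ι]
  [Fintype κ] [DecidableEq κ] (a : Matrix ι κ A) (b : Matrix κ ι A) (h : IsUnit (1 + a * b)),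
  ∃ h' : IsUnit (1 + b * a), c1 (1 + a * b) h = c1 (1 + b * a) h'

/-- AD1 (uses K1A): additivity on orthogonal sums of homomorphisms -/
def Stmt_AD1 : Prop := ∀ (A B : Type) [CStarAlgebra A] [CStarAlgebra B] (f g h : A →ₙ+* B)
  (hf : Continuous f) (hg : Continuous g) (hh : Continuous h),
  (∀ a, h a = f a + g a) → (∀ a b, f a * g b = 0 ∧ g b * f a = 0) →
  ∀ x, K1.map h hh x = K1.map f hf x + K1.map g hg x

theorem inr_continuous (B : Type) [NonUnitalCStarAlgebra B] : Continuous (inr B) :=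
  Unitization.continuous_inr

/-- UN1 (uses AD1): unital algebras: `K_1(B) = ker (K_1(B^+) → K_1(ℂ))` -/
def Stmt_UN1 : Prop := ∀ (B : Type) [CStarAlgebra B],
  (∀ x : K1 B, K1.map (aug B) (aug_continuous B) (K1.map (inr B) (inr_continuous B) x) = 0) ∧
  Function.Injective (K1.map (inr B) (inr_continuous B)) ∧
  ∀ y, K1.map (aug B) (aug_continuous B) y = 0 → ∃ x, K1.map (inr B) (inr_continuous B) x = y

/-- NF1 (uses K1A): normal form of the elements of the kernel of the augmentation -/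
def Stmt_NF1 : Prop := ∀ (J : Type) [NonUnitalCStarAlgebra J] (x : K1 (Unitization ℂ J)),
  K1.map (aug J) (aug_continuous J) x = 0 →
  ∃ (n : ℕ) (g : Matrix (Fin n) (Fin n) (Unitization ℂ J)) (hg : IsUnit g),
    mm (aug J) g = 1 ∧ x = c1 g hg

/-- EXC: `ext` is continuous, and an isometric embedding for injective homomorphisms -/
def Stmt_EXC : Prop := ∀ (A B : Type) [NonUnitalCStarAlgebra A] [NonUnitalCStarAlgebra B]
  (f : A →⋆ₙₐ[ℂ] B), Continuous (ext f) ∧ (Function.Injective f → Isometry (ext f))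

/-- LFJ (uses EXC): lifting invertible matrices and paths to the ideal -/
def Stmt_LFJ : Prop := ∀ (J E Q : Type) [NonUnitalCStarAlgebra J] [NonUnitalCStarAlgebra E]
  [NonUnitalCStarAlgebra Q] (i : J →⋆ₙₐ[ℂ] E) (p : E →⋆ₙₐ[ℂ] Q),
  Function.Injective i → (∀ x, p x = 0 ↔ ∃ y, i y = x) → ∀ (ι : Type) [Fintype ι]
  [DecidableEq ι],
  (∀ w : Matrix ι ι (Unitization ℂ E), IsUnit w → mm (ext p) w = 1 →
    ∃ g : Matrix ι ι (Unitization ℂ J), IsUnit g ∧ mm (ext i) g = w ∧ mm (aug J) g = 1) ∧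
  ∀ g g' : Matrix ι ι (Unitization ℂ J), JoinedIn {w : Matrix ι ι (Unitization ℂ E) |
      IsUnit w ∧ mm (ext p) w = 1} (mm (ext i) g) (mm (ext i) g') → Jn g g'

/-- SP1 (uses MTB, K1A, CR1, NF1, LFJ): split exactness of `K_1` -/
def Stmt_SP1 : Prop := ∀ (J E Q : Type) [NonUnitalCStarAlgebra J] [NonUnitalCStarAlgebra E]
  [NonUnitalCStarAlgebra Q] (i : J →⋆ₙₐ[ℂ] E) (p : E →⋆ₙₐ[ℂ] Q) (s : Q →⋆ₙₐ[ℂ] E)
  (hi : Continuous (ext i)) (hp : Continuous (ext p)),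
  Function.Injective i → (∀ x, p x = 0 ↔ ∃ y, i y = x) → (∀ q, p (s q) = q) →
  (∀ x : K1 (Unitization ℂ J), K1.map (aug J) (aug_continuous J) x = 0 →
    K1.map (ext i) hi x = 0 → x = 0) ∧
  ∀ y : K1 (Unitization ℂ E), K1.map (aug E) (aug_continuous E) y = 0 →
    K1.map (ext p) hp y = 0 →
    ∃ x, K1.map (aug J) (aug_continuous J) x = 0 ∧ K1.map (ext i) hi x = y

/-- BLU (uses LM1): `1 + bl x` is invertible if and only if `1 + x` is -/
def Stmt_BLU : Prop := ∀ (B J : Type) [CStarAlgebra B] [NonUnitalCStarAlgebra J]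
  (θ : ℕ → ℕ → B →ₗ[ℂ] J), IsStab θ → ∀ (ι : Type) [Fintype ι] [DecidableEq ι] (n : ℕ)
  (x : Matrix (ι × Fin n) (ι × Fin n) B), IsUnit (1 + bl θ x) ↔ IsUnit (1 + x)

/-- UCP (uses LM2): compression of a path with small error -/
def Stmt_UCP : Prop := ∀ (B J : Type) [CStarAlgebra B] [NonUnitalCStarAlgebra J]
  (θ : ℕ → ℕ → B →ₗ[ℂ] J), IsStab θ → ∀ (ι : Type) [Fintype ι] [DecidableEq ι]
  (γ : ℝ → Matrix ι ι (Unitization ℂ J)), Continuous γ → (∀ t i j, (γ t i j).fst = 0) →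
  ∀ ε : ℝ, 0 < ε → ∃ n₀, ∀ n, n₀ ≤ n → ∀ t ∈ Set.Icc (0 : ℝ) 1, ∀ i j,
    ‖(PP θ ι n * γ t * PP θ ι n) i j - γ t i j‖ < ε

/-- SU1 (uses SEG, K1A, AB1, NF1, LM1, LM2, BLU): surjectivity for the stabilisation -/
def Stmt_SU1 : Prop := ∀ (B J : Type) [CStarAlgebra B] [NonUnitalCStarAlgebra J]
  (θ : ℕ → ℕ → B →ₗ[ℂ] J) (e : B →⋆ₙₐ[ℂ] J) (he : Continuous ((inr J).comp (e : B →ₙ+* J))),
  IsStab θ → (∀ b, e b = θ 0 0 b) →
  ∀ x : K1 (Unitization ℂ J), K1.map (aug J) (aug_continuous J) x = 0 →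
    ∃ y : K1 B, K1.map ((inr J).comp (e : B →ₙ+* J)) he y = x

/-- IN1 (uses MTB, UOP, K1A, CR1, LM1, BLU, UCP): injectivity for the stabilisation -/
def Stmt_IN1 : Prop := ∀ (B J : Type) [CStarAlgebra B] [NonUnitalCStarAlgebra J]
  (θ : ℕ → ℕ → B →ₗ[ℂ] J) (e : B →⋆ₙₐ[ℂ] J) (he : Continuous ((inr J).comp (e : B →ₙ+* J))),
  IsStab θ → (∀ b, e b = θ 0 0 b) →
  Function.Injective (K1.map ((inr J).comp (e : B →ₙ+* J)) he)

/-- KF1 (uses K1A, UN1, EXC, SP1, SU1, IN1): `K_1` is a `KK` functor -/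
def Stmt_KF1 : Prop := ∃ F : KKFunctor, ∀ (A B : Type) [CStarAlgebra A] [SeparableSpace A]
  [CStarAlgebra B] [SeparableSpace B] (f : A →⋆ₙₐ[ℂ] B) (hf : Continuous (f : A →ₙ+* B)),
  Function.Bijective (F.map f) → Function.Bijective (K1.map (f : A →ₙ+* B) hf)

/-! ### the circle -/

/-- the circle -/
abbrev TC : Type := UnitAddCircle

/-- evaluation of polynomials at the coordinate function -/
noncomputable def evz : Polynomial ℂ →+* C(TC, ℂ) :=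
  Polynomial.eval₂RingHom (algebraMap ℂ C(TC, ℂ)) (fourier 1)

/-- CBP (uses MTB): a path of idempotents is a path of conjugates -/
def Stmt_CBP : Prop := ∀ (n : ℕ) (e : ℝ → Matrix (Fin n) (Fin n) ℂ), Continuous e →
  (∀ t, e t * e t = e t) → ∃ g : ℝ → Matrix (Fin n) (Fin n) ℂ, Continuous g ∧ g 0 = 1 ∧
    (∀ t, IsUnit (g t)) ∧ ∀ t ∈ Set.Icc (0 : ℝ) 1, g t * e 0 = e t * g t

/-- CBC: complex idempotent matrices -/
def Stmt_CBC : Prop := ∀ (n : ℕ) (e : Matrix (Fin n) (Fin n) ℂ), e * e = e →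
  ∃ r : ℕ, Eqv e (1 : Matrix (Fin r) (Fin r) ℂ)

/-- CB0 (uses GLC, CBP, CBC): bundles over the circle are trivial: correct the path `g` of CBP by a
path in the commutant of `e 0` from `1` to `(g 1)⁻¹` -/
def Stmt_CB0 : Prop := ∀ (n : ℕ) (e : Matrix (Fin n) (Fin n) C(TC, ℂ)), e * e = e →
  ∃ r : ℕ, Eqv e (1 : Matrix (Fin r) (Fin r) C(TC, ℂ))

/-- CK0 (uses CB0): `K_0` of the circle (the inverse map: the trace at a point) -/
def Stmt_CK0 : Prop := Nonempty (K0 C(TC, ℂ) ≃+ ℤ) ∧ ∀ N : ℕ, 0 < N →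
  N • c0 (1 : Matrix (Fin 1) (Fin 1) C(TC, ℂ)) (one_mul _) ≠ 0

/-- LAU (uses SEG): approximation by Laurent polynomials (`span_fourier_closure_eq_top`) -/
def Stmt_LAU : Prop := ∀ (n : ℕ) (g : Matrix (Fin n) (Fin n) C(TC, ℂ)), IsUnit g →
  ∃ (m : ℕ) (p : Matrix (Fin n) (Fin n) (Polynomial ℂ)),
    IsUnit ((fourier (-(m : ℤ)) : C(TC, ℂ)) • p.map evz) ∧
    Jn g ((fourier (-(m : ℤ)) : C(TC, ℂ)) • p.map evz)

/-- SMA: the induction step of SMF (Euclidean algorithm; take an entry of least degree of all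
matrices `L p L'`) -/
def Stmt_SMA : Prop := ∀ (r : ℕ) (p : Matrix (Fin r ⊕ Unit) (Fin r ⊕ Unit) (Polynomial ℂ)),
  ∃ (L L' : List (Matrix.TransvectionStruct (Fin r ⊕ Unit) (Polynomial ℂ))),
    ((L.map Matrix.TransvectionStruct.toMatrix).prod * p *
      (L'.map Matrix.TransvectionStruct.toMatrix).prod).IsTwoBlockDiagonal

/-- SMF (uses SMA): diagonalisation of polynomial matrices by transvections -/
def Stmt_SMF : Prop := ∀ (n : ℕ) (p : Matrix (Fin n) (Fin n) (Polynomial ℂ)),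
  ∃ (L L' : List (Matrix.TransvectionStruct (Fin n) (Polynomial ℂ))) (d : Fin n → Polynomial ℂ),
    p = (L.map Matrix.TransvectionStruct.toMatrix).prod * Matrix.diagonal d *
      (L'.map Matrix.TransvectionStruct.toMatrix).prod

/-- the `1 × 1` matrix `z` -/
noncomputable def zz : Matrix (Fin 1) (Fin 1) C(TC, ℂ) := Matrix.diagonal fun _ => fourier 1

/-- ZUN: `z` is invertible -/
theorem zz_isUnit : IsUnit zz := by
  have h : (fourier 1 : C(TC, ℂ)) * fourier (-1) = 1 := by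
    ext x
    rw [ContinuousMap.mul_apply, ← fourier_add]
    simp
  refine ⟨⟨zz, Matrix.diagonal fun _ => fourier (-1), ?_, ?_⟩, rfl⟩
  · rw [zz, Matrix.diagonal_mul_diagonal, h]
    rfl
  · rw [zz, Matrix.diagonal_mul_diagonal, mul_comm, h]
    rfl

/-- SC1 (uses K1A): scalar Laurent polynomials: factor the polynomial; a factor `z - a` is joined
to `z` (`|a| < 1`) or to a constant (`|a| > 1`) -/
def Stmt_SC1 : Prop := ∀ (m : ℕ) (p : Polynomial ℂ)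
  (h : IsUnit (Matrix.diagonal fun _ : Fin 1 => (fourier (-(m : ℤ)) : C(TC, ℂ)) * evz p)),
  ∃ k : ℤ, c1 _ h = k • c1 zz zz_isUnit

/-- GE1 (uses PTH, K1A, LAU, SMF, SC1): `[z]` generates `K_1` of the circle -/
def Stmt_GE1 : Prop := ∀ x : K1 C(TC, ℂ), ∃ k : ℤ, x = k • c1 zz zz_isUnit

/-- LOG: a nowhere vanishing function joined to `1` has a logarithm, `z^k` has none -/
def Stmt_LOG : Prop := ∀ k : ℤ, JoinedIn {f : C(TC, ℂ) | IsUnit f} (fourier k) 1 → k = 0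

/-- CK1 (uses K1A, CR1, GE1, LOG): `K_1` of the circle (injectivity: determinant) -/
def Stmt_CK1 : Prop := Nonempty (K1 C(TC, ℂ) ≃+ ℤ)

/-- OLD: comparison with the other definition of `K_0` (projections) -/
def Stmt_OLD : Prop := ∀ (A : Type) [CStarAlgebra A], ∃ f : QLam.K0 A →+ K0 A,
  f (QLam.unitClass A) = c0 (1 : Matrix (Fin 1) (Fin 1) A) (one_mul _)

end Pool.Agent.KCH
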