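import Pool.Agent.KCH.FStmts
import Pool.Agent.KCH.KStmts
import Pool.Agent.Lib_MP_b3c914_an.Main
import Pool.Agent.Results.MP_b3c914_an.UnitClassTorsion

/-!
# Squad KCH: the final theorem from the statements of the modules
-/

set_option autoImplicit false

namespace Pool.Agent.KCH

open TopologicalSpace

theorem simple_of_pi (A : Type) [CStarAlgebra A] (h : IsPurelyInfinite A) : IsSimpleRing A := by
  have hnt : Nontrivial A := by
    obtain ⟨a, ha⟩ := h.1
    refine ⟨a, 0, ?_⟩
    have := ha 0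
    simpa using this
  constructor
  constructor
  intro I
  by_cases hI : I = ⊥
  · exact Or.inl hI
  · right
    obtain ⟨a, ha, ha0⟩ : ∃ a ∈ I, a ≠ 0 := by
      by_contra hcon
      push Not at hcon
      apply hI
      rw [eq_bot_iff]
      intro x hx
      rw [hcon x hx]
      exact zero_mem _
    obtain ⟨x, y, hxy⟩ := h.2 a ha0
    rw [eq_top_iff]
    intro z _
    have h1 : z * (x * a * y) ∈ I := I.mul_mem_left _ _ (I.mul_mem_right _ _ (I.mul_mem_left _ _ ha))
    rwa [hxy, mul_one] at h1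

/-- a ring isomorphism induces an isomorphism on `K_0` -/
noncomputable def K0.equiv {A B : Type} [Ring A] [Ring B] (e : A ≃+* B) : K0 A ≃+ K0 B where
  toFun := K0.map (e : A →+* B)
  invFun := K0.map (e.symm : B →+* A)
  left_inv x := by
    rw [← K0.map_comp]
    have : ((e.symm : B →+* A) : B →ₙ+* A).comp ((e : A →+* B) : A →ₙ+* B) =
      NonUnitalRingHom.id A := by
      ext a
      simp
    rw [this, K0.map_id]
  right_inv x := by
    rw [← K0.map_comp]
    have : ((e : A →+* B) : A →ₙ+* B).comp ((e.symm : B →+* A) : B →ₙ+* A) =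
      NonUnitalRingHom.id B := by
      ext a
      simp
    rw [this, K0.map_id]
  map_add' := map_add _

/-- a ring isomorphism which is a homeomorphism induces an isomorphism on `K_1` -/
noncomputable def K1.equiv {A B : Type} [NormedRing A] [NormedRing B] (e : A ≃+* B)
    (h : Continuous e) (h' : Continuous e.symm) : K1 A ≃+ K1 B where
  toFun := K1.map (e : A →+* B) h
  invFun := K1.map (e.symm : B →+* A) h'
  left_inv x := by
    have h1 : ((e.symm : B →+* A) : B →ₙ+* A).comp ((e : A →+* B) : A →ₙ+* B) =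
      NonUnitalRingHom.id A := by
      ext a
      simp
    have h2 := K1.map_comp ((e.symm : B →+* A) : B →ₙ+* A) ((e : A →+* B) : A →ₙ+* B) h' h x
    rw [← h2]
    have h3 : ∀ (f g : A →ₙ+* A) (hf : Continuous f) (hg : Continuous g), f = g →
        K1.map f hf x = K1.map g hg x := by
      intro f g hf hg hfg; subst hfg; rfl
    rw [h3 _ _ _ continuous_id h1, K1.map_id]
  right_inv x := by
    have h1 : ((e : A →+* B) : A →ₙ+* B).comp ((e.symm : B →+* A) : B →ₙ+* A) =
      NonUnitalRingHom.id B := by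
      ext a
      simp
    have h2 := K1.map_comp ((e : A →+* B) : A →ₙ+* B) ((e.symm : B →+* A) : B →ₙ+* A) h h' x
    rw [← h2]
    have h3 : ∀ (f g : B →ₙ+* B) (hf : Continuous f) (hg : Continuous g), f = g →
        K1.map f hf x = K1.map g hg x := by
      intro f g hf hg hfg; subst hfg; rfl
    rw [h3 _ _ _ continuous_id h1, K1.map_id]
  map_add' := map_add _

theorem fin_proof (hSPA : Stmt_SPA) (hPIA : Stmt_PIA) (hNCA : Stmt_NCA) (hSPC : Stmt_SPC)
    (hKKB : Stmt_KKB) (hKF0 : Stmt_KF0) (hKF1 : Stmt_KF1) (hCK0 : Stmt_CK0) (hCK1 : Stmt_CK1)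
    (hOLD : Stmt_OLD) :
    ∃ (A : Type) (_ : CStarAlgebra A) (_ : SeparableSpace A), IsKirchberg A ∧ UCT A ∧
      AddGroup.FG (K0 A) ∧ AddGroup.FG (K1 A) ∧
      Module.finrank ℤ (K0 A) = Module.finrank ℤ (K1 A) ∧
      ∀ (lam : ℝ) (h : 0 < lam), IsAlgebraic ℚ lam → ¬ QLam.IsQ A lam h := by
  haveI : SeparableSpace AA := hSPA.1
  haveI : SeparableSpace CC := hSPA.2
  obtain ⟨e⟩ := hSPC
  obtain ⟨F0, hF0⟩ := hKF0
  obtain ⟨F1, hF1⟩ := hKF1
  obtain ⟨⟨k0⟩, hN⟩ := hCK0
  obtain ⟨k1⟩ := hCK1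
  have b0 : Function.Bijective (K0.map ((jj : CC →⋆ₙₐ[ℂ] AA) : CC →ₙ+* AA)) :=
    hF0 CC AA (jj : CC →⋆ₙₐ[ℂ] AA) (hKKB F0)
  have hjc : Continuous ((jj : CC →⋆ₙₐ[ℂ] AA) : CC →ₙ+* AA) := by
    show Continuous fun c => jj c
    have h1 : Isometry (fun c => jj c) := by
      rw [isometry_iff_dist_eq]
      intro a b
      rw [dist_eq_norm, dist_eq_norm, ← map_sub, ← pA_norm, pA_jj, pC_norm]
    exact h1.continuous
  have b1 : Function.Bijective (K1.map ((jj : CC →⋆ₙₐ[ℂ] AA) : CC →ₙ+* AA) hjc) :=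
    hF1 CC AA (jj : CC →⋆ₙₐ[ℂ] AA) hjc (hKKB F1)
  have hec : Continuous (e : C(TC, ℂ) → CC) := (StarAlgEquiv.isometry e).continuous
  have hec' : Continuous (e.symm : CC → C(TC, ℂ)) := (StarAlgEquiv.isometry e.symm).continuous
  let e' : C(TC, ℂ) ≃+* CC :=
    { toFun := e
      invFun := e.symm
      left_inv := e.left_inv
      right_inv := e.right_inv
      map_mul' := map_mul e
      map_add' := map_add e }
  have E0 : K0 AA ≃+ ℤ :=
    (((K0.equiv e').trans (AddEquiv.ofBijective _ b0)).symm).trans k0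
  have E1 : K1 AA ≃+ ℤ :=
    (((K1.equiv e' hec hec').trans (AddEquiv.ofBijective _ b1)).symm).trans k1
  refine ⟨AA, inferInstance, inferInstance, ⟨inferInstance, simple_of_pi _ hPIA, hNCA, hPIA⟩,
    ?_, ?_, ?_, ?_, ?_⟩
  · -- UCT
    refine ⟨⟨CC, inferInstance, inferInstance⟩, ?_, ?_⟩
    · intro x y
      show (x : CC) * (y : CC) = (y : CC) * (x : CC)
      obtain ⟨a, rfl⟩ := e.surjective x
      obtain ⟨b, rfl⟩ := e.surjective y
      rw [← map_mul, ← map_mul, mul_comm]
    · apply Relation.EqvGen.symm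
      apply Relation.EqvGen.rel
      exact ⟨(jj : CC →⋆ₙₐ[ℂ] AA), fun F => hKKB F⟩
  · have h1 : AddGroup.FG ℤ := inferInstance
    exact AddGroup.fg_of_surjective (f := E0.symm.toAddMonoidHom) E0.symm.surjective
  · exact AddGroup.fg_of_surjective (f := E1.symm.toAddMonoidHom) E1.symm.surjective
  · rw [LinearEquiv.finrank_eq (E0.trans E1.symm).toIntLinearEquiv]
  · intro lam h halg
    refine Pool.Agent.Results.MP_b3c914_an.UnitClassTorsion.result AA hPIA.1 ?_ lam h halg
    intro N hNp h0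
    obtain ⟨f, hf⟩ := hOLD AA
    have h1 : N • c0 (1 : Matrix (Fin 1) (Fin 1) AA) (one_mul _) = 0 := by
      rw [← hf, ← map_nsmul, h0, map_zero]
    have h2 : K0.map ((jj : CC →⋆ₙₐ[ℂ] AA) : CC →ₙ+* AA)
        (N • c0 (1 : Matrix (Fin 1) (Fin 1) CC) (one_mul _)) = 0 := by
      rw [map_nsmul, K0.map_c0, ← h1]
      congr 1
      apply c0_congr
      ext i j
      rw [mm_apply, Matrix.one_apply, Matrix.one_apply]
      split_ifs
      · exact map_one jj
      · exact map_zero jj
    have h3 : N • c0 (1 : Matrix (Fin 1) (Fin 1) CC) (one_mul _) = 0 := by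
      apply b0.1
      rw [h2, map_zero]
    have h4 : K0.map ((e' : C(TC, ℂ) →+* CC) : C(TC, ℂ) →ₙ+* CC)
        (N • c0 (1 : Matrix (Fin 1) (Fin 1) C(TC, ℂ)) (one_mul _)) = 0 := by
      rw [map_nsmul, K0.map_c0, ← h3]
      congr 1
      apply c0_congr
      ext i j
      rw [mm_apply, Matrix.one_apply, Matrix.one_apply]
      split_ifs
      · exact map_one e
      · exact map_zero e
    have h5 : N • c0 (1 : Matrix (Fin 1) (Fin 1) C(TC, ℂ)) (one_mul _) = 0 := by
      apply (K0.equiv e').injective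
      rw [map_zero]
      exact h4
    exact hN N hNp h5

end Pool.Agent.KCH
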