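import Pool.Agent.KCH.KStmts

/-!
# Squad KCH, module GE1: the class of `z` generates `K_1` of the circle
-/

set_option autoImplicit false

namespace Pool.Agent.KCH

namespace GE1_

open Matrix

section
variable {A : Type} [CStarAlgebra A]

theorem tr_inv {ι : Type} [Fintype ι] [DecidableEq ι] (i j : ι) (hij : i ≠ j) (c : A) :
    (1 + Matrix.single i j c) * (1 + Matrix.single i j (-c)) = 1 := by
  rw [mul_add, mul_one, add_mul, one_mul, Matrix.single_mul_single_of_ne c i j i hij.symm,
    add_zero, add_assoc, ← Matrix.single_add]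
  simp

theorem tr_isUnit {ι : Type} [Fintype ι] [DecidableEq ι] (i j : ι) (hij : i ≠ j) (c : A) :
    IsUnit (1 + Matrix.single i j c) := by
  refine ⟨⟨1 + Matrix.single i j c, 1 + Matrix.single i j (-c), tr_inv i j hij c, ?_⟩, rfl⟩
  have := tr_inv i j hij (-c)
  rwa [neg_neg] at this

theorem tr_jn {ι : Type} [Fintype ι] [DecidableEq ι] (i j : ι) (hij : i ≠ j) (c : A) :
    Jn (1 + Matrix.single i j c) 1 := by
  have h := joinedIn_of_continuousOn (S := {a : Matrix ι ι A | IsUnit a})
    (fun t : ℝ => 1 + Matrix.single i j (((1 - t : ℝ) : ℂ) • c)) ?_ ?_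
  · have h0 : (1 : Matrix ι ι A) + Matrix.single i j (((1 - (0 : ℝ) : ℝ) : ℂ) • c) =
        1 + Matrix.single i j c := by simp
    have h1 : (1 : Matrix ι ι A) + Matrix.single i j (((1 - (1 : ℝ) : ℝ) : ℂ) • c) = 1 := by simp
    simp only [h0, h1] at h
    exact h
  · apply Continuous.continuousOn
    apply continuous_matrix
    intro a b
    simp only [Matrix.add_apply, Matrix.single_apply]
    refine continuous_const.add ?_
    split_ifs
    · fun_prop
    · exact continuous_const
  · intro t _
    exact tr_isUnit i j hij _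

end

abbrev CT : Type := C(TC, ℂ)

theorem map_toMatrix {n : ℕ} (t : Matrix.TransvectionStruct (Fin n) (Polynomial ℂ)) :
    t.toMatrix.map evz = 1 + Matrix.single t.i t.j (evz t.c) := by
  ext1 a b
  simp only [Matrix.TransvectionStruct.toMatrix, Matrix.transvection, Matrix.map_apply,
    Matrix.add_apply, map_add, Matrix.single_apply, Matrix.one_apply]
  congr 1
  · split_ifs <;> simp
  · split_ifs <;> simp

theorem smul_eq' {n : ℕ} (F : CT) (N : Matrix (Fin n) (Fin n) CT) :
    F • N = Matrix.diagonal (fun _ => F) * N := by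
  ext1 i j
  rw [Matrix.diagonal_mul, Matrix.smul_apply]
  rfl

theorem smul_mid {n : ℕ} (F : CT) (P N Q : Matrix (Fin n) (Fin n) CT) :
    F • (P * N * Q) = P * (F • N) * Q := by
  have h : Matrix.diagonal (fun _ => F) * P = P * Matrix.diagonal (fun _ => F) := by
    ext1 i j
    rw [Matrix.diagonal_mul, Matrix.mul_diagonal, mul_comm]
  rw [smul_eq', smul_eq', ← Matrix.mul_assoc P, ← h]
  simp only [Matrix.mul_assoc]

theorem list_class (hK : Stmt_K1A) {n : ℕ}
    (L : List (Matrix.TransvectionStruct (Fin n) (Polynomial ℂ))) :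
    ∃ h : IsUnit ((L.map Matrix.TransvectionStruct.toMatrix).prod.map evz),
      c1 ((L.map Matrix.TransvectionStruct.toMatrix).prod.map evz) h = 0 := by
  obtain ⟨-, K2, -, K4, K5, -, -⟩ := hK CT
  induction L with
  | nil =>
    have h1 : (([] : List (Matrix.TransvectionStruct (Fin n) (Polynomial ℂ))).map
        Matrix.TransvectionStruct.toMatrix).prod.map evz = (1 : Matrix (Fin n) (Fin n) CT) := by
      rw [List.map_nil, List.prod_nil]
      exact Matrix.map_one _ (map_zero _) (map_one _)
    refine ⟨h1 ▸ isUnit_one, ?_⟩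
    rw [c1_congr h1 _ isUnit_one]
    exact K5 (Fin n)
  | cons t L ih =>
    obtain ⟨hL, hc⟩ := ih
    have h1 : ((t :: L).map Matrix.TransvectionStruct.toMatrix).prod.map evz =
        (1 + Matrix.single t.i t.j (evz t.c)) *
          (L.map Matrix.TransvectionStruct.toMatrix).prod.map evz := by
      rw [List.map_cons, List.prod_cons, Matrix.map_mul, map_toMatrix]
    have h2 := tr_isUnit t.i t.j t.hij (evz t.c)
    have h3 := K2 (Fin n) _ _ h2 isUnit_one (tr_jn t.i t.j t.hij (evz t.c))
    have h4 := K4 (Fin n) _ _ h2 hL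
    rw [hc, h3, K5, add_zero] at h4
    refine ⟨h1 ▸ h2.mul hL, ?_⟩
    rw [c1_congr h1 _ (h2.mul hL)]
    exact h4

theorem diag_class (hK : Stmt_K1A) : ∀ (n : ℕ) (D : Fin n → CT)
    (h : IsUnit (Matrix.diagonal D)), (∀ i (h' : IsUnit (Matrix.diagonal fun _ : Fin 1 => D i)),
      ∃ k : ℤ, c1 _ h' = k • c1 zz zz_isUnit) →
    ∃ k : ℤ, c1 (Matrix.diagonal D) h = k • c1 zz zz_isUnit := by
  obtain ⟨K1, -, K3, -, K5, -, -⟩ := hK CT
  intro n
  induction n with
  | zero =>
    intro D h _
    refine ⟨0, ?_⟩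
    have h1 : Matrix.diagonal D = (1 : Matrix (Fin 0) (Fin 0) CT) := by
      ext1 i
      exact i.elim0
    rw [zero_smul, c1_congr h1 h isUnit_one]
    exact K5 (Fin 0)
  | succ n ih =>
    intro D h hD
    have hu : ∀ i, IsUnit (D i) := by
      rw [Matrix.isUnit_diagonal, Pi.isUnit_iff] at h
      exact h
    have h1 : IsUnit (Matrix.diagonal fun i : Fin n => D i.castSucc) := by
      rw [Matrix.isUnit_diagonal, Pi.isUnit_iff]
      exact fun i => hu _
    have h2 : IsUnit (Matrix.diagonal fun _ : Fin 1 => D (Fin.last n)) := by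
      rw [Matrix.isUnit_diagonal, Pi.isUnit_iff]
      exact fun i => hu _
    obtain ⟨k1, hk1⟩ := ih _ h1 fun i => hD _
    obtain ⟨k2, hk2⟩ := hD (Fin.last n) h2
    obtain ⟨h3, h4⟩ := K3 (Fin n) (Fin 1) _ _ h1 h2
    obtain ⟨h5, h6⟩ := K1 (Fin n ⊕ Fin 1) (Fin (n + 1)) finSumFinEquiv _ h3
    refine ⟨k1 + k2, ?_⟩
    have h7 : Matrix.diagonal D = Matrix.reindex finSumFinEquiv finSumFinEquiv
        (Matrix.fromBlocks (Matrix.diagonal fun i : Fin n => D i.castSucc) 0 0
          (Matrix.diagonal fun _ : Fin 1 => D (Fin.last n))) := by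
      ext1 i j
      obtain ⟨i, rfl⟩ := finSumFinEquiv.surjective i
      obtain ⟨j, rfl⟩ := finSumFinEquiv.surjective j
      rcases i with i | i <;> rcases j with j | j
      · by_cases hij : i = j
        · subst hij
          simp
          rfl
        · have : Fin.castAdd 1 i ≠ Fin.castAdd 1 j := fun e => hij (Fin.castAdd_injective _ _ e)
          simp [hij, this, Matrix.diagonal_apply]
      · have : (Fin.castAdd 1 i) ≠ (Fin.natAdd n j) := by
          intro e
          have := congrArg Fin.val e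
          simp at this
          have := i.2
          omega
        simp [this, Matrix.diagonal_apply]
      · have : (Fin.natAdd n i) ≠ (Fin.castAdd 1 j) := by
          intro e
          have := congrArg Fin.val e
          simp at this
          have := j.2
          omega
        simp [this, Matrix.diagonal_apply]
      · have hi : i = 0 := Subsingleton.elim _ _
        have hj : j = 0 := Subsingleton.elim _ _
        subst hi
        subst hj
        have : Fin.natAdd n (0 : Fin 1) = Fin.last n := by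
          ext
          simp
        simp [this]
    rw [c1_congr h7 h h5, h6, h4, hk1, hk2, add_smul]

end GE1_

theorem ge1_proof (_hP : Stmt_PTH) (hK : Stmt_K1A) (hL : Stmt_LAU) (hS : Stmt_SMF)
    (hC : Stmt_SC1) : Stmt_GE1 := by
  intro x
  obtain ⟨-, K2, -, K4, K5, -, K7⟩ := hK GE1_.CT
  obtain ⟨n, g, hg, rfl⟩ := K7 x
  obtain ⟨m, p, hU, hJ⟩ := hL n g hg
  obtain ⟨L, L', d, hp⟩ := hS n p
  obtain ⟨u1, e1⟩ := GE1_.list_class hK L
  obtain ⟨u2, e2⟩ := GE1_.list_class hK L'
  set P := (L.map Matrix.TransvectionStruct.toMatrix).prod.map evz with hPdef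
  set Q := (L'.map Matrix.TransvectionStruct.toMatrix).prod.map evz with hQdef
  set F : GE1_.CT := fourier (-(m : ℤ)) with hF
  have h1 : F • p.map evz = P * (Matrix.diagonal fun i => F * evz (d i)) * Q := by
    rw [hp, Matrix.map_mul, Matrix.map_mul, ← hPdef, ← hQdef]
    have h2 : (Matrix.diagonal d).map evz = Matrix.diagonal fun i => evz (d i) :=
      Matrix.diagonal_map (map_zero _)
    rw [h2]
    have h3 : (Matrix.diagonal fun i => F * evz (d i)) =
        F • (Matrix.diagonal fun i => evz (d i)) := by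
      ext1 i j
      by_cases hij : i = j
      · subst hij
        simp
      · simp [hij, Matrix.diagonal_apply]
    rw [h3]
    exact GE1_.smul_mid F P _ Q
  have hD : IsUnit (Matrix.diagonal fun i => F * evz (d i)) := by
    rw [h1] at hU
    obtain ⟨a, ha⟩ := u1
    obtain ⟨b, hb⟩ := u2
    rw [← ha, ← hb, Units.isUnit_mul_units, Units.isUnit_units_mul] at hU
    exact hU
  obtain ⟨k, hk⟩ := GE1_.diag_class hK n _ hD fun i h' => hC m (d i) h'
  refine ⟨k, ?_⟩
  rw [K2 (Fin n) g _ hg hU hJ, c1_congr h1 hU ((u1.mul hD).mul u2), K4 (Fin n) _ _ (u1.mul hD) u2,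
    K4 (Fin n) _ _ u1 hD, e1, e2, zero_add, add_zero, hk]

end Pool.Agent.KCH
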