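import Pool.Agent.KCH.KStmts

/-!
# Module GLC
-/

namespace Pool.Agent.KCH

namespace GLC_

open Polynomial in
/-- the polynomial `det (1 + X (g - 1))` -/
noncomputable def pl {ι : Type} [Fintype ι] [DecidableEq ι] (h : Matrix ι ι ℂ) : ℂ[X] :=
  (1 + (Polynomial.X : ℂ[X]) • h.map (Polynomial.C : ℂ → ℂ[X])).det

theorem pl_eval {ι : Type} [Fintype ι] [DecidableEq ι] (h : Matrix ι ι ℂ) (z : ℂ) :
    (pl h).eval z = (1 + z • h).det := by
  unfold pl
  have h1 := (Polynomial.evalRingHom z).map_det
    (1 + (Polynomial.X : Polynomial ℂ) • h.map (Polynomial.C : ℂ → Polynomial ℂ))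
  rw [Polynomial.coe_evalRingHom] at h1
  rw [h1]
  congr 1
  ext i j
  by_cases hij : i = j
  · subst hij
    simp
    ring
  · simp [hij]
    ring

end GLC_

open GLC_ in
theorem glc_proof : Stmt_GLC := by
  intro ι _ _ g hg
  have hdet : g.det ≠ 0 := by
    rw [Matrix.isUnit_iff_isUnit_det] at hg
    exact hg.ne_zero
  set h := g - 1 with hh
  have p0 : (pl h).eval 0 = 1 := by rw [pl_eval]; simp
  have p1 : (pl h).eval 1 ≠ 0 := by rw [pl_eval, one_smul, hh]; simpa using hdet
  have hp : pl h ≠ 0 := by
    intro hc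
    rw [hc] at p0
    simp at p0
  obtain ⟨s, hs⟩ := Infinite.exists_notMem_finset
    ((pl h).roots.toFinset.image (fun z : ℂ => z.im / (z.re * (1 - z.re))))
  set c : ℝ → ℝ := fun t => max 0 (min 1 t) with hc
  have hcc : Continuous c := by rw [hc]; fun_prop
  have hc0 : c 0 = 0 := by simp [hc]
  have hc1 : c 1 = 1 := by simp [hc]
  set lam : ℝ → ℂ := fun t => (c t : ℂ) + Complex.I * ((s * (c t * (1 - c t)) : ℝ) : ℂ) with hlam
  have hlc : Continuous lam := by
    rw [hlam]
    have h1 : Continuous fun t => ((s * (c t * (1 - c t)) : ℝ) : ℂ) :=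
      Complex.continuous_ofReal.comp (continuous_const.mul (hcc.mul (continuous_const.sub hcc)))
    exact (Complex.continuous_ofReal.comp hcc).add (continuous_const.mul h1)
  have hre : ∀ t, (lam t).re = c t := by intro t; simp [hlam]
  have him : ∀ t, (lam t).im = s * (c t * (1 - c t)) := by intro t; simp [hlam]
  have hl0 : lam 0 = 0 := by simp [hlam, hc0]
  have hl1 : lam 1 = 1 := by simp [hlam, hc1]
  have hne : ∀ t, (pl h).eval (lam t) ≠ 0 := by
    intro t ht
    have hz0 : lam t ≠ 0 := by
      intro h0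
      rw [h0, p0] at ht
      exact one_ne_zero ht
    have hz1 : lam t ≠ 1 := by
      intro h0
      rw [h0] at ht
      exact p1 ht
    have hct0 : c t ≠ 0 := by
      intro h0
      apply hz0
      simp [hlam, h0]
    have hct1 : 1 - c t ≠ 0 := by
      intro h0
      have : c t = 1 := by linarith
      apply hz1
      simp [hlam, this]
    apply hs
    rw [Finset.mem_image]
    refine ⟨lam t, ?_, ?_⟩
    · rw [Multiset.mem_toFinset, Polynomial.mem_roots hp]
      exact ht
    · rw [hre, him]
      field_simp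
  refine ⟨fun t => 1 + lam t • h, ?_, ?_, ?_, ?_, ?_⟩
  · exact continuous_const.add (hlc.smul continuous_const)
  · simp [hl0]
  · simp [hl1, hh]
  · intro t
    rw [Matrix.isUnit_iff_isUnit_det, isUnit_iff_ne_zero, ← pl_eval]
    exact hne t
  · intro M hM t
    have h1 : Commute M h := by
      rw [hh]
      exact hM.sub_right (Commute.one_right M)
    exact (Commute.one_right M).add_right (h1.smul_right _)

end Pool.Agent.KCH
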