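import Pool.Agent.KCH.KStmts

/-!
# Squad KCH, module HT0: the ends of a path of idempotents are equivalent
-/

set_option autoImplicit false

namespace Pool.Agent.KCH

theorem t_ht0 (hCLO : Stmt_CLO) : Stmt_HT0 := by
  intro A _ _ ι _ _ γ hγ hi
  -- a neighbourhood of every point
  have hloc : ∀ t : ℝ, ∀ᶠ t' in nhds t, Eqv (γ t) (γ t') := by
    intro t
    obtain ⟨ε, hε, h⟩ := hCLO A ι (γ t) (hi t)
    have h1 : ∀ i j, ∀ᶠ t' in nhds t, ‖γ t' i j - γ t i j‖ < ε := by
      intro i j
      have hc : Continuous fun t' => ‖γ t' i j - γ t i j‖ :=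
        ((hγ.matrix_elem i j).sub continuous_const).norm
      have h2 : ‖γ t i j - γ t i j‖ < ε := by rw [sub_self, norm_zero]; exact hε
      exact (hc.tendsto t).eventually (gt_mem_nhds h2) |>.mono fun _ h => h
    have h2 : ∀ᶠ t' in nhds t, ∀ i j, ‖γ t' i j - γ t i j‖ < ε := by
      rw [Filter.eventually_all]
      intro i
      rw [Filter.eventually_all]
      intro j
      exact h1 i j
    exact h2.mono fun t' ht' => (h (γ t') (hi t') ht').1
  let S : Set ℝ := {t | Eqv (γ 0) (γ t)}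
  have hopen : IsOpen S := by
    rw [isOpen_iff_mem_nhds]
    intro t ht
    exact (hloc t).mono fun t' ht' => Eqv.trans (hi 0) (hi t') ht ht'
  have hclosed : IsClosed S := by
    rw [← isOpen_compl_iff, isOpen_iff_mem_nhds]
    intro t ht
    exact (hloc t).mono fun t' ht' hS => ht (Eqv.trans (hi 0) (hi t) hS ht'.symm)
  have huniv : S = Set.univ := IsClopen.eq_univ ⟨hclosed, hopen⟩ ⟨0, Eqv.refl (hi 0)⟩
  have h1 : (1 : ℝ) ∈ S := by rw [huniv]; trivial
  exact h1

end Pool.Agent.KCH
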