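import Pool.Agent.KCH.KStmts

/-!
# Squad KCH (MP_b3c914_an): module IN0, injectivity for the stabilisation (`K_0`)
-/

set_option autoImplicit false

namespace Pool.Agent.KCH

open TopologicalSpace Filter

namespace IN0_

section alg
variable {B : Type} [Ring B]

/-- extension by zero along an injection -/
theorem eqv_ext {lam mu : Type} [Fintype lam] [Fintype mu] (j : lam → mu)
    (hj : Function.Injective j) (c : Matrix mu mu B) (g : Matrix lam lam B) (hg : g * g = g)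
    (h1 : ∀ s t, c (j s) (j t) = g s t) (h2 : ∀ u v, u ∉ Set.range j → c u v = 0)
    (h3 : ∀ u v, v ∉ Set.range j → c u v = 0) : c * c = c ∧ Eqv c g := by
  have key : ∀ u v, ∑ s, c u (j s) * c (j s) v = ∑ w, c u w * c w v := fun u v =>
    Fintype.sum_of_injective j hj _ _ (fun w hw => by rw [h3 u w hw, zero_mul]) (fun _ => rfl)
  have hcc : c * c = c := by
    ext u v
    rw [Matrix.mul_apply, ← key]
    by_cases hu : u ∈ Set.range j
    · by_cases hv : v ∈ Set.range j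
      · obtain ⟨a, rfl⟩ := hu
        obtain ⟨b, rfl⟩ := hv
        rw [h1]
        have := congrFun (congrFun hg a) b
        rw [Matrix.mul_apply] at this
        rw [← this]
        exact Finset.sum_congr rfl fun s _ => by rw [h1, h1]
      · rw [h3 u v hv]
        exact Finset.sum_eq_zero fun s _ => by rw [h3 _ v hv, mul_zero]
    · rw [h2 u v hu]
      exact Finset.sum_eq_zero fun s _ => by rw [h2 u _ hu, zero_mul]
  refine ⟨hcc, Matrix.of fun u s => c u (j s), Matrix.of fun s u => c (j s) u, ?_, ?_⟩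
  · ext u v
    rw [Matrix.mul_apply]
    show ∑ s, c u (j s) * c (j s) v = c u v
    rw [key]
    have := congrFun (congrFun hcc u) v
    rwa [Matrix.mul_apply] at this
  · ext s t
    rw [Matrix.mul_apply]
    show ∑ u, c (j s) u * c u (j t) = g s t
    have := congrFun (congrFun hcc (j s)) (j t)
    rw [Matrix.mul_apply, h1] at this
    exact this

/-- the matrix `p` at the indices `(i,0)` and the unit matrix at the indices of `β × Fin m` -/
def cm {ι α β : Type} [DecidableEq β] (ρ : ι → Option (α ⊕ β)) (m : ℕ) (p : Matrix α α B) :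
    Matrix (ι × Fin m) (ι × Fin m) B := fun u v =>
  match ρ u.1, ρ v.1 with
  | some (Sum.inl i), some (Sum.inl j) => if u.2.val = 0 ∧ v.2.val = 0 then p i j else 0
  | some (Sum.inr i), some (Sum.inr j) => if i = j ∧ u.2 = v.2 then 1 else 0
  | _, _ => 0

theorem cm_eqv {ι α β : Type} [Fintype ι] [Fintype α] [Fintype β] [DecidableEq β]
    (τ : α ⊕ β → ι) (ρ : ι → Option (α ⊕ β)) (h1 : ∀ k, ρ (τ k) = some k)
    (h2 : ∀ u k, ρ u = some k → τ k = u) (m : ℕ) (hm : 0 < m) (p : Matrix α α B)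
    (hp : p * p = p) :
    cm ρ m p * cm ρ m p = cm ρ m p ∧
      Eqv (cm ρ m p) (Matrix.fromBlocks p 0 0 (1 : Matrix (β × Fin m) (β × Fin m) B)) := by
  have hτ : Function.Injective τ := by
    intro a b hab
    have h := h1 a
    rw [hab, h1 b] at h
    exact (Option.some.inj h).symm
  apply eqv_ext (Sum.elim (fun i => (τ (Sum.inl i), (⟨0, hm⟩ : Fin m)))
    (fun b : β × Fin m => (τ (Sum.inr b.1), b.2)))
  · rintro (a | ⟨a, c⟩) (b | ⟨b, d⟩) hab
    · simp only [Sum.elim_inl, Prod.mk.injEq, and_true] at hab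
      have h3 := hτ hab
      rw [Sum.inl.injEq] at h3
      rw [h3]
    · simp only [Sum.elim_inl, Sum.elim_inr, Prod.mk.injEq] at hab
      have := hτ hab.1
      simp at this
    · simp only [Sum.elim_inl, Sum.elim_inr, Prod.mk.injEq] at hab
      have := hτ hab.1
      simp at this
    · simp only [Sum.elim_inr, Prod.mk.injEq] at hab
      have h3 := hτ hab.1
      rw [Sum.inr.injEq] at h3
      rw [h3, hab.2]
  · exact fromBlocks_idem hp (one_mul _)
  · rintro (a | ⟨a, c⟩) (b | ⟨b, d⟩)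
    · simp [cm, h1]
    · simp [cm, h1]
    · simp [cm, h1]
    · simp [cm, h1, Matrix.one_apply]
  · rintro ⟨u, c⟩ ⟨v, d⟩ hu
    rcases h3 : ρ u with _ | i | i
    · simp [cm, h3]
    · have hc : c.val ≠ 0 := by
        intro h0
        apply hu
        refine ⟨Sum.inl i, ?_⟩
        simp only [Sum.elim_inl, Prod.mk.injEq]
        exact ⟨h2 _ _ h3, Fin.ext h0.symm⟩
      rcases h4 : ρ v with _ | j | j <;> simp [cm, h3, h4, hc]
    · exfalso
      apply hu
      exact ⟨Sum.inr (i, c), by simp only [Sum.elim_inr, Prod.mk.injEq]; exact ⟨h2 _ _ h3, trivial⟩⟩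
  · rintro ⟨u, c⟩ ⟨v, d⟩ hv
    rcases h3 : ρ v with _ | i | i
    · rcases h4 : ρ u with _ | j | j <;> simp [cm, h3, h4]
    · have hc : d.val ≠ 0 := by
        intro h0
        apply hv
        refine ⟨Sum.inl i, ?_⟩
        simp only [Sum.elim_inl, Prod.mk.injEq]
        exact ⟨h2 _ _ h3, Fin.ext h0.symm⟩
      rcases h4 : ρ u with _ | j | j <;> simp [cm, h3, h4, hc]
    · exfalso
      apply hv
      exact ⟨Sum.inr (i, d), by simp only [Sum.elim_inr, Prod.mk.injEq]; exact ⟨h2 _ _ h3, trivial⟩⟩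

end alg

section stab
variable {B J : Type} [CStarAlgebra B] [NonUnitalCStarAlgebra J] (θ : ℕ → ℕ → B →ₗ[ℂ] J)

/-- the image of `cm` -/
noncomputable def em {ι α β : Type} [DecidableEq β] (ρ : ι → Option (α ⊕ β)) (m : ℕ)
    (p : Matrix α α B) : Matrix ι ι (Unitization ℂ J) := fun u v =>
  match ρ u, ρ v with
  | some (Sum.inl i), some (Sum.inl j) => inr J (θ 0 0 (p i j))
  | some (Sum.inr i), some (Sum.inr j) => if i = j then inr J (pn θ m) else 0
  | _, _ => 0

theorem sum_one (m : ℕ) (hm : 0 < m) (b : B) :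
    ∑ k : Fin m, ∑ l : Fin m, θ k l (if k.val = 0 ∧ l.val = 0 then b else 0) = θ 0 0 b := by
  rw [Finset.sum_eq_single (⟨0, hm⟩ : Fin m), Finset.sum_eq_single (⟨0, hm⟩ : Fin m)]
  · simp
  · intro l _ hl
    have : l.val ≠ 0 := fun h => hl (Fin.ext h)
    simp [this]
  · intro h
    exact absurd (Finset.mem_univ _) h
  · intro k _ hk
    have : k.val ≠ 0 := fun h => hk (Fin.ext h)
    simp [this]
  · intro h
    exact absurd (Finset.mem_univ _) h

theorem sum_diag (m : ℕ) :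
    ∑ k : Fin m, ∑ l : Fin m, θ k l (if k = l then (1 : B) else 0) = pn θ m := by
  rw [pn, Finset.sum_range]
  apply Finset.sum_congr rfl
  intro k _
  rw [Finset.sum_eq_single k]
  · simp
  · intro l _ hl
    rw [if_neg (Ne.symm hl), map_zero]
  · intro h
    exact absurd (Finset.mem_univ _) h

theorem bl_cm {ι α β : Type} [DecidableEq β] (ρ : ι → Option (α ⊕ β)) (m : ℕ) (hm : 0 < m)
    (p : Matrix α α B) : bl θ (cm ρ m p) = em θ ρ m p := by
  ext1 u v
  show inr J (∑ k : Fin m, ∑ l : Fin m, θ k l (cm ρ m p (u, k) (v, l))) = em θ ρ m p u v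
  rcases h3 : ρ u with _ | i | i
  · have h5 : ∀ k l : Fin m, cm ρ m p (u, k) (v, l) = 0 := fun k l => by simp [cm, h3]
    have h6 : em θ ρ m p u v = 0 := by simp [em, h3]
    rw [h6]
    simp only [h5, map_zero, Finset.sum_const_zero]
  · rcases h4 : ρ v with _ | j | j
    · have h5 : ∀ k l : Fin m, cm ρ m p (u, k) (v, l) = 0 := fun k l => by simp [cm, h3, h4]
      have h6 : em θ ρ m p u v = 0 := by simp [em, h3, h4]
      rw [h6]
      simp only [h5, map_zero, Finset.sum_const_zero]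
    · have h5 : ∀ k l : Fin m, cm ρ m p (u, k) (v, l) =
          if k.val = 0 ∧ l.val = 0 then p i j else 0 := fun k l => by simp only [cm, h3, h4]
      have h6 : em θ ρ m p u v = inr J (θ 0 0 (p i j)) := by simp only [em, h3, h4]
      rw [h6]
      simp only [h5]
      rw [sum_one θ m hm]
    · have h5 : ∀ k l : Fin m, cm ρ m p (u, k) (v, l) = 0 := fun k l => by simp [cm, h3, h4]
      have h6 : em θ ρ m p u v = 0 := by simp [em, h3, h4]
      rw [h6]
      simp only [h5, map_zero, Finset.sum_const_zero]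
  · rcases h4 : ρ v with _ | j | j
    · have h5 : ∀ k l : Fin m, cm ρ m p (u, k) (v, l) = 0 := fun k l => by simp [cm, h3, h4]
      have h6 : em θ ρ m p u v = 0 := by simp [em, h3, h4]
      rw [h6]
      simp only [h5, map_zero, Finset.sum_const_zero]
    · have h5 : ∀ k l : Fin m, cm ρ m p (u, k) (v, l) = 0 := fun k l => by simp [cm, h3, h4]
      have h6 : em θ ρ m p u v = 0 := by simp [em, h3, h4]
      rw [h6]
      simp only [h5, map_zero, Finset.sum_const_zero]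
    · have h5 : ∀ k l : Fin m, cm ρ m p (u, k) (v, l) =
          if i = j ∧ k = l then 1 else 0 := fun k l => by simp only [cm, h3, h4]
      have h6 : em θ ρ m p u v = if i = j then inr J (pn θ m) else 0 := by
        simp only [em, h3, h4]
      rw [h6]
      simp only [h5]
      by_cases hij : i = j
      · simp only [hij, true_and, if_true]
        rw [sum_diag]
      · simp only [hij, false_and, if_false, map_zero, Finset.sum_const_zero]

variable {θ}

theorem theta_pn (hθ : IsStab θ) (m : ℕ) (hm : 0 < m) (b : B) :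
    θ 0 0 b * pn θ m = θ 0 0 b := by
  rw [pn, Finset.mul_sum, Finset.sum_eq_single 0]
  · rw [hθ.mul_same, mul_one]
  · intro k _ hk
    exact hθ.mul_ne _ _ _ _ _ _ (Ne.symm hk)
  · intro h
    exact absurd (Finset.mem_range.2 hm) h

theorem pn_theta (hθ : IsStab θ) (m : ℕ) (hm : 0 < m) (b : B) :
    pn θ m * θ 0 0 b = θ 0 0 b := by
  rw [pn, Finset.sum_mul, Finset.sum_eq_single 0]
  · rw [hθ.mul_same, one_mul]
  · intro k _ hk
    exact hθ.mul_ne _ _ _ _ _ _ hk
  · intro h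
    exact absurd (Finset.mem_range.2 hm) h

theorem PP_mul_apply (θ : ℕ → ℕ → B →ₗ[ℂ] J) {κ μ : Type} [Fintype κ] [DecidableEq κ] (m : ℕ)
    (x : Matrix κ μ (Unitization ℂ J)) (i : κ) (j : μ) :
    (PP θ κ m * x) i j = inr J (pn θ m) * x i j := by
  rw [PP, Matrix.diagonal_mul]
  rfl

theorem mul_PP_apply (θ : ℕ → ℕ → B →ₗ[ℂ] J) {κ μ : Type} [Fintype κ] [DecidableEq κ] (m : ℕ)
    (x : Matrix μ κ (Unitization ℂ J)) (i : μ) (j : κ) :
    (x * PP θ κ m) i j = x i j * inr J (pn θ m) := by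
  rw [PP, Matrix.mul_diagonal]
  rfl

theorem PP_idem (hLM2 : Stmt_LM2) (hθ : IsStab θ) (κ : Type) [Fintype κ] [DecidableEq κ] (m : ℕ) :
    PP θ κ m * PP θ κ m = PP θ κ m := by
  ext1 i j
  rw [PP_mul_apply]
  by_cases h : i = j
  · subst h
    have h1 : PP θ κ m i i = inr J (pn θ m) := by
      rw [PP, Matrix.diagonal_apply_eq]
      rfl
    rw [h1, ← map_mul, (hLM2 B J θ hθ).1]
  · have h1 : PP θ κ m i j = 0 := by rw [PP, Matrix.diagonal_apply_ne _ h]
    rw [h1, mul_zero]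

theorem norm_P (hLM2 : Stmt_LM2) (hθ : IsStab θ) (m : ℕ) : ‖inr J (pn θ m)‖ ≤ 1 := by
  show ‖((pn θ m : J) : Unitization ℂ J)‖ ≤ 1
  rw [Unitization.norm_inr]
  exact (hLM2 B J θ hθ).2.1 m

theorem comm_small (hLM2 : Stmt_LM2) (hθ : IsStab θ) (z : Unitization ℂ J) (δ : ℝ) (hδ : 0 < δ) :
    ∀ᶠ m in atTop, ‖z * inr J (pn θ m) - inr J (pn θ m) * z‖ < δ := by
  obtain ⟨n₀, hn₀⟩ := (hLM2 B J θ hθ).2.2 z.snd (δ / 2) (half_pos hδ)
  filter_upwards [eventually_ge_atTop n₀] with m hm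
  have h1 := hn₀ m hm
  have h2 : z * inr J (pn θ m) - inr J (pn θ m) * z =
      inr J (z.snd * pn θ m - pn θ m * z.snd) := by
    apply un_ext
    · show (z * inr J (pn θ m)).fst - (inr J (pn θ m) * z).fst = _
      rw [Unitization.fst_mul, Unitization.fst_mul, inr_fst, inr_fst,
        mul_zero, zero_mul, sub_zero]
    · show (z * inr J (pn θ m)).snd - (inr J (pn θ m) * z).snd = _
      rw [Unitization.snd_mul, Unitization.snd_mul, inr_fst, inr_snd, inr_snd,
        zero_smul]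
      abel
  rw [h2]
  show ‖((z.snd * pn θ m - pn θ m * z.snd : J) : Unitization ℂ J)‖ < δ
  rw [Unitization.norm_inr]
  have h3 : z.snd * pn θ m - pn θ m * z.snd =
      (z.snd * pn θ m - z.snd) - (pn θ m * z.snd - z.snd) := by abel
  rw [h3]
  refine (norm_sub_le _ _).trans_lt ?_
  linarith [h1.1, h1.2.1]

theorem approx (hLM2 : Stmt_LM2) (hθ : IsStab θ) {κ μ : Type} [Fintype κ] [DecidableEq κ]
    [Fintype μ] [DecidableEq μ] (x : Matrix κ μ (Unitization ℂ J))
    (y : Matrix μ κ (Unitization ℂ J)) (ε : ℝ) (hε : 0 < ε) :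
    ∀ᶠ m in atTop, ∀ i j,
      ‖(PP θ κ m * ((x * PP θ μ m - PP θ κ m * x) * y) * PP θ κ m) i j‖ < ε := by
  set M : ℝ := 1 + ∑ l, ∑ j, ‖y l j‖ with hM
  have hM0 : 0 ≤ ∑ l, ∑ j, ‖y l j‖ :=
    Finset.sum_nonneg fun l _ => Finset.sum_nonneg fun j _ => norm_nonneg _
  have hM1 : 0 < M := by linarith
  have h1 : ∀ᶠ m in atTop, ∀ i l,
      ‖x i l * inr J (pn θ m) - inr J (pn θ m) * x i l‖ < ε / M :=
    eventually_all.2 fun i => eventually_all.2 fun l =>
      comm_small hLM2 hθ (x i l) (ε / M) (div_pos hε hM1)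
  filter_upwards [h1] with m hm i j
  rw [mul_PP_apply, PP_mul_apply, Matrix.mul_apply]
  have hP := norm_P hLM2 hθ m
  have h2 : ‖∑ l, (x * PP θ μ m - PP θ κ m * x) i l * y l j‖ ≤
      ∑ l, ε / M * ‖y l j‖ := by
    refine (norm_sum_le _ _).trans (Finset.sum_le_sum fun l _ => ?_)
    refine (norm_mul_le _ _).trans (mul_le_mul_of_nonneg_right ?_ (norm_nonneg _))
    rw [Matrix.sub_apply, mul_PP_apply, PP_mul_apply]
    exact (hm i l).le
  have h3 : ∑ l, ε / M * ‖y l j‖ ≤ ε / M * ∑ l, ∑ j, ‖y l j‖ := by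
    rw [← Finset.mul_sum]
    apply mul_le_mul_of_nonneg_left _ (div_pos hε hM1).le
    apply Finset.sum_le_sum
    intro l _
    exact Finset.single_le_sum (f := fun j => ‖y l j‖) (fun j _ => norm_nonneg _)
      (Finset.mem_univ j)
  have h4 : ε / M * ∑ l, ∑ j, ‖y l j‖ < ε := by
    have h5 : ε / M * M = ε := div_mul_cancel₀ ε hM1.ne'
    have h6 : ε / M * ∑ l, ∑ j, ‖y l j‖ < ε / M * M :=
      mul_lt_mul_of_pos_left (by linarith) (div_pos hε hM1)
    linarith
  set W := ∑ l, (x * PP θ μ m - PP θ κ m * x) i l * y l j with hW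
  have h5 : ‖inr J (pn θ m) * W * inr J (pn θ m)‖ ≤ ‖W‖ := by
    calc ‖inr J (pn θ m) * W * inr J (pn θ m)‖ ≤ ‖inr J (pn θ m) * W‖ * ‖inr J (pn θ m)‖ :=
          norm_mul_le _ _
      _ ≤ ‖inr J (pn θ m) * W‖ * 1 := mul_le_mul_of_nonneg_left hP (norm_nonneg _)
      _ = ‖inr J (pn θ m) * W‖ := mul_one _
      _ ≤ ‖inr J (pn θ m)‖ * ‖W‖ := norm_mul_le _ _
      _ ≤ 1 * ‖W‖ := mul_le_mul_of_nonneg_right hP (norm_nonneg _)
      _ = ‖W‖ := one_mul _
  exact h5.trans_lt ((h2.trans h3).trans_lt h4)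

/-- the idempotent `mm E p ⊕ 1` -/
noncomputable def ee {α : Type} (θ : ℕ → ℕ → B →ₗ[ℂ] J) (β : Type) [DecidableEq β]
    (p : Matrix α α B) : Matrix (α ⊕ β) (α ⊕ β) (Unitization ℂ J) :=
  Matrix.fromBlocks (fun i j => inr J (θ 0 0 (p i j))) 0 0 1

theorem ee_comm (hθ : IsStab θ) {α β : Type} [Fintype α] [DecidableEq α] [Fintype β]
    [DecidableEq β] (p : Matrix α α B) (m : ℕ) (hm : 0 < m) :
    PP θ (α ⊕ β) m * ee θ β p = ee θ β p * PP θ (α ⊕ β) m := by
  ext1 i j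
  rw [PP_mul_apply, mul_PP_apply]
  rcases i with i | i <;> rcases j with j | j
  · show inr J (pn θ m) * inr J (θ 0 0 (p i j)) = inr J (θ 0 0 (p i j)) * inr J (pn θ m)
    rw [← map_mul, ← map_mul, theta_pn hθ m hm, pn_theta hθ m hm]
  · show inr J (pn θ m) * 0 = 0 * inr J (pn θ m)
    rw [mul_zero, zero_mul]
  · show inr J (pn θ m) * 0 = 0 * inr J (pn θ m)
    rw [mul_zero, zero_mul]
  · show inr J (pn θ m) * (1 : Matrix β β (Unitization ℂ J)) i j =
      (1 : Matrix β β (Unitization ℂ J)) i j * inr J (pn θ m)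
    rw [Matrix.one_apply]
    split_ifs
    · rw [mul_one, one_mul]
    · rw [mul_zero, zero_mul]

theorem ee_PP_inl (hθ : IsStab θ) {α β γ : Type} [Fintype α] [DecidableEq α] [Fintype β]
    [DecidableEq β] [Fintype γ] [DecidableEq γ] (p : Matrix α α B) (m : ℕ) (hm : 0 < m) :
    Matrix.fromBlocks (ee θ β p * PP θ (α ⊕ β) m) 0 0 (0 : Matrix γ γ (Unitization ℂ J)) =
      em θ (Sum.getLeft? : (α ⊕ β) ⊕ γ → Option (α ⊕ β)) m p := by
  ext1 i j
  rcases i with (i | i) | i <;> rcases j with (j | j) | j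
  · show (ee θ β p * PP θ (α ⊕ β) m) (Sum.inl i) (Sum.inl j) = inr J (θ 0 0 (p i j))
    rw [mul_PP_apply]
    show inr J (θ 0 0 (p i j)) * inr J (pn θ m) = _
    rw [← map_mul, theta_pn hθ m hm]
  · show (ee θ β p * PP θ (α ⊕ β) m) (Sum.inl i) (Sum.inr j) = 0
    rw [mul_PP_apply]
    show 0 * inr J (pn θ m) = 0
    rw [zero_mul]
  · rfl
  · show (ee θ β p * PP θ (α ⊕ β) m) (Sum.inr i) (Sum.inl j) = 0
    rw [mul_PP_apply]
    show 0 * inr J (pn θ m) = 0
    rw [zero_mul]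
  · show (ee θ β p * PP θ (α ⊕ β) m) (Sum.inr i) (Sum.inr j) =
      if i = j then inr J (pn θ m) else 0
    rw [mul_PP_apply]
    show (1 : Matrix β β (Unitization ℂ J)) i j * inr J (pn θ m) = _
    rw [Matrix.one_apply]
    split_ifs
    · rw [one_mul]
    · rw [zero_mul]
  · rfl
  · rfl
  · rfl
  · rfl

theorem ee_PP_inr (hθ : IsStab θ) {α β γ : Type} [Fintype α] [DecidableEq α] [Fintype β]
    [DecidableEq β] [Fintype γ] [DecidableEq γ] (p : Matrix α α B) (m : ℕ) (hm : 0 < m) :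
    Matrix.fromBlocks (0 : Matrix γ γ (Unitization ℂ J)) 0 0 (ee θ β p * PP θ (α ⊕ β) m) =
      em θ (Sum.getRight? : γ ⊕ (α ⊕ β) → Option (α ⊕ β)) m p := by
  ext1 i j
  rcases i with i | (i | i) <;> rcases j with j | (j | j)
  · rfl
  · rfl
  · rfl
  · rfl
  · show (ee θ β p * PP θ (α ⊕ β) m) (Sum.inl i) (Sum.inl j) = inr J (θ 0 0 (p i j))
    rw [mul_PP_apply]
    show inr J (θ 0 0 (p i j)) * inr J (pn θ m) = _
    rw [← map_mul, theta_pn hθ m hm]
  · show (ee θ β p * PP θ (α ⊕ β) m) (Sum.inl i) (Sum.inr j) = 0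
    rw [mul_PP_apply]
    show 0 * inr J (pn θ m) = 0
    rw [zero_mul]
  · rfl
  · show (ee θ β p * PP θ (α ⊕ β) m) (Sum.inr i) (Sum.inl j) = 0
    rw [mul_PP_apply]
    show 0 * inr J (pn θ m) = 0
    rw [zero_mul]
  · show (ee θ β p * PP θ (α ⊕ β) m) (Sum.inr i) (Sum.inr j) =
      if i = j then inr J (pn θ m) else 0
    rw [mul_PP_apply]
    show (1 : Matrix β β (Unitization ℂ J)) i j * inr J (pn θ m) = _
    rw [Matrix.one_apply]
    split_ifs
    · rw [one_mul]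
    · rw [zero_mul]

theorem ee_idem (hθ : IsStab θ) {α β : Type} [Fintype α] [Fintype β] [DecidableEq β]
    (p : Matrix α α B) (hp : p * p = p) : ee θ β p * ee θ β p = ee θ β p := by
  apply fromBlocks_idem _ (one_mul _)
  ext1 i j
  rw [Matrix.mul_apply]
  have h1 : ∀ l, inr J (θ 0 0 (p i l)) * inr J (θ 0 0 (p l j)) = inr J (θ 0 0 (p i l * p l j)) :=
    fun l => by rw [← map_mul, hθ.mul_same]
  simp only [h1]
  rw [← map_sum, ← map_sum]
  have h2 : ∑ l, p i l * p l j = p i j := by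
    have := congrFun (congrFun hp i) j
    rwa [Matrix.mul_apply] at this
  rw [h2]

theorem bl_sub {ι : Type} {m : ℕ} (x y : Matrix (ι × Fin m) (ι × Fin m) B) :
    bl θ (x - y) = bl θ x - bl θ y := by
  ext1 i j
  show inr J (∑ k : Fin m, ∑ l : Fin m, θ k l ((x - y) (i, k) (j, l))) =
    inr J (∑ k : Fin m, ∑ l : Fin m, θ k l (x (i, k) (j, l))) -
      inr J (∑ k : Fin m, ∑ l : Fin m, θ k l (y (i, k) (j, l)))
  rw [← map_sub]
  congr 1
  simp only [Matrix.sub_apply, map_sub, Finset.sum_sub_distrib]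

theorem bl_inj (hLM1 : Stmt_LM1) (hθ : IsStab θ) {ι : Type} [Fintype ι] [DecidableEq ι] {m : ℕ}
    {x y : Matrix (ι × Fin m) (ι × Fin m) B} (h : bl θ x = bl θ y) : x = y := by
  have h1 := (hLM1 B J θ hθ ι m).2.2.1 (x - y)
  ext ⟨i, k⟩ ⟨j, l⟩
  have h2 := h1 i k j l
  rw [bl_sub, h, sub_self] at h2
  have h3 : ‖((0 : Matrix ι ι (Unitization ℂ J)) i j).snd‖ = 0 := by
    show ‖(0 : Unitization ℂ J).snd‖ = 0
    rw [Unitization.snd_zero, norm_zero]
  rw [h3] at h2
  have h4 : (x - y) (i, k) (j, l) = 0 := norm_le_zero_iff.1 h2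
  rw [Matrix.sub_apply, sub_eq_zero] at h4
  exact h4

/-- the descent: an equivalence over `J^+` gives an equivalence over `B` -/
theorem descent (hAEQ : Stmt_AEQ) (hLM1 : Stmt_LM1) (hLM2 : Stmt_LM2) (hθ : IsStab θ)
    {α α' β : Type} [Fintype α] [DecidableEq α] [Fintype α'] [DecidableEq α'] [Fintype β]
    [DecidableEq β] (p : Matrix α α B) (hp : p * p = p) (p' : Matrix α' α' B) (hp' : p' * p' = p')
    (h : Eqv (ee θ β p) (ee θ β p')) : ∃ m : ℕ,
      Eqv (Matrix.fromBlocks p 0 0 (1 : Matrix (β × Fin m) (β × Fin m) B))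
        (Matrix.fromBlocks p' 0 0 (1 : Matrix (β × Fin m) (β × Fin m) B)) := by
  have hi := ee_idem (β := β) hθ p hp
  have hi' := ee_idem (β := β) hθ p' hp'
  obtain ⟨x, y, h1, h2, h3, h4, h5, h6⟩ := Eqv.normal hi hi' h
  obtain ⟨ε, hε, hA⟩ := hAEQ (Unitization ℂ J) (α ⊕ β) (α' ⊕ β)
  obtain ⟨m, hm, ha1, ha2⟩ := ((eventually_gt_atTop 0).and
    ((approx hLM2 hθ x y ε hε).and (approx hLM2 hθ y x ε hε))).exists
  refine ⟨m, ?_⟩
  have hc := ee_comm (β := β) hθ p m hm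
  have hc' := ee_comm (β := β) hθ p' m hm
  have hPP := PP_idem hLM2 hθ (α ⊕ β) m
  have hPP' := PP_idem hLM2 hθ (α' ⊕ β) m
  set e1 := ee θ β p with he1
  set e2 := ee θ β p' with he2
  set Q1 := PP θ (α ⊕ β) m with hQ1
  set Q2 := PP θ (α' ⊕ β) m with hQ2
  have hE1 : (e1 * Q1) * (e1 * Q1) = e1 * Q1 := by
    rw [Matrix.mul_assoc, ← Matrix.mul_assoc Q1, hc, Matrix.mul_assoc e1 Q1 Q1, hPP,
      ← Matrix.mul_assoc, hi]
  have hE2 : (e2 * Q2) * (e2 * Q2) = e2 * Q2 := by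
    rw [Matrix.mul_assoc, ← Matrix.mul_assoc Q2, hc', Matrix.mul_assoc e2 Q2 Q2, hPP',
      ← Matrix.mul_assoc, hi']
  have hEqv : Eqv (e1 * Q1) (e2 * Q2) := by
    apply hA (e1 * Q1) (e2 * Q2) (Q1 * x * Q2) (Q2 * y * Q1) hE1 hE2
    · calc e1 * Q1 * (Q1 * x * Q2) = e1 * (Q1 * Q1) * x * Q2 := by simp only [Matrix.mul_assoc]
        _ = Q1 * (e1 * x) * Q2 := by rw [hPP, ← hc]; simp only [Matrix.mul_assoc]
        _ = Q1 * x * Q2 := by rw [h3]
    · calc Q1 * x * Q2 * (e2 * Q2) = Q1 * x * (Q2 * e2) * Q2 := by simp only [Matrix.mul_assoc]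
        _ = Q1 * (x * e2) * (Q2 * Q2) := by rw [hc']; simp only [Matrix.mul_assoc]
        _ = Q1 * x * Q2 := by rw [h4, hPP']
    · calc e2 * Q2 * (Q2 * y * Q1) = e2 * (Q2 * Q2) * y * Q1 := by simp only [Matrix.mul_assoc]
        _ = Q2 * (e2 * y) * Q1 := by rw [hPP', ← hc']; simp only [Matrix.mul_assoc]
        _ = Q2 * y * Q1 := by rw [h5]
    · calc Q2 * y * Q1 * (e1 * Q1) = Q2 * y * (Q1 * e1) * Q1 := by simp only [Matrix.mul_assoc]
        _ = Q2 * (y * e1) * (Q1 * Q1) := by rw [hc]; simp only [Matrix.mul_assoc]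
        _ = Q2 * y * Q1 := by rw [h6, hPP]
    · intro i j
      have h7 : Q1 * x * Q2 * (Q2 * y * Q1) - e1 * Q1 =
          Q1 * ((x * Q2 - Q1 * x) * y) * Q1 := by
        have h8 : e1 * Q1 = Q1 * (Q1 * x) * y * Q1 := by
          calc e1 * Q1 = e1 * (Q1 * Q1) := by rw [hPP]
            _ = Q1 * e1 * Q1 := by rw [hc, Matrix.mul_assoc]
            _ = Q1 * Q1 * (x * y) * Q1 := by rw [hPP, h1]
            _ = Q1 * (Q1 * x) * y * Q1 := by simp only [Matrix.mul_assoc]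
        have h9 : Q1 * x * Q2 * (Q2 * y * Q1) = Q1 * (x * Q2) * y * Q1 := by
          calc Q1 * x * Q2 * (Q2 * y * Q1) = Q1 * x * (Q2 * Q2) * y * Q1 := by
                simp only [Matrix.mul_assoc]
            _ = Q1 * (x * Q2) * y * Q1 := by rw [hPP']; simp only [Matrix.mul_assoc]
        rw [h8, h9, Matrix.sub_mul, Matrix.mul_sub, Matrix.sub_mul]
        simp only [Matrix.mul_assoc]
      rw [h7]
      exact ha1 i j
    · intro i j
      have h7 : Q2 * y * Q1 * (Q1 * x * Q2) - e2 * Q2 =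
          Q2 * ((y * Q1 - Q2 * y) * x) * Q2 := by
        have h8 : e2 * Q2 = Q2 * (Q2 * y) * x * Q2 := by
          calc e2 * Q2 = e2 * (Q2 * Q2) := by rw [hPP']
            _ = Q2 * e2 * Q2 := by rw [hc', Matrix.mul_assoc]
            _ = Q2 * Q2 * (y * x) * Q2 := by rw [hPP', h2]
            _ = Q2 * (Q2 * y) * x * Q2 := by simp only [Matrix.mul_assoc]
        have h9 : Q2 * y * Q1 * (Q1 * x * Q2) = Q2 * (y * Q1) * x * Q2 := by
          calc Q2 * y * Q1 * (Q1 * x * Q2) = Q2 * y * (Q1 * Q1) * x * Q2 := by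
                simp only [Matrix.mul_assoc]
            _ = Q2 * (y * Q1) * x * Q2 := by rw [hPP]; simp only [Matrix.mul_assoc]
        rw [h8, h9, Matrix.sub_mul, Matrix.mul_sub, Matrix.sub_mul]
        simp only [Matrix.mul_assoc]
      rw [h7]
      exact ha2 i j
  obtain ⟨X, Y, k1, k2, k3, k4, k5, k6⟩ := Eqv.normal hE1 hE2 hEqv
  -- the two square matrices
  have hPPι : PP θ ((α ⊕ β) ⊕ (α' ⊕ β)) m = Matrix.fromBlocks Q1 0 0 Q2 := by
    ext1 i j
    rcases i with i | i <;> rcases j with j | j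
    · show PP θ ((α ⊕ β) ⊕ (α' ⊕ β)) m (Sum.inl i) (Sum.inl j) = Q1 i j
      rw [hQ1, PP, PP, Matrix.diagonal_apply, Matrix.diagonal_apply]
      simp only [Sum.inl.injEq]
    · show PP θ ((α ⊕ β) ⊕ (α' ⊕ β)) m (Sum.inl i) (Sum.inr j) = 0
      rw [PP, Matrix.diagonal_apply_ne _ (by simp)]
    · show PP θ ((α ⊕ β) ⊕ (α' ⊕ β)) m (Sum.inr i) (Sum.inl j) = 0
      rw [PP, Matrix.diagonal_apply_ne _ (by simp)]
    · show PP θ ((α ⊕ β) ⊕ (α' ⊕ β)) m (Sum.inr i) (Sum.inr j) = Q2 i j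
      rw [hQ2, PP, PP, Matrix.diagonal_apply, Matrix.diagonal_apply]
      simp only [Sum.inr.injEq]
  have hfst1 : ∀ i j, ((e1 * Q1) i j).fst = 0 := fun i j => by
    rw [hQ1, mul_PP_apply, Unitization.fst_mul, inr_fst, mul_zero]
  have hfst2 : ∀ i j, ((e2 * Q2) i j).fst = 0 := fun i j => by
    rw [hQ2, mul_PP_apply, Unitization.fst_mul, inr_fst, mul_zero]
  have hQX : Q1 * X * Q2 = X := by
    have e3 : Q1 * X = X := by
      calc Q1 * X = Q1 * (e1 * Q1 * X) := by rw [k3]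
        _ = (Q1 * e1) * Q1 * X := by simp only [Matrix.mul_assoc]
        _ = e1 * (Q1 * Q1) * X := by rw [hc]; simp only [Matrix.mul_assoc]
        _ = X := by rw [hPP, k3]
    have e4 : X * Q2 = X := by
      calc X * Q2 = X * (e2 * Q2) * Q2 := by rw [k4]
        _ = X * (e2 * (Q2 * Q2)) := by simp only [Matrix.mul_assoc]
        _ = X := by rw [hPP', k4]
    rw [e3, e4]
  have hQY : Q2 * Y * Q1 = Y := by
    have e3 : Q2 * Y = Y := by
      calc Q2 * Y = Q2 * (e2 * Q2 * Y) := by rw [k5]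
        _ = (Q2 * e2) * Q2 * Y := by simp only [Matrix.mul_assoc]
        _ = e2 * (Q2 * Q2) * Y := by rw [hc']; simp only [Matrix.mul_assoc]
        _ = Y := by rw [hPP', k5]
    have e4 : Y * Q1 = Y := by
      calc Y * Q1 = Y * (e1 * Q1) * Q1 := by rw [k6]
        _ = Y * (e1 * (Q1 * Q1)) := by simp only [Matrix.mul_assoc]
        _ = Y := by rw [hPP, k6]
    rw [e3, e4]
  have hXfst : ∀ i j, (X i j).fst = 0 := fun i j => by
    have h7 := congrArg (fun M : Matrix (α ⊕ β) (α' ⊕ β) (Unitization ℂ J) => aug J (M i j)) k3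
    have h8 : aug J ((e1 * Q1 * X) i j) = 0 := by
      rw [Matrix.mul_apply, map_sum]
      apply Finset.sum_eq_zero
      intro l _
      rw [map_mul, aug_apply, hfst1, zero_mul]
    have h9 : aug J ((e1 * Q1 * X) i j) = aug J (X i j) := h7
    rw [h8] at h9
    exact h9.symm
  have hYfst : ∀ i j, (Y i j).fst = 0 := fun i j => by
    have h7 := congrArg (fun M : Matrix (α' ⊕ β) (α ⊕ β) (Unitization ℂ J) => aug J (M i j)) k5
    have h8 : aug J ((e2 * Q2 * Y) i j) = 0 := by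
      rw [Matrix.mul_apply, map_sum]
      apply Finset.sum_eq_zero
      intro l _
      rw [map_mul, aug_apply, hfst2, zero_mul]
    have h9 : aug J ((e2 * Q2 * Y) i j) = aug J (Y i j) := h7
    rw [h8] at h9
    exact h9.symm
  have hL := hLM1 B J θ hθ ((α ⊕ β) ⊕ (α' ⊕ β)) m
  obtain ⟨a, ha⟩ := hL.2.2.2.2 (Matrix.fromBlocks 0 X 0 0) (by
      rintro (i | i) (j | j)
      · rfl
      · exact hXfst i j
      · rfl
      · rfl)
    (by rw [hPPι, Matrix.fromBlocks_multiply, Matrix.fromBlocks_multiply]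
        simp [hQX])
  obtain ⟨b, hb⟩ := hL.2.2.2.2 (Matrix.fromBlocks 0 0 Y 0) (by
      rintro (i | i) (j | j)
      · rfl
      · rfl
      · exact hYfst i j
      · rfl)
    (by rw [hPPι, Matrix.fromBlocks_multiply, Matrix.fromBlocks_multiply]
        simp [hQY])
  have hab : a * b = cm (Sum.getLeft? : (α ⊕ β) ⊕ (α' ⊕ β) → Option (α ⊕ β)) m p := by
    apply bl_inj hLM1 hθ
    rw [hL.1, ha, hb, bl_cm θ _ m hm, ← ee_PP_inl hθ p m hm, Matrix.fromBlocks_multiply]
    simp [k1, he1, hQ1]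
  have hba : b * a = cm (Sum.getRight? : (α ⊕ β) ⊕ (α' ⊕ β) → Option (α' ⊕ β)) m p' := by
    apply bl_inj hLM1 hθ
    rw [hL.1, ha, hb, bl_cm θ _ m hm, ← ee_PP_inr hθ p' m hm, Matrix.fromBlocks_multiply]
    simp [k2, he2, hQ2]
  have hl := cm_eqv (B := B) Sum.inl (Sum.getLeft? : (α ⊕ β) ⊕ (α' ⊕ β) → Option (α ⊕ β))
    (fun k => rfl) (by rintro (u | u) k hk <;> simp at hk; rw [hk]) m hm p hp
  have hr := cm_eqv (B := B) Sum.inr (Sum.getRight? : (α ⊕ β) ⊕ (α' ⊕ β) → Option (α' ⊕ β))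
    (fun k => rfl) (by rintro (u | u) k hk <;> simp at hk; rw [hk]) m hm p' hp'
  have hg : Matrix.fromBlocks p 0 0 (1 : Matrix (β × Fin m) (β × Fin m) B) *
      Matrix.fromBlocks p 0 0 (1 : Matrix (β × Fin m) (β × Fin m) B) =
      Matrix.fromBlocks p 0 0 (1 : Matrix (β × Fin m) (β × Fin m) B) :=
    fromBlocks_idem hp (one_mul _)
  have hg' : Matrix.fromBlocks p' 0 0 (1 : Matrix (β × Fin m) (β × Fin m) B) *
      Matrix.fromBlocks p' 0 0 (1 : Matrix (β × Fin m) (β × Fin m) B) =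
      Matrix.fromBlocks p' 0 0 (1 : Matrix (β × Fin m) (β × Fin m) B) :=
    fromBlocks_idem hp' (one_mul _)
  have hmid : Eqv (cm (Sum.getLeft? : (α ⊕ β) ⊕ (α' ⊕ β) → Option (α ⊕ β)) m p)
      (cm (Sum.getRight? : (α ⊕ β) ⊕ (α' ⊕ β) → Option (α' ⊕ β)) m p') := ⟨a, b, hab, hba⟩
  exact Eqv.trans hg hg' (Eqv.trans hg hr.1 hl.2.symm hmid) hr.2

end stab

end IN0_

theorem in0_proof (hCR0 : Stmt_CR0) (hAEQ : Stmt_AEQ) (hLM1 : Stmt_LM1) (hLM2 : Stmt_LM2) :
    Stmt_IN0 := by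
  intro B J _ _ θ e hθ he
  rw [injective_iff_map_eq_zero]
  intro y hy
  obtain ⟨N, r, p, hp, rfl⟩ := K0.exists_sub y
  rw [map_sub, K0.map_c0, K0.map_c0, sub_eq_zero] at hy
  obtain ⟨k, hk⟩ := hCR0 _ _ _ _ _ _ _ hy
  have hE : ∀ (n : ℕ) (q : Matrix (Fin n) (Fin n) B),
      Matrix.fromBlocks (mm ((inr J).comp (e : B →ₙ+* J)) q) 0 0
        (1 : Matrix (Fin k) (Fin k) (Unitization ℂ J)) = IN0_.ee θ (Fin k) q := by
    intro n q
    unfold IN0_.ee
    congr 1
    ext1 i j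
    show inr J (e (q i j)) = inr J (θ 0 0 (q i j))
    rw [he]
  rw [hE, hE] at hk
  obtain ⟨m, hm⟩ := IN0_.descent hAEQ hLM1 hLM2 hθ p hp 1 (one_mul _) hk
  have h1 := c0_eq (fromBlocks_idem hp (one_mul _)) (fromBlocks_idem (one_mul _) (one_mul _)) hm
  rw [c0_sum hp (one_mul _), c0_sum (one_mul _) (one_mul _)] at h1
  exact sub_eq_zero.2 (add_right_cancel h1)

end Pool.Agent.KCH
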