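import Pool.Agent.KCH.KStmts

set_option autoImplicit false

namespace Pool.Agent.KCH

open TopologicalSpace

namespace IN1_

/-- a matrix which is `g - 1` on the image of an injection and zero elsewhere -/
theorem c1_corner (hK1A : Stmt_K1A) {B : Type} [CStarAlgebra B] {ι κ : Type} [Fintype ι]
    [DecidableEq ι] [Fintype κ] [DecidableEq κ] (f : ι → κ) (hf : Function.Injective f)
    (g : Matrix ι ι B) (hg : IsUnit g) (M : Matrix κ κ B)
    (h1 : ∀ i j, M (f i) (f j) = (g - 1) i j)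
    (h2 : ∀ p q, p ∉ Set.range f → M p q = 0) (h3 : ∀ p q, q ∉ Set.range f → M p q = 0)
    (hM : IsUnit (1 + M)) : c1 (1 + M) hM = c1 g hg := by
  classical
  obtain ⟨hR, -, hS, -, h0, -, -⟩ := hK1A B
  let s : Set κ := Set.range f
  let σ : ι ⊕ ↥(sᶜ) ≃ κ :=
    (Equiv.sumCongr (Equiv.ofInjective f hf) (Equiv.refl _)).trans (Equiv.Set.sumCompl s)
  have hσl : ∀ i, σ (Sum.inl i) = f i := fun i => rfl
  have hσr : ∀ x : ↥(sᶜ), σ (Sum.inr x) = x.1 := fun x => rfl
  have key : Matrix.reindex σ σ (Matrix.fromBlocks g 0 0 (1 : Matrix ↥(sᶜ) ↥(sᶜ) B)) = 1 + M := by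
    ext p q
    obtain ⟨p, rfl⟩ := σ.surjective p
    obtain ⟨q, rfl⟩ := σ.surjective q
    rw [Matrix.reindex_apply, Matrix.submatrix_apply, Equiv.symm_apply_apply,
      Equiv.symm_apply_apply, Matrix.add_apply]
    have hone : (1 : Matrix κ κ B) (σ p) (σ q) = (1 : Matrix (ι ⊕ ↥(sᶜ)) (ι ⊕ ↥(sᶜ)) B) p q := by
      rw [Matrix.one_apply, Matrix.one_apply]
      simp only [σ.injective.eq_iff]
    rw [hone]
    rcases p with i | x <;> rcases q with j | y
    · rw [hσl, hσl, h1, Matrix.fromBlocks_apply₁₁, ← Matrix.fromBlocks_one,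
        Matrix.fromBlocks_apply₁₁, Matrix.sub_apply]
      abel
    · rw [hσr, h3 _ _ y.2, Matrix.fromBlocks_apply₁₂, ← Matrix.fromBlocks_one,
        Matrix.fromBlocks_apply₁₂, add_zero]
    · rw [hσr, h2 _ _ x.2, Matrix.fromBlocks_apply₂₁, ← Matrix.fromBlocks_one,
        Matrix.fromBlocks_apply₂₁, add_zero]
    · rw [hσr, h2 _ _ x.2, Matrix.fromBlocks_apply₂₂, ← Matrix.fromBlocks_one,
        Matrix.fromBlocks_apply₂₂, add_zero]
  obtain ⟨hu, e1⟩ := hS ι ↥(sᶜ) g 1 hg isUnit_one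
  obtain ⟨hv, e2⟩ := hR (ι ⊕ ↥(sᶜ)) κ σ _ hu
  rw [h0, add_zero] at e1
  rw [← c1_congr key hv hM, e2, e1]

section
variable {B J : Type} [CStarAlgebra B] [NonUnitalCStarAlgebra J]

theorem bl_sub (θ : ℕ → ℕ → B →ₗ[ℂ] J) {ι : Type} {n : ℕ}
    (x y : Matrix (ι × Fin n) (ι × Fin n) B) : bl θ (x - y) = bl θ x - bl θ y := by
  refine Matrix.ext fun i j => ?_
  show ((∑ k : Fin n, ∑ l : Fin n, θ k l ((x - y) (i, k) (j, l)) : J) : Unitization ℂ J) =
    ((∑ k : Fin n, ∑ l : Fin n, θ k l (x (i, k) (j, l)) : J) : Unitization ℂ J) -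
    ((∑ k : Fin n, ∑ l : Fin n, θ k l (y (i, k) (j, l)) : J) : Unitization ℂ J)
  rw [← Unitization.inr_sub, ← Finset.sum_sub_distrib]
  congr 1
  apply Finset.sum_congr rfl
  intro k _
  rw [← Finset.sum_sub_distrib]
  apply Finset.sum_congr rfl
  intro l _
  rw [Matrix.sub_apply, map_sub]

theorem sca_sca (x : Unitization ℂ J) : sca J (sca J x) = sca J x := by
  rw [sca_apply, sca_apply, scalar_fst]

theorem sca_one : sca J 1 = 1 := by
  rw [sca_apply]
  show algebraMap ℂ (Unitization ℂ J) 1 = 1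
  exact map_one _

theorem sca_inr (a : J) : sca J (inr J a) = 0 := by
  rw [sca_apply, inr_fst, map_zero]

theorem sca_continuous : Continuous (sca J) := by
  show Continuous fun x : Unitization ℂ J => algebraMap ℂ (Unitization ℂ J) (aug J x)
  exact (algebraMapCLM ℂ (Unitization ℂ J)).continuous.comp (aug_continuous J)

/-- normalisation of a path of invertible matrices: the scalar part becomes `1` -/
theorem normalise (hMTB : Stmt_MTB) {ι : Type} [Fintype ι] [DecidableEq ι]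
    (h : ℝ → Matrix ι ι (Unitization ℂ J)) (hc : Continuous h) (hu : ∀ t, IsUnit (h t)) :
    ∃ h' : ℝ → Matrix ι ι (Unitization ℂ J), Continuous h' ∧ (∀ t, IsUnit (h' t)) ∧
      (∀ t, mm (aug J) (h' t) = 1) ∧ ∀ t, mm (sca J) (h t) = 1 → h' t = h t := by
  obtain ⟨-, hinv, -⟩ := hMTB (Unitization ℂ J) ι
  have hs : ∀ t, IsUnit (mm (sca J) (h t)) := fun t => mm_isUnit (sca J) sca_one (hu t)
  have hsc : Continuous fun t => mm (sca J) (h t) := by
    apply continuous_matrix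
    intro i j
    exact sca_continuous.comp (hc.matrix_elem i j)
  refine ⟨fun t => h t * Ring.inverse (mm (sca J) (h t)), ?_, ?_, ?_, ?_⟩
  · exact hc.matrix_mul (hinv.comp_continuous hsc hs)
  · intro t
    exact (hu t).mul (hs t).ringInverse
  · intro t
    obtain ⟨u, hu'⟩ := hs t
    have e1 : mm (sca J) (h t * Ring.inverse (mm (sca J) (h t))) = 1 := by
      rw [← hu', Ring.inverse_unit, mm_mul, ← hu']
      have e2 : (u : Matrix ι ι (Unitization ℂ J)) = mm (sca J) (u : Matrix ι ι _) := by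
        rw [hu']
        refine Matrix.ext fun i j => ?_
        rw [mm_apply, mm_apply, mm_apply, sca_sca]
      have e3 : mm (sca J) ((u : Matrix ι ι (Unitization ℂ J)) *
          ((u⁻¹ : (Matrix ι ι (Unitization ℂ J))ˣ) : Matrix ι ι (Unitization ℂ J))) = 1 := by
        rw [u.mul_inv, mm_one (sca J) sca_one]
      rw [mm_mul, ← e2] at e3
      exact e3
    refine Matrix.ext fun i j => ?_
    have e4 : (mm (sca J) (h t * Ring.inverse (mm (sca J) (h t))) i j).fst =
        ((1 : Matrix ι ι (Unitization ℂ J)) i j).fst := by rw [e1]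
    rw [mm_apply, sca_apply, scalar_fst] at e4
    show ((h t * Ring.inverse (mm (sca J) (h t))) i j).fst = _
    rw [e4, Matrix.one_apply, Matrix.one_apply]
    split_ifs
    · rfl
    · rfl
  · intro t ht
    show h t * Ring.inverse (mm (sca J) (h t)) = h t
    rw [ht, Ring.inverse_one, mul_one]

end

end IN1_

open IN1_ in
theorem in1_proof (hMTB : Stmt_MTB) (hUOP : Stmt_UOP) (hK1A : Stmt_K1A) (hCR1 : Stmt_CR1)
    (hLM1 : Stmt_LM1) (hBLU : Stmt_BLU) (hUCP : Stmt_UCP) : Stmt_IN1 := by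
  classical
  intro B J _ _ θ e he hθ heθ
  rw [injective_iff_map_eq_zero]
  intro y hy
  obtain ⟨-, hJn, -, -, h0, -, hex⟩ := hK1A B
  obtain ⟨N, g, hg, rfl⟩ := hex y
  rw [K1.map_c1] at hy
  have hEsca : ∀ b, sca J (((inr J).comp (e : B →ₙ+* J)) b) = 0 := fun b => sca_inr (e b)
  have hEe : ∀ b, ((inr J).comp (e : B →ₙ+* J)) b = ((e b : J) : Unitization ℂ J) := fun b => rfl
  generalize (inr J).comp (e : B →ₙ+* J) = E at he hy hEsca hEe
  obtain ⟨k, hk⟩ := hCR1 (Unitization ℂ J) N _ _ hy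
  obtain ⟨γ, hγ⟩ := hk
  -- the extended path
  obtain ⟨h, hc, hu, haug, heq⟩ := normalise (J := J) hMTB (fun t : ℝ => γ.extend t)
    γ.continuous_extend (fun t => by
      obtain ⟨s, hs⟩ : γ.extend t ∈ Set.range γ := by
        rw [← Path.extend_range]; exact Set.mem_range_self t
      rw [← hs]
      exact hγ s)
  have hfb0 : γ.extend 0 = Matrix.fromBlocks (m1 E g) 0 0 (1 : Matrix (Fin k) (Fin k) _) :=
    γ.extend_zero
  have hfb1 : γ.extend 1 = 1 := γ.extend_one
  have hm : mm (sca J) (m1 E g) = 1 := by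
    rw [m1, mm_add, mm_one (sca J) sca_one]
    have : mm (sca J) (mm E (g - 1)) = 0 := by
      refine Matrix.ext fun i j => ?_
      rw [mm_apply, mm_apply, hEsca]
      rfl
    rw [this, add_zero]
  have hh0 : h 0 = Matrix.fromBlocks (m1 E g) 0 0 (1 : Matrix (Fin k) (Fin k) _) := by
    rw [← hfb0]
    apply heq
    show mm (sca J) (γ.extend 0) = 1
    rw [hfb0, mm_fromBlocks, hm, mm_zero, mm_zero, mm_one (sca J) sca_one,
      Matrix.fromBlocks_one]
  have hh1 : h 1 = 1 := by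
    rw [← hfb1]
    apply heq
    show mm (sca J) (γ.extend 1) = 1
    rw [hfb1, mm_one (sca J) sca_one]
  -- the path `a`
  let a : ℝ → Matrix (Fin N ⊕ Fin k) (Fin N ⊕ Fin k) (Unitization ℂ J) := fun t => h t - 1
  have hac : Continuous a := hc.sub continuous_const
  have haug' : ∀ t, mm (aug J) (a t) = 0 := by
    intro t
    show mm (aug J) (h t - 1) = 0
    rw [mm_sub, haug, mm_one (aug J) aug_one, sub_self]
  have haf : ∀ t i j, (a t i j).fst = 0 := fun t i j => congrFun (congrFun (haug' t) i) j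
  obtain ⟨ε, hε, hUO⟩ := hUOP (Unitization ℂ J) (Fin N ⊕ Fin k) h hc (fun t _ => hu t)
  obtain ⟨n₀, hn₀⟩ := hUCP B J θ hθ (Fin N ⊕ Fin k) a hac haf ε hε
  have hn := hn₀ (n₀ + 1) (Nat.le_succ _)
  obtain ⟨hmul, hone, hnorm, -, hsurj⟩ := hLM1 B J θ hθ (Fin N ⊕ Fin k) (n₀ + 1)
  set P : Matrix (Fin N ⊕ Fin k) (Fin N ⊕ Fin k) (Unitization ℂ J) :=
    PP θ (Fin N ⊕ Fin k) (n₀ + 1) with hP
  have hPP : P * P = P := by rw [← hone, ← hmul, one_mul]
  have hb : ∀ t, ∃ x : Matrix ((Fin N ⊕ Fin k) × Fin (n₀ + 1)) ((Fin N ⊕ Fin k) × Fin (n₀ + 1)) B,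
      bl θ x = P * a t * P := by
    intro t
    apply hsurj
    · intro i j
      have : mm (aug J) (P * a t * P) = 0 := by
        rw [mm_mul, mm_mul, haug', Matrix.mul_zero, Matrix.zero_mul]
      exact congrFun (congrFun this i) j
    · rw [show P * (P * a t * P) * P = (P * P) * a t * (P * P) by
        simp only [Matrix.mul_assoc], hPP]
  choose b hb using hb
  have hinj : ∀ x x' : Matrix ((Fin N ⊕ Fin k) × Fin (n₀ + 1))
      ((Fin N ⊕ Fin k) × Fin (n₀ + 1)) B, ∀ p q,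
      ‖x p q - x' p q‖ ≤ ‖(bl θ x p.1 q.1).snd - (bl θ x' p.1 q.1).snd‖ := by
    intro x x' p q
    have := hnorm (x - x') p.1 p.2 q.1 q.2
    rw [bl_sub] at this
    exact this
  have hinj' : ∀ x x' : Matrix ((Fin N ⊕ Fin k) × Fin (n₀ + 1))
      ((Fin N ⊕ Fin k) × Fin (n₀ + 1)) B, bl θ x = bl θ x' → x = x' := by
    intro x x' hxx
    ext p q
    have := hinj x x' p q
    rw [hxx, sub_self, norm_zero] at this
    exact sub_eq_zero.1 (norm_le_zero_iff.1 this)
  have hbc : Continuous b := by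
    apply continuous_matrix
    intro p q
    have hF : Continuous fun t => ((P * a t * P) p.1 q.1).snd :=
      Unitization.continuous_snd.comp
        (((continuous_const.matrix_mul hac).matrix_mul continuous_const).matrix_elem p.1 q.1)
    rw [Metric.continuous_iff] at hF ⊢
    intro t δ hδ
    obtain ⟨η, hη, hF'⟩ := hF t δ hδ
    refine ⟨η, hη, fun s hs => lt_of_le_of_lt ?_ (hF' s hs)⟩
    rw [dist_eq_norm, dist_eq_norm]
    have := hinj (b s) (b t) p q
    rw [hb, hb] at this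
    exact this
  have hbu : ∀ t ∈ Set.Icc (0 : ℝ) 1, IsUnit (1 + b t) := by
    intro t ht
    rw [← hBLU B J θ hθ, hb]
    apply hUO t ht
    intro i j
    have := hn t ht i j
    have e1 : (1 + P * a t * P) i j - h t i j = (P * a t * P) i j - a t i j := by
      show (1 + P * a t * P) i j - h t i j = (P * a t * P) i j - (h t - 1) i j
      rw [Matrix.add_apply, Matrix.sub_apply]
      abel
    rw [e1]
    exact this
  have hjoin : Jn (1 + b 0) (1 + b 1) :=
    joinedIn_of_continuousOn (fun t => 1 + b t) (continuous_const.add hbc).continuousOn hbu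
  have hb1 : b 1 = 0 := by
    apply hinj'
    have ha1 : a 1 = 0 := by
      show h 1 - 1 = 0
      rw [hh1, sub_self]
    rw [hb, ha1, Matrix.mul_zero, Matrix.zero_mul]
    have := bl_sub θ (0 : Matrix ((Fin N ⊕ Fin k) × Fin (n₀ + 1))
      ((Fin N ⊕ Fin k) × Fin (n₀ + 1)) B) 0
    rw [sub_self, sub_self] at this
    exact this.symm
  -- the start of the path
  let G : Matrix (Fin N ⊕ Fin k) (Fin N ⊕ Fin k) B := Matrix.fromBlocks (g - 1) 0 0 0
  let b₀ : Matrix ((Fin N ⊕ Fin k) × Fin (n₀ + 1)) ((Fin N ⊕ Fin k) × Fin (n₀ + 1)) B :=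
    fun p q => if p.2 = 0 ∧ q.2 = 0 then G p.1 q.1 else 0
  have hblb : bl θ b₀ = a 0 := by
    have ha0 : a 0 = mm E G := by
      show h 0 - 1 = mm E (Matrix.fromBlocks (g - 1) 0 0 0)
      rw [hh0, mm_fromBlocks, mm_zero, mm_zero, mm_zero, m1, ← Matrix.fromBlocks_one,
        sub_eq_add_neg, Matrix.fromBlocks_neg, Matrix.fromBlocks_add, ← sub_eq_add_neg,
        ← sub_eq_add_neg, sub_self, add_sub_cancel_left, neg_zero, add_zero, ← sub_eq_add_neg,
        sub_self]
    rw [ha0]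
    refine Matrix.ext fun i j => ?_
    rw [mm_apply, hEe]
    show ((∑ r : Fin (n₀ + 1), ∑ l : Fin (n₀ + 1), θ r l (b₀ (i, r) (j, l)) : J) :
      Unitization ℂ J) = ((e (G i j) : J) : Unitization ℂ J)
    congr 1
    rw [Finset.sum_eq_single (0 : Fin (n₀ + 1)), Finset.sum_eq_single (0 : Fin (n₀ + 1))]
    · rw [heθ]
      have : b₀ (i, 0) (j, 0) = G i j := if_pos ⟨rfl, rfl⟩
      rw [this]
      rfl
    · intro l _ hl
      have : b₀ (i, 0) (j, l) = 0 := if_neg fun hh => hl hh.2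
      rw [this, map_zero]
    · intro hh; exact absurd (Finset.mem_univ _) hh
    · intro r _ hr
      apply Finset.sum_eq_zero
      intro l _
      have : b₀ (i, r) (j, l) = 0 := if_neg fun hh => hr hh.1
      rw [this, map_zero]
    · intro hh; exact absurd (Finset.mem_univ _) hh
  have hb0 : b 0 = b₀ := by
    apply hinj'
    rw [hb, ← hblb, ← hone, ← hmul, ← hmul, one_mul, mul_one]
  have hu0 : IsUnit (1 + b 0) := hbu 0 ⟨le_refl _, zero_le_one⟩
  have hu1 : IsUnit (1 + b 1) := hbu 1 ⟨zero_le_one, le_refl _⟩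
  have hu0' : IsUnit (1 + b₀) := by rw [← hb0]; exact hu0
  have hcorner : c1 (1 + b₀) hu0' = c1 g hg := by
    apply c1_corner hK1A (fun i : Fin N => ((Sum.inl i : Fin N ⊕ Fin k), (0 : Fin (n₀ + 1))))
    · intro i i' hii
      simpa using hii
    · intro i j
      show (if (0 : Fin (n₀ + 1)) = 0 ∧ (0 : Fin (n₀ + 1)) = 0 then
        G (Sum.inl i) (Sum.inl j) else 0) = (g - 1) i j
      rw [if_pos ⟨rfl, rfl⟩]
      rfl
    · rintro ⟨p1, p2⟩ ⟨q1, q2⟩ hp
      show (if p2 = 0 ∧ q2 = 0 then G p1 q1 else 0) = 0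
      split_ifs with hh
      · rcases p1 with i | i
        · exact absurd ⟨i, by rw [hh.1]⟩ hp
        · rcases q1 with j | j <;> rfl
      · rfl
    · rintro ⟨p1, p2⟩ ⟨q1, q2⟩ hp
      show (if p2 = 0 ∧ q2 = 0 then G p1 q1 else 0) = 0
      split_ifs with hh
      · rcases q1 with i | i
        · exact absurd ⟨i, by rw [hh.2]⟩ hp
        · rcases p1 with j | j <;> rfl
      · rfl
  rw [← hcorner, ← c1_congr (congrArg (1 + ·) hb0) hu0 hu0', hJn _ _ _ hu0 hu1 hjoin,
    c1_congr (by rw [hb1, add_zero]) hu1 isUnit_one, h0]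

end Pool.Agent.KCH
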