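import Pool.Agent.KCH.RStmts

/-!
# Squad KCH: module ITR (iterates)
-/

set_option autoImplicit false

namespace Pool.Agent.KCH

open TopologicalSpace

namespace ITR_

section
variable {B : Type} [CStarAlgebra B]

theorem Lam_sub (u s : B) (M : ℕ) (t : ℤ → ℝ) (x y : B) :
    Lam u s M t (x - y) = Lam u s M t x - Lam u s M t y := by
  unfold Lam
  rw [← Finset.sum_sub_distrib]
  refine Finset.sum_congr rfl fun k _ => ?_
  rw [← smul_sub, mul_sub, sub_mul]

theorem itL_succ (u s : B) (M : ℕ) (h : ℤ → ℝ) (k : ℕ) (y : B) :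
    itL u s M h (k + 1) y = Lam u s M (fun k => h k ^ 2) (itL u s M h k y) := by
  unfold itL
  rw [Function.iterate_succ_apply']

theorem itL_succ' (u s : B) (M : ℕ) (h : ℤ → ℝ) (k : ℕ) (y : B) :
    itL u s M h (k + 1) y = itL u s M h k (Lam u s M (fun k => h k ^ 2) y) := by
  unfold itL
  rw [Function.iterate_succ_apply]

theorem itL_zero (u s : B) (M : ℕ) (h : ℤ → ℝ) (y : B) :
    itL u s M h 0 y = y := rfl

theorem itL_sub (u s : B) (M : ℕ) (h : ℤ → ℝ) (k : ℕ) (x y : B) :
    itL u s M h k (x - y) = itL u s M h k x - itL u s M h k y := by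
  induction k with
  | zero => rfl
  | succ k ih => rw [itL_succ, itL_succ, itL_succ, ih, Lam_sub]

theorem sq_abs_le {M : ℕ} {h : ℤ → ℝ} (hw : Wt h M) (k : ℤ) : |h k ^ 2| ≤ 1 := by
  rw [abs_of_nonneg (sq_nonneg _)]
  have h1 := hw.nonneg k
  have h2 := hw.le_one k
  nlinarith

theorem itL_norm (hLMB : Stmt_LMB) {u s : B} (hr : Rel u s) {M : ℕ} {h : ℤ → ℝ} (hw : Wt h M)
    (k : ℕ) (y : B) : ‖itL u s M h k y‖ ≤ ‖y‖ := by
  induction k with
  | zero => exact le_rfl
  | succ k ih =>
    rw [itL_succ]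
    have h1 := hLMB B u s hr M (fun k => h k ^ 2) 1 (itL u s M h k y) zero_le_one
      (fun k => sq_abs_le hw k)
    linarith

theorem norm_one_le : ‖(1 : B)‖ ≤ 1 := by
  rcases subsingleton_or_nontrivial B with hs | hn
  · have : (1 : B) = 0 := Subsingleton.elim _ _
    rw [this, norm_zero]
    exact zero_le_one
  · exact le_of_eq CStarRing.norm_one

end

section
variable {B : Type} [CStarAlgebra B]

attribute [local instance] CStarAlgebra.spectralOrder CStarAlgebra.spectralOrderedRing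

theorem smul_nn {r : ℝ} (hr : 0 ≤ r) {x : B} (hx : 0 ≤ x) : 0 ≤ ((r : ℝ) : ℂ) • x := by
  have h : ((r : ℝ) : ℂ) • x = r • x := by
    rw [Complex.coe_smul]
  rw [h]
  exact smul_nonneg hr hx

theorem Lam_nonneg (u s : B) (M : ℕ) (t : ℤ → ℝ) (ht : ∀ k, 0 ≤ t k) {y : B} (hy : 0 ≤ y) :
    0 ≤ Lam u s M t y := by
  unfold Lam
  exact Finset.sum_nonneg fun k _ => smul_nn (ht k) (star_right_conjugate_nonneg hy _)

theorem itL_nonneg (u s : B) (M : ℕ) (h : ℤ → ℝ) (k : ℕ) {y : B} (hy : 0 ≤ y) :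
    0 ≤ itL u s M h k y := by
  induction k with
  | zero => exact hy
  | succ k ih =>
    rw [itL_succ]
    exact Lam_nonneg u s M _ (fun k => sq_nonneg _) ih

theorem norm_le_of {a : B} {c : ℝ} (hc : 0 ≤ c) (ha : IsSelfAdjoint a)
    (h1 : a ≤ algebraMap ℝ B c) (h2 : algebraMap ℝ B (-c) ≤ a) : ‖a‖ ≤ c := by
  rcases subsingleton_or_nontrivial B with hs | hn
  · have : a = 0 := Subsingleton.elim _ _
    rw [this, norm_zero]
    exact hc
  · rw [le_algebraMap_iff_spectrum_le ha] at h1
    rw [algebraMap_le_iff_le_spectrum ha] at h2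
    rcases CStarAlgebra.norm_or_neg_norm_mem_spectrum (a := a) ha with h | h
    · exact h1 _ h
    · have := h2 _ h
      linarith

theorem sum_bound {N : ℕ} {q : ℕ → B} (hq : ∀ k, 0 ≤ q k)
    (hs : ∑ k ∈ Finset.range N, q k ≤ 1) (t : ℕ → ℝ) (c : ℝ) (hc : 0 ≤ c)
    (ht : ∀ k, |t k| ≤ c) :
    ‖∑ k ∈ Finset.range N, ((t k : ℝ) : ℂ) • q k‖ ≤ c := by
  have hsm : ∀ (r : ℝ) (x : B), ((r : ℝ) : ℂ) • x = r • x := fun r x => Complex.coe_smul r x
  have hcs : c • ∑ k ∈ Finset.range N, q k ≤ algebraMap ℝ B c := by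
    rw [Algebra.algebraMap_eq_smul_one]
    exact smul_le_smul_of_nonneg_left hs hc
  apply norm_le_of hc
  · rw [IsSelfAdjoint, star_sum]
    refine Finset.sum_congr rfl fun k _ => ?_
    rw [star_smul, (hq k).isSelfAdjoint.star_eq]
    congr 1
    exact Complex.conj_ofReal _
  · refine le_trans ?_ hcs
    rw [Finset.smul_sum]
    refine Finset.sum_le_sum fun k _ => ?_
    rw [hsm]
    exact smul_le_smul_of_nonneg_right ((le_abs_self _).trans (ht k)) (hq k)
  · have h3 : algebraMap ℝ B (-c) ≤ -(c • ∑ k ∈ Finset.range N, q k) := by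
      rw [map_neg]
      exact neg_le_neg hcs
    refine le_trans h3 ?_
    rw [Finset.smul_sum, ← Finset.sum_neg_distrib]
    refine Finset.sum_le_sum fun k _ => ?_
    rw [hsm, ← neg_smul]
    refine smul_le_smul_of_nonneg_right ?_ (hq k)
    have := ht k
    rw [abs_le] at this
    exact this.1

end

end ITR_

open ITR_

theorem itr_proof (hPWR : Stmt_PWR) (hLMB : Stmt_LMB) (hDLB : Stmt_DLB) : Stmt_ITR := by
  intro B _ u s hr M h hw
  obtain ⟨hD1, hD2, hD3, _⟩ := hDLB B u s hr M h hw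
  have key : ∀ k, itq u s M h k = itQ u s M h k - itQ u s M h (k + 1) := by
    intro k
    unfold itq itQ
    rw [hD2, itL_sub, itL_succ']
  refine ⟨key, ?_, ?_⟩
  · intro k
    constructor
    · exact (itL_norm hLMB hr hw k 1).trans norm_one_le
    · refine (itL_norm hLMB hr hw k _).trans ?_
      refine (norm_mul_le _ _).trans ?_
      have := norm_nonneg (Del u s M h)
      nlinarith
  · intro N t c hc ht
    letI := CStarAlgebra.spectralOrder B
    letI := CStarAlgebra.spectralOrderedRing B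
    have hq : ∀ k, 0 ≤ itq u s M h k := by
      intro k
      apply itL_nonneg
      have := star_mul_self_nonneg (Del u s M h)
      rw [hD1] at this
      exact this
    have hsum : ∑ k ∈ Finset.range N, itq u s M h k = 1 - itQ u s M h N := by
      have h1 : ∑ k ∈ Finset.range N, itq u s M h k =
          ∑ k ∈ Finset.range N, (itQ u s M h k - itQ u s M h (k + 1)) :=
        Finset.sum_congr rfl fun k _ => key k
      rw [h1, Finset.sum_range_sub']
      rfl
    have hs : ∑ k ∈ Finset.range N, itq u s M h k ≤ 1 := by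
      rw [hsum]
      have hQ : 0 ≤ itQ u s M h N := itL_nonneg u s M h N zero_le_one
      exact sub_le_self _ hQ
    exact sum_bound hq hs t c hc ht

end Pool.Agent.KCH
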