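import Pool.Agent.KCH.FStmts

/-!
# Squad KCH, module JJM: the algebra of matrix units
-/

set_option autoImplicit false

namespace Pool.Agent.KCH

open TopologicalSpace

namespace JJM_

/-- the block inclusion -/
theorem V_ee (μ : List ℤ) (x : XX) : opP (iE μ) (ee x) = ee (μ, x) := by
  rw [opP_ee]
  rfl

theorem Vs_ee (ν : List ℤ) (p : YY) :
    opP (iE ν).symm (ee p) = if p.1 = ν then ee p.2 else 0 := by
  rw [opP_ee]
  have h : (iE ν).symm p = if p.1 = ν then some p.2 else none := rfl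
  rw [h]
  split_ifs
  · rfl
  · rfl

theorem VsV_same (μ : List ℤ) :
    (ContinuousLinearMap.adjoint (opP (iE μ))).comp (opP (iE μ)) =
      ContinuousLinearMap.id ℂ (L2 XX) := by
  refine op_ext fun x => ?_
  rw [ContinuousLinearMap.comp_apply, V_ee, opP_adjoint, Vs_ee, if_pos rfl]
  rfl

theorem VsV_ne (μ ν : List ℤ) (h : μ ≠ ν) :
    (ContinuousLinearMap.adjoint (opP (iE ν))).comp (opP (iE μ)) = 0 := by
  refine op_ext fun x => ?_
  rw [ContinuousLinearMap.comp_apply, V_ee, opP_adjoint, Vs_ee, if_neg h]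
  rfl

theorem th_mul_same (μ ν ν' : List ℤ) (d d' : Bd XX) :
    th μ ν d * th ν ν' d' = th μ ν' (d * d') := by
  have h := VsV_same ν
  have h2 : ∀ x, (ContinuousLinearMap.adjoint (opP (iE ν))) (opP (iE ν) x) = x := fun x =>
    DFunLike.congr_fun h x
  refine ContinuousLinearMap.ext fun x => ?_
  show (opP (iE μ)) (d ((ContinuousLinearMap.adjoint (opP (iE ν))) (opP (iE ν)
    (d' ((ContinuousLinearMap.adjoint (opP (iE ν'))) x))))) = _
  rw [h2]
  rfl

theorem th_mul_ne (μ ν μ' ν' : List ℤ) (d d' : Bd XX) (hne : ν ≠ μ') :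
    th μ ν d * th μ' ν' d' = 0 := by
  have h := VsV_ne μ' ν (Ne.symm hne)
  have h2 : ∀ x, (ContinuousLinearMap.adjoint (opP (iE ν))) (opP (iE μ') x) = 0 := fun x =>
    DFunLike.congr_fun h x
  refine ContinuousLinearMap.ext fun x => ?_
  show (opP (iE μ)) (d ((ContinuousLinearMap.adjoint (opP (iE ν))) (opP (iE μ')
    (d' ((ContinuousLinearMap.adjoint (opP (iE ν'))) x))))) = 0
  rw [h2, map_zero, map_zero]

theorem th_star (μ ν : List ℤ) (d : Bd XX) : star (th μ ν d) = th ν μ (star d) := by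
  rw [ContinuousLinearMap.star_eq_adjoint, ContinuousLinearMap.star_eq_adjoint]
  unfold th
  rw [ContinuousLinearMap.adjoint_comp, ContinuousLinearMap.adjoint_comp,
    ContinuousLinearMap.adjoint_adjoint]
  rfl

theorem th_add (μ ν : List ℤ) (d d' : Bd XX) : th μ ν (d + d') = th μ ν d + th μ ν d' := by
  unfold th
  rw [ContinuousLinearMap.add_comp, ContinuousLinearMap.comp_add]

theorem th_smul (μ ν : List ℤ) (c : ℂ) (d : Bd XX) : th μ ν (c • d) = c • th μ ν d := by
  unfold th
  rw [ContinuousLinearMap.smul_comp, ContinuousLinearMap.comp_smul]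

theorem th_zero (μ ν : List ℤ) : th μ ν 0 = 0 := by
  unfold th
  rw [ContinuousLinearMap.zero_comp, ContinuousLinearMap.comp_zero]

theorem th_norm_le (μ ν : List ℤ) (d : Bd XX) : ‖th μ ν d‖ ≤ ‖d‖ := by
  unfold th
  have h1 : ‖opP (iE μ)‖ ≤ 1 := opP_norm_le _
  have h2 : ‖ContinuousLinearMap.adjoint (opP (iE ν))‖ ≤ 1 := by
    rw [opP_adjoint]
    exact opP_norm_le _
  calc ‖(opP (iE μ)).comp (d.comp (ContinuousLinearMap.adjoint (opP (iE ν))))‖
      ≤ ‖opP (iE μ)‖ * ‖d.comp (ContinuousLinearMap.adjoint (opP (iE ν)))‖ :=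
        ContinuousLinearMap.opNorm_comp_le _ _
    _ ≤ 1 * (‖d‖ * 1) := by
        refine mul_le_mul h1 ?_ (norm_nonneg _) zero_le_one
        exact (ContinuousLinearMap.opNorm_comp_le _ _).trans
          (mul_le_mul_of_nonneg_left h2 (norm_nonneg _))
    _ = ‖d‖ := by ring

theorem th_cont (μ ν : List ℤ) : Continuous (th μ ν) := by
  unfold th
  fun_prop

/-- the operators that map each block onto a block or to zero -/
def Blk (X : Bd YY) : Prop :=
  ∀ μ : List ℤ, (∃ μ', X.comp (opP (iE μ)) = opP (iE μ')) ∨ X.comp (opP (iE μ)) = 0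

theorem blk_of (f : PEquiv YY YY) (g : List ℤ → Option (List ℤ))
    (h : ∀ μ x, f (μ, x) = (g μ).map fun μ' => (μ', x)) : Blk (opP f) := by
  intro μ
  rcases hg : g μ with _ | μ'
  · right
    refine op_ext fun x => ?_
    rw [ContinuousLinearMap.comp_apply, V_ee, opP_ee, h, hg]
    rfl
  · left
    refine ⟨μ', op_ext fun x => ?_⟩
    rw [ContinuousLinearMap.comp_apply, V_ee, V_ee, opP_ee, h, hg]
    rfl

theorem blk_TT : Blk TT := by
  rw [TT_def]
  refine blk_of tE (fun μ => match μ with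
    | [] => none
    | k :: μ => some ((k + 1) :: μ)) ?_
  rintro (_ | ⟨k, μ⟩) x <;> rfl

theorem blk_TTs : Blk (star TT) := by
  rw [TT_def, opP_star]
  refine blk_of tE.symm (fun μ => match μ with
    | [] => none
    | k :: μ => some ((k - 1) :: μ)) ?_
  rintro (_ | ⟨k, μ⟩) x <;> rfl

theorem blk_RR : Blk RR := by
  rw [RR_def]
  refine blk_of rE (fun μ => match μ with
    | [] => none
    | k :: μ => some (0 :: k :: μ)) ?_
  rintro (_ | ⟨k, μ⟩) x <;> rfl

theorem blk_RRs : Blk (star RR) := by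
  rw [RR_def, opP_star]
  refine blk_of rE.symm (fun μ => match μ with
    | [] => none
    | [_] => none
    | k :: k' :: μ => if k = 0 then some (k' :: μ) else none) ?_
  rintro (_ | ⟨k, _ | ⟨k', μ⟩⟩) x
  · rfl
  · rfl
  · show (if k = 0 then some (k' :: μ, x) else none) =
      (if k = 0 then some (k' :: μ) else none).map fun μ' => (μ', x)
    split_ifs
    · rfl
    · rfl

theorem blk_th {X : Bd YY} (h : Blk X) (μ ν : List ℤ) (d : Bd XX) :
    (∃ μ', X * th μ ν d = th μ' ν d) ∨ X * th μ ν d = 0 := by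
  have e : X * th μ ν d = (X.comp (opP (iE μ))).comp
      (d.comp (ContinuousLinearMap.adjoint (opP (iE ν)))) := rfl
  rw [e]
  rcases h μ with ⟨μ', h1⟩ | h1
  · left
    refine ⟨μ', ?_⟩
    rw [h1]
    rfl
  · right
    rw [h1, ContinuousLinearMap.zero_comp]

section

variable {D : Type} [CStarAlgebra D] (π : D →⋆ₐ[ℂ] Bd XX)

/-- the span of the matrix units -/
noncomputable def V0 : Submodule ℂ (Bd YY) :=
  Submodule.span ℂ {x | ∃ μ ν d, x = th μ ν (π d)}

theorem th_mem (μ ν : List ℤ) (d : D) : th μ ν (π d) ∈ V0 π :=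
  Submodule.subset_span ⟨μ, ν, d, rfl⟩

theorem V0_star {x : Bd YY} (hx : x ∈ V0 π) : star x ∈ V0 π := by
  unfold V0 at hx
  induction hx using Submodule.span_induction with
  | mem x hx =>
    obtain ⟨μ, ν, d, rfl⟩ := hx
    rw [th_star, ← map_star]
    exact th_mem π _ _ _
  | zero =>
    rw [star_zero]
    exact Submodule.zero_mem _
  | add x z _ _ hx hz =>
    rw [star_add]
    exact Submodule.add_mem _ hx hz
  | smul c x _ hx =>
    rw [star_smul]
    exact Submodule.smul_mem _ _ hx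

theorem V0_mul1 (μ ν : List ℤ) (d : D) {y : Bd YY} (hy : y ∈ V0 π) :
    th μ ν (π d) * y ∈ V0 π := by
  unfold V0 at hy
  induction hy using Submodule.span_induction with
  | mem y hy =>
    obtain ⟨μ', ν', d', rfl⟩ := hy
    by_cases h : ν = μ'
    · subst h
      rw [th_mul_same, ← map_mul]
      exact th_mem π _ _ _
    · rw [th_mul_ne _ _ _ _ _ _ h]
      exact Submodule.zero_mem _
  | zero =>
    rw [mul_zero]
    exact Submodule.zero_mem _
  | add y z _ _ hy hz =>
    rw [mul_add]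
    exact Submodule.add_mem _ hy hz
  | smul c y _ hy =>
    rw [mul_smul_comm]
    exact Submodule.smul_mem _ c hy

theorem V0_mul {x y : Bd YY} (hx : x ∈ V0 π) (hy : y ∈ V0 π) : x * y ∈ V0 π := by
  unfold V0 at hx
  induction hx using Submodule.span_induction with
  | mem x hx =>
    obtain ⟨μ, ν, d, rfl⟩ := hx
    exact V0_mul1 π μ ν d hy
  | zero =>
    rw [zero_mul]
    exact Submodule.zero_mem _
  | add x z _ _ hx hz =>
    rw [add_mul]
    exact Submodule.add_mem _ hx hz
  | smul c x _ hx =>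
    rw [smul_mul_assoc]
    exact Submodule.smul_mem _ c hx

theorem V0_blk {X : Bd YY} (h : Blk X) {y : Bd YY} (hy : y ∈ V0 π) : X * y ∈ V0 π := by
  unfold V0 at hy
  induction hy using Submodule.span_induction with
  | mem y hy =>
    obtain ⟨μ, ν, d, rfl⟩ := hy
    rcases blk_th h μ ν (π d) with ⟨μ', h1⟩ | h1
    · rw [h1]
      exact th_mem π _ _ _
    · rw [h1]
      exact Submodule.zero_mem _
  | zero =>
    rw [mul_zero]
    exact Submodule.zero_mem _
  | add y z _ _ hy hz =>
    rw [mul_add]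
    exact Submodule.add_mem _ hy hz
  | smul c y _ hy =>
    rw [mul_smul_comm]
    exact Submodule.smul_mem _ c hy

theorem adj_le {x : Bd YY}
    (hx : x ∈ NonUnitalStarAlgebra.adjoin ℂ {x | ∃ μ ν d, x = th μ ν (π d)}) : x ∈ V0 π := by
  induction hx using NonUnitalStarAlgebra.adjoin_induction with
  | mem x hx => exact Submodule.subset_span hx
  | add x y _ _ hx hy => exact Submodule.add_mem _ hx hy
  | zero => exact Submodule.zero_mem _
  | mul x y _ _ hx hy => exact V0_mul π hx hy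
  | smul c x _ hx => exact Submodule.smul_mem _ c hx
  | star x _ hx => exact V0_star π hx

theorem le_adj {x : Bd YY} (hx : x ∈ V0 π) :
    x ∈ NonUnitalStarAlgebra.adjoin ℂ {x | ∃ μ ν d, x = th μ ν (π d)} := by
  unfold V0 at hx
  induction hx using Submodule.span_induction with
  | mem x hx => exact NonUnitalStarAlgebra.subset_adjoin ℂ _ hx
  | zero => exact zero_mem _
  | add x y _ _ hx hy => exact add_mem hx hy
  | smul c x _ hx => exact SMulMemClass.smul_mem c hx

theorem adj_eq : ((NonUnitalStarAlgebra.adjoin ℂ {x | ∃ μ ν d, x = th μ ν (π d)} :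
    NonUnitalStarSubalgebra ℂ (Bd YY)) : Set (Bd YY)) = (V0 π : Set (Bd YY)) :=
  Set.Subset.antisymm (fun _ hx => adj_le π hx) (fun _ hx => le_adj π hx)

theorem JJ_eq : (JJ π : Set (Bd YY)) = closure (V0 π : Set (Bd YY)) := by
  rw [← adj_eq]
  rfl

theorem JJ_blk {X : Bd YY} (h : Blk X) {x : Bd YY} (hx : x ∈ JJ π) : X * x ∈ JJ π := by
  have h1 : x ∈ closure (V0 π : Set (Bd YY)) := by
    rw [← JJ_eq]
    exact hx
  have h2 : X * x ∈ closure (V0 π : Set (Bd YY)) :=
    map_mem_closure (f := fun y => X * y) (continuous_const.mul continuous_id) h1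
      fun y hy => V0_blk π h hy
  rw [← JJ_eq] at h2
  exact h2

theorem JJ_blk' {X : Bd YY} (h : Blk (star X)) {x : Bd YY} (hx : x ∈ JJ π) : x * X ∈ JJ π := by
  have h1 := JJ_blk π h (star_mem hx)
  have h2 := star_mem h1
  rw [star_mul, star_star, star_star] at h2
  exact h2

end

end JJM_

open JJM_ in
theorem jjm_proof : Stmt_JJM := by
  intro D _ π
  refine ⟨JJ_eq π, fun x hx => ⟨JJ_blk π blk_TT hx, JJ_blk' π blk_TTs hx, JJ_blk π blk_TTs hx,
    JJ_blk' π (by rw [star_star]; exact blk_TT) hx, JJ_blk π blk_RR hx, JJ_blk' π blk_RRs hx,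
    JJ_blk π blk_RRs hx, JJ_blk' π (by rw [star_star]; exact blk_RR) hx⟩⟩

end Pool.Agent.KCH
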