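import Pool.Agent.KCH.FStmts

/-!
# Squad KCH, module JSP: separability of the algebra of matrix units
-/

set_option autoImplicit false

namespace Pool.Agent.KCH

open TopologicalSpace

namespace JSP_

theorem th_cont (μ ν : List ℤ) : Continuous (th μ ν) := by
  unfold th
  fun_prop

end JSP_

open JSP_ in
theorem jsp_proof (hJJM : Stmt_JJM) : Stmt_JSP := by
  intro D _ π hsep
  have hcont : Continuous π :=
    AddMonoidHomClass.continuous_of_bound π 1 fun d => by
      rw [one_mul]
      exact NonUnitalStarAlgHom.norm_apply_le π d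
  have h1 : {x | ∃ μ ν d, x = th μ ν (π d)} =
      ⋃ p : List ℤ × List ℤ, Set.range fun d : D => th p.1 p.2 (π d) := by
    ext x
    simp only [Set.mem_ofPred_eq, Set.mem_iUnion, Set.mem_range]
    constructor
    · rintro ⟨μ, ν, d, h⟩
      exact ⟨(μ, ν), d, h.symm⟩
    · rintro ⟨⟨μ, ν⟩, d, h⟩
      exact ⟨μ, ν, d, h.symm⟩
  have h2 : IsSeparable {x | ∃ μ ν d, x = th μ ν (π d)} := by
    rw [h1]
    exact IsSeparable.iUnion fun p => isSeparable_range ((th_cont p.1 p.2).comp hcont)
  have h3 : IsSeparable (JJ π : Set (Bd YY)) := by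
    rw [(hJJM D π).1]
    exact h2.span.closure
  exact h3.separableSpace

end Pool.Agent.KCH
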