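import Pool.Agent.KCH.FStmts

/-!
# Squad KCH, module JST: the algebra of matrix units is the stabilisation
-/

set_option autoImplicit false

namespace Pool.Agent.KCH

open TopologicalSpace

namespace JST_

/-- the block inclusion -/
theorem V_ee (μ : List ℤ) (x : XX) : opP (iE μ) (ee x) = ee (μ, x) := by
  rw [opP_ee]
  rfl

theorem Vs_ee (ν : List ℤ) (p : YY) :
    opP (iE ν).symm (ee p) = if p.1 = ν then ee p.2 else 0 := by
  rw [opP_ee]
  have h : (iE ν).symm p = if p.1 = ν then some p.2 else none := rfl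
  rw [h]
  split_ifs
  · rfl
  · rfl

theorem VsV_same (μ : List ℤ) :
    (ContinuousLinearMap.adjoint (opP (iE μ))).comp (opP (iE μ)) =
      ContinuousLinearMap.id ℂ (L2 XX) := by
  refine op_ext fun x => ?_
  rw [ContinuousLinearMap.comp_apply, V_ee, opP_adjoint, Vs_ee, if_pos rfl]
  rfl

theorem VsV_ne (μ ν : List ℤ) (h : μ ≠ ν) :
    (ContinuousLinearMap.adjoint (opP (iE ν))).comp (opP (iE μ)) = 0 := by
  refine op_ext fun x => ?_
  rw [ContinuousLinearMap.comp_apply, V_ee, opP_adjoint, Vs_ee, if_neg h]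
  rfl

theorem th_mul_same (μ ν ν' : List ℤ) (d d' : Bd XX) :
    th μ ν d * th ν ν' d' = th μ ν' (d * d') := by
  have h := VsV_same ν
  have h2 : ∀ x, (ContinuousLinearMap.adjoint (opP (iE ν))) (opP (iE ν) x) = x := fun x =>
    DFunLike.congr_fun h x
  refine ContinuousLinearMap.ext fun x => ?_
  show (opP (iE μ)) (d ((ContinuousLinearMap.adjoint (opP (iE ν))) (opP (iE ν)
    (d' ((ContinuousLinearMap.adjoint (opP (iE ν'))) x))))) = _
  rw [h2]
  rfl

theorem th_mul_ne (μ ν μ' ν' : List ℤ) (d d' : Bd XX) (hne : ν ≠ μ') :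
    th μ ν d * th μ' ν' d' = 0 := by
  have h := VsV_ne μ' ν (Ne.symm hne)
  have h2 : ∀ x, (ContinuousLinearMap.adjoint (opP (iE ν))) (opP (iE μ') x) = 0 := fun x =>
    DFunLike.congr_fun h x
  refine ContinuousLinearMap.ext fun x => ?_
  show (opP (iE μ)) (d ((ContinuousLinearMap.adjoint (opP (iE ν))) (opP (iE μ')
    (d' ((ContinuousLinearMap.adjoint (opP (iE ν'))) x))))) = 0
  rw [h2, map_zero, map_zero]

theorem th_star (μ ν : List ℤ) (d : Bd XX) : star (th μ ν d) = th ν μ (star d) := by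
  rw [ContinuousLinearMap.star_eq_adjoint, ContinuousLinearMap.star_eq_adjoint]
  unfold th
  rw [ContinuousLinearMap.adjoint_comp, ContinuousLinearMap.adjoint_comp,
    ContinuousLinearMap.adjoint_adjoint]
  rfl

theorem th_add (μ ν : List ℤ) (d d' : Bd XX) : th μ ν (d + d') = th μ ν d + th μ ν d' := by
  unfold th
  rw [ContinuousLinearMap.add_comp, ContinuousLinearMap.comp_add]

theorem th_smul (μ ν : List ℤ) (c : ℂ) (d : Bd XX) : th μ ν (c • d) = c • th μ ν d := by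
  unfold th
  rw [ContinuousLinearMap.smul_comp, ContinuousLinearMap.comp_smul]

theorem th_zero (μ ν : List ℤ) : th μ ν 0 = 0 := by
  unfold th
  rw [ContinuousLinearMap.zero_comp, ContinuousLinearMap.comp_zero]

theorem th_norm_le (μ ν : List ℤ) (d : Bd XX) : ‖th μ ν d‖ ≤ ‖d‖ := by
  unfold th
  have h1 : ‖opP (iE μ)‖ ≤ 1 := opP_norm_le _
  have h2 : ‖ContinuousLinearMap.adjoint (opP (iE ν))‖ ≤ 1 := by
    rw [opP_adjoint]
    exact opP_norm_le _
  calc ‖(opP (iE μ)).comp (d.comp (ContinuousLinearMap.adjoint (opP (iE ν))))‖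
      ≤ ‖opP (iE μ)‖ * ‖d.comp (ContinuousLinearMap.adjoint (opP (iE ν)))‖ :=
        ContinuousLinearMap.opNorm_comp_le _ _
    _ ≤ 1 * (‖d‖ * 1) := by
        refine mul_le_mul h1 ?_ (norm_nonneg _) zero_le_one
        exact (ContinuousLinearMap.opNorm_comp_le _ _).trans
          (mul_le_mul_of_nonneg_left h2 (norm_nonneg _))
    _ = ‖d‖ := by ring

theorem th_cont (μ ν : List ℤ) : Continuous (th μ ν) := by
  unfold th
  fun_prop

theorem th_norm (μ ν : List ℤ) (d : Bd XX) : ‖th μ ν d‖ = ‖d‖ := by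
  refine le_antisymm (th_norm_le μ ν d) ?_
  have h1 := VsV_same μ
  have h2 := VsV_same ν
  have e : d = (ContinuousLinearMap.adjoint (opP (iE μ))).comp
      ((th μ ν d).comp (opP (iE ν))) := by
    unfold th
    rw [ContinuousLinearMap.comp_assoc, ContinuousLinearMap.comp_assoc, h2,
      ← ContinuousLinearMap.comp_assoc, h1]
    rfl
  have h3 : ‖opP (iE ν)‖ ≤ 1 := opP_norm_le _
  have h4 : ‖ContinuousLinearMap.adjoint (opP (iE μ))‖ ≤ 1 := by
    rw [opP_adjoint]
    exact opP_norm_le _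
  have h5 : norm ((th μ ν d).comp (opP (iE ν))) ≤ ‖th μ ν d‖ * 1 :=
    (ContinuousLinearMap.opNorm_comp_le _ _).trans
      (mul_le_mul_of_nonneg_left h3 (norm_nonneg _))
  have h6 : norm ((ContinuousLinearMap.adjoint (opP (iE μ))).comp
      ((th μ ν d).comp (opP (iE ν)))) ≤ 1 * (‖th μ ν d‖ * 1) :=
    (ContinuousLinearMap.opNorm_comp_le _ _).trans
      (mul_le_mul h4 h5 (norm_nonneg _) zero_le_one)
  rw [← e, one_mul, mul_one] at h6
  exact h6

theorem exists_equiv : ∃ e : ℕ ≃ List ℤ, e 0 = [] := by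
  let e0 : ℕ ≃ List ℤ := (Denumerable.eqv (List ℤ)).symm
  refine ⟨(Equiv.swap 0 (e0.symm [])).trans e0, ?_⟩
  rw [Equiv.trans_apply, Equiv.swap_apply_left, Equiv.apply_symm_apply]

section

variable {D : Type} [CStarAlgebra D] (π : D →⋆ₐ[ℂ] Bd XX)

theorem mem_JJ (μ ν : List ℤ) (d : D) : th μ ν (π d) ∈ JJ π :=
  NonUnitalStarSubalgebra.le_topologicalClosure _
    (NonUnitalStarAlgebra.subset_adjoin ℂ _ ⟨μ, ν, d, rfl⟩)

/-- the matrix units -/
noncomputable def tt (e : ℕ ≃ List ℤ) (i j : ℕ) : D →ₗ[ℂ] JJ π where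
  toFun d := ⟨th (e i) (e j) (π d), mem_JJ π _ _ _⟩
  map_add' a b := by
    apply Subtype.ext
    show th (e i) (e j) (π (a + b)) = th (e i) (e j) (π a) + th (e i) (e j) (π b)
    rw [map_add, th_add]
  map_smul' c a := by
    apply Subtype.ext
    show th (e i) (e j) (π (c • a)) = c • th (e i) (e j) (π a)
    rw [map_smul, th_smul]

theorem tt_coe (e : ℕ ≃ List ℤ) (i j : ℕ) (d : D) :
    (tt π e i j d : Bd YY) = th (e i) (e j) (π d) := rfl

theorem tt_star (e : ℕ ≃ List ℤ) (i j : ℕ) (b : D) :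
    star (tt π e i j b) = tt π e j i (star b) := by
  apply Subtype.ext
  show star (th (e i) (e j) (π b)) = th (e j) (e i) (π (star b))
  rw [th_star, map_star]

theorem tt_mul_same (e : ℕ ≃ List ℤ) (i j k : ℕ) (a b : D) :
    tt π e i j a * tt π e j k b = tt π e i k (a * b) := by
  apply Subtype.ext
  show th (e i) (e j) (π a) * th (e j) (e k) (π b) = th (e i) (e k) (π (a * b))
  rw [th_mul_same, map_mul]

theorem tt_mul_ne (e : ℕ ≃ List ℤ) (i j j' k : ℕ) (a b : D) (h : j ≠ j') :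
    tt π e i j a * tt π e j' k b = 0 := by
  apply Subtype.ext
  show th (e i) (e j) (π a) * th (e j') (e k) (π b) = 0
  exact th_mul_ne _ _ _ _ _ _ (fun h2 => h (e.injective h2))

theorem tt_norm (hπ : Function.Injective π) (e : ℕ ≃ List ℤ) (i j : ℕ) (b : D) :
    ‖tt π e i j b‖ = ‖b‖ := by
  have h1 : ‖tt π e i j b‖ = ‖th (e i) (e j) (π b)‖ := rfl
  rw [h1, th_norm]
  exact NonUnitalStarAlgHom.norm_map π hπ b

theorem span_sub (e : ℕ ≃ List ℤ) {y : Bd YY}
    (hy : y ∈ Submodule.span ℂ {x | ∃ μ ν d, x = th μ ν (π d)}) :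
    ∃ z ∈ Submodule.span ℂ {x | ∃ i j b, x = tt π e i j b}, (z : Bd YY) = y := by
  induction hy using Submodule.span_induction with
  | mem y hy =>
    obtain ⟨μ, ν, d, rfl⟩ := hy
    refine ⟨tt π e (e.symm μ) (e.symm ν) d, Submodule.subset_span ⟨_, _, _, rfl⟩, ?_⟩
    rw [tt_coe, Equiv.apply_symm_apply, Equiv.apply_symm_apply]
  | zero => exact ⟨0, Submodule.zero_mem _, rfl⟩
  | add y z _ _ hy hz =>
    obtain ⟨a, ha, ha'⟩ := hy
    obtain ⟨b, hb, hb'⟩ := hz
    refine ⟨a + b, Submodule.add_mem _ ha hb, ?_⟩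
    rw [← ha', ← hb']
    rfl
  | smul c y _ hy =>
    obtain ⟨a, ha, ha'⟩ := hy
    refine ⟨c • a, Submodule.smul_mem _ c ha, ?_⟩
    rw [← ha']
    rfl

theorem tt_dense (hJ : (JJ π : Set (Bd YY)) =
      closure (Submodule.span ℂ {x | ∃ μ ν d, x = th μ ν (π d)} : Set (Bd YY)))
    (e : ℕ ≃ List ℤ) :
    Dense (Submodule.span ℂ {x | ∃ i j b, x = tt π e i j b} : Set (JJ π)) := by
  intro x
  rw [closure_subtype]
  have hx : (x : Bd YY) ∈ closure (Submodule.span ℂ {x | ∃ μ ν d, x = th μ ν (π d)} :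
      Set (Bd YY)) := by
    rw [← hJ]
    exact x.2
  refine closure_mono ?_ hx
  intro y hy
  obtain ⟨z, hz, hz'⟩ := span_sub π e hy
  exact ⟨z, hz, hz'⟩

end

end JST_

open JST_ in
theorem jst_proof (hJJM : Stmt_JJM) : Stmt_JST := by
  intro D _ π hπ
  obtain ⟨e, he⟩ := exists_equiv
  refine ⟨tt π e, ⟨tt_star π e, tt_mul_same π e, tt_mul_ne π e, tt_norm π hπ e,
    tt_dense π (hJJM D π).1 e⟩, fun d => ?_⟩
  rw [tt_coe, he]

end Pool.Agent.KCH
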