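import Pool.Agent.KCH.KStmts

set_option autoImplicit false

namespace Pool.Agent.KCH

open TopologicalSpace

namespace K1A_

section
variable {A : Type} [CStarAlgebra A]

theorem reindex_isUnit {ι κ : Type} [Fintype ι] [DecidableEq ι] [Fintype κ] [DecidableEq κ]
    (σ : ι ≃ κ) {g : Matrix ι ι A} (hg : IsUnit g) : IsUnit (Matrix.reindex σ σ g) := by
  obtain ⟨u, rfl⟩ := hg
  refine ⟨⟨Matrix.reindex σ σ (u : Matrix ι ι A), Matrix.reindex σ σ (↑u⁻¹ : Matrix ι ι A),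
    ?_, ?_⟩, rfl⟩
  · rw [Matrix.reindex_apply, Matrix.reindex_apply, Matrix.submatrix_mul_equiv, u.mul_inv]
    simp
  · rw [Matrix.reindex_apply, Matrix.reindex_apply, Matrix.submatrix_mul_equiv, u.inv_mul]
    simp

/-- two reindexings by `Fin n` have the same class -/
theorem cl1_reindex (hP : ∀ (ι : Type) [Fintype ι] [DecidableEq ι] (σ : ι ≃ ι)
    (g : Matrix ι ι A), IsUnit g → Jn (Matrix.reindex σ σ g) g)
    {ι : Type} {n m : ℕ} (e1 : ι ≃ Fin n) (e2 : ι ≃ Fin m)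
    (g : Matrix ι ι A) (h1 : IsUnit (Matrix.reindex e1 e1 g))
    (h2 : IsUnit (Matrix.reindex e2 e2 g)) :
    cl1 (⟨n, Matrix.reindex e1 e1 g, h1⟩ : GLm A) = cl1 ⟨m, Matrix.reindex e2 e2 g, h2⟩ := by
  have hnm : n = m := by
    have h := Fintype.card_congr (e1.symm.trans e2)
    simpa using h
  subst hnm
  apply cl1_joined
  have h3 := hP (Fin n) (e1.symm.trans e2) (Matrix.reindex e1 e1 g) h1
  have h4 : Matrix.reindex (e1.symm.trans e2) (e1.symm.trans e2) (Matrix.reindex e1 e1 g) =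
      Matrix.reindex e2 e2 g := by
    ext i j
    simp
  rw [h4] at h3
  exact JoinedIn.symm h3

end

end K1A_

open K1A_ in
theorem k1a_proof (hPTH : Stmt_PTH) : Stmt_K1A := by
  intro A _
  obtain ⟨-, -, hP3, -, hP5, hP6, -, -⟩ := hPTH A
  have H1 : ∀ (ι κ : Type) [Fintype ι] [DecidableEq ι] [Fintype κ] [DecidableEq κ] (σ : ι ≃ κ)
      (g : Matrix ι ι A) (hg : IsUnit g), ∃ h, c1 (Matrix.reindex σ σ g) h = c1 g hg := by
    intro ι κ _ _ _ _ σ g hg
    refine ⟨reindex_isUnit σ hg, ?_⟩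
    have h1 : IsUnit (Matrix.reindex (σ.trans (Fintype.equivFin κ))
        (σ.trans (Fintype.equivFin κ)) g) := reindex_isUnit _ hg
    exact cl1_reindex hP5 (σ.trans (Fintype.equivFin κ)) (Fintype.equivFin ι) g h1
      (toFin_isUnit hg)
  have H2 : ∀ (ι : Type) [Fintype ι] [DecidableEq ι] (g h : Matrix ι ι A) (hg : IsUnit g)
      (hh : IsUnit h), Jn g h → c1 g hg = c1 h hh := by
    intro ι _ _ g h hg hh hJ
    apply cl1_joined
    exact hP3 ι (Fin (Fintype.card ι)) (Fintype.equivFin ι) g h hJ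
  have H3 : ∀ (ι κ : Type) [Fintype ι] [DecidableEq ι] [Fintype κ] [DecidableEq κ]
      (g : Matrix ι ι A) (h : Matrix κ κ A) (hg : IsUnit g) (hh : IsUnit h),
      ∃ hu, c1 (Matrix.fromBlocks g 0 0 h) hu = c1 g hg + c1 h hh := by
    intro ι κ _ _ _ _ g h hg hh
    have hu : IsUnit (Matrix.fromBlocks g 0 0 h) := by
      obtain ⟨u, rfl⟩ := hg
      obtain ⟨v, rfl⟩ := hh
      refine ⟨⟨Matrix.fromBlocks (u : Matrix ι ι A) 0 0 (v : Matrix κ κ A),
        Matrix.fromBlocks (↑u⁻¹ : Matrix ι ι A) 0 0 (↑v⁻¹ : Matrix κ κ A), ?_, ?_⟩, rfl⟩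
      · rw [Matrix.fromBlocks_multiply, u.mul_inv, v.mul_inv]
        simp
      · rw [Matrix.fromBlocks_multiply, u.inv_mul, v.inv_mul]
        simp
    refine ⟨hu, ?_⟩
    have h2 : bsum (toFin g) (toFin h)
        = Matrix.reindex
          (((Fintype.equivFin ι).sumCongr (Fintype.equivFin κ)).trans finSumFinEquiv)
          (((Fintype.equivFin ι).sumCongr (Fintype.equivFin κ)).trans finSumFinEquiv)
          (Matrix.fromBlocks g 0 0 h) := by
      ext i j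
      obtain ⟨i, rfl⟩ := finSumFinEquiv.surjective i
      obtain ⟨j, rfl⟩ := finSumFinEquiv.surjective j
      rcases i with i | i <;> rcases j with j | j <;> simp [toFin, bsum]
    have h3 : c1 g hg + c1 h hh = cl1 (GLm.sum ⟨_, toFin g, toFin_isUnit hg⟩
        ⟨_, toFin h, toFin_isUnit hh⟩) := (cl1_sum _ _).symm
    rw [h3]
    have h4 : (GLm.sum ⟨_, toFin g, toFin_isUnit hg⟩ ⟨_, toFin h, toFin_isUnit hh⟩ : GLm A) =
        ⟨_, Matrix.reindex
          (((Fintype.equivFin ι).sumCongr (Fintype.equivFin κ)).trans finSumFinEquiv)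
          (((Fintype.equivFin ι).sumCongr (Fintype.equivFin κ)).trans finSumFinEquiv)
          (Matrix.fromBlocks g 0 0 h), reindex_isUnit _ hu⟩ := GLm.mk_congr h2 _ _
    rw [h4]
    exact cl1_reindex hP5 _ _ _ _ _
  have H5 : ∀ (ι : Type) [Fintype ι] [DecidableEq ι],
      c1 (1 : Matrix ι ι A) isUnit_one = 0 := by
    intro ι _ _
    have h : (⟨_, toFin (1 : Matrix ι ι A), toFin_isUnit isUnit_one⟩ : GLm A) =
        ⟨_, 1, isUnit_one⟩ := GLm.mk_congr toFin_one _ _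
    rw [c1, h, cl1_one]
  have H4 : ∀ (ι : Type) [Fintype ι] [DecidableEq ι] (g h : Matrix ι ι A) (hg : IsUnit g)
      (hh : IsUnit h), c1 (g * h) (hg.mul hh) = c1 g hg + c1 h hh := by
    intro ι _ _ g h hg hh
    obtain ⟨hu, e1⟩ := H3 ι ι (g * h) 1 (hg.mul hh) isUnit_one
    obtain ⟨hv, e2⟩ := H3 ι ι g h hg hh
    rw [H5, add_zero] at e1
    rw [← e1, ← e2]
    exact H2 _ _ _ hu hv (hP6 ι g h hg hh)
  have H6 : ∀ p : GLm A, c1 p.g p.isUnit = cl1 p := by
    intro p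
    have h1 : IsUnit (Matrix.reindex (Equiv.refl (Fin p.n)) (Equiv.refl (Fin p.n)) p.g) := by
      rw [Matrix.reindex_refl_refl]
      exact p.isUnit
    have h2 := cl1_reindex hP5 (Fintype.equivFin (Fin p.n)) (Equiv.refl (Fin p.n)) p.g
      (toFin_isUnit p.isUnit) h1
    exact h2
  refine ⟨H1, H2, H3, H4, H5, H6, ?_⟩
  intro x
  obtain ⟨y, rfl⟩ := QuotientAddGroup.mk_surjective x
  induction y using FreeAbelianGroup.induction_on with
  | zero =>
    exact ⟨0, 1, isUnit_one, H5 _⟩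
  | of p => exact ⟨p.n, p.g, p.isUnit, H6 p⟩
  | neg p _ =>
    obtain ⟨u, hu⟩ := p.isUnit
    refine ⟨p.n, (↑u⁻¹ : Matrix (Fin p.n) (Fin p.n) A), u⁻¹.isUnit, ?_⟩
    have h1 := H4 _ (↑u⁻¹ : Matrix (Fin p.n) (Fin p.n) A) (u : Matrix (Fin p.n) (Fin p.n) A)
      u⁻¹.isUnit u.isUnit
    rw [c1_congr u.inv_mul _ isUnit_one, H5, c1_congr hu u.isUnit p.isUnit, H6] at h1
    rw [QuotientAddGroup.mk_neg]
    exact eq_neg_of_add_eq_zero_left h1.symm
  | add a b ha hb =>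
    obtain ⟨n, g, hg, h1⟩ := ha
    obtain ⟨m, h, hh, h2⟩ := hb
    obtain ⟨hu, h3⟩ := H3 _ _ g h hg hh
    refine ⟨_, toFin (Matrix.fromBlocks g 0 0 h), toFin_isUnit hu, ?_⟩
    rw [QuotientAddGroup.mk_add, ← h1, ← h2, ← h3]
    exact H6 ⟨_, toFin (Matrix.fromBlocks g 0 0 h), toFin_isUnit hu⟩

end Pool.Agent.KCH
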