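import Pool.Agent.KCH.KStmts

/-!
# Squad KCH, module KF0: `K_0` is a `KK` functor
-/

set_option autoImplicit false

namespace Pool.Agent.KCH

open TopologicalSpace

namespace KF0_

/-- `K_0` of a non-unital algebra -/
abbrev Ob (A : Type) [NonUnitalCStarAlgebra A] : Type := (K0.map (aug A)).ker

section
variable {A B C : Type} [NonUnitalCStarAlgebra A] [NonUnitalCStarAlgebra B]
  [NonUnitalCStarAlgebra C]

theorem ext_mem (f : A →⋆ₙₐ[ℂ] B) (x : Ob A) : K0.map (ext f) x.1 ∈ (K0.map (aug B)).ker := by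
  rw [AddMonoidHom.mem_ker, ← K0.map_comp, aug_ext]
  exact x.2

/-- the map -/
noncomputable def mp (f : A →⋆ₙₐ[ℂ] B) : Ob A →+ Ob B where
  toFun x := ⟨K0.map (ext f) x.1, ext_mem f x⟩
  map_zero' := Subtype.ext (map_zero (K0.map (ext f)))
  map_add' x y := Subtype.ext (map_add (K0.map (ext f)) x.1 y.1)

theorem mp_val (f : A →⋆ₙₐ[ℂ] B) (x : Ob A) : (mp f x).1 = K0.map (ext f) x.1 := rfl

theorem mp_id (x : Ob A) : mp (NonUnitalStarAlgHom.id ℂ A) x = x := by
  apply Subtype.ext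
  rw [mp_val, ext_id, K0.map_id]

theorem mp_comp (g : B →⋆ₙₐ[ℂ] C) (f : A →⋆ₙₐ[ℂ] B) (x : Ob A) :
    mp (g.comp f) x = mp g (mp f x) := by
  apply Subtype.ext
  rw [mp_val, mp_val, mp_val, ext_comp, K0.map_comp]

theorem mp_homotopy (hHT0 : Stmt_HT0) (f g : A →⋆ₙₐ[ℂ] B) (h : Homotopic f g) : mp f = mp g := by
  obtain ⟨H, hH, h0, h1⟩ := h
  have hk : K0.map (ext f) = K0.map (ext g) := by
    apply K0.hom_ext
    intro p
    rw [← c0_fin p, K0.map_c0, K0.map_c0]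
    apply c0_eq
    have h2 := hHT0 (Unitization ℂ B) (Fin p.n) (fun t => mm (ext (H t)) p.e) (by
      apply continuous_matrix
      intro i j
      show Continuous fun t => ext (H t) (p.e i j)
      simp only [ext_apply]
      exact continuous_const.add (Unitization.continuous_inr.comp (hH _)))
      (fun t => mm_idem (ext (H t)) p.idem)
    rw [← h0, ← h1]
    exact h2
  apply DFunLike.ext
  intro x
  apply Subtype.ext
  rw [mp_val, mp_val, hk]

end

section
variable {B J : Type} [CStarAlgebra B] [NonUnitalCStarAlgebra J]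

theorem ext_comp_inr (e : B →⋆ₙₐ[ℂ] J) :
    (ext e).comp (inr B) = (inr J).comp (e : B →ₙ+* J) := by
  apply DFunLike.ext
  intro b
  exact ext_inr e b

theorem map_ext_inr (e : B →⋆ₙₐ[ℂ] J) (x : K0 B) :
    K0.map (ext e) (K0.map (inr B) x) = K0.map ((inr J).comp (e : B →ₙ+* J)) x := by
  rw [← K0.map_comp, ext_comp_inr]

theorem mp_stable (hUN0 : Stmt_UN0) (hSU0 : Stmt_SU0) (hIN0 : Stmt_IN0)
    (θ : ℕ → ℕ → B →ₗ[ℂ] J) (e : B →⋆ₙₐ[ℂ] J) (hθ : IsStab θ) (he : ∀ b, e b = θ 0 0 b) :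
    Function.Bijective (mp e) := by
  obtain ⟨u1, u2, u3⟩ := hUN0 B
  have hi := hIN0 B J θ e hθ he
  constructor
  · rw [injective_iff_map_eq_zero]
    intro x hx
    obtain ⟨x', hx'⟩ := u3 x.1 x.2
    have h1 : K0.map (ext e) x.1 = 0 := congrArg Subtype.val hx
    rw [← hx', map_ext_inr] at h1
    have h2 : x' = 0 := hi (h1.trans (map_zero _).symm)
    apply Subtype.ext
    rw [← hx', h2, map_zero]
    rfl
  · intro y
    obtain ⟨x', hx'⟩ := hSU0 B J θ e hθ he y.1 y.2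
    refine ⟨⟨K0.map (inr B) x', u1 x'⟩, ?_⟩
    apply Subtype.ext
    rw [mp_val]
    show K0.map (ext e) (K0.map (inr B) x') = y.1
    rw [map_ext_inr, hx']

end

section
variable {J E Q : Type} [NonUnitalCStarAlgebra J] [NonUnitalCStarAlgebra E]
  [NonUnitalCStarAlgebra Q]

theorem ext_zero (i : J →⋆ₙₐ[ℂ] E) (p : E →⋆ₙₐ[ℂ] Q) (h : ∀ y, p (i y) = 0) :
    (ext p).comp (ext i) = ((algebraMap ℂ (Unitization ℂ Q) : ℂ →+* Unitization ℂ Q) :
      ℂ →ₙ+* Unitization ℂ Q).comp (aug J) := by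
  apply DFunLike.ext
  intro x
  show ext p (ext i x) = algebraMap ℂ (Unitization ℂ Q) x.fst
  apply un_ext
  · rw [ext_fst, ext_fst, scalar_fst]
  · rw [ext_snd, ext_snd, scalar_snd, h]

theorem mp_split (hSP0 : Stmt_SP0) (i : J →⋆ₙₐ[ℂ] E) (p : E →⋆ₙₐ[ℂ] Q) (s : Q →⋆ₙₐ[ℂ] E)
    (hi : Function.Injective i) (hx : ∀ x, p x = 0 ↔ ∃ y, i y = x) (hs : ∀ q, p (s q) = q) :
    Function.Injective (mp i) ∧ ∀ x, mp p x = 0 ↔ ∃ y, mp i y = x := by
  obtain ⟨s1, s2⟩ := hSP0 J E Q i p s hi hx hs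
  constructor
  · rw [injective_iff_map_eq_zero]
    intro x h
    have h1 : K0.map (ext i) x.1 = 0 := congrArg Subtype.val h
    exact Subtype.ext (s1 x.1 x.2 h1)
  · intro x
    constructor
    · intro h
      have h1 : K0.map (ext p) x.1 = 0 := congrArg Subtype.val h
      obtain ⟨y, y1, y2⟩ := s2 x.1 x.2 h1
      exact ⟨⟨y, y1⟩, Subtype.ext y2⟩
    · rintro ⟨y, rfl⟩
      apply Subtype.ext
      rw [mp_val, mp_val, ← K0.map_comp, ext_zero i p fun z => (hx _).2 ⟨z, rfl⟩, K0.map_comp]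
      have : K0.map (aug J) y.1 = 0 := y.2
      rw [this, map_zero]
      rfl

end

end KF0_

open KF0_ in
theorem kf0_proof (hUN0 : Stmt_UN0) (hHT0 : Stmt_HT0) (hSP0 : Stmt_SP0) (hSU0 : Stmt_SU0)
    (hIN0 : Stmt_IN0) : Stmt_KF0 := by
  refine ⟨{
    obj := fun A _ _ => Ob A
    grp := fun A _ _ => inferInstance
    map := fun f => mp f
    map_id := fun A _ _ x => mp_id x
    map_comp := fun g f x => mp_comp g f x
    homotopy := fun f g h => mp_homotopy hHT0 f g h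
    stable := fun θ e hθ he => mp_stable hUN0 hSU0 hIN0 θ e hθ he
    split := fun i p s hi hx hs => mp_split hSP0 i p s hi hx hs }, ?_⟩
  intro A B _ _ _ _ f hf
  have hf' : Function.Bijective (mp f) := hf
  obtain ⟨a1, a2, a3⟩ := hUN0 A
  obtain ⟨b1, b2, b3⟩ := hUN0 B
  have hc : ∀ x, K0.map (ext f) (K0.map (inr A) x) = K0.map (inr B) (K0.map (f : A →ₙ+* B) x) := by
    intro x
    rw [map_ext_inr, K0.map_comp]
  constructor
  · rw [injective_iff_map_eq_zero]
    intro x hx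
    have h1 : mp f ⟨K0.map (inr A) x, a1 x⟩ = 0 := by
      apply Subtype.ext
      show K0.map (ext f) (K0.map (inr A) x) = 0
      rw [hc, hx, map_zero]
    have h2 := (injective_iff_map_eq_zero _).1 hf'.1 _ h1
    have h3 : K0.map (inr A) x = 0 := congrArg Subtype.val h2
    exact a2 (h3.trans (map_zero _).symm)
  · intro y
    obtain ⟨z, hz⟩ := hf'.2 ⟨K0.map (inr B) y, b1 y⟩
    obtain ⟨x, hx⟩ := a3 z.1 z.2
    refine ⟨x, b2 ?_⟩
    rw [← hc, hx]
    exact congrArg Subtype.val hz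

end Pool.Agent.KCH
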