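import Pool.Agent.KCH.KStmts

/-!
# Squad KCH, module KF1: `K_1` is a `KK` functor
-/

set_option autoImplicit false

namespace Pool.Agent.KCH

open TopologicalSpace

namespace KF1_

/-- the kernel of the augmentation -/
abbrev Ob (A : Type) [NonUnitalCStarAlgebra A] : Type :=
  AddMonoidHom.ker (K1.map (aug A) (aug_continuous A))

section
variable {A B C : Type} [NonUnitalCStarAlgebra A] [NonUnitalCStarAlgebra B]
  [NonUnitalCStarAlgebra C]

theorem aug_map (f : A →⋆ₙₐ[ℂ] B) (hf : Continuous (ext f)) (x : K1 (Unitization ℂ A)) :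
    K1.map (aug B) (aug_continuous B) (K1.map (ext f) hf x) =
      K1.map (aug A) (aug_continuous A) x := by
  rw [← K1.map_comp (aug B) (ext f) (aug_continuous B) hf]
  exact K1.map_congr (aug_ext f) _ _ x

/-- the map on the kernels -/
noncomputable def mp (f : A →⋆ₙₐ[ℂ] B) (hf : Continuous (ext f)) : Ob A →+ Ob B where
  toFun x := ⟨K1.map (ext f) hf x.1, by
    rw [AddMonoidHom.mem_ker, aug_map]
    exact x.2⟩
  map_zero' := Subtype.ext (map_zero _)
  map_add' x y := Subtype.ext (map_add _ _ _)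

theorem mp_val (f : A →⋆ₙₐ[ℂ] B) (hf : Continuous (ext f)) (x : Ob A) :
    (mp f hf x).1 = K1.map (ext f) hf x.1 := rfl

theorem mp_id (hf : Continuous (ext (NonUnitalStarAlgHom.id ℂ A))) (x : Ob A) :
    mp (NonUnitalStarAlgHom.id ℂ A) hf x = x := by
  apply Subtype.ext
  rw [mp_val, K1.map_congr ext_id hf continuous_id, K1.map_id]

theorem mp_comp (g : B →⋆ₙₐ[ℂ] C) (f : A →⋆ₙₐ[ℂ] B) (hg : Continuous (ext g))
    (hf : Continuous (ext f)) (h : Continuous (ext (g.comp f))) (x : Ob A) :
    mp (g.comp f) h x = mp g hg (mp f hf x) := by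
  apply Subtype.ext
  rw [mp_val, mp_val, mp_val, K1.map_congr (ext_comp g f) h (hg.comp hf), K1.map_comp]

theorem ext_path (H : ℝ → (A →⋆ₙₐ[ℂ] B)) (hH : ∀ a, Continuous fun t => H t a)
    (x : Unitization ℂ A) : Continuous fun t => ext (H t) x := by
  have h : (fun t => ext (H t) x) = fun t => algebraMap ℂ (Unitization ℂ B) x.fst +
      inr B (H t x.snd) := by
    funext t
    exact ext_apply (H t) x
  rw [h]
  exact continuous_const.add ((inr_continuous B).comp (hH x.snd))

theorem mp_homotopy (H : ℝ → (A →⋆ₙₐ[ℂ] B)) (hH : ∀ a, Continuous fun t => H t a)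
    (h0 : Continuous (ext (H 0))) (h1 : Continuous (ext (H 1))) :
    mp (H 0) h0 = mp (H 1) h1 := by
  have h : K1.map (ext (H 0)) h0 = K1.map (ext (H 1)) h1 := by
    apply K1.hom_ext
    intro p
    rw [K1.map_cl1, K1.map_cl1]
    apply cl1_joined
    have hc : Continuous fun t : ℝ => m1 (ext (H t)) p.g := by
      unfold m1
      refine continuous_const.add ?_
      apply continuous_matrix
      intro i j
      exact ext_path H hH _
    exact joinedIn_of_continuousOn (fun t : ℝ => m1 (ext (H t)) p.g) hc.continuousOn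
      fun t _ => m1_isUnit _ p.isUnit
  ext x
  rw [mp_val, mp_val, h]

end

section
variable {A B : Type} [CStarAlgebra A] [CStarAlgebra B]

theorem ext_comp_inr (f : A →⋆ₙₐ[ℂ] B) :
    (ext f).comp (inr A) = (inr B).comp (f : A →ₙ+* B) := by
  apply DFunLike.ext
  intro a
  exact ext_inr f a

theorem map_ext_inr (f : A →⋆ₙₐ[ℂ] B) (hf : Continuous (ext f))
    (hf' : Continuous (f : A →ₙ+* B)) (x : K1 A) :
    K1.map (ext f) hf (K1.map (inr A) (inr_continuous A) x) =
      K1.map (inr B) (inr_continuous B) (K1.map (f : A →ₙ+* B) hf' x) := by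
  rw [← K1.map_comp, ← K1.map_comp]
  exact K1.map_congr (ext_comp_inr f) _ _ x

end

/-- the scalars -/
def scal (B : Type) [NonUnitalCStarAlgebra B] : ℂ →ₙ+* Unitization ℂ B :=
  ((algebraMap ℂ (Unitization ℂ B) : ℂ →+* Unitization ℂ B) : ℂ →ₙ+* Unitization ℂ B)

theorem scal_continuous (B : Type) [NonUnitalCStarAlgebra B] : Continuous (scal B) :=
  continuous_algebraMap ℂ (Unitization ℂ B)

theorem ext_zero' {J E Q : Type} [NonUnitalCStarAlgebra J] [NonUnitalCStarAlgebra E]
    [NonUnitalCStarAlgebra Q] (p : E →⋆ₙₐ[ℂ] Q) (i : J →⋆ₙₐ[ℂ] E) (h : p.comp i = 0) :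
    (ext p).comp (ext i) = (scal Q).comp (aug J) := by
  rw [← ext_comp, h]
  apply DFunLike.ext
  intro x
  show ext 0 x = algebraMap ℂ (Unitization ℂ Q) x.fst
  apply un_ext
  · rw [ext_fst, scalar_fst]
  · rw [ext_snd, scalar_snd]
    rfl

theorem ext_comp_inr' {B J : Type} [CStarAlgebra B] [NonUnitalCStarAlgebra J] (f : B →⋆ₙₐ[ℂ] J) :
    (ext f).comp (inr B) = (inr J).comp (f : B →ₙ+* J) := by
  apply DFunLike.ext
  intro a
  exact ext_inr f a

theorem map_ext_inr' {B J : Type} [CStarAlgebra B] [NonUnitalCStarAlgebra J] (f : B →⋆ₙₐ[ℂ] J)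
    (hf : Continuous (ext f)) (hf' : Continuous ((inr J).comp (f : B →ₙ+* J))) (x : K1 B) :
    K1.map (ext f) hf (K1.map (inr B) (inr_continuous B) x) =
      K1.map ((inr J).comp (f : B →ₙ+* J)) hf' x := by
  rw [← K1.map_comp]
  exact K1.map_congr (ext_comp_inr' f) _ _ x

end KF1_

open KF1_ in
theorem kf1_proof (_hK1A : Stmt_K1A) (hUN1 : Stmt_UN1) (hEXC : Stmt_EXC) (hSP1 : Stmt_SP1)
    (hSU1 : Stmt_SU1) (hIN1 : Stmt_IN1) : Stmt_KF1 := by
  have hc : ∀ {A B : Type} [NonUnitalCStarAlgebra A] [NonUnitalCStarAlgebra B]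
      (f : A →⋆ₙₐ[ℂ] B), Continuous (ext f) := fun {A B} _ _ f => (hEXC A B f).1
  let F : KKFunctor :=
    { obj := fun A _ _ => Ob A
      grp := fun A _ _ => inferInstanceAs (AddCommGroup (Ob A))
      map := fun {A B} _ _ _ _ f => mp f (hc f)
      map_id := fun A _ _ x => mp_id _ x
      map_comp := fun {A B C} _ _ _ _ _ _ g f x => mp_comp g f _ _ _ x
      homotopy := by
        intro A B _ _ _ _ f g h
        obtain ⟨H, hH, rfl, rfl⟩ := h
        exact mp_homotopy H hH _ _
      stable := by
        intro B J _ _ _ _ θ e hθ he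
        obtain ⟨u1, u2, u3⟩ := hUN1 B
        have hce : Continuous ((inr J).comp (e : B →ₙ+* J)) := by
          have h := (hc e).comp (inr_continuous B)
          rw [← ext_comp_inr' e]
          exact h
        constructor
        · rw [injective_iff_map_eq_zero]
          intro x hx
          obtain ⟨y, hy⟩ := u3 x.1 x.2
          have h1 : K1.map (ext e) (hc e) x.1 = 0 := congrArg Subtype.val hx
          rw [← hy, map_ext_inr' e (hc e) hce] at h1
          have h2 : y = 0 := hIN1 B J θ e hce hθ he (by rw [h1, map_zero])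
          apply Subtype.ext
          rw [← hy, h2, map_zero]
          rfl
        · intro x
          obtain ⟨y, hy⟩ := hSU1 B J θ e hce hθ he x.1 x.2
          refine ⟨⟨K1.map (inr B) (inr_continuous B) y, u1 y⟩, ?_⟩
          apply Subtype.ext
          rw [mp_val, map_ext_inr' e (hc e) hce, hy]
      split := by
        intro J E Q _ _ _ _ _ _ i p s hi hp hs
        obtain ⟨s1, s2⟩ := hSP1 J E Q i p s (hc i) (hc p) hi hp hs
        constructor
        · rw [injective_iff_map_eq_zero]
          intro x hx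
          apply Subtype.ext
          exact s1 x.1 x.2 (congrArg Subtype.val hx)
        · intro x
          constructor
          · intro h
            obtain ⟨y, hy1, hy2⟩ := s2 x.1 x.2 (congrArg Subtype.val h)
            exact ⟨⟨y, hy1⟩, Subtype.ext hy2⟩
          · rintro ⟨y, rfl⟩
            have h0 : p.comp i = 0 := by
              apply DFunLike.ext
              intro z
              exact (hp (i z)).2 ⟨z, rfl⟩
            apply Subtype.ext
            show K1.map (ext p) (hc p) (K1.map (ext i) (hc i) y.1) = 0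
            rw [← K1.map_comp (ext p) (ext i) (hc p) (hc i)]
            rw [K1.map_congr (ext_zero' p i h0) _ ((scal_continuous Q).comp (aug_continuous J))]
            rw [K1.map_comp _ _ (scal_continuous Q) (aug_continuous J)]
            rw [show K1.map (aug J) (aug_continuous J) y.1 = 0 from y.2, map_zero] }
  refine ⟨F, ?_⟩
  intro A B _ _ _ _ f hf hb
  obtain ⟨u1, u2, u3⟩ := hUN1 A
  obtain ⟨v1, v2, v3⟩ := hUN1 B
  have key := map_ext_inr f (hc f) hf
  constructor
  · rw [injective_iff_map_eq_zero]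
    intro x hx
    have h1 : F.map f (⟨K1.map (inr A) (inr_continuous A) x, u1 x⟩ : Ob A) = 0 := by
      apply Subtype.ext
      show K1.map (ext f) (hc f) (K1.map (inr A) (inr_continuous A) x) = 0
      rw [key, hx, map_zero]
    have h2 := hb.1 (h1.trans (map_zero (F.map f)).symm)
    have h3 : K1.map (inr A) (inr_continuous A) x = 0 := congrArg Subtype.val h2
    exact u2 (by rw [h3, map_zero])
  · intro y
    obtain ⟨z, hz⟩ := hb.2 (⟨K1.map (inr B) (inr_continuous B) y, v1 y⟩ : Ob B)
    have hz' : K1.map (ext f) (hc f) z.1 = K1.map (inr B) (inr_continuous B) y :=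
      congrArg Subtype.val hz
    obtain ⟨x, hx⟩ := u3 z.1 z.2
    refine ⟨x, v2 ?_⟩
    rw [← key, hx, hz']

end Pool.Agent.KCH
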