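import Pool.Agent.KCH.FStmts

/-!
# Squad KCH, module KKB: the inclusion `CC → AA` is a `KK`-equivalence
-/

set_option autoImplicit false

namespace Pool.Agent.KCH

open TopologicalSpace

namespace KKB_

/-! ### the corner homomorphism -/

theorem adj_iE : (ContinuousLinearMap.adjoint (opP (iE []))).comp (opP (iE [])) =
    ContinuousLinearMap.id ℂ (L2 XX) := by
  rw [opP_adjoint, opP_comp]
  refine op_ext fun x => ?_
  rw [opP_ee]
  have h : (iE []).trans (iE []).symm x = some x := by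
    show ((iE []) x).bind (iE []).symm = some x
    show (if ([] : List ℤ) = [] then some x else none) = some x
    simp
  rw [h]
  rfl

theorem th_mul (a b : Bd XX) : th [] [] a * th [] [] b = th [] [] (a * b) := by
  have h := adj_iE
  ext1 v
  show opP (iE []) (a (ContinuousLinearMap.adjoint (opP (iE [])) (opP (iE [])
    (b (ContinuousLinearMap.adjoint (opP (iE [])) v))))) = opP (iE []) (a (b _))
  have h1 := DFunLike.congr_fun h (b (ContinuousLinearMap.adjoint (opP (iE [])) v))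
  rw [ContinuousLinearMap.comp_apply] at h1
  rw [h1]
  rfl

theorem th_star (a : Bd XX) : star (th [] [] a) = th [] [] (star a) := by
  rw [ContinuousLinearMap.star_eq_adjoint, ContinuousLinearMap.star_eq_adjoint, th, th,
    ContinuousLinearMap.adjoint_comp, ContinuousLinearMap.adjoint_comp,
    ContinuousLinearMap.adjoint_adjoint]
  rfl

theorem th_add (a b : Bd XX) : th [] [] (a + b) = th [] [] a + th [] [] b := by
  ext1 v
  show opP (iE []) ((a + b) (ContinuousLinearMap.adjoint (opP (iE [])) v)) = opP (iE []) (a _) +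
    opP (iE []) (b _)
  rw [← map_add]
  rfl

theorem th_zero : th [] [] (0 : Bd XX) = 0 := by
  ext1 v
  show opP (iE []) ((0 : Bd XX) (ContinuousLinearMap.adjoint (opP (iE [])) v)) = 0
  rw [ContinuousLinearMap.zero_apply, map_zero]

theorem th_smul (c : ℂ) (a : Bd XX) : th [] [] (c • a) = c • th [] [] a := by
  ext1 v
  show opP (iE []) ((c • a) (ContinuousLinearMap.adjoint (opP (iE [])) v)) = c • opP (iE []) (a _)
  rw [← map_smul]
  rfl

section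
variable {D : Type} [CStarAlgebra D] (π : D →⋆ₐ[ℂ] Bd XX)

/-- `d ↦ th [] [] (π d)` -/
noncomputable def t0 : D →⋆ₙₐ[ℂ] Bd YY where
  toFun d := th [] [] (π d)
  map_smul' c d := by
    show th [] [] (π (c • d)) = c • th [] [] (π d)
    rw [map_smul, th_smul]
  map_zero' := by
    show th [] [] (π 0) = 0
    rw [map_zero, th_zero]
  map_add' a b := by
    show th [] [] (π (a + b)) = th [] [] (π a) + th [] [] (π b)
    rw [map_add, th_add]
  map_mul' a b := by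
    show th [] [] (π (a * b)) = th [] [] (π a) * th [] [] (π b)
    rw [map_mul, th_mul]
  map_star' a := by
    show th [] [] (π (star a)) = star (th [] [] (π a))
    rw [map_star, th_star]

theorem t0_apply (d : D) : t0 π d = th [] [] (π d) := rfl

theorem th_mem (μ ν : List ℤ) (d : D) : th μ ν (π d) ∈ JJ π := by
  have h : th μ ν (π d) ∈ NonUnitalStarAlgebra.adjoin ℂ {x | ∃ μ ν d, x = th μ ν (π d)} :=
    NonUnitalStarAlgebra.subset_adjoin ℂ _ ⟨μ, ν, d, rfl⟩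
  exact NonUnitalStarSubalgebra.le_topologicalClosure _ h

/-- `tX` -/
noncomputable def tX : D →⋆ₙₐ[ℂ] JJ π :=
  NonUnitalStarAlgHom.codRestrict (t0 π) (JJ π) fun d => th_mem π [] [] d

variable (ρ : AA →⋆ₙₐ[ℂ] Bd YY)

/-- the inclusion of the ideal -/
noncomputable def iX (h : ∀ y ∈ JJ π, ((0 : AA), y) ∈ EE π ρ) : JJ π →⋆ₙₐ[ℂ] EE π ρ :=
  NonUnitalStarAlgHom.codRestrict
    ((NonUnitalStarAlgHom.inr ℂ AA (Bd YY)).comp (NonUnitalStarSubalgebraClass.subtype (JJ π)))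
    (EE π ρ) fun y => h y.1 y.2

/-- the projection -/
noncomputable def pX : EE π ρ →⋆ₙₐ[ℂ] AA :=
  (NonUnitalStarAlgHom.fst ℂ AA (Bd YY)).comp (NonUnitalStarSubalgebraClass.subtype (EE π ρ))

/-- the lift of `AA` given by a homomorphism -/
noncomputable def fX (φ : AA →⋆ₙₐ[ℂ] Bd YY) (h : ∀ a, (a, φ a) ∈ EE π ρ) :
    AA →⋆ₙₐ[ℂ] EE π ρ :=
  NonUnitalStarAlgHom.codRestrict ((NonUnitalStarAlgHom.id ℂ AA).prod φ) (EE π ρ) h

theorem tX_val (d : D) : ((tX π d : JJ π) : Bd YY) = th [] [] (π d) := rfl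

theorem iX_val (h : ∀ y ∈ JJ π, ((0 : AA), y) ∈ EE π ρ) (y : JJ π) :
    ((iX π ρ h y : EE π ρ) : AA × Bd YY) = (0, (y : Bd YY)) := rfl

theorem pX_val (x : EE π ρ) : pX π ρ x = (x : AA × Bd YY).1 := rfl

theorem fX_val (φ : AA →⋆ₙₐ[ℂ] Bd YY) (h : ∀ a, (a, φ a) ∈ EE π ρ) (a : AA) :
    ((fX π ρ φ h a : EE π ρ) : AA × Bd YY) = (a, φ a) := rfl

theorem iX_inj (h : ∀ y ∈ JJ π, ((0 : AA), y) ∈ EE π ρ) : Function.Injective (iX π ρ h) := by
  intro x y hxy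
  apply Subtype.ext
  have h1 : ((iX π ρ h x : EE π ρ) : AA × Bd YY) = (iX π ρ h y : EE π ρ) := by rw [hxy]
  rw [iX_val, iX_val] at h1
  exact congrArg Prod.snd h1

theorem pX_ker (h : ∀ y ∈ JJ π, ((0 : AA), y) ∈ EE π ρ)
    (m : ∀ p : AA × Bd YY, p ∈ EE π ρ ↔ p.2 - ρ p.1 ∈ JJ π) (x : EE π ρ) :
    pX π ρ x = 0 ↔ ∃ y, iX π ρ h y = x := by
  constructor
  · intro hx
    rw [pX_val] at hx
    have h1 := (m x.1).1 x.2
    rw [hx, map_zero, sub_zero] at h1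
    refine ⟨⟨x.1.2, h1⟩, Subtype.ext ?_⟩
    rw [iX_val]
    exact Prod.ext hx.symm rfl
  · rintro ⟨y, rfl⟩
    rw [pX_val, iX_val]

end

section
variable {B : Type} [NonUnitalCStarAlgebra B] (S T : NonUnitalStarSubalgebra ℂ B)

/-- inclusion of closed subalgebras -/
def inc (h : S ≤ T) : S →⋆ₙₐ[ℂ] T :=
  NonUnitalStarAlgHom.codRestrict (NonUnitalStarSubalgebraClass.subtype S) T fun y => h y.2

theorem inc_val (h : S ≤ T) (y : S) : ((inc S T h y : T) : B) = (y : B) := rfl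

end

section
variable {D D' : Type} [CStarAlgebra D] [CStarAlgebra D'] (π : D →⋆ₐ[ℂ] Bd XX)
    (π' : D' →⋆ₐ[ℂ] Bd XX) (ρ : AA →⋆ₙₐ[ℂ] Bd YY)

theorem eps_iX (h : ∀ y ∈ JJ π, ((0 : AA), y) ∈ EE π ρ)
    (h' : ∀ y ∈ JJ π', ((0 : AA), y) ∈ EE π' ρ) (l : JJ π ≤ JJ π') (l' : EE π ρ ≤ EE π' ρ)
    (y : JJ π) : inc (EE π ρ) (EE π' ρ) l' (iX π ρ h y) = iX π' ρ h' (inc (JJ π) (JJ π') l y) := by
  apply Subtype.ext
  rw [iX_val, inc_val, inc_val, iX_val]

theorem eps_fX (φ : AA →⋆ₙₐ[ℂ] Bd YY) (h : ∀ a, (a, φ a) ∈ EE π ρ)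
    (h' : ∀ a, (a, φ a) ∈ EE π' ρ) (l' : EE π ρ ≤ EE π' ρ) (a : AA) :
    inc (EE π ρ) (EE π' ρ) l' (fX π ρ φ h a) = fX π' ρ φ h' a := by
  apply Subtype.ext
  rw [inc_val, fX_val, fX_val]

end

theorem le_JJ : JJ pC ≤ JJ pA := by
  apply NonUnitalStarSubalgebra.topologicalClosure_mono
  apply NonUnitalStarAlgebra.adjoin_mono
  rintro x ⟨μ, ν, d, rfl⟩
  exact ⟨μ, ν, jj d, by rw [pA_jj]⟩

end KKB_

open KKB_ in
theorem kkb_proof (hABS : Stmt_ABS) (hRHO : Stmt_RHO) (hPSI : Stmt_PSI) (hJSP : Stmt_JSP)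
    (hJST : Stmt_JST) (hEEM : Stmt_EEM) (hESP : Stmt_ESP) (hDIF : Stmt_DIF) : Stmt_KKB := by
  intro _ _ F
  obtain ⟨ρ, hρ1, hρ2⟩ := hRHO
  obtain ⟨ψ, hψ, hψc⟩ := hPSI
  obtain ⟨d1, d2, d3, d4, d5⟩ := hDIF ρ ψ hρ1 hρ2 hψ
  have mC := hEEM ρ hρ1 hρ2 CC pC
  have mA := hEEM ρ hρ1 hρ2 AA pA
  have : SeparableSpace (JJ pC) := hJSP CC pC inferInstance
  have : SeparableSpace (JJ pA) := hJSP AA pA inferInstance
  have : SeparableSpace (EE pC ρ) := hESP ρ hρ1 hρ2 CC pC inferInstance inferInstance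
  have : SeparableSpace (EE pA ρ) := hESP ρ hρ1 hρ2 AA pA inferInstance inferInstance
  have leE : EE pC ρ ≤ EE pA ρ := fun p hp => (mA p).2 (le_JJ ((mC p).1 hp))
  obtain ⟨θC, hθC, hθC'⟩ := hJST CC pC pC_injective
  obtain ⟨θA, hθA, hθA'⟩ := hJST AA pA pA_injective
  have bC : Function.Bijective (F.map (tX pC)) :=
    F.stable θC (tX pC) hθC fun b => Subtype.ext (hθC' b).symm
  have bA : Function.Bijective (F.map (tX pA)) :=
    F.stable θA (tX pA) hθA fun b => Subtype.ext (hθA' b).symm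
  have hiC : ∀ y ∈ JJ pC, ((0 : AA), y) ∈ EE pC ρ := fun y hy => by
    rw [mC]
    show y - ρ 0 ∈ JJ pC
    rw [map_zero, sub_zero]
    exact hy
  have hiA : ∀ y ∈ JJ pA, ((0 : AA), y) ∈ EE pA ρ := fun y hy => by
    rw [mA]
    show y - ρ 0 ∈ JJ pA
    rw [map_zero, sub_zero]
    exact hy
  have hsC : ∀ a, (a, ρ a) ∈ EE pC ρ := fun a => by
    rw [mC]
    show ρ a - ρ a ∈ JJ pC
    rw [sub_self]
    exact zero_mem _
  have hsA : ∀ a, (a, ρ a) ∈ EE pA ρ := fun a => leE (hsC a)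
  have hfC : ∀ a, (a, ψ (Real.pi / 2) a) ∈ EE pC ρ := fun a => (mC _).2 (d2 a)
  have hfA : ∀ t a, (a, ψ t a) ∈ EE pA ρ := fun t a => (mA _).2 (d1 t a)
  refine hABS F CC AA (JJ pC) (JJ pA) (EE pC ρ) (EE pA ρ) jj
    (inc (JJ pC) (JJ pA) le_JJ) (inc (EE pC ρ) (EE pA ρ) leE)
    (iX pC ρ hiC) (pX pC ρ) (fX pC ρ ρ hsC) (fX pC ρ (ψ (Real.pi / 2)) hfC)
    (iX pA ρ hiA) (pX pA ρ) (fX pA ρ ρ hsA) (fX pA ρ (ψ (Real.pi / 2)) (hfA _))
    (fX pA ρ (ψ 0) (hfA _)) (tX pC) (tX pA) ?_ ?_ ?_ ?_ ?_ ?_ ?_ bC bA ?_ ?_ ?_ ?_ ?_ ?_ ?_ ?_ ?_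
  · exact iX_inj pC ρ hiC
  · exact pX_ker pC ρ hiC mC
  · intro a; rfl
  · intro a; rfl
  · exact iX_inj pA ρ hiA
  · exact pX_ker pA ρ hiA mA
  · intro a; rfl
  · intro c
    apply Subtype.ext
    rw [inc_val, tX_val, tX_val]
    show th [] [] (pC c) = th [] [] (pA (jj c))
    rw [pA_jj]
  · exact eps_iX pC pA ρ hiC hiA le_JJ leE
  · exact eps_fX pC pA ρ ρ hsC hsA leE
  · exact eps_fX pC pA ρ (ψ (Real.pi / 2)) hfC (hfA _) leE
  · intro c
    apply Subtype.ext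
    show (jj c, ψ (Real.pi / 2) (jj c)) = (jj c, ρ (jj c)) + ((0 : AA), th [] [] (pC c))
    rw [Prod.mk_add_mk, add_zero, d4]
  · intro c c'
    apply Subtype.ext
    show (jj c, ρ (jj c)) * ((0 : AA), th [] [] (pC c')) = 0
    rw [Prod.mk_mul_mk, mul_zero, d5]
    rfl
  · refine ⟨fun t => fX pA ρ (ψ ((1 - t) * (Real.pi / 2))) (hfA _), ?_, ?_, ?_⟩
    · intro a
      have hc : Continuous fun t : ℝ => ψ ((1 - t) * (Real.pi / 2)) a :=
        (hψc a).comp ((continuous_const.sub continuous_id).mul continuous_const)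
      exact Continuous.subtype_mk (continuous_const.prodMk hc) _
    · apply DFunLike.ext
      intro a
      apply Subtype.ext
      show (a, ψ ((1 - 0) * (Real.pi / 2)) a) = (a, ψ (Real.pi / 2) a)
      rw [sub_zero, one_mul]
    · apply DFunLike.ext
      intro a
      apply Subtype.ext
      show (a, ψ ((1 - 1) * (Real.pi / 2)) a) = (a, ψ 0 a)
      rw [sub_self, zero_mul]
  · intro a
    apply Subtype.ext
    show (a, ψ 0 a) = (a, ρ a) + ((0 : AA), th [] [] (pA a))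
    rw [Prod.mk_add_mk, add_zero, d3]
  · intro a a'
    apply Subtype.ext
    show (a, ρ a) * ((0 : AA), th [] [] (pA a')) = 0
    rw [Prod.mk_mul_mk, mul_zero, d5]
    rfl

end Pool.Agent.KCH
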