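import Pool.Agent.KCH.KDefs

set_option autoImplicit false

namespace Pool.Agent.KCH

open TopologicalSpace

section
variable {A B C : Type} [Ring A] [Ring B] [Ring C]

theorem c0_zero {ι : Type} [Fintype ι] (h : (0 : Matrix ι ι A) * 0 = 0) :
    c0 (0 : Matrix ι ι A) h = 0 := by
  have h1 : c0 (0 : Matrix ι ι A) h + c0 (0 : Matrix ι ι A) h = c0 (0 : Matrix ι ι A) h := by
    rw [← c0_sum]
    apply c0_eq
    exact ⟨0, 0, by simp, by simp⟩
  simpa using h1

/-- orthogonal sums -/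
theorem add_idem {ι : Type} [Fintype ι] {e f : Matrix ι ι A} (he : e * e = e) (hf : f * f = f)
    (h : e * f = 0) (h' : f * e = 0) : (e + f) * (e + f) = e + f := by
  rw [add_mul, mul_add, mul_add, he, hf, h, h']; simp

theorem c0_orth {ι : Type} [Fintype ι] {e f : Matrix ι ι A} (he : e * e = e) (hf : f * f = f)
    (h : e * f = 0) (h' : f * e = 0) :
    c0 (e + f) (add_idem he hf h h') = c0 e he + c0 f hf := by
  classical
  rw [← c0_sum]
  apply c0_eq
  refine ⟨Matrix.fromCols e f, Matrix.fromRows e f, ?_, ?_⟩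
  · rw [Matrix.fromCols_mul_fromRows, he, hf]
  · rw [Matrix.fromRows_mul_fromCols, he, hf, h, h']

/-- intertwined idempotents have the same class -/
theorem c0_conj {ι : Type} [Fintype ι] [DecidableEq ι] {e f : Matrix ι ι A} (he : e * e = e)
    (hf : f * f = f) (z : (Matrix ι ι A)ˣ) (h : (z : Matrix ι ι A) * e = f * z) :
    c0 e he = c0 f hf := by
  apply c0_eq
  refine ⟨e * (↑z⁻¹ : Matrix ι ι A), z * e, ?_, ?_⟩
  · rw [Matrix.mul_assoc, ← Matrix.mul_assoc (↑z⁻¹ : Matrix ι ι A), z.inv_mul, one_mul, he]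
  · rw [Matrix.mul_assoc, ← Matrix.mul_assoc e, he, ← Matrix.mul_assoc, h, Matrix.mul_assoc,
      z.mul_inv, mul_one]

/-- the first summand of a block diagonal matrix with zero -/
theorem c0_fromBlocks_zero {ι κ : Type} [Fintype ι] [Fintype κ] {e : Matrix ι ι A}
    (he : e * e = e) :
    c0 (Matrix.fromBlocks e 0 0 (0 : Matrix κ κ A)) (fromBlocks_idem he (by simp)) = c0 e he := by
  rw [c0_sum he (by simp), c0_zero, add_zero]

theorem mm_one (f : A →ₙ+* B) (h : f 1 = 1) {ι : Type} [DecidableEq ι] :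
    mm f (1 : Matrix ι ι A) = 1 := by
  ext i j
  rw [mm_apply, Matrix.one_apply, Matrix.one_apply]
  split_ifs
  · exact h
  · exact map_zero f

theorem m1_eq_mm (f : A →ₙ+* B) (h : f 1 = 1) {ι : Type} [DecidableEq ι] (g : Matrix ι ι A) :
    m1 f g = mm f g := by
  rw [m1, mm_sub, mm_one f h]; abel

theorem mm_comp (g : B →ₙ+* C) (f : A →ₙ+* B) {ι κ : Type} (x : Matrix ι κ A) :
    mm (g.comp f) x = mm g (mm f x) := rfl

theorem mm_isUnit (f : A →ₙ+* B) (h : f 1 = 1) {ι : Type} [Fintype ι] [DecidableEq ι]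
    {g : Matrix ι ι A} (hg : IsUnit g) : IsUnit (mm f g) := by
  rw [← m1_eq_mm f h]; exact m1_isUnit f hg

/-- images of units under unital homomorphisms -/
def mmU (f : A →ₙ+* B) (h : f 1 = 1) {ι : Type} [Fintype ι] [DecidableEq ι]
    (z : (Matrix ι ι A)ˣ) : (Matrix ι ι B)ˣ where
  val := mm f z
  inv := mm f ↑z⁻¹
  val_inv := by rw [← mm_mul, z.mul_inv, mm_one f h]
  inv_val := by rw [← mm_mul, z.inv_mul, mm_one f h]

theorem mmU_val (f : A →ₙ+* B) (h : f 1 = 1) {ι : Type} [Fintype ι] [DecidableEq ι]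
    (z : (Matrix ι ι A)ˣ) : (mmU f h z : Matrix ι ι B) = mm f z := rfl

theorem mmU_inv (f : A →ₙ+* B) (h : f 1 = 1) {ι : Type} [Fintype ι] [DecidableEq ι]
    (z : (Matrix ι ι A)ˣ) : ((mmU f h z)⁻¹ : (Matrix ι ι B)ˣ) = mmU f h z⁻¹ := rfl

theorem mm_injective (f : A →ₙ+* B) (h : Function.Injective f) {ι κ : Type} :
    Function.Injective (mm f : Matrix ι κ A → Matrix ι κ B) := by
  intro x y hxy
  ext i j
  exact h (congrFun (congrFun hxy i) j)

theorem toFin_m1 (f : A →ₙ+* B) {ι : Type} [Fintype ι] [DecidableEq ι] (g : Matrix ι ι A) :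
    toFin (m1 f g) = m1 f (toFin g) := by
  ext i j
  simp [toFin, m1, Matrix.one_apply]

end

section
variable {A B C : Type} [NormedRing A] [NormedRing B] [NormedRing C]

theorem K1.map_c1 (f : A →ₙ+* B) (hf : Continuous f) {ι : Type} [Fintype ι] [DecidableEq ι]
    {g : Matrix ι ι A} (hg : IsUnit g) :
    K1.map f hf (c1 g hg) = c1 (m1 f g) (m1_isUnit f hg) := by
  rw [c1, K1.map_cl1, c1]
  congr 1
  exact GLm.mk_congr (toFin_m1 f g).symm _ _

theorem c1_congr {ι : Type} [Fintype ι] [DecidableEq ι] {g h : Matrix ι ι A} (e : g = h)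
    (hg : IsUnit g) (hh : IsUnit h) : c1 g hg = c1 h hh := by
  subst e; rfl

theorem K1.map_congr {f g : A →ₙ+* B} (e : f = g) (hf : Continuous f) (hg : Continuous g)
    (x : K1 A) : K1.map f hf x = K1.map g hg x := by
  subst e; rfl

/-- a joined pair from a path defined on the line -/
theorem joinedIn_of_continuousOn {X : Type} [TopologicalSpace X] {S : Set X} (f : ℝ → X)
    (hf : ContinuousOn f (Set.Icc 0 1)) (h : ∀ t ∈ Set.Icc (0 : ℝ) 1, f t ∈ S) :
    JoinedIn S (f 0) (f 1) := by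
  refine ⟨⟨⟨fun t => f t, ?_⟩, by simp, by simp⟩, fun t => h t t.2⟩
  exact hf.comp_continuous continuous_subtype_val fun t => t.2

end

/-! ### rules for `ext`, `aug`, `inr` -/

section
variable {A B C : Type} [NonUnitalCStarAlgebra A] [NonUnitalCStarAlgebra B]
  [NonUnitalCStarAlgebra C]

theorem ext_fst (f : A →⋆ₙₐ[ℂ] B) (x : Unitization ℂ A) : (ext f x).fst = x.fst := by
  rw [ext_apply, Unitization.algebraMap_eq_inl]
  show (Unitization.inl x.fst : Unitization ℂ B).fst + ((f x.snd : B) : Unitization ℂ B).fst = _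
  rw [Unitization.fst_inl, Unitization.fst_inr, add_zero]

theorem ext_snd (f : A →⋆ₙₐ[ℂ] B) (x : Unitization ℂ A) : (ext f x).snd = f x.snd := by
  rw [ext_apply, Unitization.algebraMap_eq_inl]
  show (Unitization.inl x.fst : Unitization ℂ B).snd + ((f x.snd : B) : Unitization ℂ B).snd = _
  rw [Unitization.snd_inl, Unitization.snd_inr, zero_add]

omit [NonUnitalCStarAlgebra A] in
theorem un_ext {x y : Unitization ℂ A} (h1 : x.fst = y.fst) (h2 : x.snd = y.snd) : x = y := by
  rcases x with ⟨⟨x1, x2⟩⟩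
  rcases y with ⟨⟨y1, y2⟩⟩
  simp only at h1 h2
  rw [h1, h2]

theorem ext_inr (f : A →⋆ₙₐ[ℂ] B) (a : A) : ext f (inr A a) = inr B (f a) := by
  apply un_ext
  · rw [ext_fst]; rfl
  · rw [ext_snd]; rfl

theorem scalar_fst (c : ℂ) : (algebraMap ℂ (Unitization ℂ A) c).fst = c := rfl

theorem scalar_snd (c : ℂ) : (algebraMap ℂ (Unitization ℂ A) c).snd = 0 := rfl

theorem inr_fst (a : A) : (inr A a).fst = 0 := rfl

theorem inr_snd (a : A) : (inr A a).snd = a := rfl

theorem ext_algebraMap (f : A →⋆ₙₐ[ℂ] B) (c : ℂ) :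
    ext f (algebraMap ℂ (Unitization ℂ A) c) = algebraMap ℂ (Unitization ℂ B) c := by
  apply un_ext
  · rw [ext_fst]; rfl
  · rw [ext_snd]; exact map_zero f

theorem ext_one (f : A →⋆ₙₐ[ℂ] B) : ext f 1 = 1 := by
  have h := ext_algebraMap f 1
  rw [map_one (algebraMap ℂ (Unitization ℂ A)), map_one (algebraMap ℂ (Unitization ℂ B))] at h
  exact h

/-- an element with zero scalar part is in the algebra -/
theorem eq_inr {x : Unitization ℂ A} (h : x.fst = 0) : x = inr A x.snd := un_ext h rfl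

theorem ext_id : ext (NonUnitalStarAlgHom.id ℂ A) = NonUnitalRingHom.id (Unitization ℂ A) := by
  apply DFunLike.ext
  intro x
  apply un_ext
  · rw [ext_fst]; rfl
  · rw [ext_snd]; rfl

theorem ext_comp (g : B →⋆ₙₐ[ℂ] C) (f : A →⋆ₙₐ[ℂ] B) :
    ext (g.comp f) = (ext g).comp (ext f) := by
  apply DFunLike.ext
  intro x
  apply un_ext
  · show (ext (g.comp f) x).fst = (ext g (ext f x)).fst
    rw [ext_fst, ext_fst, ext_fst]
  · show (ext (g.comp f) x).snd = (ext g (ext f x)).snd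
    rw [ext_snd, ext_snd, ext_snd]; rfl

theorem aug_ext (f : A →⋆ₙₐ[ℂ] B) : (aug B).comp (ext f) = aug A := by
  ext x
  show (ext f x).fst = x.fst
  exact ext_fst f x

theorem aug_one : aug A 1 = 1 := rfl

theorem aug_inr (a : A) : aug A (inr A a) = 0 := rfl

theorem ext_injective (f : A →⋆ₙₐ[ℂ] B) (h : Function.Injective f) :
    Function.Injective (ext f) := by
  intro x y hxy
  have h1 : (ext f x).fst = (ext f y).fst := by rw [hxy]
  have h2 : (ext f x).snd = (ext f y).snd := by rw [hxy]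
  rw [ext_fst, ext_fst] at h1
  rw [ext_snd, ext_snd] at h2
  exact un_ext h1 (h h2)

end

end Pool.Agent.KCH
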