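import Pool.Agent.KCH.KStmts

namespace Pool.Agent.KCH

open Polynomial

namespace LAU_

/-- Laurent polynomials (with all large denominators) -/
def La (f : C(TC, ℂ)) : Prop :=
  ∃ m₀ : ℕ, ∀ m : ℕ, m₀ ≤ m → ∃ q : Polynomial ℂ, f = fourier (-(m : ℤ)) * evz q

lemma fourier_pow (k : ℕ) : (fourier 1 : C(TC, ℂ)) ^ k = fourier (k : ℤ) := by
  induction k with
  | zero =>
    ext x
    simp
  | succ k ih =>
    rw [pow_succ, ih]
    ext x
    rw [ContinuousMap.mul_apply, ← fourier_add]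
    push_cast
    rfl

lemma evz_X_pow (k : ℕ) : evz (X ^ k) = fourier (k : ℤ) := by
  rw [← fourier_pow]
  simp [evz]

lemma evz_C (c : ℂ) : evz (C c) = algebraMap ℂ C(TC, ℂ) c := by
  simp [evz]

lemma La_fourier (k : ℤ) : La (fourier k) := by
  refine ⟨k.natAbs, fun m hm => ⟨X ^ (k + m).toNat, ?_⟩⟩
  rw [evz_X_pow, Int.toNat_of_nonneg (by omega)]
  ext x
  rw [ContinuousMap.mul_apply, ← fourier_add]
  congr 2
  ring

lemma La_zero : La 0 := ⟨0, fun m _ => ⟨0, by simp⟩⟩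

lemma La_add (f g : C(TC, ℂ)) (hf : La f) (hg : La g) : La (f + g) := by
  obtain ⟨a, ha⟩ := hf
  obtain ⟨b, hb⟩ := hg
  refine ⟨max a b, fun m hm => ?_⟩
  obtain ⟨q, hq⟩ := ha m (le_trans (le_max_left _ _) hm)
  obtain ⟨r, hr⟩ := hb m (le_trans (le_max_right _ _) hm)
  exact ⟨q + r, by rw [map_add, mul_add, ← hq, ← hr]⟩

lemma La_smul (c : ℂ) (f : C(TC, ℂ)) (hf : La f) : La (c • f) := by
  obtain ⟨a, ha⟩ := hf
  refine ⟨a, fun m hm => ?_⟩
  obtain ⟨q, hq⟩ := ha m hm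
  refine ⟨C c * q, ?_⟩
  rw [map_mul, evz_C]
  have h1 : c • f = algebraMap ℂ C(TC, ℂ) c * f := by
    ext x
    simp
  rw [h1]
  nth_rewrite 1 [hq]
  ring

lemma La_span (f : C(TC, ℂ)) (hf : f ∈ Submodule.span ℂ (Set.range (fourier (T := 1)))) : La f := by
  induction hf using Submodule.span_induction with
  | mem x hx =>
    obtain ⟨k, rfl⟩ := hx
    exact La_fourier k
  | zero => exact La_zero
  | add x y _ _ hx hy => exact La_add x y hx hy
  | smul c x _ hx => exact La_smul c x hx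

lemma dense (g : C(TC, ℂ)) (ε : ℝ) (hε : 0 < ε) : ∃ f : C(TC, ℂ), La f ∧ ‖f - g‖ < ε := by
  have h : g ∈ closure (Submodule.span ℂ (Set.range (fourier (T := 1))) : Set C(TC, ℂ)) := by
    have h1 := span_fourier_closure_eq_top (T := 1)
    have h2 : g ∈ (Submodule.span ℂ (Set.range (fourier (T := 1)))).topologicalClosure := by
      rw [h1]; trivial
    rwa [← SetLike.mem_coe, Submodule.topologicalClosure_coe] at h2
  obtain ⟨f, hf, hd⟩ := Metric.mem_closure_iff.1 h ε hε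
  refine ⟨f, La_span f hf, ?_⟩
  rw [← dist_eq_norm, dist_comm]
  exact hd

end LAU_

open LAU_ in
theorem lau_proof (hSEG : Stmt_SEG) : Stmt_LAU := by
  intro n g hg
  obtain ⟨ε, hε, h⟩ := hSEG C(TC, ℂ) (Fin n) g hg
  choose f hf hfg using fun (i j : Fin n) => dense (g i j) ε hε
  choose m₀ hm₀ using hf
  set m : ℕ := ∑ i, ∑ j, m₀ i j with hm
  have hle : ∀ i j, m₀ i j ≤ m := by
    intro i j
    calc m₀ i j ≤ ∑ j, m₀ i j := Finset.single_le_sum (f := fun j => m₀ i j)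
          (fun _ _ => Nat.zero_le _) (Finset.mem_univ j)
      _ ≤ m := Finset.single_le_sum (f := fun i => ∑ j, m₀ i j)
          (fun _ _ => Nat.zero_le _) (Finset.mem_univ i)
  choose p hp using fun (i j : Fin n) => hm₀ i j m (hle i j)
  refine ⟨m, Matrix.of p, ?_⟩
  apply h
  intro i j
  have : (((fourier (-(m : ℤ)) : C(TC, ℂ)) • (Matrix.of p).map evz) : Matrix _ _ _) i j = f i j := by
    rw [hp i j]
    simp [Matrix.smul_apply]
  rw [this]
  exact hfg i j

end Pool.Agent.KCH
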