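import Pool.Agent.KCH.KStmts

set_option autoImplicit false

namespace Pool.Agent.KCH

open TopologicalSpace

namespace LFJ_

section
variable {J E Q : Type} [NonUnitalCStarAlgebra J] [NonUnitalCStarAlgebra E]
  [NonUnitalCStarAlgebra Q]

/-- an element whose image in `Q^+` is the scalar `c` comes from `J^+` -/
theorem lift_elt (i : J →⋆ₙₐ[ℂ] E) (p : E →⋆ₙₐ[ℂ] Q) (hex : ∀ x, p x = 0 ↔ ∃ y, i y = x)
    (x : Unitization ℂ E) (hx : (ext p x).snd = 0) :
    ∃ g : Unitization ℂ J, ext i g = x ∧ g.fst = x.fst := by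
  rw [ext_snd] at hx
  obtain ⟨y, hy⟩ := (hex x.snd).1 hx
  refine ⟨Unitization.inl x.fst + inr J y, ?_, ?_⟩
  · apply un_ext
    · rw [ext_fst, Unitization.fst_add, Unitization.fst_inl, inr_fst, add_zero]
    · rw [ext_snd, Unitization.snd_add, Unitization.snd_inl, inr_snd, zero_add, hy]
  · rw [Unitization.fst_add, Unitization.fst_inl, inr_fst, add_zero]

theorem lift_mat (i : J →⋆ₙₐ[ℂ] E) (p : E →⋆ₙₐ[ℂ] Q) (hex : ∀ x, p x = 0 ↔ ∃ y, i y = x)
    {ι : Type} [DecidableEq ι] (w : Matrix ι ι (Unitization ℂ E)) (hw : mm (ext p) w = 1) :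
    ∃ g : Matrix ι ι (Unitization ℂ J), mm (ext i) g = w ∧ mm (aug J) g = 1 := by
  have h1 : ∀ a b, (ext p (w a b)) = (1 : Matrix ι ι (Unitization ℂ Q)) a b := fun a b => by
    rw [← hw]; rfl
  have h2 : ∀ a b, (ext p (w a b)).snd = 0 := by
    intro a b
    rw [h1, Matrix.one_apply]
    split_ifs
    · exact Unitization.snd_one
    · exact Unitization.snd_zero
  have h3 : ∀ a b, (w a b).fst = (1 : Matrix ι ι ℂ) a b := by
    intro a b
    have h : (ext p (w a b)).fst = ((1 : Matrix ι ι (Unitization ℂ Q)) a b).fst := by rw [h1]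
    rw [ext_fst] at h
    rw [h, Matrix.one_apply, Matrix.one_apply]
    split_ifs
    · exact Unitization.fst_one
    · exact Unitization.fst_zero
  choose g hg hg' using fun a b => lift_elt i p hex (w a b) (h2 a b)
  refine ⟨Matrix.of g, ?_, ?_⟩
  · funext a b
    exact hg a b
  · funext a b
    exact (hg' a b).trans (h3 a b)

theorem lift_unit (i : J →⋆ₙₐ[ℂ] E) (p : E →⋆ₙₐ[ℂ] Q) (hi : Function.Injective i)
    (hex : ∀ x, p x = 0 ↔ ∃ y, i y = x)
    {ι : Type} [Fintype ι] [DecidableEq ι] (w : Matrix ι ι (Unitization ℂ E)) (hu : IsUnit w)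
    (hw : mm (ext p) w = 1) :
    ∃ g : Matrix ι ι (Unitization ℂ J), IsUnit g ∧ mm (ext i) g = w ∧ mm (aug J) g = 1 := by
  obtain ⟨g, hg, hg1⟩ := lift_mat i p hex w hw
  obtain ⟨u, rfl⟩ := hu
  have h1 : mm (ext p) (↑u⁻¹ : Matrix ι ι (Unitization ℂ E)) = 1 := by
    have h2 : mm (ext p) (u : Matrix ι ι (Unitization ℂ E)) *
        mm (ext p) (↑u⁻¹ : Matrix ι ι (Unitization ℂ E)) = 1 := by
      rw [← mm_mul, u.mul_inv, mm_one (ext p) (ext_one p)]
    rwa [hw, one_mul] at h2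
  obtain ⟨g', hg', -⟩ := lift_mat i p hex _ h1
  have hinj := mm_injective (ι := ι) (κ := ι) (ext i) (ext_injective i hi)
  refine ⟨g, ⟨⟨g, g', ?_, ?_⟩, rfl⟩, hg, hg1⟩
  · apply hinj
    rw [mm_mul, hg, hg', u.mul_inv, mm_one (ext i) (ext_one i)]
  · apply hinj
    rw [mm_mul, hg, hg', u.inv_mul, mm_one (ext i) (ext_one i)]

end

end LFJ_

open LFJ_ in
theorem lfj_proof (hEXC : Stmt_EXC) : Stmt_LFJ := by
  intro J E Q _ _ _ i p hi hex ι _ _
  refine ⟨fun w hu hw => lift_unit i p hi hex w hu hw, ?_⟩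
  intro g g' hJ
  obtain ⟨γ, hγ⟩ := hJ
  have hinj := mm_injective (ι := ι) (κ := ι) (ext i) (ext_injective i hi)
  choose G hG1 hG2 _ using fun t => lift_unit i p hi hex (γ t) (hγ t).1 (hγ t).2
  have hemb : Topology.IsInducing (ext i) := ((hEXC J E i).2 hi).isEmbedding.isInducing
  have hc : Continuous G := by
    apply continuous_matrix
    intro a b
    rw [hemb.continuous_iff]
    have h1 : (ext i) ∘ (fun t => G t a b) = fun t => γ t a b := by
      funext t
      rw [← hG2 t]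
      rfl
    rw [h1]
    exact γ.continuous.matrix_elem a b
  have h0 : G 0 = g := hinj (by rw [hG2, γ.source])
  have h1 : G 1 = g' := hinj (by rw [hG2, γ.target])
  exact ⟨⟨⟨G, hc⟩, h0, h1⟩, hG1⟩

end Pool.Agent.KCH
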