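import Pool.Agent.KCH.KStmts

set_option autoImplicit false

namespace Pool.Agent.KCH

open TopologicalSpace

namespace LM1_

variable {B J : Type} [CStarAlgebra B] [NonUnitalCStarAlgebra J] {θ : ℕ → ℕ → B →ₗ[ℂ] J}

/-- the entries of `bl` in the ideal -/
noncomputable def Y (θ : ℕ → ℕ → B →ₗ[ℂ] J) {ι : Type} {n : ℕ}
    (x : Matrix (ι × Fin n) (ι × Fin n) B) (i j : ι) : J :=
  ∑ k : Fin n, ∑ l : Fin n, θ k l (x (i, k) (j, l))

theorem bl_eq {ι : Type} {n : ℕ} (x : Matrix (ι × Fin n) (ι × Fin n) B) (i j : ι) :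
    bl θ x i j = ((Y θ x i j : J) : Unitization ℂ J) := rfl

theorem cont (h : IsStab θ) (k l : ℕ) : Continuous (θ k l) :=
  AddMonoidHomClass.continuous_of_bound (θ k l) 1 (fun b => by rw [h.norm_eq, one_mul])

theorem isom (h : IsStab θ) (k l : ℕ) : Isometry (θ k l) :=
  AddMonoidHomClass.isometry_of_norm (θ k l) (h.norm_eq k l)

theorem norm_one_le : ‖(1 : B)‖ ≤ 1 := by
  have h := CStarRing.norm_star_mul_self (x := (1 : B))
  rw [star_one, one_mul] at h
  nlinarith [norm_nonneg (1 : B), sq_nonneg (‖(1 : B)‖ - 1)]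

theorem mul_left (h : IsStab θ) {n : ℕ} (a : B) (k : ℕ) (p : Fin n) (Z : Fin n → Fin n → B) :
    θ k p a * (∑ p' : Fin n, ∑ l : Fin n, θ p' l (Z p' l)) = ∑ l : Fin n, θ k l (a * Z p l) := by
  rw [Finset.mul_sum, Finset.sum_eq_single p]
  · rw [Finset.mul_sum]
    exact Finset.sum_congr rfl fun l _ => h.mul_same _ _ _ _ _
  · intro q _ hq
    rw [Finset.mul_sum]
    apply Finset.sum_eq_zero
    intro l _
    apply h.mul_ne
    intro e
    exact hq (Fin.ext e.symm)
  · intro hp
    exact absurd (Finset.mem_univ p) hp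

theorem mul_two (h : IsStab θ) {n : ℕ} (X Z : Fin n → Fin n → B) :
    (∑ k : Fin n, ∑ p : Fin n, θ k p (X k p)) * (∑ p : Fin n, ∑ l : Fin n, θ p l (Z p l)) =
      ∑ k : Fin n, ∑ l : Fin n, ∑ p : Fin n, θ k l (X k p * Z p l) := by
  rw [Finset.sum_mul]
  apply Finset.sum_congr rfl
  intro k _
  rw [Finset.sum_mul]
  conv_rhs => rw [Finset.sum_comm]
  apply Finset.sum_congr rfl
  intro p _
  exact mul_left h _ _ _ _

theorem Y_mul (h : IsStab θ) {ι : Type} [Fintype ι] {n : ℕ}
    (x y : Matrix (ι × Fin n) (ι × Fin n) B) (i j : ι) :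
    Y θ (x * y) i j = ∑ m, Y θ x i m * Y θ y m j := by
  have h1 : ∀ m, Y θ x i m * Y θ y m j = ∑ k : Fin n, ∑ l : Fin n, ∑ p : Fin n,
      θ k l (x (i, k) (m, p) * y (m, p) (j, l)) := fun m => mul_two h _ _
  rw [Finset.sum_congr rfl fun m _ => h1 m, Finset.sum_comm]
  apply Finset.sum_congr rfl
  intro k _
  rw [Finset.sum_comm]
  apply Finset.sum_congr rfl
  intro l _
  rw [Matrix.mul_apply, map_sum, Fintype.sum_prod_type]

theorem inr_sum {ι : Type} (s : Finset ι) (f : ι → J) :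
    ((∑ i ∈ s, f i : J) : Unitization ℂ J) = ∑ i ∈ s, ((f i : J) : Unitization ℂ J) :=
  map_sum (Unitization.inrNonUnitalAlgHom ℂ J) f s

theorem Y_one {ι : Type} [DecidableEq ι] {n : ℕ} (i j : ι) :
    Y θ (1 : Matrix (ι × Fin n) (ι × Fin n) B) i j = if i = j then pn θ n else 0 := by
  unfold Y
  split_ifs with hij
  · subst hij
    rw [pn, Finset.sum_range]
    apply Finset.sum_congr rfl
    intro k _
    rw [Finset.sum_eq_single k]
    · rw [Matrix.one_apply_eq]
    · intro l _ hl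
      rw [Matrix.one_apply_ne, map_zero]
      intro e
      exact hl (congrArg Prod.snd e).symm
    · intro hk
      exact absurd (Finset.mem_univ k) hk
  · apply Finset.sum_eq_zero
    intro k _
    apply Finset.sum_eq_zero
    intro l _
    rw [Matrix.one_apply_ne, map_zero]
    intro e
    exact hij (congrArg Prod.fst e)

theorem corner (h : IsStab θ) {n : ℕ} (Z : Fin n → Fin n → B) (k l : Fin n) :
    θ 0 k 1 * (∑ k' : Fin n, ∑ l' : Fin n, θ k' l' (Z k' l')) * θ l 0 1 = θ 0 0 (Z k l) := by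
  rw [mul_left h, Finset.sum_mul, Finset.sum_eq_single l]
  · rw [h.mul_same, one_mul, mul_one]
  · intro q _ hq
    apply h.mul_ne
    intro e
    exact hq (Fin.ext e)
  · intro hp
    exact absurd (Finset.mem_univ l) hp

theorem norm_entry (h : IsStab θ) {n : ℕ} (Z : Fin n → Fin n → B) (k l : Fin n) :
    ‖Z k l‖ ≤ ‖∑ k' : Fin n, ∑ l' : Fin n, θ k' l' (Z k' l')‖ := by
  rw [← h.norm_eq 0 0, ← corner h Z k l]
  have h1 : ‖θ 0 k (1 : B)‖ ≤ 1 := by rw [h.norm_eq]; exact norm_one_le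
  have h2 : ‖θ l 0 (1 : B)‖ ≤ 1 := by rw [h.norm_eq]; exact norm_one_le
  set S := ∑ k' : Fin n, ∑ l' : Fin n, θ k' l' (Z k' l')
  calc ‖θ 0 k 1 * S * θ l 0 1‖ ≤ ‖θ 0 k 1 * S‖ * ‖θ l 0 1‖ := norm_mul_le _ _
    _ ≤ ‖θ 0 k 1 * S‖ * 1 := mul_le_mul_of_nonneg_left h2 (norm_nonneg _)
    _ ≤ (‖θ 0 k 1‖ * ‖S‖) * 1 := mul_le_mul_of_nonneg_right (norm_mul_le _ _) zero_le_one
    _ ≤ (1 * ‖S‖) * 1 := mul_le_mul_of_nonneg_right
        (mul_le_mul_of_nonneg_right h1 (norm_nonneg _)) zero_le_one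
    _ = ‖S‖ := by ring

/-- corners of the ideal are images -/
theorem corner_range (h : IsStab θ) (k l : ℕ) (y : J) : ∃ b, θ k k 1 * y * θ l l 1 = θ k l b := by
  have hc : IsClosed {y : J | ∃ b, θ k k 1 * y * θ l l 1 = θ k l b} := by
    have h1 : IsClosed (Set.range (θ k l)) := (isom h k l).isClosedEmbedding.isClosed_range
    have h2 : Continuous fun y : J => θ k k 1 * y * θ l l 1 := by fun_prop
    have h3 : {y : J | ∃ b, θ k k 1 * y * θ l l 1 = θ k l b} =
        (fun y : J => θ k k 1 * y * θ l l 1) ⁻¹' Set.range (θ k l) := by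
      ext z
      constructor
      · rintro ⟨b, hb⟩
        exact ⟨b, hb.symm⟩
      · rintro ⟨b, hb⟩
        exact ⟨b, hb.symm⟩
    rw [h3]
    exact h1.preimage h2
  have hs : (Submodule.span ℂ {x | ∃ i j b, x = θ i j b} : Set J) ⊆
      {y : J | ∃ b, θ k k 1 * y * θ l l 1 = θ k l b} := by
    intro z hz
    induction hz using Submodule.span_induction with
    | mem x hx =>
      obtain ⟨i, j, b, rfl⟩ := hx
      by_cases hi : k = i
      · subst hi
        by_cases hj : j = l
        · subst hj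
          exact ⟨1 * b * 1, by rw [h.mul_same, h.mul_same]⟩
        · exact ⟨0, by rw [h.mul_same, h.mul_ne _ _ _ _ _ _ hj, map_zero]⟩
      · exact ⟨0, by rw [h.mul_ne _ _ _ _ _ _ hi, zero_mul, map_zero]⟩
    | zero => exact ⟨0, by rw [mul_zero, zero_mul, map_zero]⟩
    | add x y _ _ hx hy =>
      obtain ⟨b, hb⟩ := hx
      obtain ⟨c, hc⟩ := hy
      exact ⟨b + c, by rw [mul_add, add_mul, hb, hc, map_add]⟩
    | smul c x _ hx =>
      obtain ⟨b, hb⟩ := hx
      exact ⟨c • b, by rw [mul_smul_comm, smul_mul_assoc, hb, map_smul]⟩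
  have h5 : closure (Submodule.span ℂ {x | ∃ i j b, x = θ i j b} : Set J) = Set.univ :=
    h.dense.closure_eq
  have h6 : y ∈ closure (Submodule.span ℂ {x | ∃ i j b, x = θ i j b} : Set J) := by
    rw [h5]; trivial
  exact closure_minimal hs hc h6

theorem eq_sum (n : ℕ) (y : J) (hy : pn θ n * y * pn θ n = y) :
    y = ∑ k : Fin n, ∑ l : Fin n, θ k k 1 * y * θ l l 1 := by
  conv_lhs => rw [← hy]
  rw [pn, Finset.sum_range, Finset.sum_mul, Finset.sum_mul]
  apply Finset.sum_congr rfl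
  intro k _
  rw [Finset.mul_sum]

end LM1_

open LM1_ in
theorem lm1_proof : Stmt_LM1 := by
  intro B J _ _ θ h ι _ _ n
  refine ⟨?_, ?_, ?_, ?_, ?_⟩
  · intro x y
    refine Matrix.ext fun i j => ?_
    rw [Matrix.mul_apply, bl_eq, Y_mul h, inr_sum]
    apply Finset.sum_congr rfl
    intro m _
    rw [bl_eq, bl_eq, Unitization.inr_mul]
  · refine Matrix.ext fun i j => ?_
    rw [bl_eq, Y_one, PP, Matrix.diagonal_apply]
    split_ifs with hij
    · rfl
    · exact Unitization.inr_zero ℂ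
  · intro x i k j l
    exact norm_entry h (fun k l => x (i, k) (j, l)) k l
  · refine continuous_matrix fun i j => ?_
    show Continuous fun x : Matrix (ι × Fin n) (ι × Fin n) B =>
      ((∑ k : Fin n, ∑ l : Fin n, θ k l (x (i, k) (j, l)) : J) : Unitization ℂ J)
    refine Unitization.continuous_inr.comp ?_
    refine continuous_finsetSum _ fun k _ => continuous_finsetSum _ fun l _ => ?_
    exact (cont h k l).comp (continuous_id.matrix_elem (i, k) (j, l))
  · intro a ha hP
    have h1 : ∀ i j, a i j = (((a i j).snd : J) : Unitization ℂ J) := by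
      intro i j
      refine Unitization.ext ?_ ?_
      · rw [ha i j, Unitization.fst_inr]
      · rw [Unitization.snd_inr]
    have h2 : ∀ i j, pn θ n * (a i j).snd * pn θ n = (a i j).snd := by
      intro i j
      have h3 := congrFun (congrFun hP i) j
      rw [PP, Matrix.mul_diagonal, Matrix.diagonal_mul, h1 i j, ← Unitization.inr_mul,
        ← Unitization.inr_mul] at h3
      exact Unitization.inr_injective h3
    choose b hb using fun (k l : ℕ) (y : J) => corner_range h k l y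
    refine ⟨fun p q => b p.2 q.2 (a p.1 q.1).snd, ?_⟩
    refine Matrix.ext fun i j => ?_
    rw [bl_eq, h1 i j]
    refine congrArg (fun z : J => (z : Unitization ℂ J)) ?_
    refine Eq.trans ?_ (eq_sum n (a i j).snd (h2 i j)).symm
    unfold Y
    apply Finset.sum_congr rfl
    intro k _
    apply Finset.sum_congr rfl
    intro l _
    exact (hb k l _).symm

end Pool.Agent.KCH
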