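import Pool.Agent.KCH.KStmts

/-!
# Squad KCH, module LM2: the `pn` form an approximate unit of projections
-/

set_option autoImplicit false

namespace Pool.Agent.KCH

open TopologicalSpace

namespace LM2_

section
variable {B J : Type} [CStarAlgebra B] [NonUnitalCStarAlgebra J] {θ : ℕ → ℕ → B →ₗ[ℂ] J}

theorem mulθ (hθ : IsStab θ) (i j k l : ℕ) (a b : B) :
    θ i j a * θ k l b = if j = k then θ i l (a * b) else 0 := by
  split_ifs with h
  · subst h
    exact hθ.mul_same i j l a b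
  · exact hθ.mul_ne i j k l a b h

theorem pn_mul (hθ : IsStab θ) (n i j : ℕ) (b : B) :
    pn θ n * θ i j b = if i < n then θ i j b else 0 := by
  rw [pn, Finset.sum_mul]
  simp only [mulθ hθ, one_mul]
  rw [Finset.sum_ite_eq' (Finset.range n) i fun k => θ k j b]
  simp only [Finset.mem_range]

theorem mul_pn (hθ : IsStab θ) (n i j : ℕ) (b : B) :
    θ i j b * pn θ n = if j < n then θ i j b else 0 := by
  rw [pn, Finset.mul_sum]
  simp only [mulθ hθ, mul_one]
  rw [Finset.sum_ite_eq (Finset.range n) j fun k => θ i k b]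
  simp only [Finset.mem_range]

theorem pn_idem (hθ : IsStab θ) (n : ℕ) : pn θ n * pn θ n = pn θ n := by
  conv_lhs => rw [pn, Finset.sum_mul]
  rw [pn]
  refine Finset.sum_congr rfl fun k hk => ?_
  have h := mul_pn hθ n k k (1 : B)
  rw [if_pos (Finset.mem_range.1 hk)] at h
  exact h

theorem pn_star (hθ : IsStab θ) (n : ℕ) : star (pn θ n) = pn θ n := by
  rw [pn, star_sum]
  exact Finset.sum_congr rfl fun k _ => by rw [hθ.star_eq, star_one]

theorem pn_norm (hθ : IsStab θ) (n : ℕ) : ‖pn θ n‖ ≤ 1 := by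
  have h := CStarRing.norm_star_mul_self (x := pn θ n)
  rw [pn_star hθ, pn_idem hθ] at h
  rcases eq_or_ne ‖pn θ n‖ 0 with h0 | h0
  · rw [h0]; exact zero_le_one
  · have : ‖pn θ n‖ = 1 := by
      have h1 : ‖pn θ n‖ * 1 = ‖pn θ n‖ * ‖pn θ n‖ := by rw [mul_one]; exact h
      exact (mul_left_cancel₀ h0 h1).symm
    exact this.le

theorem span_fix (hθ : IsStab θ) {y : J} (hy : y ∈ Submodule.span ℂ {x | ∃ i j b, x = θ i j b}) :
    ∃ n₀, ∀ n, n₀ ≤ n → pn θ n * y = y ∧ y * pn θ n = y := by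
  induction hy using Submodule.span_induction with
  | mem x h =>
    obtain ⟨i, j, b, rfl⟩ := h
    refine ⟨max i j + 1, fun n hn => ?_⟩
    rw [pn_mul hθ, mul_pn hθ, if_pos (by omega), if_pos (by omega)]
    exact ⟨rfl, rfl⟩
  | zero => exact ⟨0, fun n _ => by rw [mul_zero, zero_mul]; exact ⟨rfl, rfl⟩⟩
  | add x y _ _ hx hy =>
    obtain ⟨n1, h1⟩ := hx
    obtain ⟨n2, h2⟩ := hy
    refine ⟨max n1 n2, fun n hn => ?_⟩
    have a1 := h1 n (by omega)
    have a2 := h2 n (by omega)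
    rw [mul_add, add_mul, a1.1, a1.2, a2.1, a2.2]
    exact ⟨rfl, rfl⟩
  | smul c x _ hx =>
    obtain ⟨n1, h1⟩ := hx
    refine ⟨n1, fun n hn => ?_⟩
    have a1 := h1 n hn
    rw [mul_smul_comm, smul_mul_assoc, a1.1, a1.2]
    exact ⟨rfl, rfl⟩

end

end LM2_

open LM2_ in
theorem lm2_proof : Stmt_LM2 := by
  intro B J _ _ θ hθ
  refine ⟨pn_idem hθ, pn_norm hθ, fun y ε hε => ?_⟩
  obtain ⟨y', hy', hd⟩ := hθ.dense.exists_dist_lt y (show 0 < ε / 3 by positivity)
  obtain ⟨n₀, hn₀⟩ := span_fix hθ hy'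
  refine ⟨n₀, fun n hn => ?_⟩
  obtain ⟨h1, h2⟩ := hn₀ n hn
  have hp := pn_norm hθ n
  have hp0 := norm_nonneg (pn θ n)
  rw [dist_eq_norm] at hd
  have hd' : ‖y' - y‖ < ε / 3 := by rw [norm_sub_rev]; exact hd
  have hd0 := norm_nonneg (y - y')
  have m1 : ‖pn θ n * (y - y')‖ ≤ ‖y - y'‖ := by
    refine (norm_mul_le _ _).trans ?_
    exact mul_le_of_le_one_left hd0 hp
  have m2 : ‖(y - y') * pn θ n‖ ≤ ‖y - y'‖ := by
    refine (norm_mul_le _ _).trans ?_
    exact mul_le_of_le_one_right hd0 hp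
  have m3 : ‖pn θ n * (y - y') * pn θ n‖ ≤ ‖y - y'‖ := by
    refine (norm_mul_le _ _).trans ?_
    exact (mul_le_of_le_one_right (norm_nonneg _) hp).trans m1
  refine ⟨?_, ?_, ?_⟩
  · have : pn θ n * y - y = pn θ n * (y - y') + (y' - y) := by
      rw [mul_sub, h1]; abel
    rw [this]
    refine (norm_add_le _ _).trans_lt ?_
    linarith
  · have : y * pn θ n - y = (y - y') * pn θ n + (y' - y) := by
      rw [sub_mul, h2]; abel
    rw [this]
    refine (norm_add_le _ _).trans_lt ?_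
    linarith
  · have : pn θ n * y * pn θ n - y = pn θ n * (y - y') * pn θ n + (y' - y) := by
      rw [mul_sub, h1, sub_mul, h2]; abel
    rw [this]
    refine (norm_add_le _ _).trans_lt ?_
    linarith

end Pool.Agent.KCH
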