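import Pool.Agent.KCH.KStmts

/-!
# Squad KCH, module LM3: the class of `bl x` for an idempotent `x`
-/

set_option autoImplicit false

namespace Pool.Agent.KCH

open TopologicalSpace

namespace LM3_

section
variable {B J : Type} [CStarAlgebra B] [NonUnitalCStarAlgebra J] {θ : ℕ → ℕ → B →ₗ[ℂ] J}

theorem mulθ (hθ : IsStab θ) (i j k l : ℕ) (a b : B) :
    θ i j a * θ k l b = if j = k then θ i l (a * b) else 0 := by
  split_ifs with h
  · subst h
    exact hθ.mul_same i j l a b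
  · exact hθ.mul_ne i j k l a b h

/-- the rectangular matrix with rows `ι` -/
noncomputable def XX (θ : ℕ → ℕ → B →ₗ[ℂ] J) {ι : Type} {n : ℕ}
    (x : Matrix (ι × Fin n) (ι × Fin n) B) : Matrix ι (ι × Fin n) (Unitization ℂ J) :=
  fun i q => inr J (∑ k : Fin n, θ k 0 (x (i, k) q))

/-- the rectangular matrix with columns `ι` -/
noncomputable def YY (θ : ℕ → ℕ → B →ₗ[ℂ] J) {ι : Type} {n : ℕ}
    (x : Matrix (ι × Fin n) (ι × Fin n) B) : Matrix (ι × Fin n) ι (Unitization ℂ J) :=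
  fun q i => inr J (∑ m : Fin n, θ 0 m (x q (i, m)))

theorem XY (hθ : IsStab θ) {ι : Type} [Fintype ι] {n : ℕ}
    (x y : Matrix (ι × Fin n) (ι × Fin n) B) : XX θ x * YY θ y = bl θ (x * y) := by
  ext1 i i'
  rw [Matrix.mul_apply]
  show ∑ q, inr J (∑ k : Fin n, θ k 0 (x (i, k) q)) * inr J (∑ m : Fin n, θ 0 m (y q (i', m))) =
    inr J (∑ k : Fin n, ∑ l : Fin n, θ k l ((x * y) (i, k) (i', l)))
  have h : ∀ q, inr J (∑ k : Fin n, θ k 0 (x (i, k) q)) *
      inr J (∑ m : Fin n, θ 0 m (y q (i', m))) =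
      inr J (∑ k : Fin n, ∑ m : Fin n, θ k m (x (i, k) q * y q (i', m))) := by
    intro q
    rw [← map_mul, Finset.sum_mul_sum]
    simp only [mulθ hθ, if_true]
  simp only [h]
  rw [← map_sum]
  congr 1
  rw [Finset.sum_comm]
  refine Finset.sum_congr rfl fun k _ => ?_
  rw [Finset.sum_comm]
  refine Finset.sum_congr rfl fun m _ => ?_
  rw [← map_sum, Matrix.mul_apply]

theorem YX (hθ : IsStab θ) {ι : Type} [Fintype ι] {n : ℕ} {e : B →⋆ₙₐ[ℂ] J}
    (he : ∀ b, e b = θ 0 0 b) (x y : Matrix (ι × Fin n) (ι × Fin n) B) :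
    YY θ x * XX θ y = mm ((inr J).comp (e : B →ₙ+* J)) (x * y) := by
  ext1 q q'
  rw [Matrix.mul_apply]
  show ∑ i, inr J (∑ m : Fin n, θ 0 m (x q (i, m))) * inr J (∑ k : Fin n, θ k 0 (y (i, k) q')) =
    inr J (e ((x * y) q q'))
  have h : ∀ i, inr J (∑ m : Fin n, θ 0 m (x q (i, m))) *
      inr J (∑ k : Fin n, θ k 0 (y (i, k) q')) =
      inr J (∑ m : Fin n, θ 0 0 (x q (i, m) * y (i, m) q')) := by
    intro i
    rw [← map_mul, Finset.sum_mul_sum]
    congr 1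
    refine Finset.sum_congr rfl fun m _ => ?_
    simp only [mulθ hθ]
    rw [Finset.sum_eq_single m]
    · rw [if_pos rfl]
    · intro k _ hk
      rw [if_neg]
      intro h
      exact hk (Fin.ext h.symm)
    · intro h
      exact absurd (Finset.mem_univ m) h
  simp only [h]
  rw [← map_sum, he, Matrix.mul_apply, Fintype.sum_prod_type]
  congr 1
  rw [map_sum (θ 0 0)]
  refine Finset.sum_congr rfl fun i _ => ?_
  rw [map_sum (θ 0 0)]

theorem EY (hθ : IsStab θ) {ι : Type} [Fintype ι] {n : ℕ} {e : B →⋆ₙₐ[ℂ] J}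
    (he : ∀ b, e b = θ 0 0 b) (x y : Matrix (ι × Fin n) (ι × Fin n) B) :
    mm ((inr J).comp (e : B →ₙ+* J)) x * YY θ y = YY θ (x * y) := by
  ext1 q i
  rw [Matrix.mul_apply]
  show ∑ r, inr J (e (x q r)) * inr J (∑ m : Fin n, θ 0 m (y r (i, m))) =
    inr J (∑ m : Fin n, θ 0 m ((x * y) q (i, m)))
  have h : ∀ r, inr J (e (x q r)) * inr J (∑ m : Fin n, θ 0 m (y r (i, m))) =
      inr J (∑ m : Fin n, θ 0 m (x q r * y r (i, m))) := by
    intro r
    rw [← map_mul, he, Finset.mul_sum]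
    simp only [mulθ hθ, if_true]
  simp only [h]
  rw [← map_sum]
  congr 1
  rw [Finset.sum_comm]
  refine Finset.sum_congr rfl fun m _ => ?_
  rw [← map_sum, Matrix.mul_apply]

end

end LM3_

open LM3_ in
theorem lm3_proof : Stmt_LM3 := by
  intro B J _ _ θ e hθ he ι _ _ n x hx
  have h1 : XX θ x * YY θ x = bl θ x := by rw [XY hθ, hx]
  have h2 : YY θ x * XX θ x = mm ((inr J).comp (e : B →ₙ+* J)) x := by rw [YX hθ he, hx]
  have hb : bl θ x * bl θ x = bl θ x := by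
    conv_lhs => rw [← h1]
    rw [Matrix.mul_assoc, ← Matrix.mul_assoc (YY θ x), h2, EY hθ he, hx, h1]
  refine ⟨hb, ?_⟩
  rw [K0.map_c0]
  exact c0_eq hb _ ⟨XX θ x, YY θ x, h1, h2⟩

end Pool.Agent.KCH
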