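import Pool.Agent.KCH.RStmts

/-!
# Squad KCH, module LMB: norm of `Lam`
-/

set_option autoImplicit false

namespace Pool.Agent.KCH

open TopologicalSpace
open scoped ComplexOrder

namespace LMB_

section
variable {B : Type} [CStarAlgebra B]

attribute [local instance] CStarAlgebra.spectralOrder CStarAlgebra.spectralOrderedRing

theorem one_norm_le : ‖(1 : B)‖ ≤ 1 := by
  rcases subsingleton_or_nontrivial B with h | h
  · rw [Subsingleton.elim (1 : B) 0, norm_zero]
    exact zero_le_one
  · exact (CStarRing.norm_one (E := B)).le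

/-- abstract version for a finite family of isometries with orthogonal ranges -/
theorem main {ι : Type} [DecidableEq ι] (I : Finset ι) (S : ι → B)
    (hS : ∀ k l, star (S k) * S l = if k = l then 1 else 0) (t : ι → ℝ) (c : ℝ) (y : B)
    (hc : 0 ≤ c) (ht : ∀ k, |t k| ≤ c) :
    ‖∑ k ∈ I, (t k : ℝ) • (S k * y * star (S k))‖ ≤ c * ‖y‖ := by
  set z : B := ∑ k ∈ I, (t k : ℝ) • (S k * y * star (S k)) with hz
  have hstar : star z = ∑ k ∈ I, (t k : ℝ) • (S k * star y * star (S k)) := by
    rw [hz, star_sum]
    refine Finset.sum_congr rfl fun k _ => ?_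
    rw [star_smul, star_trivial, star_mul, star_mul, star_star, mul_assoc]
  have h1 : star z * z = ∑ k ∈ I, (t k ^ 2 : ℝ) • (S k * (star y * y) * star (S k)) := by
    rw [hstar, hz, Finset.sum_mul]
    refine Finset.sum_congr rfl fun k hk => ?_
    rw [Finset.mul_sum, Finset.sum_eq_single k]
    · rw [smul_mul_smul_comm]
      congr 1
      · ring
      · calc S k * star y * star (S k) * (S k * y * star (S k))
            = S k * star y * (star (S k) * S k) * y * star (S k) := by simp only [mul_assoc]
          _ = S k * (star y * y) * star (S k) := by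
              rw [hS, if_pos rfl, mul_one]; simp only [mul_assoc]
    · intro l _ hl
      rw [smul_mul_smul_comm]
      have : S k * star y * star (S k) * (S l * y * star (S l)) =
          S k * star y * (star (S k) * S l) * y * star (S l) := by simp only [mul_assoc]
      rw [this, hS, if_neg (Ne.symm hl), mul_zero, zero_mul, zero_mul, smul_zero]
    · intro h
      exact absurd hk h
  set p : B := ∑ k ∈ I, S k * star (S k) with hp
  have hpp : p * p = p := by
    rw [hp, Finset.sum_mul]
    refine Finset.sum_congr rfl fun k hk => ?_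
    rw [Finset.mul_sum, Finset.sum_eq_single k]
    · calc S k * star (S k) * (S k * star (S k))
          = S k * (star (S k) * S k) * star (S k) := by simp only [mul_assoc]
        _ = S k * star (S k) := by rw [hS, if_pos rfl, mul_one]
    · intro l _ hl
      have : S k * star (S k) * (S l * star (S l)) = S k * (star (S k) * S l) * star (S l) := by
        simp only [mul_assoc]
      rw [this, hS, if_neg (Ne.symm hl), mul_zero, zero_mul]
    · intro h
      exact absurd hk h
  have hps : star p = p := by
    rw [hp, star_sum]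
    refine Finset.sum_congr rfl fun k _ => ?_
    rw [star_mul, star_star]
  have hp1 : p ≤ 1 := by
    rw [← sub_nonneg]
    have : 1 - p = star (1 - p) * (1 - p) := by
      rw [star_sub, star_one, hps, sub_mul, mul_sub, mul_sub, hpp]
      simp
    rw [this]
    exact star_mul_self_nonneg _
  have hC : 0 ≤ c ^ 2 * ‖y‖ ^ 2 := by positivity
  have h2 : star z * z ≤ (c ^ 2 * ‖y‖ ^ 2 : ℝ) • (1 : B) := by
    rw [h1]
    have h3 : ∀ k ∈ I, (t k ^ 2 : ℝ) • (S k * (star y * y) * star (S k)) ≤
        (c ^ 2 * ‖y‖ ^ 2 : ℝ) • (S k * star (S k)) := by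
      intro k _
      have h4 : star y * y ≤ algebraMap ℝ B (‖y‖ ^ 2) :=
        CStarAlgebra.star_mul_le_algebraMap_norm_sq
      have h5 : S k * (star y * y) * star (S k) ≤ S k * algebraMap ℝ B (‖y‖ ^ 2) * star (S k) :=
        star_right_conjugate_le_conjugate h4 _
      have h6 : S k * algebraMap ℝ B (‖y‖ ^ 2) * star (S k) =
          (‖y‖ ^ 2 : ℝ) • (S k * star (S k)) := by
        rw [Algebra.algebraMap_eq_smul_one, mul_smul_comm, mul_one, smul_mul_assoc]
      rw [h6] at h5
      have h7 : 0 ≤ S k * star (S k) := mul_star_self_nonneg _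
      have h8 : t k ^ 2 ≤ c ^ 2 := by
        have := ht k
        rw [← sq_abs]
        exact pow_le_pow_left₀ (abs_nonneg _) this 2
      calc (t k ^ 2 : ℝ) • (S k * (star y * y) * star (S k))
          ≤ (t k ^ 2 : ℝ) • ((‖y‖ ^ 2 : ℝ) • (S k * star (S k))) :=
            smul_le_smul_of_nonneg_left h5 (sq_nonneg _)
        _ = (t k ^ 2 * ‖y‖ ^ 2 : ℝ) • (S k * star (S k)) := by rw [smul_smul]
        _ ≤ (c ^ 2 * ‖y‖ ^ 2 : ℝ) • (S k * star (S k)) :=
            smul_le_smul_of_nonneg_right (mul_le_mul_of_nonneg_right h8 (sq_nonneg _)) h7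
    refine (Finset.sum_le_sum h3).trans ?_
    rw [← Finset.smul_sum]
    exact smul_le_smul_of_nonneg_left hp1 hC
  have h9 : ‖star z * z‖ ≤ ‖(c ^ 2 * ‖y‖ ^ 2 : ℝ) • (1 : B)‖ :=
    CStarAlgebra.norm_le_norm_of_nonneg_of_le (star_mul_self_nonneg z) h2
  rw [CStarRing.norm_star_mul_self, norm_smul, Real.norm_eq_abs, abs_of_nonneg hC] at h9
  have h10 : ‖z‖ * ‖z‖ ≤ (c * ‖y‖) * (c * ‖y‖) := by
    have := mul_le_mul_of_nonneg_left (one_norm_le (B := B)) hC
    nlinarith
  have h11 : 0 ≤ c * ‖y‖ := by positivity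
  by_contra hcon
  push Not at hcon
  nlinarith [norm_nonneg z]

end

end LMB_

open LMB_

theorem lmb_proof (hPWR : Stmt_PWR) : Stmt_LMB := by
  intro B _ u s hus M t c y hc ht
  obtain ⟨hp0, hp1, hpa, hps, hss⟩ := hPWR B u s hus
  have hS : ∀ k l : ℤ, star (Sk u s k) * Sk u s l = if k = l then 1 else 0 := by
    intro k l
    have h1 : star (Sk u s k) * Sk u s l = star s * pw u (-k + l) * s := by
      unfold Sk
      rw [star_mul, hps, hpa]
      simp only [mul_assoc]
    rw [h1, hss]
    by_cases h : k = l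
    · rw [if_pos h, if_pos (by omega)]
    · rw [if_neg h, if_neg (by omega)]
  have h := LMB_.main (Finset.Icc (-(M : ℤ)) M) (Sk u s) hS t c y hc ht
  have e : Lam u s M t y = ∑ k ∈ Finset.Icc (-(M : ℤ)) M, (t k : ℝ) •
      (Sk u s k * y * star (Sk u s k)) := by
    unfold Lam
    refine Finset.sum_congr rfl fun k _ => ?_
    rw [Complex.coe_smul]
  rw [e]
  exact h

end Pool.Agent.KCH
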