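import Pool.Agent.KCH.KStmts

/-!
# Module LOG
-/

namespace Pool.Agent.KCH

open Filter Topology

namespace LOG_

variable {X : Type*} [TopologicalSpace X]

theorem ne_zero {f : C(X, ℂ)} (hf : IsUnit f) (x : X) : f x ≠ 0 := by
  obtain ⟨u, rfl⟩ := hf
  intro h
  have h1 : ((u : C(X, ℂ)) * ((u⁻¹ : (C(X, ℂ))ˣ) : C(X, ℂ))) x = 1 := by
    rw [Units.mul_inv]; rfl
  rw [ContinuousMap.mul_apply, h, zero_mul] at h1
  exact zero_ne_one h1

theorem near [CompactSpace X] (f g : C(X, ℂ)) (m : ℝ) (hm : 0 < m) (hg : ∀ x, m ≤ ‖g x‖)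
    (h : ‖f - g‖ < m) : ∃ w : C(X, ℂ), ∀ x, f x = g x * Complex.exp (w x) := by
  have hg0 : ∀ x, g x ≠ 0 := by
    intro x h0
    have := hg x
    rw [h0, norm_zero] at this
    linarith
  have h1 : ∀ x, ‖f x / g x - 1‖ < 1 := by
    intro x
    have e : f x / g x - 1 = (f - g) x / g x := by
      rw [ContinuousMap.sub_apply, sub_div, div_self (hg0 x)]
    rw [e, norm_div, div_lt_one (norm_pos_iff.2 (hg0 x))]
    exact lt_of_le_of_lt (ContinuousMap.norm_coe_le_norm (f - g) x) (lt_of_lt_of_le h (hg x))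
  have h2 : ∀ x, f x / g x ∈ Complex.slitPlane := by
    intro x
    have := Complex.mem_slitPlane_of_norm_lt_one (h1 x)
    rwa [add_sub_cancel] at this
  refine ⟨⟨fun x => Complex.log (f x / g x), ?_⟩, fun x => ?_⟩
  · rw [continuous_iff_continuousAt]
    intro x
    have hd : ContinuousAt (fun x => f x / g x) x :=
      (f.continuous.continuousAt).div (g.continuous.continuousAt) (hg0 x)
    exact hd.clog (h2 x)
  · simp only [ContinuousMap.coe_mk]
    rw [Complex.exp_log (Complex.slitPlane_ne_zero (h2 x))]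
    rw [mul_div_cancel₀ _ (hg0 x)]

theorem lower [CompactSpace X] (g : C(X, ℂ)) (hg : IsUnit g) :
    ∃ m : ℝ, 0 < m ∧ ∀ x, m ≤ ‖g x‖ := by
  rcases isEmpty_or_nonempty X with hX | hX
  · exact ⟨1, one_pos, fun x => (hX.false x).elim⟩
  · obtain ⟨x0, -, h0⟩ := isCompact_univ.exists_isMinOn (Set.univ_nonempty)
      (g.continuous.norm.continuousOn)
    refine ⟨‖g x0‖, norm_pos_iff.2 (ne_zero hg x0), fun x => h0 (Set.mem_univ x)⟩

/-- a path of units changes a unit by an exponential -/
theorem path_exp [CompactSpace X] (γ : C(unitInterval, C(X, ℂ))) (hγ : ∀ t, IsUnit (γ t)) :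
    ∃ w : C(X, ℂ), ∀ x, γ 1 x = γ 0 x * Complex.exp (w x) := by
  set A : Set unitInterval := {t | ∃ w : C(X, ℂ), ∀ x, γ t x = γ 0 x * Complex.exp (w x)} with hA
  -- nearby parameters
  have key : ∀ t, ∀ᶠ t' in 𝓝 t, ∃ w : C(X, ℂ), ∀ x, γ t' x = γ t x * Complex.exp (w x) := by
    intro t
    obtain ⟨m, hm, hmx⟩ := lower (γ t) (hγ t)
    have h1 : ∀ᶠ t' in 𝓝 t, dist (γ t') (γ t) < m :=
      (γ.continuous.tendsto t).eventually (Metric.ball_mem_nhds _ hm)
    filter_upwards [h1] with t' ht'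
    rw [dist_eq_norm] at ht'
    exact near (γ t') (γ t) m hm hmx ht'
  have hopen : IsOpen A := by
    rw [isOpen_iff_mem_nhds]
    rintro t ⟨w, hw⟩
    filter_upwards [key t] with t' ht'
    obtain ⟨w', hw'⟩ := ht'
    refine ⟨w + w', fun x => ?_⟩
    rw [hw' x, hw x, ContinuousMap.add_apply, Complex.exp_add]
    ring
  have hclosed : IsClosed A := by
    rw [← isOpen_compl_iff, isOpen_iff_mem_nhds]
    intro t ht
    filter_upwards [key t] with t' ht'
    obtain ⟨w', hw'⟩ := ht'
    rintro ⟨w, hw⟩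
    apply ht
    refine ⟨w - w', fun x => ?_⟩
    have h1 : γ t x * Complex.exp (w' x) = γ 0 x * Complex.exp (w x) := by
      rw [← hw' x, hw x]
    rw [ContinuousMap.sub_apply, Complex.exp_sub, mul_div_assoc', eq_div_iff (Complex.exp_ne_zero _)]
    exact h1
  have h0 : (0 : unitInterval) ∈ A := ⟨0, fun x => by simp⟩
  have : A = Set.univ := (IsClopen.eq_univ ⟨hclosed, hopen⟩ ⟨0, h0⟩)
  have h1 : (1 : unitInterval) ∈ A := by rw [this]; exact Set.mem_univ _
  exact h1

end LOG_

open LOG_ in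
theorem log_proof : Stmt_LOG := by
  intro k hk
  obtain ⟨p, hp⟩ := hk
  obtain ⟨w, hw⟩ := path_exp (X := TC) p.toContinuousMap hp
  have e1 : p.toContinuousMap 1 = (1 : C(TC, ℂ)) := p.target
  have e0 : p.toContinuousMap 0 = (fourier k : C(TC, ℂ)) := p.source
  rw [e1, e0] at hw
  -- on the line
  have h1 : ∀ x : ℝ, Complex.exp (2 * Real.pi * Complex.I * k * x + w (x : TC)) = 1 := by
    intro x
    have h2 := hw (x : TC)
    rw [ContinuousMap.one_apply] at h2
    have h3 : (fourier k : C(TC, ℂ)) (x : TC) =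
        Complex.exp (2 * Real.pi * Complex.I * k * x) := by
      have := fourier_coe_apply (T := (1 : ℝ)) (n := k) (x := x)
      rw [this]
      congr 1
      simp
    rw [h3, ← Complex.exp_add] at h2
    exact h2.symm
  have h2 : ∀ x : ℝ, ∃ n : ℤ, 2 * Real.pi * Complex.I * k * x + w (x : TC) =
      n * (2 * Real.pi * Complex.I) := fun x => Complex.exp_eq_one_iff.1 (h1 x)
  choose n hn using h2
  have hpi : (2 * Real.pi * Complex.I : ℂ) ≠ 0 := by
    simp [Real.pi_ne_zero]
  have hnr : ∀ x : ℝ, (n x : ℝ) =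
      ((2 * Real.pi * Complex.I * k * x + w (x : TC)) / (2 * Real.pi * Complex.I)).re := by
    intro x
    rw [hn x, mul_div_cancel_right₀ _ hpi]
    simp
  have hcont : Continuous fun x : ℝ => (n x : ℝ) := by
    have h3 : Continuous fun x : ℝ =>
        ((2 * Real.pi * Complex.I * k * x + w (x : TC)) / (2 * Real.pi * Complex.I)).re := by
      apply Complex.continuous_re.comp
      apply Continuous.div_const
      apply Continuous.add
      · exact continuous_const.mul Complex.continuous_ofReal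
      · exact w.continuous.comp (AddCircle.continuous_mk' (1 : ℝ))
    exact h3.congr fun x => (hnr x).symm
  have hcz : Continuous n := by
    rw [Int.isClosedEmbedding_coe_real.isEmbedding.continuous_iff]
    exact hcont
  have hconst : n 0 = n 1 := PreconnectedSpace.constant inferInstance hcz
  have a0 := hn 0
  have a1 := hn 1
  have ew : ((1 : ℝ) : TC) = ((0 : ℝ) : TC) := by
    rw [QuotientAddGroup.mk_zero]
    exact AddCircle.coe_period (1 : ℝ)
  rw [ew, ← hconst, ← a0] at a1
  have h4 : (2 * Real.pi * Complex.I : ℂ) * k = 0 := by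
    have h5 : (2 * Real.pi * Complex.I : ℂ) * k * ((1 : ℝ) : ℂ) =
        2 * Real.pi * Complex.I * k * ((0 : ℝ) : ℂ) := add_right_cancel a1
    simpa using h5
  rcases mul_eq_zero.1 h4 with h | h
  · exact absurd h hpi
  · exact_mod_cast h

end Pool.Agent.KCH
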