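import Pool.Agent.KCH.RStmts

/-!
# Squad KCH, module LWT: the level weights (helper49)
-/

set_option autoImplicit false

namespace Pool.Agent.KCH

namespace LWT_

theorem bb_mul (N k l : ℕ) : bb N k * bb N l =
    if (1 ≤ k ∧ k ≤ N) ∧ 1 ≤ l ∧ l ≤ N then 1 / (N : ℝ) else 0 := by
  unfold bb
  by_cases h1 : 1 ≤ k ∧ k ≤ N
  · by_cases h2 : 1 ≤ l ∧ l ≤ N
    · rw [if_pos h1, if_pos h2, if_pos ⟨h1, h2⟩]
      exact Real.mul_self_sqrt (by positivity)
    · rw [if_pos h1, if_neg h2, if_neg (fun h => h2 h.2), mul_zero]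
  · rw [if_neg h1, zero_mul, if_neg (fun h => h1 h.1)]

theorem cc_sq (N k : ℕ) (hN : 1 ≤ N) : cc N k ^ 2 = max 0 (1 - (k : ℝ) / N) := by
  have hn : (0 : ℝ) < N := by exact_mod_cast hN
  unfold cc
  by_cases h : k ≤ N
  · have h1 : (k : ℝ) / N ≤ 1 := by
      rw [div_le_one hn]
      exact_mod_cast h
    rw [if_pos h, Real.sq_sqrt (by linarith), max_eq_right (by linarith)]
  · have h1 : 1 ≤ (k : ℝ) / N := by
      rw [le_div_iff₀ hn, one_mul]
      exact_mod_cast (not_le.1 h).le
    rw [if_neg h, max_eq_left (by linarith)]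
    norm_num

theorem cc_nonneg (N k : ℕ) : 0 ≤ cc N k := by
  unfold cc
  split_ifs
  · exact Real.sqrt_nonneg _
  · exact le_rfl

theorem cc_anti (N k j : ℕ) (hN : 1 ≤ N) (h : k ≤ j) : cc N j ≤ cc N k := by
  have hn : (0 : ℝ) < N := by exact_mod_cast hN
  refine le_of_sq_le_sq ?_ (cc_nonneg N k)
  rw [cc_sq N k hN, cc_sq N j hN]
  have : (k : ℝ) ≤ j := by exact_mod_cast h
  gcongr

end LWT_

open LWT_ in
theorem lwt_proof : Stmt_LWT := by
  intro N hN
  have hn : (0 : ℝ) < N := by exact_mod_cast hN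
  have hc0 : cc N 0 = 1 := by
    unfold cc
    rw [if_pos (Nat.zero_le _)]
    simp
  refine ⟨?_, ?_, ?_, ?_, ?_, ?_, ?_, hc0, ?_, ?_⟩
  · intro k
    refine ⟨?_, cc_nonneg N k, ?_⟩
    · unfold bb
      split_ifs
      · exact Real.sqrt_nonneg _
      · exact le_rfl
    · rw [← hc0]
      exact cc_anti N 0 k hN (Nat.zero_le _)
  · intro k l
    rw [bb_mul]
    split_ifs
    · exact ⟨by positivity, le_rfl⟩
    · exact ⟨le_rfl, by positivity⟩
  · intro k hk
    rw [pow_two, bb_mul, if_pos ⟨⟨by omega, by omega⟩, by omega, by omega⟩]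
  · intro k hk
    rw [cc_sq N k hN, max_eq_right]
    have : (k : ℝ) / N ≤ 1 := by
      rw [div_le_one hn]
      exact_mod_cast hk
    linarith
  · intro k hk
    have h1 := cc_sq N k hN
    have h2 : 1 ≤ (k : ℝ) / N := by
      rw [le_div_iff₀ hn, one_mul]
      exact_mod_cast hk
    rw [max_eq_left (by linarith)] at h1
    exact pow_eq_zero_iff (two_ne_zero) |>.1 h1
  · intro k hk
    unfold bb
    rw [if_neg (by omega)]
  · unfold bb
    rw [if_neg (by omega)]
  · intro a b k
    have h1 : cc N (a + k) * cc N (b + k) ≤ cc N k ^ 2 := by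
      rw [pow_two]
      exact mul_le_mul (cc_anti N k _ hN (by omega)) (cc_anti N k _ hN (by omega))
        (cc_nonneg _ _) (cc_nonneg _ _)
    have h2 : cc N (a + b + k) ^ 2 ≤ cc N (a + k) * cc N (b + k) := by
      rw [pow_two]
      exact mul_le_mul (cc_anti N _ _ hN (by omega)) (cc_anti N _ _ hN (by omega))
        (cc_nonneg _ _) (cc_nonneg _ _)
    have h3 : cc N k ^ 2 ≤ cc N (a + b + k) ^ 2 + ((a + b : ℕ) : ℝ) / N := by
      rw [cc_sq N k hN, cc_sq N _ hN]
      have h4 : 1 - (k : ℝ) / N = 1 - ((a + b + k : ℕ) : ℝ) / N + ((a + b : ℕ) : ℝ) / N := by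
        push_cast
        ring
      have h5 : 0 ≤ ((a + b : ℕ) : ℝ) / N := by positivity
      refine max_le ?_ ?_
      · have := le_max_left 0 (1 - ((a + b + k : ℕ) : ℝ) / N)
        linarith
      · rw [h4]
        have := le_max_right 0 (1 - ((a + b + k : ℕ) : ℝ) / N)
        linarith
    rw [abs_le]
    constructor <;> linarith
  · intro a b
    have hp : 0 ≤ 1 / (N : ℝ) := by positivity
    calc ∑ k ∈ Finset.range N, |bb N (a + k + 1) * bb N (b + k + 1) - bb N (k + 1) ^ 2|
        ≤ ∑ k ∈ Finset.range N, if N < a + b + k + 1 then 1 / (N : ℝ) else 0 := by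
          refine Finset.sum_le_sum fun k hk => ?_
          have hk := Finset.mem_range.1 hk
          rw [pow_two, bb_mul, bb_mul,
            if_pos (show (1 ≤ k + 1 ∧ k + 1 ≤ N) ∧ 1 ≤ k + 1 ∧ k + 1 ≤ N by omega)]
          by_cases h : N < a + b + k + 1
          · rw [if_pos h]
            split_ifs
            · simp
            · rw [zero_sub, abs_neg, abs_of_nonneg hp]
          · rw [if_neg h, if_pos (by omega)]
            simp
      _ = ((Finset.range N).filter fun k => N < a + b + k + 1).card * (1 / (N : ℝ)) := by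
          rw [← Finset.sum_filter, Finset.sum_const, nsmul_eq_mul]
      _ ≤ ((a + b : ℕ) : ℝ) * (1 / (N : ℝ)) := by
          gcongr
          calc ((Finset.range N).filter fun k => N < a + b + k + 1).card
              ≤ (Finset.Ico (N - (a + b)) N).card := by
                apply Finset.card_le_card
                intro k hk
                rw [Finset.mem_filter, Finset.mem_range] at hk
                rw [Finset.mem_Ico]
                omega
            _ ≤ a + b := by
                rw [Nat.card_Ico]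
                omega
      _ = ((a + b : ℕ) : ℝ) / N := by ring

end Pool.Agent.KCH
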