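import Pool.Agent.KCH.RStmts

set_option autoImplicit false

namespace Pool.Agent.KCH

namespace MBA_

theorem S_ee (α : List ℤ) (m : ℤ) : S (ee (α, m)) = ee (0 :: α, m) := by
  rw [S_def, opP_ee]; rfl

theorem U_nil (m : ℤ) : U (ee (([] : List ℤ), m)) = ee ([], m + 1) := by
  rw [U_def, opP_ee]; rfl

theorem U_cons (k : ℤ) (α : List ℤ) (m : ℤ) : U (ee (k :: α, m)) = ee ((k + 1) :: α, m) := by
  rw [U_def, opP_ee]; rfl

theorem mul_ap (A B : Bd XX) (ξ : L2 XX) : (A * B) ξ = A (B ξ) := rfl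

theorem V_nil (h : Rel U S) (m : ℤ) : (star U : Bd XX) (ee (([] : List ℤ), m)) =
    ee ([], m - 1) := by
  have h1 := U_nil (m - 1)
  rw [sub_add_cancel] at h1
  rw [← h1, ← mul_ap, h.uu]; rfl

theorem V_cons (h : Rel U S) (k : ℤ) (α : List ℤ) (m : ℤ) :
    (star U : Bd XX) (ee (k :: α, m)) = ee ((k - 1) :: α, m) := by
  have h1 := U_cons (k - 1) α m
  rw [sub_add_cancel] at h1
  rw [← h1, ← mul_ap, h.uu]; rfl

theorem Un_nil (n : ℕ) (m : ℤ) : (U ^ n : Bd XX) (ee (([] : List ℤ), m)) = ee ([], m + n) := by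
  induction n with
  | zero => simp
  | succ n ih => rw [pow_succ', mul_ap, ih, U_nil]; congr 2; push_cast; ring

theorem Un_cons (n : ℕ) (k : ℤ) (α : List ℤ) (m : ℤ) :
    (U ^ n : Bd XX) (ee (k :: α, m)) = ee ((k + n) :: α, m) := by
  induction n with
  | zero => simp
  | succ n ih =>
    rw [pow_succ', mul_ap, ih, U_cons]
    have : k + (n : ℤ) + 1 = k + ((n + 1 : ℕ) : ℤ) := by push_cast; ring
    rw [this]

theorem Vn_nil (h : Rel U S) (n : ℕ) (m : ℤ) :
    ((star U : Bd XX) ^ n : Bd XX) (ee (([] : List ℤ), m)) = ee ([], m - n) := by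
  induction n with
  | zero => simp
  | succ n ih =>
    rw [pow_succ', mul_ap, ih, V_nil h]
    have : m - (n : ℤ) - 1 = m - ((n + 1 : ℕ) : ℤ) := by push_cast; ring
    rw [this]

theorem Vn_cons (h : Rel U S) (n : ℕ) (k : ℤ) (α : List ℤ) (m : ℤ) :
    ((star U : Bd XX) ^ n : Bd XX) (ee (k :: α, m)) = ee ((k - n) :: α, m) := by
  induction n with
  | zero => simp
  | succ n ih =>
    rw [pow_succ', mul_ap, ih, V_cons h]
    have : k - (n : ℤ) - 1 = k - ((n + 1 : ℕ) : ℤ) := by push_cast; ring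
    rw [this]

theorem pw_nil (h : Rel U S) (l m : ℤ) : pw U l (ee (([] : List ℤ), m)) = ee ([], m + l) := by
  cases l with
  | ofNat n => exact Un_nil n m
  | negSucc n =>
    show ((star U : Bd XX) ^ (n + 1) : Bd XX) _ = _
    rw [Vn_nil h]
    have : m - ((n + 1 : ℕ) : ℤ) = m + Int.negSucc n := by
      rw [Int.negSucc_eq]; push_cast; ring
    rw [this]

theorem pw_cons (h : Rel U S) (l k : ℤ) (α : List ℤ) (m : ℤ) :
    pw U l (ee (k :: α, m)) = ee ((k + l) :: α, m) := by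
  cases l with
  | ofNat n => exact Un_cons n k α m
  | negSucc n =>
    show ((star U : Bd XX) ^ (n + 1) : Bd XX) _ = _
    rw [Vn_cons h]
    have : k - ((n + 1 : ℕ) : ℤ) = k + Int.negSucc n := by
      rw [Int.negSucc_eq]; push_cast; ring
    rw [this]

theorem pw_ee (h : Rel U S) (l : ℤ) (ρ : List ℤ) (m : ℤ) :
    pw U l (ee (ρ, m)) = ee (sh l ρ, if ρ = [] then m + l else m) := by
  cases ρ with
  | nil => rw [pw_nil h, if_pos rfl]; rfl
  | cons k α => rw [pw_cons h, if_neg (by simp)]; rfl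

theorem Sw_ee (h : Rel U S) (α ρ : List ℤ) (m : ℤ) :
    Sw U S α (ee (ρ, m)) = ee (α ++ ρ, m) := by
  induction α with
  | nil => rfl
  | cons k α ih =>
    show (pw U k * S * Sw U S α) (ee (ρ, m)) = _
    rw [mul_ap, ih, mul_ap, S_ee, pw_cons h, zero_add]
    rfl

end MBA_

open MBA_

theorem mba_proof (hPWR : Stmt_PWR) (hWRD : Stmt_WRD) (hFRL : Stmt_FRL) : Stmt_MBA := by
  have h : Rel U S := hFRL
  obtain ⟨w1, w2, w3, w4⟩ := hWRD (Bd XX) U S h
  intro α l β
  constructor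
  · intro ρ m
    show (Sw U S α * pw U l * star (Sw U S β)) (ee (β ++ ρ, m)) = _
    rw [← Sw_ee h β ρ m, mul_ap, ← mul_ap (star (Sw U S β)), w3]
    show (Sw U S α * pw U l) (ee (ρ, m)) = _
    rw [mul_ap, pw_ee h, Sw_ee h]
  · intro μ m hμ
    have h0 : (star (Sw U S β) : Bd XX) (ee (μ, m)) = 0 := by
      apply Subtype.ext
      funext y
      rw [← inner_ee]
      rw [ContinuousLinearMap.star_eq_adjoint, ContinuousLinearMap.adjoint_inner_right]
      obtain ⟨ρ, k⟩ := y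
      rw [Sw_ee h, inner_ee_ee, if_neg]
      · rfl
      · intro h1
        exact hμ ⟨ρ, (congrArg Prod.fst h1).symm⟩
    show (Sw U S α * pw U l * star (Sw U S β)) (ee (μ, m)) = _
    rw [mul_ap, h0, map_zero]

end Pool.Agent.KCH
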