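import Pool.Agent.KCH.KStmts

namespace Pool.Agent.KCH

namespace MTB_

lemma complete (A : Type) [NormedRing A] [CompleteSpace A] (ι : Type) [Fintype ι] [DecidableEq ι] :
    @CompleteSpace (Matrix ι ι A)
      (Matrix.linftyOpNormedRing (n := ι) (α := A)).toMetricSpace.toUniformSpace := by
  have h : CompleteSpace (ι → ι → A) := inferInstance
  exact h

lemma norm_lt (A : Type) [NormedRing A] (ι : Type) [Fintype ι] [DecidableEq ι]
    (x : Matrix ι ι A) (hx : ∀ i j, ‖x i j‖ < 1 / ((Fintype.card ι : ℝ) + 1)) :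
    (Matrix.linftyOpNormedRing (n := ι) (α := A)).toNorm.norm x < 1 := by
  let _ := Matrix.linftyOpNormedRing (n := ι) (α := A)
  change ‖x‖ < 1
  rw [Matrix.linfty_opNorm_def]
  have hc : (0 : ℝ) < (Fintype.card ι : ℝ) + 1 := by positivity
  have key : ∀ i, (∑ j, ‖x i j‖₊) < 1 := by
    intro i
    have h1 : ∑ j, ‖x i j‖ ≤ ∑ _j : ι, 1 / ((Fintype.card ι : ℝ) + 1) :=
      Finset.sum_le_sum fun j _ => (hx i j).le
    rw [Finset.sum_const, Finset.card_univ, nsmul_eq_mul] at h1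
    have h2 : (Fintype.card ι : ℝ) * (1 / ((Fintype.card ι : ℝ) + 1)) < 1 := by
      rw [mul_one_div, div_lt_one hc]
      linarith
    have h3 : ∑ j, ‖x i j‖ < 1 := lt_of_le_of_lt h1 h2
    rw [← NNReal.coe_lt_coe]
    push_cast
    exact h3
  have h4 : (Finset.univ.sup fun i => ∑ j, ‖x i j‖₊) < 1 := by
    rw [Finset.sup_lt_iff (by exact zero_lt_one)]
    intro i _
    exact key i
  exact_mod_cast h4

lemma main (A : Type) [NormedRing A] [CompleteSpace A] :
    IsOpen {a : A | IsUnit a} ∧ ContinuousOn Ring.inverse {a : A | IsUnit a} ∧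
      ∀ x : A, ‖x‖ < 1 → IsUnit (1 + x) := by
  refine ⟨Units.isOpen, ?_, ?_⟩
  · intro a ha
    obtain ⟨u, rfl⟩ := ha
    exact (NormedRing.inverse_continuousAt u).continuousWithinAt
  · intro x hx
    have h : IsUnit (1 - (-x)) := (Units.oneSub (-x) (by rwa [norm_neg])).isUnit
    rwa [sub_neg_eq_add] at h

end MTB_

open MTB_ in
theorem mtb_proof : Stmt_MTB := by
  intro A _ _ ι _ _
  have hm := @main (Matrix ι ι A) (Matrix.linftyOpNormedRing (n := ι) (α := A)) (complete A ι)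
  refine ⟨hm.1, hm.2.1, 1 / ((Fintype.card ι : ℝ) + 1), by positivity, fun x hx => ?_⟩
  exact hm.2.2 x (norm_lt A ι x hx)

end Pool.Agent.KCH
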