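import Pool.Agent.KCH.RStmts

/-!
# Squad KCH, module MUL: products of monomials
-/

set_option autoImplicit false

namespace Pool.Agent.KCH

theorem mul_proof (hPWR : Stmt_PWR) (hWRD : Stmt_WRD) : Stmt_MUL := by
  rintro ⟨α, l, β⟩ ⟨α', l', β'⟩
  by_cases h1 : ∃ ρ, α' = β ++ ρ
  · obtain ⟨ρ, rfl⟩ := h1
    refine Or.inl ?_
    by_cases hρ : ρ = []
    · subst hρ
      refine ⟨(α, l + l', β'), ?_⟩
      intro B _ _ u s hus
      obtain ⟨-, -, hadd, -, -⟩ := hPWR B u s hus
      obtain ⟨-, -, hss, -⟩ := hWRD B u s hus
      show Sw u s α * pw u l * star (Sw u s β) * (Sw u s (β ++ []) * pw u l' * star (Sw u s β')) =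
        Sw u s α * pw u (l + l') * star (Sw u s β')
      rw [List.append_nil, hadd]
      calc Sw u s α * pw u l * star (Sw u s β) * (Sw u s β * pw u l' * star (Sw u s β'))
          = Sw u s α * pw u l * (star (Sw u s β) * Sw u s β) * pw u l' * star (Sw u s β') := by
            simp only [mul_assoc]
        _ = Sw u s α * (pw u l * pw u l') * star (Sw u s β') := by
            rw [hss, mul_one]; simp only [mul_assoc]
    · refine ⟨(α ++ sh l ρ, l', β'), ?_⟩
      intro B _ _ u s hus
      obtain ⟨happ, hsh, hss, -⟩ := hWRD B u s hus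
      show Sw u s α * pw u l * star (Sw u s β) * (Sw u s (β ++ ρ) * pw u l' * star (Sw u s β')) =
        Sw u s (α ++ sh l ρ) * pw u l' * star (Sw u s β')
      rw [happ, happ, ← hsh l ρ hρ]
      calc Sw u s α * pw u l * star (Sw u s β) *
            (Sw u s β * Sw u s ρ * pw u l' * star (Sw u s β'))
          = Sw u s α * pw u l * (star (Sw u s β) * Sw u s β) * Sw u s ρ * pw u l' *
              star (Sw u s β') := by simp only [mul_assoc]
        _ = Sw u s α * (pw u l * Sw u s ρ) * pw u l' * star (Sw u s β') := by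
            rw [hss, mul_one]; simp only [mul_assoc]
  · by_cases h2 : ∃ ρ, β = α' ++ ρ
    · obtain ⟨ρ, rfl⟩ := h2
      refine Or.inl ?_
      by_cases hρ : ρ = []
      · subst hρ
        exact absurd ⟨[], by simp⟩ h1
      · refine ⟨(α, l, β' ++ sh (-l') ρ), ?_⟩
        intro B _ _ u s hus
        obtain ⟨-, -, -, hst, -⟩ := hPWR B u s hus
        obtain ⟨happ, hsh, hss, -⟩ := hWRD B u s hus
        show Sw u s α * pw u l * star (Sw u s (α' ++ ρ)) *
            (Sw u s α' * pw u l' * star (Sw u s β')) =
          Sw u s α * pw u l * star (Sw u s (β' ++ sh (-l') ρ))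
        have e1 : star (Sw u s (sh (-l') ρ)) = star (Sw u s ρ) * pw u l' := by
          rw [← hsh (-l') ρ hρ, star_mul, hst, neg_neg]
        rw [happ, happ, star_mul, star_mul, e1]
        calc Sw u s α * pw u l * (star (Sw u s ρ) * star (Sw u s α')) *
              (Sw u s α' * pw u l' * star (Sw u s β'))
            = Sw u s α * pw u l * star (Sw u s ρ) * (star (Sw u s α') * Sw u s α') * pw u l' *
                star (Sw u s β') := by simp only [mul_assoc]
          _ = Sw u s α * pw u l * (star (Sw u s ρ) * pw u l' * star (Sw u s β')) := by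
              rw [hss, mul_one]; simp only [mul_assoc]
    · refine Or.inr ?_
      intro B _ _ u s hus
      obtain ⟨-, -, -, hz⟩ := hWRD B u s hus
      show Sw u s α * pw u l * star (Sw u s β) * (Sw u s α' * pw u l' * star (Sw u s β')) = 0
      calc Sw u s α * pw u l * star (Sw u s β) * (Sw u s α' * pw u l' * star (Sw u s β'))
          = Sw u s α * pw u l * (star (Sw u s β) * Sw u s α') * pw u l' * star (Sw u s β') := by
            simp only [mul_assoc]
        _ = 0 := by rw [hz β α' h1 h2, mul_zero, zero_mul, zero_mul]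

end Pool.Agent.KCH
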