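import Pool.Agent.KCH.RStmts

/-!
# Squad KCH, module NCA: nuclearity of the Fock algebra
-/

set_option autoImplicit false

namespace Pool.Agent.KCH

open TopologicalSpace

namespace NCA_

theorem relA (h : Rel U S) : Rel uA sA := by
  refine ⟨?_, ?_, ?_, ?_⟩
  · apply pA_injective
    rw [map_mul pA, map_star pA, pA_uA, map_one pA]
    exact h.uu
  · apply pA_injective
    rw [map_mul pA, map_star pA, pA_uA, map_one pA]
    exact h.uu'
  · apply pA_injective
    rw [map_mul pA, map_star pA, pA_sA, map_one pA]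
    exact h.ss
  · intro k hk
    apply pA_injective
    rw [map_mul pA, map_mul pA, map_star pA, map_pow pA, pA_uA, pA_sA, map_zero pA]
    exact h.orth k hk

theorem pA_pw (k : ℤ) : pA (pw uA k) = pw U k := by
  cases k with
  | ofNat n =>
    show pA (uA ^ n) = U ^ n
    rw [map_pow pA, pA_uA]
  | negSucc n =>
    show pA (star uA ^ (n + 1)) = star U ^ (n + 1)
    rw [map_pow pA, map_star pA, pA_uA]

theorem pA_Sw (α : List ℤ) : pA (Sw uA sA α) = Sw U S α := by
  induction α with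
  | nil => exact map_one pA
  | cons k α ih =>
    show pA (pw uA k * sA * Sw uA sA α) = pw U k * S * Sw U S α
    rw [map_mul pA, map_mul pA, pA_pw, pA_sA, ih]

theorem pA_Mo (w : List ℤ × ℤ × List ℤ) : pA (Mo uA sA w) = Mo U S w := by
  unfold Mo
  rw [map_mul pA, map_mul pA, map_star pA, pA_Sw, pA_Sw, pA_pw]

theorem approx (hS : Stmt_SPN) (a : AA) {ε : ℝ} (hε : 0 < ε) :
    ∃ c : (List ℤ × ℤ × List ℤ) →₀ ℂ, ‖pA a - c.sum fun w z => z • Mo U S w‖ < ε := by
  have h1 : pA a ∈ closure (Submodule.span ℂ (Set.range (Mo U S)) : Set (Bd XX)) := by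
    have h2 : pA a ∈ (SA : Set (Bd XX)) := pA_mem a
    rw [hS] at h2
    exact h2
  rw [Metric.mem_closure_iff] at h1
  obtain ⟨y, hy, hd⟩ := h1 ε hε
  obtain ⟨c, hc⟩ := (Finsupp.mem_span_range_iff_exists_finsupp).1 hy
  refine ⟨c, ?_⟩
  rw [hc, ← dist_eq_norm]
  exact hd

end NCA_

open NCA_ in
theorem nca_proof (hSPN : Stmt_SPN) (hFRL : Stmt_FRL) (hNUC : Stmt_NUC) : Stmt_NCA := by
  classical
  intro T ε hε
  have hA : Rel uA sA := relA hFRL
  have hε3 : 0 < ε / 3 := by positivity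
  choose c hc using fun a : AA => approx hSPN a hε3
  let W : Finset (List ℤ × ℤ × List ℤ) := T.biUnion fun a => (c a).support
  let C : ℝ := ∑ a ∈ T, ∑ w ∈ (c a).support, ‖c a w‖
  have hC : 0 ≤ C := Finset.sum_nonneg fun a _ => Finset.sum_nonneg fun w _ => norm_nonneg _
  have hδ : 0 < ε / (3 * (C + 1)) := by positivity
  obtain ⟨n, φ, hφ, hφ1, H⟩ := hNUC W (ε / (3 * (C + 1))) hδ
  obtain ⟨ψ, hψ, hψ1, hcon, hest⟩ := H AA uA sA hA
  let P : AA →ₗ[ℂ] Bd XX :=
    { toFun := fun a => pA a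
      map_add' := fun a b => map_add pA a b
      map_smul' := fun z a => map_smul pA z a }
  have hP : ∀ a, P a = pA a := fun _ => rfl
  refine ⟨n, φ.comp P, ψ, ?_, hψ, ?_, hψ1, ?_⟩
  · intro m a b
    obtain ⟨d, hd⟩ := hφ m (fun i => pA (a i)) b
    refine ⟨d, ?_⟩
    rw [← hd]
    refine Finset.sum_congr rfl fun i _ => Finset.sum_congr rfl fun j _ => ?_
    rw [LinearMap.comp_apply, hP, map_mul pA, map_star pA]
  · rw [LinearMap.comp_apply, hP, map_one pA, hφ1]
  · intro a ha
    rw [LinearMap.comp_apply, hP]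
    set y : Bd XX := (c a).sum fun w z => z • Mo U S w with hy
    set y' : AA := (c a).sum fun w z => z • Mo uA sA w with hy'
    have hyy : pA y' = y := by
      rw [hy', hy, Finsupp.sum, Finsupp.sum, map_sum pA]
      refine Finset.sum_congr rfl fun w _ => ?_
      rw [map_smul pA, pA_Mo]
    have h1 : ‖ψ (φ (pA a - y))‖ < ε / 3 := (hcon _).trans_lt (hc a)
    have h3 : ‖y' - a‖ < ε / 3 := by
      rw [← pA_norm, map_sub pA, hyy, norm_sub_rev]
      exact hc a
    have h2 : ‖ψ (φ y) - y'‖ ≤ ε / 3 := by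
      have e1 : ψ (φ y) - y' = ∑ w ∈ (c a).support,
          (c a w) • (ψ (φ (Mo U S w)) - Mo uA sA w) := by
        rw [hy, hy', Finsupp.sum, Finsupp.sum, map_sum, map_sum, ← Finset.sum_sub_distrib]
        refine Finset.sum_congr rfl fun w _ => ?_
        rw [map_smul, map_smul, smul_sub]
      rw [e1]
      have hle : ∑ w ∈ (c a).support, ‖c a w‖ ≤ C :=
        Finset.single_le_sum (f := fun a => ∑ w ∈ (c a).support, ‖c a w‖)
          (fun a _ => Finset.sum_nonneg fun w _ => norm_nonneg _) ha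
      calc ‖∑ w ∈ (c a).support, (c a w) • (ψ (φ (Mo U S w)) - Mo uA sA w)‖
          ≤ ∑ w ∈ (c a).support, ‖(c a w) • (ψ (φ (Mo U S w)) - Mo uA sA w)‖ :=
            norm_sum_le _ _
        _ ≤ ∑ w ∈ (c a).support, ‖c a w‖ * (ε / (3 * (C + 1))) := by
            refine Finset.sum_le_sum fun w hw => ?_
            rw [norm_smul]
            refine mul_le_mul_of_nonneg_left ?_ (norm_nonneg _)
            exact (hest w (Finset.mem_biUnion.2 ⟨a, ha, hw⟩)).le
        _ = (∑ w ∈ (c a).support, ‖c a w‖) * (ε / (3 * (C + 1))) := by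
            rw [Finset.sum_mul]
        _ ≤ (C + 1) * (ε / (3 * (C + 1))) := by
            refine mul_le_mul_of_nonneg_right ?_ hδ.le
            linarith
        _ = ε / 3 := by
            have : C + 1 ≠ 0 := by positivity
            field_simp
    have e2 : ψ (φ (pA a)) - a = ψ (φ (pA a - y)) + (ψ (φ y) - y') + (y' - a) := by
      rw [map_sub φ, map_sub ψ]
      abel
    rw [e2]
    calc ‖ψ (φ (pA a - y)) + (ψ (φ y) - y') + (y' - a)‖
        ≤ ‖ψ (φ (pA a - y))‖ + ‖ψ (φ y) - y'‖ + ‖y' - a‖ := norm_add₃_le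
      _ < ε / 3 + ε / 3 + ε / 3 := by linarith
      _ = ε := by ring

end Pool.Agent.KCH
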