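import Pool.Agent.KCH.KStmts

/-!
# Squad KCH, module NF1: normal form of the kernel of the augmentation in `K_1`
-/

set_option autoImplicit false

namespace Pool.Agent.KCH

namespace NF1_

/-- the scalars of `J^+` -/
def sc (J : Type) [NonUnitalCStarAlgebra J] : ℂ →ₙ+* Unitization ℂ J :=
  ((algebraMap ℂ (Unitization ℂ J) : ℂ →+* Unitization ℂ J) : ℂ →ₙ+* Unitization ℂ J)

theorem sc_continuous (J : Type) [NonUnitalCStarAlgebra J] : Continuous (sc J) := by
  show Continuous (algebraMap ℂ (Unitization ℂ J))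
  exact continuous_algebraMap ℂ (Unitization ℂ J)

theorem sca_eq (J : Type) [NonUnitalCStarAlgebra J] : sca J = (sc J).comp (aug J) := rfl

theorem sca_continuous (J : Type) [NonUnitalCStarAlgebra J] : Continuous (sca J) :=
  (sc_continuous J).comp (aug_continuous J)

theorem sca_one (J : Type) [NonUnitalCStarAlgebra J] : sca J 1 = 1 := by
  rw [sca_apply]
  exact map_one (algebraMap ℂ (Unitization ℂ J))

theorem aug_sca (J : Type) [NonUnitalCStarAlgebra J] (x : Unitization ℂ J) :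
    aug J (sca J x) = aug J x := rfl

theorem mm_aug_sca (J : Type) [NonUnitalCStarAlgebra J] {ι κ : Type}
    (x : Matrix ι κ (Unitization ℂ J)) : mm (aug J) (mm (sca J) x) = mm (aug J) x := rfl

end NF1_

open NF1_

theorem NF1_proof (hK : Stmt_K1A) : Stmt_NF1 := by
  intro J _ x hx
  obtain ⟨h1, h2, h3, h4, h5, h6, h7⟩ := hK (Unitization ℂ J)
  obtain ⟨n, h, hh, rfl⟩ := h7 x
  have hu : IsUnit (mm (sca J) h) := mm_isUnit (sca J) (sca_one J) hh
  have hz : c1 (mm (sca J) h) hu = 0 := by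
    have e1 : K1.map (sca J) (sca_continuous J) (c1 h hh) = c1 (mm (sca J) h) hu := by
      rw [K1.map_c1]
      exact c1_congr (m1_eq_mm _ (sca_one J) _) _ _
    have e2 : K1.map (sca J) (sca_continuous J) (c1 h hh) =
        K1.map (sc J) (sc_continuous J) (K1.map (aug J) (aug_continuous J) (c1 h hh)) :=
      K1.map_comp (sc J) (aug J) (sc_continuous J) (aug_continuous J) (c1 h hh)
    rw [← e1, e2, hx, map_zero]
  obtain ⟨v, hv⟩ := hu
  have hmul : h * (↑v⁻¹ : Matrix (Fin n) (Fin n) (Unitization ℂ J)) * mm (sca J) h = h := by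
    rw [← hv, Matrix.mul_assoc, v.inv_mul, Matrix.mul_one]
  have hg : IsUnit (h * (↑v⁻¹ : Matrix (Fin n) (Fin n) (Unitization ℂ J))) := hh.mul v⁻¹.isUnit
  refine ⟨n, h * (↑v⁻¹ : Matrix (Fin n) (Fin n) (Unitization ℂ J)), hg, ?_, ?_⟩
  · have e3 : mm (aug J) (h * (↑v⁻¹ : Matrix (Fin n) (Fin n) (Unitization ℂ J))) *
        mm (aug J) h = mm (aug J) h := by
      rw [← mm_aug_sca J h, ← mm_mul, hmul]
      rfl
    have hah : IsUnit (mm (aug J) h) := mm_isUnit (aug J) aug_one hh
    exact hah.mul_eq_right.1 e3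
  · have e4 := h4 (Fin n) (h * (↑v⁻¹ : Matrix (Fin n) (Fin n) (Unitization ℂ J))) (mm (sca J) h) hg
      (mm_isUnit (sca J) (sca_one J) hh)
    rw [hz, add_zero] at e4
    rw [← e4]
    exact c1_congr hmul.symm _ _

end Pool.Agent.KCH
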