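import Pool.Agent.KCH.RStmts

/-!
# Squad KCH, module NUC: the approximations
-/

set_option autoImplicit false

namespace Pool.Agent.KCH

theorem nuc_proof (hUPF : Stmt_UPF) (hUNI : Stmt_UNI) (hEST : Stmt_EST) : Stmt_NUC := by
  intro W ε hε
  obtain ⟨h, M, N, n, hWt, hN, hn, hest⟩ := hEST W ε hε
  obtain ⟨m, φ, hφ, hφ1, hψ⟩ := hUPF XX (IS M N n)
  refine ⟨m, φ, hφ, hφ1, fun B _ u s hus => ?_⟩
  obtain ⟨ψ, h1, h2, h3, h4⟩ := hψ B (Fin 2) (fun k p => rr u s M h N n k p)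
    (hUNI B u s hus M h N n hWt hN hn)
  refine ⟨ψ, h1, h2, h4, fun w hw => ?_⟩
  rw [h3]
  exact hest w hw B u s hus

end Pool.Agent.KCH
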