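import Pool.Agent.KCH.KStmts

/-!
# Module NWT
-/

namespace Pool.Agent.KCH

open Filter Topology

namespace NWT_

/-- one step -/
def nx {R : Type*} [Ring R] (a : R) : R := 3 • a ^ 2 - 2 • a ^ 3

theorem step1 {R : Type*} [Ring R] (a : R) :
    nx a - a = (a ^ 2 - a) * (1 - 2 • a) := by
  unfold nx
  noncomm_ring

theorem step2 {R : Type*} [Ring R] (a : R) :
    nx a ^ 2 - nx a = (a ^ 2 - a) ^ 2 * (4 • a ^ 2 - 4 • a - 3 • (1 : R)) := by
  unfold nx
  noncomm_ring

/-- Newton iteration in a complete normed ring -/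
theorem newton {R : Type*} [NormedRing R] [CompleteSpace R] (e : R) (he : e * e = e)
    (ε : ℝ) (hε : 0 < ε) :
    ∃ δ : ℝ, 0 < δ ∧ ∀ T : Subring R, IsClosed (T : Set R) → ∀ a ∈ T, ‖a - e‖ < δ →
      ∃ f ∈ T, f * f = f ∧ ‖f - e‖ < ε := by
  set C : ℝ := ‖e‖ + 1 with hC
  have hC1 : 1 ≤ C := by rw [hC]; linarith [norm_nonneg e]
  set n1 : ℝ := ‖(1 : R)‖ with hn1
  have hn10 : 0 ≤ n1 := norm_nonneg _
  set K : ℝ := 4 * C ^ 2 + 4 * C + 3 * n1 with hK
  have hK0 : 0 < K := by positivity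
  set L : ℝ := n1 + 2 * C with hL
  have hL0 : 0 < L := by positivity
  set η : ℝ := min (min (1 / (2 * K)) (1 / (4 * L))) (ε / (4 * L)) with hη
  have hη0 : 0 < η := lt_min (lt_min (by positivity) (by positivity)) (by positivity)
  refine ⟨min (min (1 / 2) (ε / 2)) (η / (2 * C)),
    lt_min (lt_min (by norm_num) (by positivity)) (by positivity), ?_⟩
  intro T hT a haT ha
  have ha1 : ‖a - e‖ < 1 / 2 := lt_of_lt_of_le ha ((min_le_left _ _).trans (min_le_left _ _))
  have ha2 : ‖a - e‖ < ε / 2 := lt_of_lt_of_le ha ((min_le_left _ _).trans (min_le_right _ _))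
  have ha3 : ‖a - e‖ < η / (2 * C) := lt_of_lt_of_le ha (min_le_right _ _)
  have haC : ‖a‖ ≤ ‖e‖ + 1 / 2 := by
    have := norm_add_le (a - e) e
    rw [sub_add_cancel] at this
    linarith
  -- the first defect
  set P : ℝ := ‖a ^ 2 - a‖ with hP
  have hP0 : 0 ≤ P := norm_nonneg _
  have hPη : P ≤ η := by
    have h1 : a ^ 2 - a = (a - e) * a + e * (a - e) - (a - e) := by
      have : e * (a - e) = e * a - e := by rw [mul_sub, he]
      rw [this]
      noncomm_ring
    have h2 : P ≤ ‖a - e‖ * ‖a‖ + ‖e‖ * ‖a - e‖ + ‖a - e‖ := by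
      rw [hP, h1]
      refine (norm_sub_le _ _).trans ?_
      refine add_le_add ((norm_add_le _ _).trans (add_le_add (norm_mul_le _ _) (norm_mul_le _ _)))
        le_rfl
    have h3 : ‖a - e‖ * (2 * C) ≤ η := by
      rw [lt_div_iff₀ (by positivity)] at ha3
      exact ha3.le
    have h4 : ‖a - e‖ * ‖a‖ + ‖e‖ * ‖a - e‖ + ‖a - e‖ ≤ ‖a - e‖ * (2 * C) := by
      have : 0 ≤ ‖a - e‖ := norm_nonneg _
      rw [hC]
      nlinarith
    linarith
  have hPK : P * K ≤ 1 / 2 := by
    have h1 : η ≤ 1 / (2 * K) := (min_le_left _ _).trans (min_le_left _ _)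
    have h2 : P ≤ 1 / (2 * K) := hPη.trans h1
    rw [le_div_iff₀ (by positivity)] at h2
    linarith
  have hPL : 2 * L * P ≤ 1 / 2 := by
    have h1 : η ≤ 1 / (4 * L) := (min_le_left _ _).trans (min_le_right _ _)
    have h2 : P ≤ 1 / (4 * L) := hPη.trans h1
    rw [le_div_iff₀ (by positivity)] at h2
    linarith
  have hPε : 2 * L * P ≤ ε / 2 := by
    have h1 : η ≤ ε / (4 * L) := min_le_right _ _
    have h2 : P ≤ ε / (4 * L) := hPη.trans h1
    rw [le_div_iff₀ (by positivity)] at h2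
    linarith
  -- the sequence
  set s : ℕ → R := fun k => nx^[k] a with hs
  have hs0 : s 0 = a := rfl
  have hsucc : ∀ k, s (k + 1) = nx (s k) := by
    intro k
    simp only [hs]
    rw [Function.iterate_succ_apply']
  have hsT : ∀ k, s k ∈ T := by
    intro k
    induction k with
    | zero => exact haT
    | succ k ih =>
      rw [hsucc]
      unfold nx
      exact T.sub_mem (T.nsmul_mem (T.pow_mem ih 2) 3) (T.nsmul_mem (T.pow_mem ih 3) 2)
  have hmain : ∀ k, ‖s k - a‖ ≤ 2 * L * P * (1 - (1 / 2) ^ k) ∧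
      ‖s k ^ 2 - s k‖ ≤ (1 / 2) ^ k * P ∧ ‖s (k + 1) - s k‖ ≤ L * P * (1 / 2) ^ k := by
    have aux : ∀ k, ‖s k - a‖ ≤ 2 * L * P * (1 - (1 / 2) ^ k) →
        ‖s k ^ 2 - s k‖ ≤ (1 / 2) ^ k * P → ‖s (k + 1) - s k‖ ≤ L * P * (1 / 2) ^ k ∧
        ‖s k‖ ≤ C := by
      intro k h1 h2
      have hk0 : (0 : ℝ) ≤ (1 / 2) ^ k := by positivity
      have h3 : ‖s k‖ ≤ C := by
        have h4 := norm_add_le (s k - a) a
        rw [sub_add_cancel] at h4
        have h5 : 2 * L * P * (1 - (1 / 2) ^ k) ≤ 2 * L * P := by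
          have : 0 ≤ 2 * L * P * (1 / 2) ^ k := by positivity
          linarith
        rw [hC]
        linarith
      refine ⟨?_, h3⟩
      rw [hsucc, step1]
      have h6 : ‖1 - 2 • s k‖ ≤ L := by
        refine (norm_sub_le _ _).trans ?_
        have h7 : ‖2 • s k‖ ≤ 2 * ‖s k‖ := by
          have := norm_nsmul_le (n := 2) (a := s k)
          simpa using this
        rw [hL]
        linarith
      calc ‖(s k ^ 2 - s k) * (1 - 2 • s k)‖ ≤ ‖s k ^ 2 - s k‖ * ‖1 - 2 • s k‖ := norm_mul_le _ _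
        _ ≤ ((1 / 2) ^ k * P) * L := mul_le_mul h2 h6 (norm_nonneg _) (by positivity)
        _ = L * P * (1 / 2) ^ k := by ring
    intro k
    induction k with
    | zero =>
      have h1 : ‖s 0 - a‖ ≤ 2 * L * P * (1 - (1 / 2) ^ 0) := by simp [hs0]
      have h2 : ‖s 0 ^ 2 - s 0‖ ≤ (1 / 2) ^ 0 * P := by simp [hs0, hP]
      exact ⟨h1, h2, (aux 0 h1 h2).1⟩
    | succ k ih =>
      obtain ⟨i1, i2, i3⟩ := ih
      have hsC := (aux k i1 i2).2
      have h1 : ‖s (k + 1) - a‖ ≤ 2 * L * P * (1 - (1 / 2) ^ (k + 1)) := by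
        have h4 := norm_add_le (s (k + 1) - s k) (s k - a)
        rw [sub_add_sub_cancel] at h4
        calc ‖s (k + 1) - a‖ ≤ L * P * (1 / 2) ^ k + 2 * L * P * (1 - (1 / 2) ^ k) := by linarith
          _ = 2 * L * P * (1 - (1 / 2) ^ (k + 1)) := by rw [pow_succ]; ring
      have h2 : ‖s (k + 1) ^ 2 - s (k + 1)‖ ≤ (1 / 2) ^ (k + 1) * P := by
        rw [hsucc, step2]
        have h5 : ‖4 • s k ^ 2 - 4 • s k - 3 • (1 : R)‖ ≤ K := by
          have h6 : ‖4 • s k ^ 2‖ ≤ 4 * C ^ 2 := by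
            have h7 := norm_nsmul_le (n := 4) (a := s k ^ 2)
            have h8 : ‖s k ^ 2‖ ≤ C ^ 2 := by
              rw [pow_two]
              calc ‖s k * s k‖ ≤ ‖s k‖ * ‖s k‖ := norm_mul_le _ _
                _ ≤ C * C := mul_le_mul hsC hsC (norm_nonneg _) (by linarith)
                _ = C ^ 2 := by ring
            have h9 : ‖4 • s k ^ 2‖ ≤ 4 * ‖s k ^ 2‖ := by simpa using h7
            linarith
          have h10 : ‖4 • s k‖ ≤ 4 * C := by
            have h7 := norm_nsmul_le (n := 4) (a := s k)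
            have h9 : ‖4 • s k‖ ≤ 4 * ‖s k‖ := by simpa using h7
            linarith
          have h11 : ‖3 • (1 : R)‖ ≤ 3 * n1 := by
            have h7 := norm_nsmul_le (n := 3) (a := (1 : R))
            simpa using h7
          refine (norm_sub_le _ _).trans ?_
          have h12 := norm_sub_le (4 • s k ^ 2) (4 • s k)
          rw [hK]
          linarith
        have h13 : ‖(s k ^ 2 - s k) ^ 2‖ ≤ ((1 / 2) ^ k * P) ^ 2 := by
          calc ‖(s k ^ 2 - s k) ^ 2‖ = ‖(s k ^ 2 - s k) * (s k ^ 2 - s k)‖ := by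
                rw [pow_two (s k ^ 2 - s k)]
            _ ≤ ‖s k ^ 2 - s k‖ * ‖s k ^ 2 - s k‖ := norm_mul_le _ _
            _ ≤ ((1 / 2) ^ k * P) * ((1 / 2) ^ k * P) :=
                mul_le_mul i2 i2 (norm_nonneg _) (by positivity)
            _ = ((1 / 2) ^ k * P) ^ 2 := by ring
        have hk1 : ((1 : ℝ) / 2) ^ k ≤ 1 := pow_le_one₀ (by norm_num) (by norm_num)
        have hk0 : (0 : ℝ) ≤ (1 / 2) ^ k := by positivity
        calc ‖(s k ^ 2 - s k) ^ 2 * (4 • s k ^ 2 - 4 • s k - 3 • (1 : R))‖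
            ≤ ‖(s k ^ 2 - s k) ^ 2‖ * ‖4 • s k ^ 2 - 4 • s k - 3 • (1 : R)‖ := norm_mul_le _ _
          _ ≤ ((1 / 2) ^ k * P) ^ 2 * K := mul_le_mul h13 h5 (norm_nonneg _) (by positivity)
          _ = (((1 / 2) ^ k) * ((1 / 2) ^ k * P)) * (P * K) := by ring
          _ ≤ (1 * ((1 / 2) ^ k * P)) * (1 / 2) := by
              apply mul_le_mul _ hPK (by positivity) (by positivity)
              exact mul_le_mul_of_nonneg_right hk1 (by positivity)
          _ = (1 / 2) ^ (k + 1) * P := by rw [pow_succ]; ring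
      exact ⟨h1, h2, (aux (k + 1) h1 h2).1⟩
  have hcau : CauchySeq s := by
    apply cauchySeq_of_le_geometric (1 / 2) (L * P) (by norm_num)
    intro k
    rw [dist_comm, dist_eq_norm]
    exact (hmain k).2.2
  obtain ⟨f, hf⟩ := cauchySeq_tendsto_of_complete hcau
  refine ⟨f, ?_, ?_, ?_⟩
  · exact hT.mem_of_tendsto hf (Eventually.of_forall hsT)
  · have h1 : Tendsto (fun k => s k ^ 2 - s k) atTop (𝓝 (f ^ 2 - f)) :=
      (hf.pow 2).sub hf
    have h2 : Tendsto (fun k => s k ^ 2 - s k) atTop (𝓝 0) := by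
      apply squeeze_zero_norm (fun k => (hmain k).2.1)
      have : Tendsto (fun k : ℕ => ((1 : ℝ) / 2) ^ k * P) atTop (𝓝 (0 * P)) :=
        (tendsto_pow_atTop_nhds_zero_of_lt_one (by norm_num) (by norm_num)).mul_const P
      rwa [zero_mul] at this
    have h3 := tendsto_nhds_unique h1 h2
    rw [pow_two] at h3
    exact sub_eq_zero.1 h3
  · have h1 : ‖f - a‖ ≤ 2 * L * P := by
      have h2 : Tendsto (fun k => ‖s k - a‖) atTop (𝓝 ‖f - a‖) := (hf.sub_const a).norm
      refine le_of_tendsto' h2 (fun k => (hmain k).1.trans ?_)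
      have : 0 ≤ 2 * L * P * (1 / 2) ^ k := by positivity
      linarith
    have h3 := norm_add_le (f - a) (a - e)
    rw [sub_add_sub_cancel] at h3
    linarith

end NWT_

open NWT_ in
theorem nwt_proof : Stmt_NWT := by
  intro A _ _ ι _ _ e he ε hε
  let I : NormedRing (Matrix ι ι A) := Matrix.linftyOpNormedRing
  have hle : ∀ (M : Matrix ι ι A) (i j : ι), ‖M i j‖ ≤ ‖M‖ := by
    intro M i j
    rw [Matrix.linfty_opNorm_def]
    have h1 : ‖M i j‖₊ ≤ Finset.univ.sup fun i => ∑ j, ‖M i j‖₊ := by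
      refine le_trans ?_ (Finset.le_sup (f := fun i => ∑ j, ‖M i j‖₊) (Finset.mem_univ i))
      exact Finset.single_le_sum (f := fun j => ‖M i j‖₊) (fun _ _ => zero_le)
        (Finset.mem_univ j)
    exact_mod_cast h1
  have hge : ∀ (M : Matrix ι ι A) (c : ℝ), 0 ≤ c → (∀ i j, ‖M i j‖ ≤ c) →
      ‖M‖ ≤ Fintype.card ι * c := by
    intro M c hc hM
    lift c to NNReal using hc
    rw [Matrix.linfty_opNorm_def]
    have h1 : (Finset.univ.sup fun i => ∑ j, ‖M i j‖₊) ≤ Fintype.card ι * c := by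
      apply Finset.sup_le
      intro i _
      calc ∑ j, ‖M i j‖₊ ≤ ∑ _j : ι, c := Finset.sum_le_sum fun j _ => hM i j
        _ = Fintype.card ι * c := by rw [Finset.sum_const, nsmul_eq_mul]; rfl
    exact_mod_cast h1
  have hcomp : @CompleteSpace (Matrix ι ι A) PseudoMetricSpace.toUniformSpace := by
    apply Metric.complete_of_cauchySeq_tendsto
    intro u hu
    rw [Metric.cauchySeq_iff] at hu
    have hent : ∀ i j, CauchySeq fun k => u k i j := by
      intro i j
      rw [Metric.cauchySeq_iff]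
      intro ε hε
      obtain ⟨N, hN⟩ := hu ε hε
      refine ⟨N, fun m hm k hk => ?_⟩
      have h1 := hN m hm k hk
      rw [dist_eq_norm] at h1 ⊢
      exact lt_of_le_of_lt (hle (u m - u k) i j) h1
    obtain ⟨M, hM⟩ : ∃ M : Matrix ι ι A, ∀ i j, Tendsto (fun k => u k i j) atTop (𝓝 (M i j)) := by
      choose M hM using fun i j => cauchySeq_tendsto_of_complete (hent i j)
      exact ⟨Matrix.of M, hM⟩
    refine ⟨M, ?_⟩
    apply tendsto_iff_norm_sub_tendsto_zero.2
    have h2 : ∀ i j, Tendsto (fun k => ‖u k i j - M i j‖) atTop (𝓝 0) := by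
      intro i j
      exact tendsto_iff_norm_sub_tendsto_zero.1 (hM i j)
    have h3 : Tendsto (fun k => ∑ i, ∑ j, ‖u k i j - M i j‖) atTop (𝓝 0) := by
      have := tendsto_finsetSum (Finset.univ : Finset ι)
        (fun i _ => tendsto_finsetSum (Finset.univ : Finset ι) (fun j _ => h2 i j))
      simpa using this
    have h4 : Tendsto (fun k => (Fintype.card ι : ℝ) * ∑ i, ∑ j, ‖u k i j - M i j‖) atTop
        (𝓝 0) := by
      have := h3.const_mul (Fintype.card ι : ℝ)
      simpa using this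
    refine squeeze_zero (fun k => norm_nonneg _) (fun k => ?_) h4
    apply hge
    · exact Finset.sum_nonneg fun i _ => Finset.sum_nonneg fun j _ => norm_nonneg _
    · intro i j
      calc ‖(u k - M) i j‖ = ‖u k i j - M i j‖ := rfl
        _ ≤ ∑ j, ‖u k i j - M i j‖ :=
            Finset.single_le_sum (f := fun j => ‖u k i j - M i j‖) (fun _ _ => norm_nonneg _)
              (Finset.mem_univ j)
        _ ≤ ∑ i, ∑ j, ‖u k i j - M i j‖ :=
            Finset.single_le_sum (f := fun i => ∑ j, ‖u k i j - M i j‖)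
              (fun _ _ => Finset.sum_nonneg fun _ _ => norm_nonneg _) (Finset.mem_univ i)
  obtain ⟨δ, hδ, h⟩ := @newton (Matrix ι ι A) I hcomp e he ε hε
  refine ⟨δ / (Fintype.card ι + 1), by positivity, ?_⟩
  intro S hS a ha hclose
  obtain ⟨f, hf1, hf2, hf3⟩ := h S hS a ha (by
    have h1 := hge (a - e) (δ / (Fintype.card ι + 1)) (by positivity)
      (fun i j => (hclose i j).le)
    refine lt_of_le_of_lt h1 ?_
    rw [mul_div_assoc', div_lt_iff₀ (by positivity)]
    nlinarith)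
  refine ⟨f, hf1, hf2, fun i j => lt_of_le_of_lt ?_ hf3⟩
  exact hle (f - e) i j

end Pool.Agent.KCH
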