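import Pool.Agent.KCH.RStmts

/-!
# Squad KCH, module PIA: pure infiniteness of the Fock algebra
-/

set_option autoImplicit false

namespace Pool.Agent.KCH

namespace PIA_

section
variable {B : Type} [Ring B] [StarRing B]

theorem head (hP : Stmt_PWR) {u s : B} (hr : Rel u s) (K : ℤ) (α : List ℤ)
    (hα : α ≠ []) (h : K ∉ α) : star (pw u K * s) * Sw u s α = 0 := by
  obtain ⟨p1, p2, p3, p4, p5⟩ := hP B u s hr
  rcases α with _ | ⟨k, α⟩
  · exact absurd rfl hα
  · have hk : -K + k ≠ 0 := by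
      intro h0
      apply h
      have : K = k := by omega
      rw [this]
      exact List.mem_cons_self
    have h1 := p5 (-K + k)
    rw [if_neg hk, p3] at h1
    rw [star_mul, p4]
    show star s * pw u (-K) * (pw u k * s * Sw u s α) = 0
    have h2 : star s * pw u (-K) * (pw u k * s * Sw u s α) =
        star s * (pw u (-K) * pw u k) * s * Sw u s α := by simp only [mul_assoc]
    rw [h2, h1, zero_mul]

theorem comp (hP : Stmt_PWR) {u s : B} (hr : Rel u s) (K : ℤ) (w : List ℤ × ℤ × List ℤ)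
    (h : K ∉ w.1 ++ w.2.2) : star (pw u K * s) * Mo u s w * (pw u K * s) =
      if w = ([], 0, []) then 1 else 0 := by
  classical
  obtain ⟨p1, p2, p3, p4, p5⟩ := hP B u s hr
  obtain ⟨α, l, β⟩ := w
  rw [List.mem_append, not_or] at h
  obtain ⟨h1, h2⟩ := h
  simp only at h1 h2
  rw [Mo]
  simp only
  by_cases hα : α = []
  · by_cases hβ : β = []
    · subst hα hβ
      show star (pw u K * s) * (1 * pw u l * star 1) * (pw u K * s) = _
      rw [star_one, mul_one, one_mul, star_mul, p4]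
      have h3 : star s * pw u (-K) * pw u l * (pw u K * s) =
          star s * (pw u (-K) * pw u l * pw u K) * s := by simp only [mul_assoc]
      rw [h3, ← p3, ← p3, p5]
      by_cases hl : l = 0
      · subst hl
        rw [if_pos (by ring), if_pos rfl]
      · rw [if_neg (by omega), if_neg]
        intro h4
        apply hl
        simpa using h4
    · have h3 := head hP hr K β hβ h2
      have h4 : star (Sw u s β) * (pw u K * s) = 0 := by
        have h5 := congrArg star h3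
        rw [star_mul, star_star, star_zero] at h5
        exact h5
      rw [if_neg]
      · have h5 : star (pw u K * s) * (Sw u s α * pw u l * star (Sw u s β)) * (pw u K * s) =
            star (pw u K * s) * (Sw u s α * pw u l) * (star (Sw u s β) * (pw u K * s)) := by
          simp only [mul_assoc]
        rw [h5, h4, mul_zero]
      · intro h5
        apply hβ
        simp only [Prod.mk.injEq] at h5
        exact h5.2.2
  · have h3 := head hP hr K α hα h1
    rw [if_neg]
    · have h5 : star (pw u K * s) * (Sw u s α * pw u l * star (Sw u s β)) * (pw u K * s) =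
          (star (pw u K * s) * Sw u s α) * (pw u l * star (Sw u s β) * (pw u K * s)) := by
        simp only [mul_assoc]
      rw [h5, h3, zero_mul]
    · intro h5
      apply hα
      simp only [Prod.mk.injEq] at h5
      exact h5.1

theorem isom (hP : Stmt_PWR) {u s : B} (hr : Rel u s) (K : ℤ) :
    star (pw u K * s) * (pw u K * s) = 1 := by
  obtain ⟨p1, p2, p3, p4, p5⟩ := hP B u s hr
  have h := comp hP hr K ([], 0, []) (by simp)
  rw [if_pos rfl] at h
  have h2 : Mo u s ([], 0, []) = 1 := by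
    show 1 * pw u 0 * star 1 = 1
    rw [p1, star_one, mul_one, mul_one]
  rwa [h2, mul_one] at h

end

theorem pA_pw (k : ℤ) : pA (pw uA k) = pw U k := by
  cases k with
  | ofNat n =>
    show pA (uA ^ n) = U ^ n
    rw [map_pow, pA_uA]
  | negSucc n =>
    show pA (star uA ^ (n + 1)) = star U ^ (n + 1)
    rw [map_pow, map_star, pA_uA]

theorem pA_Sw (α : List ℤ) : pA (Sw uA sA α) = Sw U S α := by
  induction α with
  | nil =>
    show pA 1 = 1
    exact map_one pA
  | cons k α ih =>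
    show pA (pw uA k * sA * Sw uA sA α) = pw U k * S * Sw U S α
    rw [map_mul, map_mul, pA_pw, pA_sA, ih]

theorem pA_Mo (w : List ℤ × ℤ × List ℤ) : pA (Mo uA sA w) = Mo U S w := by
  rw [Mo, Mo, map_mul, map_mul, map_star, pA_Sw, pA_Sw, pA_pw]

theorem norm_ee {X : Type} (x : X) : ‖(ee x : L2 X)‖ = 1 := by
  classical
  have h := inner_ee_ee x x
  rw [if_pos rfl] at h
  have h2 : ‖(ee x : L2 X)‖ ^ 2 = 1 := by
    rw [norm_sq_eq_re_inner (𝕜 := ℂ), h]
    exact RCLike.one_re
  have h3 := norm_nonneg (ee x : L2 X)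
  nlinarith

theorem S_ee : S (ee (([], 0) : XX)) = ee (([0], 0) : XX) := by
  rw [S_def, opP_ee]
  rfl

theorem not_scalar (c : ℂ) : sA ≠ c • (1 : AA) := by
  intro h
  have h1 := congrArg pA h
  rw [pA_sA, map_smul, map_one] at h1
  have h2 := S_ee
  rw [h1] at h2
  have h3 : (c • (ee (([], 0) : XX) : L2 XX)) = ee (([0], 0) : XX) := h2
  have h4 := congrArg (fun ξ : L2 XX => ξ (([0], 0) : XX)) h3
  simp only at h4
  rw [ee_apply_self] at h4
  have h5 : (c • (ee (([], 0) : XX) : L2 XX)) (([0], 0) : XX) =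
      c * (ee (([], 0) : XX) : L2 XX) (([0], 0) : XX) := rfl
  rw [h5, ee_apply_ne (by simp), mul_zero] at h4
  exact zero_ne_one h4

theorem Mo_coef (hM : Stmt_MBA) (w : List ℤ × ℤ × List ℤ) :
    (inner ℂ (ee (([], 0) : XX)) (Mo U S w (ee (([], 0) : XX))) : ℂ) =
      if w = ([], 0, []) then 1 else 0 := by
  classical
  obtain ⟨α, l, β⟩ := w
  by_cases hβ : β = []
  · subst hβ
    have h := (hM α l []).1 [] 0
    rw [if_pos rfl] at h
    have h2 : (([] : List ℤ) ++ [], (0 : ℤ)) = (([], 0) : XX) := rfl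
    rw [h2] at h
    have h3 : ((α ++ sh l [], 0 + l) : XX) = (α, l) := by
      show ((α ++ [], 0 + l) : XX) = (α, l)
      rw [List.append_nil, zero_add]
    rw [h3] at h
    rw [h, inner_ee_ee]
    by_cases h4 : (([], 0) : XX) = (α, l)
    · rw [if_pos h4, if_pos]
      simp only [Prod.mk.injEq] at h4
      rw [← h4.1, ← h4.2]
    · rw [if_neg h4, if_neg]
      intro h5
      apply h4
      simp only [Prod.mk.injEq] at h5
      rw [h5.1, h5.2.1]
  · have h := (hM α l β).2 [] 0 (by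
      rintro ⟨ρ, h⟩
      apply hβ
      exact (List.append_eq_nil_iff.1 h.symm).1)
    rw [h, inner_zero_right, if_neg]
    intro h5
    apply hβ
    simp only [Prod.mk.injEq] at h5
    exact h5.2.2

theorem coef_le (T : Bd XX) (x : XX) : ‖(inner ℂ (ee x) (T (ee x)) : ℂ)‖ ≤ ‖T‖ := by
  calc ‖(inner ℂ (ee x) (T (ee x)) : ℂ)‖ ≤ ‖(ee x : L2 XX)‖ * ‖T (ee x)‖ := norm_inner_le_norm _ _
    _ ≤ 1 * (‖T‖ * 1) := by
        rw [norm_ee]
        refine mul_le_mul_of_nonneg_left ?_ zero_le_one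
        have := T.le_opNorm (ee x)
        rwa [norm_ee] at this
    _ = ‖T‖ := by ring

theorem norm_isom {V : AA} (h : star V * V = 1) : ‖V‖ ≤ 1 := by
  have h1 : ‖star V * V‖ = ‖V‖ * ‖V‖ := CStarRing.norm_star_mul_self
  rw [h] at h1
  have h2 : ‖(1 : AA)‖ ≤ 1 := by
    have h3 : ‖star (1 : AA) * 1‖ = ‖(1 : AA)‖ * ‖(1 : AA)‖ := CStarRing.norm_star_mul_self
    rw [star_one, mul_one] at h3
    nlinarith [norm_nonneg (1 : AA)]
  nlinarith [norm_nonneg V]

end PIA_

open PIA_

theorem PIA_proof (hP : Stmt_PWR) (hW : Stmt_WRD) (hF : Stmt_FRL) (hM : Stmt_MBA)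
    (hS : Stmt_SPN) : Stmt_PIA := by
  classical
  have hr : Rel U S := hF
  refine ⟨⟨sA, not_scalar⟩, ?_⟩
  intro a ha
  have h0 : ∃ x : XX, pA a (ee x) ≠ 0 := by
    by_contra hne
    push Not at hne
    apply ha
    apply pA_injective
    rw [map_zero]
    exact op_ext fun x => by rw [hne x]; rfl
  obtain ⟨⟨μ, m⟩, hx⟩ := h0
  have hT : Mo U S (μ, m, []) (ee (([], 0) : XX)) = ee ((μ, m) : XX) := by
    have h := (hM μ m []).1 [] 0
    rw [if_pos rfl] at h
    have h3 : ((μ ++ sh m [], 0 + m) : XX) = (μ, m) := by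
      show ((μ ++ [], 0 + m) : XX) = (μ, m)
      rw [List.append_nil, zero_add]
    rw [h3] at h
    exact h
  obtain ⟨R, hR⟩ : ∃ R, R = Mo uA sA (μ, m, []) := ⟨_, rfl⟩
  have hpR : pA R = Mo U S (μ, m, []) := by rw [hR, pA_Mo]
  obtain ⟨b, hb⟩ : ∃ b, b = star (a * R) * (a * R) := ⟨_, rfl⟩
  have hpb : pA b = star (pA a * pA R) * (pA a * pA R) := by
    rw [hb, map_mul, map_star, map_mul]
  obtain ⟨δ, hδ⟩ : ∃ δ : ℝ, δ = ‖pA a (ee ((μ, m) : XX))‖ ^ 2 := ⟨_, rfl⟩
  have hδ0 : 0 < δ := by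
    rw [hδ]
    exact pow_pos (norm_pos_iff.2 hx) 2
  have hin : (inner ℂ (ee (([], 0) : XX)) (pA b (ee (([], 0) : XX))) : ℂ) = (δ : ℂ) := by
    rw [hpb, mul_apply_eq_comp, ContinuousLinearMap.star_eq_adjoint,
      ContinuousLinearMap.adjoint_inner_right]
    have h1 : (pA a * pA R) (ee (([], 0) : XX)) = pA a (ee ((μ, m) : XX)) := by
      rw [mul_apply_eq_comp, hpR, hT]
    rw [h1, inner_self_eq_norm_sq_to_K, hδ]
    norm_cast
  have hmem : pA b ∈ closure (Submodule.span ℂ (Set.range (Mo U S)) : Set (Bd XX)) := by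
    rw [← hS]
    exact pA_mem b
  obtain ⟨y, hy, hyd⟩ := Metric.mem_closure_iff.1 hmem (δ / 4) (by positivity)
  rw [dist_eq_norm] at hyd
  obtain ⟨f, hf⟩ := (Finsupp.mem_span_range_iff_exists_finsupp (R := ℂ)).1 hy
  obtain ⟨c, hc⟩ : ∃ c, c = f (([], 0, []) : List ℤ × ℤ × List ℤ) := ⟨_, rfl⟩
  have hyc : (inner ℂ (ee (([], 0) : XX)) (y (ee (([], 0) : XX))) : ℂ) = c := by
    rw [← hf, Finsupp.sum, sum_apply, inner_sum]
    have h1 : ∀ w ∈ f.support,
        (inner ℂ (ee (([], 0) : XX)) ((f w • Mo U S w) (ee (([], 0) : XX))) : ℂ) =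
        if w = (([], 0, []) : List ℤ × ℤ × List ℤ) then f w else 0 := by
      intro w _
      rw [smul_apply, inner_smul_right, Mo_coef hM]
      split_ifs
      · rw [mul_one]
      · rw [mul_zero]
    rw [Finset.sum_congr rfl h1, Finset.sum_ite_eq', hc]
    split_ifs with h2
    · rfl
    · exact (Finsupp.notMem_support_iff.1 h2).symm
  have hcδ : ‖(δ : ℂ) - c‖ < δ / 4 := by
    rw [← hin, ← hyc, ← inner_sub_right, ← sub_apply]
    exact lt_of_le_of_lt (coef_le _ _) hyd
  obtain ⟨K, hK⟩ := Infinite.exists_notMem_finset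
    (f.support.biUnion fun w => (w.1 ++ w.2.2).toFinset)
  have hK' : ∀ w ∈ f.support, K ∉ w.1 ++ w.2.2 := by
    intro w hw hk
    apply hK
    rw [Finset.mem_biUnion]
    exact ⟨w, hw, List.mem_toFinset.2 hk⟩
  have hyV : star (pw U K * S) * y * (pw U K * S) = c • (1 : Bd XX) := by
    rw [← hf, Finsupp.sum, Finset.mul_sum, Finset.sum_mul]
    have h1 : ∀ w ∈ f.support, star (pw U K * S) * (f w • Mo U S w) * (pw U K * S) =
        if w = (([], 0, []) : List ℤ × ℤ × List ℤ) then f w • (1 : Bd XX) else 0 := by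
      intro w hw
      rw [mul_smul_comm, smul_mul_assoc, comp hP hr K w (hK' w hw)]
      split_ifs
      · rfl
      · rw [smul_zero]
    rw [Finset.sum_congr rfl h1, Finset.sum_ite_eq', hc]
    split_ifs with h2
    · rfl
    · rw [Finsupp.notMem_support_iff.1 h2, zero_smul]
  obtain ⟨V, hV⟩ : ∃ V, V = pw uA K * sA := ⟨_, rfl⟩
  have hpV : pA V = pw U K * S := by rw [hV, map_mul, pA_pw, pA_sA]
  have hVV : star V * V = 1 := by
    apply pA_injective
    rw [map_mul, map_star, hpV, map_one]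
    exact isom hP hr K
  have hVn : ‖V‖ ≤ 1 := norm_isom hVV
  obtain ⟨y', hy'⟩ := exists_pA (x := y) (by
    have h1 : y ∈ (SA : Set (Bd XX)) := by
      rw [hS]
      exact subset_closure hy
    exact h1)
  have hyd' : ‖b - y'‖ < δ / 4 := by
    rw [← pA_norm, map_sub, hy']
    exact hyd
  have hyV' : star V * y' * V = c • (1 : AA) := by
    apply pA_injective
    rw [map_mul, map_mul, map_star, hpV, hy', map_smul, map_one]
    exact hyV
  obtain ⟨z, hz⟩ : ∃ z, z = star V * b * V := ⟨_, rfl⟩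
  have hzc : ‖z - c • (1 : AA)‖ < δ / 4 := by
    rw [hz, ← hyV']
    have h1 : star V * b * V - star V * y' * V = star V * (b - y') * V := by noncomm_ring
    rw [h1]
    calc ‖star V * (b - y') * V‖ ≤ ‖star V‖ * ‖b - y'‖ * ‖V‖ :=
          (norm_mul_le _ _).trans (mul_le_mul_of_nonneg_right (norm_mul_le _ _) (norm_nonneg _))
      _ ≤ 1 * ‖b - y'‖ * 1 := by
          rw [norm_star]
          gcongr
      _ < δ / 4 := by rw [one_mul, mul_one]; exact hyd'
  have h1n : ‖(1 : AA)‖ ≤ 1 := by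
    have h3 : star (1 : AA) * 1 = 1 := by rw [star_one, mul_one]
    exact norm_isom h3
  have hzδ : ‖(δ : ℂ) • (1 : AA) - z‖ < δ / 2 := by
    have h1 : (δ : ℂ) • (1 : AA) - z = ((δ : ℂ) - c) • (1 : AA) - (z - c • (1 : AA)) := by
      rw [sub_smul]; abel
    rw [h1]
    calc ‖((δ : ℂ) - c) • (1 : AA) - (z - c • (1 : AA))‖
        ≤ ‖((δ : ℂ) - c) • (1 : AA)‖ + ‖z - c • (1 : AA)‖ := norm_sub_le _ _
      _ ≤ ‖(δ : ℂ) - c‖ * 1 + ‖z - c • (1 : AA)‖ := by
          rw [norm_smul]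
          gcongr
      _ < δ / 4 + δ / 4 := by rw [mul_one]; exact add_lt_add hcδ hzc
      _ = δ / 2 := by ring
  have hunit : IsUnit (((δ : ℂ))⁻¹ • z) := by
    have h1 : ((δ : ℂ))⁻¹ • z = 1 - ((δ : ℂ))⁻¹ • ((δ : ℂ) • (1 : AA) - z) := by
      have hδc : (δ : ℂ) ≠ 0 := by exact_mod_cast hδ0.ne'
      rw [smul_sub, smul_smul, inv_mul_cancel₀ hδc, one_smul]
      abel
    rw [h1]
    apply isUnit_one_sub_of_norm_lt_one
    rw [norm_smul, norm_inv, Complex.norm_real, Real.norm_of_nonneg hδ0.le]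
    calc δ⁻¹ * ‖(δ : ℂ) • (1 : AA) - z‖ < δ⁻¹ * (δ / 2) :=
          mul_lt_mul_of_pos_left hzδ (inv_pos.2 hδ0)
      _ = 1 / 2 := by field_simp
      _ < 1 := by norm_num
  obtain ⟨t, ht⟩ := hunit
  refine ⟨(((δ : ℂ))⁻¹ • (↑t⁻¹ : AA)) * star V * star (a * R) , R * V, ?_⟩
  have h1 : (((δ : ℂ))⁻¹ • (↑t⁻¹ : AA)) * star V * star (a * R) * a * (R * V) =
      (↑t⁻¹ : AA) * (((δ : ℂ))⁻¹ • (star V * (star (a * R) * (a * R)) * V)) := by
    rw [smul_mul_assoc, smul_mul_assoc, smul_mul_assoc, smul_mul_assoc, mul_smul_comm]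
    simp only [mul_assoc]
  rw [h1, ← hb, ← hz, ← ht]
  exact t.inv_mul

end Pool.Agent.KCH
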