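import Pool.Agent.KCH.FStmts

/-! Squad KCH, module PSI: the path of representations. -/

set_option autoImplicit false

namespace Pool.Agent.KCH

open TopologicalSpace

namespace PSI_

theorem norm_le (f : AA →⋆ₐ[ℂ] Bd YY) (a : AA) : ‖f a‖ ≤ ‖a‖ :=
  NonUnitalStarAlgHom.norm_apply_le f a

end PSI_

theorem psi_proof (hUNV : Stmt_UNV) (hRLH : Stmt_RLH) : Stmt_PSI := by
  choose r hr using fun t : ℝ => hUNV (Bd YY) uH (sH t) (hRLH t)
  have hcont : ∀ a, Continuous fun t => r t a := by
    refine AA_ind (P := fun a => Continuous fun t => r t a) ?_ ?_ ?_ ?_ ?_ ?_ ?_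
    · have : (fun t => r t uA) = fun _ => uH := funext fun t => (hr t).1
      rw [this]; exact continuous_const
    · have : (fun t => r t sA) = sH := funext fun t => (hr t).2
      rw [this]
      unfold sH
      have h1 : Continuous fun t : ℝ => ((Real.cos t : ℝ) : ℂ) :=
        Complex.continuous_ofReal.comp Real.continuous_cos
      have h2 : Continuous fun t : ℝ => ((Real.sin t : ℝ) : ℂ) :=
        Complex.continuous_ofReal.comp Real.continuous_sin
      exact (continuous_const.add (h1.smul continuous_const)).add (h2.smul continuous_const)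
    · intro c
      have : (fun t => r t (algebraMap ℂ AA c)) = fun _ => algebraMap ℂ (Bd YY) c :=
        funext fun t => AlgHomClass.commutes (r t) c
      rw [this]; exact continuous_const
    · intro a b ha hb
      have : (fun t => r t (a + b)) = fun t => r t a + r t b := funext fun t => map_add (r t) a b
      rw [this]; exact ha.add hb
    · intro a b ha hb
      have : (fun t => r t (a * b)) = fun t => r t a * r t b := funext fun t => map_mul (r t) a b
      rw [this]; exact ha.mul hb
    · intro a ha
      have : (fun t => r t (star a)) = fun t => star (r t a) := funext fun t => map_star (r t) a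
      rw [this]; exact ha.star
    · rw [← isSeqClosed_iff_isClosed]
      intro f a hf hlim
      show Continuous fun t => r t a
      apply continuous_of_uniform_approx_of_continuous
      intro u hu
      obtain ⟨e, he, hu⟩ := Metric.mem_uniformity_dist.1 hu
      obtain ⟨N, hN⟩ := Metric.tendsto_atTop.1 hlim e he
      refine ⟨fun t => r t (f N), hf N, fun t => hu ?_⟩
      have h1 := hN N le_rfl
      have h2 := PSI_.norm_le (r t) (a - f N)
      rw [map_sub] at h2
      rw [dist_eq_norm]
      refine lt_of_le_of_lt h2 ?_
      rw [← dist_eq_norm, dist_comm]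
      exact h1
  refine ⟨fun t => ((r t : AA →⋆ₐ[ℂ] Bd YY) : AA →⋆ₙₐ[ℂ] Bd YY), fun t => ⟨?_, ?_, ?_⟩, fun a => ?_⟩
  · exact (hr t).1
  · exact (hr t).2
  · exact map_one (r t)
  · exact hcont a

end Pool.Agent.KCH
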