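import Pool.Agent.KCH.KStmts

set_option autoImplicit false

namespace Pool.Agent.KCH

open TopologicalSpace

namespace PTH_

theorem mk_joined {X : Type} [TopologicalSpace X] {S : Set X} {a b : X}
    (f : unitInterval → X) (hf : Continuous f) (h0 : f 0 = a) (h1 : f 1 = b)
    (h : ∀ t, f t ∈ S) : JoinedIn S a b :=
  ⟨⟨⟨f, hf⟩, h0, h1⟩, h⟩

section
variable {A : Type} [CStarAlgebra A]

theorem jn_refl {ι : Type} [Fintype ι] [DecidableEq ι] {g : Matrix ι ι A} (hg : IsUnit g) :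
    Jn g g := JoinedIn.refl hg

theorem jn_mul {ι : Type} [Fintype ι] [DecidableEq ι] {g g' h h' : Matrix ι ι A}
    (H1 : Jn g g') (H2 : Jn h h') : Jn (g * h) (g' * h') := by
  obtain ⟨γ, hγ⟩ := H1
  obtain ⟨δ, hδ⟩ := H2
  refine mk_joined (fun t => γ t * δ t) (γ.continuous.matrix_mul δ.continuous) (by simp)
    (by simp) fun t => ?_
  exact IsUnit.mul (hγ t) (hδ t)

theorem isUnit_upper {ι κ : Type} [Fintype ι] [DecidableEq ι] [Fintype κ] [DecidableEq κ]
    {g : Matrix ι ι A} (b : Matrix ι κ A) {h : Matrix κ κ A} (hg : IsUnit g) (hh : IsUnit h) :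
    IsUnit (Matrix.fromBlocks g b 0 h) := by
  obtain ⟨u, rfl⟩ := hg
  obtain ⟨v, rfl⟩ := hh
  refine ⟨⟨Matrix.fromBlocks u b 0 v,
    Matrix.fromBlocks (↑u⁻¹ : Matrix ι ι A) (-((↑u⁻¹ : Matrix ι ι A) * b *
      (↑v⁻¹ : Matrix κ κ A))) 0 (↑v⁻¹ : Matrix κ κ A), ?_, ?_⟩, rfl⟩
  · rw [Matrix.fromBlocks_multiply]
    have h1 : (u : Matrix ι ι A) * -((↑u⁻¹ : Matrix ι ι A) * b * (↑v⁻¹ : Matrix κ κ A)) =
        -(b * (↑v⁻¹ : Matrix κ κ A)) := by
      rw [Matrix.mul_neg, Matrix.mul_assoc, ← Matrix.mul_assoc, u.mul_inv, Matrix.one_mul]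
    rw [h1]
    simp
  · rw [Matrix.fromBlocks_multiply]
    have h1 : -((↑u⁻¹ : Matrix ι ι A) * b * (↑v⁻¹ : Matrix κ κ A)) * (v : Matrix κ κ A) =
        -((↑u⁻¹ : Matrix ι ι A) * b) := by
      rw [Matrix.neg_mul, Matrix.mul_assoc, v.inv_mul, Matrix.mul_one]
    rw [h1]
    simp

theorem isUnit_lower {ι κ : Type} [Fintype ι] [DecidableEq ι] [Fintype κ] [DecidableEq κ]
    {g : Matrix ι ι A} (c : Matrix κ ι A) {h : Matrix κ κ A} (hg : IsUnit g) (hh : IsUnit h) :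
    IsUnit (Matrix.fromBlocks g 0 c h) := by
  obtain ⟨u, rfl⟩ := hg
  obtain ⟨v, rfl⟩ := hh
  refine ⟨⟨Matrix.fromBlocks u 0 c v,
    Matrix.fromBlocks (↑u⁻¹ : Matrix ι ι A) 0 (-((↑v⁻¹ : Matrix κ κ A) * c *
      (↑u⁻¹ : Matrix ι ι A))) (↑v⁻¹ : Matrix κ κ A), ?_, ?_⟩, rfl⟩
  · rw [Matrix.fromBlocks_multiply]
    have h1 : (v : Matrix κ κ A) * -((↑v⁻¹ : Matrix κ κ A) * c * (↑u⁻¹ : Matrix ι ι A)) =
        -(c * (↑u⁻¹ : Matrix ι ι A)) := by
      rw [Matrix.mul_neg, Matrix.mul_assoc, ← Matrix.mul_assoc, v.mul_inv, Matrix.one_mul]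
    rw [h1]
    simp
  · rw [Matrix.fromBlocks_multiply]
    have h1 : -((↑v⁻¹ : Matrix κ κ A) * c * (↑u⁻¹ : Matrix ι ι A)) * (u : Matrix ι ι A) =
        -((↑v⁻¹ : Matrix κ κ A) * c) := by
      rw [Matrix.neg_mul, Matrix.mul_assoc, u.inv_mul, Matrix.mul_one]
    rw [h1]
    simp

theorem isUnit_diag {ι κ : Type} [Fintype ι] [DecidableEq ι] [Fintype κ] [DecidableEq κ]
    {g : Matrix ι ι A} {h : Matrix κ κ A} (hg : IsUnit g) (hh : IsUnit h) :
    IsUnit (Matrix.fromBlocks g 0 0 h) := isUnit_upper 0 hg hh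

theorem jn_diag {ι κ : Type} [Fintype ι] [DecidableEq ι] [Fintype κ] [DecidableEq κ]
    {g g' : Matrix ι ι A} {h h' : Matrix κ κ A} (H1 : Jn g g') (H2 : Jn h h') :
    Jn (Matrix.fromBlocks g 0 0 h) (Matrix.fromBlocks g' 0 0 h') := by
  obtain ⟨γ, hγ⟩ := H1
  obtain ⟨δ, hδ⟩ := H2
  refine mk_joined (fun t => Matrix.fromBlocks (γ t) 0 0 (δ t))
    (γ.continuous.matrix_fromBlocks continuous_const continuous_const δ.continuous) (by simp)
    (by simp) fun t => ?_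
  exact isUnit_diag (hγ t) (hδ t)

theorem isUnit_reindex {ι κ : Type} [Fintype ι] [DecidableEq ι] [Fintype κ] [DecidableEq κ]
    (σ : ι ≃ κ) {g : Matrix ι ι A} (hg : IsUnit g) : IsUnit (Matrix.reindex σ σ g) := by
  obtain ⟨u, rfl⟩ := hg
  refine ⟨⟨Matrix.reindex σ σ u, Matrix.reindex σ σ (↑u⁻¹ : Matrix ι ι A), ?_, ?_⟩, rfl⟩
  · rw [Matrix.reindex_apply, Matrix.reindex_apply, Matrix.submatrix_mul_equiv, u.mul_inv]
    simp
  · rw [Matrix.reindex_apply, Matrix.reindex_apply, Matrix.submatrix_mul_equiv, u.inv_mul]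
    simp

theorem jn_reindex {ι κ : Type} [Fintype ι] [DecidableEq ι] [Fintype κ] [DecidableEq κ]
    (σ : ι ≃ κ) {g h : Matrix ι ι A} (H : Jn g h) :
    Jn (Matrix.reindex σ σ g) (Matrix.reindex σ σ h) := by
  obtain ⟨γ, hγ⟩ := H
  refine mk_joined (fun t => Matrix.reindex σ σ (γ t))
    (γ.continuous.matrix_reindex σ σ) (by simp) (by simp) fun t => ?_
  exact isUnit_reindex σ (hγ t)

theorem map_isUnit {ι : Type} [Fintype ι] [DecidableEq ι] {g : Matrix ι ι ℂ} (hg : IsUnit g) :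
    IsUnit (g.map (algebraMap ℂ A)) := by
  have := hg.map (RingHom.mapMatrix (algebraMap ℂ A) : Matrix ι ι ℂ →+* Matrix ι ι A)
  exact this

theorem jn_perm (hM : Stmt_MTB) (hG : Stmt_GLC) {ι : Type} [Fintype ι] [DecidableEq ι] (σ : ι ≃ ι)
    {g : Matrix ι ι A} (hg : IsUnit g) : Jn (Matrix.reindex σ σ g) g := by
  have hP : IsUnit ((1 : Matrix ι ι ℂ).submatrix σ.symm id) := by
    refine ⟨⟨(1 : Matrix ι ι ℂ).submatrix σ.symm id, (1 : Matrix ι ι ℂ).submatrix id σ.symm,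
      ?_, ?_⟩, rfl⟩
    · ext i j
      simp [Matrix.mul_apply, Matrix.one_apply]
    · ext i j
      rw [Matrix.mul_apply, ← Equiv.sum_comp σ]
      simp [Matrix.one_apply]
  obtain ⟨γ, hγ, h0, h1, hu, -⟩ := hG ι _ hP
  have hc := (hM A ι).2.1
  have hGu : ∀ t, IsUnit ((γ t).map (algebraMap ℂ A)) := fun t => map_isUnit (hu t)
  have hGc : Continuous fun t : unitInterval => (γ t).map (algebraMap ℂ A) :=
    (hγ.comp continuous_subtype_val).matrix_map (continuous_algebraMap ℂ A)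
  have hIc : Continuous fun t : unitInterval => Ring.inverse ((γ t).map (algebraMap ℂ A)) :=
    hc.comp_continuous hGc fun t => hGu t
  refine JoinedIn.symm ?_
  refine mk_joined (fun t : unitInterval => (γ t).map (algebraMap ℂ A) * g *
    Ring.inverse ((γ t).map (algebraMap ℂ A))) ((hGc.matrix_mul continuous_const).matrix_mul hIc)
    ?_ ?_ ?_
  · show (γ (0 : ℝ)).map (algebraMap ℂ A) * g * Ring.inverse ((γ (0 : ℝ)).map (algebraMap ℂ A)) = g
    rw [h0, Matrix.map_one _ (map_zero _) (map_one _), Matrix.one_mul, Ring.inverse_one,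
      Matrix.mul_one]
  · show (γ (1 : ℝ)).map (algebraMap ℂ A) * g * Ring.inverse ((γ (1 : ℝ)).map (algebraMap ℂ A)) = _
    have h3 : (γ (1 : ℝ)).map (algebraMap ℂ A) * g =
        Matrix.reindex σ σ g * (γ (1 : ℝ)).map (algebraMap ℂ A) := by
      rw [h1]
      ext i j
      rw [Matrix.mul_apply, Matrix.mul_apply, Finset.sum_eq_single (σ.symm i),
        Finset.sum_eq_single (σ j)]
      · simp [Matrix.map_apply, Matrix.submatrix_apply, Matrix.one_apply]
      · intro k _ hk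
        have : σ.symm k ≠ j := fun h => hk (by rw [← h, Equiv.apply_symm_apply])
        simp [this]
      · simp
      · intro k _ hk
        simp [Ne.symm hk]
      · simp
    rw [h3, Matrix.mul_assoc, Ring.mul_inverse_cancel _ (hGu 1), Matrix.mul_one]
  · intro t
    exact ((hGu t).mul hg).mul (IsUnit.ringInverse (hGu t))

theorem jn_prod (hM : Stmt_MTB) (hG : Stmt_GLC) {ι : Type} [Fintype ι] [DecidableEq ι]
    {g h : Matrix ι ι A} (hg : IsUnit g) (hh : IsUnit h) :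
    Jn (Matrix.fromBlocks (g * h) 0 0 1) (Matrix.fromBlocks g 0 0 h) := by
  have h1 : Matrix.fromBlocks (g * h) 0 0 (1 : Matrix ι ι A) =
      Matrix.fromBlocks g 0 0 1 * Matrix.fromBlocks h 0 0 1 := by
    rw [Matrix.fromBlocks_multiply]; simp
  have h2 : Matrix.fromBlocks g 0 0 h =
      Matrix.fromBlocks g 0 0 1 * Matrix.fromBlocks 1 0 0 h := by
    rw [Matrix.fromBlocks_multiply]; simp
  rw [h1, h2]
  refine jn_mul (jn_refl (isUnit_diag hg isUnit_one)) ?_
  have h3 := jn_perm hM hG (Equiv.sumComm ι ι) (isUnit_diag (isUnit_one : IsUnit (1 : Matrix ι ι A)) hh)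
  have h4 : Matrix.reindex (Equiv.sumComm ι ι) (Equiv.sumComm ι ι)
      (Matrix.fromBlocks 1 0 0 h) = Matrix.fromBlocks h 0 0 (1 : Matrix ι ι A) := by
    ext i j
    rcases i with i | i <;> rcases j with j | j <;> rfl
  rw [h4] at h3
  exact h3

theorem jn_upper {ι κ : Type} [Fintype ι] [DecidableEq ι] [Fintype κ] [DecidableEq κ]
    {g : Matrix ι ι A} (b : Matrix ι κ A) {h : Matrix κ κ A} (hg : IsUnit g) (hh : IsUnit h) :
    Jn (Matrix.fromBlocks g b 0 h) (Matrix.fromBlocks g 0 0 h) := by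
  refine JoinedIn.symm ?_
  refine mk_joined (fun t : unitInterval => Matrix.fromBlocks g (((t : ℝ) : ℂ) • b) 0 h) ?_ ?_ ?_ ?_
  · refine continuous_const.matrix_fromBlocks ?_ continuous_const continuous_const
    exact (Complex.continuous_ofReal.comp continuous_subtype_val).smul continuous_const
  · simp
  · simp
  · intro t
    exact isUnit_upper _ hg hh

theorem jn_lower {ι κ : Type} [Fintype ι] [DecidableEq ι] [Fintype κ] [DecidableEq κ]
    {g : Matrix ι ι A} (c : Matrix κ ι A) {h : Matrix κ κ A} (hg : IsUnit g) (hh : IsUnit h) :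
    Jn (Matrix.fromBlocks g 0 c h) (Matrix.fromBlocks g 0 0 h) := by
  refine JoinedIn.symm ?_
  refine mk_joined (fun t : unitInterval => Matrix.fromBlocks g 0 (((t : ℝ) : ℂ) • c) h) ?_ ?_ ?_ ?_
  · refine continuous_const.matrix_fromBlocks continuous_const ?_ continuous_const
    exact (Complex.continuous_ofReal.comp continuous_subtype_val).smul continuous_const
  · simp
  · simp
  · intro t
    exact isUnit_lower _ hg hh

end

end PTH_

open PTH_ in
theorem pth_proof (hMTB : Stmt_MTB) (hGLC : Stmt_GLC) : Stmt_PTH := by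
  intro A _
  refine ⟨fun ι _ _ g g' h h' H1 H2 => jn_mul H1 H2,
    fun ι κ _ _ _ _ g g' h h' H1 H2 => jn_diag H1 H2,
    fun ι κ _ _ _ _ σ g h H => jn_reindex σ H, ?_,
    fun ι _ _ σ g hg => jn_perm hMTB hGLC σ hg,
    fun ι _ _ g h hg hh => jn_prod hMTB hGLC hg hh,
    fun ι κ _ _ _ _ g b h hg hh => jn_upper b hg hh,
    fun ι κ _ _ _ _ g c h hg hh => jn_lower c hg hh⟩
  intro ι _ _ g h H
  obtain ⟨γ, hγ⟩ := H
  have hc := (hMTB A ι).2.1
  refine mk_joined (fun t => Ring.inverse (γ t))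
    (hc.comp_continuous γ.continuous fun t => hγ t) (by simp) (by simp) fun t => ?_
  exact IsUnit.ringInverse (hγ t)

end Pool.Agent.KCH
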