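import Pool.Agent.KCH.FStmts

/-!
# Squad KCH, module RHO: the non-unital representation.
-/

set_option autoImplicit false

namespace Pool.Agent.KCH

namespace RHO_

/-- the index set: a nonempty word and an element of `XX` -/
abbrev ZZ : Type := (ℤ × List ℤ) × XX

/-- the inclusion of the nonempty words -/
def wE : PEquiv ZZ YY where
  toFun p := some (p.1.1 :: p.1.2, p.2)
  invFun p := match p with
    | ([], _) => none
    | (k :: μ, x) => some ((k, μ), x)
  inv a b := by
    rcases a with ⟨⟨k, μ⟩, x⟩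
    rcases b with ⟨_ | ⟨k', ν⟩, y⟩ <;> simp
    constructor
    · rintro ⟨⟨h1, h2⟩, h3⟩
      exact ⟨⟨h1.symm, h2.symm⟩, h3.symm⟩
    · rintro ⟨⟨h1, h2⟩, h3⟩
      exact ⟨⟨h1.symm, h2.symm⟩, h3.symm⟩

/-- increasing the first letter -/
def u0E : ZZ ≃ ZZ where
  toFun p := ((p.1.1 + 1, p.1.2), p.2)
  invFun p := ((p.1.1 - 1, p.1.2), p.2)
  left_inv p := by simp
  right_inv p := by simp

/-- inserting `0` in front -/
def s0E : PEquiv ZZ ZZ where
  toFun p := some ((0, p.1.1 :: p.1.2), p.2)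
  invFun p := match p with
    | ((_, []), _) => none
    | ((k, k' :: μ), x) => if k = 0 then some ((k', μ), x) else none
  inv a b := by
    rcases a with ⟨⟨k, μ⟩, x⟩
    rcases b with ⟨⟨k', _ | ⟨k'', ν⟩⟩, y⟩
    · simp
    · by_cases h : k' = 0
      · subst h
        simp
        constructor
        · rintro ⟨⟨h1, h2⟩, h3⟩
          exact ⟨⟨h1.symm, h2.symm⟩, h3.symm⟩
        · rintro ⟨⟨h1, h2⟩, h3⟩
          exact ⟨⟨h1.symm, h2.symm⟩, h3.symm⟩
      · simp [h]
        intro h2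
        exact absurd h2.symm h

noncomputable def u0 : Bd ZZ := opP u0E.toPEquiv

noncomputable def s0 : Bd ZZ := opP s0E

noncomputable def W : L2 ZZ →L[ℂ] L2 YY := opP wE

lemma u0_ee (p : ZZ) : u0 (ee p) = ee ((p.1.1 + 1, p.1.2), p.2) := by
  rw [u0, opP_ee]; rfl

lemma u0_pow_ee (n : ℕ) (p : ZZ) : (u0 ^ n) (ee p) = ee ((p.1.1 + n, p.1.2), p.2) := by
  induction n with
  | zero => simp
  | succ n ih =>
    rw [pow_succ', mul_apply_eq_comp, ih, u0_ee]
    simp [add_assoc]

lemma rel0 : Rel u0 s0 where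
  uu := by
    rw [u0, opP_star, opP_mul, ← opP_refl]
    congr 1
    rw [← Equiv.toPEquiv_symm, ← Equiv.toPEquiv_trans, Equiv.self_trans_symm, Equiv.toPEquiv_refl]
  uu' := by
    rw [u0, opP_star, opP_mul, ← opP_refl]
    congr 1
    rw [← Equiv.toPEquiv_symm, ← Equiv.toPEquiv_trans, Equiv.symm_trans_self, Equiv.toPEquiv_refl]
  ss := by
    have h : s0E.trans s0E.symm = PEquiv.refl ZZ := PEquiv.ext fun p =>
      (PEquiv.eq_some_iff s0E).2 (rfl : s0E p = some ((0, p.1.1 :: p.1.2), p.2))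
    rw [s0, opP_star, opP_mul, h, opP_refl]
  orth := by
    intro k hk
    refine op_ext fun p => ?_
    rw [mul_apply_eq_comp, mul_apply_eq_comp]
    have h1 : s0 (ee p) = ee ((0, p.1.1 :: p.1.2), p.2) := by
      rw [s0, opP_ee]; rfl
    rw [h1, u0_pow_ee, s0, opP_star, opP_ee]
    have h2 : s0E.symm (((0 : ℤ) + k, p.1.1 :: p.1.2), p.2) = none := by
      show (if ((0 : ℤ) + k) = 0 then some ((p.1.1, p.1.2), p.2) else none) = none
      rw [if_neg]
      omega
    show ov (s0E.symm (((0 : ℤ) + k, p.1.1 :: p.1.2), p.2)) = _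
    rw [h2, ov_none]
    rfl

lemma W_iso : (ContinuousLinearMap.adjoint W).comp W = ContinuousLinearMap.id ℂ (L2 ZZ) := by
  rw [W, opP_adjoint, opP_comp]
  refine op_ext fun p => ?_
  rw [opP_ee]
  have h : (wE.trans wE.symm) p = some p := by
    exact (PEquiv.eq_some_iff wE).2 (rfl : wE p = some (p.1.1 :: p.1.2, p.2))
  rw [h]
  rfl

lemma W_iso' (ξ : L2 ZZ) : ContinuousLinearMap.adjoint W (W ξ) = ξ := by
  have := congrArg (fun T => T ξ) W_iso
  exact this

/-- conjugation by `W` -/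
noncomputable def cj (T : Bd ZZ) : Bd YY := W.comp (T.comp (ContinuousLinearMap.adjoint W))

lemma cj_apply (T : Bd ZZ) (ξ : L2 YY) : cj T ξ = W (T (ContinuousLinearMap.adjoint W ξ)) := rfl

lemma cj_mul (T T' : Bd ZZ) : cj (T * T') = cj T * cj T' := by
  ext1 ξ
  rw [mul_apply_eq_comp, cj_apply, cj_apply, cj_apply, W_iso',
    mul_apply_eq_comp]

lemma cj_star (T : Bd ZZ) : cj (star T) = star (cj T) := by
  rw [ContinuousLinearMap.star_eq_adjoint, ContinuousLinearMap.star_eq_adjoint, cj, cj,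
    ContinuousLinearMap.adjoint_comp, ContinuousLinearMap.adjoint_comp,
    ContinuousLinearMap.adjoint_adjoint]
  rfl

end RHO_

open RHO_ in
theorem rho_proof (hUNV : Stmt_UNV) : Stmt_RHO := by
  obtain ⟨ρ0, hu, hs⟩ := hUNV (Bd ZZ) u0 s0 rel0
  let ρ : AA →⋆ₙₐ[ℂ] Bd YY :=
    { toFun := fun a => cj (ρ0 a)
      map_smul' := by
        intro c a
        show cj (ρ0 (c • a)) = c • cj (ρ0 a)
        rw [map_smul]
        ext1 ξ
        rw [_root_.smul_apply, cj_apply, cj_apply, _root_.smul_apply,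
          map_smul]
      map_zero' := by
        show cj (ρ0 0) = 0
        rw [map_zero]
        ext1 ξ
        rw [cj_apply]
        simp
      map_add' := by
        intro a b
        show cj (ρ0 (a + b)) = cj (ρ0 a) + cj (ρ0 b)
        rw [map_add]
        ext1 ξ
        rw [_root_.add_apply, cj_apply, cj_apply, cj_apply,
          _root_.add_apply, map_add]
      map_mul' := by
        intro a b
        show cj (ρ0 (a * b)) = cj (ρ0 a) * cj (ρ0 b)
        rw [map_mul, cj_mul]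
      map_star' := by
        intro a
        show cj (ρ0 (star a)) = star (cj (ρ0 a))
        rw [map_star, cj_star] }
  have hρ : ∀ a, ρ a = cj (ρ0 a) := fun a => rfl
  refine ⟨ρ, ?_, ?_⟩
  · rw [hρ, hu, TT_def, cj, W, u0, opP_adjoint, opP_comp, opP_comp]
    congr 1
    refine PEquiv.ext fun p => ?_
    rcases p with ⟨_ | ⟨k, μ⟩, x⟩
    · rfl
    · rfl
  · rw [hρ, hs, RR_def, cj, W, s0, opP_adjoint, opP_comp, opP_comp]
    congr 1
    refine PEquiv.ext fun p => ?_
    rcases p with ⟨_ | ⟨k, μ⟩, x⟩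
    · rfl
    · rfl

end Pool.Agent.KCH
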