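import Pool.Agent.KCH.FStmts

/-!
# Squad KCH, module RLH: the relations in the homotopy
-/

set_option autoImplicit false

namespace Pool.Agent.KCH

open TopologicalSpace

namespace RLH_

theorem iE_apply (μ : List ℤ) (x : XX) : iE μ x = some (μ, x) := rfl

theorem iE_symm_apply (μ : List ℤ) (p : YY) :
    (iE μ).symm p = if p.1 = μ then some p.2 else none := rfl

/-- two compositions with operators of partial bijections -/
theorem opP_eq_of {X Y Z : Type} (f : PEquiv X Y) (g : PEquiv Y Z) (h : PEquiv X Z)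
    (e : ∀ x, (f x).bind g = h x) : (opP g).comp (opP f) = opP h := by
  refine op_ext fun x => ?_
  rw [ContinuousLinearMap.comp_apply, opP_ee, opP_ov, opP_ee, e]

theorem opP_zero_of {X Y Z : Type} (f : PEquiv X Y) (g : PEquiv Y Z)
    (e : ∀ x, (f x).bind g = none) : (opP g).comp (opP f) = 0 := by
  refine op_ext fun x => ?_
  rw [ContinuousLinearMap.comp_apply, opP_ee, opP_ov, e]
  rfl

theorem ii_same (μ : List ℤ) :
    (ContinuousLinearMap.adjoint (opP (iE μ))).comp (opP (iE μ)) = ContinuousLinearMap.id ℂ _ := by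
  rw [opP_adjoint]
  refine op_ext fun x => ?_
  rw [ContinuousLinearMap.comp_apply, opP_ee, iE_apply, opP_ov, Option.bind_some, iE_symm_apply,
    if_pos rfl]
  rfl

theorem ii_ne {μ ν : List ℤ} (h : ν ≠ μ) :
    (ContinuousLinearMap.adjoint (opP (iE ν))).comp (opP (iE μ)) = 0 := by
  rw [opP_adjoint]
  refine opP_zero_of _ _ fun x => ?_
  rw [iE_apply, Option.bind_some, iE_symm_apply, if_neg]
  exact fun h' => h h'.symm

theorem th_mul (μ ν ν' : List ℤ) (d d' : Bd XX) : th μ ν d * th ν ν' d' = th μ ν' (d * d') := by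
  have h := ii_same ν
  unfold th
  rw [ContinuousLinearMap.mul_def, ContinuousLinearMap.mul_def]
  ext1 ξ
  simp only [ContinuousLinearMap.comp_apply]
  have h2 := congrArg (fun (f : L2 XX →L[ℂ] L2 XX) =>
    f (d' (ContinuousLinearMap.adjoint (opP (iE ν')) ξ))) h
  simp only [ContinuousLinearMap.comp_apply, ContinuousLinearMap.id_apply] at h2
  rw [h2]

theorem th_mul_ne {ν μ' : List ℤ} (hn : ν ≠ μ') (μ ν' : List ℤ) (d d' : Bd XX) :
    th μ ν d * th μ' ν' d' = 0 := by
  have h := ii_ne hn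
  unfold th
  rw [ContinuousLinearMap.mul_def]
  ext1 ξ
  simp only [ContinuousLinearMap.comp_apply]
  have h2 := congrArg (fun (f : L2 XX →L[ℂ] L2 XX) =>
    f (d' (ContinuousLinearMap.adjoint (opP (iE ν')) ξ))) h
  simp only [ContinuousLinearMap.comp_apply, ContinuousLinearMap.zero_apply] at h2
  rw [h2, map_zero, map_zero, ContinuousLinearMap.zero_apply]

theorem th_star (μ ν : List ℤ) (d : Bd XX) : star (th μ ν d) = th ν μ (star d) := by
  unfold th
  rw [ContinuousLinearMap.star_eq_adjoint, ContinuousLinearMap.adjoint_comp,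
    ContinuousLinearMap.adjoint_comp, ContinuousLinearMap.adjoint_adjoint,
    ContinuousLinearMap.star_eq_adjoint]
  rfl

theorem th_zero (μ ν : List ℤ) : th μ ν 0 = 0 := by
  unfold th
  rw [ContinuousLinearMap.zero_comp, ContinuousLinearMap.comp_zero]

/-- left multiplication of a matrix unit -/
theorem mul_th {T : Bd YY} {μ μ' : List ℤ} (h : T.comp (opP (iE μ)) = opP (iE μ')) (ν : List ℤ)
    (d : Bd XX) : T * th μ ν d = th μ' ν d := by
  unfold th
  rw [ContinuousLinearMap.mul_def, ← ContinuousLinearMap.comp_assoc, h]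

theorem mul_th_zero {T : Bd YY} {μ : List ℤ} (h : T.comp (opP (iE μ)) = 0) (ν : List ℤ)
    (d : Bd XX) : T * th μ ν d = 0 := by
  unfold th
  rw [ContinuousLinearMap.mul_def, ← ContinuousLinearMap.comp_assoc, h,
    ContinuousLinearMap.zero_comp]

theorem TT_th_nil (ν : List ℤ) (d : Bd XX) : TT * th [] ν d = 0 := by
  refine mul_th_zero ?_ ν d
  rw [TT_def]
  exact opP_zero_of _ _ fun x => rfl

theorem TT_th_cons (k : ℤ) (μ ν : List ℤ) (d : Bd XX) :
    TT * th (k :: μ) ν d = th ((k + 1) :: μ) ν d := by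
  refine mul_th ?_ ν d
  rw [TT_def]
  exact opP_eq_of _ _ _ fun x => rfl

theorem TTs_th_nil (ν : List ℤ) (d : Bd XX) : star TT * th [] ν d = 0 := by
  refine mul_th_zero ?_ ν d
  rw [TT_def, opP_star]
  exact opP_zero_of _ _ fun x => rfl

theorem TTs_th_cons (k : ℤ) (μ ν : List ℤ) (d : Bd XX) :
    star TT * th (k :: μ) ν d = th ((k - 1) :: μ) ν d := by
  refine mul_th ?_ ν d
  rw [TT_def, opP_star]
  exact opP_eq_of _ _ _ fun x => rfl

theorem RRs_th_nil (ν : List ℤ) (d : Bd XX) : star RR * th [] ν d = 0 := by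
  refine mul_th_zero ?_ ν d
  rw [RR_def, opP_star]
  exact opP_zero_of _ _ fun x => rfl

theorem RRs_th_one (k : ℤ) (ν : List ℤ) (d : Bd XX) : star RR * th [k] ν d = 0 := by
  refine mul_th_zero ?_ ν d
  rw [RR_def, opP_star]
  exact opP_zero_of _ _ fun x => rfl

theorem th_nil_TT (μ : List ℤ) (d : Bd XX) : th μ [] d * TT = 0 := by
  have h := congrArg star (TTs_th_nil μ (star d))
  rw [star_mul, star_star, th_star, star_star, star_zero] at h
  exact h

theorem th_nil_TTs (μ : List ℤ) (d : Bd XX) : th μ [] d * star TT = 0 := by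
  have h := congrArg star (TT_th_nil μ (star d))
  rw [star_mul, th_star, star_star, star_zero] at h
  exact h

theorem th_nil_RR (μ : List ℤ) (d : Bd XX) : th μ [] d * RR = 0 := by
  have h := congrArg star (RRs_th_nil μ (star d))
  rw [star_mul, star_star, th_star, star_star, star_zero] at h
  exact h

theorem th_one_RR (k : ℤ) (μ : List ℤ) (d : Bd XX) : th μ [k] d * RR = 0 := by
  have h := congrArg star (RRs_th_one k μ (star d))
  rw [star_mul, star_star, th_star, star_star, star_zero] at h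
  exact h

theorem th_cons_TT (k : ℤ) (μ ν : List ℤ) (d : Bd XX) :
    th μ (k :: ν) d * TT = th μ ((k - 1) :: ν) d := by
  have h := congrArg star (TTs_th_cons k ν μ (star d))
  rw [star_mul, star_star, th_star, star_star, th_star, star_star] at h
  exact h

theorem th_ee (μ ν : List ℤ) (y : XX) : th [] [] 1 (ee (μ, y)) = ov (if μ = [] then some (μ, y)
    else none) := by
  unfold th
  rw [ContinuousLinearMap.comp_apply, ContinuousLinearMap.comp_apply, opP_adjoint, opP_ee,
    iE_symm_apply]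
  by_cases h : μ = []
  · rw [if_pos h, if_pos h, ov_some, ContinuousLinearMap.one_apply, opP_ee, iE_apply, h]
  · rw [if_neg h, if_neg h, ov_none, map_zero, map_zero]
    rfl

theorem proj_TT : star TT * TT + th [] [] 1 = 1 := by
  rw [TT_def, opP_star, opP_mul]
  refine op_ext fun p => ?_
  rcases p with ⟨_ | ⟨k, μ⟩, x⟩
  · rw [ContinuousLinearMap.add_apply, opP_ee, th_ee [] [] x, if_pos rfl]
    have : (tE.trans tE.symm) ([], x) = none := rfl
    rw [this, ov_none, zero_add]
    rfl
  · rw [ContinuousLinearMap.add_apply, opP_ee, th_ee (k :: μ) [] x, if_neg (by simp)]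
    have : (tE.trans tE.symm) (k :: μ, x) = some ((k + 1 - 1) :: μ, x) := rfl
    rw [this, ov_none, add_zero, add_sub_cancel_right]
    rfl

theorem proj_TTs : TT * star TT + th [] [] 1 = 1 := by
  rw [TT_def, opP_star, opP_mul]
  refine op_ext fun p => ?_
  rcases p with ⟨_ | ⟨k, μ⟩, x⟩
  · rw [ContinuousLinearMap.add_apply, opP_ee, th_ee [] [] x, if_pos rfl]
    have : (tE.symm.trans tE) ([], x) = none := rfl
    rw [this, ov_none, zero_add]
    rfl
  · rw [ContinuousLinearMap.add_apply, opP_ee, th_ee (k :: μ) [] x, if_neg (by simp)]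
    have : (tE.symm.trans tE) (k :: μ, x) = some ((k - 1 + 1) :: μ, x) := rfl
    rw [this, ov_none, add_zero, sub_add_cancel]
    rfl

theorem proj_RR : star RR * RR + th [] [] 1 = 1 := by
  rw [RR_def, opP_star, opP_mul]
  refine op_ext fun p => ?_
  rcases p with ⟨_ | ⟨k, μ⟩, x⟩
  · rw [ContinuousLinearMap.add_apply, opP_ee, th_ee [] [] x, if_pos rfl]
    have : (rE.trans rE.symm) ([], x) = none := rfl
    rw [this, ov_none, zero_add]
    rfl
  · rw [ContinuousLinearMap.add_apply, opP_ee, th_ee (k :: μ) [] x, if_neg (by simp)]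
    have : (rE.trans rE.symm) (k :: μ, x) = some (k :: μ, x) := rfl
    rw [this, ov_none, add_zero]
    rfl

theorem TT_pow_ee (k : ℕ) (l : ℤ) (μ : List ℤ) (x : XX) :
    (TT ^ k : Bd YY) (ee (l :: μ, x)) = ee ((l + k) :: μ, x) := by
  induction k with
  | zero => simp
  | succ k ih =>
    rw [pow_succ', ContinuousLinearMap.mul_apply, ih, TT_def, opP_ee]
    have : tE ((l + (k : ℤ)) :: μ, x) = some ((l + (k : ℤ) + 1) :: μ, x) := rfl
    rw [this, ov_some]
    push_cast
    rw [add_assoc]

theorem RTR (k : ℕ) (hk : 0 < k) : star RR * TT ^ k * RR = 0 := by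
  refine op_ext fun p => ?_
  rcases p with ⟨_ | ⟨l, μ⟩, x⟩
  · rw [ContinuousLinearMap.mul_apply, RR_def, opP_ee]
    have : rE ([], x) = none := rfl
    rw [this, ov_none, map_zero]
    rfl
  · rw [ContinuousLinearMap.mul_apply, ContinuousLinearMap.mul_apply, RR_def, opP_ee]
    have : rE (l :: μ, x) = some (0 :: l :: μ, x) := rfl
    rw [this, ov_some, TT_pow_ee, opP_star, opP_ee]
    have h2 : rE.symm ((0 + (k : ℤ)) :: l :: μ, x) = none := by
      show (if (0 + (k : ℤ)) = 0 then some (l :: μ, x) else none) = none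
      rw [if_neg]
      omega
    rw [h2, ov_none]
    rfl

theorem uH_pow (k : ℕ) : uH ^ (k + 1) = TT ^ (k + 1) + th [] [] (U ^ (k + 1)) := by
  induction k with
  | zero => simp [uH]
  | succ k ih =>
    rw [pow_succ, ih, uH, mul_add, add_mul, add_mul, th_mul, th_nil_TT, add_zero,
      ← pow_succ, ← pow_succ]
    have : TT ^ (k + 1) * th [] [] U = 0 := by
      rw [pow_succ, mul_assoc, TT_th_nil, mul_zero]
    rw [this, zero_add]

theorem TT_pow_th (k : ℕ) (l : ℤ) (μ ν : List ℤ) (d : Bd XX) :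
    TT ^ k * th (l :: μ) ν d = th ((l + k) :: μ) ν d := by
  induction k with
  | zero => simp
  | succ k ih =>
    rw [pow_succ', mul_assoc, ih, TT_th_cons]
    push_cast
    rw [add_assoc]

theorem th_cons_TT_pow_RR (k : ℕ) (l : ℤ) (μ : List ℤ) (d : Bd XX) :
    th μ [l] d * TT ^ k * RR = 0 := by
  induction k generalizing l with
  | zero => rw [pow_zero, mul_one, th_one_RR]
  | succ k ih =>
    rw [pow_succ', ← mul_assoc, th_cons_TT, ih]

theorem sH_star (t : ℝ) : star (sH t) = star RR + ((Real.cos t : ℝ) : ℂ) • th [] [] (star S) +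
    ((Real.sin t : ℝ) : ℂ) • th [] [0] 1 := by
  unfold sH
  rw [star_add, star_add, star_smul, star_smul, th_star, th_star, star_one]
  have h : ∀ r : ℝ, star (r : ℂ) = (r : ℂ) := fun r => Complex.conj_ofReal r
  rw [h, h]

theorem cs (t : ℝ) : ((Real.cos t : ℝ) : ℂ) * ((Real.cos t : ℝ) : ℂ) +
    ((Real.sin t : ℝ) : ℂ) * ((Real.sin t : ℝ) : ℂ) = 1 := by
  rw [← Complex.ofReal_mul, ← Complex.ofReal_mul, ← Complex.ofReal_add, ← sq, ← sq,
    Real.cos_sq_add_sin_sq, Complex.ofReal_one]

end RLH_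

open RLH_ in
theorem rlh_proof (hF : Stmt_FRL) : Stmt_RLH := by
  intro t
  have hF : Rel U S := hF
  refine ⟨?_, ?_, ?_, ?_⟩
  · rw [uH, star_add, th_star, mul_add, add_mul, add_mul, th_mul, TTs_th_nil, th_nil_TT, hF.uu,
      add_zero, zero_add, proj_TT]
  · rw [uH, star_add, th_star, mul_add, add_mul, add_mul, th_mul, TT_th_nil, th_nil_TTs, hF.uu',
      add_zero, zero_add, proj_TTs]
  · rw [sH_star, sH]
    simp only [mul_add, add_mul, smul_mul_assoc, mul_smul_comm, th_mul, RRs_th_nil, RRs_th_one,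
      th_nil_RR, th_one_RR, hF.ss, smul_zero, add_zero, zero_add, one_mul]
    rw [th_mul_ne (by simp : ([] : List ℤ) ≠ [0]), th_mul_ne (by simp : ([0] : List ℤ) ≠ [])]
    simp only [smul_zero, add_zero, zero_add]
    rw [smul_smul, smul_smul, add_assoc, ← add_smul, cs, one_smul, proj_RR]
  · intro k hk
    obtain ⟨k, rfl⟩ : ∃ m, k = m + 1 := ⟨k - 1, by omega⟩
    have h1 : uH ^ (k + 1) * sH t = TT ^ (k + 1) * RR +
        ((Real.cos t : ℝ) : ℂ) • th [] [] (U ^ (k + 1) * S) +
        ((Real.sin t : ℝ) : ℂ) • th [((k + 1 : ℕ) : ℤ)] [] 1 := by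
      rw [uH_pow, sH]
      simp only [mul_add, add_mul, mul_smul_comm, th_mul, th_nil_RR, TT_pow_th, add_zero,
        zero_add]
      have h2 : TT ^ (k + 1) * th [] [] S = 0 := by
        rw [pow_succ, mul_assoc, TT_th_nil, mul_zero]
      rw [h2, th_mul_ne (by simp : ([] : List ℤ) ≠ [0])]
      simp only [smul_zero, add_zero, zero_add]
    rw [mul_assoc, h1, sH_star]
    simp only [mul_add, add_mul, smul_mul_assoc, mul_smul_comm, th_mul, RRs_th_nil, RRs_th_one,
      smul_zero, add_zero, zero_add]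
    have h3 : star RR * (TT ^ (k + 1) * RR) = 0 := by
      rw [← mul_assoc, RTR _ hk]
    have h4 : th [] [] (star S) * (TT ^ (k + 1) * RR) = 0 := by
      rw [pow_succ', mul_assoc, ← mul_assoc, th_nil_TT, zero_mul]
    have h5 : th [] [0] 1 * (TT ^ (k + 1) * RR) = 0 := by
      rw [← mul_assoc, th_cons_TT_pow_RR]
    have h6 : star S * (U ^ (k + 1) * S) = 0 := by
      rw [← mul_assoc, hF.orth _ hk]
    have h7 : ([0] : List ℤ) ≠ [((k + 1 : ℕ) : ℤ)] := by
      intro h
      have := List.head_eq_of_cons_eq h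
      omega
    rw [h3, h4, h5, h6, th_zero, th_mul_ne (by simp : ([] : List ℤ) ≠ [((k + 1 : ℕ) : ℤ)]),
      th_mul_ne (by simp : ([0] : List ℤ) ≠ []), th_mul_ne h7]
    simp only [smul_zero, add_zero]

end Pool.Agent.KCH
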