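import Pool.Agent.KCH.KStmts

/-! # KCH SC1: scalar Laurent polynomials -/

set_option autoImplicit false

namespace Pool.Agent.KCH

open TopologicalSpace

namespace SC1_

/-- `1 × 1` matrices -/
noncomputable def D (f : C(TC, ℂ)) : Matrix (Fin 1) (Fin 1) C(TC, ℂ) :=
  Matrix.diagonal fun _ => f

theorem D_mul (f g : C(TC, ℂ)) : D (f * g) = D f * D g := by
  rw [D, D, D, Matrix.diagonal_mul_diagonal]

theorem D_one : D 1 = 1 := by
  rw [D]; exact Matrix.diagonal_one

theorem D_unit {f : C(TC, ℂ)} (h : IsUnit f) : IsUnit (D f) := by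
  obtain ⟨u, rfl⟩ := h
  exact ⟨⟨D u, D ↑u⁻¹, by rw [← D_mul, u.mul_inv, D_one], by rw [← D_mul, u.inv_mul, D_one]⟩, rfl⟩

theorem unit_D {f : C(TC, ℂ)} (h : IsUnit (D f)) : IsUnit f := by
  obtain ⟨u, hu⟩ := h
  have h1 := u.mul_inv
  rw [hu] at h1
  have h2 := congrFun (congrFun h1 0) 0
  rw [D, Matrix.diagonal_mul] at h2
  exact IsUnit.of_mul_eq_one _ (by simpa using h2)

theorem jn_of (f : ℝ → C(TC, ℂ)) (hf : Continuous f)
    (hu : ∀ t ∈ Set.Icc (0 : ℝ) 1, IsUnit (f t)) : Jn (D (f 0)) (D (f 1)) := by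
  refine JoinedIn.ofLine (f := fun t => D (f t)) ?_ rfl rfl ?_
  · apply Continuous.continuousOn
    exact Continuous.matrix_diagonal (continuous_pi fun _ => hf)
  · rintro _ ⟨t, ht, rfl⟩
    exact D_unit (hu t ht)

theorem norm_fourier_one (x : TC) : ‖(fourier 1 : C(TC, ℂ)) x‖ = 1 := by
  rw [fourier_apply]
  exact Circle.norm_coe _

theorem unit_iff (f : C(TC, ℂ)) : IsUnit f ↔ ∀ x, f x ≠ 0 := ContinuousMap.isUnit_iff_forall_ne_zero f

/-- the property to be proved -/
def G (f : C(TC, ℂ)) : Prop := ∀ h : IsUnit (D f), ∃ k : ℤ, c1 (D f) h = k • c1 zz zz_isUnit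

section
variable (hK : Stmt_K1A)
include hK

theorem G_mul {f g : C(TC, ℂ)} (hf : G f) (hg : G g) : G (f * g) := by
  intro h
  have hu := isUnit_of_mul_isUnit_left (unit_D h)
  have hv := isUnit_of_mul_isUnit_right (unit_D h)
  obtain ⟨k, hk⟩ := hf (D_unit hu)
  obtain ⟨l, hl⟩ := hg (D_unit hv)
  refine ⟨k + l, ?_⟩
  rw [add_smul, ← hk, ← hl, ← (hK _).2.2.2.1 (Fin 1) (D f) (D g) (D_unit hu) (D_unit hv)]
  congr 1
  exact D_mul f g

theorem G_joined {f g : C(TC, ℂ)} (hf : G f) (hu : IsUnit f) (hj : Jn (D f) (D g)) : G g := by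
  intro h
  obtain ⟨k, hk⟩ := hf (D_unit hu)
  exact ⟨k, by rw [← hk]; exact ((hK _).2.1 (Fin 1) _ _ _ _ hj).symm⟩

theorem G_one : G 1 := by
  intro h
  refine ⟨0, ?_⟩
  rw [zero_smul, ← (hK C(TC, ℂ)).2.2.2.2.1 (Fin 1)]
  simp only [D_one]

theorem G_z : G (fourier 1) := fun h => ⟨1, by rw [one_smul]; rfl⟩

theorem fourier_mul_neg : (fourier 1 : C(TC, ℂ)) * fourier (-1) = 1 := by
  ext x
  rw [ContinuousMap.mul_apply, ← fourier_add]
  simp

theorem G_zinv : G (fourier (-1)) := by
  intro h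
  refine ⟨-1, ?_⟩
  have h1 := (hK _).2.2.2.1 (Fin 1) zz (D (fourier (-1))) zz_isUnit h
  have h2 : c1 (zz * D (fourier (-1))) (zz_isUnit.mul h) = 0 := by
    rw [← (hK C(TC, ℂ)).2.2.2.2.1 (Fin 1)]
    congr 1
    show D (fourier 1) * D (fourier (-1)) = 1
    rw [← D_mul, fourier_mul_neg hK, D_one]
  rw [h2] at h1
  rw [neg_smul, one_smul]
  exact (neg_eq_of_add_eq_zero_right h1.symm).symm

theorem G_zneg (m : ℕ) : G (fourier (-(m : ℤ))) := by
  induction m with
  | zero =>
    have : (fourier (-((0 : ℕ) : ℤ)) : C(TC, ℂ)) = 1 := by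
      ext x; simp
    rw [this]
    exact G_one hK
  | succ m ih =>
    have : (fourier (-((m + 1 : ℕ) : ℤ)) : C(TC, ℂ)) = fourier (-(m : ℤ)) * fourier (-1) := by
      ext x
      rw [ContinuousMap.mul_apply, ← fourier_add]
      congr 2
      push_cast
      ring
    rw [this]
    exact G_mul hK ih (G_zinv hK)

theorem G_const (c : ℂ) : G (algebraMap ℂ C(TC, ℂ) c) := by
  intro h
  have hc : c ≠ 0 := by
    have := (unit_iff _).1 (unit_D h) 0
    simpa using this
  have hj : Jn (D (algebraMap ℂ C(TC, ℂ) (Complex.exp (((0 : ℝ) : ℂ) * Complex.log c))))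
      (D (algebraMap ℂ C(TC, ℂ) (Complex.exp (((1 : ℝ) : ℂ) * Complex.log c)))) := by
    refine jn_of (fun t : ℝ => algebraMap ℂ C(TC, ℂ) (Complex.exp ((t : ℂ) * Complex.log c))) ?_ ?_
    · exact (continuous_algebraMap ℂ C(TC, ℂ)).comp (by fun_prop)
    · intro t _
      exact (IsUnit.mk0 _ (Complex.exp_ne_zero _)).map _
  rw [Complex.ofReal_zero, zero_mul, Complex.exp_zero, map_one, Complex.ofReal_one, one_mul,
    Complex.exp_log hc] at hj
  exact G_joined hK (G_one hK) isUnit_one hj h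

theorem G_lin (r : ℂ) : G (fourier 1 - algebraMap ℂ C(TC, ℂ) r) := by
  intro h
  have hu := (unit_iff _).1 (unit_D h)
  have hz : ∀ x : TC, (fourier 1 : C(TC, ℂ)) x ≠ r := by
    intro x hx
    apply hu x
    simp [hx]
  have hr : ‖r‖ ≠ 1 := by
    intro hr
    have hs : Function.Surjective (fun x : TC => AddCircle.toCircle x) := by
      intro y
      obtain ⟨x, hx⟩ := (AddCircle.homeomorphCircle (T := (1 : ℝ)) one_ne_zero).surjective y
      refine ⟨x, ?_⟩
      rw [← hx, AddCircle.homeomorphCircle_apply]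
    obtain ⟨x, hx⟩ := hs ⟨r, by simpa [Submonoid.unitSphere] using hr⟩
    apply hz x
    rw [fourier_apply, one_smul]
    exact congrArg Subtype.val hx
  rcases lt_or_gt_of_ne hr with hlt | hgt
  · have hj := jn_of (fun t : ℝ => fourier 1 - algebraMap ℂ C(TC, ℂ) ((t : ℂ) * r))
      (continuous_const.sub ((continuous_algebraMap ℂ C(TC, ℂ)).comp (by fun_prop))) ?_
    · simp only [Complex.ofReal_zero, zero_mul, map_zero, sub_zero, Complex.ofReal_one,
        one_mul] at hj
      refine G_joined hK (G_z hK) ?_ hj h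
      exact unit_D zz_isUnit
    · intro t ht
      rw [unit_iff]
      intro x hx
      have h1 : (fourier 1 : C(TC, ℂ)) x = (t : ℂ) * r := by
        rw [ContinuousMap.sub_apply, sub_eq_zero] at hx
        rw [hx]
        simp
      have h2 := norm_fourier_one x
      rw [h1, norm_mul, Complex.norm_real, Real.norm_eq_abs, abs_of_nonneg ht.1] at h2
      nlinarith [ht.2, norm_nonneg r]
  · have hj := jn_of (fun t : ℝ => algebraMap ℂ C(TC, ℂ) (t : ℂ) * fourier 1 -
        algebraMap ℂ C(TC, ℂ) r)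
      ((((continuous_algebraMap ℂ C(TC, ℂ)).comp (by fun_prop)).mul continuous_const).sub
        continuous_const) ?_
    · simp only [Complex.ofReal_zero, map_zero, zero_mul, zero_sub, Complex.ofReal_one, map_one,
        one_mul, ← map_neg] at hj
      refine G_joined hK (G_const hK (-r)) ?_ hj h
      refine (IsUnit.mk0 (-r) ?_).map _
      rw [neg_ne_zero]
      intro h0
      rw [h0, norm_zero] at hgt
      linarith
    · intro t ht
      rw [unit_iff]
      intro x hx
      have h1 : (t : ℂ) * (fourier 1 : C(TC, ℂ)) x = r := by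
        rw [ContinuousMap.sub_apply, sub_eq_zero] at hx
        simpa using hx
      have h2 := congrArg norm h1
      rw [norm_mul, norm_fourier_one, Complex.norm_real, Real.norm_eq_abs, abs_of_nonneg ht.1,
        mul_one] at h2
      linarith [ht.2]

theorem G_poly : ∀ (n : ℕ) (p : Polynomial ℂ), p.natDegree = n → G (evz p) := by
  intro n
  induction n with
  | zero =>
    intro p hp
    rw [Polynomial.eq_C_of_natDegree_eq_zero hp]
    have : evz (Polynomial.C (p.coeff 0)) = algebraMap ℂ C(TC, ℂ) (p.coeff 0) := by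
      simp [evz]
    rw [this]
    exact G_const hK _
  | succ n ih =>
    intro p hp
    have hdeg : p.degree ≠ 0 := by
      intro h
      have := Polynomial.natDegree_eq_of_degree_eq_some h
      rw [hp] at this
      exact Nat.succ_ne_zero n this
    obtain ⟨r, hr⟩ := IsAlgClosed.exists_root p hdeg
    obtain ⟨q, hq⟩ := Polynomial.dvd_iff_isRoot.2 hr
    have hp0 : p ≠ 0 := by
      rintro rfl
      simp at hp
    have hq0 : q ≠ 0 := by
      rintro rfl
      rw [mul_zero] at hq
      exact hp0 hq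
    have hqd : q.natDegree = n := by
      rw [hq, Polynomial.natDegree_mul (Polynomial.X_sub_C_ne_zero r) hq0,
        Polynomial.natDegree_X_sub_C] at hp
      omega
    rw [hq, map_mul]
    refine G_mul hK ?_ (ih q hqd)
    have : evz (Polynomial.X - Polynomial.C r) = fourier 1 - algebraMap ℂ C(TC, ℂ) r := by
      simp [evz]
    rw [this]
    exact G_lin hK r

end

end SC1_

theorem sc1_proof (hK1A : Stmt_K1A) : Stmt_SC1 := by
  intro m p h
  exact SC1_.G_mul hK1A (SC1_.G_zneg hK1A m) (SC1_.G_poly hK1A _ p rfl) h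

end Pool.Agent.KCH
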