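import Pool.Agent.KCH.KStmts

namespace Pool.Agent.KCH

namespace SEG_

lemma box (A : Type) [NormedRing A] (ι : Type) [Fintype ι]
    (S : Set (ι → ι → A)) (hS : IsOpen S) (g : ι → ι → A) (hg : g ∈ S) :
    ∃ ε : ℝ, 0 < ε ∧ ∀ h : ι → ι → A, (∀ i j, ‖h i j - g i j‖ < ε) → h ∈ S := by
  obtain ⟨ε, hε, hb⟩ := Metric.isOpen_iff.1 hS g hg
  refine ⟨ε, hε, fun h hh => hb ?_⟩
  rw [Metric.mem_ball, dist_pi_lt_iff hε]
  intro i
  rw [dist_pi_lt_iff hε]
  intro j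
  rw [dist_eq_norm]
  exact hh i j

end SEG_

open SEG_ in
theorem seg_proof (hMTB : Stmt_MTB) : Stmt_SEG := by
  intro A _ _ _ ι _ _ g hg
  obtain ⟨hop, -, -⟩ := hMTB A ι
  obtain ⟨ε, hε, hb⟩ := box A ι _ hop g hg
  refine ⟨ε, hε, fun h hh => ⟨hb h hh, ?_⟩⟩
  refine JoinedIn.ofLine (f := fun t : ℝ => g + (t : ℂ) • (h - g)) ?_ ?_ ?_ ?_
  · apply Continuous.continuousOn
    refine continuous_pi fun i => continuous_pi fun j => ?_
    change Continuous fun t : ℝ => g i j + (t : ℂ) • (h i j - g i j)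
    fun_prop
  · simp
  · simp
  · rintro _ ⟨t, ht, rfl⟩
    apply hb
    intro i j
    have h1 : (g + (t : ℂ) • (h - g)) i j - g i j = (t : ℂ) • (h i j - g i j) := by
      rw [Matrix.add_apply, Matrix.smul_apply, Matrix.sub_apply]
      abel
    change ‖(g + (t : ℂ) • (h - g)) i j - g i j‖ < ε
    rw [h1, norm_smul, Complex.norm_real, Real.norm_eq_abs, abs_of_nonneg ht.1]
    calc t * ‖h i j - g i j‖ ≤ 1 * ‖h i j - g i j‖ :=
          mul_le_mul_of_nonneg_right ht.2 (norm_nonneg _)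
      _ < ε := by rw [one_mul]; exact hh i j

end Pool.Agent.KCH
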