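import Pool.Agent.KCH.KStmts

/-!
# Squad KCH, module SMA: the induction step of the Smith form over polynomials
-/

set_option autoImplicit false

namespace Pool.Agent.KCH

namespace SMA_

open Matrix Sum Polynomial

variable {r : ℕ}

/-- `q` is obtained from `p` by transvections on both sides -/
def Rch (p q : Matrix (Fin r ⊕ Unit) (Fin r ⊕ Unit) ℂ[X]) : Prop :=
  ∃ (L L' : List (Matrix.TransvectionStruct (Fin r ⊕ Unit) ℂ[X])),
    q = (L.map Matrix.TransvectionStruct.toMatrix).prod * p *
      (L'.map Matrix.TransvectionStruct.toMatrix).prod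

theorem refl (p : Matrix (Fin r ⊕ Unit) (Fin r ⊕ Unit) ℂ[X]) : Rch p p :=
  ⟨[], [], by simp⟩

theorem left {p q : Matrix (Fin r ⊕ Unit) (Fin r ⊕ Unit) ℂ[X]} (h : Rch p q)
    (i j : Fin r ⊕ Unit) (hij : i ≠ j) (c : ℂ[X]) : Rch p (transvection i j c * q) := by
  obtain ⟨L, L', rfl⟩ := h
  refine ⟨⟨i, j, hij, c⟩ :: L, L', ?_⟩
  simp only [List.map_cons, List.prod_cons, TransvectionStruct.toMatrix_mk, Matrix.mul_assoc]

theorem right {p q : Matrix (Fin r ⊕ Unit) (Fin r ⊕ Unit) ℂ[X]} (h : Rch p q)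
    (i j : Fin r ⊕ Unit) (hij : i ≠ j) (c : ℂ[X]) : Rch p (q * transvection i j c) := by
  obtain ⟨L, L', rfl⟩ := h
  refine ⟨L, L' ++ [⟨i, j, hij, c⟩], ?_⟩
  simp only [List.map_append, List.prod_append, List.map_cons, List.map_nil, List.prod_cons,
    List.prod_nil, TransvectionStruct.toMatrix_mk, Matrix.mul_assoc, Matrix.mul_one]

/-- move a row to another place -/
theorem row {p q : Matrix (Fin r ⊕ Unit) (Fin r ⊕ Unit) ℂ[X]} (h : Rch p q)
    (i u : Fin r ⊕ Unit) : ∃ q', Rch p q' ∧ ∀ j, q' u j = q i j := by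
  by_cases hiu : i = u
  · exact ⟨q, h, fun j => by rw [hiu]⟩
  have hui : u ≠ i := fun e => hiu e.symm
  refine ⟨transvection u i 1 * (transvection i u (-1) * (transvection u i 1 * q)),
    left (left (left h u i hui 1) i u hiu (-1)) u i hui 1, fun j => ?_⟩
  simp only [transvection_mul_apply_same, transvection_mul_apply_of_ne _ _ _ _ hui,
    transvection_mul_apply_of_ne _ _ _ _ hiu]
  ring

/-- move a column to another place -/
theorem col {p q : Matrix (Fin r ⊕ Unit) (Fin r ⊕ Unit) ℂ[X]} (h : Rch p q)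
    (j u : Fin r ⊕ Unit) : ∃ q', Rch p q' ∧ ∀ i, q' i u = q i j := by
  by_cases hju : j = u
  · exact ⟨q, h, fun i => by rw [hju]⟩
  have huj : u ≠ j := fun e => hju e.symm
  refine ⟨((q * transvection j u 1) * transvection u j (-1)) * transvection j u 1,
    right (right (right h j u hju 1) u j huj (-1)) j u hju 1, fun i => ?_⟩
  simp only [mul_transvection_apply_same, mul_transvection_apply_of_ne _ _ _ _ huj,
    mul_transvection_apply_of_ne _ _ _ _ hju]
  ring

/-- clear a column -/
theorem clearCol {p q : Matrix (Fin r ⊕ Unit) (Fin r ⊕ Unit) ℂ[X]} (h : Rch p q)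
    (u : Fin r ⊕ Unit) (hd : ∀ i, q u u ∣ q i u) (s : Finset (Fin r ⊕ Unit)) (hs : u ∉ s) :
    ∃ q', Rch p q' ∧ (∀ j, q' u j = q u j) ∧ (∀ i ∈ s, q' i u = 0) ∧
      ∀ i, i ∉ s → q' i u = q i u := by
  classical
  induction s using Finset.induction_on with
  | empty => exact ⟨q, h, fun _ => rfl, by simp, fun _ _ => rfl⟩
  | insert a s ha ih =>
    have hua : u ≠ a := by
      rintro rfl
      exact hs (Finset.mem_insert_self _ _)
    have hus : u ∉ s := fun e => hs (Finset.mem_insert_of_mem e)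
    obtain ⟨q', h1, h2, h3, h4⟩ := ih hus
    obtain ⟨c, hc⟩ := hd a
    refine ⟨transvection a u (-c) * q', left h1 a u hua.symm (-c), ?_, ?_, ?_⟩
    · intro j
      rw [transvection_mul_apply_of_ne _ _ _ _ hua, h2]
    · intro i hi0
      rcases Finset.mem_insert.1 hi0 with rfl | hi
      · rw [transvection_mul_apply_same, h4 _ ha, h2, hc]
        ring
      · have hia : i ≠ a := by
          rintro rfl
          exact ha hi
        rw [transvection_mul_apply_of_ne _ _ _ _ hia, h3 i hi]
    · intro i hi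
      have hia : i ≠ a := by
        rintro rfl
        exact hi (Finset.mem_insert_self _ _)
      rw [transvection_mul_apply_of_ne _ _ _ _ hia, h4 i fun e => hi (Finset.mem_insert_of_mem e)]

/-- clear a row -/
theorem clearRow {p q : Matrix (Fin r ⊕ Unit) (Fin r ⊕ Unit) ℂ[X]} (h : Rch p q)
    (u : Fin r ⊕ Unit) (hd : ∀ i, q u u ∣ q u i) (s : Finset (Fin r ⊕ Unit)) (hs : u ∉ s) :
    ∃ q', Rch p q' ∧ (∀ j, q' j u = q j u) ∧ (∀ i ∈ s, q' u i = 0) ∧
      ∀ i, i ∉ s → q' u i = q u i := by
  classical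
  induction s using Finset.induction_on with
  | empty => exact ⟨q, h, fun _ => rfl, by simp, fun _ _ => rfl⟩
  | insert a s ha ih =>
    have hua : u ≠ a := by
      rintro rfl
      exact hs (Finset.mem_insert_self _ _)
    have hus : u ∉ s := fun e => hs (Finset.mem_insert_of_mem e)
    obtain ⟨q', h1, h2, h3, h4⟩ := ih hus
    obtain ⟨c, hc⟩ := hd a
    refine ⟨q' * transvection u a (-c), right h1 u a hua (-c), ?_, ?_, ?_⟩
    · intro j
      rw [mul_transvection_apply_of_ne _ _ _ _ hua, h2]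
    · intro i hi0
      rcases Finset.mem_insert.1 hi0 with rfl | hi
      · rw [mul_transvection_apply_same, h4 _ ha, h2, hc]
        ring
      · have hia : i ≠ a := by
          rintro rfl
          exact ha hi
        rw [mul_transvection_apply_of_ne _ _ _ _ hia, h3 i hi]
    · intro i hi
      have hia : i ≠ a := by
        rintro rfl
        exact hi (Finset.mem_insert_self _ _)
      rw [mul_transvection_apply_of_ne _ _ _ _ hia, h4 i fun e => hi (Finset.mem_insert_of_mem e)]

/-- division -/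
theorem dvd_of_min {a d : ℂ[X]} (hd : d ≠ 0)
    (h : a - d * (a / d) ≠ 0 → d.natDegree ≤ (a - d * (a / d)).natDegree) : d ∣ a := by
  have h1 : a - d * (a / d) = a % d := by
    have := EuclideanDomain.div_add_mod a d
    linear_combination -this
  by_cases h0 : a - d * (a / d) = 0
  · exact ⟨a / d, by linear_combination h0⟩
  · exfalso
    have h2 := h h0
    rw [h1] at h2 h0
    have h3 : (a % d).degree < d.degree := Polynomial.degree_mod_lt a hd
    exact absurd (Polynomial.natDegree_lt_natDegree h0 h3) (not_lt.2 h2)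

end SMA_

open Matrix Sum Polynomial in
theorem sma_proof : Stmt_SMA := by
  classical
  intro r p
  suffices H : ∃ q, SMA_.Rch p q ∧ q.IsTwoBlockDiagonal by
    obtain ⟨q, ⟨L, L', rfl⟩, hq⟩ := H
    exact ⟨L, L', hq⟩
  by_cases hp : p = 0
  · refine ⟨p, SMA_.refl p, ?_⟩
    subst hp
    constructor <;> ext i j <;> rfl
  have hex : ∃ d : ℕ, ∃ q i j, SMA_.Rch p q ∧ q i j ≠ 0 ∧ (q i j).natDegree = d := by
    have : ∃ i j, p i j ≠ 0 := by
      by_contra hc
      push Not at hc
      exact hp (by ext1 i j; exact hc i j)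
    obtain ⟨i, j, hij⟩ := this
    exact ⟨_, p, i, j, SMA_.refl p, hij, rfl⟩
  have hmin : ∀ q i j, SMA_.Rch p q → q i j ≠ 0 → Nat.find hex ≤ (q i j).natDegree :=
    fun q i j h1 h2 => Nat.find_min' hex ⟨q, i, j, h1, h2, rfl⟩
  obtain ⟨q, i, j, hq, hne, hdeg⟩ := Nat.find_spec hex
  set u : Fin r ⊕ Unit := Sum.inr Unit.unit with hu
  obtain ⟨q1, hq1, h1⟩ := SMA_.row hq i u
  obtain ⟨q2, hq2, h2⟩ := SMA_.col hq1 j u
  have huu : q2 u u = q i j := by rw [h2, h1]
  have hne2 : q2 u u ≠ 0 := by rw [huu]; exact hne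
  have hdeg2 : (q2 u u).natDegree = Nat.find hex := by rw [huu]; exact hdeg
  have hc : ∀ k, q2 u u ∣ q2 k u := by
    intro k
    by_cases hk : k = u
    · rw [hk]
    · apply SMA_.dvd_of_min hne2
      intro h0
      rw [hdeg2]
      have h3 := hmin (transvection k u (-(q2 k u / q2 u u)) * q2) k u
        (SMA_.left hq2 k u hk _)
      rw [transvection_mul_apply_same] at h3
      have h4 : q2 k u + -(q2 k u / q2 u u) * q2 u u = q2 k u - q2 u u * (q2 k u / q2 u u) := by
        ring
      rw [h4] at h3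
      exact h3 h0
  have hr : ∀ k, q2 u u ∣ q2 u k := by
    intro k
    by_cases hk : k = u
    · rw [hk]
    · apply SMA_.dvd_of_min hne2
      intro h0
      rw [hdeg2]
      have h3 := hmin (q2 * transvection u k (-(q2 u k / q2 u u))) u k
        (SMA_.right hq2 u k (Ne.symm hk) _)
      rw [mul_transvection_apply_same] at h3
      have h4 : q2 u k + -(q2 u k / q2 u u) * q2 u u = q2 u k - q2 u u * (q2 u k / q2 u u) := by
        ring
      rw [h4] at h3
      exact h3 h0
  have hus : u ∉ Finset.univ.image (fun i : Fin r => (Sum.inl i : Fin r ⊕ Unit)) := by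
    simp [hu]
  obtain ⟨q3, hq3, h31, h32, -⟩ := SMA_.clearCol hq2 u hc _ hus
  have hr3 : ∀ k, q3 u u ∣ q3 u k := by
    intro k
    rw [h31, h31]
    exact hr k
  obtain ⟨q4, hq4, h41, h42, -⟩ := SMA_.clearRow hq3 u hr3 _ hus
  refine ⟨q4, hq4, ?_, ?_⟩
  · ext1 a b
    have hb : b = Unit.unit := rfl
    subst hb
    show q4 (Sum.inl a) (Sum.inr Unit.unit) = 0
    rw [← hu, h41]
    exact h32 (Sum.inl a) (Finset.mem_image_of_mem _ (Finset.mem_univ a))
  · ext1 a b
    have ha : a = Unit.unit := rfl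
    subst ha
    show q4 (Sum.inr Unit.unit) (Sum.inl b) = 0
    rw [← hu]
    exact h42 (Sum.inl b) (Finset.mem_image_of_mem _ (Finset.mem_univ b))

end Pool.Agent.KCH
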