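import Pool.Agent.KCH.KStmts

/-!
# Squad KCH, module SMF: diagonalisation of polynomial matrices by transvections
-/

set_option autoImplicit false

namespace Pool.Agent.KCH

namespace SMF_

open Matrix Matrix.TransvectionStruct

/-- inductive step -/
theorem step (hSMA : Stmt_SMA) {r : ℕ}
    (IH : ∀ M : Matrix (Fin r) (Fin r) (Polynomial ℂ),
      ∃ (L₀ L₀' : List (TransvectionStruct (Fin r) (Polynomial ℂ))) (D₀ : Fin r → Polynomial ℂ),
        (L₀.map toMatrix).prod * M * (L₀'.map toMatrix).prod = diagonal D₀)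
    (M : Matrix (Fin r ⊕ Unit) (Fin r ⊕ Unit) (Polynomial ℂ)) :
    ∃ (L L' : List (TransvectionStruct (Fin r ⊕ Unit) (Polynomial ℂ)))
      (D : Fin r ⊕ Unit → Polynomial ℂ),
      (L.map toMatrix).prod * M * (L'.map toMatrix).prod = diagonal D := by
  rcases hSMA r M with ⟨L₁, L₁', hM⟩
  let M' := (L₁.map toMatrix).prod * M * (L₁'.map toMatrix).prod
  let M'' := toBlocks₁₁ M'
  rcases IH M'' with ⟨L₀, L₀', D₀, h₀⟩
  set c := M' (Sum.inr ()) (Sum.inr ())
  refine
    ⟨L₀.map (sumInl Unit) ++ L₁, L₁' ++ L₀'.map (sumInl Unit),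
      Sum.elim D₀ fun _ => M' (Sum.inr ()) (Sum.inr ()), ?_⟩
  suffices (L₀.map (toMatrix ∘ sumInl Unit)).prod * M' * (L₀'.map (toMatrix ∘ sumInl Unit)).prod =
      diagonal (Sum.elim D₀ fun _ => c) by
    simpa [M', c, Matrix.mul_assoc]
  have : M' = fromBlocks M'' 0 0 (diagonal fun _ => c) := by
    rw [← fromBlocks_toBlocks M', hM.1, hM.2]
    rfl
  rw [this]
  simp [h₀]

/-- reindexing -/
theorem reindex_step {n p : Type} [Fintype n] [DecidableEq n] [Fintype p] [DecidableEq p]
    (M : Matrix p p (Polynomial ℂ)) (e : p ≃ n)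
    (H : ∃ (L L' : List (TransvectionStruct n (Polynomial ℂ))) (D : n → Polynomial ℂ),
        (L.map toMatrix).prod * Matrix.reindexAlgEquiv (Polynomial ℂ) _ e M *
          (L'.map toMatrix).prod = diagonal D) :
    ∃ (L L' : List (TransvectionStruct p (Polynomial ℂ))) (D : p → Polynomial ℂ),
      (L.map toMatrix).prod * M * (L'.map toMatrix).prod = diagonal D := by
  rcases H with ⟨L₀, L₀', D₀, h₀⟩
  refine ⟨L₀.map (reindexEquiv e.symm), L₀'.map (reindexEquiv e.symm), D₀ ∘ e, ?_⟩
  have : M = reindexAlgEquiv (Polynomial ℂ) _ e.symm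
      (reindexAlgEquiv (Polynomial ℂ) _ e M) := by simp
  rw [this]
  simp_rw [List.map_map, toMatrix_reindexEquiv_prod, ← map_mul, h₀]
  simp

theorem diag_form (hSMA : Stmt_SMA) (r : ℕ) (M : Matrix (Fin r) (Fin r) (Polynomial ℂ)) :
    ∃ (L L' : List (TransvectionStruct (Fin r) (Polynomial ℂ))) (D : Fin r → Polynomial ℂ),
      (L.map toMatrix).prod * M * (L'.map toMatrix).prod = diagonal D := by
  induction r with
  | zero =>
    refine ⟨List.nil, List.nil, fun _ => 1, ?_⟩
    ext i j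
    exact i.elim0
  | succ r IH =>
    have e : Fin (r + 1) ≃ Fin r ⊕ Unit := by
      refine Fintype.equivOfCardEq ?_
      simp
    apply reindex_step M e
    exact step hSMA IH _

theorem main (hSMA : Stmt_SMA) (n : ℕ) (M : Matrix (Fin n) (Fin n) (Polynomial ℂ)) :
    ∃ (L L' : List (TransvectionStruct (Fin n) (Polynomial ℂ))) (D : Fin n → Polynomial ℂ),
      M = (L.map toMatrix).prod * diagonal D * (L'.map toMatrix).prod := by
  rcases diag_form hSMA n M with ⟨L, L', D, h⟩
  refine ⟨L.reverse.map TransvectionStruct.inv, L'.reverse.map TransvectionStruct.inv, D, ?_⟩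
  suffices
    M =
      (L.reverse.map (toMatrix ∘ TransvectionStruct.inv)).prod * (L.map toMatrix).prod * M *
        ((L'.map toMatrix).prod * (L'.reverse.map (toMatrix ∘ TransvectionStruct.inv)).prod)
    by simpa [← h, Matrix.mul_assoc]
  rw [reverse_inv_prod_mul_prod, prod_mul_reverse_inv_prod, Matrix.one_mul, Matrix.mul_one]

end SMF_

theorem smf_proof (hSMA : Stmt_SMA) : Stmt_SMF := by
  intro n p
  obtain ⟨L, L', D, h⟩ := SMF_.main hSMA n p
  exact ⟨L, L', D, h⟩

end Pool.Agent.KCH
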