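import Pool.Agent.KCH.KStmts

set_option autoImplicit false

namespace Pool.Agent.KCH

namespace SP0_

section
variable {J E Q : Type} [NonUnitalCStarAlgebra J] [NonUnitalCStarAlgebra E]
  [NonUnitalCStarAlgebra Q] (i : J →⋆ₙₐ[ℂ] E) (p : E →⋆ₙₐ[ℂ] Q) (s : Q →⋆ₙₐ[ℂ] E)

/-- `σ` -/
noncomputable def sg : Unitization ℂ E →ₙ+* Unitization ℂ E := (ext s).comp (ext p)

theorem sg_one : sg p s 1 = 1 := by
  show ext s (ext p 1) = 1
  rw [ext_one, ext_one]

theorem ext_sg (hs : ∀ q, p (s q) = q) (x : Unitization ℂ E) : ext p (sg p s x) = ext p x := by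
  show ext p (ext s (ext p x)) = ext p x
  apply un_ext
  · rw [ext_fst, ext_fst]
  · rw [ext_snd, ext_snd, hs]

theorem mm_ext_sg (hs : ∀ q, p (s q) = q) {κ κ' : Type} (x : Matrix κ κ' (Unitization ℂ E)) :
    mm (ext p) (mm (sg p s) x) = mm (ext p) x :=
  Matrix.ext fun a b => ext_sg p s hs (x a b)

theorem ext_ext (h : ∀ x, p x = 0 ↔ ∃ y, i y = x) (x : Unitization ℂ J) :
    ext p (ext i x) = algebraMap ℂ (Unitization ℂ Q) x.fst := by
  apply un_ext
  · rw [ext_fst, ext_fst]; rfl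
  · rw [ext_snd, ext_snd]
    exact (h _).2 ⟨_, rfl⟩

theorem lift (h : ∀ x, p x = 0 ↔ ∃ y, i y = x) {κ κ' : Type}
    (w : Matrix κ κ' (Unitization ℂ E)) (hw : ∀ a b, p (w a b).snd = 0) :
    ∃ g : Matrix κ κ' (Unitization ℂ J), mm (ext i) g = w ∧ ∀ a b, (g a b).fst = (w a b).fst := by
  choose y hy using fun a b => (h _).1 (hw a b)
  refine ⟨fun a b => ⟨((w a b).fst, y a b)⟩, Matrix.ext fun a b => ?_, fun a b => rfl⟩
  rw [mm_apply]
  apply un_ext
  · rw [ext_fst]
  · rw [ext_snd]; exact hy a b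

theorem snd_of_eq_one {κ : Type} [DecidableEq κ] {w : Matrix κ κ (Unitization ℂ E)}
    (hw : mm (ext p) w = 1) (a b : κ) : p (w a b).snd = 0 := by
  have h1 : ext p (w a b) = (1 : Matrix κ κ (Unitization ℂ Q)) a b := congrFun (congrFun hw a) b
  have h2 : (ext p (w a b)).snd = ((1 : Matrix κ κ (Unitization ℂ Q)) a b).snd := by rw [h1]
  rw [ext_snd, Matrix.one_apply] at h2
  rw [h2]
  split_ifs <;> rfl

end

section
variable {J E Q : Type} [NonUnitalCStarAlgebra J] [NonUnitalCStarAlgebra E]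
  [NonUnitalCStarAlgebra Q] (i : J →⋆ₙₐ[ℂ] E) (p : E →⋆ₙₐ[ℂ] Q) (s : Q →⋆ₙₐ[ℂ] E)

theorem conj_lift (hi : Function.Injective i) (hp : ∀ x, p x = 0 ↔ ∃ y, i y = x)
    (hs : ∀ q, p (s q) = q) {κ : Type} [Fintype κ] [DecidableEq κ]
    (P : Matrix κ κ (Unitization ℂ J)) (Z Z' : Matrix κ κ (Unitization ℂ E))
    (h1 : Z * Z' = 1) (h2 : Z' * Z = 1)
    (h : Z * mm (ext i) (mm (sca J) P) = mm (ext i) P * Z) :
    ∃ G : (Matrix κ κ (Unitization ℂ J))ˣ,
      (G : Matrix κ κ (Unitization ℂ J)) * mm (sca J) P = P * G := by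
  have hpz : mm (ext p) Z * mm (ext p) (mm (ext i) (mm (sca J) P)) =
      mm (ext p) (mm (ext i) P) * mm (ext p) Z := by
    rw [← mm_mul, h, mm_mul]
  have e5 : mm (ext p) (mm (ext i) (mm (sca J) P)) = mm (ext p) (mm (ext i) P) := by
    refine Matrix.ext fun a b => ?_
    show ext p (ext i (sca J (P a b))) = ext p (ext i (P a b))
    rw [ext_ext i p hp, ext_ext i p hp]
    rfl
  have e6 : mm (ext s) (mm (ext p) (mm (ext i) (mm (sca J) P))) =
      mm (ext i) (mm (sca J) P) := by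
    refine Matrix.ext fun a b => ?_
    show ext s (ext p (ext i (sca J (P a b)))) = ext i (sca J (P a b))
    rw [ext_ext i p hp, sca_apply, ext_algebraMap, ext_algebraMap]
    rfl
  rw [← e5] at hpz
  have hsz : mm (sg p s) Z * mm (ext i) (mm (sca J) P) =
      mm (ext i) (mm (sca J) P) * mm (sg p s) Z := by
    have h3 := congrArg (mm (ext s)) hpz
    rw [mm_mul, mm_mul, e6] at h3
    exact h3
  have hW1 : mm (sg p s) Z * mm (sg p s) Z' = 1 := by
    rw [← mm_mul, h1, mm_one _ (sg_one p s)]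
  have hW2 : mm (sg p s) Z' * mm (sg p s) Z = 1 := by
    rw [← mm_mul, h2, mm_one _ (sg_one p s)]
  have hp1 : mm (ext p) Z * mm (ext p) Z' = 1 := by
    rw [← mm_mul, h1, mm_one _ (ext_one p)]
  have hT : mm (ext i) (mm (sca J) P) * mm (sg p s) Z' =
      mm (sg p s) Z' * mm (ext i) (mm (sca J) P) := by
    calc mm (ext i) (mm (sca J) P) * mm (sg p s) Z'
        = (mm (sg p s) Z' * mm (sg p s) Z) * mm (ext i) (mm (sca J) P) * mm (sg p s) Z' := by
          rw [hW2, one_mul]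
      _ = mm (sg p s) Z' * (mm (sg p s) Z * mm (ext i) (mm (sca J) P)) * mm (sg p s) Z' := by
          rw [mul_assoc (mm (sg p s) Z')]
      _ = mm (sg p s) Z' * mm (ext i) (mm (sca J) P) * (mm (sg p s) Z * mm (sg p s) Z') := by
          rw [hsz]; simp only [mul_assoc]
      _ = _ := by rw [hW1, mul_one]
  obtain ⟨g, hg, -⟩ := lift i p hp (Z * mm (sg p s) Z') (snd_of_eq_one p (by
    rw [mm_mul, mm_ext_sg p s hs, hp1]))
  obtain ⟨g', hg', -⟩ := lift i p hp (mm (sg p s) Z * Z') (snd_of_eq_one p (by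
    rw [mm_mul, mm_ext_sg p s hs, hp1]))
  have hinj := mm_injective (ι := κ) (κ := κ) _ (ext_injective i hi)
  have hgg' : g * g' = 1 := by
    apply hinj
    rw [mm_mul, hg, hg', mm_one _ (ext_one i), mul_assoc, ← mul_assoc (mm (sg p s) Z'), hW2,
      one_mul, h1]
  have hg'g : g' * g = 1 := by
    apply hinj
    rw [mm_mul, hg, hg', mm_one _ (ext_one i), mul_assoc, ← mul_assoc Z', h2,
      one_mul, hW1]
  refine ⟨⟨g, g', hgg', hg'g⟩, ?_⟩
  show g * mm (sca J) P = P * g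
  apply hinj
  rw [mm_mul, mm_mul, hg, mul_assoc, ← hT, ← mul_assoc, h, mul_assoc]

end

/-- the conjugating matrix -/
theorem zz_mul {A : Type} [Ring A] {κ : Type} [Fintype κ] [DecidableEq κ] {a : Matrix κ κ A}
    (ha : a * a = a) : Matrix.fromBlocks a (1 - a) (1 - a) a * Matrix.fromBlocks a (1 - a) (1 - a) a
      = 1 := by
  have h1 : (1 - a) * (1 - a) = 1 - a := compl_idem ha
  have h2 : a * (1 - a) = 0 := by rw [mul_sub, ha, mul_one, sub_self]
  have h3 : (1 - a) * a = 0 := by rw [sub_mul, ha, one_mul, sub_self]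
  rw [Matrix.fromBlocks_multiply, ha, h1, h2, h3, ← Matrix.fromBlocks_one]
  congr 1 <;> simp

theorem zz_conj {A : Type} [Ring A] {κ : Type} [Fintype κ] [DecidableEq κ] {a : Matrix κ κ A}
    (ha : a * a = a) : Matrix.fromBlocks a (1 - a) (1 - a) a * Matrix.fromBlocks a 0 0 (1 - a) *
      Matrix.fromBlocks a (1 - a) (1 - a) a = Matrix.fromBlocks 1 0 0 0 := by
  have h1 : (1 - a) * (1 - a) = 1 - a := compl_idem ha
  have h2 : a * (1 - a) = 0 := by rw [mul_sub, ha, mul_one, sub_self]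
  have h3 : (1 - a) * a = 0 := by rw [sub_mul, ha, one_mul, sub_self]
  rw [Matrix.fromBlocks_multiply, Matrix.fromBlocks_multiply]
  congr 1 <;> simp [ha, h1, h2, h3]

end SP0_

open SP0_

theorem sp0_proof (hNF0 : Stmt_NF0) (hCR0 : Stmt_CR0) (hCNJ : Stmt_CNJ) : Stmt_SP0 := by
  intro J E Q _ _ _ i p s hi hp hs
  constructor
  · intro x hx1 hx2
    obtain ⟨n, P, hP, rfl⟩ := hNF0 J x hx1
    rw [map_sub, K0.map_c0, K0.map_c0, sub_eq_zero] at hx2
    obtain ⟨k, hk⟩ := hCR0 _ _ _ _ _ _ _ hx2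
    -- the enlarged matrices
    let P1 : Matrix (Fin n ⊕ Fin k) (Fin n ⊕ Fin k) (Unitization ℂ J) :=
      Matrix.fromBlocks P 0 0 1
    have hscJ : sca J 1 = 1 := rfl
    have hP1 : P1 * P1 = P1 := fromBlocks_idem hP (one_mul _)
    have e1 : mm (ext i) P1 = Matrix.fromBlocks (mm (ext i) P) 0 0 1 := by
      simp only [P1, mm_fromBlocks, mm_zero, mm_one _ (ext_one i)]
    have e2 : mm (ext i) (mm (sca J) P1) = Matrix.fromBlocks (mm (ext i) (mm (sca J) P)) 0 0 1 := by
      simp only [P1, mm_fromBlocks, mm_zero, mm_one _ hscJ, mm_one _ (ext_one i)]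
    rw [← e1, ← e2] at hk
    have hq1 : mm (sca J) P1 * mm (sca J) P1 = mm (sca J) P1 := mm_idem _ hP1
    obtain ⟨z, hz⟩ := hCNJ _ _ _ _ (mm_idem _ hP1) (mm_idem _ hq1) hk
    let P2 : Matrix ((Fin n ⊕ Fin k) ⊕ (Fin n ⊕ Fin k)) ((Fin n ⊕ Fin k) ⊕ (Fin n ⊕ Fin k))
      (Unitization ℂ J) := Matrix.fromBlocks P1 0 0 0
    have hP2 : P2 * P2 = P2 := fromBlocks_idem hP1 (by simp)
    have e3 : mm (ext i) P2 = Matrix.fromBlocks (mm (ext i) P1) 0 0 0 := by
      simp only [P2, mm_fromBlocks, mm_zero]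
    have e4 : mm (ext i) (mm (sca J) P2) =
        Matrix.fromBlocks (mm (ext i) (mm (sca J) P1)) 0 0 0 := by
      simp only [P2, mm_fromBlocks, mm_zero]
    rw [← e3, ← e4] at hz
    obtain ⟨G, hG⟩ := conj_lift i p s hi hp hs P2 _ _ z.mul_inv z.inv_mul hz
    have hc := c0_conj (mm_idem _ hP2) hP2 G hG
    have c1 : c0 P2 hP2 = c0 P hP + c0 (1 : Matrix (Fin k) (Fin k) _) (one_mul _) := by
      rw [← c0_sum]
      exact c0_fromBlocks_zero hP1
    have c2 : c0 (mm (sca J) P2) (mm_idem _ hP2) = c0 (mm (sca J) P) (mm_idem _ hP) +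
        c0 (1 : Matrix (Fin k) (Fin k) _) (one_mul _) := by
      have e7 : mm (sca J) P2 = Matrix.fromBlocks (mm (sca J) P1) 0 0 0 := by
        simp only [P2, mm_fromBlocks, mm_zero]
      have e8 : mm (sca J) P1 = Matrix.fromBlocks (mm (sca J) P) 0 0 1 := by
        simp only [P1, mm_fromBlocks, mm_zero, mm_one _ hscJ]
      rw [c0_congr e7 _ (fromBlocks_idem hq1 (by simp)), c0_fromBlocks_zero hq1,
        c0_congr e8 _ (fromBlocks_idem (mm_idem _ hP) (one_mul _)), c0_sum]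
    rw [c1, c2] at hc
    rw [sub_eq_zero]
    exact (add_right_cancel hc).symm
  · intro y _ hy
    obtain ⟨n, m, P, hP, rfl⟩ := K0.exists_sub y
    let P1 := mm (sg p s) P
    have hP1 : P1 * P1 = P1 := mm_idem _ hP
    have hy2 : c0 P1 hP1 = c0 (1 : Matrix (Fin m) (Fin m) (Unitization ℂ E)) (one_mul _) := by
      have h1 := congrArg (K0.map (ext s)) hy
      rw [map_zero, ← K0.map_comp, map_sub, K0.map_c0, K0.map_c0, sub_eq_zero] at h1
      have e1 : mm ((ext s).comp (ext p)) (1 : Matrix (Fin m) (Fin m) (Unitization ℂ E)) = 1 :=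
        mm_one _ (sg_one p s)
      rw [c0_congr e1 _ (one_mul _)] at h1
      exact h1
    rw [← hy2]
    let z1 : Matrix (Fin n ⊕ Fin n) (Fin n ⊕ Fin n) (Unitization ℂ E) :=
      Matrix.fromBlocks P1 (1 - P1) (1 - P1) P1
    have hz1 : z1 * z1 = 1 := zz_mul hP1
    let D : Matrix (Fin n ⊕ Fin n) (Fin n ⊕ Fin n) (Unitization ℂ E) :=
      Matrix.fromBlocks P 0 0 (1 - P1)
    have hD : D * D = D := fromBlocks_idem hP (compl_idem hP1)
    let R := z1 * D * z1
    have hR : R * R = R := by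
      show z1 * D * z1 * (z1 * D * z1) = z1 * D * z1
      rw [show z1 * D * z1 * (z1 * D * z1) = z1 * D * (z1 * z1) * D * z1 by noncomm_ring, hz1,
        mul_one, mul_assoc z1, hD]
    have hpR : mm (ext p) R = Matrix.fromBlocks 1 0 0 0 := by
      have e0 : mm (ext p) P1 = mm (ext p) P := mm_ext_sg p s hs P
      have e1 : mm (ext p) (1 - P1) = 1 - mm (ext p) P := by
        rw [mm_sub, mm_one _ (ext_one p), e0]
      show mm (ext p) (z1 * D * z1) = _
      simp only [z1, D, mm_mul, mm_fromBlocks, mm_zero, e0, e1]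
      exact zz_conj (mm_idem _ hP)
    have hpR' : ∀ a b, p (R a b).snd = 0 := by
      intro a b
      have h1 : ext p (R a b) = (Matrix.fromBlocks 1 0 0 0 :
        Matrix (Fin n ⊕ Fin n) (Fin n ⊕ Fin n) (Unitization ℂ Q)) a b :=
        congrFun (congrFun hpR a) b
      have h2 := congrArg (fun x : Unitization ℂ Q => x.snd) h1
      simp only [ext_snd] at h2
      rw [h2]
      rcases a with a | a <;> rcases b with b | b
      · rw [Matrix.fromBlocks_apply₁₁, Matrix.one_apply]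
        split_ifs <;> rfl
      · rfl
      · rfl
      · rfl
    obtain ⟨R', hR', hR'f⟩ := lift i p hp R hpR'
    have hR'i : R' * R' = R' := by
      apply mm_injective _ (ext_injective i hi)
      rw [mm_mul, hR', hR]
    have haR' : mm (aug J) R' = Matrix.fromBlocks 1 0 0 0 := by
      refine Matrix.ext fun a b => ?_
      show (R' a b).fst = _
      have h1 : ext p (R a b) = (Matrix.fromBlocks 1 0 0 0 :
        Matrix (Fin n ⊕ Fin n) (Fin n ⊕ Fin n) (Unitization ℂ Q)) a b :=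
        congrFun (congrFun hpR a) b
      have h2 := congrArg (fun x : Unitization ℂ Q => x.fst) h1
      simp only [ext_fst] at h2
      rw [hR'f, h2]
      rcases a with a | a <;> rcases b with b | b
      · rw [Matrix.fromBlocks_apply₁₁, Matrix.fromBlocks_apply₁₁, Matrix.one_apply,
          Matrix.one_apply]
        split_ifs <;> rfl
      · rfl
      · rfl
      · rfl
    refine ⟨c0 R' hR'i - c0 (1 : Matrix (Fin n) (Fin n) (Unitization ℂ J)) (one_mul _), ?_, ?_⟩
    · rw [map_sub, K0.map_c0, K0.map_c0, c0_congr haR' _ (fromBlocks_idem (one_mul _) (by simp)),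
        c0_fromBlocks_zero (one_mul _), c0_congr (mm_one _ aug_one) _ (one_mul _), sub_self]
    · rw [map_sub, K0.map_c0, K0.map_c0, c0_congr hR' _ hR,
        c0_congr (mm_one _ (ext_one i)) _ (one_mul _)]
      have h1 : c0 D hD = c0 R hR := by
        refine c0_conj hD hR ⟨z1, z1, hz1, hz1⟩ ?_
        show z1 * D = z1 * D * z1 * z1
        rw [mul_assoc, hz1, mul_one]
      rw [← h1, c0_sum hP (compl_idem hP1), ← c0_compl hP1]
      abel

end Pool.Agent.KCH
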