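import Pool.Agent.KCH.RStmts

/-!
# Squad KCH, module SPA: separability
-/

set_option autoImplicit false

namespace Pool.Agent.KCH

open TopologicalSpace
open scoped ComplexOrder

namespace SPA_

theorem sepA (h : IsSeparable (SA : Set (Bd XX))) : SeparableSpace AA := by
  have hiso : Isometry (pA : AA → Bd XX) :=
    AddMonoidHomClass.isometry_of_norm pA pA_norm
  have h1 : IsSeparable ((pA : AA → Bd XX) ⁻¹' (SA : Set (Bd XX))) :=
    hiso.isEmbedding.isInducing.isSeparable_preimage h
  have h2 : (pA : AA → Bd XX) ⁻¹' (SA : Set (Bd XX)) = Set.univ :=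
    Set.eq_univ_of_forall fun a => pA_mem a
  rw [h2] at h1
  exact isSeparable_univ_iff.1 h1

theorem sepC (h : IsSeparable (SA : Set (Bd XX))) : SeparableSpace CC := by
  have hiso : Isometry (pC : CC → Bd XX) :=
    AddMonoidHomClass.isometry_of_norm pC pC_norm
  have h1 : IsSeparable ((pC : CC → Bd XX) ⁻¹' (SA : Set (Bd XX))) :=
    hiso.isEmbedding.isInducing.isSeparable_preimage h
  have h2 : (pC : CC → Bd XX) ⁻¹' (SA : Set (Bd XX)) = Set.univ :=
    Set.eq_univ_of_forall fun a => SC_le_SA (pC_mem a)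
  rw [h2] at h1
  exact isSeparable_univ_iff.1 h1

end SPA_

open SPA_ in
theorem spa_proof (hSPN : Stmt_SPN) : Stmt_SPA := by
  have h : IsSeparable (SA : Set (Bd XX)) := by
    have h1 : IsSeparable (Set.range (Mo U S)) := (Set.countable_range _).isSeparable
    have h2 : IsSeparable (Submodule.span ℂ (Set.range (Mo U S)) : Set (Bd XX)) := h1.span
    have h3 := h2.closure
    have h4 : (SA : Set (Bd XX)) = closure (Submodule.span ℂ (Set.range (Mo U S)) : Set (Bd XX)) :=
      hSPN
    rw [h4]
    exact h3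
  exact ⟨sepA h, sepC h⟩

end Pool.Agent.KCH
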