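import Pool.Agent.KCH.RStmts

/-!
# Squad KCH, module SPC: the C*-algebra generated by `U` is the algebra of the circle
-/

set_option autoImplicit false

namespace Pool.Agent.KCH

open TopologicalSpace
open scoped ComplexOrder

namespace SPC_

/-- the basis vectors `e_([], m)` -/
noncomputable def em (m : ℕ) : L2 XX := ee ([], (m : ℤ))

theorem orth : Orthonormal ℂ em := by
  classical
  rw [orthonormal_iff_ite]
  intro i j
  unfold em
  rw [inner_ee_ee]
  by_cases h : i = j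
  · simp [h]
  · rw [if_neg h, if_neg]
    intro h'
    apply h
    have h2 : (i : ℤ) = (j : ℤ) := congrArg Prod.snd h'
    exact_mod_cast h2

theorem U_em (m : ℕ) : U (em m) = em (m + 1) := by
  unfold em
  rw [U_def, opP_ee]
  show ee (([], (m : ℤ) + 1) : XX) = _
  push_cast
  rfl

/-- the test vectors -/
noncomputable def vv (z : ℂ) (n : ℕ) : L2 XX := ∑ m ∈ Finset.range n, (z⁻¹) ^ m • em m

theorem vv_norm {z : ℂ} (hz : ‖z‖ = 1) (n : ℕ) : ‖vv z n‖ ^ 2 = n := by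
  have h1 := orth.inner_sum (fun m => (z⁻¹) ^ m) (fun m => (z⁻¹) ^ m) (Finset.range n)
  have h2 : ∀ m ∈ Finset.range n, (starRingEnd ℂ) ((z⁻¹) ^ m) * (z⁻¹) ^ m = 1 := by
    intro m _
    rw [mul_comm, Complex.mul_conj, Complex.normSq_eq_norm_sq, norm_pow, norm_inv, hz]
    norm_num
  rw [Finset.sum_congr rfl h2] at h1
  have h3 := inner_self_eq_norm_sq (𝕜 := ℂ) (vv z n)
  unfold vv at h3 ⊢
  rw [h1] at h3
  rw [← h3]
  simp

theorem vv_apply {z : ℂ} (hz : ‖z‖ = 1) (n : ℕ) :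
    (algebraMap ℂ (Bd XX) z - U) (vv z n) = z • em 0 - (z⁻¹) ^ n • (z • em n) := by
  have hz0 : z ≠ 0 := by
    rintro rfl
    simp at hz
  induction n with
  | zero => simp [vv]
  | succ n ih =>
    have h1 : vv z (n + 1) = vv z n + (z⁻¹) ^ n • em n := by
      unfold vv
      rw [Finset.sum_range_succ]
    rw [h1, map_add, ih, map_smul]
    have h2 : (algebraMap ℂ (Bd XX) z - U) (em n) = z • em n - em (n + 1) := by
      rw [Algebra.algebraMap_eq_smul_one]
      show z • em n - U (em n) = _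
      rw [U_em]
    rw [h2, smul_sub]
    have h3 : (z⁻¹) ^ (n + 1) • z • em (n + 1) = (z⁻¹) ^ n • em (n + 1) := by
      rw [smul_smul]
      congr 1
      rw [pow_succ, mul_assoc, inv_mul_cancel₀ hz0, mul_one]
    rw [h3]
    abel

theorem em_norm (n : ℕ) : ‖em n‖ = 1 := orth.norm_eq_one n

theorem vv_apply_norm {z : ℂ} (hz : ‖z‖ = 1) (n : ℕ) :
    ‖(algebraMap ℂ (Bd XX) z - U) (vv z n)‖ ≤ 2 := by
  rw [vv_apply hz]
  refine (norm_sub_le _ _).trans ?_
  rw [norm_smul, norm_smul, norm_smul, em_norm, em_norm, norm_pow, norm_inv, hz]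
  norm_num

theorem mem_spec {z : ℂ} (hz : ‖z‖ = 1) : z ∈ spectrum ℂ U := by
  rw [spectrum.mem_iff]
  intro hu
  obtain ⟨T, hT⟩ := hu
  obtain ⟨n, hn⟩ := exists_nat_gt ((‖((T⁻¹ : (Bd XX)ˣ) : Bd XX)‖ * 2) ^ 2)
  have h1 : ((T⁻¹ : (Bd XX)ˣ) : Bd XX) ((algebraMap ℂ (Bd XX) z - U) (vv z n)) = vv z n := by
    rw [← hT]
    have : (((T⁻¹ : (Bd XX)ˣ) : Bd XX) * (T : Bd XX)) (vv z n) = (1 : Bd XX) (vv z n) := by
      rw [T.inv_mul]
    exact this
  have h2 : ‖vv z n‖ ≤ ‖((T⁻¹ : (Bd XX)ˣ) : Bd XX)‖ * 2 := by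
    calc ‖vv z n‖ = ‖((T⁻¹ : (Bd XX)ˣ) : Bd XX) ((algebraMap ℂ (Bd XX) z - U) (vv z n))‖ := by
          rw [h1]
      _ ≤ ‖((T⁻¹ : (Bd XX)ˣ) : Bd XX)‖ * ‖(algebraMap ℂ (Bd XX) z - U) (vv z n)‖ :=
          ContinuousLinearMap.le_opNorm _ _
      _ ≤ _ := mul_le_mul_of_nonneg_left (vv_apply_norm hz n) (norm_nonneg _)
  have h3 : ‖vv z n‖ ^ 2 ≤ (‖((T⁻¹ : (Bd XX)ˣ) : Bd XX)‖ * 2) ^ 2 :=
    pow_le_pow_left₀ (norm_nonneg _) h2 2
  rw [vv_norm hz] at h3
  linarith

end SPC_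

open SPC_ in
theorem spc_proof (hFRL : Stmt_FRL) : Stmt_SPC := by
  have hR : Rel U S := hFRL
  have hun : U ∈ unitary (Bd XX) := Unitary.mem_iff.2 ⟨hR.uu, hR.uu'⟩
  have hsn : IsStarNormal U := ⟨by
    show star U * U = U * star U
    rw [hR.uu, hR.uu']⟩
  have hspec : ∀ z : ℂ, z ∈ spectrum ℂ U ↔ ‖z‖ = 1 := by
    intro z
    constructor
    · intro h
      have h1 := spectrum.subset_circle_of_unitary hun h
      simpa using h1
    · exact mem_spec
  have key : ∀ S' : StarSubalgebra ℂ (Bd XX), S' = StarAlgebra.elemental ℂ U →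
      Nonempty (C(UnitAddCircle, ℂ) ≃⋆ₐ[ℂ] S') := by
    rintro _ rfl
    let H : UnitAddCircle ≃ₜ Circle := AddCircle.homeomorphCircle one_ne_zero
    let f : UnitAddCircle ≃ spectrum ℂ U :=
      { toFun := fun x => ⟨(H x : ℂ), (hspec _).2 (Circle.norm_coe _)⟩
        invFun := fun z => H.symm ⟨(z : ℂ), by
          rw [Submonoid.unitSphere, Submonoid.mem_mk]
          simpa using (hspec _).1 z.2⟩
        left_inv := fun x => by
          simp
        right_inv := fun z => by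
          apply Subtype.ext
          simp }
    have hf : Continuous f := by
      refine Continuous.subtype_mk ?_ _
      exact continuous_subtype_val.comp H.continuous
    let G : UnitAddCircle ≃ₜ spectrum ℂ U := hf.homeoOfEquivCompactToT2
    exact ⟨(G.symm.compStarAlgEquiv' ℂ ℂ).trans (continuousFunctionalCalculus U)⟩
  exact key SC SC_def

end Pool.Agent.KCH
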