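import Pool.Agent.KCH.RStmts

/-!
# Squad KCH, module SPN: the monomials span a dense subspace
-/

set_option autoImplicit false

namespace Pool.Agent.KCH

open TopologicalSpace
open scoped ComplexOrder

namespace SPN_

theorem pw_mem (k : ℤ) : pw U k ∈ SA := by
  cases k with
  | ofNat n => exact pow_mem U_mem n
  | negSucc n => exact pow_mem (star_mem U_mem) (n + 1)

theorem Sw_mem (α : List ℤ) : Sw U S α ∈ SA := by
  induction α with
  | nil => exact one_mem SA
  | cons k α ih => exact mul_mem (mul_mem (pw_mem k) S_mem) ih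

theorem Mo_mem (w : List ℤ × ℤ × List ℤ) : Mo U S w ∈ SA :=
  mul_mem (mul_mem (Sw_mem w.1) (pw_mem w.2.1)) (star_mem (Sw_mem w.2.2))

theorem span_le : (Submodule.span ℂ (Set.range (Mo U S)) : Set (Bd XX)) ⊆ SA := by
  have h : Submodule.span ℂ (Set.range (Mo U S)) ≤ Subalgebra.toSubmodule SA.toSubalgebra := by
    rw [Submodule.span_le]
    rintro _ ⟨w, rfl⟩
    exact Mo_mem w
  exact h

theorem mem_span (w : List ℤ × ℤ × List ℤ) :
    Mo U S w ∈ Submodule.span ℂ (Set.range (Mo U S)) :=
  Submodule.subset_span ⟨w, rfl⟩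

end SPN_

open SPN_ in
theorem spn_proof (hPWR : Stmt_PWR) (hMUL : Stmt_MUL) (hFRL : Stmt_FRL) : Stmt_SPN := by
  obtain ⟨h0, h1, hadd, hst, -⟩ := hPWR (Bd XX) U S hFRL
  have hstar : ∀ α l β, star (Mo U S (α, l, β)) = Mo U S (β, -l, α) := by
    intro α l β
    unfold Mo
    rw [star_mul, star_mul, star_star, hst, mul_assoc]
  have e1 : Mo U S ([], 0, []) = 1 := by
    show (1 : Bd XX) * pw U 0 * star (1 : Bd XX) = 1
    rw [h0, star_one, mul_one, mul_one]
  have eU : Mo U S ([], 1, []) = U := by
    show (1 : Bd XX) * pw U 1 * star (1 : Bd XX) = U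
    rw [h1, star_one, mul_one, one_mul]
  have eS : Mo U S ([0], 0, []) = S := by
    show (pw U 0 * S * (1 : Bd XX)) * pw U 0 * star (1 : Bd XX) = S
    rw [h0, star_one, mul_one, mul_one, mul_one, one_mul]
  refine Set.Subset.antisymm ?_ (closure_minimal span_le SA_closed)
  rw [SA_def, StarSubalgebra.topologicalClosure_coe]
  refine closure_mono ?_
  intro x hx
  have hmul1 : ∀ w, ∀ y ∈ Submodule.span ℂ (Set.range (Mo U S)),
      Mo U S w * y ∈ Submodule.span ℂ (Set.range (Mo U S)) := by
    intro w y hy
    induction hy using Submodule.span_induction with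
    | mem y hy =>
      obtain ⟨w', rfl⟩ := hy
      rcases hMUL w w' with ⟨w'', h⟩ | h
      · rw [h (Bd XX) U S hFRL]
        exact mem_span w''
      · rw [h (Bd XX) U S hFRL]
        exact Submodule.zero_mem _
    | zero =>
      rw [mul_zero]
      exact Submodule.zero_mem _
    | add y z _ _ hy hz =>
      rw [mul_add]
      exact Submodule.add_mem _ hy hz
    | smul c y _ hy =>
      rw [mul_smul_comm]
      exact Submodule.smul_mem _ c hy
  have hmul : ∀ x ∈ Submodule.span ℂ (Set.range (Mo U S)),
      ∀ y ∈ Submodule.span ℂ (Set.range (Mo U S)),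
      x * y ∈ Submodule.span ℂ (Set.range (Mo U S)) := by
    intro x hx y hy
    induction hx using Submodule.span_induction with
    | mem x hx =>
      obtain ⟨w, rfl⟩ := hx
      exact hmul1 w y hy
    | zero =>
      rw [zero_mul]
      exact Submodule.zero_mem _
    | add x z _ _ hx hz =>
      rw [add_mul]
      exact Submodule.add_mem _ hx hz
    | smul c x _ hx =>
      rw [smul_mul_assoc]
      exact Submodule.smul_mem _ c hx
  have hstar' : ∀ x ∈ Submodule.span ℂ (Set.range (Mo U S)),
      star x ∈ Submodule.span ℂ (Set.range (Mo U S)) := by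
    intro x hx
    induction hx using Submodule.span_induction with
    | mem x hx =>
      obtain ⟨w, rfl⟩ := hx
      obtain ⟨α, l, β⟩ := w
      rw [hstar]
      exact mem_span _
    | zero =>
      rw [star_zero]
      exact Submodule.zero_mem _
    | add x z _ _ hx hz =>
      rw [star_add]
      exact Submodule.add_mem _ hx hz
    | smul c x _ hx =>
      rw [star_smul]
      exact Submodule.smul_mem _ _ hx
  show x ∈ Submodule.span ℂ (Set.range (Mo U S))
  induction hx using StarAlgebra.adjoin_induction with
  | mem x hx =>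
    rcases hx with rfl | rfl
    · have h := mem_span ([], 1, [])
      rw [eU] at h
      exact h
    · have h := mem_span ([0], 0, [])
      rw [eS] at h
      exact h
  | algebraMap c =>
    rw [Algebra.algebraMap_eq_smul_one, ← e1]
    exact Submodule.smul_mem _ c (mem_span _)
  | add x y _ _ hx hy => exact Submodule.add_mem _ hx hy
  | mul x y _ _ hx hy => exact hmul x hx y hy
  | star x _ hx => exact hstar' x hx

end Pool.Agent.KCH
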