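import Pool.Agent.KCH.KStmts

/-!
# Squad KCH, module SU0: surjectivity for the stabilisation in `K_0`
-/

set_option autoImplicit false

namespace Pool.Agent.KCH

open TopologicalSpace

namespace SU0_

section
variable {B J : Type} [CStarAlgebra B] [NonUnitalCStarAlgebra J]

theorem fst_sub' (x y : Unitization ℂ J) : (x - y).fst = x.fst - y.fst := rfl

theorem snd_sub' (x y : Unitization ℂ J) : (x - y).snd = x.snd - y.snd := rfl

/-- the elements whose part in `J` is fixed by `p` -/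
def Rm (p : J) : Subring (Unitization ℂ J) where
  carrier := {x | p * x.snd = x.snd ∧ x.snd * p = x.snd}
  mul_mem' {x y} hx hy := by
    obtain ⟨h1, h2⟩ := hx
    obtain ⟨h3, h4⟩ := hy
    constructor
    · rw [Unitization.snd_mul, mul_add, mul_add, mul_smul_comm, mul_smul_comm, h1, h3,
        ← mul_assoc, h1]
    · rw [Unitization.snd_mul, add_mul, add_mul, smul_mul_assoc, smul_mul_assoc, h2, h4,
        mul_assoc, h4]
  one_mem' := by
    constructor
    · rw [Unitization.snd_one, mul_zero]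
    · rw [Unitization.snd_one, zero_mul]
  add_mem' {x y} hx hy := by
    obtain ⟨h1, h2⟩ := hx
    obtain ⟨h3, h4⟩ := hy
    constructor
    · rw [Unitization.snd_add, mul_add, h1, h3]
    · rw [Unitization.snd_add, add_mul, h2, h4]
  zero_mem' := by
    constructor
    · rw [Unitization.snd_zero, mul_zero]
    · rw [Unitization.snd_zero, zero_mul]
  neg_mem' {x} hx := by
    obtain ⟨h1, h2⟩ := hx
    constructor
    · rw [Unitization.snd_neg, mul_neg, h1]
    · rw [Unitization.snd_neg, neg_mul, h2]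

/-- matrices with entries in `Rm` -/
def Sm (p : J) (N : ℕ) : Subring (Matrix (Fin N) (Fin N) (Unitization ℂ J)) where
  carrier := {a | ∀ i j, a i j ∈ Rm p}
  mul_mem' {a b} ha hb := fun i j => by
    rw [Matrix.mul_apply]
    exact sum_mem fun k _ => mul_mem (ha i k) (hb k j)
  one_mem' := fun i j => by
    rw [Matrix.one_apply]
    split_ifs
    · exact one_mem _
    · exact zero_mem _
  add_mem' ha hb := fun i j => add_mem (ha i j) (hb i j)
  zero_mem' := fun i j => zero_mem _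
  neg_mem' ha := fun i j => neg_mem (ha i j)

theorem Sm_closed (p : J) (N : ℕ) :
    IsClosed (Sm p N : Set (Matrix (Fin N) (Fin N) (Unitization ℂ J))) := by
  have h : (Sm p N : Set (Matrix (Fin N) (Fin N) (Unitization ℂ J))) =
      ⋂ i, ⋂ j, ({a | p * (a i j).snd = (a i j).snd} ∩ {a | (a i j).snd * p = (a i j).snd}) := by
    ext a
    simp only [Set.mem_iInter]
    exact Iff.rfl
  rw [h]
  refine isClosed_iInter fun i => isClosed_iInter fun j => ?_
  have hc : Continuous fun a : Matrix (Fin N) (Fin N) (Unitization ℂ J) => (a i j).snd :=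
    Unitization.continuous_snd.comp (continuous_id.matrix_elem i j)
  exact (isClosed_eq (continuous_const.mul hc) hc).inter (isClosed_eq (hc.mul continuous_const) hc)

theorem rm_comm {p : J} {x : Unitization ℂ J} (hx : x ∈ Rm p) :
    x * (p : Unitization ℂ J) = (p : Unitization ℂ J) * x := by
  obtain ⟨h1, h2⟩ := hx
  apply un_ext
  · rw [Unitization.fst_mul, Unitization.fst_mul, Unitization.fst_inr, mul_zero, zero_mul]
  · rw [Unitization.snd_mul, Unitization.snd_mul, Unitization.fst_inr, Unitization.snd_inr, h1, h2]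
    abel

theorem rm_sca {p : J} {x : Unitization ℂ J} (hx : x ∈ Rm p) :
    x - x * (p : Unitization ℂ J) = sca J x - sca J x * (p : Unitization ℂ J) := by
  obtain ⟨h1, h2⟩ := hx
  rw [sca_apply]
  apply un_ext
  · rw [fst_sub', fst_sub', Unitization.fst_mul, Unitization.fst_mul,
      Unitization.fst_inr, mul_zero, mul_zero, scalar_fst]
  · rw [snd_sub', snd_sub', Unitization.snd_mul, Unitization.snd_mul,
      Unitization.fst_inr, Unitization.snd_inr, h2, scalar_fst, scalar_snd, zero_mul, zero_smul,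
      zero_smul]
    abel

theorem rm_sca_mem {p : J} (x : Unitization ℂ J) : sca J x ∈ Rm p := by
  rw [sca_apply]
  constructor
  · rw [scalar_snd, mul_zero]
  · rw [scalar_snd, zero_mul]

theorem bl_sub (θ : ℕ → ℕ → B →ₗ[ℂ] J) {ι : Type} {n : ℕ}
    (x y : Matrix (ι × Fin n) (ι × Fin n) B) : bl θ (x - y) = bl θ x - bl θ y := by
  ext1 i j
  rw [Matrix.sub_apply]
  simp only [bl, Matrix.sub_apply, map_sub, Finset.sum_sub_distrib, Unitization.inr_sub]

theorem bl_inj (hLM1 : Stmt_LM1) {θ : ℕ → ℕ → B →ₗ[ℂ] J} (hθ : IsStab θ) {N n : ℕ}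
    {x y : Matrix (Fin N × Fin n) (Fin N × Fin n) B} (h : bl θ x = bl θ y) : x = y := by
  obtain ⟨-, -, h3, -, -⟩ := hLM1 B J θ hθ (Fin N) n
  have h4 : bl θ (x - y) = 0 := by rw [bl_sub, h, sub_self]
  ext ⟨i, k⟩ ⟨j, l⟩
  have h5 := h3 (x - y) i k j l
  rw [h4] at h5
  have h6 : ‖((0 : Matrix (Fin N) (Fin N) (Unitization ℂ J)) i j).snd‖ = 0 := by
    rw [Matrix.zero_apply, Unitization.snd_zero, norm_zero]
  rw [h6] at h5
  have h7 := norm_le_zero_iff.1 h5
  rw [Matrix.sub_apply, sub_eq_zero] at h7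
  exact h7

/-- the part of an idempotent over `Rm` in the corner -/
theorem corner (hLM1 : Stmt_LM1) (hLM2 : Stmt_LM2) (hLM3 : Stmt_LM3)
    {θ : ℕ → ℕ → B →ₗ[ℂ] J} {e : B →⋆ₙₐ[ℂ] J}
    (hθ : IsStab θ) (he : ∀ b, e b = θ 0 0 b) {N n : ℕ}
    {f : Matrix (Fin N) (Fin N) (Unitization ℂ J)} (hf : f * f = f) (hfS : f ∈ Sm (pn θ n) N) :
    ∃ (g : Matrix (Fin N) (Fin N) (Unitization ℂ J)) (hg : g * g = g)
      (y : K0 B), g = f - f * PP θ (Fin N) n ∧
      c0 f hf = c0 g hg + K0.map ((inr J).comp (e : B →ₙ+* J)) y := by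
  obtain ⟨l1, l2, l3, l4, l5⟩ := hLM1 B J θ hθ (Fin N) n
  have hp := (hLM2 B J θ hθ).1 n
  set Q := PP θ (Fin N) n with hQ
  have hQQ : Q * Q = Q := by
    rw [hQ, PP, Matrix.diagonal_mul_diagonal]
    congr 1
    funext i
    rw [← Unitization.inr_mul, hp]
  have hcomm : f * Q = Q * f := by
    ext1 i j
    rw [hQ, PP, Matrix.mul_diagonal, Matrix.diagonal_mul]
    exact rm_comm (hfS i j)
  have hfQ : (f * Q) * (f * Q) = f * Q := by
    rw [Matrix.mul_assoc, ← Matrix.mul_assoc Q, ← hcomm, Matrix.mul_assoc f Q Q, hQQ,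
      ← Matrix.mul_assoc, hf]
  have hg : (f - f * Q) * (f - f * Q) = f - f * Q := by
    have h1 : f * (f * Q) = f * Q := by rw [← Matrix.mul_assoc, hf]
    have h2 : f * Q * f = f * Q := by rw [Matrix.mul_assoc, ← hcomm, h1]
    rw [sub_mul, mul_sub, mul_sub, hf, h1, h2, hfQ]
    abel
  have h0 : ∀ i j, ((f * Q) i j).fst = 0 := by
    intro i j
    rw [hQ, PP, Matrix.mul_diagonal, Unitization.fst_mul, Unitization.fst_inr, mul_zero]
  have hc : PP θ (Fin N) n * (f * Q) * PP θ (Fin N) n = f * Q := by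
    rw [← hQ, Matrix.mul_assoc, Matrix.mul_assoc, hQQ, ← Matrix.mul_assoc, ← hcomm,
      Matrix.mul_assoc, hQQ]
  obtain ⟨x, hx⟩ := l5 (f * Q) h0 hc
  have hxx : x * x = x := by
    apply bl_inj hLM1 hθ
    rw [l1, hx, hfQ]
  obtain ⟨hb, h3⟩ := hLM3 B J θ e hθ he (Fin N) n x hxx
  refine ⟨f - f * Q, hg, c0 x hxx, rfl, ?_⟩
  rw [← h3, c0_congr hx hb hfQ]
  have o1 : (f - f * Q) * (f * Q) = 0 := by
    rw [sub_mul, hfQ, ← Matrix.mul_assoc, hf, sub_self]
  have o2 : (f * Q) * (f - f * Q) = 0 := by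
    rw [mul_sub, hfQ, Matrix.mul_assoc, ← hcomm, ← Matrix.mul_assoc, hf, sub_self]
  rw [← c0_orth hg hfQ o1 o2]
  exact c0_congr (by abel) _ _

end

end SU0_

open SU0_ in
theorem su0_proof (hCLO : Stmt_CLO) (hNWT : Stmt_NWT) (hNF0 : Stmt_NF0) (hLM1 : Stmt_LM1)
    (hLM2 : Stmt_LM2) (hLM3 : Stmt_LM3) : Stmt_SU0 := by
  intro B J _ _ θ e hθ he x hx
  obtain ⟨N, P, hP, rfl⟩ := hNF0 J x hx
  obtain ⟨ε, hε, h1⟩ := hCLO (Unitization ℂ J) (Fin N) P hP
  obtain ⟨δ, hδ, h2⟩ := hNWT (Unitization ℂ J) (Fin N) P hP ε hε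
  obtain ⟨p1, p2, p3⟩ := hLM2 B J θ hθ
  choose n₀ hn₀ using fun i j => p3 (P i j).snd δ hδ
  obtain ⟨n, hn⟩ : ∃ n, ∀ i j, n₀ i j ≤ n := by
    refine ⟨Finset.univ.sup fun i => Finset.univ.sup fun j => n₀ i j, fun i j => ?_⟩
    exact (Finset.le_sup (f := fun j => n₀ i j) (Finset.mem_univ j)).trans
      (Finset.le_sup (f := fun i => Finset.univ.sup fun j => n₀ i j) (Finset.mem_univ i))
  have hpn := p1 n
  -- the compressed matrix
  obtain ⟨f, hfS, hf, hfe⟩ := h2 (Sm (pn θ n) N) (Sm_closed _ _)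
    (fun i j => algebraMap ℂ (Unitization ℂ J) (P i j).fst +
      ((pn θ n * (P i j).snd * pn θ n : J) : Unitization ℂ J))
    (fun i j => by
      have : (algebraMap ℂ (Unitization ℂ J) (P i j).fst +
          ((pn θ n * (P i j).snd * pn θ n : J) : Unitization ℂ J)).snd =
          pn θ n * (P i j).snd * pn θ n := by
        rw [Unitization.snd_add, scalar_snd, Unitization.snd_inr, zero_add]
      constructor
      · rw [this, ← mul_assoc, ← mul_assoc, hpn]
      · rw [this, mul_assoc, hpn])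
    (fun i j => by
      have : (algebraMap ℂ (Unitization ℂ J) (P i j).fst +
          ((pn θ n * (P i j).snd * pn θ n : J) : Unitization ℂ J)) - P i j =
          ((pn θ n * (P i j).snd * pn θ n - (P i j).snd : J) : Unitization ℂ J) := by
        apply un_ext
        · rw [fst_sub', Unitization.fst_add, scalar_fst, Unitization.fst_inr,
            Unitization.fst_inr, add_zero, sub_self]
        · rw [snd_sub', Unitization.snd_add, scalar_snd, Unitization.snd_inr,
            Unitization.snd_inr, zero_add]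
      rw [this, Unitization.norm_inr]
      exact (hn₀ i j n (hn i j)).2.2)
  have e1 : c0 P hP = c0 f hf := c0_eq hP hf (h1 f hf hfe).1
  have e2 : c0 (mm (sca J) P) (mm_idem (sca J) hP) = c0 (mm (sca J) f) (mm_idem (sca J) hf) := by
    rw [← K0.map_c0 (sca J) hP, ← K0.map_c0 (sca J) hf, e1]
  have hf0S : mm (sca J) f ∈ Sm (pn θ n) N := fun i j => rm_sca_mem _
  obtain ⟨g, hg, y, hge, hy⟩ := corner hLM1 hLM2 hLM3 hθ he hf hfS
  obtain ⟨g', hg', y', hge', hy'⟩ := corner hLM1 hLM2 hLM3 hθ he (mm_idem (sca J) hf) hf0S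
  have hgg : g = g' := by
    rw [hge, hge']
    ext1 i j
    rw [Matrix.sub_apply, Matrix.sub_apply, PP, Matrix.mul_diagonal, Matrix.mul_diagonal]
    exact rm_sca (hfS i j)
  refine ⟨y - y', ?_⟩
  rw [e1, e2, hy, hy', map_sub, c0_congr hgg hg hg']
  abel

end Pool.Agent.KCH
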