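import Pool.Agent.KCH.KStmts

/-!
# Squad KCH, module SU1: surjectivity for the stabilisation in `K_1`
-/

set_option autoImplicit false

namespace Pool.Agent.KCH

open TopologicalSpace

namespace SU1_

section
variable {B J : Type} [CStarAlgebra B] [NonUnitalCStarAlgebra J]

/-- the row matrix -/
noncomputable def V (θ : ℕ → ℕ → B →ₗ[ℂ] J) (ι : Type) [DecidableEq ι] (n : ℕ) :
    Matrix ι (ι × Fin n) (Unitization ℂ J) :=
  fun i p => if i = p.1 then inr J (θ p.2 0 1) else 0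

/-- the column matrix -/
noncomputable def V' (θ : ℕ → ℕ → B →ₗ[ℂ] J) (ι : Type) [DecidableEq ι] (n : ℕ) :
    Matrix (ι × Fin n) ι (Unitization ℂ J) :=
  fun p i => if i = p.1 then inr J (θ 0 p.2 1) else 0

theorem V'V {θ : ℕ → ℕ → B →ₗ[ℂ] J} {e : B →⋆ₙₐ[ℂ] J} (hθ : IsStab θ)
    (he : ∀ b, e b = θ 0 0 b) (ι : Type) [Fintype ι] [DecidableEq ι] (n : ℕ) :
    V' θ ι n * V θ ι n =
      mm ((inr J).comp (e : B →ₙ+* J)) (1 : Matrix (ι × Fin n) (ι × Fin n) B) := by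
  ext1 p q
  rcases p with ⟨i, k⟩
  rcases q with ⟨j, l⟩
  rw [Matrix.mul_apply, Finset.sum_eq_single i]
  · show (if i = i then inr J (θ 0 k 1) else 0) * (if i = j then inr J (θ l 0 1) else 0) =
      inr J (e ((1 : Matrix (ι × Fin n) (ι × Fin n) B) (i, k) (j, l)))
    rw [if_pos rfl, Matrix.one_apply]
    by_cases hij : i = j
    · subst hij
      rw [if_pos rfl]
      by_cases hkl : k = l
      · subst hkl
        rw [if_pos rfl, ← map_mul, hθ.mul_same, mul_one, he]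
      · have h1 : ((i, k) : ι × Fin n) ≠ (i, l) := fun h => hkl (congrArg Prod.snd h)
        have h2 : (k : ℕ) ≠ l := fun h => hkl (Fin.ext h)
        rw [if_neg h1, ← map_mul, hθ.mul_ne _ _ _ _ _ _ h2, map_zero, map_zero, map_zero]
    · have h1 : ((i, k) : ι × Fin n) ≠ (j, l) := fun h => hij (congrArg Prod.fst h)
      rw [if_neg hij, if_neg h1, mul_zero, map_zero, map_zero]
  · intro i' _ hi
    show (if i' = i then inr J (θ 0 k 1) else 0) * _ = 0
    rw [if_neg hi, zero_mul]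
  · intro h
    exact absurd (Finset.mem_univ _) h

theorem bl_eq {θ : ℕ → ℕ → B →ₗ[ℂ] J} {e : B →⋆ₙₐ[ℂ] J} (hθ : IsStab θ)
    (he : ∀ b, e b = θ 0 0 b) (ι : Type) [Fintype ι] [DecidableEq ι] (n : ℕ)
    (x : Matrix (ι × Fin n) (ι × Fin n) B) :
    V θ ι n * (mm ((inr J).comp (e : B →ₙ+* J)) x * V' θ ι n) = bl θ x := by
  ext1 i j
  have h1 : ∀ p : ι × Fin n, (mm ((inr J).comp (e : B →ₙ+* J)) x * V' θ ι n) p j =
      ∑ l : Fin n, inr J (θ 0 l (x p (j, l))) := by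
    intro p
    rw [Matrix.mul_apply, Fintype.sum_prod_type, Finset.sum_eq_single j]
    · refine Finset.sum_congr rfl fun l _ => ?_
      show inr J (e (x p (j, l))) * (if j = j then inr J (θ 0 l 1) else 0) = _
      rw [if_pos rfl, ← map_mul, he, hθ.mul_same, mul_one]
    · intro i' _ hi
      refine Finset.sum_eq_zero fun l _ => ?_
      show _ * (if j = i' then inr J (θ 0 l 1) else 0) = 0
      rw [if_neg (Ne.symm hi), mul_zero]
    · intro h
      exact absurd (Finset.mem_univ _) h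
  rw [Matrix.mul_apply, Fintype.sum_prod_type, Finset.sum_eq_single i]
  · have h2 : ∀ k : Fin n, V θ ι n i (i, k) *
        (mm ((inr J).comp (e : B →ₙ+* J)) x * V' θ ι n) (i, k) j =
        ∑ l : Fin n, inr J (θ k l (x (i, k) (j, l))) := by
      intro k
      rw [h1, Finset.mul_sum]
      refine Finset.sum_congr rfl fun l _ => ?_
      show (if i = i then inr J (θ k 0 1) else 0) * _ = _
      rw [if_pos rfl, ← map_mul, hθ.mul_same, one_mul]
    rw [Finset.sum_congr rfl fun k _ => h2 k]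
    show _ = inr J (∑ k : Fin n, ∑ l : Fin n, θ k l (x (i, k) (j, l)))
    rw [map_sum]
    refine Finset.sum_congr rfl fun k _ => ?_
    rw [map_sum]
  · intro i' _ hi
    refine Finset.sum_eq_zero fun k _ => ?_
    show (if i = i' then inr J (θ k 0 1) else 0) * _ = 0
    rw [if_neg (Ne.symm hi), zero_mul]
  · intro h
    exact absurd (Finset.mem_univ _) h

theorem PP_mul_apply (θ : ℕ → ℕ → B →ₗ[ℂ] J) (ι : Type) [Fintype ι] [DecidableEq ι] (n : ℕ)
    {a : Matrix ι ι (Unitization ℂ J)} (ha : ∀ i j, (a i j).fst = 0) (i j : ι) :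
    (PP θ ι n * a * PP θ ι n) i j = inr J (pn θ n * (a i j).snd * pn θ n) := by
  rw [PP, Matrix.mul_diagonal, Matrix.diagonal_mul, map_mul, map_mul, ← eq_inr (ha i j)]
  rfl

theorem PP_idem {θ : ℕ → ℕ → B →ₗ[ℂ] J} (ι : Type) [Fintype ι] [DecidableEq ι] (n : ℕ)
    (h : pn θ n * pn θ n = pn θ n) : PP θ ι n * PP θ ι n = PP θ ι n := by
  rw [PP, Matrix.diagonal_mul_diagonal]
  congr 1
  funext i
  rw [← Unitization.inr_mul, h]

end

end SU1_

open SU1_ in
theorem su1_proof (hSEG : Stmt_SEG) (hK1A : Stmt_K1A) (hAB1 : Stmt_AB1) (hNF1 : Stmt_NF1)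
    (hLM1 : Stmt_LM1) (hLM2 : Stmt_LM2) (hBLU : Stmt_BLU) : Stmt_SU1 := by
  intro B J _ _ θ e hce hθ he x hx
  obtain ⟨N, g, hg, hag, rfl⟩ := hNF1 J x hx
  obtain ⟨ε, hε, h1⟩ := hSEG (Unitization ℂ J) (Fin N) g hg
  obtain ⟨p1, p2, p3⟩ := hLM2 B J θ hθ
  have ha0 : ∀ i j, ((g - 1) i j).fst = 0 := by
    intro i j
    have h2 : mm (aug J) (g - 1) = 0 := by
      rw [mm_sub, hag, mm_one (aug J) aug_one, sub_self]
    exact congrFun (congrFun h2 i) j
  choose n₀ hn₀ using fun i j => p3 ((g - 1) i j).snd ε hε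
  obtain ⟨n, hn⟩ : ∃ n, ∀ i j, n₀ i j ≤ n := by
    refine ⟨Finset.univ.sup fun i => Finset.univ.sup fun j => n₀ i j, fun i j => ?_⟩
    exact (Finset.le_sup (f := fun j => n₀ i j) (Finset.mem_univ j)).trans
      (Finset.le_sup (f := fun i => Finset.univ.sup fun j => n₀ i j) (Finset.mem_univ i))
  have hQ := PP_idem (θ := θ) (Fin N) n (p1 n)
  obtain ⟨hu, hj⟩ := h1 (1 + PP θ (Fin N) n * (g - 1) * PP θ (Fin N) n) (by
    intro i j
    have h2 : (1 + PP θ (Fin N) n * (g - 1) * PP θ (Fin N) n) i j - g i j =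
        inr J (pn θ n * ((g - 1) i j).snd * pn θ n - ((g - 1) i j).snd) := by
      have h3 : (1 + PP θ (Fin N) n * (g - 1) * PP θ (Fin N) n) i j - g i j =
          (PP θ (Fin N) n * (g - 1) * PP θ (Fin N) n) i j - (g - 1) i j := by
        rw [Matrix.add_apply, Matrix.sub_apply]
        abel
      rw [h3, PP_mul_apply θ (Fin N) n ha0, map_sub, ← eq_inr (ha0 i j)]
    rw [h2]
    show ‖((pn θ n * ((g - 1) i j).snd * pn θ n - ((g - 1) i j).snd : J) :
      Unitization ℂ J)‖ < ε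
    rw [Unitization.norm_inr]
    exact (hn₀ i j n (hn i j)).2.2)
  obtain ⟨k1, k2, k3, k4, k5, k6, k7⟩ := hK1A (Unitization ℂ J)
  obtain ⟨l1, l2, l3, l4, l5⟩ := hLM1 B J θ hθ (Fin N) n
  obtain ⟨b, hb⟩ := l5 (PP θ (Fin N) n * (g - 1) * PP θ (Fin N) n) (by
    intro i j
    rw [PP_mul_apply θ (Fin N) n ha0, inr_fst]) (by
    rw [← Matrix.mul_assoc, ← Matrix.mul_assoc, hQ, Matrix.mul_assoc _ (PP θ (Fin N) n)
      (PP θ (Fin N) n), hQ])
  have hub : IsUnit (1 + b) := by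
    rw [← hBLU B J θ hθ (Fin N) n b, hb]
    exact hu
  refine ⟨c1 (1 + b) hub, ?_⟩
  rw [k2 (Fin N) g _ hg hu hj, K1.map_c1]
  have e1 : m1 ((inr J).comp (e : B →ₙ+* J)) (1 + b) =
      1 + (mm ((inr J).comp (e : B →ₙ+* J)) b * V' θ (Fin N) n) * V θ (Fin N) n := by
    rw [m1, add_sub_cancel_left, Matrix.mul_assoc, V'V hθ he, ← mm_mul, mul_one]
  have e2 : 1 + PP θ (Fin N) n * (g - 1) * PP θ (Fin N) n =
      1 + V θ (Fin N) n * (mm ((inr J).comp (e : B →ₙ+* J)) b * V' θ (Fin N) n) := by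
    rw [bl_eq hθ he, hb]
  have hu' : IsUnit (1 + V θ (Fin N) n *
      (mm ((inr J).comp (e : B →ₙ+* J)) b * V' θ (Fin N) n)) := e2 ▸ hu
  obtain ⟨h', hh'⟩ := hAB1 (Unitization ℂ J) (Fin N) (Fin N × Fin n) (V θ (Fin N) n)
    (mm ((inr J).comp (e : B →ₙ+* J)) b * V' θ (Fin N) n) hu'
  rw [c1_congr e1 _ h', c1_congr e2 hu hu', hh']

end Pool.Agent.KCH
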