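import Pool.Agent.KCH.RStmts

/-!
# Squad KCH, module TEL: the resolution of the identity (helper49)
-/

set_option autoImplicit false

namespace Pool.Agent.KCH

theorem tel_proof (hLWT : Stmt_LWT) (hITR : Stmt_ITR) : Stmt_TEL := by
  intro B _ u s hR M h N hW hN
  obtain ⟨-, -, hb, hc, -⟩ := hLWT N hN
  have hq := (hITR B u s hR M h hW).1
  have hn : (N : ℝ) ≠ 0 := by
    have : 0 < N := hN
    positivity
  have key : ∀ n, n ≤ N → ∑ k ∈ Finset.range n, (((bb N (k + 1) ^ 2 : ℝ) : ℂ) •
      itQ u s M h (k + 1) + ((cc N (k + 1) ^ 2 : ℝ) : ℂ) • itq u s M h (k + 1)) =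
      itQ u s M h 1 - ((1 - n / N : ℝ) : ℂ) • itQ u s M h (n + 1) := by
    intro n
    induction n with
    | zero =>
      intro _
      simp
    | succ n ih =>
      intro hle
      rw [Finset.sum_range_succ, ih (by omega), hb n (by omega), hc (n + 1) hle, hq (n + 1)]
      have e : ((1 - n / N : ℝ) : ℂ) = ((1 / N : ℝ) : ℂ) + ((1 - (n + 1 : ℕ) / N : ℝ) : ℂ) := by
        rw [← Complex.ofReal_add]
        congr 1
        push_cast
        field_simp
        ring
      rw [e, add_smul, smul_sub]
      abel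
  have hN0 := key N le_rfl
  rw [hN0, hq 0, div_self hn]
  simp only [sub_self, Complex.ofReal_zero, zero_smul, sub_zero]
  have : itQ u s M h 0 = 1 := rfl
  rw [this]
  abel

end Pool.Agent.KCH
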