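import Pool.Agent.KCH.RStmts

/-!
# Squad KCH, module UCC: unital completely positive maps are contractions.
-/

set_option autoImplicit false

namespace Pool.Agent.KCH

namespace UCC_

open scoped ComplexOrder

variable {A B : Type} [CStarAlgebra A] [CStarAlgebra B]

lemma cp_one {Φ : A →ₗ[ℂ] B} (h : IsCP Φ) (a : A) : ∃ c : B, Φ (star a * a) = star c * c := by
  obtain ⟨c, hc⟩ := h 1 ![a] ![1]
  refine ⟨c, ?_⟩
  rw [← hc]
  simp

lemma cp_two {Φ : A →ₗ[ℂ] B} (h : IsCP Φ) (h1 : Φ 1 = 1) (a : A) (b : B) :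
    ∃ c : B, Φ (star a * a) + Φ (star a) * b + star b * Φ a + star b * b = star c * c := by
  obtain ⟨c, hc⟩ := h 2 ![a, 1] ![1, b]
  refine ⟨c, ?_⟩
  rw [← hc]
  simp [Fin.sum_univ_two, h1, mul_assoc]
  abel

lemma cp_star {Φ : A →ₗ[ℂ] B} (h : IsCP Φ) (h1 : Φ 1 = 1) (a : A) :
    star (Φ a) = Φ (star a) := by
  obtain ⟨c0, hc0⟩ := cp_one h a
  obtain ⟨c1, hc1⟩ := cp_two h h1 a 1
  obtain ⟨c2, hc2⟩ := cp_two h h1 a (Complex.I • (1 : B))
  have s0 : star (Φ (star a * a)) = Φ (star a * a) := by rw [hc0]; simp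
  have s1 : star (Φ (star a) + Φ a) = Φ (star a) + Φ a := by
    have e1 : Φ (star a) + Φ a = star c1 * c1 - Φ (star a * a) - 1 := by
      rw [← hc1]
      simp
      abel
    rw [e1, star_sub, star_sub, s0]
    simp
  have s2 : star (Complex.I • Φ (star a) - Complex.I • Φ a) =
      Complex.I • Φ (star a) - Complex.I • Φ a := by
    have e1 : Complex.I • Φ (star a) - Complex.I • Φ a =
        star c2 * c2 - Φ (star a * a) - 1 := by
      rw [← hc2]
      have e2 : star (Complex.I • (1 : B)) = -(Complex.I • (1 : B)) := by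
        rw [star_smul, star_one, Complex.star_def, Complex.conj_I, neg_smul]
      rw [e2]
      have e3 : -(Complex.I • (1 : B)) * (Complex.I • (1 : B)) = 1 := by
        rw [neg_mul, smul_mul_smul_comm, one_mul, Complex.I_mul_I, neg_smul, one_smul, neg_neg]
      rw [e3, mul_smul_comm, mul_one, neg_mul, smul_mul_assoc, one_mul]
      abel
    rw [e1, star_sub, star_sub, s0]
    simp
  rw [star_add] at s1
  rw [star_sub, star_smul, star_smul, Complex.star_def, Complex.conj_I, neg_smul, neg_smul,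
    ← smul_neg, ← smul_neg, ← smul_sub, ← smul_sub] at s2
  have s3 := smul_right_injective B Complex.I_ne_zero s2
  have s4 : star (Φ a) + star (Φ a) = Φ (star a) + Φ (star a) := by
    calc star (Φ a) + star (Φ a) =
        (star (Φ (star a)) + star (Φ a)) + (-star (Φ (star a)) - -star (Φ a)) := by abel
      _ = (Φ (star a) + Φ a) + (Φ (star a) - Φ a) := by rw [s1, s3]
      _ = _ := by abel
  rw [← two_smul ℂ, ← two_smul ℂ] at s4
  exact smul_right_injective B (two_ne_zero : (2 : ℂ) ≠ 0) s4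

end UCC_

attribute [local instance] CStarAlgebra.spectralOrder CStarAlgebra.spectralOrderedRing

open UCC_ in
theorem ucc_proof : Stmt_UCC := by
  intro A B _ _ Φ h h1 a
  rcases subsingleton_or_nontrivial B with hB | hB
  · rw [Subsingleton.elim (Φ a) 0, norm_zero]
    exact norm_nonneg _
  have k1 : star (Φ a) * Φ a ≤ Φ (star a * a) := by
    obtain ⟨c, hc⟩ := cp_two h h1 a (-Φ a)
    have e : Φ (star a * a) - star (Φ a) * Φ a = star c * c := by
      rw [← hc, ← cp_star h h1 a]
      simp only [star_neg, neg_mul, mul_neg, neg_neg]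
      abel
    rw [← sub_nonneg, e]
    exact star_mul_self_nonneg c
  have k2 : Φ (star a * a) ≤ algebraMap ℝ B (‖a‖ ^ 2) := by
    have k3 : (0 : A) ≤ algebraMap ℝ A (‖a‖ ^ 2) - star a * a :=
      sub_nonneg.2 CStarAlgebra.star_mul_le_algebraMap_norm_sq
    obtain ⟨d, hd⟩ := CStarAlgebra.nonneg_iff_eq_star_mul_self.mp k3
    obtain ⟨c, hc⟩ := cp_one h d
    rw [← hd, map_sub] at hc
    have e : Φ (algebraMap ℝ A (‖a‖ ^ 2)) = algebraMap ℝ B (‖a‖ ^ 2) := by
      rw [Algebra.algebraMap_eq_smul_one, Algebra.algebraMap_eq_smul_one]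
      have e1 : ∀ (C : Type) [CStarAlgebra C] (r : ℝ), r • (1 : C) = (r : ℂ) • (1 : C) := by
        intro C _ r
        exact (Complex.coe_smul r (1 : C)).symm
      rw [e1, map_smul, h1, ← e1]
    rw [e] at hc
    rw [← sub_nonneg, hc]
    exact star_mul_self_nonneg c
  have k4 : ‖star (Φ a) * Φ a‖ ≤ ‖algebraMap ℝ B (‖a‖ ^ 2)‖ :=
    CStarAlgebra.norm_le_norm_of_nonneg_of_le (star_mul_self_nonneg _) (k1.trans k2)
  rw [CStarRing.norm_star_mul_self, norm_algebraMap', Real.norm_of_nonneg (by positivity)] at k4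
  nlinarith [norm_nonneg (Φ a), norm_nonneg a]

end Pool.Agent.KCH
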