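import Pool.Agent.KCH.KStmts

/-!
# Squad KCH, module UCP: compression of a path with small error
-/

set_option autoImplicit false

namespace Pool.Agent.KCH

open TopologicalSpace

namespace UCP_

variable {J : Type} [NonUnitalCStarAlgebra J]

theorem unif {p : ℕ → J} (hp : ∀ n, ‖p n‖ ≤ 1)
    (h : ∀ (y : J) (ε : ℝ), 0 < ε → ∃ n₀, ∀ n, n₀ ≤ n → ‖p n * y * p n - y‖ < ε)
    {f : ℝ → J} (hf : Continuous f) {ε : ℝ} (hε : 0 < ε) :
    ∃ n₀, ∀ n, n₀ ≤ n → ∀ t ∈ Set.Icc (0 : ℝ) 1, ‖p n * f t * p n - f t‖ < ε := by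
  have hK : IsCompact (f '' Set.Icc (0 : ℝ) 1) := isCompact_Icc.image hf
  obtain ⟨T, -, hT⟩ := hK.elim_nhds_subcover (fun y => Metric.ball y (ε / 3))
    (fun y _ => Metric.ball_mem_nhds y (by positivity))
  choose n₀ hn₀ using fun y => h y (ε / 3) (by positivity)
  refine ⟨T.sup n₀, fun n hn t ht => ?_⟩
  have h1 := hT ⟨t, ht, rfl⟩
  rw [Set.mem_iUnion₂] at h1
  obtain ⟨y, hy, hty⟩ := h1
  have h2 := hn₀ y n ((Finset.le_sup hy).trans hn)
  rw [Metric.mem_ball, dist_eq_norm] at hty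
  have e : p n * f t * p n - f t =
      p n * (f t - y) * p n + (p n * y * p n - y) + (y - f t) := by
    rw [mul_sub, sub_mul]
    abel
  have h3 : ‖p n * (f t - y) * p n‖ ≤ ‖f t - y‖ := by
    calc ‖p n * (f t - y) * p n‖ ≤ ‖p n * (f t - y)‖ * ‖p n‖ := norm_mul_le _ _
      _ ≤ ‖p n * (f t - y)‖ * 1 := mul_le_mul_of_nonneg_left (hp n) (norm_nonneg _)
      _ = ‖p n * (f t - y)‖ := mul_one _
      _ ≤ ‖p n‖ * ‖f t - y‖ := norm_mul_le _ _
      _ ≤ 1 * ‖f t - y‖ := mul_le_mul_of_nonneg_right (hp n) (norm_nonneg _)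
      _ = ‖f t - y‖ := one_mul _
  have h4 : ‖y - f t‖ = ‖f t - y‖ := norm_sub_rev _ _
  rw [e]
  have h5 := norm_add_le (p n * (f t - y) * p n + (p n * y * p n - y)) (y - f t)
  have h6 := norm_add_le (p n * (f t - y) * p n) (p n * y * p n - y)
  linarith

end UCP_

open UCP_ in
theorem ucp_proof (hLM2 : Stmt_LM2) : Stmt_UCP := by
  intro B J _ _ θ hθ ι _ _ γ hγ hfst ε hε
  obtain ⟨-, hp, happ⟩ := hLM2 B J θ hθ
  have key : ∀ q : ι × ι, ∃ n₀, ∀ n, n₀ ≤ n → ∀ t ∈ Set.Icc (0 : ℝ) 1,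
      ‖(PP θ ι n * γ t * PP θ ι n) q.1 q.2 - γ t q.1 q.2‖ < ε := by
    rintro ⟨i, j⟩
    have hf : Continuous fun t => (γ t i j).snd :=
      Unitization.continuous_snd.comp (hγ.matrix_elem i j)
    obtain ⟨n₀, hn₀⟩ := unif hp (fun y ε hε => by
      obtain ⟨n₀, h⟩ := happ y ε hε
      exact ⟨n₀, fun n hn => (h n hn).2.2⟩) hf hε
    refine ⟨n₀, fun n hn t ht => ?_⟩
    have e1 : γ t i j = (((γ t i j).snd : J) : Unitization ℂ J) := by
      refine Unitization.ext ?_ ?_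
      · rw [hfst t i j, Unitization.fst_inr]
      · rw [Unitization.snd_inr]
    have e2 : (PP θ ι n * γ t * PP θ ι n) i j - γ t i j =
        ((pn θ n * (γ t i j).snd * pn θ n - (γ t i j).snd : J) : Unitization ℂ J) := by
      unfold PP
      rw [Matrix.mul_diagonal, Matrix.diagonal_mul]
      rw [Unitization.inr_sub, Unitization.inr_mul, Unitization.inr_mul, ← e1]
    show ‖(PP θ ι n * γ t * PP θ ι n) i j - γ t i j‖ < ε
    rw [e2, Unitization.norm_inr]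
    exact hn₀ n hn t ht
  choose n₀ hn₀ using key
  refine ⟨Finset.univ.sup n₀, fun n hn t ht i j => ?_⟩
  exact hn₀ (i, j) n ((Finset.le_sup (Finset.mem_univ _)).trans hn) t ht

end Pool.Agent.KCH
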