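import Pool.Agent.KCH.KStmts

/-! # KCH UN1: unital algebras: `K_1(B) = ker (K_1(B^+) → K_1(ℂ))` -/

set_option autoImplicit false

namespace Pool.Agent.KCH

open TopologicalSpace

namespace UN1_

theorem map_congr {A B : Type} [NormedRing A] [NormedRing B] {f g : A →ₙ+* B} (h : f = g)
    (hf : Continuous f) (hg : Continuous g) (x : K1 A) : K1.map f hf x = K1.map g hg x := by
  subst h; rfl

theorem map_zero' (hAD : Stmt_AD1) (A B : Type) [CStarAlgebra A] [CStarAlgebra B]
    (f : A →ₙ+* B) (hf : Continuous f) (h0 : ∀ a, f a = 0) (x : K1 A) : K1.map f hf x = 0 := by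
  have h := hAD A B f f f hf hf hf (fun a => by rw [h0, add_zero])
    (fun a b => by rw [h0, zero_mul, mul_zero]; exact ⟨rfl, rfl⟩) x
  simpa using h

variable (B : Type) [CStarAlgebra B]

/-- the retraction `(λ, b) ↦ λ + b` -/
noncomputable def r : Unitization ℂ B →ₙ+* B where
  toFun x := algebraMap ℂ B x.fst + x.snd
  map_mul' x y := by
    rw [Unitization.fst_mul, Unitization.snd_mul, map_mul, add_mul, mul_add, mul_add,
      Algebra.smul_def, Algebra.smul_def, ← Algebra.commutes y.fst x.snd]
    abel
  map_zero' := by simp
  map_add' x y := by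
    rw [Unitization.fst_add, Unitization.snd_add, map_add]
    abel

theorem r_cont : Continuous (r B) := by
  show Continuous fun x : Unitization ℂ B => algebraMap ℂ B x.fst + x.snd
  exact ((continuous_algebraMap ℂ B).comp Unitization.continuous_fst).add
    Unitization.continuous_snd

/-- `λ ↦ (λ, -λ)` -/
noncomputable def eta : ℂ →ₙ+* Unitization ℂ B where
  toFun c := Unitization.inl c + ((-algebraMap ℂ B c : B) : Unitization ℂ B)
  map_mul' a b := by
    ext
    · simp
    · simp only [map_mul, Algebra.smul_def, Unitization.snd_mul, Unitization.snd_add,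
        Unitization.snd_inl, Unitization.snd_inr, Unitization.fst_add, Unitization.fst_inl,
        Unitization.fst_inr]
      simp
      exact Algebra.commutes a _
  map_zero' := by simp
  map_add' a b := by
    ext
    · simp
    · simp
      abel

theorem eta_cont : Continuous (eta B) := by
  show Continuous fun c : ℂ => (Unitization.inl c : Unitization ℂ B) +
    ((-algebraMap ℂ B c : B) : Unitization ℂ B)
  refine Continuous.add ?_ ?_
  · exact continuous_algebraMap ℂ (Unitization ℂ B)
  · exact Unitization.continuous_inr.comp (continuous_algebraMap ℂ B).neg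

end UN1_

open UN1_ in
theorem un1_proof (hAD1 : Stmt_AD1) : Stmt_UN1 := by
  intro B _
  have hmapid : ∀ y : K1 (Unitization ℂ B),
      y = K1.map (inr B) (inr_continuous B) (K1.map (r B) (r_cont B) y) +
        K1.map (eta B) (eta_cont B) (K1.map (aug B) (aug_continuous B) y) := by
    intro y
    have h := hAD1 (Unitization ℂ B) (Unitization ℂ B) ((inr B).comp (r B))
      ((eta B).comp (aug B)) (NonUnitalRingHom.id _) ((inr_continuous B).comp (r_cont B))
      ((eta_cont B).comp (aug_continuous B)) continuous_id
      (fun a => by
        show a = (((algebraMap ℂ B a.fst + a.snd : B)) : Unitization ℂ B) +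
          (Unitization.inl a.fst + ((-algebraMap ℂ B a.fst : B) : Unitization ℂ B))
        ext
        · simp
        · simp)
      (fun a b => by
        constructor
        · show (((algebraMap ℂ B a.fst + a.snd : B)) : Unitization ℂ B) *
            (Unitization.inl b.fst + ((-algebraMap ℂ B b.fst : B) : Unitization ℂ B)) = 0
          ext
          · simp
          · simp [Algebra.smul_def, Algebra.commutes]
        · show (Unitization.inl b.fst + ((-algebraMap ℂ B b.fst : B) : Unitization ℂ B)) *
            (((algebraMap ℂ B a.fst + a.snd : B)) : Unitization ℂ B) = 0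
          ext
          · simp
          · simp [Algebra.smul_def, Algebra.commutes]) y
    rw [K1.map_id, K1.map_comp, K1.map_comp] at h
    exact h
  refine ⟨?_, ?_, ?_⟩
  · intro x
    rw [← K1.map_comp]
    apply map_zero' hAD1
    intro a
    rfl
  · intro x x' hx
    have h : ∀ z : K1 B, K1.map (r B) (r_cont B) (K1.map (inr B) (inr_continuous B) z) = z := by
      intro z
      rw [← K1.map_comp]
      rw [map_congr (g := NonUnitalRingHom.id B) ?_ _ continuous_id, K1.map_id]
      ext b
      show algebraMap ℂ B 0 + b = b
      simp
    rw [← h x, hx, h x']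
  · intro y hy
    refine ⟨K1.map (r B) (r_cont B) y, ?_⟩
    have h := hmapid y
    rw [hy, map_zero, add_zero] at h
    exact h.symm

end Pool.Agent.KCH
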