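import Pool.Agent.KCH.RStmts

/-!
# Squad KCH, module UNI: the families give a unital map.
-/

set_option autoImplicit false

namespace Pool.Agent.KCH

namespace UNI_

variable {B : Type} [CStarAlgebra B]

lemma smul_real_star (x : ℝ) (y : B) :
    ((x : ℂ) • y) * star ((x : ℂ) • y) = ((x ^ 2 : ℝ) : ℂ) • (y * star y) := by
  rw [star_smul, Complex.star_def, Complex.conj_ofReal, smul_mul_smul_comm]
  congr 1
  push_cast
  ring

end UNI_

open UNI_ in
theorem uni_proof (hPWR : Stmt_PWR) (_hLWT : Stmt_LWT) (hDLB : Stmt_DLB) (hWSM : Stmt_WSM)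
    (hTEL : Stmt_TEL) : Stmt_UNI := by
  classical
  intro B _ u s hr M h N n hW hN hn
  obtain ⟨p0, -, padd, pstar, -⟩ := hPWR B u s hr
  obtain ⟨dstar, -, -, -⟩ := hDLB B u s hr M h hW
  have hnr : (0 : ℝ) < n := by exact_mod_cast hn
  have hpp : ∀ m : ℤ, pw u m * star (pw u m) = 1 := by
    intro m
    rw [pstar, ← padd, add_neg_cancel, p0]
  -- the two terms
  have t0 : ∀ p : XX, rr u s M h N n 0 p * star (rr u s M h N n 0 p) =
      ((1 / (n : ℝ) * ((bb N p.1.length) ^ 2 * hw h p.1 ^ 2) : ℝ) : ℂ) •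
        (Sw u s p.1 * 1 * star (Sw u s p.1)) := by
    intro p
    have e : rr u s M h N n 0 p = ((√(1 / n) * bb N p.1.length * hw h p.1 : ℝ) : ℂ) •
      (Sw u s p.1 * pw u p.2) := by
      simp [rr]
    rw [e, smul_real_star]
    congr 1
    · congr 1
      rw [mul_pow, mul_pow, Real.sq_sqrt (by positivity)]
      ring
    · rw [star_mul, mul_one, mul_assoc, ← mul_assoc (pw u p.2), hpp, one_mul]
  have t1 : ∀ p : XX, rr u s M h N n 1 p * star (rr u s M h N n 1 p) =
      ((1 / (n : ℝ) * ((cc N p.1.length) ^ 2 * hw h p.1 ^ 2) : ℝ) : ℂ) •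
        (Sw u s p.1 * (Del u s M h * Del u s M h) * star (Sw u s p.1)) := by
    intro p
    have e : rr u s M h N n 1 p = ((√(1 / n) * cc N p.1.length * hw h p.1 : ℝ) : ℂ) •
      (Sw u s p.1 * Del u s M h * pw u p.2) := by
      simp [rr]
    rw [e, smul_real_star]
    congr 1
    · congr 1
      rw [mul_pow, mul_pow, Real.sq_sqrt (by positivity)]
      ring
    · rw [star_mul, star_mul, dstar]
      calc Sw u s p.1 * Del u s M h * pw u p.2 *
            (star (pw u p.2) * (Del u s M h * star (Sw u s p.1))) =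
          Sw u s p.1 * Del u s M h * (pw u p.2 * star (pw u p.2)) *
            (Del u s M h * star (Sw u s p.1)) := by simp only [mul_assoc]
        _ = _ := by rw [hpp]; simp only [mul_assoc, mul_one]
  -- a general sum
  have hdisj : ∀ (f : List ℤ → B), ∑ μ ∈ (Finset.range (N + 1)).biUnion (WS M), f μ =
      ∑ k ∈ Finset.range (N + 1), ∑ μ ∈ WS M k, f μ := by
    intro f
    refine Finset.sum_biUnion ?_
    intro k _ l _ hkl
    rw [Function.onFun, Finset.disjoint_left]
    intro μ h1 h2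
    have m1 := ((hWSM B u s M h 1).1 k μ).1 h1
    have m2 := ((hWSM B u s M h 1).1 l μ).1 h2
    exact hkl (m1.1.symm.trans m2.1)
  have hgen : ∀ (w : ℕ → ℝ) (y : B), ∑ p ∈ IS M N n,
      ((1 / (n : ℝ) * ((w p.1.length) ^ 2 * hw h p.1 ^ 2) : ℝ) : ℂ) •
        (Sw u s p.1 * y * star (Sw u s p.1)) =
      ∑ k ∈ Finset.range (N + 1), ((w k ^ 2 : ℝ) : ℂ) • itL u s M h k y := by
    intro w y
    rw [IS, Finset.sum_product, hdisj]
    refine Finset.sum_congr rfl fun k _ => ?_
    rw [← (hWSM B u s M h y).2.1 k, Finset.smul_sum]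
    refine Finset.sum_congr rfl fun μ hμ => ?_
    have hl : μ.length = k := (((hWSM B u s M h 1).1 k μ).1 hμ).1
    show ∑ _m ∈ (Finset.range n).map Nat.castEmbedding,
      (((1 / (n : ℝ) * ((w μ.length) ^ 2 * hw h μ ^ 2) : ℝ) : ℂ) •
      (Sw u s μ * y * star (Sw u s μ))) = _
    rw [Finset.sum_const, Finset.card_map, Finset.card_range]
    rw [hl, ← Nat.cast_smul_eq_nsmul ℂ, smul_smul, smul_smul]
    congr 1
    have hc : (n : ℂ) ≠ 0 := by exact_mod_cast hnr.ne'
    push_cast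
    field_simp
  have htel := hTEL B u s hr M h N hW hN
  have hLWT := _hLWT N hN
  obtain ⟨-, -, -, -, -, -, hb0, hc0, -, -⟩ := hLWT
  rw [Fin.sum_univ_two, Finset.sum_congr rfl (fun p _ => t0 p),
    Finset.sum_congr rfl (fun p _ => t1 p), hgen (bb N) 1,
    hgen (cc N) (Del u s M h * Del u s M h), ← Finset.sum_add_distrib, Finset.sum_range_succ']
  rw [hb0, hc0]
  have e0 : ((((0 : ℝ) ^ 2 : ℝ) : ℂ) • itL u s M h 0 (1 : B) +
      (((1 : ℝ) ^ 2 : ℝ) : ℂ) • itL u s M h 0 (Del u s M h * Del u s M h)) =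
      itq u s M h 0 := by
    rw [itq]
    simp
  rw [e0]
  exact htel

end Pool.Agent.KCH
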