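import Pool.Agent.KCH.RStmts

/-!
# Squad KCH, module UNV: the universal property
-/

set_option autoImplicit false

namespace Pool.Agent.KCH

open TopologicalSpace
open scoped ComplexOrder InnerProductSpace

namespace UNV_

/-- words -/
abbrev Wd : Type := List ℤ × ℤ × List ℤ

theorem key (hNUC : Stmt_NUC) {B : Type} [CStarAlgebra B] {u s : B} (hr : Rel u s)
    (c : Wd →₀ ℂ) :
    ‖c.sum fun w a => a • Mo u s w‖ ≤ ‖c.sum fun w a => a • Mo U S w‖ := by
  refine le_of_forall_pos_le_add fun ε hε => ?_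
  obtain ⟨K, hK⟩ : ∃ K : ℝ, K = ∑ w ∈ c.support, ‖c w‖ + 1 := ⟨_, rfl⟩
  have hK0 : 0 < K := by
    rw [hK]
    have : 0 ≤ ∑ w ∈ c.support, ‖c w‖ := Finset.sum_nonneg fun _ _ => norm_nonneg _
    linarith
  obtain ⟨n, φ, -, -, h⟩ := hNUC c.support (ε / K) (by positivity)
  obtain ⟨ψ, -, -, hc, hw⟩ := h B u s hr
  have h1 : ψ (φ (c.sum fun w a => a • Mo U S w)) =
      ∑ w ∈ c.support, c w • ψ (φ (Mo U S w)) := by
    rw [Finsupp.sum, map_sum, map_sum]
    exact Finset.sum_congr rfl fun w _ => by rw [map_smul, map_smul]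
  have h2 : (c.sum fun w a => a • Mo u s w) = ψ (φ (c.sum fun w a => a • Mo U S w)) -
      ∑ w ∈ c.support, c w • (ψ (φ (Mo U S w)) - Mo u s w) := by
    rw [h1, Finsupp.sum, ← Finset.sum_sub_distrib]
    refine Finset.sum_congr rfl fun w _ => ?_
    rw [smul_sub, sub_sub_cancel]
  rw [h2]
  refine (norm_sub_le _ _).trans (add_le_add (hc _) ?_)
  have h3 : ∑ w ∈ c.support, ‖c w • (ψ (φ (Mo U S w)) - Mo u s w)‖ ≤
      ∑ w ∈ c.support, ‖c w‖ * (ε / K) := by
    refine Finset.sum_le_sum fun w hw' => ?_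
    rw [norm_smul]
    exact mul_le_mul_of_nonneg_left (hw w hw').le (norm_nonneg _)
  refine (norm_sum_le _ _).trans (h3.trans ?_)
  rw [← Finset.sum_mul, mul_div_assoc', div_le_iff₀ hK0]
  have h4 : ∑ w ∈ c.support, ‖c w‖ ≤ K := by linarith
  nlinarith

section prod

variable {A B : Type} [Ring A] [StarRing A] [Ring B] [StarRing B]

theorem pw_prod (u : A) (v : B) (k : ℤ) : pw (u, v) k = (pw u k, pw v k) := by
  cases k with
  | ofNat n => rfl
  | negSucc n => rfl

theorem Sw_prod (u s : A) (v t : B) (α : List ℤ) :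
    Sw (u, v) (s, t) α = (Sw u s α, Sw v t α) := by
  induction α with
  | nil => rfl
  | cons k α ih =>
    rw [Sw, ih, pw_prod, Sw, Sw]
    rfl

theorem Mo_prod (u s : A) (v t : B) (w : Wd) :
    Mo (u, v) (s, t) w = (Mo u s w, Mo v t w) := by
  rw [Mo, Sw_prod, Sw_prod, pw_prod]
  rfl

theorem Rel_prod {u s : A} {v t : B} (h : Rel u s) (h' : Rel v t) : Rel (u, v) (s, t) where
  uu := Prod.ext h.uu h'.uu
  uu' := Prod.ext h.uu' h'.uu'
  ss := Prod.ext h.ss h'.ss
  orth := fun k hk => Prod.ext (h.orth k hk) (h'.orth k hk)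

end prod

section gen

variable {B : Type} [Ring B] [StarRing B]

theorem Mo_star (hPWR : Stmt_PWR) {u s : B} (h : Rel u s) (w : Wd) :
    star (Mo u s w) = Mo u s (w.2.2, -w.2.1, w.1) := by
  rw [Mo, Mo, star_mul, star_mul, star_star, (hPWR B u s h).2.2.2.1, mul_assoc]

theorem Mo_one (hPWR : Stmt_PWR) {u s : B} (h : Rel u s) : Mo u s ([], 0, []) = 1 := by
  rw [Mo, (hPWR B u s h).1, Sw, star_one, mul_one, mul_one]

theorem Mo_u (hPWR : Stmt_PWR) {u s : B} (h : Rel u s) : Mo u s ([], 1, []) = u := by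
  rw [Mo, (hPWR B u s h).2.1, Sw, star_one, mul_one, one_mul]

theorem Mo_s (hPWR : Stmt_PWR) {u s : B} (h : Rel u s) : Mo u s ([0], 0, []) = s := by
  have e0 := (hPWR B u s h).1
  have e1 : Sw u s [0] = pw u 0 * s * 1 := rfl
  have e2 : Sw u s [] = 1 := rfl
  show Sw u s [0] * pw u 0 * star (Sw u s []) = s
  rw [e1, e2, e0, star_one, mul_one, mul_one, mul_one, one_mul]

end gen

end UNV_

open UNV_ in
theorem unv_proof (hPWR : Stmt_PWR) (hMUL : Stmt_MUL) (hFRL : Stmt_FRL) (hSPN : Stmt_SPN)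
    (hNUC : Stmt_NUC) : Stmt_UNV := by
  intro B _ u s hr
  have hR : Rel ((U, u) : Bd XX × B) (S, s) := Rel_prod hFRL hr
  obtain ⟨M0, hM0⟩ : ∃ M0 : Submodule ℂ (Bd XX × B),
    M0 = Submodule.span ℂ (Set.range (Mo ((U, u) : Bd XX × B) (S, s))) := ⟨_, rfl⟩
  have hgen : ∀ w, Mo ((U, u) : Bd XX × B) (S, s) w ∈ M0 := fun w => by
    rw [hM0]
    exact Submodule.subset_span ⟨w, rfl⟩
  have hmul : ∀ x ∈ M0, ∀ y ∈ M0, x * y ∈ M0 := by
    intro x hx y hy
    rw [hM0] at hx hy
    induction hx, hy using Submodule.span_induction₂ with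
    | mem_mem x y hx hy =>
      obtain ⟨w, rfl⟩ := hx
      obtain ⟨w', rfl⟩ := hy
      rcases hMUL w w' with ⟨w'', h⟩ | h
      · rw [h _ _ _ hR]
        exact hgen w''
      · rw [h _ _ _ hR]
        exact M0.zero_mem
    | zero_left y hy => rw [zero_mul]; exact M0.zero_mem
    | zero_right x hx => rw [mul_zero]; exact M0.zero_mem
    | add_left x y z _ _ _ h1 h2 => rw [add_mul]; exact M0.add_mem h1 h2
    | add_right x y z _ _ _ h1 h2 => rw [mul_add]; exact M0.add_mem h1 h2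
    | smul_left r x y _ _ h => rw [smul_mul_assoc]; exact M0.smul_mem r h
    | smul_right r x y _ _ h => rw [mul_smul_comm]; exact M0.smul_mem r h
  have hstar : ∀ x ∈ M0, star x ∈ M0 := by
    intro x hx
    rw [hM0] at hx
    induction hx using Submodule.span_induction with
    | mem x hx =>
      obtain ⟨w, rfl⟩ := hx
      rw [Mo_star hPWR hR]
      exact hgen _
    | zero => rw [star_zero]; exact M0.zero_mem
    | add x y _ _ h1 h2 => rw [star_add]; exact M0.add_mem h1 h2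
    | smul r x _ h => rw [star_smul]; exact M0.smul_mem _ h
  have hn0 : ∀ z ∈ M0, ‖z.2‖ ≤ ‖z.1‖ := by
    intro z hz
    rw [hM0, Finsupp.mem_span_range_iff_exists_finsupp] at hz
    obtain ⟨c, rfl⟩ := hz
    have e1 : (c.sum fun w a => a • Mo ((U, u) : Bd XX × B) (S, s) w) =
        (c.sum fun w a => a • Mo U S w, c.sum fun w a => a • Mo u s w) := by
      rw [Finsupp.sum, Finsupp.sum, Finsupp.sum]
      refine Prod.ext ?_ ?_
      · rw [Prod.fst_sum]
        exact Finset.sum_congr rfl fun w _ => by rw [Mo_prod]; rfl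
      · rw [Prod.snd_sum]
        exact Finset.sum_congr rfl fun w _ => by rw [Mo_prod]; rfl
    rw [e1]
    exact key hNUC hr c
  -- the closure
  obtain ⟨Γ, hΓ⟩ : ∃ Γ : Submodule ℂ (Bd XX × B), Γ = M0.topologicalClosure := ⟨_, rfl⟩
  have hΓs : (Γ : Set (Bd XX × B)) = closure (M0 : Set (Bd XX × B)) := by
    rw [hΓ]
    exact Submodule.topologicalClosure_coe M0
  have hΓmem : ∀ z, z ∈ Γ ↔ z ∈ closure (M0 : Set (Bd XX × B)) := fun z => by
    rw [← hΓs]
    rfl
  have hΓc : IsClosed (Γ : Set (Bd XX × B)) := by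
    rw [hΓs]
    exact isClosed_closure
  have hsub : ∀ z ∈ M0, z ∈ Γ := fun z hz => (hΓmem z).2 (subset_closure hz)
  have hn : ∀ z ∈ Γ, ‖z.2‖ ≤ ‖z.1‖ := by
    intro z hz
    have h1 : IsClosed {z : Bd XX × B | ‖z.2‖ ≤ ‖z.1‖} :=
      isClosed_le (continuous_snd.norm) (continuous_fst.norm)
    exact closure_minimal (fun z hz => hn0 z hz) h1 ((hΓmem z).1 hz)
  have hmulΓ : ∀ x ∈ Γ, ∀ y ∈ Γ, x * y ∈ Γ := by
    intro x hx y hy
    rw [hΓmem] at hx hy ⊢
    exact map_mem_closure₂ continuous_mul hx hy fun a ha b hb => hmul a ha b hb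
  have hstarΓ : ∀ x ∈ Γ, star x ∈ Γ := by
    intro x hx
    rw [hΓmem] at hx ⊢
    exact map_mem_closure continuous_star hx fun a ha => hstar a ha
  have huniq : ∀ (x : Bd XX) (b b' : B), (x, b) ∈ Γ → (x, b') ∈ Γ → b = b' := by
    intro x b b' h h'
    have h1 := hn _ (Γ.sub_mem h h')
    have h2 : ‖b - b'‖ ≤ ‖x - x‖ := h1
    rw [sub_self, norm_zero] at h2
    exact sub_eq_zero.1 (norm_le_zero_iff.1 h2)
  have hex : ∀ a : AA, ∃ b, (pA a, b) ∈ Γ := by
    intro a
    have hcs : CompleteSpace Γ := hΓc.completeSpace_coe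
    obtain ⟨f, hf⟩ : ∃ f : Γ →ₗ[ℂ] Bd XX, ∀ z : Γ, f z = (z : Bd XX × B).1 :=
      ⟨(LinearMap.fst ℂ (Bd XX) B).comp Γ.subtype, fun _ => rfl⟩
    have hiso : Isometry f := by
      refine AddMonoidHomClass.isometry_of_norm f fun z => ?_
      rw [hf]
      exact (max_eq_left (hn z z.2)).symm
    have hcl : IsClosed (Set.range f) := hiso.isClosedEmbedding.isClosed_range
    have h1 : (Submodule.span ℂ (Set.range (Mo U S)) : Set (Bd XX)) ⊆ Set.range f := by
      have h2 : Submodule.span ℂ (Set.range (Mo U S)) ≤ LinearMap.range f := by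
        rw [Submodule.span_le]
        rintro _ ⟨w, rfl⟩
        refine ⟨⟨Mo ((U, u) : Bd XX × B) (S, s) w, hsub _ (hgen w)⟩, ?_⟩
        rw [hf]
        show (Mo ((U, u) : Bd XX × B) (S, s) w).1 = _
        rw [Mo_prod]
      intro x hx
      exact h2 hx
    have h3 : pA a ∈ closure (Submodule.span ℂ (Set.range (Mo U S)) : Set (Bd XX)) := by
      rw [← hSPN]
      exact pA_mem a
    obtain ⟨z, hz⟩ := closure_minimal h1 hcl h3
    refine ⟨(z : Bd XX × B).2, ?_⟩
    rw [← hz, hf]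
    exact z.2
  choose f hf using hex
  have hone : ((1 : Bd XX), (1 : B)) ∈ Γ := by
    have h1 := hsub _ (hgen ([], 0, []))
    rw [Mo_one hPWR hR] at h1
    exact h1
  have hfuniq : ∀ (a : AA) (b : B), (pA a, b) ∈ Γ → f a = b := fun a b h => huniq _ _ _ (hf a) h
  refine ⟨{ toFun := f, map_one' := ?_, map_mul' := ?_, map_zero' := ?_, map_add' := ?_,
            commutes' := ?_, map_star' := ?_ }, ?_, ?_⟩
  · apply hfuniq
    rw [map_one]
    exact hone
  · intro a b
    apply hfuniq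
    rw [map_mul]
    exact hmulΓ _ (hf a) _ (hf b)
  · apply hfuniq
    rw [map_zero]
    exact Γ.zero_mem
  · intro a b
    apply hfuniq
    rw [map_add]
    exact Γ.add_mem (hf a) (hf b)
  · intro r
    apply hfuniq
    have h1 : pA (algebraMap ℂ AA r) = algebraMap ℂ (Bd XX) r := AlgHomClass.commutes pA r
    have h2 : ((algebraMap ℂ (Bd XX) r, algebraMap ℂ B r) : Bd XX × B) =
        r • ((1 : Bd XX), (1 : B)) := by
      rw [Algebra.algebraMap_eq_smul_one, Algebra.algebraMap_eq_smul_one]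
      rfl
    rw [h1, h2]
    exact Γ.smul_mem r hone
  · intro a
    apply hfuniq
    have h1 := hstarΓ ((pA a, f a) : Bd XX × B) (hf a)
    have h2 : star ((pA a, f a) : Bd XX × B) = (pA (star a), star (f a)) :=
      Prod.ext (map_star pA a).symm rfl
    rw [h2] at h1
    exact h1
  · apply hfuniq
    rw [pA_uA]
    have h1 := hsub _ (hgen ([], 1, []))
    rw [Mo_u hPWR hR] at h1
    exact h1
  · apply hfuniq
    rw [pA_sA]
    have h1 := hsub _ (hgen ([0], 0, []))
    rw [Mo_s hPWR hR] at h1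
    exact h1

end Pool.Agent.KCH
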