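import Pool.Agent.KCH.KStmts

/-!
# Squad KCH, module UOP: uniform openness along a compact path of invertible matrices
-/

set_option autoImplicit false

namespace Pool.Agent.KCH

open TopologicalSpace

namespace UOP_

theorem aux {A ι : Type} [NormedRing A] [Fintype ι] [DecidableEq ι] (V : Set (ι → ι → A))
    (hV : IsOpen V) (γ : ℝ → (ι → ι → A)) (hγ : Continuous γ)
    (h : ∀ t ∈ Set.Icc (0 : ℝ) 1, γ t ∈ V) : ∃ ε : ℝ, 0 < ε ∧ ∀ t ∈ Set.Icc (0 : ℝ) 1,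
      ∀ x : ι → ι → A, (∀ i j, ‖x i j - γ t i j‖ < ε) → x ∈ V := by
  have hK : IsCompact (γ '' Set.Icc (0 : ℝ) 1) := isCompact_Icc.image hγ
  obtain ⟨δ, hδ, hsub⟩ := hK.exists_thickening_subset_open hV (by
    rintro _ ⟨t, ht, rfl⟩
    exact h t ht)
  refine ⟨δ, hδ, fun t ht x hx => hsub ?_⟩
  rw [Metric.mem_thickening_iff]
  refine ⟨γ t, ⟨t, ht, rfl⟩, ?_⟩
  rw [dist_pi_lt_iff hδ]
  intro i
  rw [dist_pi_lt_iff hδ]
  intro j
  rw [dist_eq_norm]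
  exact hx i j

end UOP_

theorem uop_proof (hMTB : Stmt_MTB) : Stmt_UOP := by
  intro A _ _ ι _ _ γ hγ hu
  obtain ⟨hopen, -, -⟩ := hMTB A ι
  exact UOP_.aux (A := A) (ι := ι) {a : Matrix ι ι A | IsUnit a} hopen γ hγ hu

end Pool.Agent.KCH
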