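import Pool.Agent.KCH.RStmts

/-!
# Squad KCH, module UPF: completely positive maps through matrix algebras
-/

set_option autoImplicit false

namespace Pool.Agent.KCH

open TopologicalSpace
open scoped ComplexOrder InnerProductSpace

namespace UPF_

open Matrix in
open scoped MatrixOrder in
theorem psd_factor {m : Type} [Fintype m] [DecidableEq m] {A : Matrix m m ℂ}
    (hA : A.PosSemidef) : ∃ C : Matrix m m ℂ, A = Cᴴ * C :=
  CStarAlgebra.nonneg_iff_eq_star_mul_self.mp hA.nonneg

attribute [local instance] CStarAlgebra.spectralOrder CStarAlgebra.spectralOrderedRing in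
theorem sumsq {B : Type} [CStarAlgebra B] {τ : Type} (s : Finset τ) (y : τ → B) :
    ∃ c : B, ∑ t ∈ s, star (y t) * y t = star c * c :=
  CStarAlgebra.nonneg_iff_eq_star_mul_self.mp (Finset.sum_nonneg fun _ _ => star_mul_self_nonneg _)

/-- the main computation -/
theorem comp {B : Type} [CStarAlgebra B] {κ ρ : Type} [Fintype κ] [Fintype ρ] {N n : ℕ}
    (C : ρ → Fin N → Fin n → ℂ) (r : κ → Fin n → B) (b : Fin N → B) :
    ∑ i, ∑ j, star (b i) * (∑ p, ∑ q, (∑ t, star (C t i p) * C t j q) •
      ∑ k, r k p * star (r k q)) * b j =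
    ∑ x : κ × ρ, star (∑ j, ∑ q, C x.2 j q • (star (r x.1 q) * b j)) *
      (∑ j, ∑ q, C x.2 j q • (star (r x.1 q) * b j)) := by
  have h1 : ∀ x : κ × ρ, star (∑ j, ∑ q, C x.2 j q • (star (r x.1 q) * b j)) *
      (∑ j, ∑ q, C x.2 j q • (star (r x.1 q) * b j)) =
      ∑ i, ∑ j, ∑ p, ∑ q, (star (C x.2 i p) * C x.2 j q) •
        (star (b i) * (r x.1 p * star (r x.1 q)) * b j) := by
    intro x
    rw [star_sum, Finset.sum_mul]
    refine Finset.sum_congr rfl fun i _ => ?_
    rw [Finset.mul_sum]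
    refine Finset.sum_congr rfl fun j _ => ?_
    rw [star_sum, Finset.sum_mul]
    refine Finset.sum_congr rfl fun p _ => ?_
    rw [Finset.mul_sum]
    refine Finset.sum_congr rfl fun q _ => ?_
    rw [star_smul, smul_mul_smul_comm, star_mul, star_star]
    congr 1
    simp only [mul_assoc]
  rw [Finset.sum_congr rfl (fun x _ => h1 x), Fintype.sum_prod_type]
  -- the left hand side
  have h2 : ∀ i j, star (b i) * (∑ p, ∑ q, (∑ t, star (C t i p) * C t j q) •
      ∑ k, r k p * star (r k q)) * b j =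
      ∑ k, ∑ t, ∑ p, ∑ q, (star (C t i p) * C t j q) •
        (star (b i) * (r k p * star (r k q)) * b j) := by
    intro i j
    have h3 : ∀ p q, star (b i) * ((∑ t, star (C t i p) * C t j q) •
        ∑ k, r k p * star (r k q)) * b j = ∑ k, ∑ t, (star (C t i p) * C t j q) •
        (star (b i) * (r k p * star (r k q)) * b j) := by
      intro p q
      rw [mul_smul_comm, smul_mul_assoc, Finset.mul_sum, Finset.sum_mul, Finset.smul_sum]
      refine Finset.sum_congr rfl fun k _ => ?_
      rw [Finset.sum_smul]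
    rw [Finset.mul_sum, Finset.sum_mul]
    have h4 : ∀ p, star (b i) * (∑ q, (∑ t, star (C t i p) * C t j q) •
        ∑ k, r k p * star (r k q)) * b j = ∑ q, ∑ k, ∑ t, (star (C t i p) * C t j q) •
        (star (b i) * (r k p * star (r k q)) * b j) := by
      intro p
      rw [Finset.mul_sum, Finset.sum_mul]
      exact Finset.sum_congr rfl fun q _ => h3 p q
    rw [Finset.sum_congr rfl (fun p _ => h4 p)]
    -- p q k t -> k t p q
    calc ∑ p, ∑ q, ∑ k, ∑ t, (star (C t i p) * C t j q) •
        (star (b i) * (r k p * star (r k q)) * b j)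
        = ∑ p, ∑ k, ∑ q, ∑ t, (star (C t i p) * C t j q) •
        (star (b i) * (r k p * star (r k q)) * b j) :=
          Finset.sum_congr rfl fun p _ => Finset.sum_comm
      _ = ∑ k, ∑ p, ∑ q, ∑ t, (star (C t i p) * C t j q) •
        (star (b i) * (r k p * star (r k q)) * b j) := Finset.sum_comm
      _ = ∑ k, ∑ p, ∑ t, ∑ q, (star (C t i p) * C t j q) •
        (star (b i) * (r k p * star (r k q)) * b j) :=
          Finset.sum_congr rfl fun k _ => Finset.sum_congr rfl fun p _ => Finset.sum_comm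
      _ = _ := Finset.sum_congr rfl fun k _ => Finset.sum_comm
  rw [Finset.sum_congr rfl (fun i _ => Finset.sum_congr rfl (fun j _ => h2 i j))]
  calc ∑ i, ∑ j, ∑ k, ∑ t, ∑ p, ∑ q, (star (C t i p) * C t j q) •
        (star (b i) * (r k p * star (r k q)) * b j)
      = ∑ i, ∑ k, ∑ j, ∑ t, ∑ p, ∑ q, (star (C t i p) * C t j q) •
        (star (b i) * (r k p * star (r k q)) * b j) :=
          Finset.sum_congr rfl fun i _ => Finset.sum_comm
    _ = ∑ k, ∑ i, ∑ j, ∑ t, ∑ p, ∑ q, (star (C t i p) * C t j q) •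
        (star (b i) * (r k p * star (r k q)) * b j) := Finset.sum_comm
    _ = ∑ k, ∑ i, ∑ t, ∑ j, ∑ p, ∑ q, (star (C t i p) * C t j q) •
        (star (b i) * (r k p * star (r k q)) * b j) :=
          Finset.sum_congr rfl fun k _ => Finset.sum_congr rfl fun i _ => Finset.sum_comm
    _ = _ := Finset.sum_congr rfl fun k _ => Finset.sum_comm

/-- the entries -/
noncomputable def phi {X : Type} {n : ℕ} (pt : Fin n → X) :
    Bd X →ₗ[ℂ] Matrix (Fin n) (Fin n) ℂ where
  toFun x := Matrix.of fun i j => inner ℂ (ee (pt i)) (x (ee (pt j)))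
  map_add' x y := by
    ext i j
    simp only [Matrix.of_apply, Matrix.add_apply, ContinuousLinearMap.add_apply, inner_add_right]
  map_smul' c x := by
    ext i j
    simp only [Matrix.of_apply, Matrix.smul_apply, ContinuousLinearMap.smul_apply,
      inner_smul_right, RingHom.id_apply, smul_eq_mul]

theorem phi_apply {X : Type} {n : ℕ} (pt : Fin n → X) (x : Bd X) (i j : Fin n) :
    phi pt x i j = inner ℂ (ee (pt i)) (x (ee (pt j))) := rfl

theorem phi_star_mul {X : Type} {n : ℕ} (pt : Fin n → X) (x y : Bd X) (i j : Fin n) :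
    phi pt (star x * y) i j = inner ℂ (x (ee (pt i))) (y (ee (pt j))) := by
  rw [phi_apply, ContinuousLinearMap.star_eq_adjoint, ContinuousLinearMap.mul_apply,
    ContinuousLinearMap.adjoint_inner_right]

/-- the map out of the matrix algebra -/
noncomputable def psi {B : Type} [CStarAlgebra B] {κ : Type} [Fintype κ] {n : ℕ}
    (r : κ → Fin n → B) : Matrix (Fin n) (Fin n) ℂ →ₗ[ℂ] B where
  toFun x := ∑ p, ∑ q, x p q • ∑ k, r k p * star (r k q)
  map_add' x y := by
    simp only [Matrix.add_apply, add_smul, Finset.sum_add_distrib]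
  map_smul' c x := by
    simp only [Matrix.smul_apply, smul_eq_mul, RingHom.id_apply, Finset.smul_sum, mul_smul]

theorem psi_apply {B : Type} [CStarAlgebra B] {κ : Type} [Fintype κ] {n : ℕ}
    (r : κ → Fin n → B) (x : Matrix (Fin n) (Fin n) ℂ) :
    psi r x = ∑ p, ∑ q, x p q • ∑ k, r k p * star (r k q) := rfl

/-- factorisation of the Gram matrix -/
theorem gramC {X : Type} {n N : ℕ} (pt : Fin n → X) (a : Fin N → Bd X) :
    ∃ C : Fin N × Fin n → Fin N → Fin n → ℂ, ∀ i j p q,
      phi pt (star (a i) * a j) p q = ∑ t, star (C t i p) * C t j q := by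
  obtain ⟨C, hC⟩ := psd_factor (Matrix.posSemidef_gram ℂ
    (fun x : Fin N × Fin n => a x.1 (ee (pt x.2))))
  refine ⟨fun t i p => C t (i, p), fun i j p q => ?_⟩
  rw [phi_star_mul]
  have h1 := congrFun (congrFun hC (i, p)) (j, q)
  rw [Matrix.gram_apply, Matrix.mul_apply] at h1
  rw [h1]
  rfl

theorem phi_cp {X : Type} {n : ℕ} (pt : Fin n → X) : IsCP (phi pt) := by
  intro N a b
  have hG := Matrix.posSemidef_gram ℂ (fun x : Fin N × Fin n => a x.1 (ee (pt x.2)))
  have h1 := hG.conjTranspose_mul_mul_same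
    (Matrix.of fun (x : Fin N × Fin n) (u : Fin n) => b x.1 x.2 u)
  obtain ⟨c, hc⟩ := psd_factor h1
  refine ⟨c, ?_⟩
  rw [Matrix.star_eq_conjTranspose, ← hc]
  ext u v
  rw [Matrix.sum_apply, Matrix.mul_apply, Fintype.sum_prod_type]
  have h2 : ∀ i j, (star (b i) * phi pt (star (a i) * a j) * b j) u v =
      ∑ q, ∑ p, star (b i p u) * phi pt (star (a i) * a j) p q * b j q v := by
    intro i j
    rw [Matrix.mul_apply]
    refine Finset.sum_congr rfl fun q _ => ?_
    rw [Matrix.mul_apply, Finset.sum_mul]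
    rfl
  have h3 : ∀ i, (∑ j, star (b i) * phi pt (star (a i) * a j) * b j) u v =
      ∑ j, ∑ q, ∑ p, star (b i p u) * phi pt (star (a i) * a j) p q * b j q v := by
    intro i
    rw [Matrix.sum_apply]
    exact Finset.sum_congr rfl fun j _ => h2 i j
  rw [Finset.sum_congr rfl (fun i _ => h3 i)]
  have h4 : ∀ j q, ((Matrix.of fun (x : Fin N × Fin n) (u : Fin n) => b x.1 x.2 u).conjTranspose *
      Matrix.gram ℂ (fun x : Fin N × Fin n => a x.1 (ee (pt x.2)))) u (j, q) *
      (Matrix.of fun (x : Fin N × Fin n) (u : Fin n) => b x.1 x.2 u) (j, q) v =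
      ∑ i, ∑ p, star (b i p u) * phi pt (star (a i) * a j) p q * b j q v := by
    intro j q
    rw [Matrix.mul_apply, Fintype.sum_prod_type, Finset.sum_mul]
    refine Finset.sum_congr rfl fun i _ => ?_
    rw [Finset.sum_mul]
    refine Finset.sum_congr rfl fun p _ => ?_
    rw [phi_star_mul, Matrix.gram_apply]
    rfl
  rw [Finset.sum_congr rfl (fun j _ => Finset.sum_congr rfl (fun q _ => h4 j q))]
  rw [Finset.sum_comm]
  exact Finset.sum_congr rfl fun j _ => Finset.sum_comm

theorem psi_cp {B : Type} [CStarAlgebra B] {κ : Type} [Fintype κ] {n : ℕ}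
    (r : κ → Fin n → B) : IsCP (psi r) := by
  intro N a b
  have h1 := comp (fun (t : Fin n) (i : Fin N) (p : Fin n) => a i t p) r b
  obtain ⟨c, hc⟩ := sumsq (Finset.univ : Finset (κ × Fin n))
    (fun x => ∑ j, ∑ q, a j x.2 q • (star (r x.1 q) * b j))
  refine ⟨c, ?_⟩
  rw [← hc, ← h1]
  refine Finset.sum_congr rfl fun i _ => Finset.sum_congr rfl fun j _ => ?_
  rw [psi_apply]
  congr 2

theorem psiphi_cp {X : Type} {B : Type} [CStarAlgebra B] {κ : Type} [Fintype κ] {n : ℕ}
    (pt : Fin n → X) (r : κ → Fin n → B) : IsCP ((psi r).comp (phi pt)) := by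
  intro N a b
  obtain ⟨C, hC⟩ := gramC pt a
  have h1 := comp C r b
  obtain ⟨c, hc⟩ := sumsq (Finset.univ : Finset (κ × (Fin N × Fin n)))
    (fun x => ∑ j, ∑ q, C x.2 j q • (star (r x.1 q) * b j))
  refine ⟨c, ?_⟩
  rw [← hc, ← h1]
  refine Finset.sum_congr rfl fun i _ => Finset.sum_congr rfl fun j _ => ?_
  rw [LinearMap.comp_apply, psi_apply]
  congr 2
  refine Finset.sum_congr rfl fun p _ => Finset.sum_congr rfl fun q _ => ?_
  rw [hC i j p q]

end UPF_

open UPF_ in
theorem upf_proof (hUCC : Stmt_UCC) : Stmt_UPF := by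
  intro X ι
  classical
  set pt : Fin ι.card → X := fun i => (ι.equivFin.symm i : X) with hpt
  have hinj : Function.Injective pt := Subtype.val_injective.comp ι.equivFin.symm.injective
  have hsum : ∀ (M : Type) [AddCommMonoid M] (f : X → M), ∑ i, f (pt i) = ∑ p ∈ ι, f p := by
    intro M _ f
    rw [← Finset.sum_coe_sort ι f]
    exact Equiv.sum_comp ι.equivFin.symm (fun x : ι => f x)
  have hphi1 : phi pt 1 = 1 := by
    ext i j
    rw [phi_apply, ContinuousLinearMap.one_apply, inner_ee_ee, Matrix.one_apply]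
    by_cases h : i = j
    · rw [if_pos h, if_pos (by rw [h])]
    · rw [if_neg h, if_neg fun h' => h (hinj h')]
  refine ⟨ι.card, phi pt, phi_cp pt, hphi1, ?_⟩
  intro B _ κ _ r hr
  set r' : κ → Fin ι.card → B := fun k i => r k (pt i) with hr'
  have hpsi1 : psi r' 1 = 1 := by
    rw [psi_apply]
    have h1 : ∀ p : Fin ι.card, ∑ q, (1 : Matrix (Fin ι.card) (Fin ι.card) ℂ) p q •
        ∑ k, r' k p * star (r' k q) = ∑ k, r' k p * star (r' k p) := by
      intro p
      rw [Finset.sum_eq_single p]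
      · rw [Matrix.one_apply_eq, one_smul]
      · intro q _ hq
        rw [Matrix.one_apply_ne hq.symm, zero_smul]
      · intro h
        exact absurd (Finset.mem_univ p) h
    rw [Finset.sum_congr rfl (fun p _ => h1 p), ← hr, Finset.sum_comm]
    exact Finset.sum_congr rfl fun k _ => hsum B (fun p => r k p * star (r k p))
  refine ⟨psi r', psi_cp r', hpsi1, fun x => ?_, fun x => ?_⟩
  · rw [psi_apply, ← hsum B (fun p => ∑ q ∈ ι, (inner ℂ (ee p) (x (ee q)) : ℂ) •
        ∑ k, r k p * star (r k q))]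
    refine Finset.sum_congr rfl fun i _ => ?_
    rw [← hsum B (fun q => (inner ℂ (ee (pt i)) (x (ee q)) : ℂ) •
        ∑ k, r k (pt i) * star (r k q))]
    rfl
  · have h1 := hUCC (Bd X) B ((psi r').comp (phi pt)) (psiphi_cp pt r') (by
      rw [LinearMap.comp_apply, hphi1, hpsi1]) x
    exact h1

end Pool.Agent.KCH
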