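import Pool.Agent.KCH.RStmts

/-!
# Squad KCH, module WRD: words
-/

set_option autoImplicit false

namespace Pool.Agent.KCH

theorem wrd_proof (hPWR : Stmt_PWR) : Stmt_WRD := by
  intro B _ _ u s hus
  obtain ⟨h0, -, hadd, hstar, hmid⟩ := hPWR B u s hus
  have happ : ∀ α β, Sw u s (α ++ β) = Sw u s α * Sw u s β := by
    intro α β
    induction α with
    | nil => simp [Sw]
    | cons k α ih => simp only [List.cons_append, Sw, ih, mul_assoc]
  have hkk : ∀ k l, star (pw u k * s) * (pw u l * s) = if k = l then 1 else 0 := by
    intro k l
    rw [star_mul, hstar]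
    have : star s * pw u (-k) * (pw u l * s) = star s * pw u (-k + l) * s := by
      rw [hadd]; simp only [mul_assoc]
    rw [this, hmid]
    by_cases hkl : k = l
    · rw [if_pos hkl, if_pos (by omega)]
    · rw [if_neg hkl, if_neg (by omega)]
  have hcons : ∀ k α l β, star (Sw u s (k :: α)) * Sw u s (l :: β) =
      if k = l then star (Sw u s α) * Sw u s β else 0 := by
    intro k α l β
    have : star (Sw u s (k :: α)) * Sw u s (l :: β) =
        star (Sw u s α) * (star (pw u k * s) * (pw u l * s)) * Sw u s β := by
      simp only [Sw, star_mul, mul_assoc]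
    rw [this, hkk]
    split_ifs <;> simp
  refine ⟨happ, ?_, ?_, ?_⟩
  · intro m α hα
    cases α with
    | nil => exact absurd rfl hα
    | cons k α =>
      simp only [Sw, sh]
      rw [add_comm k m, hadd]
      simp only [mul_assoc]
  · intro α
    induction α with
    | nil => simp [Sw]
    | cons k α ih => rw [hcons, if_pos rfl, ih]
  · intro α
    induction α with
    | nil =>
      intro β h1 _
      exact absurd ⟨β, rfl⟩ h1
    | cons k α ih =>
      intro β h1 h2
      cases β with
      | nil => exact absurd ⟨k :: α, rfl⟩ h2
      | cons l β =>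
        rw [hcons]
        by_cases hkl : k = l
        · rw [if_pos hkl]
          subst hkl
          refine ih β ?_ ?_
          · rintro ⟨ρ, rfl⟩
            exact h1 ⟨ρ, rfl⟩
          · rintro ⟨ρ, rfl⟩
            exact h2 ⟨ρ, rfl⟩
        · rw [if_neg hkl]

end Pool.Agent.KCH
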