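import Pool.Agent.KCH.RStmts

/-!
# Squad KCH, module WTS: slowly varying weights
-/

set_option autoImplicit false

namespace Pool.Agent.KCH

namespace WTS_

/-- the angle -/
noncomputable def th (δ K : ℝ) (k : ℤ) : ℝ :=
  min (Real.pi / 2) (max 0 (δ * (|(k : ℝ)| - K)))

theorem th_nonneg (δ K : ℝ) (k : ℤ) : 0 ≤ th δ K k :=
  le_min (by positivity) (le_max_left _ _)

theorem th_le (δ K : ℝ) (k : ℤ) : th δ K k ≤ Real.pi / 2 := min_le_left _ _

theorem th_diff (δ K : ℝ) (hδ : 0 ≤ δ) (k l : ℤ) :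
    |th δ K (k + l) - th δ K k| ≤ δ * |(l : ℝ)| := by
  unfold th
  refine (abs_min_sub_min_le_max _ _ _ _).trans ?_
  rw [sub_self, abs_zero]
  refine max_le (by positivity) ?_
  refine (abs_max_sub_max_le_max _ _ _ _).trans ?_
  rw [sub_self, abs_zero]
  refine max_le (by positivity) ?_
  have h1 : δ * (|((k + l : ℤ) : ℝ)| - K) - δ * (|(k : ℝ)| - K) =
      δ * (|((k + l : ℤ) : ℝ)| - |(k : ℝ)|) := by ring
  rw [h1, abs_mul, abs_of_nonneg hδ]
  refine mul_le_mul_of_nonneg_left ?_ hδ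
  refine (abs_abs_sub_abs_le _ _).trans ?_
  push_cast
  rw [add_sub_cancel_left]

theorem sqrt_eq (δ K : ℝ) (k : ℤ) :
    √(1 - Real.cos (th δ K k) ^ 2) = Real.sin (th δ K k) := by
  have h1 : 1 - Real.cos (th δ K k) ^ 2 = Real.sin (th δ K k) ^ 2 := by
    have := Real.sin_sq_add_cos_sq (th δ K k)
    linarith
  rw [h1, Real.sqrt_sq]
  refine Real.sin_nonneg_of_nonneg_of_le_pi (th_nonneg _ _ _) ?_
  have := th_le δ K k
  have := Real.pi_pos
  linarith

theorem cos_diff (x y : ℝ) : |Real.cos x - Real.cos y| ≤ |x - y| := by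
  have h := Real.lipschitzWith_cos.dist_le_mul x y
  simpa [Real.dist_eq] using h

theorem sin_diff (x y : ℝ) : |Real.sin x - Real.sin y| ≤ |x - y| := by
  have h := Real.lipschitzWith_sin.dist_le_mul x y
  simpa [Real.dist_eq] using h

end WTS_

open WTS_ in
theorem wts_proof : Stmt_WTS := by
  intro K L ε hε
  obtain ⟨δ, hδ⟩ : ∃ δ : ℝ, δ = ε / (L + 1) := ⟨_, rfl⟩
  have hL1 : (0 : ℝ) < L + 1 := by positivity
  have hδ0 : 0 < δ := hδ ▸ div_pos hε hL1
  have hδL : δ * (L + 1) = ε := by rw [hδ, div_mul_cancel₀ _ hL1.ne']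
  refine ⟨fun k => Real.cos (th δ K k), K + ⌈(Real.pi / 2) / δ⌉₊, ⟨?_, ?_, ?_⟩, ?_, ?_⟩
  · intro k
    refine Real.cos_nonneg_of_neg_pi_div_two_le_of_le ?_ (th_le _ _ _)
    have := th_nonneg δ K k
    have := Real.pi_pos
    linarith
  · intro k
    exact Real.cos_le_one _
  · intro k hk
    have h1 : ((K + ⌈(Real.pi / 2) / δ⌉₊ : ℕ) : ℝ) < |(k : ℝ)| := by
      have : (((K + ⌈(Real.pi / 2) / δ⌉₊ : ℕ) : ℤ) : ℝ) < ((|k| : ℤ) : ℝ) := by exact_mod_cast hk
      rw [Int.cast_abs] at this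
      exact_mod_cast this
    push_cast at h1
    have h2 := Nat.le_ceil ((Real.pi / 2) / δ)
    have h3 : (Real.pi / 2) / δ ≤ |(k : ℝ)| - K := by linarith
    rw [div_le_iff₀ hδ0] at h3
    have h4 : th δ K k = Real.pi / 2 := by
      unfold th
      refine min_eq_left ((le_max_right _ _).trans' ?_)
      linarith
    show Real.cos (th δ K k) = 0
    rw [h4, Real.cos_pi_div_two]
  · intro k hk
    have h1 : |(k : ℝ)| ≤ K := by
      have : ((|k| : ℤ) : ℝ) ≤ ((K : ℤ) : ℝ) := by exact_mod_cast hk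
      rw [Int.cast_abs] at this
      exact_mod_cast this
    have h4 : th δ K k = 0 := by
      unfold th
      have h5 : max 0 (δ * (|(k : ℝ)| - K)) = 0 := by
        refine max_eq_left ?_
        refine mul_nonpos_of_nonneg_of_nonpos hδ0.le ?_
        linarith
      rw [h5]
      exact min_eq_right (by positivity)
    show Real.cos (th δ K k) = 1
    rw [h4, Real.cos_zero]
  · intro k l hl
    have h1 : |(l : ℝ)| ≤ L := by
      have : ((|l| : ℤ) : ℝ) ≤ ((L : ℤ) : ℝ) := by exact_mod_cast hl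
      rw [Int.cast_abs] at this
      exact_mod_cast this
    have h2 : |th δ K (k + l) - th δ K k| ≤ ε := by
      refine (th_diff δ K hδ0.le k l).trans ?_
      rw [← hδL]
      refine mul_le_mul_of_nonneg_left ?_ hδ0.le
      linarith
    refine ⟨(cos_diff _ _).trans h2, ?_⟩
    show |√(1 - Real.cos (th δ K (k + l)) ^ 2) - √(1 - Real.cos (th δ K k) ^ 2)| ≤ ε
    rw [sqrt_eq, sqrt_eq]
    exact (sin_diff _ _).trans h2

end Pool.Agent.KCH
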