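import Pool.Agent.KCH.PWR
import Pool.Agent.KCH.WRD
import Pool.Agent.KCH.MUL
import Pool.Agent.KCH.FRL
import Pool.Agent.KCH.MBA
import Pool.Agent.KCH.SPN
import Pool.Agent.KCH.PIA
import Pool.Agent.KCH.SPA
import Pool.Agent.KCH.SPC
import Pool.Agent.KCH.LWT
import Pool.Agent.KCH.UCC
import Pool.Agent.KCH.UPF
import Pool.Agent.KCH.WTS
import Pool.Agent.KCH.LMB
import Pool.Agent.KCH.DLB
import Pool.Agent.KCH.ITR
import Pool.Agent.KCH.WSM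
import Pool.Agent.KCH.TEL
import Pool.Agent.KCH.UNI
import Pool.Agent.KCH.FRA
import Pool.Agent.KCH.FRM
import Pool.Agent.KCH.ESA
import Pool.Agent.KCH.EST
import Pool.Agent.KCH.NUC
import Pool.Agent.KCH.UNV
import Pool.Agent.KCH.NCA
import Pool.Agent.KCH.ADD
import Pool.Agent.KCH.ABS
import Pool.Agent.KCH.RLH
import Pool.Agent.KCH.RHO
import Pool.Agent.KCH.PSI
import Pool.Agent.KCH.JJM
import Pool.Agent.KCH.JSP
import Pool.Agent.KCH.JST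
import Pool.Agent.KCH.EEM
import Pool.Agent.KCH.ESP
import Pool.Agent.KCH.DIF
import Pool.Agent.KCH.KKB
import Pool.Agent.KCH.MTB
import Pool.Agent.KCH.UOP
import Pool.Agent.KCH.SEG
import Pool.Agent.KCH.CLO
import Pool.Agent.KCH.AEQ
import Pool.Agent.KCH.NWT
import Pool.Agent.KCH.GLC
import Pool.Agent.KCH.CR0
import Pool.Agent.KCH.CNJ
import Pool.Agent.KCH.AD0
import Pool.Agent.KCH.UN0
import Pool.Agent.KCH.HT0
import Pool.Agent.KCH.NF0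
import Pool.Agent.KCH.SP0
import Pool.Agent.KCH.LM1
import Pool.Agent.KCH.LM2
import Pool.Agent.KCH.LM3
import Pool.Agent.KCH.SU0
import Pool.Agent.KCH.IN0
import Pool.Agent.KCH.KF0
import Pool.Agent.KCH.PTH
import Pool.Agent.KCH.K1A
import Pool.Agent.KCH.CR1
import Pool.Agent.KCH.AB1
import Pool.Agent.KCH.AD1
import Pool.Agent.KCH.UN1
import Pool.Agent.KCH.NF1
import Pool.Agent.KCH.EXC
import Pool.Agent.KCH.LFJ
import Pool.Agent.KCH.SP1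
import Pool.Agent.KCH.BLU
import Pool.Agent.KCH.UCP
import Pool.Agent.KCH.SU1
import Pool.Agent.KCH.IN1
import Pool.Agent.KCH.KF1
import Pool.Agent.KCH.CBP
import Pool.Agent.KCH.CBC
import Pool.Agent.KCH.CB0
import Pool.Agent.KCH.CK0
import Pool.Agent.KCH.LAU
import Pool.Agent.KCH.SMA
import Pool.Agent.KCH.SMF
import Pool.Agent.KCH.SC1
import Pool.Agent.KCH.GE1
import Pool.Agent.KCH.LOG
import Pool.Agent.KCH.CK1
import Pool.Agent.KCH.OLD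
import Pool.Agent.KCH.Fin

/-!
# Squad KCH: assembly
-/

set_option autoImplicit false

namespace Pool.Agent.KCH

theorem t_PWR : Stmt_PWR :=
  pwr_proof

theorem t_WRD : Stmt_WRD :=
  wrd_proof t_PWR

theorem t_MUL : Stmt_MUL :=
  mul_proof t_PWR t_WRD

theorem t_FRL : Stmt_FRL :=
  frl_proof

theorem t_MBA : Stmt_MBA :=
  mba_proof t_PWR t_WRD t_FRL

theorem t_SPN : Stmt_SPN :=
  spn_proof t_PWR t_MUL t_FRL

theorem t_PIA : Stmt_PIA :=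
  PIA_proof t_PWR t_WRD t_FRL t_MBA t_SPN

theorem t_SPA : Stmt_SPA :=
  spa_proof t_SPN

theorem t_SPC : Stmt_SPC :=
  spc_proof t_FRL

theorem t_LWT : Stmt_LWT :=
  lwt_proof

theorem t_UCC : Stmt_UCC :=
  ucc_proof

theorem t_UPF : Stmt_UPF :=
  upf_proof t_UCC

theorem t_WTS : Stmt_WTS :=
  wts_proof

theorem t_LMB : Stmt_LMB :=
  lmb_proof t_PWR

theorem t_DLB : Stmt_DLB :=
  dlb_proof t_PWR t_LMB

theorem t_ITR : Stmt_ITR :=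
  itr_proof t_PWR t_LMB t_DLB

theorem t_WSM : Stmt_WSM :=
  wsm_proof

theorem t_TEL : Stmt_TEL :=
  tel_proof t_LWT t_ITR

theorem t_UNI : Stmt_UNI :=
  uni_proof t_PWR t_LWT t_DLB t_WSM t_TEL

theorem t_FRA : Stmt_FRA :=
  fra_proof t_MBA

theorem t_FRM : Stmt_FRM :=
  frm_proof t_PWR t_WRD t_LWT t_DLB t_WSM t_FRA

theorem t_ESA : Stmt_ESA :=
  esa_proof t_PWR t_WRD t_LWT t_LMB t_DLB t_ITR t_TEL t_FRM

theorem t_EST : Stmt_EST :=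
  est_proof t_WTS t_ESA

theorem t_NUC : Stmt_NUC :=
  nuc_proof t_UPF t_UNI t_EST

theorem t_UNV : Stmt_UNV :=
  unv_proof t_PWR t_MUL t_FRL t_SPN t_NUC

theorem t_NCA : Stmt_NCA :=
  nca_proof t_SPN t_FRL t_NUC

theorem t_ADD : Stmt_ADD :=
  ADD_proof

theorem t_ABS : Stmt_ABS :=
  abs_proof t_ADD

theorem t_RLH : Stmt_RLH :=
  rlh_proof t_FRL

theorem t_RHO : Stmt_RHO :=
  rho_proof t_UNV

theorem t_PSI : Stmt_PSI :=
  psi_proof t_UNV t_RLH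

theorem t_JJM : Stmt_JJM :=
  jjm_proof

theorem t_JSP : Stmt_JSP :=
  jsp_proof t_JJM

theorem t_JST : Stmt_JST :=
  jst_proof t_JJM

theorem t_EEM : Stmt_EEM :=
  eem_proof t_FRL t_JJM

theorem t_ESP : Stmt_ESP :=
  esp_proof t_JSP t_EEM

theorem t_DIF : Stmt_DIF :=
  dif_proof t_FRL t_JJM

theorem t_KKB : Stmt_KKB :=
  kkb_proof t_ABS t_RHO t_PSI t_JSP t_JST t_EEM t_ESP t_DIF

theorem t_MTB : Stmt_MTB :=
  mtb_proof

theorem t_UOP : Stmt_UOP :=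
  uop_proof t_MTB

theorem t_SEG : Stmt_SEG :=
  seg_proof t_MTB

theorem t_CLO : Stmt_CLO :=
  CLO_proof t_MTB

theorem t_AEQ : Stmt_AEQ :=
  AEQ_proof t_MTB

theorem t_NWT : Stmt_NWT :=
  nwt_proof

theorem t_GLC : Stmt_GLC :=
  glc_proof

theorem t_CR0 : Stmt_CR0 :=
  cr0_proof

theorem t_CNJ : Stmt_CNJ :=
  t_cnj 

theorem t_AD0 : Stmt_AD0 :=
  ad0_proof

theorem t_UN0 : Stmt_UN0 :=
  un0_proof t_AD0

theorem t_HT0 : Stmt_HT0 :=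
  t_ht0 t_CLO

theorem t_NF0 : Stmt_NF0 :=
  nf0_proof

theorem t_SP0 : Stmt_SP0 :=
  sp0_proof t_NF0 t_CR0 t_CNJ

theorem t_LM1 : Stmt_LM1 :=
  lm1_proof

theorem t_LM2 : Stmt_LM2 :=
  lm2_proof

theorem t_LM3 : Stmt_LM3 :=
  lm3_proof

theorem t_SU0 : Stmt_SU0 :=
  su0_proof t_CLO t_NWT t_NF0 t_LM1 t_LM2 t_LM3

theorem t_IN0 : Stmt_IN0 :=
  in0_proof t_CR0 t_AEQ t_LM1 t_LM2

theorem t_KF0 : Stmt_KF0 :=
  kf0_proof t_UN0 t_HT0 t_SP0 t_SU0 t_IN0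

theorem t_PTH : Stmt_PTH :=
  pth_proof t_MTB t_GLC

theorem t_K1A : Stmt_K1A :=
  k1a_proof t_PTH

theorem t_CR1 : Stmt_CR1 :=
  cr1_proof t_PTH

theorem t_AB1 : Stmt_AB1 :=
  ab1_proof t_PTH t_K1A

theorem t_AD1 : Stmt_AD1 :=
  ad1_proof t_K1A

theorem t_UN1 : Stmt_UN1 :=
  un1_proof t_AD1

theorem t_NF1 : Stmt_NF1 :=
  NF1_proof t_K1A

theorem t_EXC : Stmt_EXC :=
  exc_proof

theorem t_LFJ : Stmt_LFJ :=
  lfj_proof t_EXC

theorem t_SP1 : Stmt_SP1 :=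
  sp1_proof t_MTB t_K1A t_CR1 t_NF1 t_LFJ

theorem t_BLU : Stmt_BLU :=
  blu_proof t_LM1

theorem t_UCP : Stmt_UCP :=
  ucp_proof t_LM2

theorem t_SU1 : Stmt_SU1 :=
  su1_proof t_SEG t_K1A t_AB1 t_NF1 t_LM1 t_LM2 t_BLU

theorem t_IN1 : Stmt_IN1 :=
  in1_proof t_MTB t_UOP t_K1A t_CR1 t_LM1 t_BLU t_UCP

theorem t_KF1 : Stmt_KF1 :=
  kf1_proof t_K1A t_UN1 t_EXC t_SP1 t_SU1 t_IN1

theorem t_CBP : Stmt_CBP :=
  cbp_proof t_MTB

theorem t_CBC : Stmt_CBC :=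
  cbc_proof

theorem t_CB0 : Stmt_CB0 :=
  cb0_proof t_GLC t_CBP t_CBC

theorem t_CK0 : Stmt_CK0 :=
  CK0_proof t_CB0

theorem t_LAU : Stmt_LAU :=
  lau_proof t_SEG

theorem t_SMA : Stmt_SMA :=
  sma_proof

theorem t_SMF : Stmt_SMF :=
  smf_proof t_SMA

theorem t_SC1 : Stmt_SC1 :=
  sc1_proof t_K1A

theorem t_GE1 : Stmt_GE1 :=
  ge1_proof t_PTH t_K1A t_LAU t_SMF t_SC1

theorem t_LOG : Stmt_LOG :=
  log_proof

theorem t_CK1 : Stmt_CK1 :=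
  ck1_proof t_K1A t_CR1 t_GE1 t_LOG

theorem t_OLD : Stmt_OLD :=
  t_old 

open TopologicalSpace in
theorem main_theorem :
    ∃ (A : Type) (_ : CStarAlgebra A) (_ : SeparableSpace A), IsKirchberg A ∧ UCT A ∧
      AddGroup.FG (K0 A) ∧ AddGroup.FG (K1 A) ∧
      Module.finrank ℤ (K0 A) = Module.finrank ℤ (K1 A) ∧
      ∀ (lam : ℝ) (h : 0 < lam), IsAlgebraic ℚ lam → ¬ QLam.IsQ A lam h :=
  fin_proof t_SPA t_PIA t_NCA t_SPC t_KKB t_KF0 t_KF1 t_CK0 t_CK1 t_OLD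

end Pool.Agent.KCH
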