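import Pool.Agent.KCH.KStmts

/-!
# Squad KCH, module NF0: normal form of the elements of the kernel of the augmentation.
-/

set_option autoImplicit false

namespace Pool.Agent.KCH

theorem nf0_proof : Stmt_NF0 := by
  intro J _ x hx
  obtain ⟨n, m, e, he, hxe⟩ := K0.exists_sub x
  refine ⟨n, e, he, ?_⟩
  have h1 : K0.map (sca J) x = 0 := by
    rw [sca, K0.map_comp, hx, map_zero]
  have h2 : (sca J) 1 = 1 := by
    rw [sca_apply]
    exact map_one (algebraMap ℂ (Unitization ℂ J))
  have h3 : mm (sca J) (1 : Matrix (Fin m) (Fin m) (Unitization ℂ J)) = 1 := mm_one _ h2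
  have h4 : c0 (mm (sca J) e) (mm_idem (sca J) he) =
      c0 (1 : Matrix (Fin m) (Fin m) (Unitization ℂ J)) (one_mul _) := by
    rw [hxe, map_sub, K0.map_c0, K0.map_c0, sub_eq_zero] at h1
    rw [h1]
    exact c0_congr h3 _ _
  rw [hxe, h4]

end Pool.Agent.KCH
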