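import Pool.Agent.KCH.KStmts

/-!
# Squad KCH, module OLD: comparison with the definition of `K_0` by projections
-/

set_option autoImplicit false

namespace Pool.Agent.KCH

namespace OLD_

variable {A : Type} [CStarAlgebra A]

/-- the idempotent of a projection -/
def toIdem (p : QLam.Proj A) : Idem A := ⟨p.n, p.p, p.idem⟩

theorem toIdem_sum (p q : QLam.Proj A) : toIdem (p.sum q) = (toIdem p).sum (toIdem q) := rfl

theorem toIdem_equiv {p q : QLam.Proj A} (h : p.Equiv q) :
    (toIdem p).Equivalent (toIdem q) := by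
  obtain ⟨v, h1, h2⟩ := h
  exact ⟨v.conjTranspose, v, h1, h2⟩

theorem le : AddSubgroup.closure (QLam.relK0 A) ≤
    (AddSubgroup.closure (relK0 A)).comap (FreeAbelianGroup.map toIdem) := by
  rw [AddSubgroup.closure_le]
  rintro x (⟨p, q, rfl⟩ | ⟨p, q, h, rfl⟩)
  · show FreeAbelianGroup.map toIdem _ ∈ AddSubgroup.closure (relK0 A)
    rw [map_sub, map_add, FreeAbelianGroup.map_of_apply, FreeAbelianGroup.map_of_apply,
      FreeAbelianGroup.map_of_apply, toIdem_sum]
    exact AddSubgroup.subset_closure (Or.inl ⟨_, _, rfl⟩)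
  · show FreeAbelianGroup.map toIdem _ ∈ AddSubgroup.closure (relK0 A)
    rw [map_sub, FreeAbelianGroup.map_of_apply, FreeAbelianGroup.map_of_apply]
    exact AddSubgroup.subset_closure (Or.inr ⟨_, _, toIdem_equiv h, rfl⟩)

/-- the comparison map -/
def cmp (A : Type) [CStarAlgebra A] : QLam.K0 A →+ K0 A :=
  QuotientAddGroup.map _ _ (FreeAbelianGroup.map toIdem) le

theorem cmp_cls (p : QLam.Proj A) : cmp A (QLam.cls p) = cl0 (toIdem p) := by
  show QuotientAddGroup.map _ _ _ _ (QuotientAddGroup.mk _) = _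
  rw [QuotientAddGroup.map_mk, FreeAbelianGroup.map_of_apply]
  rfl

end OLD_

theorem t_old : Stmt_OLD := by
  intro A _
  refine ⟨OLD_.cmp A, ?_⟩
  show OLD_.cmp A (QLam.cls (QLam.unitP A 1)) = _
  rw [OLD_.cmp_cls, ← c0_fin]
  rfl

end Pool.Agent.KCH
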