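import Pool.Agent.KCH.RStmts

/-!
# Squad KCH, module PWR: integer powers
-/

set_option autoImplicit false

namespace Pool.Agent.KCH

namespace PWR_

variable {B : Type} [Ring B] [StarRing B]

theorem pw_eq {u : B} (h1 : star u * u = 1) (h2 : u * star u = 1) (k : ℤ) :
    pw u k = ((⟨u, star u, h2, h1⟩ : Bˣ) ^ k : Bˣ) := by
  cases k with
  | ofNat n =>
    show u ^ n = _
    rw [Int.ofNat_eq_natCast, zpow_natCast, Units.val_pow_eq_pow_val]
  | negSucc n =>
    show star u ^ (n + 1) = _
    rw [zpow_negSucc, ← inv_pow, Units.val_pow_eq_pow_val]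
    rfl

end PWR_

open PWR_ in
theorem pwr_proof : Stmt_PWR := by
  intro B _ _ u s h
  have hadd : ∀ a b, pw u (a + b) = pw u a * pw u b := by
    intro a b
    rw [pw_eq h.uu h.uu', pw_eq h.uu h.uu', pw_eq h.uu h.uu', zpow_add, Units.val_mul]
  have h0 : pw u 0 = 1 := by
    show u ^ 0 = 1
    exact pow_zero u
  have hstar : ∀ a, star (pw u a) = pw u (-a) := by
    intro a
    cases a with
    | ofNat n =>
      cases n with
      | zero =>
        show star (pw u 0) = pw u 0
        rw [h0, star_one]
      | succ n =>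
        show star (u ^ (n + 1)) = star u ^ (n + 1)
        exact star_pow u (n + 1)
    | negSucc n =>
      show star (star u ^ (n + 1)) = u ^ (n + 1)
      rw [star_pow, star_star]
  refine ⟨h0, ?_, hadd, hstar, ?_⟩
  · show u ^ 1 = u
    exact pow_one u
  · intro k
    by_cases hk : k = 0
    · subst hk
      rw [if_pos rfl, h0, mul_one]
      exact h.ss
    · rw [if_neg hk]
      rcases Int.lt_or_gt_of_ne hk with hk' | hk'
      · obtain ⟨n, hn⟩ : ∃ n : ℕ, -k = n := ⟨(-k).toNat, by omega⟩
        have hn0 : 0 < n := by omega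
        have h1 : star (star s * pw u (-k) * s) = 0 := by
          have h2 : star s * pw u (-k) * s = 0 := by
            rw [hn]
            exact h.orth n hn0
          rw [h2, star_zero]
        rw [star_mul, star_mul, star_star, hstar, neg_neg, ← mul_assoc] at h1
        exact h1
      · obtain ⟨n, rfl⟩ : ∃ n : ℕ, k = n := ⟨k.toNat, by omega⟩
        exact h.orth n (by omega)

end Pool.Agent.KCH
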