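import Pool.Agent.KCH.Defs

/-!
# Squad KCH: partial permutation operators, the relations, the Fock algebra
-/

set_option autoImplicit false

namespace Pool.Agent.KCH

open scoped ENNReal InnerProductSpace

/-! ### operators on `ℓ²` given by partial bijections -/

/-- `ℓ²(X)` -/
abbrev L2 (X : Type) : Type := lp (fun _ : X => ℂ) 2

/-- the C*-algebra of bounded operators on `ℓ²(X)` -/
abbrev Bd (X : Type) : Type := L2 X →L[ℂ] L2 X

/-- the basis vectors -/
noncomputable def ee {X : Type} (x : X) : L2 X :=
  haveI := Classical.decEq X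
  lp.single 2 x (1 : ℂ)

/-- `ee` for an optional index, `0` for `none` -/
noncomputable def ov {X : Type} (o : Option X) : L2 X := o.elim 0 ee

theorem two_pos' : (0 : ℝ) < (2 : ℝ≥0∞).toReal := by norm_num

section
variable {X Y Z : Type}

theorem ee_apply_self (x : X) : (ee x) x = 1 := by
  classical
  simp [ee]

theorem ee_apply_ne {x y : X} (h : y ≠ x) : (ee x) y = 0 := by
  classical
  simp [ee, h]

theorem inner_ee (x : X) (ξ : L2 X) : inner ℂ (ee x) ξ = ξ x := by
  classical
  have h := lp.inner_single_left (𝕜 := ℂ) (G := fun _ : X => ℂ) x (1 : ℂ) ξ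
  simp only [RCLike.inner_apply, map_one, mul_one] at h
  rw [← h, ee]

theorem inner_ee_ee (x y : X) [DecidableEq X] :
    inner ℂ (ee x) (ee y) = if x = y then (1 : ℂ) else 0 := by
  rw [inner_ee]
  split_ifs with h
  · rw [h, ee_apply_self]
  · rw [ee_apply_ne h]

/-- two bounded operators which agree on the basis are equal -/
theorem op_ext {W : Type} [NormedAddCommGroup W] [NormedSpace ℂ W] {S T : L2 X →L[ℂ] W}
    (h : ∀ x, S (ee x) = T (ee x)) : S = T := by
  classical
  refine lp.ext_continuousLinearMap (by norm_num) fun i => ?_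
  ext
  have h1 := h i
  rw [ee] at h1
  simp only [ContinuousLinearMap.comp_apply, lp.singleContinuousLinearMap_apply]
  convert! h1

theorem opFun_summable (f : PEquiv X Y) (ξ : L2 X) :
    (Summable fun y => ‖((f.symm y).elim 0 ξ : ℂ)‖ ^ (2 : ℝ≥0∞).toReal) ∧
    ∑' y, ‖((f.symm y).elim 0 ξ : ℂ)‖ ^ (2 : ℝ≥0∞).toReal ≤
      ∑' x, ‖ξ x‖ ^ (2 : ℝ≥0∞).toReal := by
  have h1 : Summable fun i => ‖ξ i‖ ^ (2 : ℝ≥0∞).toReal := (lp.memℓp ξ).summable two_pos'
  let D : Type := {y : Y // (f.symm y).isSome}
  let k : D → X := fun d => (f.symm d.1).get d.2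
  have hk : Function.Injective k := by
    intro a b hab
    have ha : f.symm a.1 = some (k a) := (Option.some_get a.2).symm
    have hb : f.symm b.1 = some (k b) := (Option.some_get b.2).symm
    rw [← hab] at hb
    have ha' : f (k a) = some a.1 := (PEquiv.eq_some_iff f.symm).2 ha
    have hb' : f (k a) = some b.1 := (PEquiv.eq_some_iff f.symm).2 hb
    rw [ha'] at hb'
    exact Subtype.ext (Option.some.inj hb')
  have hi : Function.Injective (Subtype.val : D → Y) := Subtype.val_injective
  have hz : ∀ y ∉ Set.range (Subtype.val : D → Y),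
      ‖((f.symm y).elim 0 ξ : ℂ)‖ ^ (2 : ℝ≥0∞).toReal = 0 := by
    intro y hy
    have : f.symm y = none := by
      by_contra h
      exact hy ⟨⟨y, Option.ne_none_iff_isSome.1 h⟩, rfl⟩
    rw [this]
    simp only [Option.elim_none, norm_zero]
    exact Real.zero_rpow two_pos'.ne'
  have he : (fun y => ‖((f.symm y).elim 0 ξ : ℂ)‖ ^ (2 : ℝ≥0∞).toReal) ∘ (Subtype.val : D → Y) =
      (fun x => ‖ξ x‖ ^ (2 : ℝ≥0∞).toReal) ∘ k := by
    funext d
    have hd : f.symm d.1 = some (k d) := (Option.some_get d.2).symm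
    simp only [Function.comp_apply, hd, Option.elim_some]
  constructor
  · rw [← hi.summable_iff (f := fun y => ‖((f.symm y).elim 0 ξ : ℂ)‖ ^ (2 : ℝ≥0∞).toReal) hz, he]
    exact h1.comp_injective hk
  · have h2 : ∑' y, ‖((f.symm y).elim 0 ξ : ℂ)‖ ^ (2 : ℝ≥0∞).toReal =
        ∑' d : D, ‖((f.symm d.1).elim 0 ξ : ℂ)‖ ^ (2 : ℝ≥0∞).toReal := by
      refine (hi.tsum_eq (f := fun y => ‖((f.symm y).elim 0 ξ : ℂ)‖ ^ (2 : ℝ≥0∞).toReal) ?_).symm
      intro y hy
      by_contra h
      exact hy (hz y h)
    rw [h2]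
    have h3 : (fun d : D => ‖((f.symm d.1).elim 0 ξ : ℂ)‖ ^ (2 : ℝ≥0∞).toReal) =
      (fun x => ‖ξ x‖ ^ (2 : ℝ≥0∞).toReal) ∘ k := he
    rw [h3]
    exact tsum_comp_le_tsum_of_inj h1 (fun x => by positivity) hk

/-- the vector `y ↦ ξ (f⁻¹ y)` -/
noncomputable def opFun (f : PEquiv X Y) (ξ : L2 X) : L2 Y :=
  ⟨fun y => (f.symm y).elim 0 ξ, memℓp_gen (opFun_summable f ξ).1⟩

theorem opFun_apply (f : PEquiv X Y) (ξ : L2 X) (y : Y) : opFun f ξ y = (f.symm y).elim 0 ξ := rfl

theorem opFun_add (f : PEquiv X Y) (ξ η : L2 X) : opFun f (ξ + η) = opFun f ξ + opFun f η := by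
  apply Subtype.ext
  funext y
  show ((f.symm y).elim 0 (ξ + η : L2 X) : ℂ) = (f.symm y).elim 0 ξ + (f.symm y).elim 0 η
  cases f.symm y <;> simp

theorem opFun_smul (f : PEquiv X Y) (c : ℂ) (ξ : L2 X) : opFun f (c • ξ) = c • opFun f ξ := by
  apply Subtype.ext
  funext y
  show ((f.symm y).elim 0 (c • ξ : L2 X) : ℂ) = c • ((f.symm y).elim 0 ξ : ℂ)
  cases f.symm y <;> simp

theorem opFun_norm (f : PEquiv X Y) (ξ : L2 X) : ‖opFun f ξ‖ ≤ 1 * ‖ξ‖ := by
  rw [one_mul]
  refine lp.norm_le_of_tsum_le two_pos' (norm_nonneg _) ?_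
  rw [lp.norm_rpow_eq_tsum two_pos' ξ]
  exact (opFun_summable f ξ).2

/-- the operator `e_x ↦ e_(f x)` (and `e_x ↦ 0` if `f x` is not defined) -/
noncomputable def opP (f : PEquiv X Y) : L2 X →L[ℂ] L2 Y :=
  LinearMap.mkContinuous
    { toFun := opFun f
      map_add' := opFun_add f
      map_smul' := opFun_smul f } 1 (opFun_norm f)

theorem opP_apply (f : PEquiv X Y) (ξ : L2 X) (y : Y) : opP f ξ y = (f.symm y).elim 0 ξ := rfl

theorem opP_norm_le (f : PEquiv X Y) : ‖opP f‖ ≤ 1 :=
  LinearMap.mkContinuous_norm_le _ zero_le_one _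

theorem ov_some (x : X) : ov (some x) = ee x := rfl

theorem ov_none : ov (none : Option X) = 0 := rfl

theorem opP_ee (f : PEquiv X Y) (x : X) : opP f (ee x) = ov (f x) := by
  apply Subtype.ext
  funext y
  show opP f (ee x) y = (ov (f x) : L2 Y) y
  rw [opP_apply]
  rcases h : f.symm y with _ | x'
  · rcases h2 : f x with _ | y'
    · rfl
    · rw [ov_some, Option.elim_none, ee_apply_ne]
      rintro rfl
      have := (PEquiv.eq_some_iff f).2 h2
      rw [h] at this
      exact absurd this (by simp)
  · have h3 : f x' = some y := (PEquiv.eq_some_iff f.symm).2 h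
    rw [Option.elim_some]
    by_cases hx : x' = x
    · subst hx
      rw [h3, ov_some, ee_apply_self, ee_apply_self]
    · rw [ee_apply_ne hx]
      rcases h2 : f x with _ | y'
      · rfl
      · rw [ov_some, ee_apply_ne]
        rintro rfl
        have := (PEquiv.eq_some_iff f).2 h2
        rw [h] at this
        exact hx (Option.some.inj this)

theorem opP_ov (f : PEquiv X Y) (o : Option X) : opP f (ov o) = ov (o.bind f) := by
  cases o with
  | none => simp [ov_none]
  | some x => rw [ov_some, opP_ee]; rfl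

theorem opP_comp (g : PEquiv Y Z) (f : PEquiv X Y) : (opP g).comp (opP f) = opP (f.trans g) := by
  refine op_ext fun x => ?_
  rw [ContinuousLinearMap.comp_apply, opP_ee, opP_ee, opP_ov]
  rfl

theorem opP_adjoint (f : PEquiv X Y) : ContinuousLinearMap.adjoint (opP f) = opP f.symm := by
  classical
  refine op_ext fun y => ?_
  apply Subtype.ext
  funext x
  show (ContinuousLinearMap.adjoint (opP f) (ee y)) x = (opP f.symm (ee y)) x
  rw [← inner_ee, ContinuousLinearMap.adjoint_inner_right, opP_ee, opP_ee]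
  rcases h2 : f x with _ | y'
  · rw [ov_none, inner_zero_left]
    rcases h3 : f.symm y with _ | x'
    · rfl
    · rw [ov_some, ee_apply_ne]
      rintro rfl
      have := (PEquiv.eq_some_iff f.symm).2 h3
      rw [PEquiv.symm_symm, h2] at this
      exact absurd this (by simp)
  · rw [ov_some, inner_ee_ee]
    rcases h3 : f.symm y with _ | x'
    · rw [if_neg]
      · rfl
      · rintro rfl
        have := (PEquiv.eq_some_iff f).2 h2
        rw [h3] at this
        exact absurd this (by simp)
    · rw [ov_some]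
      by_cases hx : x = x'
      · subst hx
        have := (PEquiv.eq_some_iff f.symm).2 h3
        rw [PEquiv.symm_symm, h2] at this
        rw [if_pos (Option.some.inj this), ee_apply_self]
      · rw [ee_apply_ne hx, if_neg]
        rintro rfl
        have := (PEquiv.eq_some_iff f).2 h2
        rw [h3] at this
        exact hx (Option.some.inj this).symm

theorem opP_star (f : PEquiv X X) : star (opP f) = opP f.symm := opP_adjoint f

theorem opP_mul (g f : PEquiv X X) : opP g * opP f = opP (f.trans g) := opP_comp g f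

theorem opP_refl : opP (PEquiv.refl X) = 1 := by
  refine op_ext fun x => ?_
  rw [opP_ee]; rfl

end

/-! ### the relations -/

/-- `u` is unitary, `s` is an isometry and `s^* u^k s = 0` for `k ≠ 0` -/
structure Rel {B : Type} [Ring B] [StarRing B] (u s : B) : Prop where
  uu : star u * u = 1
  uu' : u * star u = 1
  ss : star s * s = 1
  orth : ∀ k : ℕ, 0 < k → star s * u ^ k * s = 0

section
variable {B : Type} [Ring B] [StarRing B]

/-- integer powers of a unitary element -/
def pw (u : B) : ℤ → B
  | Int.ofNat n => u ^ n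
  | Int.negSucc n => star u ^ (n + 1)

/-- `S_α = u^(k_1) s u^(k_2) s ...` for the word `α = (k_1, k_2, ...)` -/
def Sw (u s : B) : List ℤ → B
  | [] => 1
  | k :: α => pw u k * s * Sw u s α

/-- the action of `u^m` on words -/
def sh (m : ℤ) : List ℤ → List ℤ
  | [] => []
  | k :: α => (k + m) :: α

/-- the monomial `S_α u^m S_β^*` -/
def Mo (u s : B) (w : List ℤ × ℤ × List ℤ) : B := Sw u s w.1 * pw u w.2.1 * star (Sw u s w.2.2)

end

/-! ### the Fock algebra -/

/-- the index set of the basis of the Fock space: the word `(k_1, ..., k_n)` and a number `m` -/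
abbrev XX : Type := List ℤ × ℤ

/-- the action of `u` on the basis: it increases the first number -/
def uE : XX ≃ XX where
  toFun p := match p with
    | ([], m) => ([], m + 1)
    | (k :: α, m) => ((k + 1) :: α, m)
  invFun p := match p with
    | ([], m) => ([], m - 1)
    | (k :: α, m) => ((k - 1) :: α, m)
  left_inv p := by
    rcases p with ⟨_ | ⟨k, α⟩, m⟩ <;> simp
  right_inv p := by
    rcases p with ⟨_ | ⟨k, α⟩, m⟩ <;> simp

/-- inserting `0` in front of the word, as a partial equivalence -/
def sE : PEquiv XX XX where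
  toFun p := some (0 :: p.1, p.2)
  invFun p := match p with
    | ([], _) => none
    | (k :: α, m) => if k = 0 then some (α, m) else none
  inv a b := by
    rcases a with ⟨α, m⟩
    rcases b with ⟨_ | ⟨k, β⟩, n⟩
    · simp
    · by_cases hk : k = 0
      · simp [hk]
        tauto
      · simp [hk]
        intro h
        exact absurd h.symm hk

/-- the unitary `u` on the Fock space -/
noncomputable irreducible_def U : Bd XX := opP uE.toPEquiv

/-- the isometry `s` on the Fock space -/
noncomputable irreducible_def S : Bd XX := opP sE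

/-- the C*-algebra generated by `u` and `s` -/
noncomputable irreducible_def SA : StarSubalgebra ℂ (Bd XX) :=
  (StarAlgebra.adjoin ℂ {U, S}).topologicalClosure

/-- the C*-algebra generated by `u` -/
noncomputable irreducible_def SC : StarSubalgebra ℂ (Bd XX) :=
  (StarAlgebra.adjoin ℂ {U}).topologicalClosure

instance SA_closed : IsClosed (SA : Set (Bd XX)) := by
  rw [SA_def]; exact StarSubalgebra.isClosed_topologicalClosure _

instance SC_closed : IsClosed (SC : Set (Bd XX)) := by
  rw [SC_def]; exact StarSubalgebra.isClosed_topologicalClosure _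

theorem adj_le_SA : StarAlgebra.adjoin ℂ {U, S} ≤ SA := by
  rw [SA_def]; exact StarSubalgebra.le_topologicalClosure _

theorem adj_le_SC : StarAlgebra.adjoin ℂ {U} ≤ SC := by
  rw [SC_def]; exact StarSubalgebra.le_topologicalClosure _

theorem U_mem : U ∈ SA := adj_le_SA (StarAlgebra.subset_adjoin ℂ _ (by simp))

theorem S_mem : S ∈ SA := adj_le_SA (StarAlgebra.subset_adjoin ℂ _ (by simp))

theorem U_mem' : U ∈ SC := adj_le_SC (StarAlgebra.subset_adjoin ℂ _ (by simp))

theorem SC_le_SA : SC ≤ SA := by
  rw [SA_def, SC_def]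
  exact StarSubalgebra.topologicalClosure_mono (StarAlgebra.adjoin_mono (by simp))

/-- the C*-algebra generated by `u` and `s`, as a type -/
def AA : Type := SA

/-- the C*-algebra generated by `u`, as a type -/
def CC : Type := SC

noncomputable instance : CStarAlgebra AA := inferInstanceAs (CStarAlgebra SA)

noncomputable instance : CStarAlgebra CC := inferInstanceAs (CStarAlgebra SC)

/-- the inclusion of `AA` in the algebra of all bounded operators -/
noncomputable def pA : AA →⋆ₐ[ℂ] Bd XX := SA.subtype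

/-- the inclusion of `CC` in the algebra of all bounded operators -/
noncomputable def pC : CC →⋆ₐ[ℂ] Bd XX := SC.subtype

/-- the inclusion -/
noncomputable def jj : CC →⋆ₐ[ℂ] AA := StarSubalgebra.inclusion SC_le_SA

/-- the generators -/
noncomputable def uA : AA := (⟨U, U_mem⟩ : SA)

noncomputable def sA : AA := (⟨S, S_mem⟩ : SA)

noncomputable def uC : CC := (⟨U, U_mem'⟩ : SC)

theorem pA_injective : Function.Injective pA := Subtype.val_injective

theorem pC_injective : Function.Injective pC := Subtype.val_injective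

theorem pA_norm (a : AA) : ‖pA a‖ = ‖a‖ := rfl

theorem pC_norm (a : CC) : ‖pC a‖ = ‖a‖ := rfl

theorem pA_mem (a : AA) : pA a ∈ SA := Subtype.property (p := fun x => x ∈ SA) a

theorem pC_mem (a : CC) : pC a ∈ SC := Subtype.property (p := fun x => x ∈ SC) a

theorem exists_pA {x : Bd XX} (hx : x ∈ SA) : ∃ a, pA a = x := ⟨(⟨x, hx⟩ : SA), rfl⟩

theorem exists_pC {x : Bd XX} (hx : x ∈ SC) : ∃ a, pC a = x := ⟨(⟨x, hx⟩ : SC), rfl⟩

theorem pA_uA : pA uA = U := rfl

theorem pA_sA : pA sA = S := rfl

theorem pC_uC : pC uC = U := rfl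

theorem pA_jj (c : CC) : pA (jj c) = pC c := by
  have h := StarSubalgebra.subtype_comp_inclusion (R := ℂ) SC_le_SA
  exact DFunLike.congr_fun h c

theorem jj_uC : jj uC = uA := pA_injective (by rw [pA_jj, pC_uC, pA_uA])

/-- induction for `AA` -/
theorem AA_ind {P : AA → Prop} (hu : P uA) (hs : P sA) (hc : ∀ c : ℂ, P (algebraMap ℂ AA c))
    (hadd : ∀ a b, P a → P b → P (a + b)) (hmul : ∀ a b, P a → P b → P (a * b))
    (hstar : ∀ a, P a → P (star a)) (hcl : IsClosed {a | P a}) : ∀ a, P a := by
  have h1 : ∀ x, x ∈ StarAlgebra.adjoin ℂ ({U, S} : Set (Bd XX)) → ∀ a, pA a = x → P a := by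
    intro x hx
    induction hx using StarAlgebra.adjoin_induction with
    | mem x hx =>
      intro a ha
      rcases hx with rfl | rfl
      · have h : a = uA := pA_injective (by rw [ha, pA_uA])
        rw [h]; exact hu
      · have h : a = sA := pA_injective (by rw [ha, pA_sA])
        rw [h]; exact hs
    | algebraMap c =>
      intro a ha
      have h : a = algebraMap ℂ AA c := pA_injective (by rw [ha, AlgHomClass.commutes])
      rw [h]; exact hc c
    | add x y hx hy hx' hy' =>
      intro a ha
      obtain ⟨b, hb⟩ := exists_pA (adj_le_SA hx)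
      obtain ⟨c, hc'⟩ := exists_pA (adj_le_SA hy)
      have h : a = b + c := pA_injective (by rw [ha, map_add, hb, hc'])
      rw [h]; exact hadd _ _ (hx' b hb) (hy' c hc')
    | mul x y hx hy hx' hy' =>
      intro a ha
      obtain ⟨b, hb⟩ := exists_pA (adj_le_SA hx)
      obtain ⟨c, hc'⟩ := exists_pA (adj_le_SA hy)
      have h : a = b * c := pA_injective (by rw [ha, map_mul, hb, hc'])
      rw [h]; exact hmul _ _ (hx' b hb) (hy' c hc')
    | star x hx hx' =>
      intro a ha
      obtain ⟨b, hb⟩ := exists_pA (adj_le_SA hx)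
      have h : a = star b := pA_injective (by rw [ha, map_star, hb])
      rw [h]; exact hstar _ (hx' b hb)
  intro a
  have h2 : pA a ∈ closure ((StarAlgebra.adjoin ℂ ({U, S} : Set (Bd XX))) : Set (Bd XX)) := by
    have h3 := pA_mem a
    rw [SA_def] at h3
    rw [← StarSubalgebra.topologicalClosure_coe]
    exact h3
  obtain ⟨x, hx, hx'⟩ := mem_closure_iff_seq_limit.1 h2
  choose y hy using fun n => exists_pA (adj_le_SA (hx n))
  have h4 : Filter.Tendsto y Filter.atTop (nhds a) := by
    rw [tendsto_iff_norm_sub_tendsto_zero] at hx' ⊢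
    refine hx'.congr fun n => ?_
    rw [← pA_norm, map_sub, hy]
  exact hcl.mem_of_tendsto h4 (Filter.Eventually.of_forall fun n => h1 _ (hx n) _ (hy n))

/-- induction for `CC` -/
theorem CC_ind {P : CC → Prop} (hu : P uC) (hc : ∀ c : ℂ, P (algebraMap ℂ CC c))
    (hadd : ∀ a b, P a → P b → P (a + b)) (hmul : ∀ a b, P a → P b → P (a * b))
    (hstar : ∀ a, P a → P (star a)) (hcl : IsClosed {a | P a}) : ∀ a, P a := by
  have h1 : ∀ x, x ∈ StarAlgebra.adjoin ℂ ({U} : Set (Bd XX)) → ∀ a, pC a = x → P a := by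
    intro x hx
    induction hx using StarAlgebra.adjoin_induction with
    | mem x hx =>
      intro a ha
      rcases hx with rfl
      have h : a = uC := pC_injective (by rw [ha, pC_uC])
      rw [h]; exact hu
    | algebraMap c =>
      intro a ha
      have h : a = algebraMap ℂ CC c := pC_injective (by rw [ha, AlgHomClass.commutes])
      rw [h]; exact hc c
    | add x y hx hy hx' hy' =>
      intro a ha
      obtain ⟨b, hb⟩ := exists_pC (adj_le_SC hx)
      obtain ⟨c, hc'⟩ := exists_pC (adj_le_SC hy)
      have h : a = b + c := pC_injective (by rw [ha, map_add, hb, hc'])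
      rw [h]; exact hadd _ _ (hx' b hb) (hy' c hc')
    | mul x y hx hy hx' hy' =>
      intro a ha
      obtain ⟨b, hb⟩ := exists_pC (adj_le_SC hx)
      obtain ⟨c, hc'⟩ := exists_pC (adj_le_SC hy)
      have h : a = b * c := pC_injective (by rw [ha, map_mul, hb, hc'])
      rw [h]; exact hmul _ _ (hx' b hb) (hy' c hc')
    | star x hx hx' =>
      intro a ha
      obtain ⟨b, hb⟩ := exists_pC (adj_le_SC hx)
      have h : a = star b := pC_injective (by rw [ha, map_star, hb])
      rw [h]; exact hstar _ (hx' b hb)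
  intro a
  have h2 : pC a ∈ closure ((StarAlgebra.adjoin ℂ ({U} : Set (Bd XX))) : Set (Bd XX)) := by
    have h3 := pC_mem a
    rw [SC_def] at h3
    rw [← StarSubalgebra.topologicalClosure_coe]
    exact h3
  obtain ⟨x, hx, hx'⟩ := mem_closure_iff_seq_limit.1 h2
  choose y hy using fun n => exists_pC (adj_le_SC (hx n))
  have h4 : Filter.Tendsto y Filter.atTop (nhds a) := by
    rw [tendsto_iff_norm_sub_tendsto_zero] at hx' ⊢
    refine hx'.congr fun n => ?_
    rw [← pC_norm, map_sub, hy]
  exact hcl.mem_of_tendsto h4 (Filter.Eventually.of_forall fun n => h1 _ (hx n) _ (hy n))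

end Pool.Agent.KCH
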