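import Pool.Agent.KCH.RDefs

/-!
# Squad KCH: statements of the modules of the parts R, A, N
(relations, Fock algebra, nuclearity and universal property)
-/

set_option autoImplicit false

namespace Pool.Agent.KCH

open TopologicalSpace
open scoped ComplexOrder

/-! ### part R: calculus of the relations -/

/-- PWR: integer powers -/
def Stmt_PWR : Prop := ∀ (B : Type) [Ring B] [StarRing B] (u s : B), Rel u s →
  pw u 0 = 1 ∧ pw u 1 = u ∧ (∀ a b, pw u (a + b) = pw u a * pw u b) ∧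
  (∀ a, star (pw u a) = pw u (-a)) ∧
  ∀ k : ℤ, star s * pw u k * s = if k = 0 then 1 else 0

/-- WRD (uses PWR): words -/
def Stmt_WRD : Prop := ∀ (B : Type) [Ring B] [StarRing B] (u s : B), Rel u s →
  (∀ α β, Sw u s (α ++ β) = Sw u s α * Sw u s β) ∧
  (∀ m α, α ≠ [] → pw u m * Sw u s α = Sw u s (sh m α)) ∧
  (∀ α, star (Sw u s α) * Sw u s α = 1) ∧
  ∀ α β, (¬ ∃ ρ, β = α ++ ρ) → (¬ ∃ ρ, α = β ++ ρ) → star (Sw u s α) * Sw u s β = 0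

/-- MUL (uses PWR, WRD): the product of two monomials is a monomial or `0`, in the same way in all
algebras -/
def Stmt_MUL : Prop := ∀ w w' : List ℤ × ℤ × List ℤ,
  (∃ w'', ∀ (B : Type) [Ring B] [StarRing B] (u s : B), Rel u s →
    Mo u s w * Mo u s w' = Mo u s w'') ∨
  (∀ (B : Type) [Ring B] [StarRing B] (u s : B), Rel u s → Mo u s w * Mo u s w' = 0)

/-! ### part A: the Fock algebra -/

/-- FRL: the relations hold in the Fock space (operator identities can be checked with `op_ext`,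
or with `opP_mul`, `opP_star` on partial equivalences) -/
def Stmt_FRL : Prop := Rel U S

/-- MBA (uses PWR, WRD, FRL): monomials on the basis -/
def Stmt_MBA : Prop := ∀ (α : List ℤ) (l : ℤ) (β : List ℤ),
  (∀ (ρ : List ℤ) (m : ℤ), Mo U S (α, l, β) (ee (β ++ ρ, m)) =
    ee (α ++ sh l ρ, if ρ = [] then m + l else m)) ∧
  ∀ (μ : List ℤ) (m : ℤ), (¬ ∃ ρ, μ = β ++ ρ) → Mo U S (α, l, β) (ee (μ, m)) = 0

/-- SPN (uses PWR, MUL, FRL): the monomials span a dense subspace -/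
def Stmt_SPN : Prop :=
  (SA : Set (Bd XX)) = closure (Submodule.span ℂ (Set.range (Mo U S)) : Set (Bd XX))

/-- PIA (uses PWR, WRD, FRL, MBA, SPN): pure infiniteness -/
def Stmt_PIA : Prop := IsPurelyInfinite AA

/-- SPA (uses SPN): separability -/
def Stmt_SPA : Prop := SeparableSpace AA ∧ SeparableSpace CC

/-- SPC (uses FRL): the spectrum of `U` is the circle -/
def Stmt_SPC : Prop := Nonempty (C(UnitAddCircle, ℂ) ≃⋆ₐ[ℂ] CC)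

/-! ### part N: nuclearity and the universal property -/

/-- admissible weights -/
structure Wt (h : ℤ → ℝ) (M : ℕ) : Prop where
  nonneg : ∀ k, 0 ≤ h k
  le_one : ∀ k, h k ≤ 1
  supp : ∀ k, (M : ℤ) < |k| → h k = 0

section
variable {B : Type} [CStarAlgebra B]

/-- `u^k s` -/
def Sk (u s : B) (k : ℤ) : B := pw u k * s

/-- `y ↦ ∑ t_k S_k y S_k^*` -/
noncomputable def Lam (u s : B) (M : ℕ) (t : ℤ → ℝ) (y : B) : B :=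
  ∑ k ∈ Finset.Icc (-(M : ℤ)) M, ((t k : ℝ) : ℂ) • (Sk u s k * y * star (Sk u s k))

/-- `Δ = 1 - ∑ (1 - √(1 - h_k^2)) S_k S_k^*` -/
noncomputable def Del (u s : B) (M : ℕ) (h : ℤ → ℝ) : B :=
  1 - ∑ k ∈ Finset.Icc (-(M : ℤ)) M,
    ((1 - √(1 - h k ^ 2) : ℝ) : ℂ) • (Sk u s k * star (Sk u s k))

/-- iterates of `Lam` for the weights `h^2` -/
noncomputable def itL (u s : B) (M : ℕ) (h : ℤ → ℝ) (k : ℕ) (y : B) : B :=
  (Lam u s M (fun k => h k ^ 2))^[k] y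

/-- `Q_k` -/
noncomputable def itQ (u s : B) (M : ℕ) (h : ℤ → ℝ) (k : ℕ) : B := itL u s M h k 1

/-- `q_k = Q_k - Q_(k+1)` -/
noncomputable def itq (u s : B) (M : ℕ) (h : ℤ → ℝ) (k : ℕ) : B :=
  itL u s M h k (Del u s M h * Del u s M h)

end

/-- words of length `k` with letters in `[-M, M]` -/
noncomputable def WS (M : ℕ) : ℕ → Finset (List ℤ)
  | 0 => {[]}
  | k + 1 => (Finset.Icc (-(M : ℤ)) M ×ˢ WS M k).image (fun p => p.1 :: p.2)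

/-- the weight of a word -/
def hw (h : ℤ → ℝ) (μ : List ℤ) : ℝ := (μ.map h).prod

/-- the level weights: `bb^2 = 1/N` for `1 ≤ k ≤ N`, `cc^2 = 1 - k/N` for `k ≤ N` -/
noncomputable def bb (N k : ℕ) : ℝ := if 1 ≤ k ∧ k ≤ N then √(1 / N) else 0

noncomputable def cc (N k : ℕ) : ℝ := if k ≤ N then √(1 - k / N) else 0

/-- the finite index set -/
noncomputable def IS (M N n : ℕ) : Finset XX :=
  ((Finset.range (N + 1)).biUnion (WS M)) ×ˢ ((Finset.range n).map Nat.castEmbedding)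

section
variable {B : Type} [CStarAlgebra B]

/-- the two families of elements of `B` -/
noncomputable def rr (u s : B) (M : ℕ) (h : ℤ → ℝ) (N n : ℕ) (i : Fin 2) (p : XX) : B :=
  if i = 0 then ((√(1 / n) * bb N p.1.length * hw h p.1 : ℝ) : ℂ) • (Sw u s p.1 * pw u p.2)
  else ((√(1 / n) * cc N p.1.length * hw h p.1 : ℝ) : ℂ) •
    (Sw u s p.1 * Del u s M h * pw u p.2)

/-- the value at a monomial of the completely positive map defined by the families -/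
noncomputable def VM (u s : B) (M : ℕ) (h : ℤ → ℝ) (N n : ℕ) (w : List ℤ × ℤ × List ℤ) : B :=
  ∑ p ∈ IS M N n, ∑ q ∈ IS M N n, (inner ℂ (ee p) (Mo U S w (ee q)) : ℂ) •
    ∑ i, rr u s M h N n i p * star (rr u s M h N n i q)

end

/-- LWT: the level weights -/
def Stmt_LWT : Prop := ∀ N : ℕ, 1 ≤ N →
  (∀ k, 0 ≤ bb N k ∧ 0 ≤ cc N k ∧ cc N k ≤ 1) ∧
  (∀ k l, 0 ≤ bb N k * bb N l ∧ bb N k * bb N l ≤ 1 / N) ∧
  (∀ k, k < N → bb N (k + 1) ^ 2 = 1 / N) ∧ (∀ k, k ≤ N → cc N k ^ 2 = 1 - k / N) ∧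
  (∀ k, N ≤ k → cc N k = 0) ∧ (∀ k, N < k → bb N k = 0) ∧ bb N 0 = 0 ∧ cc N 0 = 1 ∧
  (∀ a b k : ℕ, |cc N (a + k) * cc N (b + k) - cc N k ^ 2| ≤ ((a + b : ℕ) : ℝ) / N) ∧
  ∀ a b : ℕ, ∑ k ∈ Finset.range N, |bb N (a + k + 1) * bb N (b + k + 1) - bb N (k + 1) ^ 2| ≤
    ((a + b : ℕ) : ℝ) / N

/-- UCC: unital completely positive maps are contractions -/
def Stmt_UCC : Prop := ∀ (A B : Type) [CStarAlgebra A] [CStarAlgebra B] (Φ : A →ₗ[ℂ] B),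
  IsCP Φ → Φ 1 = 1 → ∀ a, ‖Φ a‖ ≤ ‖a‖

/-- UPF (uses UCC): completely positive maps `B(ℓ²X) → M_n → B` from finite families -/
def Stmt_UPF : Prop := ∀ (X : Type) (ι : Finset X), ∃ (n : ℕ)
  (φ : Bd X →ₗ[ℂ] Matrix (Fin n) (Fin n) ℂ), IsCP φ ∧ φ 1 = 1 ∧
  ∀ (B : Type) [CStarAlgebra B] (κ : Type) [Fintype κ] (r : κ → X → B),
    ∑ k, ∑ p ∈ ι, r k p * star (r k p) = 1 →
    ∃ ψ : Matrix (Fin n) (Fin n) ℂ →ₗ[ℂ] B, IsCP ψ ∧ ψ 1 = 1 ∧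
      (∀ x, ψ (φ x) = ∑ p ∈ ι, ∑ q ∈ ι, (inner ℂ (ee p) (x (ee q)) : ℂ) •
        ∑ k, r k p * star (r k q)) ∧ ∀ x, ‖ψ (φ x)‖ ≤ ‖x‖

/-- WTS: existence of slowly varying weights (e.g. `h k = cos θ_k`, `√(1-h_k^2) = sin θ_k`,
`θ_k = min (π/2) (max 0 (δ (|k| - K)))`) -/
def Stmt_WTS : Prop := ∀ (K L : ℕ) (ε : ℝ), 0 < ε → ∃ (h : ℤ → ℝ) (M : ℕ), Wt h M ∧
  (∀ k, |k| ≤ (K : ℤ) → h k = 1) ∧
  ∀ k l : ℤ, |l| ≤ (L : ℤ) → |h (k + l) - h k| ≤ ε ∧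
    |√(1 - h (k + l) ^ 2) - √(1 - h k ^ 2)| ≤ ε

/-- LMB (uses PWR): norm of `Lam` -/
def Stmt_LMB : Prop := ∀ (B : Type) [CStarAlgebra B] (u s : B), Rel u s → ∀ (M : ℕ)
  (t : ℤ → ℝ) (c : ℝ) (y : B), 0 ≤ c → (∀ k, |t k| ≤ c) → ‖Lam u s M t y‖ ≤ c * ‖y‖

/-- DLB (uses PWR, LMB): properties of `Δ` -/
def Stmt_DLB : Prop := ∀ (B : Type) [CStarAlgebra B] (u s : B), Rel u s → ∀ (M : ℕ)
  (h : ℤ → ℝ), Wt h M →
  star (Del u s M h) = Del u s M h ∧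
  Del u s M h * Del u s M h = 1 - Lam u s M (fun k => h k ^ 2) 1 ∧ ‖Del u s M h‖ ≤ 1 ∧
  ∀ (l : ℤ) (ε : ℝ), (∀ k, |√(1 - h (k + l) ^ 2) - √(1 - h k ^ 2)| ≤ ε) →
    ‖Del u s M h * pw u l - pw u l * Del u s M h‖ ≤ ε

/-- ITR (uses PWR, LMB, DLB): iterates -/
def Stmt_ITR : Prop := ∀ (B : Type) [CStarAlgebra B] (u s : B), Rel u s → ∀ (M : ℕ)
  (h : ℤ → ℝ), Wt h M →
  (∀ k, itq u s M h k = itQ u s M h k - itQ u s M h (k + 1)) ∧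
  (∀ k, ‖itQ u s M h k‖ ≤ 1 ∧ ‖itq u s M h k‖ ≤ 1) ∧
  ∀ (N : ℕ) (t : ℕ → ℝ) (c : ℝ), 0 ≤ c → (∀ k, |t k| ≤ c) →
    ‖∑ k ∈ Finset.range N, ((t k : ℝ) : ℂ) • itq u s M h k‖ ≤ c

/-- WSM: sums over words -/
def Stmt_WSM : Prop := ∀ (B : Type) [CStarAlgebra B] (u s : B) (M : ℕ) (h : ℤ → ℝ) (y : B),
  (∀ k μ, μ ∈ WS M k ↔ μ.length = k ∧ ∀ x ∈ μ, |x| ≤ (M : ℤ)) ∧
  (∀ k, ∑ μ ∈ WS M k, ((hw h μ ^ 2 : ℝ) : ℂ) • (Sw u s μ * y * star (Sw u s μ)) =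
    itL u s M h k y) ∧
  ∀ (k : ℕ) (l : ℤ), ∑ μ ∈ WS M (k + 1),
      ((hw h (sh l μ) * hw h μ : ℝ) : ℂ) • (Sw u s μ * y * star (Sw u s μ)) =
    Lam u s M (fun κ => h (κ + l) * h κ) (itL u s M h k y)

/-- TEL (uses LWT, ITR): the resolution of the identity (Abel summation) -/
def Stmt_TEL : Prop := ∀ (B : Type) [CStarAlgebra B] (u s : B), Rel u s → ∀ (M : ℕ)
  (h : ℤ → ℝ) (N : ℕ), Wt h M → 1 ≤ N →
  (∑ k ∈ Finset.range N, (((bb N (k + 1) ^ 2 : ℝ) : ℂ) • itQ u s M h (k + 1) +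
    ((cc N (k + 1) ^ 2 : ℝ) : ℂ) • itq u s M h (k + 1))) + itq u s M h 0 = 1

/-- UNI (uses PWR, LWT, DLB, WSM, TEL): the families give a unital map -/
def Stmt_UNI : Prop := ∀ (B : Type) [CStarAlgebra B] (u s : B), Rel u s → ∀ (M : ℕ)
  (h : ℤ → ℝ) (N n : ℕ), Wt h M → 1 ≤ N → 1 ≤ n →
  ∑ i, ∑ p ∈ IS M N n, rr u s M h N n i p * star (rr u s M h N n i p) = 1

/-- FRA (uses MBA): the combinatorial part of FRM. For `q = (β ρ, m)` the matrix coefficient is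
nonzero only for `p = (α (l.ρ), m)` (or `(α, m + l)` if `ρ = []`) -/
def Stmt_FRA : Prop := ∀ (B : Type) [AddCommGroup B] [Module ℂ B] (G : XX → XX → B)
  (M N n : ℕ) (α : List ℤ) (l : ℤ) (β : List ℤ), α.length ≤ N → β.length ≤ N →
  (∀ x ∈ α, |x| ≤ (M : ℤ)) → (∀ x ∈ β, |x| ≤ (M : ℤ)) →
  ∑ p ∈ IS M N n, ∑ q ∈ IS M N n, (inner ℂ (ee p) (Mo U S (α, l, β) (ee q)) : ℂ) • G p q =
  (∑ m ∈ Finset.range n, if 0 ≤ (m : ℤ) + l ∧ (m : ℤ) + l < n then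
    G (α, (m : ℤ) + l) (β, (m : ℤ)) else 0) +
  ∑ m ∈ Finset.range n, ∑ k ∈ Finset.range N, ∑ ρ ∈ WS M (k + 1),
    if (α ++ sh l ρ, (m : ℤ)) ∈ IS M N n ∧ (β ++ ρ, (m : ℤ)) ∈ IS M N n then
      G (α ++ sh l ρ, (m : ℤ)) (β ++ ρ, (m : ℤ)) else 0

/-- FRM (uses PWR, WRD, LWT, DLB, WSM, FRA): the value at a monomial -/
def Stmt_FRM : Prop := ∀ (B : Type) [CStarAlgebra B] (u s : B), Rel u s → ∀ (M : ℕ)
  (h : ℤ → ℝ) (N n : ℕ), Wt h M → 1 ≤ N → 1 ≤ n →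
  ∀ (α : List ℤ) (l : ℤ) (β : List ℤ), α.length ≤ N → β.length ≤ N → |l| ≤ (n : ℤ) →
  (∀ x ∈ α, h x = 1 ∧ |x| ≤ (M : ℤ)) → (∀ x ∈ β, h x = 1 ∧ |x| ≤ (M : ℤ)) →
  VM u s M h N n (α, l, β) =
    Sw u s α * ((((1 - |(l : ℝ)| / n) * (bb N α.length * bb N β.length) : ℝ) : ℂ) • pw u l +
      (((1 - |(l : ℝ)| / n) * (cc N α.length * cc N β.length) : ℝ) : ℂ) •
        (Del u s M h * pw u l * Del u s M h)) * star (Sw u s β) +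
    Sw u s α * (pw u l * ∑ k ∈ Finset.range N,
      (((bb N (α.length + k + 1) * bb N (β.length + k + 1) : ℝ) : ℂ) •
        Lam u s M (fun κ => h (κ + l) * h κ) (itQ u s M h k) +
       ((cc N (α.length + k + 1) * cc N (β.length + k + 1) : ℝ) : ℂ) •
        Lam u s M (fun κ => h (κ + l) * h κ) (itq u s M h k))) * star (Sw u s β)

/-- ESA (uses PWR, WRD, LWT, LMB, DLB, ITR, TEL, FRM): the explicit estimate for one monomial -/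
def Stmt_ESA : Prop := ∀ (B : Type) [CStarAlgebra B] (u s : B), Rel u s → ∀ (M : ℕ)
  (h : ℤ → ℝ) (N n : ℕ), Wt h M → 1 ≤ N → 1 ≤ n →
  ∀ (α : List ℤ) (l : ℤ) (β : List ℤ), α.length ≤ N → β.length ≤ N → |l| ≤ (n : ℤ) →
  (∀ x ∈ α, h x = 1 ∧ |x| ≤ (M : ℤ)) → (∀ x ∈ β, h x = 1 ∧ |x| ≤ (M : ℤ)) →
  ∀ δ : ℝ, 0 ≤ δ → (∀ k, |h (k + l) - h k| ≤ δ) →
  (∀ k, |√(1 - h (k + l) ^ 2) - √(1 - h k ^ 2)| ≤ δ) →
  ‖VM u s M h N n (α, l, β) - Mo u s (α, l, β)‖ ≤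
    2 * |(l : ℝ)| / n + (3 * ((α.length + β.length : ℕ) : ℝ) + 1) / N + (N + 2) * δ

/-- EST (uses WTS, ESA): the estimate. Choose `N` large, then `h` with `N δ` small, then `n`. -/
def Stmt_EST : Prop := ∀ (W : Finset (List ℤ × ℤ × List ℤ)) (ε : ℝ), 0 < ε →
  ∃ (h : ℤ → ℝ) (M N n : ℕ), Wt h M ∧ 1 ≤ N ∧ 1 ≤ n ∧
    ∀ w ∈ W, ∀ (B : Type) [CStarAlgebra B] (u s : B), Rel u s →
      ‖VM u s M h N n w - Mo u s w‖ < ε

/-- NUC (uses UPF, UNI, EST): the approximations -/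
def Stmt_NUC : Prop := ∀ (W : Finset (List ℤ × ℤ × List ℤ)) (ε : ℝ), 0 < ε →
  ∃ (n : ℕ) (φ : Bd XX →ₗ[ℂ] Matrix (Fin n) (Fin n) ℂ), IsCP φ ∧ φ 1 = 1 ∧
    ∀ (B : Type) [CStarAlgebra B] (u s : B), Rel u s →
      ∃ ψ : Matrix (Fin n) (Fin n) ℂ →ₗ[ℂ] B, IsCP ψ ∧ ψ 1 = 1 ∧ (∀ x, ‖ψ (φ x)‖ ≤ ‖x‖) ∧
        ∀ w ∈ W, ‖ψ (φ (Mo U S w)) - Mo u s w‖ < ε

/-- UNV (uses PWR, MUL, FRL, SPN, NUC): the universal property -/
def Stmt_UNV : Prop := ∀ (B : Type) [CStarAlgebra B] (u s : B), Rel u s →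
  ∃ ρ : AA →⋆ₐ[ℂ] B, ρ uA = u ∧ ρ sA = s

/-- NCA (uses SPN, FRL, NUC): nuclearity -/
def Stmt_NCA : Prop := IsNuclear AA

end Pool.Agent.KCH
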