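import Pool.Agent.KCH.KStmts

/-!
SP1: split exactness of `K_1`.
-/

set_option autoImplicit false

namespace Pool.Agent.KCH

open TopologicalSpace

namespace SP1_

section
variable {J E Q : Type} [NonUnitalCStarAlgebra J] [NonUnitalCStarAlgebra E]
  [NonUnitalCStarAlgebra Q]

lemma ext_cont {A B : Type} [NonUnitalCStarAlgebra A] [NonUnitalCStarAlgebra B]
    (f : A →⋆ₙₐ[ℂ] B) : Continuous (ext f) :=
  map_continuous (Unitization.starMap f : Unitization ℂ A →⋆ₐ[ℂ] Unitization ℂ B)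

/-- the endomorphism given by the splitting -/
noncomputable def sg (p : E →⋆ₙₐ[ℂ] Q) (s : Q →⋆ₙₐ[ℂ] E) :
    Unitization ℂ E →ₙ+* Unitization ℂ E := (ext s).comp (ext p)

lemma sg_apply (p : E →⋆ₙₐ[ℂ] Q) (s : Q →⋆ₙₐ[ℂ] E) (x : Unitization ℂ E) :
    sg p s x = ext s (ext p x) := rfl

lemma sg_one (p : E →⋆ₙₐ[ℂ] Q) (s : Q →⋆ₙₐ[ℂ] E) : sg p s 1 = 1 := by
  rw [sg_apply, ext_one, ext_one]

lemma sg_cont (p : E →⋆ₙₐ[ℂ] Q) (s : Q →⋆ₙₐ[ℂ] E) : Continuous (sg p s) :=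
  (ext_cont s).comp (ext_cont p)

lemma p_sg (p : E →⋆ₙₐ[ℂ] Q) (s : Q →⋆ₙₐ[ℂ] E) (hps : ∀ q, p (s q) = q)
    (x : Unitization ℂ E) : ext p (sg p s x) = ext p x := by
  rw [sg_apply]
  apply un_ext
  · rw [ext_fst, ext_fst]
  · rw [ext_snd, ext_snd, hps]

lemma sg_i (i : J →⋆ₙₐ[ℂ] E) (p : E →⋆ₙₐ[ℂ] Q) (s : Q →⋆ₙₐ[ℂ] E) (hpi : ∀ y, p (i y) = 0)
    (x : Unitization ℂ J) : sg p s (ext i x) = algebraMap ℂ (Unitization ℂ E) (aug J x) := by
  rw [sg_apply, aug_apply]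
  apply un_ext
  · rw [ext_fst, ext_fst, ext_fst, scalar_fst]
  · rw [ext_snd, ext_snd, ext_snd, hpi, map_zero, scalar_snd]

lemma mm_p_sg (p : E →⋆ₙₐ[ℂ] Q) (s : Q →⋆ₙₐ[ℂ] E) (hps : ∀ q, p (s q) = q)
    {ι κ : Type} (x : Matrix ι κ (Unitization ℂ E)) :
    mm (ext p) (mm (sg p s) x) = mm (ext p) x := by
  funext a b
  exact p_sg p s hps (x a b)

lemma mm_sg_i (i : J →⋆ₙₐ[ℂ] E) (p : E →⋆ₙₐ[ℂ] Q) (s : Q →⋆ₙₐ[ℂ] E) (hpi : ∀ y, p (i y) = 0)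
    {ι : Type} [DecidableEq ι] (g : Matrix ι ι (Unitization ℂ J)) (hg : mm (aug J) g = 1) :
    mm (sg p s) (mm (ext i) g) = 1 := by
  funext a b
  show sg p s (ext i (g a b)) = _
  rw [sg_i i p s hpi]
  have h : aug J (g a b) = (1 : Matrix ι ι ℂ) a b := congrFun (congrFun hg a) b
  rw [h, Matrix.one_apply, Matrix.one_apply]
  split_ifs
  · exact map_one _
  · exact map_zero _

lemma mm_cont {A B : Type} [NormedRing A] [NormedRing B] (f : A →ₙ+* B) (hf : Continuous f)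
    {ι κ : Type} : Continuous (mm f : Matrix ι κ A → Matrix ι κ B) := by
  apply continuous_matrix
  intro a b
  exact hf.comp (continuous_id.matrix_elem a b)

/-- correction of a unit -/
noncomputable def W (p : E →⋆ₙₐ[ℂ] Q) (s : Q →⋆ₙₐ[ℂ] E) {ι : Type} [Fintype ι] [DecidableEq ι]
    (x : Matrix ι ι (Unitization ℂ E)) : Matrix ι ι (Unitization ℂ E) :=
  x * Ring.inverse (mm (sg p s) x)

lemma W_unit (p : E →⋆ₙₐ[ℂ] Q) (s : Q →⋆ₙₐ[ℂ] E) {ι : Type} [Fintype ι] [DecidableEq ι]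
    {x : Matrix ι ι (Unitization ℂ E)} (hx : IsUnit x) : IsUnit (W p s x) :=
  hx.mul (isUnit_ringInverse.2 (mm_isUnit _ (sg_one p s) hx))

lemma W_p (p : E →⋆ₙₐ[ℂ] Q) (s : Q →⋆ₙₐ[ℂ] E) (hps : ∀ q, p (s q) = q) {ι : Type} [Fintype ι]
    [DecidableEq ι] {x : Matrix ι ι (Unitization ℂ E)} (hx : IsUnit x) :
    mm (ext p) (W p s x) = 1 := by
  have h1 := mm_isUnit _ (sg_one p s) hx
  have h2 := Ring.mul_inverse_cancel _ h1
  have h3 := congrArg (mm (ext p)) h2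
  rw [mm_mul, mm_p_sg p s hps, mm_one _ (ext_one p)] at h3
  rw [W, mm_mul, h3]

lemma W_mul (p : E →⋆ₙₐ[ℂ] Q) (s : Q →⋆ₙₐ[ℂ] E) {ι : Type} [Fintype ι] [DecidableEq ι]
    {x : Matrix ι ι (Unitization ℂ E)} (hx : IsUnit x) : W p s x * mm (sg p s) x = x := by
  have h1 := mm_isUnit _ (sg_one p s) hx
  rw [W, Matrix.mul_assoc, Ring.inverse_mul_cancel _ h1, mul_one]

lemma W_of_one (p : E →⋆ₙₐ[ℂ] Q) (s : Q →⋆ₙₐ[ℂ] E) {ι : Type} [Fintype ι] [DecidableEq ι]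
    {x : Matrix ι ι (Unitization ℂ E)} (hx : mm (sg p s) x = 1) : W p s x = x := by
  rw [W, hx, Ring.inverse_one, mul_one]

lemma W_cont (hMTB : Stmt_MTB) (p : E →⋆ₙₐ[ℂ] Q) (s : Q →⋆ₙₐ[ℂ] E) {ι : Type} [Fintype ι]
    [DecidableEq ι] :
    ContinuousOn (W p s : Matrix ι ι (Unitization ℂ E) → Matrix ι ι (Unitization ℂ E))
      {x | IsUnit x} := by
  have h1 := (hMTB (Unitization ℂ E) ι).2.1
  have h2 : ContinuousOn (fun x : Matrix ι ι (Unitization ℂ E) =>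
      Ring.inverse (mm (sg p s) x)) {x | IsUnit x} :=
    h1.comp (mm_cont _ (sg_cont p s)).continuousOn fun x hx => mm_isUnit _ (sg_one p s) hx
  exact continuousOn_id.mul h2

lemma W_joined (hMTB : Stmt_MTB) (p : E →⋆ₙₐ[ℂ] Q) (s : Q →⋆ₙₐ[ℂ] E) (hps : ∀ q, p (s q) = q)
    {ι : Type} [Fintype ι] [DecidableEq ι] {x y : Matrix ι ι (Unitization ℂ E)}
    (h : Jn x y) : JoinedIn {w : Matrix ι ι (Unitization ℂ E) |
      IsUnit w ∧ mm (ext p) w = 1} (W p s x) (W p s y) := by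
  obtain ⟨γ, hγ⟩ := h
  refine ⟨⟨⟨fun t => W p s (γ t), ?_⟩, ?_, ?_⟩, fun t => ⟨W_unit p s (hγ t), W_p p s hps (hγ t)⟩⟩
  · exact (W_cont hMTB p s).comp_continuous γ.continuous hγ
  · show W p s (γ 0) = _
    rw [γ.source]
  · show W p s (γ 1) = _
    rw [γ.target]

end

end SP1_

open SP1_ in
theorem sp1_proof (hMTB : Stmt_MTB) (hK1A : Stmt_K1A) (hCR1 : Stmt_CR1) (hNF1 : Stmt_NF1)
    (hLFJ : Stmt_LFJ) : Stmt_SP1 := by
  intro J E Q _ _ _ i p s hi hp hinj hex hps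
  have hpi : ∀ y, p (i y) = 0 := fun y => (hex _).2 ⟨y, rfl⟩
  obtain ⟨-, j2, j3, -, j5, -, -⟩ := hK1A (Unitization ℂ J)
  obtain ⟨-, e2, -, e4, -, -, e7⟩ := hK1A (Unitization ℂ E)
  obtain ⟨-, -, -, -, c5, -, -⟩ := hK1A ℂ
  constructor
  · intro x hx hx'
    obtain ⟨n, g, hg, hg1, rfl⟩ := hNF1 J x hx
    rw [K1.map_c1] at hx'
    have hu : IsUnit (mm (ext i) g) := mm_isUnit _ (ext_one i) hg
    rw [c1_congr (m1_eq_mm _ (ext_one i) g) _ hu] at hx'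
    obtain ⟨k, hk⟩ := hCR1 (Unitization ℂ E) n _ hu hx'
    have hk' := W_joined hMTB p s hps hk
    have a1 : Matrix.fromBlocks (mm (ext i) g) 0 0
        (1 : Matrix (Fin k) (Fin k) (Unitization ℂ E)) =
        mm (ext i) (Matrix.fromBlocks g 0 0 (1 : Matrix (Fin k) (Fin k) (Unitization ℂ J))) := by
      rw [mm_fromBlocks, mm_zero, mm_zero, mm_one _ (ext_one i)]
    have a2 : mm (aug J) (Matrix.fromBlocks g 0 0
        (1 : Matrix (Fin k) (Fin k) (Unitization ℂ J))) = 1 := by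
      rw [mm_fromBlocks, mm_zero, mm_zero, mm_one _ aug_one, hg1, Matrix.fromBlocks_one]
    rw [a1, W_of_one p s (mm_sg_i i p s hpi _ a2), W_of_one p s (mm_one _ (sg_one p s)),
      ← mm_one (ext i) (ext_one i)] at hk'
    have hJ := (hLFJ J E Q i p hinj hex (Fin n ⊕ Fin k)).2 _ _ hk'
    obtain ⟨hu', b1⟩ := j3 (Fin n) (Fin k) g 1 hg isUnit_one
    have b2 := j2 _ _ _ hu' isUnit_one hJ
    rw [j5, b1, j5, add_zero] at b2
    exact b2
  · intro y _ hy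
    obtain ⟨n, g, hg, rfl⟩ := e7 y
    have hs : Continuous (ext s) := ext_cont s
    have h1 : K1.map (sg p s) (sg_cont p s) (c1 g hg) = 0 := by
      have h2 := K1.map_comp (ext s) (ext p) hs hp (c1 g hg)
      rw [hy, map_zero] at h2
      exact h2
    rw [K1.map_c1] at h1
    have hu : IsUnit (mm (sg p s) g) := mm_isUnit _ (sg_one p s) hg
    rw [c1_congr (m1_eq_mm _ (sg_one p s) g) _ hu] at h1
    have hw := W_unit p s hg
    have h3 := e4 (Fin n) (W p s g) (mm (sg p s) g) hw hu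
    rw [h1, add_zero, c1_congr (W_mul p s hg) _ hg] at h3
    obtain ⟨g', hg', k1, k2⟩ := (hLFJ J E Q i p hinj hex (Fin n)).1 _ hw (W_p p s hps hg)
    refine ⟨c1 g' hg', ?_, ?_⟩
    · rw [K1.map_c1]
      have k3 : m1 (aug J) g' = 1 := by rw [m1_eq_mm _ aug_one, k2]
      rw [c1_congr k3 _ isUnit_one, c5]
    · rw [K1.map_c1, h3]
      exact c1_congr (by rw [m1_eq_mm _ (ext_one i), k1]) _ _

end Pool.Agent.KCH
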