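import Pool.Agent.KCH.Base

/-!
# The universal coefficient theorem: definitions of the final statement (MP_b3c914_an)
-/

set_option autoImplicit false

namespace Pool.Agent.KCH.Spec

open TopologicalSpace

instance (A : SepCAlg) : NonUnitalCStarAlgebra A.carrier := A.alg

instance (A : SepCAlg) : SeparableSpace A.carrier := A.sep

/-- a separable unital C*-algebra as an object of the category of separable C*-algebras -/
noncomputable def of (A : Type) [CStarAlgebra A] [SeparableSpace A] : SepCAlg :=
  ⟨A, inferInstance, inferInstance⟩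

/-- the (not necessarily unital) *-homomorphisms -/
abbrev Hm (A B : SepCAlg) : Type := A.carrier →⋆ₙₐ[ℂ] B.carrier

/-- a functor from the separable C*-algebras to the abelian groups -/
structure Fun where
  obj : SepCAlg → Type
  grp : (A : SepCAlg) → AddCommGroup (obj A)
  map : {A B : SepCAlg} → Hm A B → obj A →+ obj B
  map_id : ∀ (A : SepCAlg) (x : obj A), map (NonUnitalStarAlgHom.id ℂ A.carrier) x = x
  map_comp : ∀ {A B C : SepCAlg} (g : Hm B C) (f : Hm A B) (x : obj A),
    map (g.comp f) x = map g (map f x)

instance (F : Fun) (A : SepCAlg) : AddCommGroup (F.obj A) := F.grp A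

/-- homotopic *-homomorphisms induce the same map -/
def HomotopyInvariant (F : Fun) : Prop :=
  ∀ (A B : SepCAlg) (f g : Hm A B), Homotopic f g → F.map f = F.map g

/-- the rules for the elementary tensors `θ i j b = b ⊗ e_ij`, with `e_ij` the matrix units of the
compact operators `K` on `ℓ²(ℕ)` -/
def TensorRules {B J : Type} [CStarAlgebra B] [NonUnitalCStarAlgebra J]
    (θ : ℕ → ℕ → B →ₗ[ℂ] J) : Prop :=
  (∀ i j b, star (θ i j b) = θ j i (star b)) ∧
  (∀ i j k a b, θ i j a * θ j k b = θ i k (a * b)) ∧
  ∀ i j j' k a b, j ≠ j' → θ i j a * θ j' k b = 0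

/-- `J` is the stabilisation `B ⊗ K` of `B`, with the elementary tensors `θ i j b = b ⊗ e_ij` -/
def IsStabilisation {B J : Type} [CStarAlgebra B] [NonUnitalCStarAlgebra J]
    (θ : ℕ → ℕ → B →ₗ[ℂ] J) : Prop :=
  TensorRules θ ∧ (∀ i j b, ‖θ i j b‖ = ‖b‖) ∧
  Dense (Submodule.span ℂ {x | ∃ i j b, x = θ i j b} : Set J)

/-- Stability: the corner embedding `b ↦ b ⊗ e_00`, `B → B ⊗ K`, induces an isomorphism. (It is only
required for unital algebras; for a split exact functor this implies it for all algebras.) -/
def Stable (F : Fun) : Prop :=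
  ∀ (B : Type) [CStarAlgebra B] [SeparableSpace B] (J : SepCAlg)
    (θ : ℕ → ℕ → B →ₗ[ℂ] J.carrier) (e : Hm (of B) J), IsStabilisation θ →
    (∀ b : B, e b = θ 0 0 b) → Function.Bijective (F.map e)

/-- split exactness: a split exact sequence `0 → J → E → Q → 0` of C*-algebras gives an exact
sequence `0 → F(J) → F(E) → F(Q)` (so a split exact one) -/
def SplitExact (F : Fun) : Prop :=
  ∀ (J E Q : SepCAlg) (i : Hm J E) (p : Hm E Q) (s : Hm Q E), Function.Injective i →
    (∀ x, p x = 0 ↔ ∃ y, i y = x) → (∀ q, p (s q) = q) →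
    Function.Injective (F.map i) ∧ ∀ x, F.map p x = 0 ↔ ∃ y, F.map i y = x

/-- A *-homomorphism which every homotopy invariant, stable and split exact functor maps to an
isomorphism (by Higson's theorem: a *-homomorphism which is a `KK`-equivalence). -/
def IsKKEquivalence {A B : SepCAlg} (f : Hm A B) : Prop :=
  ∀ F : Fun, HomotopyInvariant F → Stable F → SplitExact F → Function.Bijective (F.map f)

/-- `A` satisfies the universal coefficient theorem: it is `KK`-equivalent to a commutative
C*-algebra `B` (Rosenberg and Schochet, Skandalis), by a zigzag of *-homomorphisms which are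
`KK`-equivalences. -/
def UCT (A : Type) [CStarAlgebra A] [SeparableSpace A] : Prop :=
  ∃ B : SepCAlg, (∀ x y : B.carrier, x * y = y * x) ∧
    Relation.EqvGen (fun C D : SepCAlg => ∃ f : Hm C D, IsKKEquivalence f) (of A) B

end Pool.Agent.KCH.Spec
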