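import Pool.Agent.KCH.RStmts

/-!
# Squad KCH, module WSM: sums over words
-/

set_option autoImplicit false

namespace Pool.Agent.KCH

open TopologicalSpace
open scoped ComplexOrder InnerProductSpace

namespace WSM_

theorem mem_WS (M : ℕ) : ∀ (k : ℕ) (μ : List ℤ),
    μ ∈ WS M k ↔ μ.length = k ∧ ∀ x ∈ μ, |x| ≤ (M : ℤ) := by
  intro k
  induction k with
  | zero =>
    intro μ
    rw [WS, Finset.mem_singleton]
    constructor
    · rintro rfl
      simp
    · rintro ⟨h, -⟩
      exact List.length_eq_zero_iff.1 h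
  | succ k ih =>
    intro μ
    rw [WS, Finset.mem_image]
    constructor
    · rintro ⟨⟨x, ν⟩, h, rfl⟩
      rw [Finset.mem_product, Finset.mem_Icc, ih] at h
      obtain ⟨h1, h2, h3⟩ := h
      refine ⟨?_, ?_⟩
      · show (x :: ν).length = k + 1
        rw [List.length_cons, h2]
      · intro z hz
        rcases List.mem_cons.1 hz with h | h
        · rw [h, abs_le]
          exact h1
        · exact h3 z h
    · rintro ⟨h1, h2⟩
      cases μ with
      | nil => simp at h1
      | cons x ν =>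
        refine ⟨(x, ν), ?_, rfl⟩
        rw [Finset.mem_product, Finset.mem_Icc, ih, ← abs_le]
        refine ⟨h2 x (List.mem_cons_self ..), ?_, fun z hz => h2 z (List.mem_cons_of_mem _ hz)⟩
        rw [List.length_cons] at h1
        exact Nat.add_right_cancel h1

theorem sum_WS {T : Type} [AddCommMonoid T] (M k : ℕ) (f : List ℤ → T) :
    ∑ μ ∈ WS M (k + 1), f μ = ∑ x ∈ Finset.Icc (-(M : ℤ)) M, ∑ μ ∈ WS M k, f (x :: μ) := by
  rw [WS, Finset.sum_image, Finset.sum_product]
  rintro ⟨x, μ⟩ - ⟨y, ν⟩ - h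
  have h' : x :: μ = y :: ν := h
  rw [List.cons.injEq] at h'
  exact Prod.ext h'.1 h'.2

section
variable {B : Type} [CStarAlgebra B] (u s : B) (M : ℕ) (h : ℤ → ℝ) (y : B)

theorem term (x : ℤ) (μ : List ℤ) (a c : ℝ) :
    ((a * c : ℝ) : ℂ) • (Sw u s (x :: μ) * y * star (Sw u s (x :: μ))) =
      ((a : ℝ) : ℂ) • (Sk u s x * (((c : ℝ) : ℂ) • (Sw u s μ * y * star (Sw u s μ))) *
        star (Sk u s x)) := by
  have e : Sw u s (x :: μ) = Sk u s x * Sw u s μ := rfl
  rw [e, star_mul, mul_smul_comm, smul_mul_assoc, smul_smul, ← Complex.ofReal_mul]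
  congr 1
  simp only [mul_assoc]

theorem sum2 : ∀ k, ∑ μ ∈ WS M k, ((hw h μ ^ 2 : ℝ) : ℂ) • (Sw u s μ * y * star (Sw u s μ)) =
    itL u s M h k y := by
  intro k
  induction k with
  | zero =>
    rw [WS, Finset.sum_singleton]
    have e1 : hw h [] = 1 := rfl
    have e2 : Sw u s [] = 1 := rfl
    have e3 : itL u s M h 0 y = y := rfl
    rw [e1, e2, e3]
    simp
  | succ k ih =>
    have e3 : itL u s M h (k + 1) y = Lam u s M (fun k => h k ^ 2) (itL u s M h k y) := by
      rw [itL, Function.iterate_succ_apply']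
      rfl
    rw [e3, ← ih, sum_WS, Lam]
    refine Finset.sum_congr rfl fun x _ => ?_
    rw [Finset.mul_sum, Finset.sum_mul, Finset.smul_sum]
    refine Finset.sum_congr rfl fun μ _ => ?_
    have e4 : hw h (x :: μ) = h x * hw h μ := by
      rw [hw, hw, List.map_cons, List.prod_cons]
    have e6 : hw h (x :: μ) ^ 2 = h x ^ 2 * hw h μ ^ 2 := by
      rw [e4]
      ring
    rw [e6, term]

theorem sum3 (k : ℕ) (l : ℤ) : ∑ μ ∈ WS M (k + 1),
      ((hw h (sh l μ) * hw h μ : ℝ) : ℂ) • (Sw u s μ * y * star (Sw u s μ)) =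
    Lam u s M (fun κ => h (κ + l) * h κ) (itL u s M h k y) := by
  rw [← sum2, sum_WS, Lam]
  refine Finset.sum_congr rfl fun x _ => ?_
  rw [Finset.mul_sum, Finset.sum_mul, Finset.smul_sum]
  refine Finset.sum_congr rfl fun μ _ => ?_
  have e4 : hw h (x :: μ) = h x * hw h μ := by
    rw [hw, hw, List.map_cons, List.prod_cons]
  have e5 : hw h (sh l (x :: μ)) = h (x + l) * hw h μ := by
    rw [sh, hw, hw, List.map_cons, List.prod_cons]
  have e6 : hw h (sh l (x :: μ)) * hw h (x :: μ) = h (x + l) * h x * hw h μ ^ 2 := by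
    rw [e4, e5]
    ring
  rw [e6, term]

end

end WSM_

open WSM_ in
theorem wsm_proof : Stmt_WSM := fun _ _ u s M h y =>
  ⟨mem_WS M, sum2 u s M h y, sum3 u s M h y⟩

end Pool.Agent.KCH
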